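import Mathlib

/-! Row AngAbs: abstract spectral decomposition (refinement of Pool/Agent/CLR3/AngAbs.lean). -/

open scoped InnerProductSpace

namespace Pool.Agent.CLR5

/-- A nonnegative form on `K` which on an increasing chain of subspaces `U n` is given by operators
acting as `lam n` on `U (n + 1) / U n`, `lam` increasing, `lam 0 >= 0`.  With `P n` the projection
onto `T (U n)`: the form is at least
`∑_{n < J} lam n ‖P_(n+1) F - P_n F‖^2 + lam J ‖F - P_J F‖^2`. -/
theorem abstract_gap {K H ι : Type*} [AddCommGroup K] [Module ℝ K] [NormedAddCommGroup H]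
    [InnerProductSpace ℝ H] (s : Finset ι) (T : K →ₗ[ℝ] H) (S : ι → K →ₗ[ℝ] H)
    (U : ℕ → Submodule ℝ K) (hU : Monotone U) (h0 : U 0 = ⊥) (lam : ℕ → ℝ) (hl : Monotone lam)
    (hl0 : 0 ≤ lam 0) [∀ n, FiniteDimensional ℝ ((U n).map T)]
    (hs : ∀ n, ∀ p ∈ U (n + 1), ∃ p' ∈ U (n + 1),
      (∀ F, ∑ k ∈ s, ⟪S k F, S k p⟫_ℝ = ⟪T F, T p'⟫_ℝ) ∧ p' - lam n • p ∈ U n)
    (hd : ∀ F, ∀ ε > 0, ∃ n, ∃ p ∈ U n, ‖T F - T p‖ < ε) (J : ℕ) (F : K) :
    ∑ n ∈ Finset.range J, lam n * ‖((U (n + 1)).map T).starProjection (T F) -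
        ((U n).map T).starProjection (T F)‖ ^ 2 +
      lam J * ‖T F - ((U J).map T).starProjection (T F)‖ ^ 2 ≤
      ∑ k ∈ s, ⟪S k F, S k F⟫_ℝ := by
  classical
  have hlJ : 0 ≤ lam J := hl0.trans (hl (Nat.zero_le J))
  -- decomposition
  have dec : ∀ n, ∀ F : K, ∃ p ∈ U n, (∀ q ∈ U n, ⟪T (F - p), T q⟫_ℝ = 0) ∧
      T p = ((U n).map T).starProjection (T F) := by
    intro n F
    have h1 : ((U n).map T).starProjection (T F) ∈ (U n).map T :=
      Submodule.starProjection_apply_mem _ _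
    obtain ⟨p, hp, hp'⟩ := h1
    refine ⟨p, hp, fun q hq => ?_, hp'⟩
    rw [map_sub, hp']
    exact Submodule.starProjection_inner_eq_zero _ _ ⟨q, hq, rfl⟩
  have shp : ∀ n, ∀ p ∈ U n, ∃ p' ∈ U n, (∀ F, ∑ k ∈ s, ⟪S k F, S k p⟫_ℝ = ⟪T F, T p'⟫_ℝ) := by
    intro n p hp
    cases n with
    | zero =>
      rw [h0, Submodule.mem_bot] at hp
      subst hp
      exact ⟨0, Submodule.zero_mem _, fun F => by simp⟩
    | succ n =>
      obtain ⟨p', h1, h2, _⟩ := hs n p hp
      exact ⟨p', h1, h2⟩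
  have hcross : ∀ n, ∀ p ∈ U n, ∀ G : K, (∀ q ∈ U n, ⟪T G, T q⟫_ℝ = 0) →
      ∑ k ∈ s, ⟪S k (p + G), S k (p + G)⟫_ℝ =
        ∑ k ∈ s, ⟪S k p, S k p⟫_ℝ + ∑ k ∈ s, ⟪S k G, S k G⟫_ℝ := by
    intro n p hp G hG
    obtain ⟨p', h1, h2⟩ := shp n p hp
    have h3 : ∑ k ∈ s, ⟪S k G, S k p⟫_ℝ = 0 := by rw [h2 G]; exact hG p' h1
    have h4 : ∀ k, ⟪S k (p + G), S k (p + G)⟫_ℝ =
        ⟪S k p, S k p⟫_ℝ + ⟪S k G, S k G⟫_ℝ + 2 * ⟪S k G, S k p⟫_ℝ := by
      intro k
      rw [map_add, inner_add_left, inner_add_right, inner_add_right,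
        real_inner_comm (S k p) (S k G)]
      ring
    rw [Finset.sum_congr rfl (fun k _ => h4 k), Finset.sum_add_distrib, Finset.sum_add_distrib,
      ← Finset.mul_sum, h3]
    ring
  have hP0 : ∀ m n, n ≤ m → ∀ G : K, (∀ q ∈ U m, ⟪T G, T q⟫_ℝ = 0) →
      ((U n).map T).starProjection (T G) = 0 := by
    intro m n hn G hG
    rw [Submodule.starProjection_apply_eq_zero_iff, Submodule.mem_orthogonal]
    rintro _ ⟨q, hq, rfl⟩
    rw [real_inner_comm]
    exact hG q (hU hn hq)
  have hPadd : ∀ m n, n ≤ m → ∀ p G : K, (∀ q ∈ U m, ⟪T G, T q⟫_ℝ = 0) →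
      ((U n).map T).starProjection (T (p + G)) = ((U n).map T).starProjection (T p) := by
    intro m n hn p G hG
    rw [map_add, map_add, hP0 m n hn G hG, add_zero]
  have heig : ∀ n, ∀ G ∈ U (n + 1), (∀ q ∈ U n, ⟪T G, T q⟫_ℝ = 0) →
      ∑ k ∈ s, ⟪S k G, S k G⟫_ℝ = lam n * ‖T G‖ ^ 2 := by
    intro n G hG ho
    obtain ⟨q', hq', hq1, hq2⟩ := hs n _ hG
    rw [hq1 G]
    have h2 : q' = lam n • G + (q' - lam n • G) := by abel
    rw [h2, map_add, inner_add_right, ho _ hq2, add_zero, map_smul, inner_smul_right,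
      real_inner_self_eq_norm_sq]
  have hexact : ∀ n, ∀ p ∈ U n, ∑ k ∈ s, ⟪S k p, S k p⟫_ℝ =
      ∑ i ∈ Finset.range n, lam i * ‖((U (i + 1)).map T).starProjection (T p) -
        ((U i).map T).starProjection (T p)‖ ^ 2 := by
    intro n
    induction n with
    | zero =>
      intro p hp
      rw [h0, Submodule.mem_bot] at hp
      subst hp
      simp
    | succ n ih =>
      intro p hp
      obtain ⟨r, hr, hro, hrp⟩ := dec n p
      have hG : p - r ∈ U (n + 1) := Submodule.sub_mem _ hp (hU n.le_succ hr)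
      have h1 := hcross n r hr (p - r) hro
      have h2 := heig n (p - r) hG hro
      rw [add_sub_cancel] at h1
      rw [h1, ih r hr, h2, Finset.sum_range_succ]
      congr 1
      · apply Finset.sum_congr rfl
        intro i hi
        rw [Finset.mem_range] at hi
        have e1 := hPadd n (i + 1) hi r (p - r) hro
        have e2 := hPadd n i hi.le r (p - r) hro
        rw [add_sub_cancel] at e1 e2
        rw [e1, e2]
      · have e1 : ((U (n + 1)).map T).starProjection (T p) = T p :=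
          Submodule.starProjection_eq_self_iff.2 ⟨p, hp, rfl⟩
        rw [e1, ← hrp, ← map_sub]
  have hsplit : ∀ n, J ≤ n → ∀ p ∈ U n, ∀ G : K, (∀ q ∈ U n, ⟪T G, T q⟫_ℝ = 0) →
      ∑ i ∈ Finset.range J, lam i * ‖((U (i + 1)).map T).starProjection (T (p + G)) -
        ((U i).map T).starProjection (T (p + G))‖ ^ 2 +
      lam J * ‖T (p + G) - ((U J).map T).starProjection (T (p + G))‖ ^ 2 =
      ∑ i ∈ Finset.range J, lam i * ‖((U (i + 1)).map T).starProjection (T p) -
        ((U i).map T).starProjection (T p)‖ ^ 2 +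
      lam J * ‖T p - ((U J).map T).starProjection (T p)‖ ^ 2 + lam J * ‖T G‖ ^ 2 := by
    intro n hn p hp G hG
    have h1 : ∑ i ∈ Finset.range J, lam i * ‖((U (i + 1)).map T).starProjection (T (p + G)) -
        ((U i).map T).starProjection (T (p + G))‖ ^ 2 =
      ∑ i ∈ Finset.range J, lam i * ‖((U (i + 1)).map T).starProjection (T p) -
        ((U i).map T).starProjection (T p)‖ ^ 2 := by
      apply Finset.sum_congr rfl
      intro i hi
      rw [Finset.mem_range] at hi
      rw [hPadd n (i + 1) (by omega) p G hG, hPadd n i (by omega) p G hG]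
    obtain ⟨r, hr, _, hr'⟩ := dec J p
    have h2 : ⟪T p - ((U J).map T).starProjection (T p), T G⟫_ℝ = 0 := by
      rw [← hr', ← map_sub, real_inner_comm]
      exact hG _ (Submodule.sub_mem _ hp (hU hn hr))
    have h3 : ‖T (p + G) - ((U J).map T).starProjection (T (p + G))‖ ^ 2 =
        ‖T p - ((U J).map T).starProjection (T p)‖ ^ 2 + ‖T G‖ ^ 2 := by
      rw [hPadd n J hn p G hG, map_add, add_sub_right_comm, pow_two, pow_two, pow_two]
      exact norm_add_sq_eq_norm_sq_add_norm_sq_of_inner_eq_zero _ _ h2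
    rw [h1, h3]
    ring
  have main : ∀ n, J ≤ n → ∀ p ∈ U n,
      ∑ i ∈ Finset.range J, lam i * ‖((U (i + 1)).map T).starProjection (T p) -
        ((U i).map T).starProjection (T p)‖ ^ 2 +
      lam J * ‖T p - ((U J).map T).starProjection (T p)‖ ^ 2 ≤ ∑ k ∈ s, ⟪S k p, S k p⟫_ℝ := by
    intro n hn
    induction n, hn using Nat.le_induction with
    | base =>
      intro p hp
      have h1 : ((U J).map T).starProjection (T p) = T p :=
        Submodule.starProjection_eq_self_iff.2 ⟨p, hp, rfl⟩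
      rw [hexact J p hp, h1, sub_self, norm_zero]
      simp
    | succ n hn ih =>
      intro p hp
      obtain ⟨r, hr, hro, _⟩ := dec n p
      have hq : p - r ∈ U (n + 1) := Submodule.sub_mem _ hp (hU n.le_succ hr)
      have h1 := heig n (p - r) hq hro
      have h3 := hcross n r hr (p - r) hro
      have h4 := hsplit n hn r hr (p - r) hro
      rw [add_sub_cancel] at h3 h4
      rw [h3, h4, h1]
      have h5 := ih r hr
      have h6 : lam J * ‖T (p - r)‖ ^ 2 ≤ lam n * ‖T (p - r)‖ ^ 2 :=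
        mul_le_mul_of_nonneg_right (hl hn) (sq_nonneg _)
      linarith
  -- conclusion
  by_contra hcon
  push Not at hcon
  set A := lam J with hA
  set LF := ∑ n ∈ Finset.range J, lam n * ‖((U (n + 1)).map T).starProjection (T F) -
        ((U n).map T).starProjection (T F)‖ ^ 2 +
      A * ‖T F - ((U J).map T).starProjection (T F)‖ ^ 2 with hLF
  set R := LF - ∑ k ∈ s, ⟪S k F, S k F⟫_ℝ with hR
  have hR0 : 0 < R := by rw [hR]; linarith
  obtain ⟨n, p, hp, hpd⟩ := hd F (Real.sqrt (R / (A + 1))) (Real.sqrt_pos.2 (by positivity))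
  -- go to m = max n J
  obtain ⟨r, hr, hro, hr'⟩ := dec (max n J) F
  have hp2 : p ∈ U (max n J) := hU (le_max_left _ _) hp
  have h1 : ‖T (F - r)‖ ≤ ‖T F - T p‖ := by
    have h2 : ⟪T (F - r), T (r - p)⟫_ℝ = 0 := hro _ (Submodule.sub_mem _ hr hp2)
    have h3 : T F - T p = T (F - r) + T (r - p) := by simp
    have h4 := norm_add_sq_eq_norm_sq_add_norm_sq_of_inner_eq_zero _ _ h2
    rw [h3]
    nlinarith [norm_nonneg (T (F - r)), norm_nonneg (T (r - p)),
      norm_nonneg (T (F - r) + T (r - p))]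
  have h2 : ‖T (F - r)‖ ^ 2 < R / (A + 1) := by
    have h3 : ‖T (F - r)‖ < Real.sqrt (R / (A + 1)) := lt_of_le_of_lt h1 hpd
    have h4 := Real.sq_sqrt (le_of_lt (show 0 < R / (A + 1) by positivity))
    nlinarith [norm_nonneg (T (F - r)), Real.sqrt_nonneg (R / (A + 1))]
  have h3 := hcross (max n J) r hr (F - r) hro
  have h4 := hsplit (max n J) (le_max_right _ _) r hr (F - r) hro
  rw [add_sub_cancel] at h3 h4
  rw [← hLF] at h4
  have h5 := main (max n J) (le_max_right _ _) r hr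
  have h6 : 0 ≤ ∑ k ∈ s, ⟪S k (F - r), S k (F - r)⟫_ℝ :=
    Finset.sum_nonneg fun k _ => real_inner_self_nonneg
  have h7 : A * ‖T (F - r)‖ ^ 2 < R := by
    have h8 : (A + 1) * ‖T (F - r)‖ ^ 2 < R := by
      rwa [lt_div_iff₀' (by positivity)] at h2
    nlinarith [sq_nonneg ‖T (F - r)‖]
  rw [hR, h3, h4] at h7
  linarith

private theorem AngAbsB_sum_lt {A : Type*} [AddCommMonoid A] {J M : ℕ} (k : ℕ) (hk : k ≤ J)
    (m : ℕ → ℕ) (G : ∀ n, Fin (m n) → A) (e : (Σ n : Fin J, Fin (m n)) ≃ Fin M) :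
    ∑ i with ((e.symm i).1 : ℕ) < k, G _ (e.symm i).2 = ∑ n ∈ Finset.range k, ∑ j, G n j := by
  rw [Finset.sum_filter]
  refine (e.symm.sum_comp (fun a : (Σ n : Fin J, Fin (m n)) =>
    if (a.1 : ℕ) < k then G a.1 a.2 else 0)).trans ?_
  rw [Fintype.sum_sigma]
  change ∑ n : Fin J, (fun n : ℕ => ∑ j : Fin (m n), if n < k then G n j else 0) n = _
  rw [Fin.sum_univ_eq_sum_range (fun n => ∑ j : Fin (m n), if n < k then G n j else 0) J]
  rw [← Finset.sum_subset (Finset.range_subset_range.2 hk)]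
  · refine Finset.sum_congr rfl fun n hn => Finset.sum_congr rfl fun j _ => ?_
    rw [if_pos (Finset.mem_range.1 hn)]
  · intro n _ hn
    refine Finset.sum_eq_zero fun j _ => ?_
    rw [if_neg (fun h => hn (Finset.mem_range.2 h))]

private theorem AngAbsB_sum_eq {A : Type*} [AddCommMonoid A] {J M : ℕ} (k : ℕ) (hk : k < J)
    (m : ℕ → ℕ) (G : ∀ n, Fin (m n) → A) (e : (Σ n : Fin J, Fin (m n)) ≃ Fin M) :
    ∑ i with ((e.symm i).1 : ℕ) = k, G _ (e.symm i).2 = ∑ j, G k j := by
  rw [Finset.sum_filter]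
  refine (e.symm.sum_comp (fun a : (Σ n : Fin J, Fin (m n)) =>
    if (a.1 : ℕ) = k then G a.1 a.2 else 0)).trans ?_
  rw [Fintype.sum_sigma]
  change ∑ n : Fin J, (fun n : ℕ => ∑ j : Fin (m n), if n = k then G n j else 0) n = _
  rw [Fin.sum_univ_eq_sum_range (fun n => ∑ j : Fin (m n), if n = k then G n j else 0) J]
  rw [Finset.sum_eq_single k]
  · refine Finset.sum_congr rfl fun j _ => ?_
    rw [if_pos rfl]
  · intro n _ hn
    refine Finset.sum_eq_zero fun j _ => ?_
    rw [if_neg hn]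
  · intro h
    exact absurd (Finset.mem_range.2 hk) h

private theorem AngAbsB_proj {H : Type*} [NormedAddCommGroup H] [InnerProductSpace ℝ H]
    (V W : Submodule ℝ H) (h : V ≤ W) [FiniteDimensional ℝ V] [FiniteDimensional ℝ W]
    [FiniteDimensional ℝ (Vᗮ ⊓ W : Submodule ℝ H)] (x : H) :
    W.starProjection x = V.starProjection x + (Vᗮ ⊓ W).starProjection x := by
  refine Submodule.eq_starProjection_of_mem_of_inner_eq_zero ?_ ?_
  · exact W.add_mem (h (V.starProjection_apply_mem x))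
      ((Vᗮ ⊓ W).starProjection_apply_mem x).2
  · intro w hw
    have hc : w - V.starProjection w ∈ (Vᗮ ⊓ W : Submodule ℝ H) :=
      ⟨V.sub_starProjection_mem_orthogonal w, W.sub_mem hw (h (V.starProjection_apply_mem w))⟩
    have hq := (Vᗮ ⊓ W).starProjection_apply_mem x
    have h1 := V.starProjection_inner_eq_zero x _ (V.starProjection_apply_mem w)
    have h2 := (Vᗮ ⊓ W).starProjection_inner_eq_zero x _ hc
    have h3 : ⟪V.starProjection x, w - V.starProjection w⟫_ℝ = 0 :=
      hc.1 _ (V.starProjection_apply_mem x)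
    have h4 : ⟪V.starProjection w, (Vᗮ ⊓ W).starProjection x⟫_ℝ = 0 :=
      hq.1 _ (V.starProjection_apply_mem w)
    rw [real_inner_comm] at h4
    simp only [inner_sub_left, inner_sub_right, inner_add_left] at h1 h2 h3 ⊢
    linarith

/-- An orthonormal basis of the last member of a finite chain of finite-dimensional subspaces,
adapted to the chain. -/
theorem adapted_basis {H : Type*} [NormedAddCommGroup H] [InnerProductSpace ℝ H]
    (V : ℕ → Submodule ℝ H) (hV : Monotone V) (h0 : V 0 = ⊥) [∀ n, FiniteDimensional ℝ (V n)]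
    (J : ℕ) : ∃ (M : ℕ) (dg : Fin M → ℕ) (b : Fin M → H), (∀ i, dg i < J) ∧
      (∀ k ≤ J, (Finset.univ.filter (fun i => dg i < k)).card = Module.finrank ℝ (V k)) ∧
      Orthonormal ℝ b ∧ (∀ i, b i ∈ V (dg i + 1)) ∧
      ∀ x : H, (∀ k ≤ J, (V k).starProjection x =
          ∑ i with dg i < k, ⟪b i, x⟫_ℝ • b i) ∧
        ∀ n < J, ‖(V (n + 1)).starProjection x - (V n).starProjection x‖ ^ 2 =
          ∑ i with dg i = n, ⟪b i, x⟫_ℝ ^ 2 := by
  classical
  set C : ℕ → Submodule ℝ H := fun n => (V n)ᗮ ⊓ V (n + 1) with hC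
  have : ∀ n, FiniteDimensional ℝ (C n) := fun n => Submodule.finiteDimensional_of_le inf_le_right
  let c : ∀ n, OrthonormalBasis (Fin (Module.finrank ℝ (C n))) ℝ (C n) :=
    fun n => stdOrthonormalBasis ℝ (C n)
  have hc1 : ∀ n j, (c n j : H) ∈ (V n)ᗮ := fun n j => (c n j).2.1
  have hc2 : ∀ n j, (c n j : H) ∈ V (n + 1) := fun n j => (c n j).2.2
  have hQ : ∀ n x, (V (n + 1)).starProjection x - (V n).starProjection x =
      ∑ j, ⟪(c n j : H), x⟫_ℝ • (c n j : H) := by
    intro n x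
    rw [AngAbsB_proj (V n) (V (n + 1)) (hV (Nat.le_succ n)) x, add_sub_cancel_left]
    change (((C n).orthogonalProjectionOnto x : C n) : H) = _
    rw [(c n).orthogonalProjectionOnto_apply_eq_sum x]
    simp
  have hP : ∀ k x, (V k).starProjection x =
      ∑ n ∈ Finset.range k, ∑ j, ⟪(c n j : H), x⟫_ℝ • (c n j : H) := by
    intro k x
    induction k with
    | zero =>
      have : (V 0).starProjection x ∈ V 0 := (V 0).starProjection_apply_mem x
      rw [(Submodule.mem_bot ℝ).1 (h0.le this)]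
      simp
    | succ k ih =>
      rw [Finset.sum_range_succ, ← ih, ← hQ k x]
      abel
  have hon : ∀ n, Orthonormal ℝ (fun j => (c n j : H)) := fun n =>
    (c n).orthonormal.comp_linearIsometry (C n).subtypeₗᵢ
  have hN : ∀ n x, ‖(V (n + 1)).starProjection x - (V n).starProjection x‖ ^ 2 =
      ∑ j, ⟪(c n j : H), x⟫_ℝ ^ 2 := by
    intro n x
    rw [hQ n x, ← real_inner_self_eq_norm_sq, (hon n).inner_sum]
    refine Finset.sum_congr rfl fun j _ => ?_
    simp [sq]
  have hF : ∀ k, Module.finrank ℝ (V k) = ∑ n ∈ Finset.range k, Module.finrank ℝ (C n) := by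
    intro k
    induction k with
    | zero => simp [h0]
    | succ k ih =>
      rw [Finset.sum_range_succ, ← ih]
      exact (Submodule.finrank_add_inf_finrank_orthogonal (hV (Nat.le_succ k))).symm
  let e : (Σ n : Fin J, Fin (Module.finrank ℝ (C n))) ≃
      Fin (Fintype.card (Σ n : Fin J, Fin (Module.finrank ℝ (C n)))) := Fintype.equivFin _
  refine ⟨_, fun i => ((e.symm i).1 : ℕ), fun i => (c _ (e.symm i).2 : H), ?_, ?_, ?_, ?_, ?_⟩
  · intro i
    exact (e.symm i).1.2
  · intro k hk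
    rw [Finset.card_eq_sum_ones,
      AngAbsB_sum_lt (A := ℕ) k hk (fun n => Module.finrank ℝ (C n)) (fun _ _ => 1) e, hF k]
    refine Finset.sum_congr rfl fun n _ => ?_
    simp
  · have hsig : Orthonormal ℝ (fun a : (Σ n : Fin J, Fin (Module.finrank ℝ (C n))) =>
        (c a.1 a.2 : H)) := by
      refine ⟨fun a => (hon a.1).1 a.2, ?_⟩
      have key : ∀ (n m : ℕ) (i : Fin (Module.finrank ℝ (C n)))
          (j : Fin (Module.finrank ℝ (C m))), n < m → ⟪(c n i : H), (c m j : H)⟫_ℝ = 0 := by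
        intro n m i j hnm
        exact hc1 m j _ (hV (Nat.succ_le_of_lt hnm) (hc2 n i))
      rintro ⟨n, i⟩ ⟨m, j⟩ hne
      rcases lt_trichotomy n m with h | h | h
      · exact key _ _ i j h
      · subst h
        refine (hon n).2 ?_
        rintro rfl
        exact hne rfl
      · change ⟪(c n i : H), (c m j : H)⟫_ℝ = 0
        rw [real_inner_comm]
        exact key _ _ j i h
    exact hsig.comp _ e.symm.injective
  · intro i
    exact hc2 _ _
  · intro x
    refine ⟨?_, ?_⟩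
    · intro k hk
      rw [hP k x]
      exact (AngAbsB_sum_lt k hk (fun n => Module.finrank ℝ (C n))
        (fun n j => ⟪(c n j : H), x⟫_ℝ • (c n j : H)) e).symm
    · intro n hn
      rw [hN n x]
      exact (AngAbsB_sum_eq n hn (fun n => Module.finrank ℝ (C n))
        (fun n j => ⟪(c n j : H), x⟫_ℝ ^ 2) e).symm

end Pool.Agent.CLR5
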