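import Pool.Agent.Lib.MP_efa090_mp.Bas

/-! Row AngRot: infinitesimal rotations on `S^4` (port of Pool/Agent/CLR3/AngRot.lean, AngGeo.lean
to dimension 5: ten planes `i < j` instead of three). -/

open MeasureTheory Set Metric
open scoped InnerProductSpace

namespace Pool.Agent.CLR5

noncomputable section

section

open scoped Pointwise

/-- Linear isometries preserve the surface measure. -/
private theorem AngRot_sphere_mp (e : E5 ≃ₗᵢ[ℝ] E5) :
    MeasurePreserving (fun ω : S4 => (⟨e ω, by simp⟩ : S4)) σ σ := by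
  have hc : Continuous (fun ω : S4 => (⟨e ω, by simp⟩ : S4)) := by fun_prop
  refine ⟨hc.measurable, ?_⟩
  ext s hs
  rw [Measure.map_apply hc.measurable hs]
  unfold σ
  rw [Measure.toSphere_apply' _ hs, Measure.toSphere_apply' _ (hc.measurable hs)]
  have hv : ∀ t : Set E5, volume (e ⁻¹' t) = volume t := fun t =>
    (e.measurePreserving).measure_preimage_equiv (f := e.toHomeomorph.toMeasurableEquiv) t
  congr 1
  rw [← hv (Ioo (0 : ℝ) 1 • ((Subtype.val : S4 → E5) '' s))]
  congr 1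
  ext x
  simp only [Set.mem_smul, mem_image, mem_preimage]
  constructor
  · rintro ⟨r, hr, y, ⟨ω, hω, rfl⟩, rfl⟩
    exact ⟨r, hr, e ω, ⟨_, hω, rfl⟩, by simp⟩
  · rintro ⟨r, hr, y, ⟨ω, hω, rfl⟩, h⟩
    refine ⟨r, hr, e.symm ω, ⟨⟨e.symm ω, by simp⟩, by simpa using hω, rfl⟩, ?_⟩
    apply e.injective
    simpa using h

end

private theorem AngRot_integral_comp (e : E5 ≃ₗᵢ[ℝ] E5) (F : E5 → ℝ) (hF : Continuous F) :
    ∫ ω : S4, F (e ω) ∂σ = ∫ ω : S4, F ω ∂σ := by
  have h := AngRot_sphere_mp e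
  have h2 : ∫ ω : S4, F ω ∂σ =
      ∫ ω : S4, F ω ∂(Measure.map (fun ω : S4 => (⟨e ω, by simp⟩ : S4)) σ) := by
    rw [h.map_eq]
  rw [h2, integral_map h.aemeasurable]
  exact (hF.comp continuous_subtype_val).aestronglyMeasurable

/-- Infinitesimal rotation in the plane `i, j`. -/
def rotA (i j : Fin 5) : E5 →L[ℝ] E5 :=
  (EuclideanSpace.proj i).smulRight (EuclideanSpace.single j (1 : ℝ)) -
    (EuclideanSpace.proj j).smulRight (EuclideanSpace.single i (1 : ℝ))

/-- The planes. -/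
def planes : Finset (Fin 5 × Fin 5) := Finset.univ.filter (fun k => k.1 < k.2)

private theorem AngRot_rotA_apply (i j : Fin 5) (x : E5) :
    rotA i j x = x i • EuclideanSpace.single j (1 : ℝ) - x j • EuclideanSpace.single i (1 : ℝ) := by
  simp [rotA]

/-- Rotation in the plane `i, j`. -/
private def AngRot_rotR (i j : Fin 5) (s : ℝ) (x : E5) : E5 :=
  x + ((Real.cos s - 1) * x i - Real.sin s * x j) • EuclideanSpace.single i (1 : ℝ) +
    (Real.sin s * x i + (Real.cos s - 1) * x j) • EuclideanSpace.single j (1 : ℝ)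

private theorem AngRot_rotR_apply_i {i j : Fin 5} (hij : i ≠ j) (s : ℝ) (x : E5) :
    AngRot_rotR i j s x i = Real.cos s * x i - Real.sin s * x j := by
  simp [AngRot_rotR, hij]
  try ring

private theorem AngRot_rotR_apply_j {i j : Fin 5} (hij : i ≠ j) (s : ℝ) (x : E5) :
    AngRot_rotR i j s x j = Real.sin s * x i + Real.cos s * x j := by
  simp [AngRot_rotR, hij.symm]
  try ring

private theorem AngRot_norm_rotR {i j : Fin 5} (hij : i ≠ j) (s : ℝ) (x : E5) :
    ‖AngRot_rotR i j s x‖ = ‖x‖ := by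
  have h := Real.sin_sq_add_cos_sq s
  have h2 : ‖AngRot_rotR i j s x‖ ^ 2 = ‖x‖ ^ 2 := by
    unfold AngRot_rotR
    rw [norm_add_sq_real, norm_add_sq_real, inner_add_left, inner_smul_right, inner_smul_right,
      inner_smul_right, inner_smul_left, norm_smul, norm_smul, EuclideanSpace.inner_single_right,
      EuclideanSpace.inner_single_right, EuclideanSpace.inner_single_right]
    simp [hij.symm]
    linear_combination (x i ^ 2 + x j ^ 2) * h
  exact (pow_left_inj₀ (norm_nonneg _) (norm_nonneg _) two_ne_zero).1 h2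

/-- The rotation as a linear isometry equivalence. -/
private def AngRot_rotE {i j : Fin 5} (hij : i ≠ j) (s : ℝ) : E5 ≃ₗᵢ[ℝ] E5 :=
  LinearIsometry.toLinearIsometryEquiv
    { toFun := AngRot_rotR i j s
      map_add' := fun x y => by
        simp only [AngRot_rotR, PiLp.add_apply]
        module
      map_smul' := fun c x => by
        simp only [AngRot_rotR, PiLp.smul_apply, smul_eq_mul, RingHom.id_apply]
        module
      norm_map' := AngRot_norm_rotR hij s } rfl

private theorem AngRot_hasDerivAt_rotR {i j : Fin 5} (hij : i ≠ j) (x : E5) (s : ℝ) :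
    HasDerivAt (fun s => AngRot_rotR i j s x) (rotA i j (AngRot_rotR i j s x)) s := by
  have h1 : HasDerivAt (fun s => (Real.cos s - 1) * x i - Real.sin s * x j)
      (-Real.sin s * x i - Real.cos s * x j) s :=
    (((Real.hasDerivAt_cos s).sub_const 1).mul_const _).sub ((Real.hasDerivAt_sin s).mul_const _)
  have h2 : HasDerivAt (fun s => Real.sin s * x i + (Real.cos s - 1) * x j)
      (Real.cos s * x i + -Real.sin s * x j) s :=
    ((Real.hasDerivAt_sin s).mul_const _).add (((Real.hasDerivAt_cos s).sub_const 1).mul_const _)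
  have h3 := ((hasDerivAt_const s x).add (h1.smul_const (EuclideanSpace.single i (1 : ℝ)))).add
    (h2.smul_const (EuclideanSpace.single j (1 : ℝ)))
  refine (h3.congr_deriv ?_)
  rw [AngRot_rotA_apply, AngRot_rotR_apply_i hij, AngRot_rotR_apply_j hij]
  module

/-- The integral of a rotational derivative over the sphere is zero. -/
private theorem AngRot_int_rot (i j : Fin 5) (F : E5 → ℝ) (hF : ContDiff ℝ 1 F) :
    ∫ ω : S4, fderiv ℝ F ω (rotA i j ω) ∂σ = 0 := by
  by_cases hij : i = j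
  · subst hij
    have : ∀ x : E5, rotA i i x = 0 := fun x => by rw [AngRot_rotA_apply, sub_self]
    simp [this]
  have hL : Continuous (fun x : E5 => fderiv ℝ F x (rotA i j x)) :=
    (hF.continuous_fderiv one_ne_zero).clm_apply (rotA i j).continuous
  obtain ⟨C, hC⟩ := (isCompact_sphere (0 : E5) 1).exists_bound_of_continuousOn hL.continuousOn
  have hmem : ∀ (s : ℝ) (ω : S4), AngRot_rotR i j s ω ∈ sphere (0 : E5) 1 := by
    intro s ω
    rw [mem_sphere_zero_iff_norm, AngRot_norm_rotR hij]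
    simp
  have hfun : ∀ s : ℝ, Continuous (fun ω : S4 => F (AngRot_rotR i j s ω)) := fun s =>
    hF.continuous.comp ((AngRot_rotE hij s).continuous.comp continuous_subtype_val)
  have key := hasDerivAt_integral_of_dominated_loc_of_deriv_le (μ := σ) (𝕜 := ℝ)
    (F := fun s (ω : S4) => F (AngRot_rotR i j s ω)) (x₀ := 0) (s := univ) (bound := fun _ => C)
    (F' := fun s (ω : S4) => fderiv ℝ F (AngRot_rotR i j s ω) (rotA i j (AngRot_rotR i j s ω)))
    Filter.univ_mem
    (Filter.Eventually.of_forall fun s => (hfun s).aestronglyMeasurable)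
    ?_ ?_ ?_ (integrable_const C) ?_
  · have h0 : ∀ s : ℝ, ∫ ω : S4, F (AngRot_rotR i j s ω) ∂σ = ∫ ω : S4, F ω ∂σ := fun s =>
      AngRot_integral_comp (AngRot_rotE hij s) F hF.continuous
    have h1 := key.2
    simp only [h0] at h1
    have h2 := h1.unique (hasDerivAt_const (0 : ℝ) (∫ ω : S4, F ω ∂σ))
    have h3 : ∀ ω : S4, AngRot_rotR i j 0 (ω : E5) = ω := fun ω => by simp [AngRot_rotR]
    simpa [h3] using h2
  · exact (hfun 0).integrable_of_hasCompactSupport (HasCompactSupport.of_compactSpace _)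
  · exact ((hL.comp ((AngRot_rotE hij 0).continuous.comp
      continuous_subtype_val))).aestronglyMeasurable
  · exact Filter.Eventually.of_forall fun ω s _ => hC _ (hmem s ω)
  · refine Filter.Eventually.of_forall fun ω s _ => ?_
    exact ((hF.differentiable one_ne_zero).differentiableAt.hasFDerivAt).comp_hasDerivAt s
      (AngRot_hasDerivAt_rotR hij _ s)

private theorem AngRot_sum_planes (f : Fin 5 × Fin 5 → ℝ) :
    ∑ k ∈ planes, f k = f (0, 1) + f (0, 2) + f (0, 3) + f (0, 4) + f (1, 2) + f (1, 3) +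
      f (1, 4) + f (2, 3) + f (2, 4) + f (3, 4) := by
  have h : planes = {(0, 1), (0, 2), (0, 3), (0, 4), (1, 2), (1, 3), (1, 4), (2, 3), (2, 4),
      (3, 4)} := by decide
  rw [h]
  repeat rw [Finset.sum_insert (by decide)]
  rw [Finset.sum_singleton]
  ring

private theorem AngRot_inner_rotA (v x : E5) (i j : Fin 5) :
    ⟪v, rotA i j x⟫_ℝ = x i * v j - x j * v i := by
  rw [AngRot_rotA_apply, inner_sub_right, inner_smul_right, inner_smul_right,
    EuclideanSpace.inner_single_right, EuclideanSpace.inner_single_right]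
  simp

/-- Lagrange identity. -/
theorem lagr (g : E5 →L[ℝ] ℝ) (x : E5) :
    ∑ k ∈ planes, g (rotA k.1 k.2 x) ^ 2 = ‖x‖ ^ 2 * ‖g‖ ^ 2 - (g x) ^ 2 := by
  obtain ⟨v, rfl⟩ := (InnerProductSpace.toDual ℝ E5).surjective g
  rw [LinearIsometryEquiv.norm_map, AngRot_sum_planes]
  simp only [InnerProductSpace.toDual_apply_apply, AngRot_inner_rotA]
  simp only [EuclideanSpace.norm_sq_eq, PiLp.inner_apply, Fin.sum_univ_five, Real.norm_eq_abs,
    sq_abs, RCLike.inner_apply, conj_trivial]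
  ring

private theorem AngRot_lagr_two (a x : E5) :
    ∑ k ∈ planes, ⟪a, rotA k.1 k.2 x⟫_ℝ ^ 2 = ‖x‖ ^ 2 * ‖a‖ ^ 2 - ⟪a, x⟫_ℝ ^ 2 := by
  have h := lagr (InnerProductSpace.toDual ℝ E5 a) x
  simpa using h

private theorem AngRot_rotA_rotA (a x : E5) :
    ∑ k ∈ planes, ⟪a, rotA k.1 k.2 (rotA k.1 k.2 x)⟫_ℝ = -4 * ⟪a, x⟫_ℝ := by
  rw [AngRot_sum_planes]
  simp only [AngRot_rotA_apply, PiLp.inner_apply, PiLp.sub_apply,
    PiLp.smul_apply, Fin.sum_univ_five, RCLike.inner_apply, conj_trivial, smul_eq_mul]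
  simp
  ring

/-- Integration by parts on the sphere. -/
private theorem AngRot_parts (i j : Fin 5) (F G : E5 → ℝ) (hF : ContDiff ℝ 1 F)
    (hG : ContDiff ℝ 1 G) :
    ∫ ω : S4, fderiv ℝ F ω (rotA i j ω) * G ω ∂σ =
      -∫ ω : S4, F ω * fderiv ℝ G ω (rotA i j ω) ∂σ := by
  have h := AngRot_int_rot i j (fun x => F x * G x) (hF.mul hG)
  have h1 : ∀ ω : S4, fderiv ℝ (fun x => F x * G x) ω (rotA i j ω) =
      F ω * fderiv ℝ G ω (rotA i j ω) + fderiv ℝ F ω (rotA i j ω) * G ω := by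
    intro ω
    rw [fderiv_fun_mul (hF.differentiable one_ne_zero _) (hG.differentiable one_ne_zero _)]
    simp [mul_comm]
  have hL : ∀ F : E5 → ℝ, ContDiff ℝ 1 F →
      Continuous (fun ω : S4 => fderiv ℝ F ω (rotA i j ω)) := fun F hF =>
    ((hF.continuous_fderiv one_ne_zero).comp continuous_subtype_val).clm_apply
      ((rotA i j).continuous.comp continuous_subtype_val)
  have hi : ∀ f : S4 → ℝ, Continuous f → Integrable f σ := fun f hf =>
    hf.integrable_of_hasCompactSupport (HasCompactSupport.of_compactSpace _)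
  simp only [h1] at h
  have h2 := integral_add (hi (fun ω : S4 => F ω * fderiv ℝ G ω (rotA i j ω))
      ((hF.continuous.comp continuous_subtype_val).mul (hL G hG)))
    (hi (fun ω : S4 => fderiv ℝ F ω (rotA i j ω) * G ω)
      ((hL F hF).mul (hG.continuous.comp continuous_subtype_val)))
  rw [h] at h2
  linarith

/-- Powers of linear functionals. -/
def pw (a : E5) (n : ℕ) (x : E5) : ℝ := ⟪a, x⟫_ℝ ^ n

theorem pw_contDiff (a : E5) (n : ℕ) : ContDiff ℝ 1 (pw a n) :=
  (contDiff_const.inner ℝ contDiff_id).pow n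

private theorem AngRot_pw_fderiv (a : E5) (n : ℕ) (x v : E5) :
    fderiv ℝ (pw a n) x v = n * pw a (n - 1) x * ⟪a, v⟫_ℝ := by
  have h1 : HasFDerivAt (fun x : E5 => ⟪a, x⟫_ℝ) (innerSL ℝ a) x := (innerSL ℝ a).hasFDerivAt
  have h2 := (h1.pow n).fderiv
  unfold pw
  rw [h2]
  simp

/-- The rotational Laplacian of a power of a linear functional, integrated. -/
theorem pw_parts (F : E5 → ℝ) (hF : ContDiff ℝ 1 F) (a : E5) (n : ℕ) :
    ∑ k ∈ planes, ∫ ω : S4, fderiv ℝ F ω (rotA k.1 k.2 ω) *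
        fderiv ℝ (pw a n) ω (rotA k.1 k.2 ω) ∂σ =
      ∫ ω : S4, F ω * (((n : ℝ) * (n + 3)) * pw a n ω -
        ((n : ℝ) * (n - 1)) * ‖a‖ ^ 2 * pw a (n - 2) ω) ∂σ := by
  have hi : ∀ f : S4 → ℝ, Continuous f → Integrable f σ := fun f hf =>
    hf.integrable_of_hasCompactSupport (HasCompactSupport.of_compactSpace _)
  have hA : ∀ k : Fin 5 × Fin 5, ContDiff ℝ 1 (fun x : E5 => ⟪a, rotA k.1 k.2 x⟫_ℝ) := fun k =>
    contDiff_const.inner ℝ (rotA k.1 k.2).contDiff
  have hG : ∀ k : Fin 5 × Fin 5, ContDiff ℝ 1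
      (fun x : E5 => n * pw a (n - 1) x * ⟪a, rotA k.1 k.2 x⟫_ℝ) := fun k =>
    (contDiff_const.mul (pw_contDiff a _)).mul (hA k)
  have hd : ∀ k : Fin 5 × Fin 5, ∀ x : E5,
      fderiv ℝ (fun x : E5 => n * pw a (n - 1) x * ⟪a, rotA k.1 k.2 x⟫_ℝ) x
        (rotA k.1 k.2 x) =
      n * ((n - 1 : ℕ) * pw a (n - 1 - 1) x * ⟪a, rotA k.1 k.2 x⟫_ℝ ^ 2 +
        pw a (n - 1) x * ⟪a, rotA k.1 k.2 (rotA k.1 k.2 x)⟫_ℝ) := by
    intro k x
    have h1 : HasFDerivAt (fun x : E5 => ⟪a, rotA k.1 k.2 x⟫_ℝ)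
        ((innerSL ℝ a).comp (rotA k.1 k.2)) x :=
      ((innerSL ℝ a).comp (rotA k.1 k.2)).hasFDerivAt
    have h2 : HasFDerivAt (pw a (n - 1)) (fderiv ℝ (pw a (n - 1)) x) x :=
      ((pw_contDiff a (n - 1)).differentiable one_ne_zero x).hasFDerivAt
    have h3 := ((h2.const_mul (n : ℝ)).mul h1).fderiv
    have h4 : (fun x : E5 => n * pw a (n - 1) x * ⟪a, rotA k.1 k.2 x⟫_ℝ) =
      (fun x : E5 => (n : ℝ) * pw a (n - 1) x) * (fun x : E5 => ⟪a, rotA k.1 k.2 x⟫_ℝ) := rfl
    rw [h4, h3]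
    simp only [add_apply, smul_apply,
      ContinuousLinearMap.comp_apply, AngRot_pw_fderiv, innerSL_apply_apply, smul_eq_mul]
    ring
  have h1 : ∀ k : Fin 5 × Fin 5, ∫ ω : S4, fderiv ℝ F ω (rotA k.1 k.2 ω) *
        fderiv ℝ (pw a n) ω (rotA k.1 k.2 ω) ∂σ =
      -∫ ω : S4, F ω * (n * ((n - 1 : ℕ) * pw a (n - 1 - 1) ω * ⟪a, rotA k.1 k.2 ω⟫_ℝ ^ 2 +
        pw a (n - 1) ω * ⟪a, rotA k.1 k.2 (rotA k.1 k.2 ω)⟫_ℝ)) ∂σ := by
    intro k
    have h := AngRot_parts k.1 k.2 F _ hF (hG k)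
    simp only [hd] at h
    simp only [AngRot_pw_fderiv]
    exact h
  rw [Finset.sum_congr rfl (fun k _ => h1 k), Finset.sum_neg_distrib, ← integral_finsetSum,
    ← integral_neg]
  · congr 1
    ext ω
    rw [← Finset.mul_sum, ← Finset.mul_sum, Finset.sum_add_distrib, ← Finset.mul_sum,
      ← Finset.mul_sum, AngRot_lagr_two, AngRot_rotA_rotA]
    have hω : ‖(ω : E5)‖ = 1 := by simp
    rw [hω]
    unfold pw
    rcases n with _ | _ | n
    · simp
    · norm_num
    · simp only [Nat.add_sub_cancel]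
      push_cast
      ring
  · intro k _
    apply hi
    have c1 : Continuous (fun ω : S4 => F ω) := hF.continuous.comp continuous_subtype_val
    have c2 : ∀ m, Continuous (fun ω : S4 => pw a m ω) := fun m =>
      (pw_contDiff a m).continuous.comp continuous_subtype_val
    have c3 : Continuous (fun ω : S4 => ⟪a, rotA k.1 k.2 ω⟫_ℝ) :=
      (hA k).continuous.comp continuous_subtype_val
    have c4 : Continuous (fun ω : S4 => ⟪a, rotA k.1 k.2 (rotA k.1 k.2 ω)⟫_ℝ) :=
      ((hA k).continuous.comp (rotA k.1 k.2).continuous).comp continuous_subtype_val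
    exact c1.mul (continuous_const.mul (((continuous_const.mul (c2 _)).mul (c3.pow 2)).add
      ((c2 _).mul c4)))

end

end Pool.Agent.CLR5
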