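import Pool.Agent.Lib.MP_efa090_mp.AngRot

/-! Row AngSpc: the chain of subspaces, its dimensions and its density (port of
Pool/Agent/CLR3/AngSpc.lean and of the first half of Angular.lean). -/

open MeasureTheory Set Metric
open scoped InnerProductSpace

namespace Pool.Agent.CLR5

noncomputable section

/-- Continuously differentiable functions. -/
def KK : Submodule ℝ (E5 → ℝ) where
  carrier := {F | ContDiff ℝ 1 F}
  add_mem' := fun {F G} h1 h2 => by
    have h1' : ContDiff ℝ 1 F := h1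
    have h2' : ContDiff ℝ 1 G := h2
    exact h1'.add h2'
  zero_mem' := by
    change ContDiff ℝ 1 (fun _ : E5 => (0 : ℝ))
    exact contDiff_const
  smul_mem' := fun c F h => by
    have h' : ContDiff ℝ 1 F := h
    exact h'.const_smul c

/-- Restriction to the sphere. -/
def TC : KK →ₗ[ℝ] C(S4, ℝ) where
  toFun F := ⟨fun ω => (F : E5 → ℝ) ω, (show ContDiff ℝ 1 (F : E5 → ℝ) from F.2).continuous.comp
    continuous_subtype_val⟩
  map_add' _ _ := rfl
  map_smul' _ _ := rfl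

/-- Embedding into the square integrable functions. -/
def emb : C(S4, ℝ) →L[ℝ] Lp ℝ 2 σ := ContinuousMap.toLp 2 σ ℝ

/-- The restriction as a map to the Hilbert space. -/
def TH : KK →ₗ[ℝ] Lp ℝ 2 σ := emb.toLinearMap.comp TC

/-- Powers of linear functionals as elements of `KK`. -/
def pwK (a : E5) (n : ℕ) : KK := ⟨pw a n, pw_contDiff a n⟩

/-- The chain of subspaces. -/
def UU (n : ℕ) : Submodule ℝ KK := Submodule.span ℝ {F | ∃ a, ∃ j < n, F = pwK a j}

theorem UU_mono : Monotone UU := by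
  intro m n hmn
  apply Submodule.span_mono
  rintro F ⟨a, j, hj, rfl⟩
  exact ⟨a, j, lt_of_lt_of_le hj hmn, rfl⟩

theorem UU_zero : UU 0 = ⊥ := by
  unfold UU
  rw [Submodule.span_eq_bot]
  rintro F ⟨a, j, hj, rfl⟩
  omega

theorem AngSpc_pwK_mem {a : E5} {j n : ℕ} (h : j < n) : pwK a j ∈ UU n :=
  Submodule.subset_span ⟨a, j, h, rfl⟩

/-! ### Counting -/

/-- One more coordinate. -/
def AngSpc_step {α : Type*} [DecidableEq α] (H : ℕ → Finset α) (m : ℕ) : Finset (ℕ × α) :=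
  (Finset.range m).biUnion (fun a => (H (m - a)).image (Prod.mk a))

theorem AngSpc_mem_step {α : Type*} [DecidableEq α] (H : ℕ → Finset α) (m a : ℕ) (t : α)
    (ha : a < m) (ht : t ∈ H (m - a)) : (a, t) ∈ AngSpc_step H m := by
  unfold AngSpc_step
  rw [Finset.mem_biUnion]
  exact ⟨a, Finset.mem_range.2 ha, Finset.mem_image_of_mem _ ht⟩

theorem AngSpc_card_step {α : Type*} [DecidableEq α] (H : ℕ → Finset α) (m : ℕ) :
    (AngSpc_step H m).card ≤ ∑ a ∈ Finset.range m, (H (a + 1)).card := by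
  unfold AngSpc_step
  refine Finset.card_biUnion_le.trans ?_
  rw [← Finset.sum_range_reflect]
  refine Finset.sum_le_sum fun a ha => ?_
  have h := Finset.mem_range.1 ha
  have h1 : m - (m - 1 - a) = a + 1 := by omega
  rw [h1]
  exact Finset.card_image_le

/-- Two, three, four exponents of sum less than `m`. -/
def AngSpc_H2 : ℕ → Finset (ℕ × ℕ) := AngSpc_step Finset.range

def AngSpc_H3 : ℕ → Finset (ℕ × ℕ × ℕ) := AngSpc_step AngSpc_H2

def AngSpc_H4 : ℕ → Finset (ℕ × ℕ × ℕ × ℕ) := AngSpc_step AngSpc_H3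

theorem AngSpc_card2 (m : ℕ) : 2 * (AngSpc_H2 m).card ≤ m * (m + 1) := by
  refine (Nat.mul_le_mul_left 2 (AngSpc_card_step Finset.range m)).trans (le_of_eq ?_)
  simp only [Finset.card_range]
  induction m with
  | zero => rfl
  | succ m ih => rw [Finset.sum_range_succ, mul_add, ih]; ring

theorem AngSpc_card3 (m : ℕ) : 6 * (AngSpc_H3 m).card ≤ m * (m + 1) * (m + 2) := by
  refine (Nat.mul_le_mul_left 6 (AngSpc_card_step AngSpc_H2 m)).trans ?_
  induction m with
  | zero => simp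
  | succ m ih =>
    rw [Finset.sum_range_succ, mul_add]
    have h := AngSpc_card2 (m + 1)
    have h2 : 6 * (AngSpc_H2 (m + 1)).card ≤ 3 * ((m + 1) * (m + 1 + 1)) := by omega
    calc _ ≤ m * (m + 1) * (m + 2) + 3 * ((m + 1) * (m + 1 + 1)) := Nat.add_le_add ih h2
      _ = _ := by ring

theorem AngSpc_card4 (m : ℕ) : 24 * (AngSpc_H4 m).card ≤ m * (m + 1) * (m + 2) * (m + 3) := by
  refine (Nat.mul_le_mul_left 24 (AngSpc_card_step AngSpc_H3 m)).trans ?_
  induction m with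
  | zero => simp
  | succ m ih =>
    rw [Finset.sum_range_succ, mul_add]
    have h := AngSpc_card3 (m + 1)
    have h2 : 24 * (AngSpc_H3 (m + 1)).card ≤ 4 * ((m + 1) * (m + 1 + 1) * (m + 1 + 2)) := by
      omega
    calc _ ≤ m * (m + 1) * (m + 2) * (m + 3) + 4 * ((m + 1) * (m + 1 + 1) * (m + 1 + 2)) :=
        Nat.add_le_add ih h2
      _ = _ := by ring

/-- Index set of the monomials of degree less than `n`, with last exponent at most one. -/
def AngSpc_GG (n : ℕ) : Finset (ℕ × ℕ × ℕ × ℕ × ℕ) :=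
  (AngSpc_H4 n).image (fun t => (t.1, t.2.1, t.2.2.1, t.2.2.2, 0)) ∪
    (AngSpc_H4 (n - 1)).image (fun t => (t.1, t.2.1, t.2.2.1, t.2.2.2, 1))

theorem AngSpc_mem_H4 {n a b c d : ℕ} (h : a + b + c + d < n) : (a, b, c, d) ∈ AngSpc_H4 n := by
  unfold AngSpc_H4
  apply AngSpc_mem_step _ _ _ _ (by omega)
  unfold AngSpc_H3
  apply AngSpc_mem_step _ _ _ _ (by omega)
  unfold AngSpc_H2
  apply AngSpc_mem_step _ _ _ _ (by omega)
  rw [Finset.mem_range]
  omega

theorem AngSpc_mem_GG {n a b c d e : ℕ} (he : e < 2) (h : a + b + c + d + e < n) :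
    (a, b, c, d, e) ∈ AngSpc_GG n := by
  unfold AngSpc_GG
  rw [Finset.mem_union, Finset.mem_image, Finset.mem_image]
  rcases e with _ | _ | e
  · exact Or.inl ⟨(a, b, c, d), AngSpc_mem_H4 (by omega), rfl⟩
  · exact Or.inr ⟨(a, b, c, d), AngSpc_mem_H4 (by omega), rfl⟩
  · omega

theorem AngSpc_card_GG (n : ℕ) : 12 * (AngSpc_GG n).card ≤ n * (n + 1) ^ 2 * (n + 2) := by
  have h : (AngSpc_GG n).card ≤ (AngSpc_H4 n).card + (AngSpc_H4 (n - 1)).card :=
    (Finset.card_union_le _ _).trans (Nat.add_le_add Finset.card_image_le Finset.card_image_le)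
  have h1 := AngSpc_card4 n
  have h2 := AngSpc_card4 (n - 1)
  rcases n with _ | n
  · simp only [Nat.zero_sub] at h h2
    omega
  · have h3 : n + 1 - 1 = n := rfl
    rw [h3] at h h2
    have h4 : (n + 1) * (n + 1 + 1) * (n + 1 + 2) * (n + 1 + 3) +
        n * (n + 1) * (n + 2) * (n + 3) = 2 * ((n + 1) * (n + 1 + 1) ^ 2 * (n + 1 + 2)) := by
      ring
    omega

/-! ### Monomials -/

/-- Coordinate functions. -/
def AngSpc_co (i : Fin 5) : C(S4, ℝ) := ⟨fun ω => (ω : E5) i, by fun_prop⟩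

/-- Monomials on the sphere. -/
def AngSpc_mon (t : ℕ × ℕ × ℕ × ℕ × ℕ) : C(S4, ℝ) :=
  AngSpc_co 0 ^ t.1 * AngSpc_co 1 ^ t.2.1 * AngSpc_co 2 ^ t.2.2.1 * AngSpc_co 3 ^ t.2.2.2.1 *
    AngSpc_co 4 ^ t.2.2.2.2

/-- The exponents. -/
def AngSpc_adm (n : ℕ) : Set (ℕ × ℕ × ℕ × ℕ × ℕ) :=
  {t | t.2.2.2.2 < 2 ∧ t.1 + t.2.1 + t.2.2.1 + t.2.2.2.1 + t.2.2.2.2 < n}

/-- Span of the monomials. -/
def AngSpc_MM (n : ℕ) : Submodule ℝ C(S4, ℝ) := Submodule.span ℝ (AngSpc_mon '' AngSpc_adm n)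

theorem AngSpc_mon_mem {n a b c d e : ℕ} (h1 : e < 2) (h2 : a + b + c + d + e < n) :
    AngSpc_mon (a, b, c, d, e) ∈ AngSpc_MM n := Submodule.subset_span ⟨_, ⟨h1, h2⟩, rfl⟩

theorem AngSpc_MM_mono : Monotone AngSpc_MM := by
  intro m n hmn
  apply Submodule.span_mono
  apply Set.image_mono
  rintro t ⟨h1, h2⟩
  exact ⟨h1, lt_of_lt_of_le h2 hmn⟩

theorem AngSpc_co_sq : AngSpc_co 4 ^ 2 =
    1 - AngSpc_co 0 ^ 2 - AngSpc_co 1 ^ 2 - AngSpc_co 2 ^ 2 - AngSpc_co 3 ^ 2 := by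
  ext ω
  have h : ‖(ω : E5)‖ ^ 2 = 1 := by simp
  rw [EuclideanSpace.norm_sq_eq, Fin.sum_univ_five] at h
  simp only [Real.norm_eq_abs, sq_abs] at h
  simp only [AngSpc_co, ContinuousMap.pow_apply, ContinuousMap.coe_mk, ContinuousMap.sub_apply,
    ContinuousMap.one_apply]
  linarith

theorem AngSpc_MM_mul (n : ℕ) (f : C(S4, ℝ)) (hf : f ∈ AngSpc_MM n) (i : Fin 5) :
    f * AngSpc_co i ∈ AngSpc_MM (n + 1) := by
  unfold AngSpc_MM at hf
  induction hf using Submodule.span_induction with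
  | mem f hf =>
    obtain ⟨⟨a, b, c, d, e⟩, ht, rfl⟩ := hf
    obtain ⟨h1, h2⟩ := ht
    dsimp only at h1 h2
    fin_cases i
    · have : AngSpc_mon (a, b, c, d, e) * AngSpc_co 0 = AngSpc_mon (a + 1, b, c, d, e) := by
        simp only [AngSpc_mon]
        ring
      change AngSpc_mon (a, b, c, d, e) * AngSpc_co 0 ∈ _
      rw [this]
      exact AngSpc_mon_mem h1 (by omega)
    · have : AngSpc_mon (a, b, c, d, e) * AngSpc_co 1 = AngSpc_mon (a, b + 1, c, d, e) := by
        simp only [AngSpc_mon]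
        ring
      change AngSpc_mon (a, b, c, d, e) * AngSpc_co 1 ∈ _
      rw [this]
      exact AngSpc_mon_mem h1 (by omega)
    · have : AngSpc_mon (a, b, c, d, e) * AngSpc_co 2 = AngSpc_mon (a, b, c + 1, d, e) := by
        simp only [AngSpc_mon]
        ring
      change AngSpc_mon (a, b, c, d, e) * AngSpc_co 2 ∈ _
      rw [this]
      exact AngSpc_mon_mem h1 (by omega)
    · have : AngSpc_mon (a, b, c, d, e) * AngSpc_co 3 = AngSpc_mon (a, b, c, d + 1, e) := by
        simp only [AngSpc_mon]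
        ring
      change AngSpc_mon (a, b, c, d, e) * AngSpc_co 3 ∈ _
      rw [this]
      exact AngSpc_mon_mem h1 (by omega)
    · change AngSpc_mon (a, b, c, d, e) * AngSpc_co 4 ∈ _
      rcases e with _ | _ | e
      · have : AngSpc_mon (a, b, c, d, 0) * AngSpc_co 4 = AngSpc_mon (a, b, c, d, 1) := by
          simp only [AngSpc_mon]
          ring
        rw [this]
        exact AngSpc_mon_mem (by norm_num) (by omega)
      · have : AngSpc_mon (a, b, c, d, 0 + 1) * AngSpc_co 4 =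
            AngSpc_mon (a, b, c, d, 0) - AngSpc_mon (a + 2, b, c, d, 0) -
              AngSpc_mon (a, b + 2, c, d, 0) - AngSpc_mon (a, b, c + 2, d, 0) -
              AngSpc_mon (a, b, c, d + 2, 0) := by
          simp only [AngSpc_mon]
          have h2 : AngSpc_co 0 ^ a * AngSpc_co 1 ^ b * AngSpc_co 2 ^ c * AngSpc_co 3 ^ d *
              AngSpc_co 4 ^ (0 + 1) * AngSpc_co 4 =
            AngSpc_co 0 ^ a * AngSpc_co 1 ^ b * AngSpc_co 2 ^ c * AngSpc_co 3 ^ d *
              AngSpc_co 4 ^ 2 := by ring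
          rw [h2, AngSpc_co_sq]
          ring
        rw [this]
        exact Submodule.sub_mem _ (Submodule.sub_mem _ (Submodule.sub_mem _ (Submodule.sub_mem _
          (AngSpc_mon_mem (by norm_num) (by omega))
          (AngSpc_mon_mem (by norm_num) (by omega))) (AngSpc_mon_mem (by norm_num) (by omega)))
          (AngSpc_mon_mem (by norm_num) (by omega))) (AngSpc_mon_mem (by norm_num) (by omega))
      · omega
  | zero => simp
  | add f g _ _ hf hg => rw [add_mul]; exact Submodule.add_mem _ hf hg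
  | smul r f _ hf => rw [smul_mul_assoc]; exact Submodule.smul_mem _ _ hf

theorem AngSpc_TC_pwK (a : E5) (n : ℕ) :
    TC (pwK a n) = (a 0 • AngSpc_co 0 + a 1 • AngSpc_co 1 + a 2 • AngSpc_co 2 +
      a 3 • AngSpc_co 3 + a 4 • AngSpc_co 4) ^ n := by
  ext ω
  simp only [TC, pwK, pw, LinearMap.coe_mk, AddHom.coe_mk, ContinuousMap.coe_mk,
    ContinuousMap.pow_apply, ContinuousMap.add_apply, ContinuousMap.smul_apply, AngSpc_co]
  congr 1
  rw [PiLp.inner_apply, Fin.sum_univ_five]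
  simp [mul_comm]

theorem AngSpc_TC_pwK_mem (a : E5) (n : ℕ) : TC (pwK a n) ∈ AngSpc_MM (n + 1) := by
  rw [AngSpc_TC_pwK]
  induction n with
  | zero =>
    have : AngSpc_mon (0, 0, 0, 0, 0) = 1 := by simp [AngSpc_mon]
    rw [pow_zero, ← this]
    exact AngSpc_mon_mem (by norm_num) (by norm_num)
  | succ n ih =>
    rw [pow_succ, mul_add, mul_add, mul_add, mul_add, mul_smul_comm, mul_smul_comm,
      mul_smul_comm, mul_smul_comm, mul_smul_comm]
    exact Submodule.add_mem _ (Submodule.add_mem _ (Submodule.add_mem _ (Submodule.add_mem _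
      (Submodule.smul_mem _ _ (AngSpc_MM_mul _ _ ih 0))
      (Submodule.smul_mem _ _ (AngSpc_MM_mul _ _ ih 1)))
      (Submodule.smul_mem _ _ (AngSpc_MM_mul _ _ ih 2)))
      (Submodule.smul_mem _ _ (AngSpc_MM_mul _ _ ih 3)))
      (Submodule.smul_mem _ _ (AngSpc_MM_mul _ _ ih 4))

theorem AngSpc_UU_map_le (n : ℕ) : (UU n).map TC ≤ AngSpc_MM n := by
  unfold UU
  rw [Submodule.map_span_le]
  rintro F ⟨a, j, hj, rfl⟩
  exact AngSpc_MM_mono (by omega) (AngSpc_TC_pwK_mem a j)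

open scoped Classical in
theorem AngSpc_MM_fin (n : ℕ) : AngSpc_MM n ≤
    Submodule.span ℝ (((AngSpc_GG n).image AngSpc_mon : Finset C(S4, ℝ)) : Set C(S4, ℝ)) := by
  apply Submodule.span_mono
  rintro f ⟨⟨a, b, c, d, e⟩, ⟨h1, h2⟩, rfl⟩
  rw [Finset.coe_image]
  exact ⟨_, AngSpc_mem_GG h1 h2, rfl⟩

/-- Restricted to the sphere, `UU n` is spanned by the monomials of degree less than `n` whose
last exponent is at most one: `C(n + 3, 4) + C(n + 2, 4) = n (n+1)^2 (n+2) / 12` of them. -/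
theorem UU_dim (n : ℕ) : FiniteDimensional ℝ ((UU n).map TH) ∧
    12 * Module.finrank ℝ ((UU n).map TH) ≤ n * (n + 1) ^ 2 * (n + 2) := by
  classical
  have h0 : (UU n).map TH ≤ (Submodule.span ℝ
      (((AngSpc_GG n).image AngSpc_mon : Finset C(S4, ℝ)) : Set C(S4, ℝ))).map
        emb.toLinearMap := by
    unfold TH
    rw [Submodule.map_comp]
    exact Submodule.map_mono ((AngSpc_UU_map_le n).trans (AngSpc_MM_fin n))
  have : FiniteDimensional ℝ (Submodule.span ℝ
      (((AngSpc_GG n).image AngSpc_mon : Finset C(S4, ℝ)) : Set C(S4, ℝ))) :=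
    FiniteDimensional.span_finset ℝ _
  refine ⟨Submodule.finiteDimensional_of_le h0, ?_⟩
  have h1 : Module.finrank ℝ ((UU n).map TH) ≤ (AngSpc_GG n).card :=
    (Submodule.finrank_mono h0).trans ((Submodule.finrank_map_le _ _).trans
      ((finrank_span_finset_le_card (R := ℝ) ((AngSpc_GG n).image AngSpc_mon)).trans
        Finset.card_image_le))
  exact (Nat.mul_le_mul_left 12 h1).trans (AngSpc_card_GG n)

/-! ### Density -/

/-- Exponentials on the sphere. -/
def AngSpc_ex (a : E5) : C(S4, ℝ) := ⟨fun ω => Real.exp ⟪a, (ω : E5)⟫_ℝ, by fun_prop⟩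

theorem AngSpc_ex_mul (a b : E5) : AngSpc_ex a * AngSpc_ex b = AngSpc_ex (a + b) := by
  ext ω
  simp only [AngSpc_ex, ContinuousMap.mul_apply, ContinuousMap.coe_mk, inner_add_left,
    Real.exp_add]

theorem AngSpc_ex_zero : AngSpc_ex 0 = 1 := by
  ext ω
  simp [AngSpc_ex]

theorem AngSpc_hasSum_ex (a : E5) :
    HasSum (fun n : ℕ => ((n.factorial : ℝ)⁻¹) • TC (pwK a n)) (AngSpc_ex a) := by
  have h1 : ∀ n : ℕ, TC (pwK a n) = TC (pwK a 1) ^ n := by
    intro n
    ext ω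
    simp [TC, pwK, pw]
  have h2 := NormedSpace.exp_series_hasSum_exp' (𝕂 := ℝ) (TC (pwK a 1))
  have h3 : NormedSpace.exp (TC (pwK a 1)) = AngSpc_ex a := by
    ext ω
    have h4 := h2.map (ContinuousMap.evalCLM ℝ ω) (ContinuousMap.evalCLM ℝ ω).continuous
    have h5 := NormedSpace.exp_series_hasSum_exp' (𝕂 := ℝ) (TC (pwK a 1) ω)
    have h6 : ContinuousMap.evalCLM ℝ ω (NormedSpace.exp (TC (pwK a 1))) =
        NormedSpace.exp (TC (pwK a 1) ω) := by
      refine h4.unique ?_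
      have h8 : (ContinuousMap.evalCLM ℝ ω ∘
          fun n : ℕ => ((n.factorial : ℝ)⁻¹) • TC (pwK a 1) ^ n) =
          fun n : ℕ => ((n.factorial : ℝ)⁻¹) • (TC (pwK a 1) ω) ^ n := by
        funext n
        simp
      rw [h8]
      exact h5
    have h7 : TC (pwK a 1) ω = ⟪a, (ω : E5)⟫_ℝ := by simp [TC, pwK, pw]
    rw [h7, ← Real.exp_eq_exp_ℝ] at h6
    exact h6
  rw [h3] at h2
  simpa only [← h1] using h2

/-- All restrictions of polynomials. -/
def AngSpc_VV : Submodule ℝ C(S4, ℝ) := (⨆ n, UU n).map TC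

theorem AngSpc_ex_mem (a : E5) : AngSpc_ex a ∈ AngSpc_VV.topologicalClosure := by
  have h := AngSpc_hasSum_ex a
  refine mem_closure_of_tendsto h (Filter.Eventually.of_forall fun s => ?_)
  refine Submodule.sum_mem _ fun n _ => Submodule.smul_mem _ _ ?_
  exact Submodule.mem_map_of_mem
    (Submodule.mem_iSup_of_mem (n + 1) (AngSpc_pwK_mem (Nat.lt_succ_self n)))

/-- The algebra of exponentials. -/
def AngSpc_AA : Subalgebra ℝ C(S4, ℝ) := Algebra.adjoin ℝ (Set.range AngSpc_ex)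

theorem AngSpc_AA_le : Subalgebra.toSubmodule AngSpc_AA ≤ AngSpc_VV.topologicalClosure := by
  unfold AngSpc_AA
  rw [Algebra.adjoin_eq_span, Submodule.span_le]
  intro f hf
  have h1 : f ∈ Set.range AngSpc_ex := by
    induction hf using Submonoid.closure_induction with
    | mem f hf => exact hf
    | one => exact ⟨0, AngSpc_ex_zero⟩
    | mul f g _ _ hf hg =>
      obtain ⟨a, rfl⟩ := hf
      obtain ⟨b, rfl⟩ := hg
      exact ⟨a + b, (AngSpc_ex_mul a b).symm⟩
  obtain ⟨a, rfl⟩ := h1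
  exact AngSpc_ex_mem a

theorem AngSpc_AA_sep : AngSpc_AA.SeparatesPoints := by
  intro x y hxy
  refine ⟨AngSpc_ex ((x : E5) - y), ⟨AngSpc_ex ((x : E5) - y),
    Algebra.subset_adjoin ⟨_, rfl⟩, rfl⟩, ?_⟩
  intro h
  have h1 : ⟪(x : E5) - y, (x : E5)⟫_ℝ = ⟪(x : E5) - y, (y : E5)⟫_ℝ := Real.exp_injective h
  have h2 : ⟪(x : E5) - y, (x : E5) - y⟫_ℝ = 0 := by rw [inner_sub_right, h1, sub_self]
  exact hxy (Subtype.ext (sub_eq_zero.1 (inner_self_eq_zero.1 h2)))

theorem AngSpc_VV_top : AngSpc_VV.topologicalClosure = ⊤ := by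
  rw [eq_top_iff]
  have h1 := ContinuousMap.subalgebra_topologicalClosure_eq_top_of_separatesPoints AngSpc_AA
    AngSpc_AA_sep
  intro f _
  have h2 : f ∈ AngSpc_AA.topologicalClosure := by rw [h1]; trivial
  have h3 : f ∈ closure (AngSpc_AA : Set C(S4, ℝ)) := h2
  have h4 : (AngSpc_AA : Set C(S4, ℝ)) ⊆ AngSpc_VV.topologicalClosure := AngSpc_AA_le
  have h5 : closure (AngSpc_AA : Set C(S4, ℝ)) ⊆ AngSpc_VV.topologicalClosure :=
    closure_minimal h4 AngSpc_VV.isClosed_topologicalClosure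
  exact h5 h3

theorem TH_dense (F : KK) (ε : ℝ) (hε : 0 < ε) : ∃ n, ∃ p ∈ UU n, ‖TH F - TH p‖ < ε := by
  have h1 : TC F ∈ closure (AngSpc_VV : Set C(S4, ℝ)) := by
    have : TC F ∈ AngSpc_VV.topologicalClosure := by rw [AngSpc_VV_top]; trivial
    exact this
  obtain ⟨g, hg, hgd⟩ := Metric.mem_closure_iff.1 h1 (ε / (‖emb‖ + 1)) (by positivity)
  obtain ⟨p, hp, rfl⟩ := hg
  obtain ⟨n, hn⟩ := (Submodule.mem_iSup_of_directed _ UU_mono.directed_le).1 hp
  refine ⟨n, p, hn, ?_⟩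
  have h2 : TH F - TH p = emb (TC F - TC p) := by simp [TH]
  rw [h2]
  rw [dist_eq_norm, lt_div_iff₀ (by positivity)] at hgd
  have h3 := emb.le_opNorm (TC F - TC p)
  nlinarith [norm_nonneg (TC F - TC p), norm_nonneg emb]

end

end Pool.Agent.CLR5
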