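import Pool.Agent.Lib.MP_efa090_mp.AngSpc
import Pool.Agent.Lib.MP_efa090_mp.AngAbs

/-! Row Angular: the angular lemma on `S^4`. -/

open MeasureTheory Set Metric
open scoped InnerProductSpace

namespace Pool.Agent.CLR5

/-- Rotational derivatives on the sphere. -/
private noncomputable def Angular_SC (k : Fin 5 × Fin 5) : KK →ₗ[ℝ] C(S4, ℝ) where
  toFun F := ⟨fun ω => fderiv ℝ (F : E5 → ℝ) ω (rotA k.1 k.2 ω),
    (((show ContDiff ℝ 1 (F : E5 → ℝ) from F.2).continuous_fderiv one_ne_zero).comp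
      continuous_subtype_val).clm_apply ((rotA k.1 k.2).continuous.comp continuous_subtype_val)⟩
  map_add' F G := by
    ext ω
    have hF : ContDiff ℝ 1 (F : E5 → ℝ) := F.2
    have hG : ContDiff ℝ 1 (G : E5 → ℝ) := G.2
    simp only [ContinuousMap.coe_mk, ContinuousMap.add_apply, Submodule.coe_add]
    rw [fderiv_add (hF.differentiable one_ne_zero _) (hG.differentiable one_ne_zero _)]
    rfl
  map_smul' c F := by
    ext ω
    have hF : ContDiff ℝ 1 (F : E5 → ℝ) := F.2
    simp only [ContinuousMap.coe_mk, ContinuousMap.smul_apply, Submodule.coe_smul, RingHom.id_apply]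
    rw [fderiv_const_smul (hF.differentiable one_ne_zero _)]
    rfl

private theorem Angular_inner_emb (f g : C(S4, ℝ)) : ⟪emb f, emb g⟫_ℝ = ∫ ω, f ω * g ω ∂σ := by
  have h := ContinuousMap.inner_toLp (𝕜 := ℝ) σ f g
  unfold emb
  rw [h]
  congr 1
  ext ω
  simp [mul_comm]

private theorem Angular_pwK_mem {a : E5} {j n : ℕ} (h : j < n) : pwK a j ∈ UU n :=
  Submodule.subset_span ⟨a, j, h, rfl⟩

private theorem Angular_sharp_pw (a : E5) (j : ℕ) (F : KK) :
    ∑ k ∈ planes, ⟪emb (Angular_SC k F), emb (Angular_SC k (pwK a j))⟫_ℝ =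
      ⟪emb (TC F), emb (TC (((j : ℝ) * (j + 3)) • pwK a j -
        ((j : ℝ) * (j - 1) * ‖a‖ ^ 2) • pwK a (j - 2)))⟫_ℝ := by
  simp only [Angular_inner_emb]
  exact pw_parts (F : E5 → ℝ) F.2 a j

private theorem Angular_sharp (n : ℕ) (p : KK) (hp : p ∈ UU (n + 1)) : ∃ p' ∈ UU (n + 1),
    (∀ F, ∑ k ∈ planes, ⟪emb (Angular_SC k F), emb (Angular_SC k p)⟫_ℝ =
      ⟪emb (TC F), emb (TC p')⟫_ℝ) ∧
      p' - ((n : ℝ) * (n + 3)) • p ∈ UU n := by
  unfold UU at hp
  induction hp using Submodule.span_induction with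
  | mem p hp =>
    obtain ⟨a, j, hj, rfl⟩ := hp
    refine ⟨((j : ℝ) * (j + 3)) • pwK a j - ((j : ℝ) * (j - 1) * ‖a‖ ^ 2) • pwK a (j - 2), ?_,
      Angular_sharp_pw a j, ?_⟩
    · exact Submodule.sub_mem _ (Submodule.smul_mem _ _ (Angular_pwK_mem hj))
        (Submodule.smul_mem _ _ (Angular_pwK_mem (by omega)))
    · rcases Nat.lt_or_ge j n with h | h
      · exact Submodule.sub_mem _ (Submodule.sub_mem _ (Submodule.smul_mem _ _
          (Angular_pwK_mem h)) (Submodule.smul_mem _ _ (Angular_pwK_mem (by omega))))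
          (Submodule.smul_mem _ _ (Angular_pwK_mem h))
      · have hjn : j = n := by omega
        subst hjn
        rw [sub_right_comm, sub_self, zero_sub]
        apply Submodule.neg_mem
        rcases j with _ | j
        · simp
        · exact Submodule.smul_mem _ _ (Angular_pwK_mem (by omega))
  | zero => exact ⟨0, Submodule.zero_mem _, fun F => by simp, by simp⟩
  | add p q _ _ hp hq =>
    obtain ⟨p', h1, h2, h3⟩ := hp
    obtain ⟨q', k1, k2, k3⟩ := hq
    refine ⟨p' + q', Submodule.add_mem _ h1 k1, fun F => ?_, ?_⟩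
    · simp only [map_add, inner_add_right, Finset.sum_add_distrib, h2, k2]
    · have : p' + q' - ((n : ℝ) * (n + 3)) • (p + q) =
          (p' - ((n : ℝ) * (n + 3)) • p) + (q' - ((n : ℝ) * (n + 3)) • q) := by
        module
      rw [this]
      exact Submodule.add_mem _ h3 k3
  | smul c p _ hp =>
    obtain ⟨p', h1, h2, h3⟩ := hp
    refine ⟨c • p', Submodule.smul_mem _ _ h1, fun F => ?_, ?_⟩
    · simp only [map_smul, inner_smul_right, ← Finset.mul_sum, h2]
    · have : c • p' - ((n : ℝ) * (n + 3)) • (c • p) = c • (p' - ((n : ℝ) * (n + 3)) • p) := by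
        module
      rw [this]
      exact Submodule.smul_mem _ _ h3

/-- The spherical harmonics of degree `< J` and the spectral decomposition: `abstract_gap` with
`lam n = n (n + 3)` (`pw_parts`), `adapted_basis` for `V n = (UU n).map TH`. -/
theorem angular (J : ℕ) : ∃ (M : ℕ) (dg : Fin M → ℕ) (p : Fin M → C(S4, ℝ)),
    (∀ i, dg i < J) ∧
    (∀ k ≤ J, 12 * (Finset.univ.filter (fun i => dg i < k)).card ≤ k * (k + 1) ^ 2 * (k + 2)) ∧
    (∀ i j, ∫ ω, p i ω * p j ω ∂σ = if i = j then 1 else 0) ∧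
    ∀ F : E5 → ℝ, ContDiff ℝ 1 F →
      (∑ i, ((dg i : ℝ) * (dg i + 3)) * (∫ ω : S4, F ω * p i ω ∂σ) ^ 2) +
        ((J : ℝ) * (J + 3)) *
          ∫ ω : S4, (F ω - ∑ i, (∫ ω' : S4, F ω' * p i ω' ∂σ) * p i ω) ^ 2 ∂σ
        ≤ ∫ ω : S4, tan2 F ω ∂σ := by
  have hfd : ∀ n, FiniteDimensional ℝ ((UU n).map TH) := fun n => (UU_dim n).1
  have hV : Monotone (fun n => (UU n).map TH) := fun m n hmn => Submodule.map_mono (UU_mono hmn)
  have hV0 : (fun n => (UU n).map TH) 0 = ⊥ := by
    change (UU 0).map TH = ⊥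
    rw [UU_zero, Submodule.map_bot]
  obtain ⟨M, dg, b, h1, h2, h3, h4, h5⟩ := adapted_basis (fun n => (UU n).map TH) hV hV0 J
  have hb : ∀ i, ∃ q : KK, TH q = b i := by
    intro i
    obtain ⟨q, _, hq⟩ := h4 i
    exact ⟨q, hq⟩
  choose q hq using hb
  have hq' : ∀ i, emb (TC (q i)) = b i := hq
  refine ⟨M, dg, fun i => TC (q i), h1, ?_, ?_, ?_⟩
  · intro k hk
    rw [h2 k hk]
    exact (UU_dim k).2
  · intro i j
    rw [← Angular_inner_emb, hq', hq']
    exact orthonormal_iff_ite.1 h3 i j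
  · intro F hF
    let F' : KK := ⟨F, hF⟩
    have hlam : Monotone (fun n : ℕ => (n : ℝ) * (n + 3)) := by
      intro m n hmn
      have h : (m : ℝ) ≤ n := by exact_mod_cast hmn
      have h0 : (0 : ℝ) ≤ m := Nat.cast_nonneg m
      change (m : ℝ) * (m + 3) ≤ (n : ℝ) * (n + 3)
      nlinarith
    have h := abstract_gap planes TH (fun k => emb.toLinearMap.comp (Angular_SC k)) UU UU_mono
      UU_zero (fun n : ℕ => (n : ℝ) * (n + 3)) hlam (by simp)
      (fun n p hp => Angular_sharp n p hp) TH_dense J F'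
    have hco : ∀ i, ⟪b i, TH F'⟫_ℝ = ∫ ω : S4, F ω * TC (q i) ω ∂σ := by
      intro i
      have e1 : TH F' = emb (TC F') := rfl
      rw [← hq', e1, Angular_inner_emb]
      congr 1
      ext ω
      exact mul_comm _ _
    have e1 : ∑ n ∈ Finset.range J, ((n : ℝ) * (n + 3)) *
        ‖((UU (n + 1)).map TH).starProjection (TH F') -
          ((UU n).map TH).starProjection (TH F')‖ ^ 2 =
        ∑ i, ((dg i : ℝ) * (dg i + 3)) * (∫ ω : S4, F ω * TC (q i) ω ∂σ) ^ 2 := by
      have e2 : ∀ n ∈ Finset.range J, ((n : ℝ) * (n + 3)) *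
          ‖((UU (n + 1)).map TH).starProjection (TH F') -
            ((UU n).map TH).starProjection (TH F')‖ ^ 2 =
          ∑ i with dg i = n, ((dg i : ℝ) * (dg i + 3)) *
            (∫ ω : S4, F ω * TC (q i) ω ∂σ) ^ 2 := by
        intro n hn
        have e3 := (h5 (TH F')).2 n (Finset.mem_range.1 hn)
        rw [e3, Finset.mul_sum]
        refine Finset.sum_congr rfl fun i hi => ?_
        rw [hco i, (Finset.mem_filter.1 hi).2]
      rw [Finset.sum_congr rfl e2]
      exact Finset.sum_fiberwise_of_maps_to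
        (fun i _ => Finset.mem_range.2 (h1 i)) _
    have e4 : ((UU J).map TH).starProjection (TH F') =
        emb (∑ i, (∫ ω' : S4, F ω' * TC (q i) ω' ∂σ) • TC (q i)) := by
      have e5 := (h5 (TH F')).1 J le_rfl
      rw [e5, map_sum]
      rw [Finset.filter_true_of_mem (fun i _ => h1 i)]
      refine Finset.sum_congr rfl fun i _ => ?_
      rw [map_smul, hq', hco i]
    have e6 : ‖TH F' - ((UU J).map TH).starProjection (TH F')‖ ^ 2 =
        ∫ ω : S4, (F ω - ∑ i, (∫ ω' : S4, F ω' * TC (q i) ω' ∂σ) * TC (q i) ω) ^ 2 ∂σ := by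
      have e7 : TH F' = emb (TC F') := rfl
      rw [e4, e7, ← map_sub, ← real_inner_self_eq_norm_sq, Angular_inner_emb]
      congr 1
      ext ω
      simp only [ContinuousMap.sub_apply, ContinuousMap.sum_apply, ContinuousMap.smul_apply,
        smul_eq_mul]
      rw [pow_two]
      rfl
    have e8 : ∑ k ∈ planes, ⟪(emb.toLinearMap.comp (Angular_SC k)) F',
        (emb.toLinearMap.comp (Angular_SC k)) F'⟫_ℝ = ∫ ω : S4, tan2 F ω ∂σ := by
      have e9 : ∀ k ∈ planes, ⟪(emb.toLinearMap.comp (Angular_SC k)) F',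
          (emb.toLinearMap.comp (Angular_SC k)) F'⟫_ℝ =
            ∫ ω : S4, (Angular_SC k F') ω * (Angular_SC k F') ω ∂σ :=
        fun k _ => Angular_inner_emb _ _
      rw [Finset.sum_congr rfl e9, ← integral_finsetSum]
      · congr 1
        ext ω
        have e10 := lagr (fderiv ℝ F ω) (ω : E5)
        unfold tan2
        rw [← e10]
        refine Finset.sum_congr rfl fun k _ => ?_
        rw [pow_two]
        rfl
      · intro k _
        exact ((Angular_SC k F').continuous.mul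
          (Angular_SC k F').continuous).integrable_of_hasCompactSupport
          (HasCompactSupport.of_compactSpace _)
    rw [e1, e6, e8] at h
    exact h

end Pool.Agent.CLR5
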