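import Pool.Agent.Lib.MP_efa090_mp.Defs5

/-! Row Bas: rescaled functions and their coefficients (port of Pool/Agent/CLR3/CellBasic.lean,
CellAdm.lean, CellCoef.lean; here the potential will be continuous with compact support, so
the integrability in `t` is easy). -/

open MeasureTheory Set Metric

namespace Pool.Agent.CLR5

instance : IsFiniteMeasure σ := by unfold σ; infer_instance

variable {u : E5 → ℝ}

private lemma Bas_a_hasFDerivAt_resc (hu : ContDiff ℝ 1 u) (t : ℝ) (x : E5) :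
    HasFDerivAt (resc u t)
      (Real.exp (3 * t / 2) • (Real.exp t • fderiv ℝ u (Real.exp t • x))) x := by
  have h1 : HasFDerivAt u (fderiv ℝ u (Real.exp t • x)) (Real.exp t • x) :=
    ((hu.differentiable (by norm_num)) _).hasFDerivAt
  have h2 : HasFDerivAt (fun y : E5 => Real.exp t • y) (Real.exp t • ContinuousLinearMap.id ℝ E5) x :=
    (hasFDerivAt_id x).const_smul (Real.exp t)
  have h3 := (h1.comp x h2).const_mul (Real.exp (3 * t / 2))
  refine h3.congr_fderiv ?_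
  ext y
  simp

private lemma Bas_a_fderiv_resc (hu : ContDiff ℝ 1 u) (t : ℝ) (x : E5) :
    fderiv ℝ (resc u t) x =
      Real.exp (3 * t / 2) • (Real.exp t • fderiv ℝ u (Real.exp t • x)) :=
  (Bas_a_hasFDerivAt_resc hu t x).fderiv

private lemma Bas_a_Vt_eq (hu : ContDiff ℝ 1 u) (t : ℝ) (x : E5) :
    Vt u t x = Real.exp (3 * t / 2) * (3 / 2 * u (Real.exp t • x)
      + Real.exp t * fderiv ℝ u (Real.exp t • x) x) := by
  unfold Vt
  rw [Bas_a_fderiv_resc hu]
  simp [resc]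
  ring

theorem hasDerivAt_resc (hu : ContDiff ℝ 1 u) (t : ℝ) (x : E5) :
    HasDerivAt (fun s => resc u s x) (Vt u t x) t := by
  have h1 : HasFDerivAt u (fderiv ℝ u (Real.exp t • x)) (Real.exp t • x) :=
    ((hu.differentiable (by norm_num)) _).hasFDerivAt
  have h2 : HasDerivAt (fun s : ℝ => Real.exp s • x) (Real.exp t • x) t :=
    (Real.hasDerivAt_exp t).smul_const x
  have h3 : HasDerivAt (fun s => u (Real.exp s • x)) (fderiv ℝ u (Real.exp t • x) (Real.exp t • x)) t :=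
    h1.comp_hasDerivAt t h2
  have h4 : HasDerivAt (fun s : ℝ => Real.exp (3 * s / 2)) (Real.exp (3 * t / 2) * (3 * 1 / 2)) t :=
    (((hasDerivAt_id t).const_mul 3).div_const 2).exp
  have h5 := h4.mul h3
  rw [Bas_a_Vt_eq hu]
  refine h5.congr_deriv ?_
  simp
  ring

theorem contDiff_resc (hu : ContDiff ℝ 1 u) (t : ℝ) : ContDiff ℝ 1 (resc u t) := by
  unfold resc
  have h : ContDiff ℝ 1 (fun x : E5 => Real.exp t • x) := contDiff_id.const_smul (Real.exp t)
  exact contDiff_const.mul (hu.comp h)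

private lemma Bas_a_continuous_fderiv_u (hu : ContDiff ℝ 1 u) : Continuous (fderiv ℝ u) :=
  hu.continuous_fderiv (by norm_num)

private lemma Bas_a_continuous_resc (hu : ContDiff ℝ 1 u) :
    Continuous (fun z : ℝ × E5 => resc u z.1 z.2) := by
  unfold resc
  have := hu.continuous
  fun_prop

private lemma Bas_a_continuous_Vt (hu : ContDiff ℝ 1 u) :
    Continuous (fun z : ℝ × E5 => Vt u z.1 z.2) := by
  have h : (fun z : ℝ × E5 => Vt u z.1 z.2) = fun z : ℝ × E5 =>
      Real.exp (3 * z.1 / 2) * (3 / 2 * u (Real.exp z.1 • z.2)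
      + Real.exp z.1 * fderiv ℝ u (Real.exp z.1 • z.2) z.2) := by
    ext z; exact Bas_a_Vt_eq hu z.1 z.2
  rw [h]
  have h1 := hu.continuous
  have h2 := Bas_a_continuous_fderiv_u hu
  have h3 : Continuous (fun z : ℝ × E5 => fderiv ℝ u (Real.exp z.1 • z.2) z.2) :=
    (h2.comp (by fun_prop : Continuous fun z : ℝ × E5 => Real.exp z.1 • z.2)).clm_apply continuous_snd
  fun_prop

private lemma Bas_a_continuous_tan2 (hu : ContDiff ℝ 1 u) :
    Continuous (fun z : ℝ × E5 => tan2 (resc u z.1) z.2) := by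
  have h : (fun z : ℝ × E5 => tan2 (resc u z.1) z.2) = fun z : ℝ × E5 =>
      ‖z.2‖ ^ 2 * ‖Real.exp (3 * z.1 / 2) • (Real.exp z.1 • fderiv ℝ u (Real.exp z.1 • z.2))‖ ^ 2
       - (Real.exp (3 * z.1 / 2) • (Real.exp z.1 • fderiv ℝ u (Real.exp z.1 • z.2))) z.2 ^ 2 := by
    ext z; unfold tan2; rw [Bas_a_fderiv_resc hu]
  rw [h]
  have h2 := Bas_a_continuous_fderiv_u hu
  have h4 : Continuous (fun z : ℝ × E5 =>
      Real.exp (3 * z.1 / 2) • (Real.exp z.1 • fderiv ℝ u (Real.exp z.1 • z.2))) := by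
    fun_prop
  have h3 := h4.clm_apply (continuous_snd (X := ℝ) (Y := E5))
  fun_prop

theorem cont_all (hu : ContDiff ℝ 1 u) : Continuous (fun z : ℝ × S4 => resc u z.1 z.2) ∧
    Continuous (fun z : ℝ × S4 => Vt u z.1 z.2) ∧
    Continuous (fun z : ℝ × S4 => tan2 (resc u z.1) z.2) := by
  have hi : Continuous (fun z : ℝ × S4 => ((z.1, (z.2 : E5)) : ℝ × E5)) :=
    continuous_fst.prodMk (continuous_subtype_val.comp continuous_snd)
  have key : ∀ F : ℝ → E5 → ℝ, Continuous (fun z : ℝ × E5 => F z.1 z.2) →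
      Continuous (fun z : ℝ × S4 => F z.1 z.2) := fun F hF => hF.comp hi
  exact ⟨key (fun t x => resc u t x) (Bas_a_continuous_resc hu),
    key (fun t x => Vt u t x) (Bas_a_continuous_Vt hu),
    key (fun t x => tan2 (resc u t) x) (Bas_a_continuous_tan2 hu)⟩

theorem bounds (hu : ContDiff ℝ 1 u) (hc : HasCompactSupport u) :
    ∃ C T : ℝ, 0 ≤ C ∧ ∀ (t : ℝ) (ω : S4), |resc u t ω| ≤ C * Real.exp (3 * t / 2) ∧
      |Vt u t ω| ≤ C * Real.exp (3 * t / 2) ∧ |tan2 (resc u t) ω| ≤ C * Real.exp (3 * t) ∧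
      (T ≤ t → resc u t ω = 0 ∧ Vt u t ω = 0 ∧ tan2 (resc u t) ω = 0) := by
  obtain ⟨C₁, hC₁⟩ := hc.exists_bound_of_continuous hu.continuous
  obtain ⟨C₂, hC₂⟩ := (hc.fderiv (𝕜 := ℝ)).exists_bound_of_continuous
    (Bas_a_continuous_fderiv_u hu)
  obtain ⟨R, hR⟩ := hc.isCompact.isBounded.subset_closedBall (0 : E5)
  have hC₁0 : 0 ≤ C₁ := (norm_nonneg _).trans (hC₁ 0)
  have hC₂0 : 0 ≤ C₂ := (norm_nonneg _).trans (hC₂ 0)
  have hz : ∀ (t : ℝ) (ω : S4), R < Real.exp t →
      u (Real.exp t • (ω : E5)) = 0 ∧ fderiv ℝ u (Real.exp t • (ω : E5)) = 0 := by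
    intro t ω ht
    have hn : ‖Real.exp t • (ω : E5)‖ = Real.exp t := by
      rw [norm_smul, Real.norm_eq_abs, abs_of_pos (Real.exp_pos _)]
      have : ‖(ω : E5)‖ = 1 := by simp
      rw [this, mul_one]
    have hns : Real.exp t • (ω : E5) ∉ tsupport u := by
      intro hmem
      have := hR hmem
      rw [mem_closedBall_zero_iff, hn] at this
      linarith
    refine ⟨image_eq_zero_of_notMem_tsupport hns, ?_⟩
    by_contra hne
    exact hns (support_fderiv_subset ℝ (Function.mem_support.2 hne))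
  set R' := max R 0 with hR'
  have hR'0 : 0 ≤ R' := le_max_right _ _
  set C := 3 / 2 * C₁ + R' * C₂ + R' ^ 2 * C₂ ^ 2 with hC
  have hC0 : 0 ≤ C := by positivity
  refine ⟨C, R', hC0, fun t ω => ?_⟩
  have hω : ‖(ω : E5)‖ = 1 := by simp
  have hV : |resc u t ω| ≤ C * Real.exp (3 * t / 2) := by
    unfold resc
    rw [abs_mul, abs_of_pos (Real.exp_pos _), mul_comm]
    refine mul_le_mul_of_nonneg_right ?_ (Real.exp_pos _).le
    have := hC₁ (Real.exp t • (ω : E5))
    rw [Real.norm_eq_abs] at this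
    have h2 : 0 ≤ R' * C₂ + R' ^ 2 * C₂ ^ 2 := by positivity
    linarith
  have htan0 : |tan2 (resc u t) ω| ≤ ‖fderiv ℝ (resc u t) (ω : E5)‖ ^ 2 := by
    have h1 : |fderiv ℝ (resc u t) (ω : E5) (ω : E5)| ≤ ‖fderiv ℝ (resc u t) (ω : E5)‖ := by
      have := (fderiv ℝ (resc u t) (ω : E5)).le_opNorm (ω : E5)
      rwa [hω, mul_one, Real.norm_eq_abs] at this
    have h2 : (fderiv ℝ (resc u t) (ω : E5) (ω : E5)) ^ 2 ≤ ‖fderiv ℝ (resc u t) (ω : E5)‖ ^ 2 := by
      rw [← sq_abs]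
      exact pow_le_pow_left₀ (abs_nonneg _) h1 2
    unfold tan2
    rw [hω, abs_le]
    constructor <;> nlinarith [sq_nonneg (fderiv ℝ (resc u t) (ω : E5) (ω : E5))]
  have hfn : ‖fderiv ℝ (resc u t) (ω : E5)‖ =
      Real.exp (3 * t / 2) * (Real.exp t * ‖fderiv ℝ u (Real.exp t • (ω : E5))‖) := by
    rw [Bas_a_fderiv_resc hu, norm_smul, norm_smul, Real.norm_eq_abs, Real.norm_eq_abs,
      abs_of_pos (Real.exp_pos _), abs_of_pos (Real.exp_pos _)]
  have hkey : Real.exp t * ‖fderiv ℝ u (Real.exp t • (ω : E5))‖ ≤ R' * C₂ := by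
    by_cases h : R < Real.exp t
    · rw [(hz t ω h).2, norm_zero, mul_zero]; positivity
    · push Not at h
      exact mul_le_mul (h.trans (le_max_left _ _)) (hC₂ _) (norm_nonneg _) hR'0
  have hkey0 : 0 ≤ Real.exp t * ‖fderiv ℝ u (Real.exp t • (ω : E5))‖ := by positivity
  have hVt : |Vt u t ω| ≤ C * Real.exp (3 * t / 2) := by
    rw [Bas_a_Vt_eq hu, abs_mul, abs_of_pos (Real.exp_pos _), mul_comm]
    refine mul_le_mul_of_nonneg_right ?_ (Real.exp_pos _).le
    have h1 := hC₁ (Real.exp t • (ω : E5))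
    rw [Real.norm_eq_abs] at h1
    have h2 : |Real.exp t * fderiv ℝ u (Real.exp t • (ω : E5)) (ω : E5)| ≤
        Real.exp t * ‖fderiv ℝ u (Real.exp t • (ω : E5))‖ := by
      rw [abs_mul, abs_of_pos (Real.exp_pos _)]
      refine mul_le_mul_of_nonneg_left ?_ (Real.exp_pos _).le
      have := (fderiv ℝ u (Real.exp t • (ω : E5))).le_opNorm (ω : E5)
      rwa [hω, mul_one, Real.norm_eq_abs] at this
    have h3 := abs_add_le (3 / 2 * u (Real.exp t • (ω : E5)))
      (Real.exp t * fderiv ℝ u (Real.exp t • (ω : E5)) (ω : E5))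
    have h4 : |3 / 2 * u (Real.exp t • (ω : E5))| ≤ 3 / 2 * C₁ := by
      rw [abs_mul, abs_of_pos (by norm_num : (0 : ℝ) < 3 / 2)]; linarith
    have h5 : 0 ≤ R' ^ 2 * C₂ ^ 2 := by positivity
    linarith
  have htan : |tan2 (resc u t) ω| ≤ C * Real.exp (3 * t) := by
    refine htan0.trans ?_
    rw [hfn, mul_pow, mul_comm]
    have e1 : Real.exp (3 * t / 2) ^ 2 = Real.exp (3 * t) := by
      rw [← Real.exp_nat_mul]; congr 1; push_cast; ring
    rw [e1]
    refine mul_le_mul_of_nonneg_right ?_ (Real.exp_pos _).le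
    have h1 : (Real.exp t * ‖fderiv ℝ u (Real.exp t • (ω : E5))‖) ^ 2 ≤ (R' * C₂) ^ 2 :=
      pow_le_pow_left₀ hkey0 hkey 2
    have h2 : 0 ≤ 3 / 2 * C₁ + R' * C₂ := by positivity
    nlinarith
  refine ⟨hV, hVt, htan, fun hT => ?_⟩
  have hlt : R < Real.exp t := by
    have h1 : t + 1 ≤ Real.exp t := Real.add_one_le_exp t
    have h2 : R ≤ R' := le_max_left _ _
    linarith
  obtain ⟨hz1, hz2⟩ := hz t ω hlt
  refine ⟨?_, ?_, ?_⟩
  · simp [resc, hz1]
  · rw [Bas_a_Vt_eq hu, hz1, hz2]; simp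
  · have : |tan2 (resc u t) ω| ≤ 0 := by
      refine htan0.trans ?_
      rw [hfn, hz2]; simp
    exact abs_nonpos_iff.1 this

lemma Bas_b_int_line {f : ℝ → ℝ} {C T : ℝ} (hf : Continuous f)
    (hb : ∀ t, |f t| ≤ C * Real.exp (3 * t)) (hz : ∀ t, T ≤ t → f t = 0) : Integrable f := by
  have h3 : Integrable ((Iic T).indicator (fun t => Real.exp (3 * t))) :=
    (integrable_indicator_iff measurableSet_Iic).2 (integrableOn_exp_mul_Iic (by norm_num) T)
  refine (h3.const_mul C).mono' hf.aestronglyMeasurable (Filter.Eventually.of_forall fun t => ?_)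
  by_cases h : t ∈ Iic T
  · rw [indicator_of_mem h]; exact hb t
  · rw [indicator_of_notMem h, mul_zero, hz t (le_of_lt (not_le.1 h)), norm_zero]

lemma Bas_b_exp_half_sq (t : ℝ) :
    Real.exp (3 * t / 2) * Real.exp (3 * t / 2) = Real.exp (3 * t) := by
  rw [← Real.exp_add]; congr 1; ring

lemma Bas_b_adm_diff {v : ℝ → ℝ} (hv : Adm v) : Differentiable ℝ v :=
  hv.cd.differentiable (by norm_num)

lemma Bas_b_adm_cd {v : ℝ → ℝ} (hv : Adm v) : Continuous (deriv v) :=
  hv.cd.continuous_deriv (by norm_num)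

lemma Bas_b_adm_bd {v : ℝ → ℝ} (hv : Adm v) : ∃ C T : ℝ, 0 ≤ C ∧
    (∀ t, |v t| ≤ C * Real.exp (3 * t / 2)) ∧
    (∀ t, |deriv v t| ≤ C * Real.exp (3 * t / 2)) ∧ (∀ t, T ≤ t → v t = 0) ∧
    (∀ t, T ≤ t → deriv v t = 0) := by
  obtain ⟨C, T, h⟩ := hv.bd
  have hC : 0 ≤ C := by
    by_contra hneg
    push Not at hneg
    have := (abs_nonneg _).trans (h 0).1
    have h2 : C * Real.exp (3 * 0 / 2) < 0 := mul_neg_of_neg_of_pos hneg (Real.exp_pos _)
    linarith
  refine ⟨C, T + 1, hC, fun t => (h t).1, fun t => (h t).2.1, fun t ht => (h t).2.2 (by linarith),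
    fun t ht => ?_⟩
  have : v =ᶠ[nhds t] fun _ => 0 := by
    filter_upwards [Ioi_mem_nhds (show T < t by linarith)] with s hs
    exact (h s).2.2 (le_of_lt hs)
  rw [this.deriv_eq]; simp

lemma Bas_b_adm_of {v v' : ℝ → ℝ} {C T : ℝ} (hd : ∀ t, HasDerivAt v (v' t) t)
    (hc : Continuous v') (h1 : ∀ t, |v t| ≤ C * Real.exp (3 * t / 2))
    (h2 : ∀ t, |v' t| ≤ C * Real.exp (3 * t / 2)) (h3 : ∀ t, T ≤ t → v t = 0) : Adm v := by
  have hdv : deriv v = v' := funext fun t => (hd t).deriv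
  refine ⟨contDiff_one_iff_deriv.2 ⟨fun t => (hd t).differentiableAt, by rw [hdv]; exact hc⟩,
    C, T, fun t => ⟨h1 t, by rw [hdv]; exact h2 t, h3 t⟩⟩

lemma Bas_b_adm_add {v w : ℝ → ℝ} (hv : Adm v) (hw : Adm w) : Adm (fun t => v t + w t) := by
  obtain ⟨C, T, hC, h1, h2, h3, h4⟩ := Bas_b_adm_bd hv
  obtain ⟨C', T', hC', h1', h2', h3', h4'⟩ := Bas_b_adm_bd hw
  refine Bas_b_adm_of (v' := fun t => deriv v t + deriv w t) (C := C + C') (T := max T T')
    (fun t => (Bas_b_adm_diff hv t).hasDerivAt.add (Bas_b_adm_diff hw t).hasDerivAt)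
    ((Bas_b_adm_cd hv).add (Bas_b_adm_cd hw)) (fun t => ?_) (fun t => ?_) (fun t ht => ?_)
  · have := abs_add_le (v t) (w t)
    have := h1 t; have := h1' t; linarith
  · have := abs_add_le (deriv v t) (deriv w t)
    have := h2 t; have := h2' t; linarith
  · rw [h3 t (le_trans (le_max_left _ _) ht), h3' t (le_trans (le_max_right _ _) ht), add_zero]

lemma Bas_b_adm_cm {v : ℝ → ℝ} (hv : Adm v) (c : ℝ) : Adm (fun t => c * v t) := by
  obtain ⟨C, T, hC, h1, h2, h3, h4⟩ := Bas_b_adm_bd hv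
  refine Bas_b_adm_of (v' := fun t => c * deriv v t) (C := |c| * C) (T := T)
    (fun t => (Bas_b_adm_diff hv t).hasDerivAt.const_mul c)
    (continuous_const.mul (Bas_b_adm_cd hv)) (fun t => ?_) (fun t => ?_) (fun t ht => ?_)
  · rw [abs_mul, mul_assoc]; exact mul_le_mul_of_nonneg_left (h1 t) (abs_nonneg c)
  · rw [abs_mul, mul_assoc]; exact mul_le_mul_of_nonneg_left (h2 t) (abs_nonneg c)
  · rw [h3 t ht, mul_zero]

lemma Bas_b_adm_zero : Adm (fun _ => 0) := by
  refine Bas_b_adm_of (v' := fun _ => 0) (C := 0) (T := 0) (fun t => hasDerivAt_const t 0)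
    continuous_const (fun t => by simp) (fun t => by simp) (fun t _ => rfl)

lemma Bas_b_adm_sum {ι : Type*} (s : Finset ι) {v : ι → ℝ → ℝ} (hv : ∀ i ∈ s, Adm (v i)) :
    Adm (fun t => ∑ i ∈ s, v i t) := by
  classical
  induction s using Finset.induction_on with
  | empty => simpa using Bas_b_adm_zero
  | insert a s ha ih =>
    have h := Bas_b_adm_add (hv a (Finset.mem_insert_self a s))
      (ih fun i hi => hv i (Finset.mem_insert_of_mem hi))
    simpa [Finset.sum_insert ha] using h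

lemma Bas_b_int_cont {f : S4 → ℝ} (hf : Continuous f) : Integrable f σ :=
  hf.integrable_of_hasCompactSupport (HasCompactSupport.of_compactSpace f)

lemma Bas_b_cont_param {f : ℝ → S4 → ℝ} (hf : Continuous (Function.uncurry f)) :
    Continuous (fun t => ∫ ω, f t ω ∂σ) := by
  have h := continuous_parametric_integral_of_continuous (μ := σ) hf (isCompact_univ (X := S4))
  simpa [Measure.restrict_univ] using h

lemma Bas_b_abs_int_le {f : S4 → ℝ} {K : ℝ} (h : ∀ ω, |f ω| ≤ K) :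
    |∫ ω, f ω ∂σ| ≤ K * σ.real univ := by
  have := norm_integral_le_of_norm_le_const (μ := σ) (f := f) (C := K)
    (Filter.Eventually.of_forall fun ω => by rw [Real.norm_eq_abs]; exact h ω)
  simpa [Real.norm_eq_abs] using this

lemma Bas_b_cont_V1 (hu : ContDiff ℝ 1 u) (t : ℝ) : Continuous (fun ω : S4 => resc u t ω) :=
  (cont_all hu).1.comp (continuous_const.prodMk continuous_id)

lemma Bas_b_cont_Vt1 (hu : ContDiff ℝ 1 u) (t : ℝ) : Continuous (fun ω : S4 => Vt u t ω) :=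
  (cont_all hu).2.1.comp (continuous_const.prodMk continuous_id)

lemma Bas_b_cont_tan1 (hu : ContDiff ℝ 1 u) (t : ℝ) :
    Continuous (fun ω : S4 => tan2 (resc u t) ω) := by
  have h := (cont_all hu).2.2.comp (f := fun ω : S4 => ((t, ω) : ℝ × S4))
    (continuous_const.prodMk continuous_id)
  simpa only [Function.comp_def] using h

lemma Bas_b_adm_V (hu : ContDiff ℝ 1 u) (hc : HasCompactSupport u) (ω : S4) :
    Adm (fun t => resc u t ω) := by
  obtain ⟨C, T, hC, h⟩ := bounds hu hc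
  exact Bas_b_adm_of (v' := fun t => Vt u t ω) (C := C) (T := T)
    (fun t => hasDerivAt_resc hu t ω)
    ((cont_all hu).2.1.comp (continuous_id.prodMk continuous_const))
    (fun t => (h t ω).1) (fun t => (h t ω).2.1) (fun t ht => ((h t ω).2.2.2 ht).1)

lemma Bas_b_hasDerivAt_coef (hu : ContDiff ℝ 1 u) (hc : HasCompactSupport u) (p : C(S4, ℝ))
    (t : ℝ) : HasDerivAt (coef u p) (∫ ω : S4, Vt u t ω * p ω ∂σ) t := by
  obtain ⟨C, T, hC, h⟩ := bounds hu hc
  have key := hasDerivAt_integral_of_dominated_loc_of_deriv_le (μ := σ) (𝕜 := ℝ) (s := ball t 1)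
    (x₀ := t) (F := fun s (ω : S4) => resc u s ω * p ω) (F' := fun s (ω : S4) => Vt u s ω * p ω)
    (bound := fun _ => C * Real.exp (3 * (t + 1) / 2) * ‖p‖) (ball_mem_nhds t one_pos)
    (Filter.Eventually.of_forall fun s =>
      ((Bas_b_cont_V1 hu s).mul p.continuous).aestronglyMeasurable)
    (Bas_b_int_cont ((Bas_b_cont_V1 hu t).mul p.continuous))
    ((Bas_b_cont_Vt1 hu t).mul p.continuous).aestronglyMeasurable
    (Filter.Eventually.of_forall fun ω s hs => ?_) (integrable_const _)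
    (Filter.Eventually.of_forall fun ω s hs => (hasDerivAt_resc hu s ω).mul_const (p ω))
  · exact key.2
  · rw [norm_mul]
    have hs' : s ≤ t + 1 := by
      have := (Real.dist_eq s t) ▸ (mem_ball.1 hs)
      have := (abs_lt.1 this).2
      linarith
    refine mul_le_mul ?_ (p.norm_coe_le_norm ω) (norm_nonneg _) (by positivity)
    rw [Real.norm_eq_abs]
    refine ((h s ω).2.1).trans (mul_le_mul_of_nonneg_left ?_ hC)
    exact Real.exp_le_exp.2 (by linarith)

theorem adm_coef (hu : ContDiff ℝ 1 u) (hc : HasCompactSupport u) (p : C(S4, ℝ)) :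
    Adm (coef u p) ∧ ∀ t, deriv (coef u p) t = ∫ ω : S4, Vt u t ω * p ω ∂σ := by
  refine ⟨?_, fun t => (Bas_b_hasDerivAt_coef hu hc p t).deriv⟩
  obtain ⟨C, T, hC, h⟩ := bounds hu hc
  refine Bas_b_adm_of (v' := fun t => ∫ ω : S4, Vt u t ω * p ω ∂σ)
    (C := C * ‖p‖ * σ.real univ) (T := T)
    (fun t => Bas_b_hasDerivAt_coef hu hc p t)
    (Bas_b_cont_param (f := fun t ω => Vt u t ω * p ω)
      ((cont_all hu).2.1.mul (p.continuous.comp continuous_snd))) (fun t => ?_) (fun t => ?_)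
    (fun t ht => ?_)
  · have := Bas_b_abs_int_le (f := fun ω : S4 => resc u t ω * p ω)
      (K := C * Real.exp (3 * t / 2) * ‖p‖)
      (fun ω => by
        rw [abs_mul]
        exact mul_le_mul (h t ω).1 (p.norm_coe_le_norm ω) (abs_nonneg _) (by positivity))
    unfold coef
    linarith
  · have := Bas_b_abs_int_le (f := fun ω : S4 => Vt u t ω * p ω)
      (K := C * Real.exp (3 * t / 2) * ‖p‖)
      (fun ω => by
        rw [abs_mul]
        exact mul_le_mul (h t ω).2.1 (p.norm_coe_le_norm ω) (abs_nonneg _) (by positivity))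
    linarith
  · unfold coef
    have : (fun ω : S4 => resc u t ω * p ω) = fun _ => 0 := by
      ext ω; rw [((h t ω).2.2.2 ht).1, zero_mul]
    rw [this]; simp

theorem adm_rest (hu : ContDiff ℝ 1 u) (hc : HasCompactSupport u) {M : ℕ}
    (p : Fin M → C(S4, ℝ)) (ω : S4) : Adm (fun t => rest u p t ω) ∧
    ∀ t, deriv (fun s => rest u p s ω) t =
      Vt u t ω - ∑ i, (∫ ω' : S4, Vt u t ω' * p i ω' ∂σ) * p i ω := by
  refine ⟨?_, fun t => ?_⟩
  · have h1 := Bas_b_adm_V hu hc ω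
    have h2 : Adm (fun t => ∑ i : Fin M, (-(p i ω)) * coef u (p i) t) :=
      Bas_b_adm_sum Finset.univ fun i _ => Bas_b_adm_cm (adm_coef hu hc (p i)).1 _
    have h3 := Bas_b_adm_add h1 h2
    convert h3 using 2 with t
    unfold rest
    rw [sub_eq_add_neg, ← Finset.sum_neg_distrib]
    congr 1
    exact Finset.sum_congr rfl fun i _ => by ring
  · have h : HasDerivAt (fun s => rest u p s ω)
        (Vt u t ω - ∑ i, (∫ ω' : S4, Vt u t ω' * p i ω' ∂σ) * p i ω) t := by
      unfold rest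
      refine (hasDerivAt_resc hu t ω).sub ?_
      exact HasDerivAt.fun_sum fun i _ =>
        (Bas_b_hasDerivAt_coef hu hc (p i) t).mul_const (p i ω)
    exact h.deriv

theorem coef_add {u w : E5 → ℝ} (hu : ContDiff ℝ 1 u) (hw : ContDiff ℝ 1 w) (p : C(S4, ℝ)) :
    coef (u + w) p = fun t => coef u p t + coef w p t := by
  ext t
  unfold coef
  have i1 : Integrable (fun ω : S4 => resc u t ω * p ω) σ :=
    Bas_b_int_cont ((Bas_b_cont_V1 hu t).mul p.continuous)
  have i2 : Integrable (fun ω : S4 => resc w t ω * p ω) σ :=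
    Bas_b_int_cont ((Bas_b_cont_V1 hw t).mul p.continuous)
  rw [← integral_add i1 i2]
  refine integral_congr_ae (Filter.Eventually.of_forall fun ω => ?_)
  simp only [resc, Pi.add_apply]; ring

theorem coef_smul {u : E5 → ℝ} (c : ℝ) (p : C(S4, ℝ)) :
    coef (c • u) p = fun t => c * coef u p t := by
  ext t
  unfold coef
  rw [← integral_const_mul]
  refine integral_congr_ae (Filter.Eventually.of_forall fun ω => ?_)
  simp only [resc, Pi.smul_apply, smul_eq_mul]; ring

theorem int_dens {W : ℝ → ℝ} (hW : Nice W) (hu : ContDiff ℝ 1 u) (hc : HasCompactSupport u) :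
    Integrable (dens W u) := by
  obtain ⟨C, T, hC, h⟩ := bounds hu hc
  obtain ⟨c1, c2, c3⟩ := cont_all hu
  have h1 : Integrable (fun t => ∫ ω : S4, (Vt u t ω ^ 2 + (9 / 4) * resc u t ω ^ 2
      + tan2 (resc u t) ω) ∂σ) := by
    refine Bas_b_int_line (C := (C ^ 2 + (9 / 4) * C ^ 2 + C) * σ.real univ) (T := T) ?_
      (fun t => ?_) (fun t ht => ?_)
    · refine Bas_b_cont_param (f := fun t (ω : S4) => Vt u t ω ^ 2 + (9 / 4) * resc u t ω ^ 2
        + tan2 (resc u t) ω) ?_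
      exact ((c2.pow 2).add (continuous_const.mul (c1.pow 2))).add c3
    · have := Bas_b_abs_int_le (f := fun ω : S4 => Vt u t ω ^ 2 + (9 / 4) * resc u t ω ^ 2
        + tan2 (resc u t) ω) (K := (C ^ 2 + (9 / 4) * C ^ 2 + C) * Real.exp (3 * t))
        (fun ω => ?_)
      · linarith
      · obtain ⟨h1, h2, h3, h4⟩ := h t ω
        have e1 : Vt u t ω ^ 2 ≤ C ^ 2 * Real.exp (3 * t) := by
          rw [← sq_abs, ← Bas_b_exp_half_sq]
          calc |Vt u t ω| ^ 2 ≤ (C * Real.exp (3 * t / 2)) ^ 2 :=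
                pow_le_pow_left₀ (abs_nonneg _) h2 2
            _ = _ := by ring
        have e2 : resc u t ω ^ 2 ≤ C ^ 2 * Real.exp (3 * t) := by
          rw [← sq_abs, ← Bas_b_exp_half_sq]
          calc |resc u t ω| ^ 2 ≤ (C * Real.exp (3 * t / 2)) ^ 2 :=
                pow_le_pow_left₀ (abs_nonneg _) h1 2
            _ = _ := by ring
        have e3 := sq_nonneg (Vt u t ω)
        have e4 := sq_nonneg (resc u t ω)
        rw [abs_le] at h3 ⊢
        constructor <;> nlinarith [h3.1, h3.2]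
    · have : (fun ω : S4 => Vt u t ω ^ 2 + (9 / 4) * resc u t ω ^ 2 + tan2 (resc u t) ω)
          = fun _ => 0 := by
        ext ω
        obtain ⟨z1, z2, z3⟩ := (h t ω).2.2.2 ht
        rw [z1, z2, z3]; ring
      rw [this]; simp
  have h2 : Integrable (fun t => W t * ∫ ω : S4, resc u t ω ^ 2 ∂σ) := by
    have hcR : Continuous (fun t => ∫ ω : S4, resc u t ω ^ 2 ∂σ) :=
      Bas_b_cont_param (f := fun t (ω : S4) => resc u t ω ^ 2) (c1.pow 2)
    exact (hW.cont.mul hcR).integrable_of_hasCompactSupport hW.cs.mul_right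
  refine (h1.sub h2).congr (Filter.Eventually.of_forall fun t => ?_)
  have i1 : Integrable (fun ω : S4 => Vt u t ω ^ 2) σ :=
    Bas_b_int_cont ((Bas_b_cont_Vt1 hu t).pow 2)
  have i2 : Integrable (fun ω : S4 => resc u t ω ^ 2) σ :=
    Bas_b_int_cont ((Bas_b_cont_V1 hu t).pow 2)
  have i3 : Integrable (fun ω : S4 => tan2 (resc u t) ω) σ :=
    Bas_b_int_cont (Bas_b_cont_tan1 hu t)
  have i123 : Integrable (fun ω : S4 => Vt u t ω ^ 2 + (9 / 4) * resc u t ω ^ 2
      + tan2 (resc u t) ω) σ := (i1.add (i2.const_mul _)).add i3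
  simp only [Pi.sub_apply]
  unfold dens
  rw [← integral_const_mul, ← integral_sub i123 (i2.const_mul _)]

end Pool.Agent.CLR5
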