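import Mathlib

set_option autoImplicit false

open Finset

namespace CLRT

variable {d M : ℕ} [NeZero M]

/-- The character `x ↦ e(a·x)` of the torus grid. -/
noncomputable def gchar (a : Fin d → ZMod M) : AddChar (Fin d → ZMod M) ℂ :=
  (ZMod.stdAddChar (N := M)).compAddMonoidHom
    { toFun := fun x => ∑ i, a i * x i
      map_zero' := by simp
      map_add' := fun x y => by
        simp only [Pi.add_apply, mul_add, Finset.sum_add_distrib] }

lemma gchar_apply (a x : Fin d → ZMod M) :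
    gchar a x = ZMod.stdAddChar (∑ i, a i * x i) := rfl

lemma gchar_symm (a x : Fin d → ZMod M) : gchar a x = gchar x a := by
  rw [gchar_apply, gchar_apply]
  congr 1
  exact Finset.sum_congr rfl (fun i _ => mul_comm _ _)

lemma gchar_norm (a x : Fin d → ZMod M) : ‖gchar a x‖ = 1 := by
  rw [gchar_apply, ZMod.stdAddChar_apply]
  exact Circle.norm_coe _

lemma gchar_conj (a x : Fin d → ZMod M) : star (gchar a x) = gchar (-a) x := by
  have h1 : gchar a x * gchar (-a) x = 1 := by
    rw [gchar_apply, gchar_apply, ← AddChar.map_add_eq_mul, ← Finset.sum_add_distrib]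
    have : ∑ i, (a i * x i + (-a) i * x i) = 0 := by
      refine Finset.sum_eq_zero (fun i _ => ?_)
      simp
    rw [this, AddChar.map_zero_eq_one]
  have h2 : gchar a x * star (gchar a x) = 1 := by
    have := Complex.mul_conj (gchar a x)
    rw [show star (gchar a x) = (starRingEnd ℂ) (gchar a x) from rfl, this,
      Complex.normSq_eq_norm_sq, gchar_norm]
    simp
  have h3 : gchar a x ≠ 0 := by
    intro h
    rw [h, zero_mul] at h1
    exact zero_ne_one h1
  exact mul_left_cancel₀ h3 (h2.trans h1.symm)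

lemma gchar_add (a b x : Fin d → ZMod M) : gchar (a + b) x = gchar a x * gchar b x := by
  rw [gchar_symm, AddChar.map_add_eq_mul, gchar_symm x a, gchar_symm x b]

lemma gchar_sum (a : Fin d → ZMod M) (ha : a ≠ 0) : ∑ x, gchar a x = 0 := by
  classical
  rw [AddChar.sum_eq_zero_iff_ne_zero]
  intro h
  obtain ⟨i, hi⟩ := Function.ne_iff.1 ha
  have h1 : gchar a (Pi.single i 1) = 1 := by
    rw [h]; rfl
  rw [gchar_apply] at h1
  have h2 : ∑ j, a j * (Pi.single i 1 : Fin d → ZMod M) j = a i := by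
    rw [Finset.sum_eq_single i]
    · simp
    · intro j _ hj
      rw [Pi.single_eq_of_ne hj, mul_zero]
    · intro hn
      exact absurd (Finset.mem_univ i) hn
  rw [h2, ← (ZMod.stdAddChar (N := M)).map_zero_eq_one] at h1
  exact hi (ZMod.injective_stdAddChar h1)

/-- The number of points. -/
lemma card_grid : Fintype.card (Fin d → ZMod M) = M ^ d := by
  rw [Fintype.card_fun, ZMod.card, Fintype.card_fin]

/-- The matrix of the normalised characters. -/
noncomputable def UM (d M : ℕ) [NeZero M] : Matrix (Fin d → ZMod M) (Fin d → ZMod M) ℂ :=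
  fun x k => ((Real.sqrt ((M : ℝ) ^ d))⁻¹ : ℝ) * gchar k x

lemma UM_norm (x k : Fin d → ZMod M) : ‖UM d M x k‖ ^ 2 = ((M : ℝ) ^ d)⁻¹ := by
  unfold UM
  rw [norm_mul, gchar_norm, mul_one, Complex.norm_real, Real.norm_eq_abs, sq_abs, inv_pow,
    Real.sq_sqrt (by positivity)]

lemma UM_unitary : (UM d M).conjTranspose * UM d M = 1 := by
  classical
  ext k k'
  rw [Matrix.mul_apply]
  have hM : (0 : ℝ) < (M : ℝ) ^ d := by
    have : 0 < M := Nat.pos_of_ne_zero (NeZero.ne M)
    positivity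
  have h1 : ∀ x : Fin d → ZMod M, (UM d M).conjTranspose k x * UM d M x k' =
      (((M : ℝ) ^ d)⁻¹ : ℝ) * gchar (k' - k) x := by
    intro x
    rw [Matrix.conjTranspose_apply]
    unfold UM
    have h2 : star ((((Real.sqrt ((M : ℝ) ^ d))⁻¹ : ℝ) : ℂ) * gchar k x) =
        (((Real.sqrt ((M : ℝ) ^ d))⁻¹ : ℝ) : ℂ) * gchar (-k) x := by
      rw [star_mul', gchar_conj]
      congr 1
      exact Complex.conj_ofReal _
    rw [h2, sub_eq_add_neg, gchar_add]
    have h3 : ((((Real.sqrt ((M : ℝ) ^ d))⁻¹ : ℝ) : ℂ)) * (((Real.sqrt ((M : ℝ) ^ d))⁻¹ : ℝ) : ℂ) =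
        ((((M : ℝ) ^ d)⁻¹ : ℝ) : ℂ) := by
      rw [← Complex.ofReal_mul]
      congr 1
      rw [← mul_inv, Real.mul_self_sqrt hM.le]
    linear_combination (gchar (-k) x * gchar k' x) * h3
  rw [Finset.sum_congr rfl (fun x _ => h1 x), ← Finset.mul_sum]
  by_cases hk : k = k'
  · subst hk
    rw [sub_self, Matrix.one_apply_eq]
    have h4 : ∑ x : Fin d → ZMod M, gchar (0 : Fin d → ZMod M) x = ((M : ℝ) ^ d : ℝ) := by
      have h5 : ∀ x : Fin d → ZMod M, gchar (0 : Fin d → ZMod M) x = 1 := by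
        intro x
        rw [gchar_symm, AddChar.map_zero_eq_one]
      rw [Finset.sum_congr rfl (fun x _ => h5 x), Finset.sum_const, Finset.card_univ, card_grid]
      simp
    rw [h4, ← Complex.ofReal_mul, inv_mul_cancel₀ hM.ne']
    simp
  · rw [gchar_sum _ (sub_ne_zero.2 (Ne.symm hk)), mul_zero, Matrix.one_apply_ne hk]

lemma UM_unitary' : UM d M * (UM d M).conjTranspose = 1 :=
  mul_eq_one_comm.1 UM_unitary

/-- Fourier coefficients. -/
noncomputable def fc (v : (Fin d → ZMod M) → ℂ) (k : Fin d → ZMod M) : ℂ :=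
  ∑ x, star (UM d M x k) * v x

/-- Parseval. -/
lemma parseval (v : (Fin d → ZMod M) → ℂ) : ∑ k, ‖fc v k‖ ^ 2 = ∑ x, ‖v x‖ ^ 2 := by
  classical
  have h1 : ((∑ k, ‖fc v k‖ ^ 2 : ℝ) : ℂ) = star (Matrix.mulVec (UM d M).conjTranspose v) ⬝ᵥ
      (Matrix.mulVec (UM d M).conjTranspose v) := by
    rw [dotProduct]
    push_cast
    refine Finset.sum_congr rfl (fun k _ => ?_)
    have h2 : Matrix.mulVec (UM d M).conjTranspose v k = fc v k := rfl
    rw [Pi.star_apply, h2, show star (fc v k) = (starRingEnd ℂ) (fc v k) from rfl,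
      mul_comm, Complex.mul_conj, Complex.normSq_eq_norm_sq]
    push_cast
    rfl
  have h3 : star (Matrix.mulVec (UM d M).conjTranspose v) ⬝ᵥ
      (Matrix.mulVec (UM d M).conjTranspose v) = star v ⬝ᵥ v := by
    rw [Matrix.star_mulVec, Matrix.conjTranspose_conjTranspose, ← Matrix.dotProduct_mulVec,
      Matrix.mulVec_mulVec, UM_unitary', Matrix.one_mulVec]
  have h4 : star v ⬝ᵥ v = ((∑ x, ‖v x‖ ^ 2 : ℝ) : ℂ) := by
    rw [dotProduct]
    push_cast
    refine Finset.sum_congr rfl (fun x _ => ?_)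
    rw [Pi.star_apply, show star (v x) = (starRingEnd ℂ) (v x) from rfl,
      mul_comm, Complex.mul_conj, Complex.normSq_eq_norm_sq]
    push_cast
    rfl
  have h5 := h1.trans (h3.trans h4)
  exact_mod_cast h5

/-- The shift by the unit vector `j`. -/
def sh (j : Fin d) (x : Fin d → ZMod M) : Fin d → ZMod M := x + Pi.single j 1

lemma fc_shift (v : (Fin d → ZMod M) → ℂ) (j : Fin d) (k : Fin d → ZMod M) :
    fc (fun x => v (sh j x)) k = ZMod.stdAddChar (k j) * fc v k := by
  classical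
  unfold fc
  rw [Finset.mul_sum]
  have h1 : ∑ x, star (UM d M x k) * v (sh j x) =
      ∑ x, star (UM d M (x - Pi.single j 1) k) * v x := by
    refine Fintype.sum_equiv (Equiv.addRight (Pi.single j 1)) _ _ (fun x => ?_)
    simp only [Equiv.coe_addRight, sh, add_sub_cancel_right]
  rw [h1]
  refine Finset.sum_congr rfl (fun x _ => ?_)
  have h2 : UM d M (x - Pi.single j 1) k = gchar k (-Pi.single j 1) * UM d M x k := by
    unfold UM
    rw [sub_eq_add_neg, AddChar.map_add_eq_mul]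
    ring
  have h3 : star (gchar k (-Pi.single j (1 : ZMod M))) = ZMod.stdAddChar (k j) := by
    rw [gchar_conj, gchar_apply]
    congr 1
    rw [Finset.sum_eq_single j]
    · simp
    · intro i _ hi
      simp [Pi.single_eq_of_ne hi]
    · intro hn
      exact absurd (Finset.mem_univ j) hn
  rw [h2, star_mul', h3]
  ring

lemma fc_sub (v w : (Fin d → ZMod M) → ℂ) (k : Fin d → ZMod M) :
    fc (fun x => v x - w x) k = fc v k - fc w k := by
  unfold fc
  rw [← Finset.sum_sub_distrib]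
  exact Finset.sum_congr rfl (fun x _ => by ring)

/-- The eigenvalues of the discrete Laplacian with spacing `1/m`, plus `ε`. -/
noncomputable def lam (ε m : ℝ) (k : Fin d → ZMod M) : ℝ :=
  ε + m ^ 2 * ∑ j, ‖ZMod.stdAddChar (k j) - 1‖ ^ 2

/-- The quadratic form of the discrete Laplacian. -/
theorem form_eq (ε m : ℝ) (v : (Fin d → ZMod M) → ℂ) :
    ∑ k, lam ε m k * ‖∑ x, star (UM d M x k) * v x‖ ^ 2 =
      ε * ∑ x, ‖v x‖ ^ 2 + m ^ 2 * ∑ j, ∑ x, ‖v (sh j x) - v x‖ ^ 2 := by
  classical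
  have h1 : ∀ j : Fin d, ∑ x, ‖v (sh j x) - v x‖ ^ 2 =
      ∑ k, ‖ZMod.stdAddChar (k j) - 1‖ ^ 2 * ‖fc v k‖ ^ 2 := by
    intro j
    rw [← parseval (fun x => v (sh j x) - v x)]
    refine Finset.sum_congr rfl (fun k _ => ?_)
    rw [fc_sub, fc_shift, ← mul_pow, ← norm_mul]
    congr 2
    ring
  rw [Finset.sum_congr rfl (fun j _ => h1 j), Finset.sum_comm, ← parseval v, Finset.mul_sum,
    Finset.mul_sum, ← Finset.sum_add_distrib]
  refine Finset.sum_congr rfl (fun k _ => ?_)
  have h2 : ∑ x, star (UM d M x k) * v x = fc v k := rfl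
  rw [h2, lam, ← Finset.sum_mul]
  ring

/-- The eigenvalue in terms of the cosine. -/
lemma norm_std (k : ℤ) : ‖ZMod.stdAddChar (N := M) (k : ZMod M) - 1‖ ^ 2 =
    2 - 2 * Real.cos (2 * Real.pi * k / M) := by
  rw [ZMod.stdAddChar_coe]
  have h1 : Complex.exp (2 * Real.pi * Complex.I * k / M) =
      Complex.exp (((2 * Real.pi * k / M : ℝ) : ℂ) * Complex.I) := by
    congr 1
    push_cast
    ring
  rw [h1, ← Complex.normSq_eq_norm_sq, Complex.normSq_apply]
  rw [Complex.sub_re, Complex.sub_im, Complex.exp_ofReal_mul_I_re, Complex.exp_ofReal_mul_I_im]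
  simp only [Complex.one_re, Complex.one_im, sub_zero]
  nlinarith [Real.sin_sq_add_cos_sq (2 * Real.pi * k / M)]

end CLRT
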