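import Pool.Agent.Lib.MP_efa090_mp.TIneq

namespace CLRT

open Matrix

variable {n : Type*} [Fintype n] [DecidableEq n]

lemma quadv (P : Matrix n n ℂ) (a : n → ℝ) (c : n → ℂ) :
    ((∑ i, a i * ‖(P *ᵥ c) i‖ ^ 2 : ℝ) : ℂ) = star c ⬝ᵥ ((Pᴴ * dg a * P) *ᵥ c) := by
  have h1 : (Pᴴ * dg a * P) *ᵥ c = Pᴴ *ᵥ (dg a *ᵥ (P *ᵥ c)) := by
    simp only [Matrix.mulVec_mulVec, Matrix.mul_assoc]
  rw [h1, Matrix.dotProduct_mulVec, ← Matrix.star_mulVec]
  unfold dg
  simp only [dotProduct, Matrix.mulVec_diagonal]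
  push_cast
  refine Finset.sum_congr rfl fun i _ => ?_
  rw [Pi.star_apply, ← Complex.conj_mul']
  simp only [Complex.star_def]
  ring

lemma count_pos (U : Matrix n n ℂ) (hU : Uᴴ * U = 1) (x y : n → ℝ)
    (hx : ∀ i, 0 < x i) (hy : ∀ j, 0 < y j) (S : Submodule ℂ (n → ℂ))
    (hS : ∀ v ∈ S, ∑ j, y j * ‖∑ i, star (U i j) * v i‖ ^ 2 ≤ ∑ i, x i * ‖v i‖ ^ 2)
    (s : ℝ) (hs : 1 ≤ s) :
    (Module.finrank ℂ S : ℝ) * ff s ≤ ∑ i, ∑ j, ‖U i j‖ ^ 2 * ff (s * x i / y j) := by
  have hU' : U * Uᴴ = 1 := mul_eq_one_comm.mp hU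
  obtain ⟨V, a, hV⟩ := exists_Dg (NN_herm U x y)
  set H : Matrix n n ℂ := Uᴴ * dg (fun i => √(x i)) * V with hH
  have hsq : dg (fun i => √(x i)⁻¹) * dg (fun i => √(x i)) = (1 : Matrix n n ℂ) := by
    rw [dg_mul]
    apply dg_one
    intro k
    have : 0 < √(x k) := Real.sqrt_pos.mpr (hx k)
    rw [Real.sqrt_inv]
    field_simp
  set K : Matrix n n ℂ := Uᴴ * dg (fun i => √(x i)⁻¹) * V with hK
  have hrel : dg (fun j => 1 / y j) * H = K * dg a := by
    have e1 : NN U x y * V = V * dg a := by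
      rw [hV.eq, Matrix.mul_assoc, hV.left, Matrix.mul_one]
    have e2 : Uᴴ * dg (fun i => √(x i)⁻¹) * (NN U x y * V) = dg (fun j => 1 / y j) * H := by
      have e3 : Uᴴ * dg (fun i => √(x i)⁻¹) * (NN U x y * V) =
          Uᴴ * (dg (fun i => √(x i)⁻¹) * dg (fun i => √(x i))) * U * dg (fun j => 1 / y j) *
            (Uᴴ * dg (fun i => √(x i)) * V) := by
        unfold NN
        simp only [Matrix.mul_assoc]
      rw [e3, hsq, Matrix.mul_one, hU, Matrix.one_mul, ← hH]
    rw [← e2, e1, hK]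
    simp only [Matrix.mul_assoc]
  have hH2 : H = dg y * K * dg a := by
    rw [Matrix.mul_assoc, ← hrel, ← Matrix.mul_assoc, dg_mul, dg_one, Matrix.one_mul]
    intro k
    have := (hy k).ne'
    field_simp
  have hKH : Kᴴ * H = 1 := by
    have e : Kᴴ * H = Vᴴ * (dg (fun i => √(x i)⁻¹) * (U * Uᴴ) * dg (fun i => √(x i))) * V := by
      rw [hK, hH]
      simp only [conjTranspose_mul, dg_conj, conjTranspose_conjTranspose, Matrix.mul_assoc]
    rw [e, hU', Matrix.mul_one, hsq, Matrix.mul_one, hV.left]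
  have hQa : (Kᴴ * dg y * K) * dg a = 1 := by
    rw [← hKH]
    conv_rhs => rw [hH2]
    simp only [Matrix.mul_assoc]
  have ha : ∀ k, 0 < a k := by
    intro k
    have e := congrFun (congrFun hQa k) k
    rw [Matrix.one_apply_eq] at e
    have e1 : ((Kᴴ * dg y * K) * dg a) k k = (Kᴴ * dg y * K) k k * (a k : ℂ) := by
      unfold dg
      rw [Matrix.mul_diagonal]
    rw [e1, quad] at e
    have e2 : (∑ i, y i * ‖K i k‖ ^ 2) * a k = 1 := by exact_mod_cast e
    have e3 : 0 ≤ ∑ i, y i * ‖K i k‖ ^ 2 :=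
      Finset.sum_nonneg fun i _ => mul_nonneg (hy i).le (by positivity)
    by_contra hcon
    push Not at hcon
    nlinarith
  have hQ : Kᴴ * dg y * K = dg (fun k => 1 / a k) := by
    have e1 : dg a * dg (fun k => 1 / a k) = (1 : Matrix n n ℂ) := by
      rw [dg_mul]
      apply dg_one
      intro k
      have := (ha k).ne'
      field_simp
    calc Kᴴ * dg y * K = Kᴴ * dg y * K * (dg a * dg (fun k => 1 / a k)) := by
          rw [e1, Matrix.mul_one]
      _ = (Kᴴ * dg y * K * dg a) * dg (fun k => 1 / a k) := by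
          simp only [Matrix.mul_assoc]
      _ = _ := by rw [hQa, Matrix.one_mul]
  -- the coefficients
  set R : Matrix n n ℂ := Vᴴ * dg (fun i => √(x i)) with hR
  have hKR : K * R = Uᴴ := by
    have e : K * R = Uᴴ * (dg (fun i => √(x i)⁻¹) * (V * Vᴴ) * dg (fun i => √(x i))) := by
      rw [hK, hR]
      simp only [Matrix.mul_assoc]
    rw [e, hV.right, Matrix.mul_one, hsq, Matrix.mul_one]
  have hRR : Rᴴ * R = dg x := by
    have e : Rᴴ * R = dg (fun i => √(x i)) * (V * Vᴴ) * dg (fun i => √(x i)) := by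
      rw [hR]
      simp only [conjTranspose_mul, dg_conj, conjTranspose_conjTranspose, Matrix.mul_assoc]
    rw [e, hV.right, Matrix.mul_one, dg_mul]
    congr 1
    funext i
    exact Real.mul_self_sqrt (hx i).le
  have hLR : (dg (fun i => √(x i)⁻¹) * V) * R = 1 := by
    have e : (dg (fun i => √(x i)⁻¹) * V) * R =
        dg (fun i => √(x i)⁻¹) * (V * Vᴴ) * dg (fun i => √(x i)) := by
      rw [hR]
      simp only [Matrix.mul_assoc]
    rw [e, hV.right, Matrix.mul_one, hsq]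
  have hdim : Module.finrank ℂ S ≤ Fintype.card {k // 1 ≤ a k} := by
    set φ : S →ₗ[ℂ] ({k // 1 ≤ a k} → ℂ) :=
      (LinearMap.funLeft ℂ ℂ (Subtype.val : {k // 1 ≤ a k} → n)) ∘ₗ (Matrix.mulVecLin R) ∘ₗ
        S.subtype with hφ
    have hinj : Function.Injective φ := by
      rw [injective_iff_map_eq_zero]
      intro v hv
      have hc : ∀ k, 1 ≤ a k → (R *ᵥ (v : n → ℂ)) k = 0 := by
        intro k hk
        have := congrFun hv ⟨k, hk⟩
        simpa [hφ, LinearMap.funLeft_apply] using this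
      have h1 := hS v v.2
      have h2 : ∑ j, y j * ‖∑ i, star (U i j) * (v : n → ℂ) i‖ ^ 2 =
          ∑ k, 1 / a k * ‖(R *ᵥ (v : n → ℂ)) k‖ ^ 2 := by
        have e1 := quadv K y (R *ᵥ (v : n → ℂ))
        have e2 := quadv 1 (fun k => 1 / a k) (R *ᵥ (v : n → ℂ))
        rw [hQ, Matrix.mulVec_mulVec, hKR] at e1
        rw [conjTranspose_one, Matrix.one_mul, Matrix.mul_one, ← e1, Matrix.one_mulVec] at e2
        have e3 : (∑ k, 1 / a k * ‖(R *ᵥ (v : n → ℂ)) k‖ ^ 2) =
            ∑ j, y j * ‖(Uᴴ *ᵥ (v : n → ℂ)) j‖ ^ 2 := by exact_mod_cast e2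
        rw [e3]
        refine Finset.sum_congr rfl fun j _ => ?_
        simp [Matrix.mulVec, dotProduct, conjTranspose_apply]
      have h3 : ∑ i, x i * ‖(v : n → ℂ) i‖ ^ 2 = ∑ k, ‖(R *ᵥ (v : n → ℂ)) k‖ ^ 2 := by
        have e1 := quadv 1 x (v : n → ℂ)
        have e2 := quadv R (fun _ => 1) (v : n → ℂ)
        rw [dg_one (fun _ => rfl), Matrix.mul_one, hRR] at e2
        rw [conjTranspose_one, Matrix.one_mul, Matrix.mul_one, ← e2, Matrix.one_mulVec] at e1
        have e3 : (∑ k, x k * ‖(v : n → ℂ) k‖ ^ 2) =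
            ∑ k, (1 : ℝ) * ‖(R *ᵥ (v : n → ℂ)) k‖ ^ 2 := by exact_mod_cast e1
        rw [e3]
        simp
      rw [h2, h3] at h1
      have h4 : ∀ k, 0 ≤ (1 / a k - 1) * ‖(R *ᵥ (v : n → ℂ)) k‖ ^ 2 := by
        intro k
        rcases le_or_gt 1 (a k) with h5 | h5
        · rw [hc k h5]
          simp
        · have h6 : 1 ≤ 1 / a k := by
            rw [le_div_iff₀ (ha k)]
            linarith
          exact mul_nonneg (by linarith) (by positivity)
      have h7 : ∑ k, (1 / a k - 1) * ‖(R *ᵥ (v : n → ℂ)) k‖ ^ 2 = 0 := by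
        apply le_antisymm _ (Finset.sum_nonneg fun k _ => h4 k)
        have e : ∑ k, (1 / a k - 1) * ‖(R *ᵥ (v : n → ℂ)) k‖ ^ 2 =
            (∑ k, 1 / a k * ‖(R *ᵥ (v : n → ℂ)) k‖ ^ 2) -
              ∑ k, ‖(R *ᵥ (v : n → ℂ)) k‖ ^ 2 := by
          rw [← Finset.sum_sub_distrib]
          refine Finset.sum_congr rfl fun k _ => ?_
          ring
        rw [e]
        linarith
      have h8 := (Finset.sum_eq_zero_iff_of_nonneg (fun k _ => h4 k)).mp h7
      have h9 : R *ᵥ (v : n → ℂ) = 0 := by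
        funext k
        rcases le_or_gt 1 (a k) with h5 | h5
        · exact hc k h5
        · have h6 : 1 < 1 / a k := by
            rw [lt_div_iff₀ (ha k)]
            linarith
          have h10 := h8 k (Finset.mem_univ k)
          rcases mul_eq_zero.mp h10 with h11 | h11
          · linarith
          · simpa using h11
      have h12 : (v : n → ℂ) = 0 := by
        calc (v : n → ℂ) = ((dg (fun i => √(x i)⁻¹) * V) * R) *ᵥ (v : n → ℂ) := by
              rw [hLR, Matrix.one_mulVec]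
          _ = (dg (fun i => √(x i)⁻¹) * V) *ᵥ (R *ᵥ (v : n → ℂ)) := by
              rw [Matrix.mulVec_mulVec]
          _ = 0 := by rw [h9, Matrix.mulVec_zero]
      exact Subtype.ext h12
    have h := LinearMap.finrank_le_finrank_of_injective hinj
    rwa [Module.finrank_fintype_fun_eq_card] at h
  -- the spectral sum
  have hs0 : 0 < s := by linarith
  have hN : Dg (NN U (fun i => s * x i) y) V (fun k => s * a k) := by
    refine ⟨hV.left, hV.right, ?_⟩
    have e1 : dg (fun i => √(s * x i)) = ((√s : ℝ) : ℂ) • dg (fun i => √(x i)) := by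
      unfold dg
      rw [← diagonal_smul]
      congr 1
      funext i
      simp [Real.sqrt_mul hs0.le]
    have e2 : dg (fun k => s * a k) = ((s : ℝ) : ℂ) • dg a := by
      unfold dg
      rw [← diagonal_smul]
      congr 1
      funext i
      simp
    have e3 : ((√s : ℝ) : ℂ) * ((√s : ℝ) : ℂ) = ((s : ℝ) : ℂ) := by
      exact_mod_cast Real.mul_self_sqrt hs0.le
    have e4 := hV.eq
    unfold NN at e4 ⊢
    rw [e1, e2]
    simp only [Matrix.smul_mul, Matrix.mul_smul, smul_smul]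
    rw [e3, e4]
  have hsum : (Module.finrank ℂ S : ℝ) * ff s ≤ ∑ k, ff (s * a k) := by
    have h1 : (Module.finrank ℂ S : ℝ) * ff s ≤ (Fintype.card {k // 1 ≤ a k} : ℝ) * ff s := by
      apply mul_le_mul_of_nonneg_right _ (ff_nonneg s)
      exact_mod_cast hdim
    have h2 : (Fintype.card {k // 1 ≤ a k} : ℝ) * ff s =
        ∑ k, if 1 ≤ a k then ff s else 0 := by
      rw [Fintype.card_subtype, Finset.sum_ite]
      simp
    rw [h2] at h1
    refine h1.trans (Finset.sum_le_sum fun k _ => ?_)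
    split_ifs with h3
    · apply ff_mono
      nlinarith
    · exact ff_nonneg _
  rw [← trf_eq hN] at hsum
  exact hsum.trans (matrix_ineq U hU (fun i => s * x i) y (fun i => mul_pos hs0 (hx i)) hy)

/-- The counting theorem for nonnegative `x`. -/
theorem matrix_count (x y : n → ℝ)
    (hx : ∀ i, 0 ≤ x i) (hy : ∀ j, 0 < y j) (U : Matrix n n ℂ) (hU : U.conjTranspose * U = 1)
    (S : Submodule ℂ (n → ℂ))
    (hS : ∀ v ∈ S, ∑ j, y j * ‖∑ i, star (U i j) * v i‖ ^ 2 ≤ ∑ i, x i * ‖v i‖ ^ 2)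
    (s : ℝ) (hs : 1 ≤ s) :
    (Module.finrank ℂ S : ℝ) * ff s ≤ ∑ i, ∑ j, ‖U i j‖ ^ 2 * ff (s * x i / y j) := by
  have h1 : ∀ e : ℝ, 0 < e → (Module.finrank ℂ S : ℝ) * ff s ≤
      ∑ i, ∑ j, ‖U i j‖ ^ 2 * ff (s * (x i + e) / y j) := by
    intro e he
    apply count_pos U hU (fun i => x i + e) y (fun i => by have := hx i; linarith) hy S _ s hs
    intro v hv
    refine (hS v hv).trans (Finset.sum_le_sum fun i _ => ?_)
    exact mul_le_mul_of_nonneg_right (by linarith) (by positivity)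
  have hcont : Continuous fun e : ℝ => ∑ i, ∑ j, ‖U i j‖ ^ 2 * ff (s * (x i + e) / y j) := by
    refine continuous_finsetSum _ fun i _ => continuous_finsetSum _ fun j _ => ?_
    refine continuous_const.mul (ff_continuous.comp ?_)
    exact (continuous_const.mul (continuous_const.add continuous_id)).div_const _
  have hlim : Filter.Tendsto (fun e : ℝ => ∑ i, ∑ j, ‖U i j‖ ^ 2 * ff (s * (x i + e) / y j))
      (nhdsWithin 0 (Set.Ioi 0))
      (nhds (∑ i, ∑ j, ‖U i j‖ ^ 2 * ff (s * (x i + 0) / y j))) :=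
    (hcont.tendsto 0).mono_left nhdsWithin_le_nhds
  have h2 := ge_of_tendsto hlim (by
    filter_upwards [self_mem_nhdsWithin] with e he
    exact h1 e he)
  simpa using h2

end CLRT
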