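import Pool.Agent.Lib.MP_efa090_mp.RS52
import Pool.Agent.Lib.MP_efa090_mp.Grid52
import Pool.Agent.Lib.MP_efa090_mp.TMat

/-!
# The CLR bound: common definitions of the analytic part
-/

set_option autoImplicit false

namespace CLRT

/-- The point of the cube `[0, l)^d` that belongs to a point of the torus grid, spacing
`1 / (m + 1)`. -/
noncomputable def pt {d : ℕ} (l m : ℕ) (x : Fin d → ZMod (l * (m + 1))) : Fin d → ℝ :=
  fun i => ((x i).val : ℝ) / (m + 1)

/-- The partial derivative. -/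
noncomputable def pd {d : ℕ} (j : Fin d) (u : (Fin d → ℝ) → ℝ) (x : Fin d → ℝ) : ℝ :=
  fderiv ℝ u x (Pi.single j 1)

/-- The constant `(2 π)^(-d) ∫ ff (1 / |ξ|²) dξ`: the classical constant times `16 / (d (d² - 4))`. -/
noncomputable def Cd (d : ℕ) : ℝ :=
  (4 * Real.pi) ^ (-(d : ℝ) / 2) / Real.Gamma (1 + (d : ℝ) / 2) * (16 / (d * ((d : ℝ) ^ 2 - 4)))

end CLRT
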