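import Pool.Agent.Lib.MP_efa090_mp.CDefs

/-!
# The CLR bound: row G1, approximation of `W` in `L^(d/2)`
-/

set_option autoImplicit false

open Filter MeasureTheory Topology

namespace CLRT

private theorem G1_eq {d : ℕ} (p : ℝ) (hp : 0 < p) {f : (Fin d → ℝ) → ℝ} (hf : MemLp f (ENNReal.ofReal p) volume) :
    (eLpNorm f (ENNReal.ofReal p) volume).toReal = (∫ x, ‖f x‖ ^ p) ^ p⁻¹ := by
  rw [MemLp.eLpNorm_eq_integral_rpow_norm (by simpa using hp) ENNReal.ofReal_ne_top hf,
    ENNReal.toReal_ofReal hp.le, ENNReal.toReal_ofReal]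
  exact Real.rpow_nonneg (integral_nonneg fun x => Real.rpow_nonneg (norm_nonneg _) _) _

private theorem G1_int {d : ℕ} (p : ℝ) (hp : 0 < p) {f : (Fin d → ℝ) → ℝ} (hf : MemLp f (ENNReal.ofReal p) volume)
    (hf0 : ∀ x, 0 ≤ f x) :
    ∫ x, f x ^ p = (eLpNorm f (ENNReal.ofReal p) volume).toReal ^ p := by
  rw [G1_eq p hp hf, ← Real.rpow_mul, inv_mul_cancel₀ hp.ne', Real.rpow_one]
  · refine integral_congr_ae (Eventually.of_forall fun x => ?_)
    simp only [Real.norm_of_nonneg (hf0 x)]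
  · exact integral_nonneg fun x => Real.rpow_nonneg (norm_nonneg _) _

/-- Row G1. Approximation of `W` in `L^(d/2)` by continuous functions with compact support
(`MeasureTheory.MemLp.exists_hasCompactSupport_eLpNorm_sub_le` with `p = ENNReal.ofReal (d/2)`,
`1 ≤ p < ∞`; take the positive part, `|W - V⁺| ≤ |W - V|` as `W ≥ 0`). First limit: continuity of the
`L^p` norm (triangle inequality). Second limit: Hölder, or: `φ` is bounded with compact support, so
`|∫ (V k - W) φ| ≤ C ∫_{supp φ} |V k - W| ≤ C' ‖V k - W‖_p`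
(`MeasureTheory.eLpNorm_le_eLpNorm_mul_rpow_measure_univ` on the restricted measure). -/
theorem G1_approx {d : ℕ} (hd : 3 ≤ d) (W : (Fin d → ℝ) → ℝ) (hW : Measurable W)
    (hW0 : ∀ x, 0 ≤ W x) (hWi : Integrable (fun x => W x ^ ((d : ℝ) / 2))) :
    ∃ V : ℕ → (Fin d → ℝ) → ℝ,
      (∀ k, Continuous (V k) ∧ (∀ x, 0 ≤ V k x) ∧ HasCompactSupport (V k)) ∧
      Tendsto (fun k => ∫ x, V k x ^ ((d : ℝ) / 2)) atTop (𝓝 (∫ x, W x ^ ((d : ℝ) / 2))) ∧
      ∀ φ : (Fin d → ℝ) → ℝ, Continuous φ → HasCompactSupport φ →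
        Tendsto (fun k => ∫ x, V k x * φ x) atTop (𝓝 (∫ x, W x * φ x)) := by
  have hd3 : (3 : ℝ) ≤ d := by exact_mod_cast hd
  obtain ⟨p, hp⟩ : ∃ p : ℝ, p = (d : ℝ) / 2 := ⟨_, rfl⟩
  have hp1 : 1 < p := by rw [hp]; linarith
  have hp0 : 0 < p := by linarith
  rw [← hp] at hWi ⊢
  clear hp
  obtain ⟨P, hP⟩ : ∃ P : ENNReal, P = ENNReal.ofReal p := ⟨_, rfl⟩
  have hP0 : P ≠ 0 := by rw [hP]; simpa using hp0
  have hPt : P ≠ ⊤ := by rw [hP]; exact ENNReal.ofReal_ne_top
  have hP1 : 1 ≤ P := by rw [hP]; exact ENNReal.one_le_ofReal.2 hp1.le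
  have hPr : P.toReal = p := by rw [hP]; exact ENNReal.toReal_ofReal hp0.le
  have hWm : MemLp W P volume := by
    rw [← integrable_norm_rpow_iff hW.aestronglyMeasurable hP0 hPt, hPr]
    refine hWi.congr (Eventually.of_forall fun x => ?_)
    simp only [Real.norm_of_nonneg (hW0 x)]
  have hε : ∀ k : ℕ, ENNReal.ofReal (1 / ((k : ℝ) + 1)) ≠ 0 := by
    intro k
    have : (0 : ℝ) < 1 / ((k : ℝ) + 1) := by positivity
    simpa using this
  choose g hgc hge hgC hgm using fun k : ℕ => hWm.exists_hasCompactSupport_eLpNorm_sub_le hPt (hε k)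
  obtain ⟨V, hV⟩ : ∃ V : ℕ → (Fin d → ℝ) → ℝ, V = fun k x => max (g k x) 0 := ⟨_, rfl⟩
  have hVc : ∀ k, Continuous (V k) := by
    intro k
    rw [hV]
    exact (hgC k).max continuous_const
  have hV0 : ∀ k x, 0 ≤ V k x := by
    intro k x
    rw [hV]
    exact le_max_right _ _
  have hVs : ∀ k, HasCompactSupport (V k) := by
    intro k
    refine (hgc k).mono ?_
    intro x hx
    rw [Function.mem_support] at hx ⊢
    intro h
    apply hx
    rw [hV]
    simp only [h, max_self]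
  have hVm : ∀ k, MemLp (V k) P volume := fun k => (hVc k).memLp_of_hasCompactSupport (hVs k)
  have hle : ∀ k, eLpNorm (V k - W) P volume ≤ ENNReal.ofReal (1 / ((k : ℝ) + 1)) := by
    intro k
    rw [eLpNorm_sub_comm]
    refine (eLpNorm_mono fun x => ?_).trans (hge k)
    rw [Pi.sub_apply, Pi.sub_apply, Real.norm_eq_abs, Real.norm_eq_abs, hV]
    have h1 : W x - max (g k x) 0 = max (W x) 0 - max (g k x) 0 := by rw [max_eq_left (hW0 x)]
    simp only [h1]
    exact abs_max_sub_max_le_abs _ _ _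
  have hsm : ∀ k, MemLp (V k - W) P volume := fun k => (hVm k).sub hWm
  have hler : ∀ k, (eLpNorm (V k - W) P volume).toReal ≤ 1 / ((k : ℝ) + 1) := by
    intro k
    have := ENNReal.toReal_mono ENNReal.ofReal_ne_top (hle k)
    rwa [ENNReal.toReal_ofReal (by positivity)] at this
  have hlim0 : Tendsto (fun k : ℕ => 1 / ((k : ℝ) + 1)) atTop (𝓝 0) := tendsto_one_div_add_atTop_nhds_zero_nat
  refine ⟨V, fun k => ⟨hVc k, hV0 k, hVs k⟩, ?_, ?_⟩
  · have h1 : Tendsto (fun k => (eLpNorm (V k) P volume).toReal) atTop (𝓝 (eLpNorm W P volume).toReal) := by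
      rw [tendsto_iff_dist_tendsto_zero]
      refine squeeze_zero (fun _ => dist_nonneg) (fun k => ?_) hlim0
      rw [Real.dist_eq, abs_le]
      have e1 : eLpNorm (V k) P volume ≤ eLpNorm W P volume + eLpNorm (V k - W) P volume := by
        have := eLpNorm_add_le (μ := volume) hWm.1 (hsm k).1 hP1
        rwa [add_sub_cancel] at this
      have e2 : eLpNorm W P volume ≤ eLpNorm (V k) P volume + eLpNorm (V k - W) P volume := by
        have := eLpNorm_sub_le (μ := volume) (hVm k).1 (hsm k).1 hP1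
        rwa [sub_sub_cancel] at this
      have f1 := ENNReal.toReal_mono (ENNReal.add_ne_top.2 ⟨hWm.2.ne, (hsm k).2.ne⟩) e1
      have f2 := ENNReal.toReal_mono (ENNReal.add_ne_top.2 ⟨(hVm k).2.ne, (hsm k).2.ne⟩) e2
      rw [ENNReal.toReal_add hWm.2.ne (hsm k).2.ne] at f1
      rw [ENNReal.toReal_add (hVm k).2.ne (hsm k).2.ne] at f2
      have f3 := hler k
      constructor <;> linarith
    have h2 := h1.rpow_const (p := p) (Or.inr hp0.le)
    rw [G1_int p hp0 (by rw [← hP]; exact hWm) hW0, ← hP]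
    refine h2.congr fun k => ?_
    rw [G1_int p hp0 (by rw [← hP]; exact hVm k) (hV0 k), ← hP]
  · intro φ hφ hφc
    have hpq := Real.HolderConjugate.conjExponent hp1
    obtain ⟨q, hq⟩ : ∃ q, q = Real.conjExponent p := ⟨_, rfl⟩
    rw [← hq] at hpq
    have hφm : ∀ r, MemLp φ r volume := fun r => hφ.memLp_of_hasCompactSupport hφc
    have hH := hpq.ennrealOfReal
    rw [← hP] at hH
    have hWφ : Integrable (fun x => W x * φ x) := hWm.integrable_mul (hφm (ENNReal.ofReal q))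
    have hVφ : ∀ k, Integrable (fun x => V k x * φ x) := fun k => (hVm k).integrable_mul (hφm (ENNReal.ofReal q))
    rw [tendsto_iff_dist_tendsto_zero]
    have hlim1 : Tendsto (fun k : ℕ => 1 / ((k : ℝ) + 1) * (∫ x, ‖φ x‖ ^ q) ^ (1 / q)) atTop (𝓝 0) := by
      have := hlim0.mul_const ((∫ x, ‖φ x‖ ^ q) ^ (1 / q))
      rwa [zero_mul] at this
    refine squeeze_zero (fun _ => dist_nonneg) (fun k => ?_) hlim1
    rw [Real.dist_eq, ← integral_sub (hVφ k) hWφ]
    have e1 : |∫ x, (V k x * φ x - W x * φ x)| ≤ ∫ x, ‖(V k - W) x‖ * ‖φ x‖ := by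
      refine (abs_integral_le_integral_abs).trans (le_of_eq ?_)
      refine integral_congr_ae (Eventually.of_forall fun x => ?_)
      simp only [Pi.sub_apply]
      rw [← norm_mul, ← sub_mul, Real.norm_eq_abs]
    refine e1.trans ?_
    have e2 := integral_mul_norm_le_Lp_mul_Lq (μ := volume) hpq (f := V k - W) (g := φ)
      (by rw [← hP]; exact hsm k) (hφm _)
    refine e2.trans (mul_le_mul_of_nonneg_right ?_ ?_)
    · have e3 := G1_eq p hp0 (f := V k - W) (by rw [← hP]; exact hsm k)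
      rw [← hP] at e3
      rw [one_div, ← e3]
      exact hler k
    · exact Real.rpow_nonneg (integral_nonneg fun x => Real.rpow_nonneg (norm_nonneg _) _) _

end CLRT
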