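import Pool.Agent.Lib.MP_efa090_mp.C_A5
import Pool.Agent.Lib.MP_efa090_mp.C_G1

/-!
# Row G2: the strict inequality survives a small change of the potential
-/

set_option autoImplicit false

open Filter MeasureTheory Topology

namespace CLRT

/-- Expansion of a weighted square. -/
theorem G2_expand {α : Type*} [MeasurableSpace α] {μ : Measure α} {N : ℕ} (w : α → ℝ)
    (f : Fin N → α → ℝ) (c : Fin N → ℝ)
    (hint : ∀ i j, Integrable (fun x => w x * (f i x * f j x)) μ) :
    ∫ x, w x * (∑ n, c n * f n x) ^ 2 ∂μ = ∑ i, ∑ j, c i * c j * ∫ x, w x * (f i x * f j x) ∂μ := by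
  have h1 : ∀ x, w x * (∑ n, c n * f n x) ^ 2 =
      ∑ i, ∑ j, c i * c j * (w x * (f i x * f j x)) := by
    intro x
    rw [sq, Finset.sum_mul_sum, Finset.mul_sum]
    refine Finset.sum_congr rfl fun i _ => ?_
    rw [Finset.mul_sum]
    refine Finset.sum_congr rfl fun j _ => ?_
    ring
  calc ∫ x, w x * (∑ n, c n * f n x) ^ 2 ∂μ
      = ∫ x, ∑ i, ∑ j, c i * c j * (w x * (f i x * f j x)) ∂μ := by
        congr 1
        funext x
        exact h1 x
    _ = ∑ i, ∫ x, ∑ j, c i * c j * (w x * (f i x * f j x)) ∂μ :=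
        integral_finsetSum _ fun i _ => integrable_finsetSum _ fun j _ => (hint i j).const_mul _
    _ = ∑ i, ∑ j, c i * c j * ∫ x, w x * (f i x * f j x) ∂μ := by
        refine Finset.sum_congr rfl fun i _ => ?_
        rw [integral_finsetSum _ fun j _ => (hint i j).const_mul _]
        refine Finset.sum_congr rfl fun j _ => ?_
        rw [integral_const_mul]

/-- Expansion without a weight. -/
theorem G2_expand1 {α : Type*} [MeasurableSpace α] {μ : Measure α} {N : ℕ}
    (f : Fin N → α → ℝ) (c : Fin N → ℝ)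
    (hint : ∀ i j, Integrable (fun x => f i x * f j x) μ) :
    ∫ x, (∑ n, c n * f n x) ^ 2 ∂μ = ∑ i, ∑ j, c i * c j * ∫ x, f i x * f j x ∂μ := by
  have h := G2_expand (μ := μ) (fun _ => (1 : ℝ)) f c (fun i j => by simpa using hint i j)
  simpa using h

/-- `W φ` is integrable for `φ` continuous with compact support. -/
theorem G2_int {d : ℕ} (hd : 3 ≤ d) (W : (Fin d → ℝ) → ℝ) (hW : Measurable W)
    (hW0 : ∀ x, 0 ≤ W x) (hWi : Integrable (fun x => W x ^ ((d : ℝ) / 2)))
    (φ : (Fin d → ℝ) → ℝ) (hφ : Continuous φ) (hφc : HasCompactSupport φ) :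
    Integrable (fun x => W x * φ x) := by
  obtain ⟨C, hC⟩ := hφ.bounded_above_of_compact_support hφc
  have hd2 : (1 : ℝ) ≤ (d : ℝ) / 2 := by
    have : (3 : ℝ) ≤ d := by exact_mod_cast hd
    linarith
  have hdom : Integrable (fun x => |φ x| + C * W x ^ ((d : ℝ) / 2)) :=
    (hφ.integrable_of_hasCompactSupport hφc).abs.add (hWi.const_mul C)
  refine hdom.mono' (hW.mul hφ.measurable).aestronglyMeasurable ?_
  refine Filter.Eventually.of_forall fun x => ?_
  have h1 : W x ≤ 1 + W x ^ ((d : ℝ) / 2) := by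
    rcases le_total (W x) 1 with h | h
    · have := Real.rpow_nonneg (hW0 x) ((d : ℝ) / 2)
      linarith
    · have h2 : W x ^ (1 : ℝ) ≤ W x ^ ((d : ℝ) / 2) := Real.rpow_le_rpow_of_exponent_le h hd2
      rw [Real.rpow_one] at h2
      linarith
  have h3 : |φ x| ≤ C := by simpa [Real.norm_eq_abs] using hC x
  have h4 : 0 ≤ W x ^ ((d : ℝ) / 2) := Real.rpow_nonneg (hW0 x) _
  rw [Real.norm_eq_abs, abs_mul, abs_of_nonneg (hW0 x)]
  calc W x * |φ x| ≤ (1 + W x ^ ((d : ℝ) / 2)) * |φ x| :=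
        mul_le_mul_of_nonneg_right h1 (abs_nonneg _)
    _ = |φ x| + W x ^ ((d : ℝ) / 2) * |φ x| := by ring
    _ ≤ |φ x| + W x ^ ((d : ℝ) / 2) * C := by
        have := mul_le_mul_of_nonneg_left h3 h4
        linarith
    _ = |φ x| + C * W x ^ ((d : ℝ) / 2) := by ring

/-- Row G2. The strict inequality survives a small change of `W` and the term `ε ∫ u²`. -/
theorem reduce {d N : ℕ} (hd : 3 ≤ d) (b : Fin N → (Fin d → ℝ) → ℝ)
    (hb : ∀ n, ContDiff ℝ 1 (b n)) (hbc : ∀ n, HasCompactSupport (b n))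
    (W : (Fin d → ℝ) → ℝ) (hW : Measurable W) (hW0 : ∀ x, 0 ≤ W x)
    (hWi : Integrable (fun x => W x ^ ((d : ℝ) / 2)))
    (h : ∀ c : Fin N → ℝ, c ≠ 0 →
      ∑ j, ∫ x, (∑ n, c n * pd j (b n) x) ^ 2 < ∫ x, W x * (∑ n, c n * b n x) ^ 2)
    (η : ℝ) (hη : 0 < η) :
    ∃ (V : (Fin d → ℝ) → ℝ) (ε : ℝ), Continuous V ∧ (∀ x, 0 ≤ V x) ∧ HasCompactSupport V ∧ 0 < ε ∧
      ∫ x, V x ^ ((d : ℝ) / 2) ≤ (∫ x, W x ^ ((d : ℝ) / 2)) + η ∧
      ∀ c : Fin N → ℝ, c ≠ 0 →
        ε * (∫ x, (∑ n, c n * b n x) ^ 2) + ∑ j, ∫ x, (∑ n, c n * pd j (b n) x) ^ 2 <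
          ∫ x, V x * (∑ n, c n * b n x) ^ 2 := by
  obtain ⟨V, hV, hVlim, hVφ⟩ := G1_approx hd W hW hW0 hWi
  -- the functions
  have hbC : ∀ n, Continuous (b n) := fun n => (hb n).continuous
  have hbb : ∀ i j, Continuous (fun x => b i x * b j x) := fun i j => (hbC i).mul (hbC j)
  have hbbc : ∀ i j, HasCompactSupport (fun x => b i x * b j x) := fun i j => (hbc i).mul_right
  have hpC : ∀ l n, Continuous (fun x => pd l (b n) x) := by
    intro l n
    exact ((hb n).continuous_fderiv one_ne_zero).clm_apply continuous_const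
  have hpc : ∀ l n, HasCompactSupport (fun x => pd l (b n) x) := by
    intro l n
    exact (hbc n).fderiv_apply ℝ _
  have i1 : ∀ i j, Integrable (fun x => b i x * b j x) := fun i j =>
    (hbb i j).integrable_of_hasCompactSupport (hbbc i j)
  have i2 : ∀ l i j, Integrable (fun x => pd l (b i) x * pd l (b j) x) := fun l i j =>
    ((hpC l i).mul (hpC l j)).integrable_of_hasCompactSupport (hpc l i).mul_right
  have i3 : ∀ k i j, Integrable (fun x => V k x * (b i x * b j x)) := fun k i j =>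
    ((hV k).1.mul (hbb i j)).integrable_of_hasCompactSupport (hV k).2.2.mul_right
  have i4 : ∀ i j, Integrable (fun x => W x * (b i x * b j x)) := fun i j =>
    G2_int hd W hW hW0 hWi _ (hbb i j) (hbbc i j)
  -- the limit form
  have hpos := A5_pos
    (fun k i j => (∫ x, V k x * (b i x * b j x)) - ((k : ℝ) + 1)⁻¹ * (∫ x, b i x * b j x) -
      ∑ l, ∫ x, pd l (b i) x * pd l (b j) x)
    (fun i j => (∫ x, W x * (b i x * b j x)) - ∑ l, ∫ x, pd l (b i) x * pd l (b j) x)
    (by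
      intro i j
      have t1 := hVφ _ (hbb i j) (hbbc i j)
      have t2 : Tendsto (fun k : ℕ => ((k : ℝ) + 1)⁻¹ * ∫ x, b i x * b j x) atTop (𝓝 0) := by
        have t3 : Tendsto (fun k : ℕ => ((k : ℝ) + 1)⁻¹) atTop (𝓝 0) := by
          have := tendsto_one_div_add_atTop_nhds_zero_nat (𝕜 := ℝ)
          simpa [one_div] using this
        simpa using t3.mul_const (∫ x, b i x * b j x)
      have t4 := (t1.sub t2).sub_const (∑ l, ∫ x, pd l (b i) x * pd l (b j) x)
      rw [sub_zero] at t4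
      exact t4)
    (by
      intro c hc
      have h1 := h c hc
      rw [G2_expand W b c i4] at h1
      have h2 : ∑ j, ∫ x, (∑ n, c n * pd j (b n) x) ^ 2 =
          ∑ i, ∑ j, c i * c j * ∑ l, ∫ x, pd l (b i) x * pd l (b j) x := by
        calc ∑ l, ∫ x, (∑ n, c n * pd l (b n) x) ^ 2
            = ∑ l, ∑ i, ∑ j, c i * c j * ∫ x, pd l (b i) x * pd l (b j) x :=
              Finset.sum_congr rfl fun l _ => G2_expand1 (fun n x => pd l (b n) x) c (i2 l)
          _ = ∑ i, ∑ l, ∑ j, c i * c j * ∫ x, pd l (b i) x * pd l (b j) x := Finset.sum_comm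
          _ = ∑ i, ∑ j, c i * c j * ∑ l, ∫ x, pd l (b i) x * pd l (b j) x := by
              refine Finset.sum_congr rfl fun i _ => ?_
              rw [Finset.sum_comm]
              refine Finset.sum_congr rfl fun j _ => ?_
              rw [Finset.mul_sum]
      rw [h2] at h1
      have h3 : ∑ i, ∑ j, c i * c j * ((∫ x, W x * (b i x * b j x)) -
          ∑ l, ∫ x, pd l (b i) x * pd l (b j) x) =
          (∑ i, ∑ j, c i * c j * ∫ x, W x * (b i x * b j x)) -
            ∑ i, ∑ j, c i * c j * ∑ l, ∫ x, pd l (b i) x * pd l (b j) x := by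
        rw [← Finset.sum_sub_distrib]
        refine Finset.sum_congr rfl fun i _ => ?_
        rw [← Finset.sum_sub_distrib]
        refine Finset.sum_congr rfl fun j _ => ?_
        ring
      rw [h3]
      linarith)
  have hle : ∀ᶠ k in atTop, ∫ x, V k x ^ ((d : ℝ) / 2) ≤ (∫ x, W x ^ ((d : ℝ) / 2)) + η := by
    have hlt : ∫ x, W x ^ ((d : ℝ) / 2) < (∫ x, W x ^ ((d : ℝ) / 2)) + η := by linarith
    exact hVlim.eventually (eventually_le_nhds hlt)
  obtain ⟨k, hk1, hk2⟩ := (hpos.and hle).exists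
  refine ⟨V k, ((k : ℝ) + 1)⁻¹, (hV k).1, (hV k).2.1, (hV k).2.2, by positivity, hk2, ?_⟩
  intro c hc
  have h1 := hk1 c hc
  have h2 : ∑ j, ∫ x, (∑ n, c n * pd j (b n) x) ^ 2 =
      ∑ i, ∑ j, c i * c j * ∑ l, ∫ x, pd l (b i) x * pd l (b j) x := by
    calc ∑ l, ∫ x, (∑ n, c n * pd l (b n) x) ^ 2
        = ∑ l, ∑ i, ∑ j, c i * c j * ∫ x, pd l (b i) x * pd l (b j) x :=
          Finset.sum_congr rfl fun l _ => G2_expand1 (fun n x => pd l (b n) x) c (i2 l)
      _ = ∑ i, ∑ l, ∑ j, c i * c j * ∫ x, pd l (b i) x * pd l (b j) x := Finset.sum_comm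
      _ = ∑ i, ∑ j, c i * c j * ∑ l, ∫ x, pd l (b i) x * pd l (b j) x := by
          refine Finset.sum_congr rfl fun i _ => ?_
          rw [Finset.sum_comm]
          refine Finset.sum_congr rfl fun j _ => ?_
          rw [Finset.mul_sum]
  rw [h2, G2_expand (V k) b c (i3 k), G2_expand1 b c i1]
  have h3 : ∑ i, ∑ j, c i * c j * ((∫ x, V k x * (b i x * b j x)) -
      ((k : ℝ) + 1)⁻¹ * (∫ x, b i x * b j x) - ∑ l, ∫ x, pd l (b i) x * pd l (b j) x) =
      (∑ i, ∑ j, c i * c j * ∫ x, V k x * (b i x * b j x)) -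
        ((k : ℝ) + 1)⁻¹ * (∑ i, ∑ j, c i * c j * ∫ x, b i x * b j x) -
        ∑ i, ∑ j, c i * c j * ∑ l, ∫ x, pd l (b i) x * pd l (b j) x := by
    rw [Finset.mul_sum, ← Finset.sum_sub_distrib, ← Finset.sum_sub_distrib]
    refine Finset.sum_congr rfl fun i _ => ?_
    rw [Finset.mul_sum, ← Finset.sum_sub_distrib, ← Finset.sum_sub_distrib]
    refine Finset.sum_congr rfl fun j _ => ?_
    ring
  rw [h3] at h1
  linarith

end CLRT
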