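import Pool.Agent.Lib.MP_efa090_mp.C_F
import Pool.Agent.Lib.MP_efa090_mp.C_G2

set_option autoImplicit false

open Filter MeasureTheory Topology

namespace CLRT

/-- The constant is nonnegative. -/
theorem G3_Cd_nonneg {d : ℕ} (hd : 3 ≤ d) : 0 ≤ Cd d := by
  unfold Cd
  have h3 : (3 : ℝ) ≤ d := by exact_mod_cast hd
  have hG : 0 < Real.Gamma (1 + (d : ℝ) / 2) := Real.Gamma_pos_of_pos (by positivity)
  have h4 : (0 : ℝ) < (d : ℝ) ^ 2 - 4 := by nlinarith
  have h5 : (0 : ℝ) < (4 * Real.pi) ^ (-(d : ℝ) / 2) := Real.rpow_pos_of_pos (by positivity) _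
  positivity

/-- The dual norm in coordinates. -/
theorem G3_norm {d : ℕ} (L : EuclideanSpace ℝ (Fin d) →L[ℝ] ℝ) :
    ‖L‖ ^ 2 = ∑ j, (L (WithLp.toLp 2 (Pi.single j 1 : Fin d → ℝ))) ^ 2 := by
  have h1 : ‖L‖ = ‖(InnerProductSpace.toDual ℝ (EuclideanSpace ℝ (Fin d))).symm L‖ := by simp
  rw [h1, EuclideanSpace.real_norm_sq_eq]
  refine Finset.sum_congr rfl fun j _ => ?_
  congr 1
  have h2 : L (WithLp.toLp 2 (Pi.single j 1 : Fin d → ℝ)) =
      inner ℝ ((InnerProductSpace.toDual ℝ (EuclideanSpace ℝ (Fin d))).symm L)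
        (WithLp.toLp 2 (Pi.single j 1 : Fin d → ℝ)) := by
    rw [InnerProductSpace.toDual_symm_apply]
  rw [h2, EuclideanSpace.inner_eq_star_dotProduct]
  simp [dotProduct, Pi.single_apply]

/-- The derivative in the coordinates of `Fin d → ℝ`. -/
theorem G3_pd {d : ℕ} (u : EuclideanSpace ℝ (Fin d) → ℝ) (hu : Differentiable ℝ u) (j : Fin d)
    (x : Fin d → ℝ) :
    pd j (fun y : Fin d → ℝ => u (WithLp.toLp 2 y)) x =
      fderiv ℝ u (WithLp.toLp 2 x) (WithLp.toLp 2 (Pi.single j 1 : Fin d → ℝ)) := by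
  unfold pd
  have h1 : HasFDerivAt u (fderiv ℝ u (WithLp.toLp 2 x)) ((EuclideanSpace.equiv (Fin d) ℝ).symm x) :=
    (hu _).hasFDerivAt
  have h2 := h1.comp x (EuclideanSpace.equiv (Fin d) ℝ).symm.hasFDerivAt
  have h3 : (fun y : Fin d → ℝ => u (WithLp.toLp 2 y)) = u ∘ ⇑(EuclideanSpace.equiv (Fin d) ℝ).symm := rfl
  rw [h3, h2.fderiv]
  rfl

/-- Row G3: the theorem in the form of the frozen statement. -/
theorem count_W {d : ℕ} (hd : 3 ≤ d) (W : EuclideanSpace ℝ (Fin d) → ℝ)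
    (S : Submodule ℝ (EuclideanSpace ℝ (Fin d) → ℝ)) (hW : Measurable W) (hW0 : ∀ x, 0 ≤ W x)
    (hWi : Integrable (fun x => W x ^ ((d : ℝ) / 2))) (hS : FiniteDimensional ℝ S)
    (hSc : ∀ u ∈ S, ContDiff ℝ ((⊤ : ℕ∞) : WithTop ℕ∞) u ∧ HasCompactSupport u)
    (hSn : ∀ u ∈ S, u ≠ 0 → ∫ x, ‖fderiv ℝ u x‖ ^ 2 < ∫ x, W x * u x ^ 2)
    (s : ℝ) (hs : 1 ≤ s) :
    (Module.finrank ℝ S : ℝ) * ff s ≤ Cd d * s ^ ((d : ℝ) / 2) * ∫ x, W x ^ ((d : ℝ) / 2) := by
  classical
  set N := Module.finrank ℝ S with hN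
  set B := Module.finBasis ℝ S with hB
  set T : (Fin d → ℝ) ≃L[ℝ] EuclideanSpace ℝ (Fin d) := (EuclideanSpace.equiv (Fin d) ℝ).symm with hT
  have hTap : ∀ x, T x = WithLp.toLp 2 x := fun _ => rfl
  have hmp : MeasurePreserving (fun x : Fin d → ℝ => (WithLp.toLp 2 x : EuclideanSpace ℝ (Fin d)))
      volume volume := PiLp.volume_preserving_toLp (Fin d)
  have hme : MeasurableEmbedding (fun x : Fin d → ℝ => (WithLp.toLp 2 x : EuclideanSpace ℝ (Fin d))) :=
    T.toHomeomorph.measurableEmbedding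
  have hint : ∀ f : EuclideanSpace ℝ (Fin d) → ℝ, ∫ x : Fin d → ℝ, f (WithLp.toLp 2 x) = ∫ y, f y :=
    fun f => hmp.integral_comp hme f
  set b : Fin N → (Fin d → ℝ) → ℝ := fun n x => ((B n : S) : EuclideanSpace ℝ (Fin d) → ℝ) (WithLp.toLp 2 x)
    with hb
  have hb1 : ∀ n, ContDiff ℝ 1 (b n) := by
    intro n
    have h1 := (hSc _ (B n).2).1
    have h2 : ContDiff ℝ 1 ((B n : S) : EuclideanSpace ℝ (Fin d) → ℝ) := h1.of_le (by exact_mod_cast le_top)
    exact h2.comp T.contDiff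
  have hbc : ∀ n, HasCompactSupport (b n) := by
    intro n
    exact (hSc _ (B n).2).2.comp_homeomorph T.toHomeomorph
  have hWm : Measurable (fun x : Fin d → ℝ => W (WithLp.toLp 2 x)) := hW.comp hme.measurable
  have hWi' : Integrable (fun x : Fin d → ℝ => W (WithLp.toLp 2 x) ^ ((d : ℝ) / 2)) :=
    (hmp.integrable_comp_emb hme).mpr hWi
  have hcomb : ∀ c : Fin N → ℝ, c ≠ 0 →
      ∑ j, ∫ x, (∑ n, c n * pd j (b n) x) ^ 2 <
        ∫ x : Fin d → ℝ, W (WithLp.toLp 2 x) * (∑ n, c n * b n x) ^ 2 := by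
    intro c hc
    set v : S := ∑ n, c n • B n with hv
    set u : EuclideanSpace ℝ (Fin d) → ℝ := (v : EuclideanSpace ℝ (Fin d) → ℝ) with hu
    have hu0 : u ≠ 0 := by
      intro h0
      have hv0 : v = 0 := Subtype.ext h0
      apply hc
      funext n
      exact (Fintype.linearIndependent_iff.mp B.linearIndependent) c hv0 n
    have hcoe : u = ∑ n, c n • ((B n : S) : EuclideanSpace ℝ (Fin d) → ℝ) := by
      simp [hu, hv]
    have huap : ∀ y, u y = ∑ n, c n * ((B n : S) : EuclideanSpace ℝ (Fin d) → ℝ) y := by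
      intro y
      rw [hcoe]
      simp
    have hdiff : ∀ n, Differentiable ℝ ((B n : S) : EuclideanSpace ℝ (Fin d) → ℝ) := fun n =>
      (hSc _ (B n).2).1.differentiable (by simp)
    have hud : Differentiable ℝ u := (hSc _ v.2).1.differentiable (by simp)
    have hfd : ∀ y, fderiv ℝ u y = ∑ n, c n • fderiv ℝ ((B n : S) : EuclideanSpace ℝ (Fin d) → ℝ) y := by
      intro y
      have : u = fun y => ∑ n, c n * ((B n : S) : EuclideanSpace ℝ (Fin d) → ℝ) y := funext huap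
      rw [this]
      have h1 : HasFDerivAt (fun y => ∑ n, c n * ((B n : S) : EuclideanSpace ℝ (Fin d) → ℝ) y)
          (∑ n, c n • fderiv ℝ ((B n : S) : EuclideanSpace ℝ (Fin d) → ℝ) y) y := by
        apply HasFDerivAt.fun_sum
        intro n _
        exact ((hdiff n) y).hasFDerivAt.const_mul (c n)
      exact h1.fderiv
    have h1 := hSn u v.2 hu0
    rw [← hint, ← hint] at h1
    have hpd : ∀ (j : Fin d) (x : Fin d → ℝ), ∑ n, c n * pd j (b n) x =
        fderiv ℝ u (WithLp.toLp 2 x) (WithLp.toLp 2 (Pi.single j 1 : Fin d → ℝ)) := by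
      intro j x
      rw [hfd]
      simp only [_root_.sum_apply, _root_.smul_apply, smul_eq_mul]
      refine Finset.sum_congr rfl fun n _ => ?_
      rw [G3_pd _ (hdiff n)]
    have hbu : ∀ x : Fin d → ℝ, ∑ n, c n * b n x = u (WithLp.toLp 2 x) := by
      intro x
      rw [huap]
    have hL : ∑ j, ∫ x, (∑ n, c n * pd j (b n) x) ^ 2 =
        ∫ x : Fin d → ℝ, ‖fderiv ℝ u (WithLp.toLp 2 x)‖ ^ 2 := by
      rw [← integral_finsetSum]
      · refine integral_congr_ae (Eventually.of_forall fun x => ?_)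
        simp only [hpd]
        rw [G3_norm]
      · intro j _
        simp only [hpd]
        have hcont : Continuous fun x : Fin d → ℝ =>
            (fderiv ℝ u (WithLp.toLp 2 x)) (WithLp.toLp 2 (Pi.single j 1 : Fin d → ℝ)) := by
          have h2 : Continuous (fderiv ℝ u) := (hSc _ v.2).1.continuous_fderiv (by simp)
          exact (h2.comp T.continuous).clm_apply continuous_const
        have hcs : HasCompactSupport fun x : Fin d → ℝ =>
            (fderiv ℝ u (WithLp.toLp 2 x)) (WithLp.toLp 2 (Pi.single j 1 : Fin d → ℝ)) := by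
          have h3 : HasCompactSupport (fderiv ℝ u) := (hSc _ v.2).2.fderiv ℝ
          have h4 : HasCompactSupport (fun x : Fin d → ℝ => fderiv ℝ u (WithLp.toLp 2 x)) :=
            h3.comp_homeomorph T.toHomeomorph
          exact h4.comp_left (g := fun L : EuclideanSpace ℝ (Fin d) →L[ℝ] ℝ =>
            L (WithLp.toLp 2 (Pi.single j 1 : Fin d → ℝ))) (by simp)
        have hcs2 : HasCompactSupport fun x : Fin d → ℝ =>
            (fderiv ℝ u (WithLp.toLp 2 x)) (WithLp.toLp 2 (Pi.single j 1 : Fin d → ℝ)) ^ 2 :=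
          hcs.comp_left (g := fun t : ℝ => t ^ 2) (by simp)
        exact (hcont.pow 2).integrable_of_hasCompactSupport hcs2
    rw [hL]
    simp only [hbu]
    exact h1
  have hfin : ∀ η : ℝ, 0 < η → (N : ℝ) * ff s ≤
      Cd d * s ^ ((d : ℝ) / 2) * ((∫ x, W x ^ ((d : ℝ) / 2)) + η) := by
    intro η hη
    obtain ⟨V, ε, hV, hV0, hVc, hε, hVW, hVn⟩ := reduce hd b hb1 hbc
      (fun x : Fin d → ℝ => W (WithLp.toLp 2 x)) hWm (fun x => hW0 _) hWi' hcomb η hη
    have h1 := count_cont hd b hb1 hbc V hV hV0 hVc ε hε hVn s hs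
    have h2 : 0 ≤ Cd d * s ^ ((d : ℝ) / 2) :=
      mul_nonneg (G3_Cd_nonneg hd) (Real.rpow_nonneg (by linarith) _)
    refine h1.trans (mul_le_mul_of_nonneg_left ?_ h2)
    refine hVW.trans (le_of_eq ?_)
    rw [hint (fun y => W y ^ ((d : ℝ) / 2))]
  have hlim : Tendsto (fun η : ℝ => Cd d * s ^ ((d : ℝ) / 2) * ((∫ x, W x ^ ((d : ℝ) / 2)) + η))
      (𝓝[>] 0) (𝓝 (Cd d * s ^ ((d : ℝ) / 2) * ((∫ x, W x ^ ((d : ℝ) / 2)) + 0))) := by
    apply Tendsto.const_mul
    apply Tendsto.const_add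
    exact tendsto_id.mono_left nhdsWithin_le_nhds
  rw [add_zero] at hlim
  refine ge_of_tendsto hlim ?_
  filter_upwards [self_mem_nhdsWithin] with η hη
  exact hfin η hη

end CLRT
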