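import Pool.Agent.Lib.MP_efa090_mp.CNum
import Pool.Agent.Lib.MP_efa090_mp.C_G3

/-!
# The CLR bound in the form of the hand-in
-/

set_option autoImplicit false

open MeasureTheory

namespace CLRT

/-- The bound with the parameter `t = log s`. -/
theorem count_kap {d : ℕ} (hd : 3 ≤ d) (W : EuclideanSpace ℝ (Fin d) → ℝ)
    (S : Submodule ℝ (EuclideanSpace ℝ (Fin d) → ℝ)) (hW : Measurable W) (hW0 : ∀ x, 0 ≤ W x)
    (hWi : Integrable (fun x => W x ^ ((d : ℝ) / 2))) (hS : FiniteDimensional ℝ S)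
    (hSc : ∀ u ∈ S, ContDiff ℝ ((⊤ : ℕ∞) : WithTop ℕ∞) u ∧ HasCompactSupport u)
    (hSn : ∀ u ∈ S, u ≠ 0 → ∫ x, ‖fderiv ℝ u x‖ ^ 2 < ∫ x, W x * u x ^ 2)
    (t : ℝ) (ht : 0 < t) :
    (Module.finrank ℝ S : ℝ) ≤ (4 * Real.pi) ^ (-(d : ℝ) / 2) / Real.Gamma (1 + (d : ℝ) / 2) *
      kap d t * ∫ x, W x ^ ((d : ℝ) / 2) := by
  have hd' : (3 : ℝ) ≤ d := by exact_mod_cast hd
  have h4 : 0 < (d : ℝ) ^ 2 - 4 := by nlinarith
  have hs := sinh_sub_pos ht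
  have h := count_W hd W S hW hW0 hWi hS hSc hSn (Real.exp t) (Real.one_le_exp ht.le)
  rw [ff_exp ht] at h
  have hf : 0 < 2 * (Real.sinh t - t) := by linarith
  rw [← le_div_iff₀ hf] at h
  refine h.trans (le_of_eq ?_)
  unfold Cd kap
  rw [← Real.exp_mul, show t * ((d : ℝ) / 2) = (d : ℝ) * t / 2 by ring]
  have hG : Real.Gamma (1 + (d : ℝ) / 2) ≠ 0 := (Real.Gamma_pos_of_pos (by linarith)).ne'
  field_simp
  ring

end CLRT
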