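import Pool.Agent.Lib.MP_efa090_mp.TSc
import Pool.Agent.Lib.MP_efa090_mp.CDefs

/-!
# The CLR bound: numbers

The constant `8 e^(d t / 2) / (d (d² - 4) (sinh t - t))` and its values.
-/

set_option autoImplicit false

namespace CLRT

/-- The ratio of the new constant to the classical one, as a function of the parameter `t`. -/
noncomputable def kap (d : ℕ) (t : ℝ) : ℝ :=
  8 * Real.exp ((d : ℝ) * t / 2) / (d * ((d : ℝ) ^ 2 - 4) * (Real.sinh t - t))

lemma ff_exp {t : ℝ} (ht : 0 < t) : ff (Real.exp t) = 2 * (Real.sinh t - t) := by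
  rw [ff_of_ge (Real.one_le_exp ht.le), Real.log_exp, Real.sinh_eq, Real.exp_neg, one_div]
  ring

lemma sinh_sub_pos {t : ℝ} (ht : 0 < t) : 0 < Real.sinh t - t := by
  have := Real.self_lt_sinh_iff.mpr ht
  linarith

/-- The cubic lower bound of `sinh t - t`. -/
lemma sinh_sub_ge {t : ℝ} (ht : 0 < t) : t ^ 3 / 6 ≤ Real.sinh t - t := by
  have hd : ∀ x : ℝ, HasDerivAt (fun x : ℝ => Real.sinh x - x - x ^ 3 / 6)
      (Real.cosh x - 1 - x ^ 2 / 2) x := by
    intro x
    have h1 := ((Real.hasDerivAt_sinh x).sub (hasDerivAt_id x)).sub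
      ((hasDerivAt_pow 3 x).div_const 6)
    refine h1.congr_deriv ?_
    push_cast
    ring
  have hm : MonotoneOn (fun x : ℝ => Real.sinh x - x - x ^ 3 / 6) (Set.Ici 0) := by
    apply monotoneOn_of_deriv_nonneg (convex_Ici 0)
    · exact fun x _ => (hd x).continuousAt.continuousWithinAt
    · exact fun x _ => (hd x).differentiableAt.differentiableWithinAt
    · intro x hx
      rw [interior_Ici] at hx
      have hx0 : (0 : ℝ) < x := hx
      rw [(hd x).deriv]
      have h2 : Real.cosh x = 1 + 2 * Real.sinh (x / 2) ^ 2 := by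
        have := Real.cosh_two_mul (x / 2)
        rw [show 2 * (x / 2) = x by ring, Real.cosh_sq] at this
        linarith
      have h3 : x / 2 ≤ Real.sinh (x / 2) := Real.self_le_sinh_iff.mpr (by linarith)
      have h4 : (x / 2) ^ 2 ≤ Real.sinh (x / 2) ^ 2 := pow_le_pow_left₀ (by linarith) h3 2
      rw [h2]
      linarith [h4, show (x / 2) ^ 2 = x ^ 2 / 4 by ring]
  have := hm (Set.mem_Ici.mpr le_rfl) (Set.mem_Ici.mpr ht.le) ht.le
  simp at this
  linarith

lemma kap_closed {d : ℕ} (hd : 3 ≤ d) :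
    kap d (6 / d) ≤ 2 * Real.exp 3 / 9 * ((d : ℝ) ^ 2 / ((d : ℝ) ^ 2 - 4)) := by
  have hd' : (3 : ℝ) ≤ d := by exact_mod_cast hd
  have h4 : 0 < (d : ℝ) ^ 2 - 4 := by nlinarith
  have ht : (0 : ℝ) < 6 / d := by positivity
  have h1 := sinh_sub_ge ht
  have h2 : 0 < (6 / (d : ℝ)) ^ 3 / 6 := by positivity
  unfold kap
  rw [show (d : ℝ) * (6 / d) / 2 = 3 by field_simp; norm_num]
  calc 8 * Real.exp 3 / (d * ((d : ℝ) ^ 2 - 4) * (Real.sinh (6 / d) - 6 / d))
      ≤ 8 * Real.exp 3 / (d * ((d : ℝ) ^ 2 - 4) * ((6 / (d : ℝ)) ^ 3 / 6)) := by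
        apply div_le_div_of_nonneg_left (by positivity) (by positivity)
        exact mul_le_mul_of_nonneg_left h1 (by positivity)
    _ = 2 * Real.exp 3 / 9 * ((d : ℝ) ^ 2 / ((d : ℝ) ^ 2 - 4)) := by
        field_simp
        ring

lemma kap_log {d : ℕ} {u : ℝ} (hu : 1 < u) :
    kap d (2 * Real.log u) =
      8 * u ^ d / (d * ((d : ℝ) ^ 2 - 4) * ((u ^ 2 - (u ^ 2)⁻¹) / 2 - 2 * Real.log u)) := by
  have hu0 : 0 < u := by linarith
  unfold kap
  have h1 : Real.exp ((d : ℝ) * (2 * Real.log u) / 2) = u ^ d := by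
    rw [show (d : ℝ) * (2 * Real.log u) / 2 = d * Real.log u by ring, Real.exp_nat_mul,
      Real.exp_log hu0]
  have h2 : Real.exp (2 * Real.log u) = u ^ 2 := by
    have := Real.exp_nat_mul (Real.log u) 2
    rw [Real.exp_log hu0] at this
    push_cast at this
    exact this
  rw [h1, Real.sinh_eq, Real.exp_neg, h2]

/-- Upper bound of a logarithm by the exponential series. -/
lemma log_le_of_sum {u x : ℝ} (hu : 0 < u) (hx : 0 ≤ x) (n : ℕ)
    (h : u ≤ ∑ i ∈ Finset.range n, x ^ i / (i.factorial : ℝ)) : Real.log u ≤ x := by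
  rw [Real.log_le_iff_le_exp hu]
  exact h.trans (Real.sum_le_exp_of_nonneg hx n)

lemma kap_le_of_log {d : ℕ} (hd : 3 ≤ d) {u x K : ℝ} (hu : 1 < u) (hx : Real.log u ≤ x)
    (hp : 0 < (u ^ 2 - (u ^ 2)⁻¹) / 2 - 2 * x)
    (hK : 8 * u ^ d / (d * ((d : ℝ) ^ 2 - 4) * ((u ^ 2 - (u ^ 2)⁻¹) / 2 - 2 * x)) ≤ K) :
    kap d (2 * Real.log u) ≤ K := by
  have hd' : (3 : ℝ) ≤ d := by exact_mod_cast hd
  have h4 : 0 < (d : ℝ) ^ 2 - 4 := by nlinarith
  have hu0 : 0 < u := by linarith
  rw [kap_log hu]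
  refine le_trans ?_ hK
  apply div_le_div_of_nonneg_left (by positivity) (by positivity)
  apply mul_le_mul_of_nonneg_left _ (by positivity)
  linarith

lemma kap_three : kap 3 (2 * Real.log (13 / 4)) ≤ 6.365 := by
  have hl : Real.log (13 / 4) ≤ 1.1787 := by
    apply log_le_of_sum (by norm_num) (by norm_num) 12
    simp only [Finset.sum_range_succ, Finset.sum_range_zero, Nat.factorial]
    norm_num
  apply kap_le_of_log le_rfl (by norm_num) hl <;> norm_num

lemma kap_four : kap 4 (2 * Real.log (9 / 4)) ≤ 5.27 := by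
  have hl : Real.log (9 / 4) ≤ 0.81095 := by
    apply log_le_of_sum (by norm_num) (by norm_num) 12
    simp only [Finset.sum_range_succ, Finset.sum_range_zero, Nat.factorial]
    norm_num
  apply kap_le_of_log (by norm_num) (by norm_num) hl <;> norm_num

lemma kap_five : kap 5 (2 * Real.log (15 / 8)) ≤ 4.927 := by
  have hl : Real.log (15 / 8) ≤ 0.62861 := by
    apply log_le_of_sum (by norm_num) (by norm_num) 12
    simp only [Finset.sum_range_succ, Finset.sum_range_zero, Nat.factorial]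
    norm_num
  apply kap_le_of_log (by norm_num) (by norm_num) hl <;> norm_num

end CLRT
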