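import Pool.Agent.Lib.MP_efa090_mp.CDefs

set_option autoImplicit false

open Filter MeasureTheory Topology

namespace CLRT

private lemma A1_sum {d l m : ℕ} [NeZero l] (G : (Fin d → ℝ) → ℝ) :
    ∑ x : Fin d → ZMod (l * (m + 1)), G (pt l m x) =
      ∑ k : Fin d → Fin (l * (m + 1)), G (fun i => ((k i : ℕ) : ℝ) / ((m + 1 : ℕ) : ℝ)) := by
  classical
  refine Finset.sum_bij (fun x _ => fun i => (⟨(x i).val, ZMod.val_lt _⟩ : Fin (l * (m + 1))))
    ?_ ?_ ?_ ?_
  · intro x _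
    exact Finset.mem_univ _
  · intro x _ y _ h
    funext i
    have h1 := congrFun h i
    simp only [Fin.mk.injEq] at h1
    exact ZMod.val_injective _ h1
  · intro k _
    refine ⟨fun i => ((k i : ℕ) : ZMod (l * (m + 1))), Finset.mem_univ _, ?_⟩
    funext i
    apply Fin.ext
    exact ZMod.val_cast_of_lt (k i).isLt
  · intro x _
    congr 1
    funext i
    simp only [pt]
    push_cast
    rfl

/-- Row A1. Riemann sums of functions that converge uniformly. -/
theorem A1_riemann {d l : ℕ} [NeZero l] (F : ℕ → (Fin d → ℝ) → ℝ) (G : (Fin d → ℝ) → ℝ)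
    (hG : Continuous G) (hs : ∀ x, G x ≠ 0 → ∀ i, 0 ≤ x i ∧ x i < l)
    (hF : ∀ η : ℝ, 0 < η → ∀ᶠ m : ℕ in atTop, ∀ x, |F m x - G x| ≤ η) :
    Tendsto (fun m : ℕ => (∑ x : Fin d → ZMod (l * (m + 1)), F m (pt l m x)) / ((m : ℝ) + 1) ^ d)
      atTop (𝓝 (∫ x, G x)) := by
  have T := (riemann_fin l G hG hs).comp (tendsto_add_atTop_nat 1)
  have T' : Tendsto (fun m : ℕ => (∑ x : Fin d → ZMod (l * (m + 1)), G (pt l m x)) /
      ((m : ℝ) + 1) ^ d) atTop (𝓝 (∫ x, G x)) := by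
    refine T.congr (fun m => ?_)
    simp only [Function.comp]
    rw [A1_sum]
    push_cast
    rfl
  refine tendsto_of_tendsto_of_dist T' ?_
  rw [Metric.tendsto_nhds]
  intro e he
  have hl : (0 : ℝ) < (l : ℝ) ^ d := by
    have : (0 : ℝ) < l := by exact_mod_cast Nat.pos_of_ne_zero (NeZero.ne l)
    positivity
  filter_upwards [hF (e / (2 * (l : ℝ) ^ d)) (by positivity)] with m hm
  have hm1 : (0 : ℝ) < (m : ℝ) + 1 := by positivity
  rw [Real.dist_0_eq_abs, abs_of_nonneg dist_nonneg, Real.dist_eq, ← sub_div,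
    ← Finset.sum_sub_distrib, abs_div, abs_of_pos (pow_pos hm1 d), div_lt_iff₀ (pow_pos hm1 d)]
  have h1 : |∑ x : Fin d → ZMod (l * (m + 1)), (G (pt l m x) - F m (pt l m x))| ≤
      ∑ x : Fin d → ZMod (l * (m + 1)), e / (2 * (l : ℝ) ^ d) := by
    refine (Finset.abs_sum_le_sum_abs _ _).trans (Finset.sum_le_sum (fun x _ => ?_))
    rw [abs_sub_comm]
    exact hm _
  have h2 : ∑ x : Fin d → ZMod (l * (m + 1)), e / (2 * (l : ℝ) ^ d) =
      e / 2 * ((m : ℝ) + 1) ^ d := by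
    rw [Finset.sum_const, Finset.card_univ, card_grid, nsmul_eq_mul]
    push_cast
    rw [mul_pow]
    field_simp
  rw [h2] at h1
  refine lt_of_le_of_lt h1 ?_
  have := pow_pos hm1 d
  nlinarith

end CLRT
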