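import Pool.Agent.Lib.MP_efa090_mp.CDefs

/-!
Row efa-A2: the shift on the torus is the shift in the cube
-/

set_option autoImplicit false

open Filter MeasureTheory Topology

namespace CLRT

/-- the coordinates of the shifted point, if the shift does not wrap around -/
private theorem A2_val {M : ℕ} [NeZero M] (a : ZMod M) (h : a.val + 1 < M) :
    (a + 1).val = a.val + 1 := by
  haveI : Fact (1 < M) := ⟨by omega⟩
  rw [ZMod.val_add, ZMod.val_one, Nat.mod_eq_of_lt h]

/-- the shift wraps around -/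
private theorem A2_wrap {M : ℕ} [NeZero M] (a : ZMod M) (h : ¬ a.val + 1 < M) :
    (a + 1).val = 0 ∧ a.val + 1 = M := by
  have h1 := ZMod.val_lt a
  have h2 : a.val + 1 = M := by omega
  refine ⟨?_, h2⟩
  have h3 : a + 1 = 0 := by
    have h4 : ((a.val + 1 : ℕ) : ZMod M) = a + 1 := by
      rw [Nat.cast_add, Nat.cast_one, ZMod.natCast_zmod_val]
    rw [← h4, h2, ZMod.natCast_self]
  rw [h3, ZMod.val_zero]

/-- Row A2. The shift on the torus is the shift in the cube for functions supported in
`[1, l - 1]^d`. If `(x j).val + 1 < M`, then `(x j + 1).val = (x j).val + 1`; otherwise `x j + 1 = 0`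
and both sides are zero (`pt (sh j x) j = 0 < 1`, the other point has `j`-th coordinate
`M / (m+1) = l > l - 1`). -/
theorem A2_shift {d l m : ℕ} [NeZero l] (w : (Fin d → ℝ) → ℝ)
    (hw : ∀ x, w x ≠ 0 → ∀ i, 1 ≤ x i ∧ x i ≤ (l : ℝ) - 1) (j : Fin d)
    (x : Fin d → ZMod (l * (m + 1))) :
    w (pt l m (sh j x)) = w (pt l m x + ((m : ℝ) + 1)⁻¹ • (Pi.single j 1 : Fin d → ℝ)) := by
  haveI : NeZero (l * (m + 1)) := ⟨Nat.mul_ne_zero (NeZero.ne l) (Nat.succ_ne_zero m)⟩
  have hm : (0 : ℝ) < (m : ℝ) + 1 := by positivity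
  by_cases h : (x j).val + 1 < l * (m + 1)
  · congr 1
    funext i
    simp only [pt, Pi.add_apply, Pi.smul_apply, smul_eq_mul]
    by_cases hij : i = j
    · subst hij
      rw [Pi.single_eq_same]
      have h1 : (sh i x) i = x i + 1 := by simp [sh]
      rw [h1, A2_val _ h]
      push_cast
      field_simp
    · rw [Pi.single_eq_of_ne hij]
      have h1 : (sh j x) i = x i := by simp [sh, hij]
      rw [h1]
      ring
  · obtain ⟨h1, h2⟩ := A2_wrap (x j) h
    have e1 : w (pt l m (sh j x)) = 0 := by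
      by_contra hne
      have h3 := (hw _ hne j).1
      have h4 : (sh j x) j = x j + 1 := by simp [sh]
      simp only [pt] at h3
      rw [h4, h1] at h3
      norm_num at h3
    have e2 : w (pt l m x + ((m : ℝ) + 1)⁻¹ • (Pi.single j 1 : Fin d → ℝ)) = 0 := by
      by_contra hne
      have h3 := (hw _ hne j).2
      simp only [pt, Pi.add_apply, Pi.smul_apply, smul_eq_mul, Pi.single_eq_same] at h3
      have h5 : ((x j).val : ℝ) + 1 = l * ((m : ℝ) + 1) := by exact_mod_cast h2
      have h6 : ((x j).val : ℝ) / ((m : ℝ) + 1) + ((m : ℝ) + 1)⁻¹ * 1 = l := by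
        rw [mul_one, div_eq_mul_inv, ← add_one_mul, h5]
        field_simp
      rw [h6] at h3
      linarith
    rw [e1, e2]

end CLRT
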