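import Pool.Agent.Lib.MP_efa090_mp.CDefs

set_option autoImplicit false

open Filter MeasureTheory Topology

namespace CLRT

/-- Row A3. Difference quotients converge uniformly. -/
theorem A3_diff {d : ℕ} (w : (Fin d → ℝ) → ℝ) (hw : ContDiff ℝ 1 w) (hc : HasCompactSupport w)
    (j : Fin d) (η : ℝ) (hη : 0 < η) :
    ∀ᶠ m : ℕ in atTop, ∀ x : Fin d → ℝ,
      |((m : ℝ) + 1) * (w (x + ((m : ℝ) + 1)⁻¹ • (Pi.single j 1 : Fin d → ℝ)) - w x) - pd j w x| ≤ η := by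
  have hdc : Continuous (fderiv ℝ w) := hw.continuous_fderiv (by norm_num)
  have huc : UniformContinuous (fderiv ℝ w) := hdc.uniformContinuous_of_tendsto_cocompact (x := (0 : (Fin d → ℝ) →L[ℝ] ℝ)) (HasCompactSupport.is_zero_at_infty (hc.fderiv ℝ))
  obtain ⟨δ, hδ, hδ2⟩ := Metric.uniformContinuous_iff.1 huc η hη
  obtain ⟨m0, hm0⟩ := exists_nat_gt (1 / δ)
  filter_upwards [eventually_ge_atTop m0] with m hm x
  have hm1 : (0 : ℝ) < (m : ℝ) + 1 := by positivity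
  have hinv : ((m : ℝ) + 1)⁻¹ < δ := by
    rw [inv_lt_comm₀ hm1 hδ]
    have h1 : (m0 : ℝ) ≤ m := by exact_mod_cast hm
    rw [one_div] at hm0
    linarith
  have hinv0 : 0 < ((m : ℝ) + 1)⁻¹ := inv_pos.2 hm1
  set e : Fin d → ℝ := Pi.single j 1 with he
  have hne : ‖e‖ = 1 := by
    rw [he, Pi.norm_single, norm_one]
  have hy : x + ((m : ℝ) + 1)⁻¹ • e ∈ Metric.ball x δ := by
    rw [Metric.mem_ball, dist_eq_norm, add_sub_cancel_left, norm_smul, hne, mul_one, Real.norm_eq_abs,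
      abs_of_pos hinv0]
    exact hinv
  have h1 := (convex_ball x δ).norm_image_sub_le_of_norm_fderiv_le' (𝕜 := ℝ) (f := w) (C := η)
    (φ := fderiv ℝ w x) (fun z _ => hw.differentiable (by norm_num) z)
    (fun z hz => by
      have h2 := hδ2 (Metric.mem_ball.1 hz)
      rw [dist_eq_norm] at h2
      exact h2.le) (Metric.mem_ball_self hδ) hy
  rw [add_sub_cancel_left, norm_smul, hne, mul_one, map_smul, smul_eq_mul, Real.norm_eq_abs, Real.norm_eq_abs,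
    abs_of_pos hinv0] at h1
  have h2 : ((m : ℝ) + 1) * (w (x + ((m : ℝ) + 1)⁻¹ • e) - w x) - pd j w x =
      ((m : ℝ) + 1) * (w (x + ((m : ℝ) + 1)⁻¹ • e) - w x - ((m : ℝ) + 1)⁻¹ * (fderiv ℝ w x) e) := by
    unfold pd
    rw [← he]
    field_simp
  rw [h2, abs_mul, abs_of_pos hm1]
  calc ((m : ℝ) + 1) * |w (x + ((m : ℝ) + 1)⁻¹ • e) - w x - ((m : ℝ) + 1)⁻¹ * (fderiv ℝ w x) e|
      ≤ ((m : ℝ) + 1) * (η * ((m : ℝ) + 1)⁻¹) := mul_le_mul_of_nonneg_left h1 hm1.le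
    _ = η := by
        field_simp

end CLRT
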