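import Pool.Agent.Lib.MP_efa090_mp.CDefs

set_option autoImplicit false

open Filter MeasureTheory Topology

namespace CLRT

private theorem A5_homog {N : ℕ} (Q : Fin N → Fin N → ℝ) (t : ℝ) (c : Fin N → ℝ) :
    ∑ i, ∑ j, (t • c) i * (t • c) j * Q i j = t ^ 2 * ∑ i, ∑ j, c i * c j * Q i j := by
  rw [Finset.mul_sum]
  refine Finset.sum_congr rfl fun i _ => ?_
  rw [Finset.mul_sum]
  refine Finset.sum_congr rfl fun j _ => ?_
  simp only [Pi.smul_apply, smul_eq_mul]
  ring

/-- Row A5. Positive definiteness is an open condition: the unit sphere is compact, the limit form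
has a positive minimum `κ` there, and `|∑ (Q m - Q) i j c i c j| ≤ ∑ |Q m i j - Q i j| < κ` for large
`m` (sup norm: `|c i| ≤ 1`); then homogeneity. -/
theorem A5_pos {N : ℕ} (Q : ℕ → Fin N → Fin N → ℝ) (Q₀ : Fin N → Fin N → ℝ)
    (hlim : ∀ i j, Tendsto (fun m => Q m i j) atTop (𝓝 (Q₀ i j)))
    (hpos : ∀ c : Fin N → ℝ, c ≠ 0 → 0 < ∑ i, ∑ j, c i * c j * Q₀ i j) :
    ∀ᶠ m in atTop, ∀ c : Fin N → ℝ, c ≠ 0 → 0 < ∑ i, ∑ j, c i * c j * Q m i j := by
  have hcpt : IsCompact (Metric.sphere (0 : Fin N → ℝ) 1) := isCompact_sphere _ _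
  have hcont : Continuous (fun c : Fin N → ℝ => ∑ i, ∑ j, c i * c j * Q₀ i j) := by
    refine continuous_finsetSum _ fun i _ => continuous_finsetSum _ fun j _ => ?_
    exact ((continuous_apply i).mul (continuous_apply j)).mul continuous_const
  obtain ⟨κ, hκ, hmin⟩ : ∃ κ : ℝ, 0 < κ ∧ ∀ c ∈ Metric.sphere (0 : Fin N → ℝ) 1,
      κ ≤ ∑ i, ∑ j, c i * c j * Q₀ i j := by
    by_cases hne : (Metric.sphere (0 : Fin N → ℝ) 1).Nonempty
    · obtain ⟨c0, hc0, hc0'⟩ := hcpt.exists_isMinOn hne hcont.continuousOn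
      refine ⟨_, hpos c0 ?_, fun c hc => hc0' hc⟩
      rintro rfl
      rw [mem_sphere_zero_iff_norm, norm_zero] at hc0
      exact zero_ne_one hc0
    · refine ⟨1, one_pos, fun c hc => ?_⟩
      exact absurd ⟨c, hc⟩ hne
  have hN : (0 : ℝ) < (N : ℝ) * N + 1 := by positivity
  have hev : ∀ᶠ m in atTop, ∀ i j, |Q m i j - Q₀ i j| < κ / ((N : ℝ) * N + 1) := by
    rw [eventually_all]
    intro i
    rw [eventually_all]
    intro j
    have h1 := (Metric.tendsto_nhds.1 (hlim i j)) (κ / ((N : ℝ) * N + 1)) (by positivity)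
    filter_upwards [h1] with m hm
    rwa [Real.dist_eq] at hm
  filter_upwards [hev] with m hm c hc
  have hn : 0 < ‖c‖ := norm_pos_iff.2 hc
  set e : Fin N → ℝ := ‖c‖⁻¹ • c with he
  have hce : c = ‖c‖ • e := by
    rw [he, smul_smul, mul_inv_cancel₀ hn.ne', one_smul]
  have hes : e ∈ Metric.sphere (0 : Fin N → ℝ) 1 := by
    rw [mem_sphere_zero_iff_norm, he, norm_smul, norm_inv, norm_norm, inv_mul_cancel₀ hn.ne']
  have hei : ∀ i, |e i| ≤ 1 := by
    intro i
    have h1 := norm_le_pi_norm e i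
    rw [mem_sphere_zero_iff_norm.1 hes] at h1
    exact h1
  have h2 := hmin e hes
  have h3 : |∑ i, ∑ j, e i * e j * Q m i j - ∑ i, ∑ j, e i * e j * Q₀ i j| ≤
      (N : ℝ) * N * (κ / ((N : ℝ) * N + 1)) := by
    have h4 : ∑ i, ∑ j, e i * e j * Q m i j - ∑ i, ∑ j, e i * e j * Q₀ i j =
        ∑ i, ∑ j, e i * e j * (Q m i j - Q₀ i j) := by
      rw [← Finset.sum_sub_distrib]
      refine Finset.sum_congr rfl fun i _ => ?_
      rw [← Finset.sum_sub_distrib]
      exact Finset.sum_congr rfl fun j _ => by ring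
    rw [h4]
    refine (Finset.abs_sum_le_sum_abs _ _).trans ?_
    have h5 : ∀ i ∈ (Finset.univ : Finset (Fin N)), |∑ j, e i * e j * (Q m i j - Q₀ i j)| ≤
        (N : ℝ) * (κ / ((N : ℝ) * N + 1)) := by
      intro i _
      refine (Finset.abs_sum_le_sum_abs _ _).trans ?_
      have h6 : ∀ j ∈ (Finset.univ : Finset (Fin N)), |e i * e j * (Q m i j - Q₀ i j)| ≤
          κ / ((N : ℝ) * N + 1) := by
        intro j _
        rw [abs_mul, abs_mul]
        have h7 : |e i| * |e j| ≤ 1 := by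
          calc |e i| * |e j| ≤ 1 * 1 := mul_le_mul (hei i) (hei j) (abs_nonneg _) zero_le_one
            _ = 1 := one_mul 1
        calc |e i| * |e j| * |Q m i j - Q₀ i j| ≤ 1 * |Q m i j - Q₀ i j| :=
              mul_le_mul_of_nonneg_right h7 (abs_nonneg _)
          _ = |Q m i j - Q₀ i j| := one_mul _
          _ ≤ _ := (hm i j).le
      refine (Finset.sum_le_card_nsmul _ _ _ h6).trans_eq ?_
      rw [Finset.card_univ, Fintype.card_fin, nsmul_eq_mul]
    refine (Finset.sum_le_card_nsmul _ _ _ h5).trans_eq ?_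
    rw [Finset.card_univ, Fintype.card_fin, nsmul_eq_mul, mul_assoc]
  have h8 : (N : ℝ) * N * (κ / ((N : ℝ) * N + 1)) < κ := by
    rw [mul_div_assoc', div_lt_iff₀ hN]
    nlinarith
  have h9 : 0 < ∑ i, ∑ j, e i * e j * Q m i j := by
    have h10 := (abs_le.1 h3).1
    linarith
  rw [hce, A5_homog]
  exact mul_pos (by positivity) h9

end CLRT
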