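import Pool.Agent.Lib.MP_efa090_mp.CDefs

set_option autoImplicit false

open Filter MeasureTheory Topology

namespace CLRT

/-- the combination with complex coefficients -/
private noncomputable def A6_T {ι : Type*} {N : ℕ} (β : Fin N → ι → ℝ) :
    (Fin N → ℂ) →ₗ[ℂ] (ι → ℂ) where
  toFun c := fun x => ∑ n, c n * (β n x : ℂ)
  map_add' c c' := by
    funext x
    simp only [Pi.add_apply, add_mul, Finset.sum_add_distrib]
  map_smul' r c := by
    funext x
    simp only [Pi.smul_apply, smul_eq_mul, RingHom.id_apply, Finset.mul_sum, mul_assoc]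

private theorem A6_apply {ι : Type*} {N : ℕ} (β : Fin N → ι → ℝ) (c : Fin N → ℂ) (x : ι) :
    A6_T β c x = ∑ n, c n * (β n x : ℂ) := rfl

private theorem A6_sq {N : ℕ} (c : Fin N → ℂ) (t : Fin N → ℝ) :
    ‖∑ n, c n * (t n : ℂ)‖ ^ 2 = (∑ n, (c n).re * t n) ^ 2 + (∑ n, (c n).im * t n) ^ 2 := by
  rw [← Complex.normSq_eq_norm_sq, Complex.normSq_apply, Complex.re_sum, Complex.im_sum]
  simp only [Complex.re_mul_ofReal, Complex.im_mul_ofReal]
  ring

private theorem A6_norm {ι : Type*} {N : ℕ} (β : Fin N → ι → ℝ) (c : Fin N → ℂ) (x : ι) :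
    ‖A6_T β c x‖ ^ 2 = (∑ n, (c n).re * β n x) ^ 2 + (∑ n, (c n).im * β n x) ^ 2 :=
  A6_sq c (fun n => β n x)

private theorem A6_norm_sub {ι : Type*} {N : ℕ} (β : Fin N → ι → ℝ) (c : Fin N → ℂ) (x y : ι) :
    ‖A6_T β c y - A6_T β c x‖ ^ 2 =
      (∑ n, (c n).re * (β n y - β n x)) ^ 2 + (∑ n, (c n).im * (β n y - β n x)) ^ 2 := by
  rw [← A6_sq c (fun n => β n y - β n x), A6_apply, A6_apply, ← Finset.sum_sub_distrib]
  congr 3
  funext n
  push_cast
  ring

/-- Row A6. Complexification: `S` is the range of `c ↦ ∑ n, c n β n` on `Fin N → ℂ`; for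
`v = ∑ n, c n β n` both sides are the sum of the values at `Re c` and at `Im c`
(`‖z‖² = (re z)² + (im z)²`), so the inequality holds, and `v = 0` would contradict the strict
inequality unless `c = 0`, so the map is injective and `finrank S = N`. -/
theorem A6_cplx {ι : Type*} [Fintype ι] {d N : ℕ} (β : Fin N → ι → ℝ) (sf : Fin d → ι → ι)
    (V : ι → ℝ) (ε μ : ℝ)
    (hpos : ∀ c : Fin N → ℝ, c ≠ 0 →
      ε * ∑ x, (∑ n, c n * β n x) ^ 2 +
        μ * ∑ j, ∑ x, (∑ n, c n * (β n (sf j x) - β n x)) ^ 2 < ∑ x, V x * (∑ n, c n * β n x) ^ 2) :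
    ∃ S : Submodule ℂ (ι → ℂ), Module.finrank ℂ S = N ∧ ∀ v ∈ S,
      ε * ∑ x, ‖v x‖ ^ 2 + μ * ∑ j, ∑ x, ‖v (sf j x) - v x‖ ^ 2 ≤ ∑ x, V x * ‖v x‖ ^ 2 := by
  obtain ⟨L, hL⟩ : ∃ L : (Fin N → ℝ) → ℝ, ∀ c, L c = ε * ∑ x, (∑ n, c n * β n x) ^ 2 +
      μ * ∑ j, ∑ x, (∑ n, c n * (β n (sf j x) - β n x)) ^ 2 := ⟨_, fun _ => rfl⟩
  obtain ⟨R, hR⟩ : ∃ R : (Fin N → ℝ) → ℝ, ∀ c, R c = ∑ x, V x * (∑ n, c n * β n x) ^ 2 :=
    ⟨_, fun _ => rfl⟩
  have h0 : ∀ c : Fin N → ℝ, c ≠ 0 → L c < R c := by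
    intro c hc
    rw [hL, hR]
    exact hpos c hc
  have h1 : ∀ c : Fin N → ℝ, L c ≤ R c := by
    intro c
    by_cases hc : c = 0
    · subst hc
      rw [hL, hR]
      simp
    · exact (h0 c hc).le
  have hl : ∀ c : Fin N → ℂ, ε * ∑ x, ‖A6_T β c x‖ ^ 2 +
      μ * ∑ j, ∑ x, ‖A6_T β c (sf j x) - A6_T β c x‖ ^ 2 =
      L (fun n => (c n).re) + L (fun n => (c n).im) := by
    intro c
    simp only [hL, A6_norm, A6_norm_sub, Finset.sum_add_distrib]
    ring
  have hr : ∀ c : Fin N → ℂ, ∑ x, V x * ‖A6_T β c x‖ ^ 2 =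
      R (fun n => (c n).re) + R (fun n => (c n).im) := by
    intro c
    simp only [hR, A6_norm, mul_add, Finset.sum_add_distrib]
  have hinj : Function.Injective (A6_T β) := by
    rw [injective_iff_map_eq_zero]
    intro c hc
    have e1 := hl c
    have e2 := hr c
    rw [hc] at e1 e2
    simp only [Pi.zero_apply, sub_zero, norm_zero, ne_eq, OfNat.ofNat_ne_zero, not_false_eq_true,
      zero_pow, Finset.sum_const_zero, mul_zero, add_zero] at e1 e2
    have e3 : (fun n => (c n).re) = (0 : Fin N → ℝ) := by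
      by_contra hne
      have := h0 _ hne
      have := h1 (fun n => (c n).im)
      linarith
    have e4 : (fun n => (c n).im) = (0 : Fin N → ℝ) := by
      by_contra hne
      have := h0 _ hne
      have := h1 (fun n => (c n).re)
      linarith
    funext n
    exact Complex.ext (congrFun e3 n) (congrFun e4 n)
  refine ⟨LinearMap.range (A6_T β), ?_, ?_⟩
  · rw [LinearMap.finrank_range_of_inj hinj, Module.finrank_fin_fun]
  · rintro v ⟨c, rfl⟩
    rw [hl, hr]
    exact add_le_add (h1 _) (h1 _)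

end CLRT
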