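import Pool.Agent.Lib.MP_efa090_mp.C_A1
import Pool.Agent.Lib.MP_efa090_mp.C_A2
import Pool.Agent.Lib.MP_efa090_mp.C_A3
import Pool.Agent.Lib.MP_efa090_mp.C_A5
import Pool.Agent.Lib.MP_efa090_mp.C_A6

set_option autoImplicit false

open Filter MeasureTheory Topology

namespace CLRT

/-- A function with support in a cube has compact support. -/
lemma A7_compact {d : ℕ} (w : (Fin d → ℝ) → ℝ) (a b : ℝ)
    (hw : ∀ x, w x ≠ 0 → ∀ i, a ≤ x i ∧ x i ≤ b) : HasCompactSupport w := by
  refine HasCompactSupport.intro (K := Set.pi Set.univ (fun _ : Fin d => Set.Icc a b))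
    (isCompact_univ_pi (fun _ => isCompact_Icc)) ?_
  intro x hx
  by_contra hne
  exact hx (fun i _ => hw x hne i)

lemma A7_pd_supp {d : ℕ} (w : (Fin d → ℝ) → ℝ) (a b : ℝ)
    (hw : ∀ x, w x ≠ 0 → ∀ i, a ≤ x i ∧ x i ≤ b) (j : Fin d) :
    ∀ x, pd j w x ≠ 0 → ∀ i, a ≤ x i ∧ x i ≤ b := by
  intro x hx
  have hcl : IsClosed {y : Fin d → ℝ | ∀ i, a ≤ y i ∧ y i ≤ b} := by
    have : {y : Fin d → ℝ | ∀ i, a ≤ y i ∧ y i ≤ b} =
        Set.pi Set.univ (fun _ : Fin d => Set.Icc a b) := by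
      ext y
      simp only [Set.mem_setOf_eq, Set.mem_pi, Set.mem_univ, true_implies, Set.mem_Icc]
    rw [this]
    exact isClosed_set_pi (fun _ _ => isClosed_Icc)
  have h1 : x ∈ tsupport w := by
    by_contra hne
    apply hx
    unfold pd
    rw [fderiv_of_notMem_tsupport ℝ hne]
    rfl
  have h2 : tsupport w ⊆ {y : Fin d → ℝ | ∀ i, a ≤ y i ∧ y i ≤ b} :=
    closure_minimal (fun y hy => hw y hy) hcl
  exact h2 h1

lemma A7_pd_cont {d : ℕ} (w : (Fin d → ℝ) → ℝ) (hw : ContDiff ℝ 1 w) (j : Fin d) :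
    Continuous (pd j w) := by
  unfold pd
  exact (hw.continuous_fderiv (by norm_num)).clm_apply continuous_const

lemma A7_bdd {d : ℕ} (w : (Fin d → ℝ) → ℝ) (hw : Continuous w) (hc : HasCompactSupport w) :
    ∃ C : ℝ, 0 ≤ C ∧ ∀ x, |w x| ≤ C := by
  obtain ⟨C, hC⟩ := hw.bounded_above_of_compact_support hc
  exact ⟨max C 0, le_max_right _ _, fun x => (hC x).trans (le_max_left _ _)⟩

/-- Row A4. The discrete Dirichlet form converges. -/
theorem A4_grad {d l : ℕ} [NeZero l] (u w : (Fin d → ℝ) → ℝ) (hu : ContDiff ℝ 1 u)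
    (hw : ContDiff ℝ 1 w) (hus : ∀ x, u x ≠ 0 → ∀ i, 1 ≤ x i ∧ x i ≤ (l : ℝ) - 1)
    (hws : ∀ x, w x ≠ 0 → ∀ i, 1 ≤ x i ∧ x i ≤ (l : ℝ) - 1) (j : Fin d) :
    Tendsto (fun m : ℕ => (∑ x : Fin d → ZMod (l * (m + 1)), ((m : ℝ) + 1) ^ 2 *
      ((u (pt l m (sh j x)) - u (pt l m x)) * (w (pt l m (sh j x)) - w (pt l m x)))) /
        ((m : ℝ) + 1) ^ d) atTop (𝓝 (∫ x, pd j u x * pd j w x)) := by
  set D : ((Fin d → ℝ) → ℝ) → ℕ → (Fin d → ℝ) → ℝ := fun f m x =>
    ((m : ℝ) + 1) * (f (x + ((m : ℝ) + 1)⁻¹ • (Pi.single j 1 : Fin d → ℝ)) - f x) with hD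
  have hcu := A7_compact u _ _ hus
  have hcw := A7_compact w _ _ hws
  obtain ⟨Cu, hCu0, hCu⟩ := A7_bdd (pd j u) (A7_pd_cont u hu j)
    (A7_compact _ _ _ (A7_pd_supp u _ _ hus j))
  obtain ⟨Cw, hCw0, hCw⟩ := A7_bdd (pd j w) (A7_pd_cont w hw j)
    (A7_compact _ _ _ (A7_pd_supp w _ _ hws j))
  have T := A1_riemann (l := l) (fun m x => D u m x * D w m x) (fun x => pd j u x * pd j w x)
    ((A7_pd_cont u hu j).mul (A7_pd_cont w hw j)) (by
      intro x hx i
      have h1 := A7_pd_supp u _ _ hus j x (left_ne_zero_of_mul hx) i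
      exact ⟨by linarith [h1.1], by linarith [h1.2]⟩) (by
      intro η hη
      set δ := min 1 (η / (Cu + Cw + 1)) with hδ
      have hδ0 : 0 < δ := lt_min one_pos (by positivity)
      have hδ1 : δ ≤ 1 := min_le_left _ _
      have hδ2 : δ * (Cu + Cw + 1) ≤ η := by
        have : δ ≤ η / (Cu + Cw + 1) := min_le_right _ _
        rwa [le_div_iff₀ (by positivity)] at this
      filter_upwards [A3_diff u hu hcu j δ hδ0, A3_diff w hw hcw j δ hδ0] with m h1 h2 x
      have e1 := h1 x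
      have e2 := h2 x
      have e3 : D u m x * D w m x - pd j u x * pd j w x =
          (D u m x - pd j u x) * (D w m x - pd j w x) + (D u m x - pd j u x) * pd j w x +
            pd j u x * (D w m x - pd j w x) := by ring
      have e4 : |D u m x - pd j u x| ≤ δ := e1
      have e5 : |D w m x - pd j w x| ≤ δ := e2
      rw [e3]
      calc |(D u m x - pd j u x) * (D w m x - pd j w x) + (D u m x - pd j u x) * pd j w x +
            pd j u x * (D w m x - pd j w x)| ≤ |(D u m x - pd j u x) * (D w m x - pd j w x)| +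
            |(D u m x - pd j u x) * pd j w x| + |pd j u x * (D w m x - pd j w x)| :=
              abs_add_three _ _ _
        _ ≤ δ * 1 + δ * Cw + Cu * δ := by
            rw [abs_mul, abs_mul, abs_mul]
            have := hCu x
            have := hCw x
            gcongr
            exact e5.trans hδ1
        _ = δ * (Cu + Cw + 1) := by ring
        _ ≤ η := hδ2)
  refine T.congr (fun m => ?_)
  congr 1
  refine Finset.sum_congr rfl (fun x _ => ?_)
  rw [A2_shift u hus j x, A2_shift w hws j x]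
  simp only [hD]
  ring

lemma A7_expand_sum {ι : Type*} [Fintype ι] {N : ℕ} (w : ι → ℝ) (f : Fin N → ι → ℝ)
    (c : Fin N → ℝ) : ∑ x, w x * (∑ n, c n * f n x) ^ 2 =
      ∑ i, ∑ j, c i * c j * ∑ x, w x * (f i x * f j x) := by
  have h1 : ∀ x, w x * (∑ n, c n * f n x) ^ 2 =
      ∑ i, ∑ j, c i * c j * (w x * (f i x * f j x)) := by
    intro x
    rw [sq, Finset.sum_mul_sum, Finset.mul_sum]
    refine Finset.sum_congr rfl (fun i _ => ?_)
    rw [Finset.mul_sum]
    exact Finset.sum_congr rfl (fun j _ => by ring)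
  rw [Finset.sum_congr rfl (fun x _ => h1 x), Finset.sum_comm]
  refine Finset.sum_congr rfl (fun i _ => ?_)
  rw [Finset.sum_comm]
  refine Finset.sum_congr rfl (fun j _ => ?_)
  rw [Finset.mul_sum]

lemma A7_expand_int {X : Type*} [MeasurableSpace X] {μ : Measure X} {N : ℕ} (w : X → ℝ)
    (f : Fin N → X → ℝ) (hf : ∀ i j, Integrable (fun x => w x * (f i x * f j x)) μ)
    (c : Fin N → ℝ) : ∫ x, w x * (∑ n, c n * f n x) ^ 2 ∂μ =
      ∑ i, ∑ j, c i * c j * ∫ x, w x * (f i x * f j x) ∂μ := by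
  have h1 : ∀ x, w x * (∑ n, c n * f n x) ^ 2 =
      ∑ i, ∑ j, c i * c j * (w x * (f i x * f j x)) := by
    intro x
    rw [sq, Finset.sum_mul_sum, Finset.mul_sum]
    refine Finset.sum_congr rfl (fun i _ => ?_)
    rw [Finset.mul_sum]
    exact Finset.sum_congr rfl (fun j _ => by ring)
  rw [integral_congr_ae (Eventually.of_forall h1), integral_finset_sum]
  · refine Finset.sum_congr rfl (fun i _ => ?_)
    rw [integral_finset_sum]
    · refine Finset.sum_congr rfl (fun j _ => ?_)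
      rw [integral_const_mul]
    · intro j _
      exact (hf i j).const_mul _
  · intro i _
    exact integrable_finset_sum _ (fun j _ => (hf i j).const_mul _)

/-- Row A7. Discretisation. -/
theorem disc {d l N : ℕ} [NeZero l] (b : Fin N → (Fin d → ℝ) → ℝ) (V : (Fin d → ℝ) → ℝ) (ε : ℝ)
    (hε : 0 < ε) (hb : ∀ n, ContDiff ℝ 1 (b n))
    (hbs : ∀ n x, b n x ≠ 0 → ∀ i, 1 ≤ x i ∧ x i ≤ (l : ℝ) - 1)
    (hV : Continuous V) (hVs : ∀ x, V x ≠ 0 → ∀ i, 0 ≤ x i ∧ x i < l)
    (h : ∀ c : Fin N → ℝ, c ≠ 0 →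
      ε * (∫ x, (∑ n, c n * b n x) ^ 2) + ∑ j, ∫ x, (∑ n, c n * pd j (b n) x) ^ 2 <
        ∫ x, V x * (∑ n, c n * b n x) ^ 2) :
    ∀ᶠ m : ℕ in atTop, ∃ S : Submodule ℂ ((Fin d → ZMod (l * (m + 1))) → ℂ),
      Module.finrank ℂ S = N ∧ ∀ v ∈ S,
        ∑ k, lam ε ((m : ℝ) + 1) k * ‖∑ x, star (UM d (l * (m + 1)) x k) * v x‖ ^ 2 ≤
          ∑ x, V (pt l m x) * ‖v x‖ ^ 2 := by
  have hbc : ∀ n, HasCompactSupport (b n) := fun n => A7_compact _ _ _ (hbs n)
  have hbcont : ∀ n, Continuous (b n) := fun n => (hb n).continuous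
  -- the limits
  have L1 : ∀ n n', Tendsto (fun m : ℕ => (∑ x : Fin d → ZMod (l * (m + 1)),
      V (pt l m x) * (b n (pt l m x) * b n' (pt l m x))) / ((m : ℝ) + 1) ^ d) atTop
      (𝓝 (∫ x, V x * (b n x * b n' x))) := by
    intro n n'
    exact A1_riemann (l := l) (fun _ x => V x * (b n x * b n' x)) (fun x => V x * (b n x * b n' x))
      (hV.mul ((hbcont n).mul (hbcont n'))) (fun x hx => hVs x (left_ne_zero_of_mul hx))
      (fun η hη => Eventually.of_forall (fun m x => by rw [sub_self, abs_zero]; exact hη.le))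
  have L2 : ∀ n n', Tendsto (fun m : ℕ => (∑ x : Fin d → ZMod (l * (m + 1)),
      (b n (pt l m x) * b n' (pt l m x))) / ((m : ℝ) + 1) ^ d) atTop
      (𝓝 (∫ x, (b n x * b n' x))) := by
    intro n n'
    exact A1_riemann (l := l) (fun _ x => (b n x * b n' x)) (fun x => (b n x * b n' x))
      ((hbcont n).mul (hbcont n')) (fun x hx i => by
        have := hbs n x (left_ne_zero_of_mul hx) i
        exact ⟨by linarith [this.1], by linarith [this.2]⟩)
      (fun η hη => Eventually.of_forall (fun m x => by rw [sub_self, abs_zero]; exact hη.le))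
  have L3 : ∀ n n' j, Tendsto (fun m : ℕ => (∑ x : Fin d → ZMod (l * (m + 1)),
      ((m : ℝ) + 1) ^ 2 * ((b n (pt l m (sh j x)) - b n (pt l m x)) *
        (b n' (pt l m (sh j x)) - b n' (pt l m x)))) / ((m : ℝ) + 1) ^ d) atTop
      (𝓝 (∫ x, pd j (b n) x * pd j (b n') x)) := fun n n' j =>
    A4_grad (b n) (b n') (hb n) (hb n') (hbs n) (hbs n') j
  set Q : ℕ → Fin N → Fin N → ℝ := fun m n n' =>
    (∑ x : Fin d → ZMod (l * (m + 1)),
      V (pt l m x) * (b n (pt l m x) * b n' (pt l m x))) / ((m : ℝ) + 1) ^ d -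
    ε * ((∑ x : Fin d → ZMod (l * (m + 1)),
      (b n (pt l m x) * b n' (pt l m x))) / ((m : ℝ) + 1) ^ d) -
    ∑ j, (∑ x : Fin d → ZMod (l * (m + 1)),
      ((m : ℝ) + 1) ^ 2 * ((b n (pt l m (sh j x)) - b n (pt l m x)) *
        (b n' (pt l m (sh j x)) - b n' (pt l m x)))) / ((m : ℝ) + 1) ^ d with hQ
  set Q₀ : Fin N → Fin N → ℝ := fun n n' =>
    (∫ x, V x * (b n x * b n' x)) - ε * (∫ x, (b n x * b n' x)) -
      ∑ j, ∫ x, pd j (b n) x * pd j (b n') x with hQ₀
  have hlim : ∀ n n', Tendsto (fun m => Q m n n') atTop (𝓝 (Q₀ n n')) := by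
    intro n n'
    exact ((L1 n n').sub ((L2 n n').const_mul ε)).sub (tendsto_finset_sum _ (fun j _ => L3 n n' j))
  -- integrability
  have I1 : ∀ n n', Integrable (fun x => V x * (b n x * b n' x)) := by
    intro n n'
    exact (hV.mul ((hbcont n).mul (hbcont n'))).integrable_of_hasCompactSupport
      (((hbc n).mul_right).mul_left)
  have I2 : ∀ n n', Integrable (fun x => (1 : ℝ) * (b n x * b n' x)) := by
    intro n n'
    exact (continuous_const.mul ((hbcont n).mul (hbcont n'))).integrable_of_hasCompactSupport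
      (((hbc n).mul_right).mul_left)
  have I3 : ∀ j n n', Integrable (fun x => (1 : ℝ) * (pd j (b n) x * pd j (b n') x)) := by
    intro j n n'
    exact (continuous_const.mul ((A7_pd_cont _ (hb n) j).mul
      (A7_pd_cont _ (hb n') j))).integrable_of_hasCompactSupport
      (((A7_compact _ _ _ (A7_pd_supp _ _ _ (hbs n) j)).mul_right).mul_left)
  have hpos : ∀ c : Fin N → ℝ, c ≠ 0 → 0 < ∑ n, ∑ n', c n * c n' * Q₀ n n' := by
    intro c hc
    have h1 := h c hc
    have e1 := A7_expand_int V b I1 c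
    have e2 := A7_expand_int (fun _ => (1 : ℝ)) b I2 c
    have e3 := fun j => A7_expand_int (fun _ => (1 : ℝ)) (fun n => pd j (b n)) (I3 j) c
    simp only [one_mul] at e2 e3
    rw [e1, e2, Finset.sum_congr rfl (fun j _ => e3 j)] at h1
    have e4 : ∑ n, ∑ n', c n * c n' * Q₀ n n' =
        (∑ n, ∑ n', c n * c n' * ∫ x, V x * (b n x * b n' x)) -
          ε * (∑ n, ∑ n', c n * c n' * ∫ x, (b n x * b n' x)) -
          ∑ j, ∑ n, ∑ n', c n * c n' * ∫ x, pd j (b n) x * pd j (b n') x := by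
      have e5 : ∑ j, ∑ n, ∑ n', c n * c n' * ∫ x, pd j (b n) x * pd j (b n') x =
          ∑ n, ∑ n', c n * c n' * ∑ j, ∫ x, pd j (b n) x * pd j (b n') x := by
        rw [Finset.sum_comm]
        refine Finset.sum_congr rfl (fun n _ => ?_)
        rw [Finset.sum_comm]
        refine Finset.sum_congr rfl (fun n' _ => ?_)
        rw [Finset.mul_sum]
      rw [e5, Finset.mul_sum, ← Finset.sum_sub_distrib, ← Finset.sum_sub_distrib]
      refine Finset.sum_congr rfl (fun n _ => ?_)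
      rw [Finset.mul_sum, ← Finset.sum_sub_distrib, ← Finset.sum_sub_distrib]
      refine Finset.sum_congr rfl (fun n' _ => ?_)
      simp only [hQ₀]
      ring
    rw [e4]
    linarith
  filter_upwards [A5_pos Q Q₀ hlim hpos] with m hm
  have hm0 : (0 : ℝ) < ((m : ℝ) + 1) ^ d := by positivity
  obtain ⟨S, hS1, hS2⟩ := A6_cplx (ι := Fin d → ZMod (l * (m + 1))) (d := d)
    (fun n x => b n (pt l m x)) (fun j x => sh j x) (fun x => V (pt l m x)) ε
    (((m : ℝ) + 1) ^ 2) (by
      intro c hc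
      have h1 := hm c hc
      have e1 := A7_expand_sum (fun x : Fin d → ZMod (l * (m + 1)) => V (pt l m x))
        (fun n x => b n (pt l m x)) c
      have e2 := A7_expand_sum (fun _ : Fin d → ZMod (l * (m + 1)) => (1 : ℝ))
        (fun n x => b n (pt l m x)) c
      have e3 := fun j => A7_expand_sum (fun _ : Fin d → ZMod (l * (m + 1)) => (1 : ℝ))
        (fun n x => b n (pt l m (sh j x)) - b n (pt l m x)) c
      simp only [one_mul] at e2 e3
      rw [e1, e2, Finset.sum_congr rfl (fun j _ => e3 j)]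
      have e4 : ∑ n, ∑ n', c n * c n' * Q m n n' =
          ((∑ n, ∑ n', c n * c n' * ∑ x : Fin d → ZMod (l * (m + 1)),
              V (pt l m x) * (b n (pt l m x) * b n' (pt l m x))) -
            ε * (∑ n, ∑ n', c n * c n' * ∑ x : Fin d → ZMod (l * (m + 1)),
              (b n (pt l m x) * b n' (pt l m x))) -
            ((m : ℝ) + 1) ^ 2 * ∑ j, ∑ n, ∑ n', c n * c n' * ∑ x : Fin d → ZMod (l * (m + 1)),
              ((b n (pt l m (sh j x)) - b n (pt l m x)) *
                (b n' (pt l m (sh j x)) - b n' (pt l m x)))) / ((m : ℝ) + 1) ^ d := by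
        have e5 : ∑ j, ∑ n, ∑ n', c n * c n' * ∑ x : Fin d → ZMod (l * (m + 1)),
              ((b n (pt l m (sh j x)) - b n (pt l m x)) *
                (b n' (pt l m (sh j x)) - b n' (pt l m x))) =
            ∑ n, ∑ n', c n * c n' * ∑ j, ∑ x : Fin d → ZMod (l * (m + 1)),
              ((b n (pt l m (sh j x)) - b n (pt l m x)) *
                (b n' (pt l m (sh j x)) - b n' (pt l m x))) := by
          rw [Finset.sum_comm]
          refine Finset.sum_congr rfl (fun n _ => ?_)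
          rw [Finset.sum_comm]
          refine Finset.sum_congr rfl (fun n' _ => ?_)
          rw [Finset.mul_sum]
        rw [e5, Finset.mul_sum, Finset.mul_sum, ← Finset.sum_sub_distrib,
          ← Finset.sum_sub_distrib, Finset.sum_div]
        refine Finset.sum_congr rfl (fun n _ => ?_)
        rw [Finset.mul_sum, Finset.mul_sum, ← Finset.sum_sub_distrib, ← Finset.sum_sub_distrib,
          Finset.sum_div]
        refine Finset.sum_congr rfl (fun n' _ => ?_)
        simp only [hQ, ← Finset.mul_sum, ← Finset.sum_div]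
        ring
      rw [e4, lt_div_iff₀ hm0, zero_mul] at h1
      linarith)
  refine ⟨S, hS1, fun v hv => ?_⟩
  rw [form_eq]
  exact hS2 v hv

end CLRT
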