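import Pool.Agent.Lib.MP_efa090_mp.CDefs

set_option autoImplicit false

open Filter MeasureTheory Topology

namespace CLRT

/-- Jordan's inequality for `2 - 2 cos`. -/
private theorem C1_jordan (κ M : ℝ) (hM : 0 < M) (h : |κ| * 2 ≤ M) :
    16 * (κ / M) ^ 2 ≤ 2 - 2 * Real.cos (2 * Real.pi * κ / M) := by
  have hpi := Real.pi_pos
  have e1 : 2 * Real.pi * κ / M = 2 * (Real.pi * κ / M) := by ring
  have e2 : 2 - 2 * Real.cos (2 * Real.pi * κ / M) = 4 * Real.sin (Real.pi * κ / M) ^ 2 := by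
    rw [e1, Real.cos_two_mul]
    have := Real.sin_sq_add_cos_sq (Real.pi * κ / M)
    linarith
  have e3 : Real.sin (Real.pi * κ / M) ^ 2 = Real.sin (Real.pi * |κ| / M) ^ 2 := by
    rcases abs_choice κ with h1 | h1
    · rw [h1]
    · rw [h1]
      have : Real.pi * -κ / M = -(Real.pi * κ / M) := by ring
      rw [this, Real.sin_neg, neg_sq]
  rw [e2, e3]
  have h0 : 0 ≤ Real.pi * |κ| / M := by positivity
  have h1 : Real.pi * |κ| / M ≤ Real.pi / 2 := by
    rw [div_le_div_iff₀ hM (by norm_num)]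
    have := mul_le_mul_of_nonneg_left h hpi.le
    linarith
  have h2 := Real.mul_le_sin h0 h1
  have h3 : 2 / Real.pi * (Real.pi * |κ| / M) = 2 * (|κ| / M) := by
    field_simp
  rw [h3] at h2
  have h4 : 0 ≤ 2 * (|κ| / M) := by positivity
  have h5 := pow_le_pow_left₀ h4 h2 2
  have h6 : (κ / M) ^ 2 = (|κ| / M) ^ 2 := by
    rw [div_pow, div_pow, sq_abs]
  rw [h6]
  nlinarith

/-- Row C1. Lower bound for the eigenvalues: `norm_std` (Grid52.lean) with `k j = ((k j).valMinAbs : ZMod M)`,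
`|valMinAbs| ≤ M / 2`, `2 - 2 cos θ = 4 sin² (θ / 2)`, and Jordan's inequality `2 / π x ≤ sin x` for
`0 ≤ x ≤ π / 2` (`Real.mul_le_sin`). -/
theorem C1_lower {d l m : ℕ} [NeZero l] (ε : ℝ) (k : Fin d → ZMod (l * (m + 1))) :
    ε + 16 * ∑ j, (((k j).valMinAbs : ℝ) / l) ^ 2 ≤ lam ε ((m : ℝ) + 1) k := by
  unfold lam
  have hl : (0 : ℝ) < l := by
    have : 0 < l := Nat.pos_of_ne_zero (NeZero.ne l)
    exact_mod_cast this
  have hm : (0 : ℝ) < (m : ℝ) + 1 := by positivity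
  have hM : (0 : ℝ) < ((l * (m + 1) : ℕ) : ℝ) := by
    push_cast
    positivity
  rw [Finset.mul_sum, Finset.mul_sum]
  refine add_le_add le_rfl (Finset.sum_le_sum fun j _ => ?_)
  have h1 := norm_std (M := l * (m + 1)) ((k j).valMinAbs)
  rw [ZMod.coe_valMinAbs] at h1
  rw [h1]
  have h2 := (k j).valMinAbs_mem_Ioc
  have h3 : |((k j).valMinAbs : ℝ)| * 2 ≤ ((l * (m + 1) : ℕ) : ℝ) := by
    have h4 : |(k j).valMinAbs| * 2 ≤ ((l * (m + 1) : ℕ) : ℤ) := by
      have a1 := h2.1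
      have a2 := h2.2
      rcases abs_choice (k j).valMinAbs with h5 | h5 <;> rw [h5] <;> linarith
    exact_mod_cast h4
  have h6 := C1_jordan _ _ hM h3
  have h7 : 16 * (((k j).valMinAbs : ℝ) / l) ^ 2 =
      ((m : ℝ) + 1) ^ 2 * (16 * (((k j).valMinAbs : ℝ) / ((l * (m + 1) : ℕ) : ℝ)) ^ 2) := by
    push_cast
    field_simp
  rw [h7]
  exact mul_le_mul_of_nonneg_left h6 (by positivity)

end CLRT
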