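import Pool.Agent.Lib.MP_efa090_mp.CDefs

set_option autoImplicit false

open Filter MeasureTheory Topology

namespace CLRT

private lemma C2_key (θ : ℝ) :
    Tendsto (fun m : ℕ => ((m : ℝ) + 1) ^ 2 * (2 - 2 * Real.cos (θ / ((m : ℝ) + 1)))) atTop
      (𝓝 (θ ^ 2)) := by
  have hd : HasDerivAt (fun t : ℝ => 2 * Real.sin (θ * t / 2)) θ 0 := by
    have h1 : HasDerivAt (fun t : ℝ => θ * t / 2) (θ / 2) 0 := by
      have h := ((hasDerivAt_id (0 : ℝ)).const_mul θ).div_const 2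
      simpa using h
    have h2 := (h1.sin).const_mul 2
    have h3 : 2 * (Real.cos (θ * 0 / 2) * (θ / 2)) = θ := by
      rw [mul_zero, zero_div, Real.cos_zero]
      ring
    rwa [h3] at h2
  have hs := hasDerivAt_iff_tendsto_slope_zero.1 hd
  have ht : Tendsto (fun m : ℕ => ((m : ℝ) + 1)⁻¹) atTop (𝓝[≠] 0) := by
    apply tendsto_nhdsWithin_of_tendsto_nhds_of_eventually_within
    · exact tendsto_inv_atTop_zero.comp
        (tendsto_atTop_add_const_right _ _ tendsto_natCast_atTop_atTop)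
    · refine Eventually.of_forall (fun m => ?_)
      have : (0 : ℝ) < ((m : ℝ) + 1)⁻¹ := by positivity
      exact this.ne'
  have h3 := (hs.comp ht).pow 2
  refine h3.congr (fun m => ?_)
  have hm : ((m : ℝ) + 1) ≠ 0 := by positivity
  have hc : Real.cos (θ / ((m : ℝ) + 1)) = 1 - 2 * Real.sin (θ * ((m : ℝ) + 1)⁻¹ / 2) ^ 2 := by
    have h4 : θ / ((m : ℝ) + 1) = 2 * (θ * ((m : ℝ) + 1)⁻¹ / 2) := by
      rw [div_eq_mul_inv]
      ring
    rw [h4, Real.cos_two_mul, Real.cos_sq']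
    ring
  simp only [Function.comp_apply, inv_inv, zero_add, mul_zero, zero_div, Real.sin_zero, sub_zero,
    smul_eq_mul]
  rw [hc]
  ring

/-- Row C2. Convergence of the eigenvalues. -/
theorem C2_lim {d l : ℕ} [NeZero l] (ε : ℝ) (κ : Fin d → ℤ) :
    Tendsto (fun m : ℕ => lam ε ((m : ℝ) + 1) (fun j => ((κ j : ℤ) : ZMod (l * (m + 1))))) atTop
      (𝓝 (ε + ∑ j, (2 * Real.pi * (κ j / l)) ^ 2)) := by
  have h1 : ∀ m : ℕ, lam ε ((m : ℝ) + 1) (fun j => ((κ j : ℤ) : ZMod (l * (m + 1)))) =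
      ε + ∑ j, ((m : ℝ) + 1) ^ 2 *
        (2 - 2 * Real.cos ((2 * Real.pi * (κ j / l)) / ((m : ℝ) + 1))) := by
    intro m
    unfold lam
    rw [Finset.mul_sum]
    congr 1
    apply Finset.sum_congr rfl
    intro j _
    rw [norm_std]
    have h2 : 2 * Real.pi * (κ j : ℝ) / ((l * (m + 1) : ℕ) : ℝ) =
        (2 * Real.pi * ((κ j : ℝ) / l)) / ((m : ℝ) + 1) := by
      have hl : (l : ℝ) ≠ 0 := by exact_mod_cast NeZero.ne l
      have hm : ((m : ℝ) + 1) ≠ 0 := by positivity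
      push_cast
      field_simp
    rw [h2]
  simp_rw [h1]
  exact tendsto_const_nhds.add (tendsto_finsetSum _ fun j _ => C2_key _)

end CLRT
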