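import Pool.Agent.Lib.MP_efa090_mp.C_A1
import Pool.Agent.Lib.MP_efa090_mp.C_C1
import Pool.Agent.Lib.MP_efa090_mp.C_C2

set_option autoImplicit false

open Filter MeasureTheory Topology

namespace CLRT

/-- an integer with `16 (κ / l)² < Λ` is at most `K` -/
lemma C3_int {l : ℕ} [NeZero l] (c : ℤ) (Λ : ℝ) (K : ℕ) (hK : (l : ℝ) ^ 2 * Λ ≤ K)
    (h : ((c : ℝ) / l) ^ 2 ≤ Λ) : c ∈ Finset.Icc (-(K : ℤ)) K := by
  have hl : (0 : ℝ) < l := by exact_mod_cast Nat.pos_of_ne_zero (NeZero.ne l)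
  have h1 : (c : ℝ) ^ 2 ≤ K := by
    rw [div_pow, div_le_iff₀ (by positivity)] at h
    linarith
  have h2 : c ^ 2 ≤ (K : ℤ) := by exact_mod_cast h1
  rw [Finset.mem_Icc]
  constructor
  · nlinarith
  · nlinarith

/-- the sum over the frequencies is at most the sum over a fixed box -/
lemma C3_box {d M : ℕ} [NeZero M] (K : ℕ) (f : (Fin d → ZMod M) → ℝ) (hf : ∀ k, 0 ≤ f k)
    (hsupp : ∀ k, f k ≠ 0 → ∀ j, (k j).valMinAbs ∈ Finset.Icc (-(K : ℤ)) K) :
    ∑ k, f k ≤ ∑ κ ∈ Fintype.piFinset (fun _ : Fin d => Finset.Icc (-(K : ℤ)) K),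
      f (fun j => ((κ j : ℤ) : ZMod M)) := by
  classical
  have h1 : ∑ k, f k = ∑ k ∈ Finset.univ.filter (fun k => f k ≠ 0), f k := by
    rw [Finset.sum_filter_ne_zero]
  rw [h1]
  have hinj : Set.InjOn (fun k : Fin d → ZMod M => fun j => (k j).valMinAbs)
      ((Finset.univ.filter (fun k => f k ≠ 0) : Finset (Fin d → ZMod M)) : Set (Fin d → ZMod M)) := by
    intro k _ k' _ hkk
    funext j
    exact ZMod.injective_valMinAbs (congrFun hkk j)
  have h2 : ∑ k ∈ Finset.univ.filter (fun k => f k ≠ 0), f k =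
      ∑ κ ∈ (Finset.univ.filter (fun k => f k ≠ 0)).image (fun k : Fin d → ZMod M => fun j => (k j).valMinAbs),
        f (fun j => ((κ j : ℤ) : ZMod M)) := by
    rw [Finset.sum_image hinj]
    refine Finset.sum_congr rfl (fun k _ => ?_)
    congr 1
    funext j
    exact (ZMod.coe_valMinAbs (k j)).symm
  rw [h2]
  refine Finset.sum_le_sum_of_subset_of_nonneg ?_ (fun κ _ _ => hf _)
  intro κ hκ
  obtain ⟨k, hk, rfl⟩ := Finset.mem_image.1 hκ
  rw [Finset.mem_filter] at hk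
  exact Fintype.mem_piFinset.2 (fun j => hsupp k hk.2 j)

/-- Row C3. The limit `m → ∞` (spacing to `0`, the torus fixed). -/
theorem lim_m {d l : ℕ} [NeZero l] (V : (Fin d → ℝ) → ℝ) (hV : Continuous V)
    (hV0 : ∀ x, 0 ≤ V x) (hVs : ∀ x, V x ≠ 0 → ∀ i, 0 ≤ x i ∧ x i < l) (ε s δ A : ℝ) (hε : 0 < ε)
    (hs : 0 < s) (hδ : 0 < δ)
    (h : ∀ᶠ m : ℕ in atTop, A ≤
      ∑ x : Fin d → ZMod (l * (m + 1)), ∑ k : Fin d → ZMod (l * (m + 1)),
        (((l * (m + 1) : ℕ) : ℝ) ^ d)⁻¹ * ff (s * V (pt l m x) / lam ε ((m : ℝ) + 1) k)) :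
    A ≤ (∑' k : Fin d → ℤ, ∫ x, ff ((s + δ) * V x / (ε + ∑ j, (2 * Real.pi * (k j / l)) ^ 2))) /
      (l : ℝ) ^ d := by
  classical
  have hl : (0 : ℝ) < l := by exact_mod_cast Nat.pos_of_ne_zero (NeZero.ne l)
  -- `V` is bounded
  have hVc : HasCompactSupport V := by
    refine HasCompactSupport.of_support_subset_isCompact
      (isCompact_univ_pi (fun _ : Fin d => isCompact_Icc (a := (0 : ℝ)) (b := (l : ℝ)))) ?_
    intro x hx i _
    exact ⟨(hVs x hx i).1, (hVs x hx i).2.le⟩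
  obtain ⟨B, hB⟩ := hV.bounded_above_of_compact_support hVc
  have hVB : ∀ x, V x ≤ B := fun x => (le_abs_self _).trans (hB x)
  have hB0 : 0 ≤ B := (hV0 0).trans (hVB 0)
  obtain ⟨Λ, hΛ⟩ : ∃ Λ : ℝ, Λ = (s + δ) * B := ⟨_, rfl⟩
  have hΛ0 : 0 ≤ Λ := by rw [hΛ]; positivity
  obtain ⟨K, hK⟩ := exists_nat_ge ((l : ℝ) ^ 2 * Λ)
  obtain ⟨Bx, hBx⟩ : ∃ Bx : Finset (Fin d → ℤ),
    Bx = Fintype.piFinset (fun _ : Fin d => Finset.Icc (-(K : ℤ)) K) := ⟨_, rfl⟩
  obtain ⟨L, hL⟩ : ∃ L : (Fin d → ℤ) → ℝ, ∀ k, L k = ε + ∑ j, (2 * Real.pi * (k j / l)) ^ 2 :=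
    ⟨_, fun k => rfl⟩
  have hL0 : ∀ k, 0 < L k := by
    intro k
    rw [hL]
    have : 0 ≤ ∑ j, (2 * Real.pi * ((k j : ℝ) / l)) ^ 2 := Finset.sum_nonneg (fun j _ => sq_nonneg _)
    linarith
  -- the limit functions
  have hGc : ∀ k : Fin d → ℤ, Continuous (fun x => ff ((s + δ) * V x / L k)) := by
    intro k
    exact ff_continuous.comp ((continuous_const.mul hV).div_const _)
  have hGs : ∀ k : Fin d → ℤ, ∀ x, ff ((s + δ) * V x / L k) ≠ 0 → ∀ i, 0 ≤ x i ∧ x i < l := by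
    intro k x hx
    refine hVs x ?_
    intro h0
    apply hx
    rw [h0, mul_zero, zero_div]
    exact ff_of_le zero_le_one
  -- the sum over the box
  have hsum : ∀ m : ℕ, ∑ x : Fin d → ZMod (l * (m + 1)), ∑ k : Fin d → ZMod (l * (m + 1)),
        (((l * (m + 1) : ℕ) : ℝ) ^ d)⁻¹ * ff (s * V (pt l m x) / lam ε ((m : ℝ) + 1) k) ≤
      ∑ κ ∈ Bx, ((l : ℝ) ^ d)⁻¹ * ((∑ x : Fin d → ZMod (l * (m + 1)),
        ff (s * V (pt l m x) / lam ε ((m : ℝ) + 1) (fun j => ((κ j : ℤ) : ZMod (l * (m + 1)))))) /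
          ((m : ℝ) + 1) ^ d) := by
    intro m
    have hm : (0 : ℝ) < (m : ℝ) + 1 := by positivity
    have h1 : ∀ x : Fin d → ZMod (l * (m + 1)), ∑ k : Fin d → ZMod (l * (m + 1)),
        (((l * (m + 1) : ℕ) : ℝ) ^ d)⁻¹ * ff (s * V (pt l m x) / lam ε ((m : ℝ) + 1) k) ≤
        ∑ κ ∈ Bx, (((l * (m + 1) : ℕ) : ℝ) ^ d)⁻¹ *
          ff (s * V (pt l m x) / lam ε ((m : ℝ) + 1) (fun j => ((κ j : ℤ) : ZMod (l * (m + 1))))) := by
      intro x
      rw [hBx]
      refine C3_box K (fun k => (((l * (m + 1) : ℕ) : ℝ) ^ d)⁻¹ *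
        ff (s * V (pt l m x) / lam ε ((m : ℝ) + 1) k)) (fun k => mul_nonneg (by positivity) (ff_nonneg _)) ?_
      intro k hk j
      have hk' : ff (s * V (pt l m x) / lam ε ((m : ℝ) + 1) k) ≠ 0 := by
        intro h0
        apply hk
        simp only [h0, mul_zero]
      have hlow := C1_lower (d := d) (l := l) (m := m) ε k
      have hsq : 0 ≤ ∑ j, (((k j).valMinAbs : ℝ) / l) ^ 2 := Finset.sum_nonneg (fun j _ => sq_nonneg _)
      have hlam0 : 0 < lam ε ((m : ℝ) + 1) k := by linarith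
      have hlt : 1 < s * V (pt l m x) / lam ε ((m : ℝ) + 1) k := by
        by_contra hcon
        exact hk' (ff_of_le (not_lt.1 hcon))
      rw [lt_div_iff₀ hlam0, one_mul] at hlt
      have hΛ2 : s * V (pt l m x) ≤ Λ := by
        rw [hΛ]
        have h3 := hVB (pt l m x)
        have h4 := hV0 (pt l m x)
        nlinarith
      refine C3_int (l := l) _ Λ K hK ?_
      have h5 : (((k j).valMinAbs : ℝ) / l) ^ 2 ≤ ∑ j, (((k j).valMinAbs : ℝ) / l) ^ 2 :=
        Finset.single_le_sum (f := fun j => (((k j).valMinAbs : ℝ) / l) ^ 2) (fun j _ => sq_nonneg _)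
          (Finset.mem_univ j)
      linarith
    refine (Finset.sum_le_sum (fun x _ => h1 x)).trans (le_of_eq ?_)
    rw [Finset.sum_comm]
    refine Finset.sum_congr rfl (fun κ _ => ?_)
    rw [← Finset.mul_sum, div_eq_mul_inv, mul_comm (∑ x : Fin d → ZMod (l * (m + 1)), _) _, ← mul_assoc]
    congr 1
    push_cast
    rw [mul_pow, mul_inv]
  -- comparison with the limit functions
  have hcmp : ∀ κ : Fin d → ℤ, ∀ᶠ m : ℕ in atTop, ∀ y : ℝ, 0 ≤ y →
      ff (s * y / lam ε ((m : ℝ) + 1) (fun j => ((κ j : ℤ) : ZMod (l * (m + 1))))) ≤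
        ff ((s + δ) * y / L κ) := by
    intro κ
    have hlim := C2_lim (d := d) (l := l) ε κ
    rw [← hL κ] at hlim
    have hlt : L κ * (s / (s + δ)) < L κ := by
      have h1 : s / (s + δ) < 1 := by rw [div_lt_one (by linarith)]; linarith
      have h2 := mul_lt_mul_of_pos_left h1 (hL0 κ)
      linarith
    filter_upwards [hlim.eventually (lt_mem_nhds hlt)] with m hm y hy
    apply ff_mono
    have h0 : 0 < L κ * (s / (s + δ)) := mul_pos (hL0 κ) (by positivity)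
    rw [div_le_div_iff₀ (h0.trans hm) (hL0 κ)]
    have h3 : L κ * s ≤ (s + δ) * lam ε ((m : ℝ) + 1) (fun j => ((κ j : ℤ) : ZMod (l * (m + 1)))) := by
      have h4 := mul_le_mul_of_nonneg_left hm.le (show 0 ≤ s + δ by linarith)
      have h5 : (s + δ) * (L κ * (s / (s + δ))) = L κ * s := by field_simp
      linarith
    nlinarith
  have hcmpB : ∀ᶠ m : ℕ in atTop, ∀ κ ∈ Bx, ∀ y : ℝ, 0 ≤ y →
      ff (s * y / lam ε ((m : ℝ) + 1) (fun j => ((κ j : ℤ) : ZMod (l * (m + 1))))) ≤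
        ff ((s + δ) * y / L κ) := by
    rw [Filter.eventually_all_finset]
    exact fun κ _ => hcmp κ
  have hlimB : Tendsto (fun m : ℕ => ∑ κ ∈ Bx, ((l : ℝ) ^ d)⁻¹ * ((∑ x : Fin d → ZMod (l * (m + 1)),
        ff ((s + δ) * V (pt l m x) / L κ)) / ((m : ℝ) + 1) ^ d)) atTop
      (𝓝 (∑ κ ∈ Bx, ((l : ℝ) ^ d)⁻¹ * ∫ x, ff ((s + δ) * V x / L κ))) := by
    refine tendsto_finsetSum _ (fun κ _ => ?_)
    refine Tendsto.const_mul _ ?_
    exact A1_riemann (fun _ => fun x => ff ((s + δ) * V x / L κ)) (fun x => ff ((s + δ) * V x / L κ))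
      (hGc κ) (hGs κ) (fun η hη => Filter.Eventually.of_forall (fun m x => by
        rw [sub_self, abs_zero]; exact hη.le))
  have hA : A ≤ ∑ κ ∈ Bx, ((l : ℝ) ^ d)⁻¹ * ∫ x, ff ((s + δ) * V x / L κ) := by
    refine ge_of_tendsto hlimB ?_
    filter_upwards [h, hcmpB] with m hm hc
    refine hm.trans ((hsum m).trans ?_)
    refine Finset.sum_le_sum (fun κ hκ => ?_)
    refine mul_le_mul_of_nonneg_left ?_ (by positivity)
    refine div_le_div_of_nonneg_right ?_ (by positivity)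
    exact Finset.sum_le_sum (fun x _ => hc κ hκ _ (hV0 _))
  refine hA.trans ?_
  rw [← Finset.mul_sum, div_eq_inv_mul]
  refine mul_le_mul_of_nonneg_left ?_ (by positivity)
  have hcong : (fun k : Fin d → ℤ => ∫ x, ff ((s + δ) * V x / (ε + ∑ j, (2 * Real.pi * (k j / l)) ^ 2))) =
      fun k => ∫ x, ff ((s + δ) * V x / L k) := by
    funext k
    rw [hL k]
  rw [hcong]
  have hzero : ∀ k, k ∉ Bx → ∫ x, ff ((s + δ) * V x / L k) = 0 := by
    intro k hk
    have h1 : ∃ j, k j ∉ Finset.Icc (-(K : ℤ)) K := by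
      by_contra hcon
      push Not at hcon
      apply hk
      rw [hBx]
      exact Fintype.mem_piFinset.2 hcon
    obtain ⟨j, hj⟩ := h1
    have h2 : Λ < ((k j : ℝ) / l) ^ 2 := by
      by_contra hcon
      exact hj (C3_int (l := l) (k j) Λ K hK (not_lt.1 hcon))
    have h3 : Λ ≤ L k := by
      rw [hL k]
      have h4 : (2 * Real.pi * ((k j : ℝ) / l)) ^ 2 ≤ ∑ j, (2 * Real.pi * ((k j : ℝ) / l)) ^ 2 :=
        Finset.single_le_sum (f := fun j => (2 * Real.pi * ((k j : ℝ) / l)) ^ 2) (fun j _ => sq_nonneg _)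
          (Finset.mem_univ j)
      have h5 : ((k j : ℝ) / l) ^ 2 ≤ (2 * Real.pi * ((k j : ℝ) / l)) ^ 2 := by
        rw [mul_pow]
        have h6 : (1 : ℝ) ≤ (2 * Real.pi) ^ 2 := by nlinarith [Real.pi_gt_three]
        nlinarith [sq_nonneg ((k j : ℝ) / l)]
      linarith
    have h7 : (fun x => ff ((s + δ) * V x / L k)) = fun _ => 0 := by
      funext x
      apply ff_of_le
      rw [div_le_one (hL0 k)]
      refine le_trans ?_ h3
      rw [hΛ]
      exact mul_le_mul_of_nonneg_left (hVB x) (by linarith)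
    rw [h7]
    simp
  rw [tsum_eq_sum (s := Bx) (fun k hk => hzero k hk)]

end CLRT
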