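import Pool.Agent.Lib.MP_efa090_mp.CDefs

set_option autoImplicit false

open Filter MeasureTheory Topology

namespace CLRT

/-- Row D. The limit `l → ∞` (the size of the torus). `riemann_tsum` (RS52.lean) for
`F ξ = ∫ x, ff (s * V x / (ε + ∑ j, (2 * π * ξ j)²))`, which is continuous (dominated convergence or
`continuous_parametric_integral_of_continuous`; `ff_continuous`) and zero for `|ξ|` large
(`ff_of_le`). -/
theorem lim_l {d : ℕ} (V : (Fin d → ℝ) → ℝ) (hV : Continuous V) (hV0 : ∀ x, 0 ≤ V x)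
    (hVc : HasCompactSupport V) (ε s A : ℝ) (hε : 0 < ε) (hs : 0 < s) (l₀ : ℕ)
    (h : ∀ l : ℕ, l₀ ≤ l → A ≤
      (∑' k : Fin d → ℤ, ∫ x, ff (s * V x / (ε + ∑ j, (2 * Real.pi * (k j / l)) ^ 2))) /
        (l : ℝ) ^ d) :
    A ≤ ∫ ξ : Fin d → ℝ, ∫ x, ff (s * V x / (ε + ∑ j, (2 * Real.pi * ξ j) ^ 2)) := by
  obtain ⟨B, hB⟩ := hVc.exists_bound_of_continuous hV
  have hsum : ∀ ξ : Fin d → ℝ, 0 ≤ ∑ j, (2 * Real.pi * ξ j) ^ 2 := fun ξ =>
    Finset.sum_nonneg (fun j _ => sq_nonneg _)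
  have hden : ∀ ξ : Fin d → ℝ, 0 < ε + ∑ j, (2 * Real.pi * ξ j) ^ 2 := fun ξ => by
    have := hsum ξ
    linarith
  have hcd : Continuous (fun ξ : Fin d → ℝ => ε + ∑ j, (2 * Real.pi * ξ j) ^ 2) := by fun_prop
  have hb0 : Continuous (fun x => ff (s * V x / ε)) := ff_continuous.comp (by fun_prop)
  have hbc : HasCompactSupport (fun x => ff (s * V x / ε)) := by
    refine hVc.comp_left (g := fun t => ff (s * t / ε)) ?_
    have : s * 0 / ε = 0 := by simp
    rw [this]
    exact ff_of_le (by norm_num)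
  have hbi : Integrable (fun x => ff (s * V x / ε)) := hb0.integrable_of_hasCompactSupport hbc
  have hF : Continuous (fun ξ : Fin d → ℝ => ∫ x, ff (s * V x / (ε + ∑ j, (2 * Real.pi * ξ j) ^ 2))) := by
    refine continuous_of_dominated (bound := fun x => ff (s * V x / ε)) ?_ ?_ hbi ?_
    · intro ξ
      have : Continuous (fun x => ff (s * V x / (ε + ∑ j, (2 * Real.pi * ξ j) ^ 2))) :=
        ff_continuous.comp (by fun_prop)
      exact this.aestronglyMeasurable
    · intro ξ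
      refine Eventually.of_forall (fun x => ?_)
      rw [Real.norm_eq_abs, abs_of_nonneg (ff_nonneg _)]
      refine ff_mono ?_
      have h1 : 0 ≤ s * V x := mul_nonneg hs.le (hV0 x)
      have h2 := hsum ξ
      exact div_le_div_of_nonneg_left h1 hε (by linarith)
    · refine Eventually.of_forall (fun x => ?_)
      exact ff_continuous.comp (continuous_const.div hcd (fun ξ => (hden ξ).ne'))
  obtain ⟨R, hR⟩ := exists_nat_ge (max 1 (s * B))
  have hR1 : (1 : ℝ) ≤ R := (le_max_left _ _).trans hR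
  have hR2 : s * B ≤ R := (le_max_right _ _).trans hR
  have hsupp : ∀ ξ : Fin d → ℝ, (∫ x, ff (s * V x / (ε + ∑ j, (2 * Real.pi * ξ j) ^ 2))) ≠ 0 →
      ∀ i, |ξ i| < R := by
    intro ξ hne i
    by_contra hcon
    rw [not_lt] at hcon
    apply hne
    have hz : ∀ x, ff (s * V x / (ε + ∑ j, (2 * Real.pi * ξ j) ^ 2)) = 0 := by
      intro x
      refine ff_of_le ?_
      rw [div_le_one (hden ξ)]
      have h1 : V x ≤ B := (le_abs_self _).trans (hB x)
      have h2 : s * V x ≤ R := (mul_le_mul_of_nonneg_left h1 hs.le).trans hR2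
      have h3 : (2 * Real.pi * ξ i) ^ 2 ≤ ∑ j, (2 * Real.pi * ξ j) ^ 2 :=
        Finset.single_le_sum (f := fun j => (2 * Real.pi * ξ j) ^ 2) (fun j _ => sq_nonneg _) (Finset.mem_univ i)
      have h4 : (R : ℝ) ≤ |ξ i| ^ 2 := by nlinarith
      have h5 : |ξ i| ^ 2 ≤ (2 * Real.pi * ξ i) ^ 2 := by
        have hpi := Real.pi_gt_three
        rw [sq_abs, mul_pow]
        have h6 : 1 ≤ (2 * Real.pi) ^ 2 := by nlinarith
        nlinarith [sq_nonneg (ξ i)]
      linarith
    simp only [hz, integral_zero]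
  have T := riemann_tsum R _ hF hsupp
  exact ge_of_tendsto T ((eventually_ge_atTop l₀).mono (fun l hl => h l hl))

end CLRT
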