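import Pool.Agent.Lib.MP_efa090_mp.CDefs

/-! Row E of the CLR bound: the momentum integral and the phase space integral. -/

set_option autoImplicit false

open MeasureTheory Filter Topology

namespace CLRT

/-- Euclidean space. -/
abbrev E_Ed (d : ℕ) := EuclideanSpace ℝ (Fin d)

/-- The classical constant. -/
noncomputable def E_Lcl (d : ℕ) : ℝ := (4 * Real.pi) ^ (-(d : ℝ) / 2) / Real.Gamma (1 + (d : ℝ) / 2)


/-- The radial integrand. -/
lemma E_radial_val {n : ℕ} {r : ℝ} (h0 : 0 < r) (h1 : r ≤ 1) :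
    r ^ (n + 2) * ff (1 / r ^ 2) = r ^ n + 4 * r ^ (n + 1) * (r * Real.log r) - r ^ (n + 4) := by
  have h2 : 1 ≤ 1 / r ^ 2 := by
    rw [le_div_iff₀ (by positivity)]
    nlinarith
  rw [ff_of_ge h2, one_div, Real.log_inv, Real.log_pow]
  have h3 : r ≠ 0 := h0.ne'
  rw [one_div, inv_inv]
  push_cast
  field_simp
  ring

lemma E_radial_zero {r : ℝ} (h1 : 1 ≤ r) : ff (1 / r ^ 2) = 0 := by
  apply ff_of_le
  rw [div_le_one (by positivity)]
  nlinarith

lemma E_cont_int (n : ℕ) : Continuous fun r : ℝ =>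
    r ^ n + 4 * r ^ (n + 1) * (r * Real.log r) - r ^ (n + 4) := by
  have := Real.continuous_mul_log
  fun_prop

/-- The one dimensional integral. -/
lemma E_radial_int (n : ℕ) :
    ∫ r in (0 : ℝ)..1, (r ^ n + 4 * r ^ (n + 1) * (r * Real.log r) - r ^ (n + 4)) =
      1 / (n + 1) - 4 / (n + 3) ^ 2 - 1 / (n + 5) := by
  have hml := Real.continuous_mul_log
  have h := intervalIntegral.integral_eq_sub_of_hasDerivAt_of_le (a := 0) (b := 1)
    (f := fun r : ℝ => r ^ (n + 1) / (n + 1) +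
      4 * (r ^ (n + 2) * (r * Real.log r) / (n + 3) - r ^ (n + 3) / (n + 3) ^ 2) -
        r ^ (n + 5) / (n + 5))
    (f' := fun r : ℝ => r ^ n + 4 * r ^ (n + 1) * (r * Real.log r) - r ^ (n + 4))
    (by norm_num) (by fun_prop) ?_ ((E_cont_int n).intervalIntegrable _ _)
  · rw [h]
    simp
    ring
  · intro r hr
    have hr0 : r ≠ 0 := hr.1.ne'
    have d1 : HasDerivAt (fun r : ℝ => r ^ (n + 1)) (((n + 1 : ℕ) : ℝ) * r ^ n) r := by
      simpa using hasDerivAt_pow (n + 1) r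
    have d2 : HasDerivAt (fun r : ℝ => r ^ (n + 3)) (((n + 3 : ℕ) : ℝ) * r ^ (n + 2)) r := by
      simpa using hasDerivAt_pow (n + 3) r
    have d3 : HasDerivAt (fun r : ℝ => r ^ (n + 5)) (((n + 5 : ℕ) : ℝ) * r ^ (n + 4)) r := by
      simpa using hasDerivAt_pow (n + 5) r
    have d4 := d2.mul (Real.hasDerivAt_log hr0)
    have d5 := ((d1.div_const ((n : ℝ) + 1)).add
      (((d4.div_const ((n : ℝ) + 3)).sub (d2.div_const (((n : ℝ) + 3) ^ 2))).const_mul 4)).sub
        (d3.div_const ((n : ℝ) + 5))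
    have e1 : (n : ℝ) + 1 ≠ 0 := by positivity
    have e3 : (n : ℝ) + 3 ≠ 0 := by positivity
    have e5 : (n : ℝ) + 5 ≠ 0 := by positivity
    refine (d5.congr_deriv ?_).congr_of_eventuallyEq (Eventually.of_forall fun z => ?_)
    · push_cast
      field_simp
      ring
    · simp only [Pi.mul_apply, Pi.add_apply, Pi.sub_apply]
      ring

/-- Integrability of the radial integrand on the half line. -/
lemma E_radial_intOn (n : ℕ) :
    IntegrableOn (fun r : ℝ => r ^ (n + 2) • ff (1 / r ^ 2)) (Set.Ioi 0) := by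
  have h1 : IntegrableOn (fun r : ℝ => r ^ (n + 2) • ff (1 / r ^ 2)) (Set.Ioc 0 1) := by
    have h2 := ((E_cont_int n).intervalIntegrable (μ := volume) 0 1).1
    refine h2.congr_fun ?_ measurableSet_Ioc
    intro r hr
    simp only [smul_eq_mul]
    rw [E_radial_val hr.1 hr.2]
  have h2 : IntegrableOn (fun r : ℝ => r ^ (n + 2) • ff (1 / r ^ 2)) (Set.Ioi 1) := by
    refine (integrableOn_zero (μ := volume)).congr_fun ?_ measurableSet_Ioi
    intro r hr
    simp only [smul_eq_mul]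
    rw [E_radial_zero (le_of_lt hr), mul_zero]
  have h3 := h1.union h2
  rwa [Set.Ioc_union_Ioi_eq_Ioi (by norm_num)] at h3

lemma E_radial_total (n : ℕ) :
    ∫ r in Set.Ioi (0 : ℝ), r ^ (n + 2) • ff (1 / r ^ 2) =
      1 / (n + 1) - 4 / (n + 3) ^ 2 - 1 / (n + 5) := by
  rw [← Set.Ioc_union_Ioi_eq_Ioi (show (0 : ℝ) ≤ 1 by norm_num)]
  rw [setIntegral_union (Set.Ioc_disjoint_Ioi le_rfl) measurableSet_Ioi
    ((E_radial_intOn n).mono_set Set.Ioc_subset_Ioi_self)
    ((E_radial_intOn n).mono_set (Set.Ioi_subset_Ioi (by norm_num)))]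
  have h2 : ∫ r in Set.Ioi (1 : ℝ), r ^ (n + 2) • ff (1 / r ^ 2) = 0 := by
    apply setIntegral_eq_zero_of_forall_eq_zero
    intro r hr
    simp only [smul_eq_mul]
    rw [E_radial_zero (le_of_lt hr), mul_zero]
  rw [h2, add_zero, ← E_radial_int n, intervalIntegral.integral_of_le (by norm_num)]
  apply setIntegral_congr_fun measurableSet_Ioc
  intro r hr
  simp only [smul_eq_mul]
  rw [E_radial_val hr.1 hr.2]

/-- The momentum integral. -/
lemma E_mom_int {d : ℕ} (hd : 3 ≤ d) :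
    Integrable (fun ξ : E_Ed d => ff (1 / ‖ξ‖ ^ 2)) ∧
    ∫ ξ : E_Ed d, ff (1 / ‖ξ‖ ^ 2) = (2 * Real.pi) ^ (d : ℝ) * E_Lcl d *
      (2 / ((d : ℝ) / 2 * (((d : ℝ) / 2) ^ 2 - 1))) := by
  obtain ⟨n, rfl⟩ : ∃ n, d = n + 3 := ⟨d - 3, by omega⟩
  have hfr : Module.finrank ℝ (E_Ed (n + 3)) = n + 3 := by simp
  constructor
  · rw [integrable_fun_norm_addHaar volume (f := fun r : ℝ => ff (1 / r ^ 2)), hfr]
    exact E_radial_intOn n
  · rw [integral_fun_norm_addHaar volume (fun r : ℝ => ff (1 / r ^ 2)), hfr]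
    have h1 : n + 3 - 1 = n + 2 := by omega
    rw [h1, E_radial_total n]
    have hvol : (volume : Measure (E_Ed (n + 3))).real (Metric.ball 0 1) =
        Real.sqrt Real.pi ^ (n + 3) / Real.Gamma (((n + 3 : ℕ) : ℝ) / 2 + 1) := by
      rw [Measure.real, EuclideanSpace.volume_ball]
      simp only [ENNReal.ofReal_one, one_pow, one_mul, Fintype.card_fin]
      rw [ENNReal.toReal_ofReal]
      have : 0 < Real.Gamma (((n + 3 : ℕ) : ℝ) / 2 + 1) := Real.Gamma_pos_of_pos (by positivity)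
      positivity
    rw [hvol]
    unfold E_Lcl
    have hG : Real.Gamma (((n + 3 : ℕ) : ℝ) / 2 + 1) ≠ 0 :=
      (Real.Gamma_pos_of_pos (by positivity)).ne'
    have hpi := Real.pi_pos
    rw [add_comm (1 : ℝ) (((n + 3 : ℕ) : ℝ) / 2)]
    have e1 : (2 * Real.pi) ^ (((n + 3 : ℕ) : ℝ)) * (4 * Real.pi) ^ (-(((n + 3 : ℕ) : ℝ)) / 2) =
        Real.sqrt Real.pi ^ (n + 3) := by
      have e2 : (4 * Real.pi) ^ (-(((n + 3 : ℕ) : ℝ)) / 2) =
          ((2 * Real.sqrt Real.pi) ^ (n + 3))⁻¹ := by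
        have e3 : (4 * Real.pi) = (2 * Real.sqrt Real.pi) ^ (2 : ℝ) := by
          rw [Real.rpow_two, mul_pow, Real.sq_sqrt hpi.le]
          norm_num
        rw [e3, ← Real.rpow_mul (by positivity)]
        have e4 : (2 : ℝ) * (-(((n + 3 : ℕ) : ℝ)) / 2) = -(((n + 3 : ℕ) : ℝ)) := by ring
        rw [e4, Real.rpow_neg (by positivity), Real.rpow_natCast]
      rw [e2, Real.rpow_natCast]
      have e5 : (2 * Real.pi) ^ (n + 3) = (2 * Real.sqrt Real.pi) ^ (n + 3) *
          Real.sqrt Real.pi ^ (n + 3) := by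
        rw [← mul_pow]
        congr 1
        have := Real.mul_self_sqrt hpi.le
        nlinarith
      rw [e5]
      field_simp
    have e6 : (2 * Real.pi) ^ (((n + 3 : ℕ) : ℝ)) *
        ((4 * Real.pi) ^ (-(((n + 3 : ℕ) : ℝ)) / 2) / Real.Gamma (((n + 3 : ℕ) : ℝ) / 2 + 1)) =
        Real.sqrt Real.pi ^ (n + 3) / Real.Gamma (((n + 3 : ℕ) : ℝ) / 2 + 1) := by
      rw [← e1]
      ring
    rw [e6]
    simp only [nsmul_eq_mul, smul_eq_mul]
    push_cast
    have f1 : (n : ℝ) + 1 ≠ 0 := by positivity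
    have f3 : (n : ℝ) + 3 ≠ 0 := by positivity
    have f5 : (n : ℝ) + 5 ≠ 0 := by positivity
    have f6 : (((n : ℝ) + 3) / 2) ^ 2 - 1 ≠ 0 := by
      have : (0 : ℝ) ≤ n := by positivity
      nlinarith
    have f7 : (((n : ℝ) + 3) / 2) ^ 2 - 1 = ((n : ℝ) + 1) * ((n : ℝ) + 5) / 4 := by ring
    rw [f7]
    field_simp
    ring



/-- Scaling of the momentum integral. -/
lemma E_mom_scale {d : ℕ} (hd : 3 ≤ d) {w : ℝ} (hw : 0 < w) :
    Integrable (fun ξ : E_Ed d => ff (w / ‖ξ‖ ^ 2)) ∧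
    ∫ ξ : E_Ed d, ff (w / ‖ξ‖ ^ 2) = w ^ ((d : ℝ) / 2) * ∫ ξ : E_Ed d, ff (1 / ‖ξ‖ ^ 2) := by
  have hs : 0 < Real.sqrt w := Real.sqrt_pos.mpr hw
  have he : ∀ ξ : E_Ed d, ff (w / ‖ξ‖ ^ 2) = ff (1 / ‖(Real.sqrt w)⁻¹ • ξ‖ ^ 2) := by
    intro ξ
    congr 1
    rw [norm_smul, Real.norm_eq_abs, abs_of_pos (inv_pos.mpr hs), mul_pow, inv_pow,
      Real.sq_sqrt hw.le]
    rw [one_div, mul_inv, inv_inv]
    rfl
  constructor
  · have h1 := (E_mom_int hd).1
    have h2 := h1.comp_smul (μ := volume) (R := (Real.sqrt w)⁻¹) (inv_pos.mpr hs).ne'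
    exact h2.congr (Eventually.of_forall fun ξ => (he ξ).symm)
  · have h3 := Measure.integral_comp_smul (volume : Measure (E_Ed d))
      (fun ξ : E_Ed d => ff (1 / ‖ξ‖ ^ 2)) (Real.sqrt w)⁻¹
    rw [integral_congr_ae (Eventually.of_forall he), h3]
    have h4 : |(((Real.sqrt w)⁻¹) ^ Module.finrank ℝ (E_Ed d))⁻¹| = w ^ ((d : ℝ) / 2) := by
      rw [finrank_euclideanSpace, Fintype.card_fin, inv_pow, inv_inv, abs_of_pos (by positivity)]
      rw [Real.sqrt_eq_rpow, ← Real.rpow_natCast, ← Real.rpow_mul hw.le]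
      congr 1
      ring
    rw [h4, smul_eq_mul]

/-- Bound of the momentum integral with a mass. -/
lemma E_mom_mass {d : ℕ} (hd : 3 ≤ d) {w ε : ℝ} (hw : 0 ≤ w) (hε : 0 < ε) :
    ∫ ξ : E_Ed d, ff (w / (ε + ‖ξ‖ ^ 2)) ≤ w ^ ((d : ℝ) / 2) * ∫ ξ : E_Ed d, ff (1 / ‖ξ‖ ^ 2) := by
  rcases hw.eq_or_lt with hw0 | hw0
  · rw [← hw0]
    have hd0 : (d : ℝ) / 2 ≠ 0 := by
      have : (3 : ℝ) ≤ d := by exact_mod_cast hd
      positivity
    rw [Real.zero_rpow hd0, zero_mul]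
    have : ∀ ξ : E_Ed d, ff (0 / (ε + ‖ξ‖ ^ 2)) = 0 := by
      intro ξ
      rw [zero_div]
      exact ff_of_le (by norm_num)
    rw [integral_congr_ae (Eventually.of_forall this)]
    simp
  · rw [← (E_mom_scale hd hw0).2]
    apply integral_mono_of_nonneg
    · exact Eventually.of_forall fun ξ => ff_nonneg _
    · exact (E_mom_scale hd hw0).1
    · have hne : ∀ᵐ ξ : E_Ed d, ξ ≠ 0 := by
        have : Nontrivial (E_Ed d) := by
          have h3 : 0 < Module.finrank ℝ (E_Ed d) := by simp; omega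
          exact Module.nontrivial_of_finrank_pos h3
        exact Measure.ae_ne volume 0
      filter_upwards [hne] with ξ hξ
      apply ff_mono
      have h1 : 0 < ‖ξ‖ ^ 2 := by
        have := norm_pos_iff.mpr hξ
        positivity
      exact div_le_div_of_nonneg_left hw0.le h1 (by linarith)

lemma ff_pos {s : ℝ} (hs : 1 < s) : 0 < ff s := by
  rw [ff_of_ge hs.le]
  have h0 : 0 < s := by linarith
  have h1 : 0 < Real.log s := Real.log_pos hs
  have h2 := Real.self_lt_sinh_iff.mpr h1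
  rw [Real.sinh_eq, Real.exp_neg, Real.exp_log h0] at h2
  rw [one_div]
  linarith


/-- The momentum integral in coordinates. -/
lemma E_mom_coord {d : ℕ} (hd : 3 ≤ d) {w ε : ℝ} (hw : 0 ≤ w) (hε : 0 < ε) :
    ∫ ξ : Fin d → ℝ, ff (w / (ε + ∑ j, (2 * Real.pi * ξ j) ^ 2)) ≤ w ^ ((d : ℝ) / 2) * Cd d := by
  have hpi := Real.pi_pos
  have e1 : ∫ ξ : Fin d → ℝ, ff (w / (ε + ∑ j, (2 * Real.pi * ξ j) ^ 2)) =
      ∫ ξ : E_Ed d, ff (w / (ε + ‖(2 * Real.pi) • ξ‖ ^ 2)) := by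
    rw [← (PiLp.volume_preserving_ofLp (Fin d)).integral_comp
      (MeasurableEquiv.toLp 2 (Fin d → ℝ)).symm.measurableEmbedding]
    refine integral_congr_ae (Eventually.of_forall fun ξ => ?_)
    simp only
    congr 3
    rw [EuclideanSpace.norm_sq_eq]
    refine Finset.sum_congr rfl fun j _ => ?_
    rw [Real.norm_eq_abs, sq_abs]
    rfl
  rw [e1, Measure.integral_comp_smul (volume : Measure (E_Ed d))
      (fun ξ : E_Ed d => ff (w / (ε + ‖ξ‖ ^ 2))) (2 * Real.pi)]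
  rw [finrank_euclideanSpace, Fintype.card_fin, abs_of_pos (by positivity), smul_eq_mul]
  have h1 := E_mom_mass hd hw hε
  rw [(E_mom_int hd).2] at h1
  have h2 : (0 : ℝ) ≤ ((2 * Real.pi) ^ d)⁻¹ := by positivity
  refine (mul_le_mul_of_nonneg_left h1 h2).trans (le_of_eq ?_)
  rw [Real.rpow_natCast]
  have h3 : (2 * Real.pi) ^ d ≠ 0 := by positivity
  have hd3 : (3 : ℝ) ≤ d := by exact_mod_cast hd
  have hd0 : (d : ℝ) ≠ 0 := by positivity
  have h4 : (2 / ((d : ℝ) / 2 * (((d : ℝ) / 2) ^ 2 - 1))) = 16 / (d * ((d : ℝ) ^ 2 - 4)) := by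
    have h5 : ((d : ℝ) / 2) ^ 2 - 1 = ((d : ℝ) ^ 2 - 4) / 4 := by ring
    have h6 : (d : ℝ) ^ 2 - 4 ≠ 0 := by nlinarith
    rw [h5]
    field_simp
    norm_num
  rw [h4]
  unfold Cd E_Lcl
  field_simp

/-- The integrand is integrable on the phase space. -/
lemma E_ps_integrable {d : ℕ} (V : (Fin d → ℝ) → ℝ) (hV : Continuous V)
    (hVc : HasCompactSupport V) (ε : ℝ) (hε : 0 < ε) (s : ℝ) :
    Integrable (Function.uncurry fun (ξ x : Fin d → ℝ) =>
      ff (s * V x / (ε + ∑ j, (2 * Real.pi * ξ j) ^ 2)))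
      ((volume : Measure (Fin d → ℝ)).prod (volume : Measure (Fin d → ℝ))) := by
  have hpos : ∀ ξ : Fin d → ℝ, (0 : ℝ) < ε + ∑ j, (2 * Real.pi * ξ j) ^ 2 := fun ξ => by
    have : 0 ≤ ∑ j, (2 * Real.pi * ξ j) ^ 2 := Finset.sum_nonneg fun j _ => by positivity
    linarith
  have hcont : Continuous (Function.uncurry fun (ξ x : Fin d → ℝ) =>
      ff (s * V x / (ε + ∑ j, (2 * Real.pi * ξ j) ^ 2))) := by
    refine ff_continuous.comp ?_
    refine Continuous.div ?_ ?_ ?_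
    · exact continuous_const.mul (hV.comp continuous_snd)
    · refine continuous_const.add (continuous_finsetSum _ fun j _ => ?_)
      exact (continuous_const.mul ((continuous_apply j).comp continuous_fst)).pow 2
    · rintro ⟨ξ, x⟩
      exact (hpos ξ).ne'
  obtain ⟨C, hC⟩ := hVc.exists_bound_of_continuous hV
  have hcs : HasCompactSupport (Function.uncurry fun (ξ x : Fin d → ℝ) =>
      ff (s * V x / (ε + ∑ j, (2 * Real.pi * ξ j) ^ 2))) := by
    apply HasCompactSupport.intro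
      (K := Metric.closedBall (0 : Fin d → ℝ) (|s| * |C| + 1) ×ˢ tsupport V)
      ((isCompact_closedBall _ _).prod hVc)
    rintro ⟨ξ, x⟩ hx
    simp only [Function.uncurry_apply_pair]
    apply ff_of_le
    rw [div_le_one (hpos ξ)]
    by_cases hxW : x ∈ tsupport V
    · have hξ : ξ ∉ Metric.closedBall (0 : Fin d → ℝ) (|s| * |C| + 1) := fun h => hx ⟨h, hxW⟩
      rw [mem_closedBall_zero_iff, pi_norm_le_iff_of_nonneg (by positivity)] at hξ
      push Not at hξ
      obtain ⟨j, hj⟩ := hξ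
      rw [Real.norm_eq_abs] at hj
      have h1 : s * V x ≤ |s| * |C| := by
        calc s * V x ≤ |s * V x| := le_abs_self _
          _ = |s| * |V x| := abs_mul _ _
          _ ≤ |s| * |C| := by
            apply mul_le_mul_of_nonneg_left _ (abs_nonneg _)
            exact (hC x).trans (le_abs_self _)
      have h2 : 0 ≤ |s| * |C| := by positivity
      have h3 : (2 * Real.pi * ξ j) ^ 2 ≤ ∑ j, (2 * Real.pi * ξ j) ^ 2 :=
        Finset.single_le_sum (f := fun j => (2 * Real.pi * ξ j) ^ 2)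
          (fun i _ => sq_nonneg _) (Finset.mem_univ j)
      have h4 : ξ j ^ 2 ≤ (2 * Real.pi * ξ j) ^ 2 := by
        have h5 : (1 : ℝ) ≤ (2 * Real.pi) ^ 2 := by nlinarith [Real.pi_gt_three]
        rw [mul_pow]
        nlinarith [sq_nonneg (ξ j)]
      have h6 : |s| * |C| ≤ ξ j ^ 2 := by
        rw [← sq_abs]
        nlinarith [abs_nonneg (ξ j)]
      linarith
    · rw [image_eq_zero_of_notMem_tsupport hxW, mul_zero]
      exact (hpos ξ).le
  rw [← Measure.volume_eq_prod]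
  exact hcont.integrable_of_hasCompactSupport hcs

/-- Row E. -/
theorem int_bound {d : ℕ} (hd : 3 ≤ d) (V : (Fin d → ℝ) → ℝ) (hV : Continuous V)
    (hV0 : ∀ x, 0 ≤ V x) (hVc : HasCompactSupport V) (ε s : ℝ) (hε : 0 < ε) (hs : 0 < s) :
    ∫ ξ : Fin d → ℝ, ∫ x, ff (s * V x / (ε + ∑ j, (2 * Real.pi * ξ j) ^ 2)) ≤
      Cd d * s ^ ((d : ℝ) / 2) * ∫ x, V x ^ ((d : ℝ) / 2) := by
  have hd0 : (0 : ℝ) < (d : ℝ) / 2 := by
    have : (3 : ℝ) ≤ d := by exact_mod_cast hd
    positivity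
  have hint := E_ps_integrable V hV hVc ε hε s
  have hWp : Integrable (fun x => V x ^ ((d : ℝ) / 2)) := by
    apply Continuous.integrable_of_hasCompactSupport
    · exact hV.rpow_const fun x => Or.inr hd0.le
    · apply HasCompactSupport.intro hVc
      intro x hx
      rw [image_eq_zero_of_notMem_tsupport hx, Real.zero_rpow hd0.ne']
  rw [integral_integral_swap hint, ← integral_const_mul]
  apply integral_mono_of_nonneg
  · exact Eventually.of_forall fun x => integral_nonneg fun ξ => ff_nonneg _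
  · exact hWp.const_mul _
  · refine Eventually.of_forall fun x => ?_
    have h2 := E_mom_coord hd (w := s * V x) (mul_nonneg hs.le (hV0 x)) hε
    refine h2.trans (le_of_eq ?_)
    rw [Real.mul_rpow hs.le (hV0 x)]
    ring

end CLRT
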