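import Pool.Agent.Lib.MP_efa090_mp.C_A7
import Pool.Agent.Lib.MP_efa090_mp.C_C3
import Pool.Agent.Lib.MP_efa090_mp.C_D
import Pool.Agent.Lib.MP_efa090_mp.C_E

set_option autoImplicit false

open Filter MeasureTheory Topology

namespace CLRT

lemma B_lam_pos {d M : ℕ} [NeZero M] {ε : ℝ} (hε : 0 < ε) (m : ℝ) (k : Fin d → ZMod M) :
    0 < lam ε m k := by
  unfold lam
  have : 0 ≤ m ^ 2 * ∑ j, ‖ZMod.stdAddChar (k j) - 1‖ ^ 2 := by positivity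
  linarith

/-- Row B. The count on the grid. -/
theorem grid_count {d l N : ℕ} [NeZero l] (b : Fin N → (Fin d → ℝ) → ℝ) (V : (Fin d → ℝ) → ℝ)
    (ε : ℝ) (hε : 0 < ε) (hb : ∀ n, ContDiff ℝ 1 (b n))
    (hbs : ∀ n x, b n x ≠ 0 → ∀ i, 1 ≤ x i ∧ x i ≤ (l : ℝ) - 1)
    (hV : Continuous V) (hV0 : ∀ x, 0 ≤ V x) (hVs : ∀ x, V x ≠ 0 → ∀ i, 0 ≤ x i ∧ x i < l)
    (h : ∀ c : Fin N → ℝ, c ≠ 0 →
      ε * (∫ x, (∑ n, c n * b n x) ^ 2) + ∑ j, ∫ x, (∑ n, c n * pd j (b n) x) ^ 2 <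
        ∫ x, V x * (∑ n, c n * b n x) ^ 2) (s : ℝ) (hs : 1 ≤ s) :
    ∀ᶠ m : ℕ in atTop, (N : ℝ) * ff s ≤
      ∑ x : Fin d → ZMod (l * (m + 1)), ∑ k : Fin d → ZMod (l * (m + 1)),
        (((l * (m + 1) : ℕ) : ℝ) ^ d)⁻¹ * ff (s * V (pt l m x) / lam ε ((m : ℝ) + 1) k) := by
  classical
  filter_upwards [disc b V ε hε hb hbs hV hVs h] with m hm
  obtain ⟨S, hS1, hS2⟩ := hm
  have h1 := matrix_count (fun x => V (pt l m x)) (fun k => lam ε ((m : ℝ) + 1) k)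
    (fun x => hV0 _) (fun k => B_lam_pos hε _ k) (UM d (l * (m + 1))) UM_unitary S hS2 s hs
  rw [hS1] at h1
  refine h1.trans (le_of_eq ?_)
  refine Finset.sum_congr rfl (fun x _ => Finset.sum_congr rfl (fun k _ => ?_))
  rw [UM_norm]

/-- Row F. The count for continuous `V`. -/
theorem count_cont {d N : ℕ} (hd : 3 ≤ d) (b : Fin N → (Fin d → ℝ) → ℝ)
    (hb : ∀ n, ContDiff ℝ 1 (b n)) (hbc : ∀ n, HasCompactSupport (b n))
    (V : (Fin d → ℝ) → ℝ) (hV : Continuous V) (hV0 : ∀ x, 0 ≤ V x) (hVc : HasCompactSupport V)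
    (ε : ℝ) (hε : 0 < ε)
    (h : ∀ c : Fin N → ℝ, c ≠ 0 →
      ε * (∫ x, (∑ n, c n * b n x) ^ 2) + ∑ j, ∫ x, (∑ n, c n * pd j (b n) x) ^ 2 <
        ∫ x, V x * (∑ n, c n * b n x) ^ 2) (s : ℝ) (hs : 1 ≤ s) :
    (N : ℝ) * ff s ≤ Cd d * s ^ ((d : ℝ) / 2) * ∫ x, V x ^ ((d : ℝ) / 2) := by
  -- a radius
  obtain ⟨R, hR0, hRV, hRb⟩ : ∃ R : ℕ, 0 < R ∧ (∀ x, V x ≠ 0 → ∀ i, |x i| ≤ R) ∧
      ∀ n x, b n x ≠ 0 → ∀ i, |x i| ≤ R := by
    have key : ∀ f : (Fin d → ℝ) → ℝ, HasCompactSupport f →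
        ∃ R : ℝ, ∀ x, f x ≠ 0 → ∀ i, |x i| ≤ R := by
      intro f hf
      obtain ⟨R, hR⟩ := hf.isCompact.isBounded.exists_norm_le
      refine ⟨R, fun x hx i => ?_⟩
      have h1 := hR x (subset_tsupport f hx)
      exact (norm_le_pi_norm x i).trans h1
    obtain ⟨R₁, hR₁⟩ := key V hVc
    choose R₂ hR₂ using fun n => key (b n) (hbc n)
    obtain ⟨R, hR⟩ := exists_nat_gt (max R₁ (∑ n, |R₂ n|))
    refine ⟨R + 1, Nat.succ_pos _, fun x hx i => ?_, fun n x hx i => ?_⟩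
    · have := hR₁ x hx i
      have h2 := (le_max_left R₁ (∑ n, |R₂ n|)).trans hR.le
      push_cast
      linarith
    · have := hR₂ n x hx i
      have h2 := (le_max_right R₁ (∑ n, |R₂ n|)).trans hR.le
      have h3 : |R₂ n| ≤ ∑ n, |R₂ n| :=
        Finset.single_le_sum (f := fun n => |R₂ n|) (fun _ _ => abs_nonneg _) (Finset.mem_univ n)
      have h4 := le_abs_self (R₂ n)
      push_cast
      linarith
  -- the translated functions
  set a : Fin d → ℝ := fun _ => (R : ℝ) + 1 with ha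
  set b' : Fin N → (Fin d → ℝ) → ℝ := fun n x => b n (x - a) with hb'
  set V' : (Fin d → ℝ) → ℝ := fun x => V (x - a) with hV'
  have hb'1 : ∀ n, ContDiff ℝ 1 (b' n) := fun n => (hb n).comp (contDiff_id.sub contDiff_const)
  have hV'c : Continuous V' := hV.comp (continuous_id.sub continuous_const)
  have hV'0 : ∀ x, 0 ≤ V' x := fun x => hV0 _
  have hsub : ∀ f : (Fin d → ℝ) → ℝ, ∫ x, f (x - a) = ∫ x, f x := fun f =>
    integral_sub_right_eq_self f a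
  have hpd : ∀ j n x, pd j (b' n) x = pd j (b n) (x - a) := by
    intro j n x
    unfold pd
    rw [hb']
    simp only
    rw [fderiv_comp_sub]
  have hb's : ∀ n x, b' n x ≠ 0 → ∀ i, 1 ≤ x i ∧ x i ≤ 2 * (R : ℝ) + 1 := by
    intro n x hx i
    have h1 := abs_le.1 (hRb n _ hx i)
    simp only [ha, Pi.sub_apply] at h1
    constructor <;> linarith [h1.1, h1.2]
  have hV's : ∀ x, V' x ≠ 0 → ∀ i, 1 ≤ x i ∧ x i ≤ 2 * (R : ℝ) + 1 := by
    intro x hx i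
    have h1 := abs_le.1 (hRV _ hx i)
    simp only [ha, Pi.sub_apply] at h1
    constructor <;> linarith [h1.1, h1.2]
  have h' : ∀ c : Fin N → ℝ, c ≠ 0 →
      ε * (∫ x, (∑ n, c n * b' n x) ^ 2) + ∑ j, ∫ x, (∑ n, c n * pd j (b' n) x) ^ 2 <
        ∫ x, V' x * (∑ n, c n * b' n x) ^ 2 := by
    intro c hc
    have e1 : ∫ x, (∑ n, c n * b' n x) ^ 2 = ∫ x, (∑ n, c n * b n x) ^ 2 :=
      hsub (fun x => (∑ n, c n * b n x) ^ 2)
    have e2 : ∀ j, ∫ x, (∑ n, c n * pd j (b' n) x) ^ 2 = ∫ x, (∑ n, c n * pd j (b n) x) ^ 2 := by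
      intro j
      simp only [hpd]
      exact hsub (fun x => (∑ n, c n * pd j (b n) x) ^ 2)
    have e3 : ∫ x, V' x * (∑ n, c n * b' n x) ^ 2 = ∫ x, V x * (∑ n, c n * b n x) ^ 2 :=
      hsub (fun x => V x * (∑ n, c n * b n x) ^ 2)
    rw [e1, e3, Finset.sum_congr rfl (fun j _ => e2 j)]
    exact h c hc
  have hV'cs : HasCompactSupport V' := by
    refine HasCompactSupport.intro
      (K := Set.pi Set.univ (fun _ : Fin d => Set.Icc (1 : ℝ) (2 * (R : ℝ) + 1)))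
      (isCompact_univ_pi (fun _ => isCompact_Icc)) ?_
    intro x hx
    by_contra hne
    exact hx (fun i _ => hV's x hne i)
  have hs0 : 0 < s := lt_of_lt_of_le one_pos hs
  -- the bound with `s + δ`
  have hmain : ∀ δ : ℝ, 0 < δ → (N : ℝ) * ff s ≤
      Cd d * (s + δ) ^ ((d : ℝ) / 2) * ∫ x, V x ^ ((d : ℝ) / 2) := by
    intro δ hδ
    have h1 : ∀ l : ℕ, 2 * R + 2 ≤ l → (N : ℝ) * ff s ≤
        (∑' k : Fin d → ℤ, ∫ x, ff ((s + δ) * V' x /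
          (ε + ∑ j, (2 * Real.pi * (k j / l)) ^ 2))) / (l : ℝ) ^ d := by
      intro l hl
      have : NeZero l := ⟨by omega⟩
      have hl' : 2 * (R : ℝ) + 2 ≤ l := by exact_mod_cast hl
      have hbs : ∀ n x, b' n x ≠ 0 → ∀ i, 1 ≤ x i ∧ x i ≤ (l : ℝ) - 1 := fun n x hx i =>
        ⟨(hb's n x hx i).1, by linarith [(hb's n x hx i).2]⟩
      have hVs : ∀ x, V' x ≠ 0 → ∀ i, 0 ≤ x i ∧ x i < l := fun x hx i =>
        ⟨by linarith [(hV's x hx i).1], by linarith [(hV's x hx i).2]⟩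
      exact lim_m V' hV'c hV'0 hVs ε s δ _ hε hs0 hδ
        (grid_count b' V' ε hε hb'1 hbs hV'c hV'0 hVs h' s hs)
    have h2 := lim_l V' hV'c hV'0 hV'cs ε (s + δ) _ hε (by linarith) _ h1
    have h3 := int_bound hd V' hV'c hV'0 hV'cs ε (s + δ) hε (by linarith)
    have h4 : ∫ x, V' x ^ ((d : ℝ) / 2) = ∫ x, V x ^ ((d : ℝ) / 2) :=
      hsub (fun x => V x ^ ((d : ℝ) / 2))
    rw [h4] at h3
    exact h2.trans h3
  -- let `δ → 0`
  have hlim : Tendsto (fun δ : ℝ => Cd d * (s + δ) ^ ((d : ℝ) / 2) * ∫ x, V x ^ ((d : ℝ) / 2))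
      (𝓝[>] 0) (𝓝 (Cd d * s ^ ((d : ℝ) / 2) * ∫ x, V x ^ ((d : ℝ) / 2))) := by
    have h1 : ContinuousAt (fun δ : ℝ => (s + δ) ^ ((d : ℝ) / 2)) 0 := by
      refine ContinuousAt.rpow_const (by fun_prop) (Or.inl ?_)
      simp only [add_zero]
      exact hs0.ne'
    have h2 : Tendsto (fun δ : ℝ => (s + δ) ^ ((d : ℝ) / 2)) (𝓝[>] 0) (𝓝 (s ^ ((d : ℝ) / 2))) := by
      have := h1.tendsto
      simp only [add_zero] at this
      exact this.mono_left nhdsWithin_le_nhds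
    exact (h2.const_mul _).mul_const _
  exact ge_of_tendsto hlim (by
    filter_upwards [self_mem_nhdsWithin] with δ hδ
    exact hmain δ hδ)

end CLRT
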