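import Pool.Agent.Lib.MP_efa090_mp.Main1

/-! Row Codim: from negative spaces to linear conditions, for functions which only decay at
`-oo`. -/

open MeasureTheory Set Real

namespace Pool.Agent.CLR5

theorem Codim_a_B_add {W : ℝ → ℝ} (hW : Continuous W) (E : ℝ) {v1 v2 w : ℝ → ℝ} (h1 : Tst v1)
    (h2 : Tst v2) (hw : Tst w) :
    B W E (fun t => v1 t + v2 t) w = B W E v1 w + B W E v2 w := by
  have hi : ∀ v : ℝ → ℝ, Tst v →
      Integrable (fun t => deriv v t * deriv w t + E * (v t * w t) - W t * (v t * w t)) := by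
    intro v hv
    have a1 := (hv.int_mul hw (g := fun _ => (1 : ℝ)) continuous_const).2.2
    have a2 := (hv.int_mul hw (g := fun _ => (1 : ℝ)) continuous_const).1
    have a3 := (hv.int_mul hw hW).1
    simp only [one_mul] at a1 a2
    exact (a1.add (a2.const_mul E)).sub a3
  unfold B
  rw [← integral_add (hi v1 h1) (hi v2 h2)]
  refine integral_congr_ae ?_
  filter_upwards [h1.ae_diff, h2.ae_diff] with t d1 d2
  have : deriv (fun t => v1 t + v2 t) t = deriv v1 t + deriv v2 t := by
    exact deriv_fun_add d1 d2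
  rw [this]
  ring

theorem Codim_a_B_smul (W : ℝ → ℝ) (E : ℝ) (v w : ℝ → ℝ) (c : ℝ) :
    B W E (fun t => c * v t) w = c * B W E v w := by
  unfold B
  rw [← integral_const_mul]
  congr 1
  funext t
  rw [deriv_const_mul_field]
  ring

theorem Codim_a_B_smul_right (W : ℝ → ℝ) (E : ℝ) (v w : ℝ → ℝ) (c : ℝ) :
    B W E v (fun t => c * w t) = c * B W E v w := by
  unfold B
  rw [← integral_const_mul]
  congr 1
  funext t
  rw [deriv_const_mul_field]
  ring

theorem Codim_a_smooth_bdd : ∃ K : ℝ, 0 ≤ K ∧ ∀ x, |deriv Real.smoothTransition x| ≤ K := by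
  have hc : Continuous (deriv Real.smoothTransition) :=
    (Real.smoothTransition.contDiff (n := 1)).continuous_deriv le_rfl
  obtain ⟨K, hK⟩ := (isCompact_Icc (a := (0 : ℝ)) (b := 1)).exists_bound_of_continuousOn
    hc.continuousOn
  refine ⟨max K 0, le_max_right _ _, fun x => ?_⟩
  by_cases h : x ∈ Icc (0 : ℝ) 1
  · exact le_trans (hK x h) (le_max_left _ _)
  · have hz : deriv Real.smoothTransition x = 0 := by
      rcases lt_or_ge x 0 with h0 | h0
      · have : Real.smoothTransition =ᶠ[nhds x] fun _ => 0 := by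
          filter_upwards [Iio_mem_nhds h0] with y hy
          exact Real.smoothTransition.zero_of_nonpos (le_of_lt hy)
        rw [this.deriv_eq]
        exact deriv_const _ _
      · have h1 : 1 < x := by
          by_contra hcon
          exact h ⟨h0, not_lt.1 hcon⟩
        have : Real.smoothTransition =ᶠ[nhds x] fun _ => 1 := by
          filter_upwards [Ioi_mem_nhds h1] with y hy
          exact Real.smoothTransition.one_of_one_le (le_of_lt hy)
        rw [this.deriv_eq]
        exact deriv_const _ _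
    rw [hz, abs_zero]
    exact le_max_right _ _

/-- the cut-off function -/
noncomputable def Codim_a_cut (v : ℝ → ℝ) (m : ℕ) (t : ℝ) : ℝ :=
  v t * Real.smoothTransition (t + m + 1)

theorem Codim_a_cut_eq (v : ℝ → ℝ) {m : ℕ} {t : ℝ} (h : -(m : ℝ) < t) :
    Codim_a_cut v m t = v t ∧ deriv (Codim_a_cut v m) t = deriv v t := by
  have key : ∀ s : ℝ, -(m : ℝ) < s → Codim_a_cut v m s = v s := by
    intro s hs
    unfold Codim_a_cut
    rw [Real.smoothTransition.one_of_one_le (by linarith), mul_one]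
  refine ⟨key t h, ?_⟩
  have : Codim_a_cut v m =ᶠ[nhds t] v := by
    filter_upwards [Ioi_mem_nhds h] with s hs
    exact key s hs
  exact this.deriv_eq

theorem Codim_a_contDiff {v : ℝ → ℝ} (hv : ContDiff ℝ 1 v) (m : ℕ) :
    ContDiff ℝ 1 (Codim_a_cut v m) := by
  unfold Codim_a_cut
  refine hv.mul ?_
  have h1 : ContDiff ℝ 1 (fun t : ℝ => t + m + 1) := by fun_prop
  exact (Real.smoothTransition.contDiff (n := 1)).comp h1

theorem Codim_a_deriv {v : ℝ → ℝ} (hv : ContDiff ℝ 1 v) (m : ℕ) (t : ℝ) :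
    deriv (Codim_a_cut v m) t = deriv v t * Real.smoothTransition (t + m + 1) +
      v t * deriv Real.smoothTransition (t + m + 1) := by
  have h1 : HasDerivAt v (deriv v t) t := (hv.differentiable one_ne_zero t).hasDerivAt
  have h2 : HasDerivAt (fun t : ℝ => Real.smoothTransition (t + m + 1))
      (deriv Real.smoothTransition (t + m + 1)) t := by
    have h3 : HasDerivAt Real.smoothTransition (deriv Real.smoothTransition (t + m + 1))
        (t + m + 1) :=
      ((Real.smoothTransition.contDiff (n := 1)).differentiable one_ne_zero _).hasDerivAt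
    have h4 : HasDerivAt (fun t : ℝ => t + m + 1) 1 t := ((hasDerivAt_id t).add_const _).add_const _
    have := h3.comp t h4
    rwa [mul_one] at this
  exact (h1.mul h2).deriv

theorem Codim_a_Tst {v : ℝ → ℝ} (hv : Adm v) (m : ℕ) : Tst (Codim_a_cut v m) := by
  obtain ⟨C, T, hCT⟩ := hv.bd
  refine Tst.of_contDiff (Codim_a_contDiff hv.cd m) ?_
  refine HasCompactSupport.intro (isCompact_Icc (a := -(m : ℝ) - 1) (b := T)) ?_
  intro t ht
  unfold Codim_a_cut
  by_cases h : t < -(m : ℝ) - 1
  · rw [Real.smoothTransition.zero_of_nonpos (by linarith), mul_zero]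
  · have h2 : T < t := by
      by_contra hcon
      exact ht ⟨not_lt.1 h, not_lt.1 hcon⟩
    rw [(hCT t).2.2 h2.le, zero_mul]

theorem Codim_a_tendsto {W : ℝ → ℝ} (hW : Nice W) {E : ℝ} (hE : 0 < E) {v : ℝ → ℝ} (hv : Adm v) :
    Filter.Tendsto (fun m : ℕ => Q W E (Codim_a_cut v m)) Filter.atTop (nhds (Q W E v)) := by
  obtain ⟨C, T, hCT⟩ := hv.bd
  obtain ⟨K, hK0, hK⟩ := Codim_a_smooth_bdd
  obtain ⟨MW, hMW⟩ : ∃ M, ∀ t, ‖W t‖ ≤ M := hW.cs.exists_bound_of_continuous hW.cont
  have hMW0 : 0 ≤ MW := le_trans (norm_nonneg _) (hMW 0)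
  have hC : 0 ≤ C := by
    have h1 := (hCT 0).1
    simp only [mul_zero, zero_div, Real.exp_zero, mul_one] at h1
    exact le_trans (abs_nonneg _) h1
  unfold Q
  refine tendsto_integral_of_dominated_convergence
    (indicator (Iic T) (fun t => ((1 + K) ^ 2 * C ^ 2 + (E + MW) * C ^ 2) * Real.exp (3 * t)))
    ?_ ?_ ?_ ?_
  · intro m
    have hc := Codim_a_contDiff hv.cd m
    have c1 : Continuous (deriv (Codim_a_cut v m)) := hc.continuous_deriv le_rfl
    have c2 := hc.continuous
    have c3 := hW.cont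
    have : Continuous (fun t => (deriv (Codim_a_cut v m) t) ^ 2 + E * Codim_a_cut v m t ^ 2 -
        W t * Codim_a_cut v m t ^ 2) := by fun_prop
    exact this.aestronglyMeasurable
  · rw [integrable_indicator_iff measurableSet_Iic]
    exact (integrableOn_exp_mul_Iic (a := 3) (by norm_num) T).const_mul _
  · intro m
    refine Filter.Eventually.of_forall fun t => ?_
    by_cases ht : t ∈ Iic T
    · rw [indicator_of_mem ht]
      obtain ⟨b1, b2, -⟩ := hCT t
      have hs0 := Real.smoothTransition.nonneg (t + m + 1)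
      have hs1 := Real.smoothTransition.le_one (t + m + 1)
      have e1 : |Codim_a_cut v m t| ≤ C * Real.exp (3 * t / 2) := by
        unfold Codim_a_cut
        rw [abs_mul, abs_of_nonneg hs0]
        calc |v t| * Real.smoothTransition (t + m + 1) ≤ |v t| * 1 :=
              mul_le_mul_of_nonneg_left hs1 (abs_nonneg _)
          _ ≤ _ := by rw [mul_one]; exact b1
      have e2 : |deriv (Codim_a_cut v m) t| ≤ (1 + K) * (C * Real.exp (3 * t / 2)) := by
        rw [Codim_a_deriv hv.cd]
        refine le_trans (abs_add_le _ _) ?_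
        rw [abs_mul, abs_mul, abs_of_nonneg hs0]
        have h1 : |deriv v t| * Real.smoothTransition (t + m + 1) ≤ C * Real.exp (3 * t / 2) :=
          le_trans (mul_le_mul_of_nonneg_left hs1 (abs_nonneg _)) (by rw [mul_one]; exact b2)
        have h2 : |v t| * |deriv Real.smoothTransition (t + m + 1)| ≤
            C * Real.exp (3 * t / 2) * K :=
          mul_le_mul b1 (hK _) (abs_nonneg _) (by positivity)
        linarith
      have e3 : Real.exp (3 * t / 2) ^ 2 = Real.exp (3 * t) := by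
        rw [← Real.exp_nat_mul]
        congr 1
        push_cast
        ring
      have f1 : deriv (Codim_a_cut v m) t ^ 2 ≤ (1 + K) ^ 2 * C ^ 2 * Real.exp (3 * t) := by
        rw [← sq_abs]
        have := pow_le_pow_left₀ (abs_nonneg _) e2 2
        calc _ ≤ _ := this
          _ = _ := by rw [mul_pow, mul_pow, e3]; ring
      have f2 : Codim_a_cut v m t ^ 2 ≤ C ^ 2 * Real.exp (3 * t) := by
        rw [← sq_abs]
        have := pow_le_pow_left₀ (abs_nonneg _) e1 2
        calc _ ≤ _ := this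
          _ = _ := by rw [mul_pow, e3]
      have f3 : 0 ≤ Codim_a_cut v m t ^ 2 := sq_nonneg _
      have f4 : 0 ≤ deriv (Codim_a_cut v m) t ^ 2 := sq_nonneg _
      have hw := hMW t
      rw [Real.norm_eq_abs] at hw
      have hw0 := hW.nonneg t
      have hw1 : W t ≤ MW := le_trans (le_abs_self _) hw
      rw [Real.norm_eq_abs, abs_le]
      have g1 : W t * Codim_a_cut v m t ^ 2 ≤ MW * (C ^ 2 * Real.exp (3 * t)) :=
        mul_le_mul hw1 f2 f3 hMW0
      have g2 : E * Codim_a_cut v m t ^ 2 ≤ E * (C ^ 2 * Real.exp (3 * t)) :=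
        mul_le_mul_of_nonneg_left f2 hE.le
      have g3 : 0 ≤ W t * Codim_a_cut v m t ^ 2 := mul_nonneg hw0 f3
      have g4 : 0 ≤ E * Codim_a_cut v m t ^ 2 := mul_nonneg hE.le f3
      have g5 : 0 ≤ (1 + K) ^ 2 * C ^ 2 * Real.exp (3 * t) := by positivity
      have g6 : 0 ≤ MW * (C ^ 2 * Real.exp (3 * t)) := by positivity
      have g7 : 0 ≤ E * (C ^ 2 * Real.exp (3 * t)) := by positivity
      constructor <;> nlinarith
    · rw [indicator_of_notMem ht]
      have ht' : T < t := not_le.1 ht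
      have hz : ∀ s : ℝ, T < s → Codim_a_cut v m s = 0 := by
        intro s hs
        unfold Codim_a_cut
        rw [(hCT s).2.2 hs.le, zero_mul]
      have hd : deriv (Codim_a_cut v m) t = 0 := by
        have : Codim_a_cut v m =ᶠ[nhds t] fun _ => 0 := by
          filter_upwards [Ioi_mem_nhds ht'] with s hs
          exact hz s hs
        rw [this.deriv_eq]
        exact deriv_const _ _
      rw [hd, hz t ht']
      simp
  · refine Filter.Eventually.of_forall fun t => ?_
    obtain ⟨m0, hm0⟩ := exists_nat_gt (-t)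
    refine tendsto_const_nhds.congr' ?_
    filter_upwards [Filter.eventually_ge_atTop m0] with m hm
    have : -(m : ℝ) < t := by
      have : (m0 : ℝ) ≤ m := by exact_mod_cast hm
      linarith
    obtain ⟨h1, h2⟩ := Codim_a_cut_eq v this
    rw [h1, h2]

/-- `n` is maximal: `n` linear conditions `B W E (s k) v = 0` with test functions `s k` make the form
nonnegative on `Adm` (first on test functions: otherwise the negative space could be enlarged; then
cut `v` off at `-m`, `m → oo`, the conditions are not changed for large `m`). -/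
theorem codim {W : ℝ → ℝ} (hW : Nice W) {E : ℝ} (hE : 0 < E) {n : ℕ} (hn : Neg W E univ n)
    (hmax : ¬ Neg W E univ (n + 1)) :
    ∃ s : Fin n → ℝ → ℝ, (∀ k, Tst (s k)) ∧
      ∀ v, Adm v → (∀ k, B W E (s k) v = 0) → 0 ≤ Q W E v := by
  classical
  obtain ⟨L, hL⟩ := hn
  refine ⟨fun k => L (Pi.single k 1), fun k => (hL _).1, ?_⟩
  intro v hv hB
  by_contra hneg
  rw [not_le] at hneg
  apply hmax
  -- choice of the cut-off
  have ev1 : ∀ᶠ m : ℕ in Filter.atTop, Q W E (Codim_a_cut v m) < 0 :=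
    (Codim_a_tendsto hW hE hv).eventually (gt_mem_nhds hneg)
  have ev2 : ∀ k : Fin n, ∀ᶠ m : ℕ in Filter.atTop,
      B W E (L (Pi.single k 1)) (Codim_a_cut v m) = 0 := by
    intro k
    obtain ⟨C, -, -, -, hC⟩ := (hL (Pi.single k 1)).1.bdd
    obtain ⟨m0, hm0⟩ := exists_nat_gt C
    filter_upwards [Filter.eventually_ge_atTop m0] with m hm
    have hBk : B W E (L (Pi.single k 1)) v = 0 := hB k
    rw [← hBk]
    unfold B
    congr 1
    funext t
    have hmC : C < (m : ℝ) := by
      have : (m0 : ℝ) ≤ m := by exact_mod_cast hm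
      linarith
    by_cases ht : -(m : ℝ) < t
    · obtain ⟨h1, h2⟩ := Codim_a_cut_eq v ht
      rw [h1, h2]
    · have h3 : C < |t| := by
        have h4 : (m : ℝ) ≤ -t := by linarith [not_lt.1 ht]
        exact lt_of_lt_of_le hmC (le_trans h4 (neg_le_abs t))
      obtain ⟨h5, h6⟩ := hC t h3
      rw [h5, h6]
      ring
  obtain ⟨m, hm1, hm2⟩ := (ev1.and (Filter.eventually_all.2 ev2)).exists
  have hw : Tst (Codim_a_cut v m) := Codim_a_Tst hv m
  set w := Codim_a_cut v m with hwdef
  -- orthogonality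
  have horth : ∀ c : Fin n → ℝ, B W E (L c) w = 0 := by
    intro c
    let ℓ : (Fin n → ℝ) →ₗ[ℝ] ℝ :=
      { toFun := fun c => B W E (L c) w
        map_add' := by
          intro a b
          have h1 : L (a + b) = fun t => L a t + L b t := by
            rw [map_add]; rfl
          rw [h1]
          exact Codim_a_B_add hW.cont E (hL a).1 (hL b).1 hw
        map_smul' := by
          intro r a
          have h1 : L (r • a) = fun t => r * L a t := by
            rw [map_smul]; rfl
          rw [h1]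
          exact Codim_a_B_smul W E (L a) w r }
    have hℓ : ℓ = 0 := by
      refine LinearMap.pi_ext fun i x => ?_
      have h1 : (Pi.single i x : Fin n → ℝ) = x • Pi.single i 1 := by
        rw [← Pi.single_smul, smul_eq_mul, mul_one]
      rw [h1, map_smul]
      have h2 : ℓ (Pi.single i 1) = 0 := hm2 i
      rw [h2]
      simp
    have := congrArg (fun f : (Fin n → ℝ) →ₗ[ℝ] ℝ => f c) hℓ
    exact this
  let M1 : (Fin (n + 1) → ℝ) →ₗ[ℝ] (ℝ → ℝ) := L.comp (LinearMap.funLeft ℝ ℝ Fin.castSucc)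
  let M2 : (Fin (n + 1) → ℝ) →ₗ[ℝ] (ℝ → ℝ) := (LinearMap.toSpanSingleton ℝ (ℝ → ℝ) w).comp
    (LinearMap.proj (R := ℝ) (φ := fun _ : Fin (n + 1) => ℝ) (Fin.last n))
  refine ⟨M1 + M2, ?_⟩
  intro c
  have hform : (M1 + M2) c =
      fun t => L (c ∘ Fin.castSucc) t + c (Fin.last n) * w t := by
    funext t
    rfl
  rw [hform]
  refine ⟨(hL _).1.add (hw.smul _), fun t ht => absurd (mem_univ t) ht, ?_⟩
  intro hc
  rw [Q_add hW.cont E (hL _).1 (hw.smul _), Codim_a_B_smul_right, horth, Q_smul]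
  by_cases h1 : c ∘ Fin.castSucc = 0
  · have h2 : c (Fin.last n) ≠ 0 := by
      intro h
      apply hc
      funext i
      refine Fin.lastCases h (fun j => ?_) i
      exact congrFun h1 j
    have h3 : L (c ∘ Fin.castSucc) = fun _ => 0 := by
      rw [h1, map_zero]; rfl
    rw [h3, Q_zero]
    have h4 : 0 < c (Fin.last n) ^ 2 := by positivity
    nlinarith
  · have h2 := (hL (c ∘ Fin.castSucc)).2.2 h1
    have h4 : 0 ≤ c (Fin.last n) ^ 2 := sq_nonneg _
    nlinarith

private theorem Codim_b_energy {l l' : ℕ} (h : l ≤ l') :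
    ((l : ℝ) + 3 / 2) ^ 2 ≤ ((l' : ℝ) + 3 / 2) ^ 2 := by
  have h1 : (l : ℝ) ≤ l' := by exact_mod_cast h
  have h2 : (0 : ℝ) ≤ l := Nat.cast_nonneg l
  nlinarith

private theorem Codim_b_exists {W : ℝ → ℝ} (hW : Nice W) (l : ℕ) :
    ∃ k : ℕ, ¬ Neg W (((l : ℝ) + 3 / 2) ^ 2) univ (k + 1) := by
  by_contra hcon
  push Not at hcon
  obtain ⟨k, hk⟩ := exists_nat_gt (cost W univ / e0)
  have h1 : Neg W ((((0 : ℕ) : ℝ) + 3 / 2) ^ 2) univ (k + 1) :=
    (hcon k).mono_E hW.cont (Codim_b_energy (Nat.zero_le l))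
  have h2 := main1 hW 1 (n := fun _ => k + 1) antitone_const (by
    intro l' hl'
    have : l' = 0 := by omega
    subst this
    exact h1)
  rw [Finset.sum_range_one] at h2
  have h3 : mult 0 = 1 := by
    unfold mult
    norm_num
  rw [h3, one_mul] at h2
  push_cast at h2
  linarith

/-- the maximal dimensions at the energies `(l + 3/2)^2` -/
theorem exists_dims {W : ℝ → ℝ} (hW : Nice W) : ∃ n : ℕ → ℕ, Antitone n ∧
    (∀ l : ℕ, Neg W (((l : ℝ) + 3 / 2) ^ 2) univ (n l)) ∧
    (∀ l : ℕ, ¬ Neg W (((l : ℝ) + 3 / 2) ^ 2) univ (n l + 1)) ∧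
    ∀ L, ∑ l ∈ Finset.range L, mult l * (n l : ℝ) ≤ cost W univ / e0 := by
  classical
  have hspec : ∀ l : ℕ, ¬ Neg W (((l : ℝ) + 3 / 2) ^ 2) univ
      (Nat.find (Codim_b_exists hW l) + 1) := fun l => Nat.find_spec (Codim_b_exists hW l)
  have hneg : ∀ l : ℕ, Neg W (((l : ℝ) + 3 / 2) ^ 2) univ (Nat.find (Codim_b_exists hW l)) := by
    intro l
    rcases Nat.eq_zero_or_pos (Nat.find (Codim_b_exists hW l)) with h | h
    · rw [h]
      exact Neg.zero _ _ _
    · have h1 := Nat.find_min (Codim_b_exists hW l)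
        (m := Nat.find (Codim_b_exists hW l) - 1) (by omega)
      rw [not_not, Nat.sub_add_cancel h] at h1
      exact h1
  have hanti : Antitone fun l : ℕ => Nat.find (Codim_b_exists hW l) := by
    intro l l' hl
    apply Nat.find_min'
    intro h
    exact hspec l (h.mono_E hW.cont (Codim_b_energy hl))
  exact ⟨fun l => Nat.find (Codim_b_exists hW l), hanti, hneg, hspec,
    fun L => main1 hW L hanti fun l _ => hneg l⟩

/-- high energies -/
theorem Adm.high {W : ℝ → ℝ} (hW : Nice W) : ∃ J : ℕ, ∀ v, Adm v →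
    0 ≤ Q W (((J : ℝ) + 3 / 2) ^ 2) v := by
  obtain ⟨C, hC⟩ := hW.cs.exists_bound_of_continuous hW.cont
  obtain ⟨J, hJ⟩ := exists_nat_gt C
  refine ⟨J, fun v _ => ?_⟩
  unfold Q
  apply integral_nonneg
  intro t
  have h1 : W t ≤ C := (le_abs_self _).trans (by simpa using hC t)
  have h2 : (0 : ℝ) ≤ J := Nat.cast_nonneg J
  have h3 : C ≤ ((J : ℝ) + 3 / 2) ^ 2 := by nlinarith
  have h4 : 0 ≤ (((J : ℝ) + 3 / 2) ^ 2 - W t) * v t ^ 2 :=
    mul_nonneg (by linarith) (sq_nonneg _)
  have h5 : 0 ≤ deriv v t ^ 2 := sq_nonneg _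
  show 0 ≤ deriv v t ^ 2 + ((J : ℝ) + 3 / 2) ^ 2 * v t ^ 2 - W t * v t ^ 2
  nlinarith

end Pool.Agent.CLR5
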