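import Pool.Agent.Lib.MP_efa090_mp.Bas
import Pool.Agent.Lib.MP_efa090_mp.Angular
import Pool.Agent.Lib.MP_efa090_mp.Codim

/-! Row Cell: decomposition of the form (compare Pool/Agent/CLR3/Cell.lean). -/

open MeasureTheory Set Metric

namespace Pool.Agent.CLR5

/-! ### Integrals over the sphere -/

private lemma clr5Cell_int_cont {f : S4 → ℝ} (hf : Continuous f) : Integrable f σ :=
  hf.integrable_of_hasCompactSupport (HasCompactSupport.of_compactSpace f)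

private lemma clr5Cell_abs_int_le {f : S4 → ℝ} {K : ℝ} (h : ∀ ω, |f ω| ≤ K) :
    |∫ ω, f ω ∂σ| ≤ K * σ.real univ := by
  have := norm_integral_le_of_norm_le_const (μ := σ) (f := f) (C := K)
    (Filter.Eventually.of_forall fun ω => by rw [Real.norm_eq_abs]; exact h ω)
  simpa [Real.norm_eq_abs] using this

/-- Pythagoras -/
private lemma clr5Cell_pyth {M : ℕ} (p : Fin M → C(S4, ℝ))
    (hp : ∀ i j, ∫ ω, p i ω * p j ω ∂σ = if i = j then 1 else 0) {f : S4 → ℝ} (hf : Continuous f) :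
    ∫ ω, f ω ^ 2 ∂σ = ∑ i, (∫ ω, f ω * p i ω ∂σ) ^ 2 +
      ∫ ω, (f ω - ∑ i, (∫ ω', f ω' * p i ω' ∂σ) * p i ω) ^ 2 ∂σ := by
  set c : Fin M → ℝ := fun i => ∫ ω, f ω * p i ω ∂σ with hc
  have hfp : ∀ i, Integrable (fun ω => f ω * p i ω) σ :=
    fun i => clr5Cell_int_cont (hf.mul (p i).continuous)
  have hpp : ∀ i j, Integrable (fun ω => p i ω * p j ω) σ :=
    fun i j => clr5Cell_int_cont ((p i).continuous.mul (p j).continuous)
  have e1 : ∫ ω, (∑ i, c i * (f ω * p i ω)) ∂σ = ∑ i, c i ^ 2 := by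
    rw [integral_finsetSum _ fun i _ => (hfp i).const_mul (c i)]
    refine Finset.sum_congr rfl fun i _ => ?_
    rw [integral_const_mul]
    simp only [hc]; ring
  have e2 : ∫ ω, (∑ i, ∑ j, c i * c j * (p i ω * p j ω)) ∂σ = ∑ i, c i ^ 2 := by
    rw [integral_finsetSum _ fun i _ => integrable_finsetSum _ fun j _ => (hpp i j).const_mul _]
    refine Finset.sum_congr rfl fun i _ => ?_
    rw [integral_finsetSum _ fun j _ => (hpp i j).const_mul _]
    rw [Finset.sum_eq_single i]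
    · rw [integral_const_mul, hp]; simp; ring
    · intro j _ hj
      rw [integral_const_mul, hp, if_neg (Ne.symm hj), mul_zero]
    · simp
  have e3 : ∀ ω, (f ω - ∑ i, c i * p i ω) ^ 2 = f ω ^ 2 - 2 * (∑ i, c i * (f ω * p i ω))
      + ∑ i, ∑ j, c i * c j * (p i ω * p j ω) := by
    intro ω
    have h1 : ∑ i, c i * (f ω * p i ω) = f ω * ∑ i, c i * p i ω := by
      rw [Finset.mul_sum]; exact Finset.sum_congr rfl fun i _ => by ring
    have h2 : ∑ i, ∑ j, c i * c j * (p i ω * p j ω) = (∑ i, c i * p i ω) * ∑ j, c j * p j ω := by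
      rw [Finset.sum_mul_sum]
      exact Finset.sum_congr rfl fun i _ => Finset.sum_congr rfl fun j _ => by ring
    rw [h1, h2]; ring
  have i1 : Integrable (fun ω => f ω ^ 2) σ := clr5Cell_int_cont (hf.pow 2)
  have i2 : Integrable (fun ω => ∑ i, c i * (f ω * p i ω)) σ :=
    integrable_finsetSum _ fun i _ => (hfp i).const_mul (c i)
  have i3 : Integrable (fun ω => ∑ i, ∑ j, c i * c j * (p i ω * p j ω)) σ :=
    integrable_finsetSum _ fun i _ => integrable_finsetSum _ fun j _ => (hpp i j).const_mul _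
  have e4 : ∫ ω, (f ω - ∑ i, c i * p i ω) ^ 2 ∂σ = ∫ ω, f ω ^ 2 ∂σ - 2 * ∑ i, c i ^ 2
      + ∑ i, c i ^ 2 := by
    rw [integral_congr_ae (Filter.Eventually.of_forall e3)]
    have i12 : Integrable (fun ω => f ω ^ 2 - 2 * (∑ i, c i * (f ω * p i ω))) σ :=
      i1.sub (i2.const_mul 2)
    rw [integral_add i12 i3, integral_sub i1 (i2.const_mul 2), integral_const_mul, e1, e2]
  have e5 : ∑ i, (∫ ω, f ω * p i ω ∂σ) ^ 2 = ∑ i, c i ^ 2 := rfl
  rw [e5, e4]; ring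

/-! ### Integrals over the line -/

private lemma clr5Cell_int_ind (T : ℝ) :
    Integrable ((Iic T).indicator (fun t => Real.exp (3 * t))) :=
  (integrable_indicator_iff measurableSet_Iic).2 (integrableOn_exp_mul_Iic (by norm_num) T)

private lemma clr5Cell_exp_sq (t : ℝ) : Real.exp (3 * t / 2) ^ 2 = Real.exp (3 * t) := by
  rw [← Real.exp_nat_mul]; congr 1; push_cast; ring

private lemma clr5Cell_sq_le {a C t : ℝ} (h : |a| ≤ C * Real.exp (3 * t / 2)) :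
    a ^ 2 ≤ C ^ 2 * Real.exp (3 * t) := by
  rw [← sq_abs, ← clr5Cell_exp_sq]
  calc |a| ^ 2 ≤ (C * Real.exp (3 * t / 2)) ^ 2 := pow_le_pow_left₀ (abs_nonneg _) h 2
    _ = _ := by ring

/-- the pointwise bound of the form density -/
private lemma clr5Cell_abs_le {a b w E C K t : ℝ} (ha : |a| ≤ C * Real.exp (3 * t / 2))
    (hb : |b| ≤ C * Real.exp (3 * t / 2)) (hw : |w| ≤ K) (hE : 0 ≤ E) :
    |a ^ 2 + E * b ^ 2 - w * b ^ 2| ≤ ((1 + E + K) * C ^ 2) * Real.exp (3 * t) := by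
  have h1 := clr5Cell_sq_le ha
  have h2 := clr5Cell_sq_le hb
  have h3 := sq_nonneg a
  have h4 := sq_nonneg b
  have h5 : |w * b ^ 2| ≤ K * (C ^ 2 * Real.exp (3 * t)) := by
    rw [abs_mul, abs_of_nonneg h4]
    exact mul_le_mul hw h2 h4 ((abs_nonneg w).trans hw)
  have h6 : E * b ^ 2 ≤ E * (C ^ 2 * Real.exp (3 * t)) := mul_le_mul_of_nonneg_left h2 hE
  have h7 : 0 ≤ E * b ^ 2 := mul_nonneg hE h4
  rw [abs_le] at h5 ⊢
  obtain ⟨h8, h9⟩ := h5
  have h10 : ((1 + E + K) * C ^ 2) * Real.exp (3 * t) = C ^ 2 * Real.exp (3 * t) +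
    E * (C ^ 2 * Real.exp (3 * t)) + K * (C ^ 2 * Real.exp (3 * t)) := by ring
  rw [h10]
  constructor <;> linarith [mul_nonneg (sq_nonneg C) (Real.exp_pos (3 * t)).le]

private lemma clr5Cell_le_ind {f : ℝ → ℝ} {C T : ℝ} (hb : ∀ t, |f t| ≤ C * Real.exp (3 * t))
    (hz : ∀ t, T ≤ t → f t = 0) (t : ℝ) :
    |f t| ≤ C * (Iic T).indicator (fun t => Real.exp (3 * t)) t := by
  by_cases h : t ∈ Iic T
  · rw [indicator_of_mem h]; exact hb t
  · rw [indicator_of_notMem h, mul_zero, hz t (le_of_lt (not_le.1 h)), abs_zero]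

private lemma clr5Cell_int_line {f : ℝ → ℝ} {C T : ℝ} (hf : Continuous f)
    (hb : ∀ t, |f t| ≤ C * Real.exp (3 * t)) (hz : ∀ t, T ≤ t → f t = 0) : Integrable f := by
  refine ((clr5Cell_int_ind T).const_mul C).mono' hf.aestronglyMeasurable
    (Filter.Eventually.of_forall fun t => ?_)
  exact clr5Cell_le_ind hb hz t

private lemma clr5Cell_W {W : ℝ → ℝ} (hW : Nice W) : ∃ K, ∀ t, |W t| ≤ K := by
  obtain ⟨K, hK⟩ := hW.cs.exists_bound_of_continuous hW.cont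
  exact ⟨K, fun t => by simpa [Real.norm_eq_abs] using hK t⟩

private lemma clr5Cell_adm_bd {v : ℝ → ℝ} (hv : Adm v) : ∃ C T : ℝ, 0 ≤ C ∧
    (∀ t, |v t| ≤ C * Real.exp (3 * t / 2)) ∧
    (∀ t, |deriv v t| ≤ C * Real.exp (3 * t / 2)) ∧ (∀ t, T ≤ t → v t = 0) ∧
    (∀ t, T ≤ t → deriv v t = 0) := by
  obtain ⟨C, T, h⟩ := hv.bd
  have hC : 0 ≤ C := by
    by_contra hneg
    push Not at hneg
    have := (abs_nonneg _).trans (h 0).1
    have h2 : C * Real.exp (3 * 0 / 2) < 0 := mul_neg_of_neg_of_pos hneg (Real.exp_pos _)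
    linarith
  refine ⟨C, T + 1, hC, fun t => (h t).1, fun t => (h t).2.1,
    fun t ht => (h t).2.2 (by linarith), fun t ht => ?_⟩
  have : v =ᶠ[nhds t] fun _ => 0 := by
    filter_upwards [Ioi_mem_nhds (show T < t by linarith)] with s hs
    exact (h s).2.2 (le_of_lt hs)
  rw [this.deriv_eq]; simp

private lemma clr5Cell_int_Q {W : ℝ → ℝ} (hW : Nice W) {E : ℝ} (hE : 0 ≤ E) {v : ℝ → ℝ}
    (hv : Adm v) : Integrable (fun t => deriv v t ^ 2 + E * v t ^ 2 - W t * v t ^ 2) := by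
  obtain ⟨C, T, hC, h1, h2, h3, h4⟩ := clr5Cell_adm_bd hv
  obtain ⟨K, hK⟩ := clr5Cell_W hW
  have c1 : Continuous v := hv.cd.continuous
  have c2 : Continuous (deriv v) := hv.cd.continuous_deriv (by norm_num)
  refine clr5Cell_int_line (C := (1 + E + K) * C ^ 2) (T := T) ?_ (fun t => ?_) (fun t ht => ?_)
  · exact ((c2.pow 2).add (continuous_const.mul (c1.pow 2))).sub (hW.cont.mul (c1.pow 2))
  · exact clr5Cell_abs_le (h2 t) (h1 t) (hK t) hE
  · rw [h3 t ht, h4 t ht]; ring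

section

variable {W : ℝ → ℝ} {u : E5 → ℝ} {M : ℕ}

private lemma clr5Cell_cV (hu : ContDiff ℝ 1 u) (t : ℝ) : Continuous (fun ω : S4 => resc u t ω) :=
  (cont_all hu).1.comp (continuous_const.prodMk continuous_id)

private lemma clr5Cell_cVt (hu : ContDiff ℝ 1 u) (t : ℝ) : Continuous (fun ω : S4 => Vt u t ω) :=
  (cont_all hu).2.1.comp (continuous_const.prodMk continuous_id)

private lemma clr5Cell_ctan (hu : ContDiff ℝ 1 u) (t : ℝ) :
    Continuous (fun ω : S4 => tan2 (resc u t) ω) := by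
  have h := (cont_all hu).2.2.comp (f := fun ω : S4 => ((t, ω) : ℝ × S4))
    (continuous_const.prodMk continuous_id)
  simpa only [Function.comp_def] using h

/-- splitting of the density -/
private lemma clr5Cell_dens_eq (hu : ContDiff ℝ 1 u) (t : ℝ) :
    dens W u t = ∫ ω : S4, Vt u t ω ^ 2 ∂σ
    + (9 / 4 - W t) * ∫ ω : S4, resc u t ω ^ 2 ∂σ + ∫ ω : S4, tan2 (resc u t) ω ∂σ := by
  have i1 : Integrable (fun ω : S4 => Vt u t ω ^ 2) σ :=
    clr5Cell_int_cont ((clr5Cell_cVt hu t).pow 2)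
  have i2 : Integrable (fun ω : S4 => resc u t ω ^ 2) σ :=
    clr5Cell_int_cont ((clr5Cell_cV hu t).pow 2)
  have i3 : Integrable (fun ω : S4 => tan2 (resc u t) ω) σ := clr5Cell_int_cont (clr5Cell_ctan hu t)
  have i2' : Integrable (fun ω : S4 => (9 / 4 - W t) * resc u t ω ^ 2) σ := i2.const_mul _
  have i12 : Integrable (fun ω : S4 => Vt u t ω ^ 2 + (9 / 4 - W t) * resc u t ω ^ 2) σ :=
    i1.add i2'
  have h : dens W u t = ∫ ω : S4, (Vt u t ω ^ 2 + (9 / 4 - W t) * resc u t ω ^ 2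
      + tan2 (resc u t) ω) ∂σ := by
    unfold dens
    exact integral_congr_ae (Filter.Eventually.of_forall fun ω => by simp only []; ring)
  rw [h, integral_add i12 i3, integral_add i1 i2', integral_const_mul]

/-- the derivative of the remainder -/
private noncomputable def clr5Cell_Gt (u : E5 → ℝ) (p : Fin M → C(S4, ℝ)) (t : ℝ) (ω : S4) : ℝ :=
  Vt u t ω - ∑ i, (∫ ω' : S4, Vt u t ω' * p i ω' ∂σ) * p i ω

private lemma clr5Cell_cont_G (hu : ContDiff ℝ 1 u) (hc : HasCompactSupport u)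
    (p : Fin M → C(S4, ℝ)) : Continuous (fun z : ℝ × S4 => rest u p z.1 z.2) := by
  unfold rest
  refine (cont_all hu).1.sub (continuous_finsetSum _ fun i _ => ?_)
  exact ((adm_coef hu hc (p i)).1.cd.continuous.comp continuous_fst).mul
    ((p i).continuous.comp continuous_snd)

private lemma clr5Cell_cont_Gt (hu : ContDiff ℝ 1 u) (hc : HasCompactSupport u)
    (p : Fin M → C(S4, ℝ)) : Continuous (fun z : ℝ × S4 => clr5Cell_Gt u p z.1 z.2) := by
  unfold clr5Cell_Gt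
  refine (cont_all hu).2.1.sub (continuous_finsetSum _ fun i _ => ?_)
  have h1 : Continuous (fun t : ℝ => ∫ ω' : S4, Vt u t ω' * p i ω' ∂σ) := by
    have h2 : (fun t : ℝ => ∫ ω' : S4, Vt u t ω' * p i ω' ∂σ) = deriv (coef u (p i)) :=
      funext fun t => ((adm_coef hu hc (p i)).2 t).symm
    rw [h2]
    exact (adm_coef hu hc (p i)).1.cd.continuous_deriv (by norm_num)
  exact (h1.comp continuous_fst).mul ((p i).continuous.comp continuous_snd)

/-- uniform bounds for the remainder -/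
private lemma clr5Cell_bounds_G (hu : ContDiff ℝ 1 u) (hc : HasCompactSupport u)
    (p : Fin M → C(S4, ℝ)) : ∃ C T : ℝ, 0 ≤ C ∧ ∀ (t : ℝ) (ω : S4),
      |rest u p t ω| ≤ C * Real.exp (3 * t / 2) ∧
      |clr5Cell_Gt u p t ω| ≤ C * Real.exp (3 * t / 2) ∧
      (T ≤ t → rest u p t ω = 0 ∧ clr5Cell_Gt u p t ω = 0) := by
  obtain ⟨C, T, hC, h⟩ := bounds hu hc
  have hcb : ∀ (i : Fin M) (t : ℝ),
      |coef u (p i) t| ≤ C * Real.exp (3 * t / 2) * ‖p i‖ * σ.real univ :=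
    fun i t => clr5Cell_abs_int_le (f := fun ω : S4 => resc u t ω * p i ω)
      (fun ω => by
        rw [abs_mul]
        exact mul_le_mul (h t ω).1 ((p i).norm_coe_le_norm ω) (abs_nonneg _) (by positivity))
  have hcb' : ∀ (i : Fin M) (t : ℝ),
      |∫ ω' : S4, Vt u t ω' * p i ω' ∂σ| ≤ C * Real.exp (3 * t / 2) * ‖p i‖ * σ.real univ :=
    fun i t => clr5Cell_abs_int_le (f := fun ω : S4 => Vt u t ω * p i ω)
      (fun ω => by
        rw [abs_mul]
        exact mul_le_mul (h t ω).2.1 ((p i).norm_coe_le_norm ω) (abs_nonneg _) (by positivity))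
  have hz : ∀ (i : Fin M) (t : ℝ), T ≤ t → coef u (p i) t = 0 ∧
      ∫ ω' : S4, Vt u t ω' * p i ω' ∂σ = 0 := by
    intro i t ht
    constructor
    · unfold coef
      have : (fun ω : S4 => resc u t ω * p i ω) = fun _ => 0 := by
        ext ω; rw [((h t ω).2.2.2 ht).1, zero_mul]
      rw [this]; simp
    · have : (fun ω : S4 => Vt u t ω * p i ω) = fun _ => 0 := by
        ext ω; rw [((h t ω).2.2.2 ht).2.1, zero_mul]
      rw [this]; simp
  set K := ∑ i : Fin M, ‖p i‖ * σ.real univ * ‖p i‖ with hK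
  have hK0 : 0 ≤ K := Finset.sum_nonneg fun i _ => by positivity
  refine ⟨C + C * K, T, by positivity, fun t ω => ⟨?_, ?_, fun ht => ⟨?_, ?_⟩⟩⟩
  · unfold rest
    have h1 : |∑ i, coef u (p i) t * p i ω| ≤ C * Real.exp (3 * t / 2) * K := by
      refine (Finset.abs_sum_le_sum_abs _ _).trans ?_
      rw [hK, Finset.mul_sum]
      refine Finset.sum_le_sum fun i _ => ?_
      rw [abs_mul]
      refine (mul_le_mul (hcb i t) ((p i).norm_coe_le_norm ω) (abs_nonneg _) (by positivity)).trans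
        (le_of_eq (by ring))
    have h2 := abs_sub (resc u t ω) (∑ i, coef u (p i) t * p i ω)
    have h3 := (h t ω).1
    nlinarith
  · unfold clr5Cell_Gt
    have h1 : |∑ i, (∫ ω' : S4, Vt u t ω' * p i ω' ∂σ) * p i ω| ≤
        C * Real.exp (3 * t / 2) * K := by
      refine (Finset.abs_sum_le_sum_abs _ _).trans ?_
      rw [hK, Finset.mul_sum]
      refine Finset.sum_le_sum fun i _ => ?_
      rw [abs_mul]
      refine (mul_le_mul (hcb' i t) ((p i).norm_coe_le_norm ω) (abs_nonneg _) (by positivity)).trans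
        (le_of_eq (by ring))
    have h2 := abs_sub (Vt u t ω) (∑ i, (∫ ω' : S4, Vt u t ω' * p i ω' ∂σ) * p i ω)
    have h3 := (h t ω).2.1
    nlinarith
  · unfold rest
    rw [((h t ω).2.2.2 ht).1]
    simp [(hz _ t ht).1]
  · unfold clr5Cell_Gt
    rw [((h t ω).2.2.2 ht).2.1]
    simp [(hz _ t ht).2]

/-- the remainder density on the product is integrable -/
private lemma clr5Cell_int_rem (hW : Nice W) (hu : ContDiff ℝ 1 u) (hc : HasCompactSupport u)
    (p : Fin M → C(S4, ℝ)) {E : ℝ} (hE : 0 ≤ E) :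
    Integrable (Function.uncurry fun (t : ℝ) (ω : S4) =>
      clr5Cell_Gt u p t ω ^ 2 + E * rest u p t ω ^ 2 - W t * rest u p t ω ^ 2)
      ((volume : Measure ℝ).prod σ) := by
  obtain ⟨C, T, hC, h⟩ := clr5Cell_bounds_G hu hc p
  obtain ⟨K, hK⟩ := clr5Cell_W hW
  have hd1 : Integrable (fun t => ((1 + E + K) * C ^ 2) *
      (Iic T).indicator (fun t => Real.exp (3 * t)) t) (volume : Measure ℝ) :=
    (clr5Cell_int_ind T).const_mul _
  have hd2 := hd1.comp_fst σ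
  refine hd2.mono' ?_ (Filter.Eventually.of_forall fun z => ?_)
  · have hG := clr5Cell_cont_G hu hc p
    have hGt := clr5Cell_cont_Gt hu hc p
    have hW' : Continuous (fun z : ℝ × S4 => W z.1) := hW.cont.comp continuous_fst
    exact (((hGt.pow 2).add (continuous_const.mul (hG.pow 2))).sub
      (hW'.mul (hG.pow 2))).aestronglyMeasurable
  · obtain ⟨t, ω⟩ := z
    simp only [Function.uncurry]
    obtain ⟨h1, h2, h3⟩ := h t ω
    by_cases ht : t ∈ Iic T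
    · rw [indicator_of_mem ht, Real.norm_eq_abs]
      exact clr5Cell_abs_le h2 h1 (hK t) hE
    · rw [indicator_of_notMem ht, (h3 (le_of_lt (not_le.1 ht))).1, (h3 (le_of_lt (not_le.1 ht))).2]
      simp

/-- lower bound for the density -/
private lemma clr5Cell_dens_ge (hu : ContDiff ℝ 1 u) (hc : HasCompactSupport u) {J : ℕ}
    {dg : Fin M → ℕ} {p : Fin M → C(S4, ℝ)}
    (hp : ∀ i j, ∫ ω, p i ω * p j ω ∂σ = if i = j then 1 else 0)
    (hang : ∀ F : E5 → ℝ, ContDiff ℝ 1 F →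
      (∑ i, ((dg i : ℝ) * (dg i + 3)) * (∫ ω : S4, F ω * p i ω ∂σ) ^ 2) +
        ((J : ℝ) * (J + 3)) *
          ∫ ω : S4, (F ω - ∑ i, (∫ ω' : S4, F ω' * p i ω' ∂σ) * p i ω) ^ 2 ∂σ
        ≤ ∫ ω : S4, tan2 F ω ∂σ) (t : ℝ) :
    ∑ i, ((deriv (coef u (p i)) t) ^ 2 + ((dg i : ℝ) + 3 / 2) ^ 2 * coef u (p i) t ^ 2
        - W t * coef u (p i) t ^ 2)
      + ∫ ω : S4, (clr5Cell_Gt u p t ω ^ 2 + ((J : ℝ) + 3 / 2) ^ 2 * rest u p t ω ^ 2
        - W t * rest u p t ω ^ 2) ∂σ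
      ≤ dens W u t := by
  have cG : Continuous (fun ω : S4 => rest u p t ω) :=
    (clr5Cell_cont_G hu hc p).comp (continuous_const.prodMk continuous_id)
  have cGt : Continuous (fun ω : S4 => clr5Cell_Gt u p t ω) :=
    (clr5Cell_cont_Gt hu hc p).comp (continuous_const.prodMk continuous_id)
  have iG : Integrable (fun ω : S4 => rest u p t ω ^ 2) σ := clr5Cell_int_cont (cG.pow 2)
  have iGt : Integrable (fun ω : S4 => clr5Cell_Gt u p t ω ^ 2) σ := clr5Cell_int_cont (cGt.pow 2)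
  have e1 := clr5Cell_pyth p hp (clr5Cell_cVt hu t)
  have e2 := clr5Cell_pyth p hp (clr5Cell_cV hu t)
  have e3 := hang (resc u t) (contDiff_resc hu t)
  have f1 : ∫ ω : S4, (Vt u t ω - ∑ i, (∫ ω' : S4, Vt u t ω' * p i ω' ∂σ) * p i ω) ^ 2 ∂σ
      = ∫ ω : S4, clr5Cell_Gt u p t ω ^ 2 ∂σ := rfl
  have f2 : ∫ ω : S4, (resc u t ω - ∑ i, (∫ ω' : S4, resc u t ω' * p i ω' ∂σ) * p i ω) ^ 2 ∂σ
      = ∫ ω : S4, rest u p t ω ^ 2 ∂σ := rfl
  have f3 : ∑ i, (∫ ω : S4, Vt u t ω * p i ω ∂σ) ^ 2 = ∑ i, (deriv (coef u (p i)) t) ^ 2 :=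
    Finset.sum_congr rfl fun i _ => by rw [(adm_coef hu hc (p i)).2 t]
  have f4 : ∑ i, (∫ ω : S4, resc u t ω * p i ω ∂σ) ^ 2 = ∑ i, coef u (p i) t ^ 2 := rfl
  have f5 : ∑ i, ((dg i : ℝ) * (dg i + 3)) * (∫ ω : S4, resc u t ω * p i ω ∂σ) ^ 2 =
      ∑ i, ((dg i : ℝ) * (dg i + 3)) * coef u (p i) t ^ 2 := rfl
  rw [f1, f3] at e1
  rw [f2, f4] at e2
  rw [f2, f5] at e3
  have e4 : ∫ ω : S4, (clr5Cell_Gt u p t ω ^ 2 + ((J : ℝ) + 3 / 2) ^ 2 * rest u p t ω ^ 2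
      - W t * rest u p t ω ^ 2) ∂σ = ∫ ω : S4, clr5Cell_Gt u p t ω ^ 2 ∂σ
      + (((J : ℝ) + 3 / 2) ^ 2 - W t) * ∫ ω : S4, rest u p t ω ^ 2 ∂σ := by
    rw [← integral_const_mul, ← integral_add iGt (iG.const_mul _)]
    exact integral_congr_ae (Filter.Eventually.of_forall fun ω => by simp only []; ring)
  have e5 : ∑ i, ((deriv (coef u (p i)) t) ^ 2 + ((dg i : ℝ) + 3 / 2) ^ 2 * coef u (p i) t ^ 2
        - W t * coef u (p i) t ^ 2) = ∑ i, (deriv (coef u (p i)) t) ^ 2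
        + ∑ i, ((dg i : ℝ) * (dg i + 3)) * coef u (p i) t ^ 2
        + (9 / 4 - W t) * ∑ i, coef u (p i) t ^ 2 := by
    rw [Finset.mul_sum, ← Finset.sum_add_distrib, ← Finset.sum_add_distrib]
    exact Finset.sum_congr rfl fun i _ => by ring
  rw [e4, e5, clr5Cell_dens_eq hu t, e1, e2]
  have e6 : ((J : ℝ) + 3 / 2) ^ 2 = (J : ℝ) * (J + 3) + 9 / 4 := by ring
  rw [e6]
  linarith

end

/-- Pythagoras for `resc` and `Vt`, the angular lemma for `tan2` (`l (l + 3) + 9/4 = (l + 3/2)^2`),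
Fubini. -/
theorem QQ_ge {W : ℝ → ℝ} (hW : Nice W) {u : E5 → ℝ} (hu : ContDiff ℝ 1 u)
    (hc : HasCompactSupport u) {J M : ℕ} {dg : Fin M → ℕ} {p : Fin M → C(S4, ℝ)}
    (hp : ∀ i j, ∫ ω, p i ω * p j ω ∂σ = if i = j then 1 else 0)
    (hang : ∀ F : E5 → ℝ, ContDiff ℝ 1 F →
      (∑ i, ((dg i : ℝ) * (dg i + 3)) * (∫ ω : S4, F ω * p i ω ∂σ) ^ 2) +
        ((J : ℝ) * (J + 3)) *
          ∫ ω : S4, (F ω - ∑ i, (∫ ω' : S4, F ω' * p i ω' ∂σ) * p i ω) ^ 2 ∂σ
        ≤ ∫ ω : S4, tan2 F ω ∂σ) :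
    ∑ i, Q W (((dg i : ℝ) + 3 / 2) ^ 2) (coef u (p i)) +
      ∫ ω : S4, Q W (((J : ℝ) + 3 / 2) ^ 2) (fun t => rest u p t ω) ∂σ ≤ QQ W u := by
  have hrem := clr5Cell_int_rem hW hu hc p (E := ((J : ℝ) + 3 / 2) ^ 2) (sq_nonneg _)
  set f : ℝ → S4 → ℝ := fun t ω =>
      clr5Cell_Gt u p t ω ^ 2 + ((J : ℝ) + 3 / 2) ^ 2 * rest u p t ω ^ 2
        - W t * rest u p t ω ^ 2 with hf
  have i1 : ∀ i, Integrable (fun t => (deriv (coef u (p i)) t) ^ 2
      + ((dg i : ℝ) + 3 / 2) ^ 2 * coef u (p i) t ^ 2 - W t * coef u (p i) t ^ 2) :=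
    fun i => clr5Cell_int_Q hW (sq_nonneg _) (adm_coef hu hc (p i)).1
  have i2 : Integrable (fun t => ∫ ω : S4, f t ω ∂σ) := hrem.integral_prod_left
  have i3 : Integrable (dens W u) := int_dens hW hu hc
  have h1 : ∫ t, (∑ i, ((deriv (coef u (p i)) t) ^ 2
        + ((dg i : ℝ) + 3 / 2) ^ 2 * coef u (p i) t ^ 2
        - W t * coef u (p i) t ^ 2) + ∫ ω : S4, f t ω ∂σ) ≤ ∫ t, dens W u t := by
    refine integral_mono ((integrable_finsetSum _ fun i _ => i1 i).add i2) i3 fun t => ?_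
    exact clr5Cell_dens_ge hu hc hp hang t
  have h2 : ∫ t, (∑ i, ((deriv (coef u (p i)) t) ^ 2
        + ((dg i : ℝ) + 3 / 2) ^ 2 * coef u (p i) t ^ 2
        - W t * coef u (p i) t ^ 2) + ∫ ω : S4, f t ω ∂σ)
      = ∑ i, Q W (((dg i : ℝ) + 3 / 2) ^ 2) (coef u (p i)) + ∫ t, ∫ ω : S4, f t ω ∂σ := by
    rw [integral_add (integrable_finsetSum _ fun i _ => i1 i) i2,
      integral_finsetSum _ fun i _ => i1 i]
    rfl
  have h3 : ∫ t, ∫ ω : S4, f t ω ∂σ = ∫ ω : S4, (∫ t, f t ω) ∂σ :=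
    integral_integral_swap hrem
  have h4 : ∀ ω : S4, ∫ t, f t ω = Q W (((J : ℝ) + 3 / 2) ^ 2) (fun t => rest u p t ω) := by
    intro ω
    unfold Q
    refine integral_congr_ae (Filter.Eventually.of_forall fun t => ?_)
    simp only [hf]
    rw [(adm_rest hu hc p ω).2 t]
    rfl
  have h5 : ∫ ω : S4, (∫ t, f t ω) ∂σ =
      ∫ ω : S4, Q W (((J : ℝ) + 3 / 2) ^ 2) (fun t => rest u p t ω) ∂σ :=
    integral_congr_ae (Filter.Eventually.of_forall h4)
  unfold QQ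
  rw [h2, h3, h5] at h1
  exact h1

end Pool.Agent.CLR5
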