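import Pool.Agent.Lib.MP_efa090_mp.Tst2

/-! Row Short: a bound state on a short interval is expensive. -/

open MeasureTheory Set Real

namespace Pool.Agent.CLR5

private theorem Short_tangent {w : ℝ} (hw : 0 ≤ w) :
    231525 / 10000 * w - 61261515 / 1000000 ≤ w ^ ((5 : ℝ) / 2) := by
  have h1 : w ^ ((5 : ℝ) / 2) = Real.sqrt w ^ 5 := by
    rw [Real.rpow_div_two_eq_sqrt _ hw]
    exact_mod_cast Real.rpow_natCast (Real.sqrt w) 5
  rw [h1]
  have h2 : Real.sqrt w ^ 2 = w := Real.sq_sqrt hw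
  set r := Real.sqrt w with hr
  have hr0 : 0 ≤ r := Real.sqrt_nonneg w
  have h3 : r ^ 5 - (231525 / 10000 * r ^ 2 - 61261515 / 1000000) =
      (r - 21 / 10) ^ 2 * (r ^ 3 + 42 / 10 * r ^ 2 + 1323 / 100 * r + 138915 / 10000) := by
    ring
  have h4 : 0 ≤ (r - 21 / 10) ^ 2 *
      (r ^ 3 + 42 / 10 * r ^ 2 + 1323 / 100 * r + 138915 / 10000) := by positivity
  rw [h2] at h3
  linarith

private theorem Short_e0 : 3205 / 100 ≤ e0 ∧ e0 ≤ 32095 / 1000 := by
  unfold e0
  have hs1 : (38729 : ℝ) / 10000 ≤ Real.sqrt 15 := by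
    apply Real.le_sqrt_of_sq_le
    norm_num
  have hs2 : Real.sqrt 15 ≤ (3873 : ℝ) / 1000 := by
    rw [Real.sqrt_le_left (by norm_num)]
    norm_num
  have hp1 := Real.pi_gt_d4
  have hp2 := Real.pi_lt_d4
  norm_num at hp1 hp2
  constructor
  · nlinarith [mul_nonneg (sub_nonneg.2 hs1) (sub_nonneg.2 hp1.le)]
  · nlinarith [mul_nonneg (sub_nonneg.2 hs2) (sub_nonneg.2 hp2.le), mul_pos (show (0:ℝ) < Real.sqrt 15 by positivity) Real.pi_pos]

/-- Proof: tangent line `W^(5/2) >= (5/2) s^(3/2) W - (3/2) s^(5/2)` with `s = 4.41`, multiplied by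
`v^2 / M^2 <= 1`, `M = max |v|`, and `∫ W v^2 > ∫ v'^2 + E ∫ v^2`, `∫ v'^2 >= 4 M^2 / (b - a)`:
`cost >= s^(3/2) (10/l - (1.5 s - 2.5 E) l)`, `l = b - a`, and `1/l >= 2/l1 - l/l1^2`, `l1 = 1.36`. -/
theorem short_line {W : ℝ → ℝ} (hW : Nice W) {v : ℝ → ℝ} (hv : Tst v) {a b : ℝ} (hab : a < b)
    (hvA : ∀ t, t ∉ Icc a b → v t = 0) {E : ℝ} (hE : 2249 / 1000 ≤ E) (h : Q W E v < 0) :
    (106 / 25 - 37 / 20 * (b - a)) * e0 ≤ cost W (Icc a b) := by
  have hvc : Continuous v := hv.continuous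
  obtain ⟨x0, hx0, hmax⟩ := (isCompact_Icc (a := a) (b := b)).exists_isMaxOn
    ⟨a, left_mem_Icc.2 hab.le⟩ (f := fun t => v t ^ 2) (hvc.pow 2).continuousOn
  have hle : ∀ t, v t ^ 2 ≤ v x0 ^ 2 := by
    intro t
    by_cases ht : t ∈ Icc a b
    · exact hmax ht
    · rw [hvA t ht]
      have h9 := sq_nonneg (v x0)
      simpa using h9
  have hm0 : 0 < v x0 ^ 2 := by
    rcases (sq_nonneg (v x0)).lt_or_eq with h1 | h1
    · exact h1
    · exfalso
      have hz : v = fun _ => 0 := by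
        funext t
        have h2 := hle t
        rw [← h1] at h2
        exact pow_eq_zero_iff (two_ne_zero) |>.1 (le_antisymm h2 (sq_nonneg _))
      rw [hz, Q_zero] at h
      exact lt_irrefl _ h
  have hsup := hv.sup_le hab hvA x0
  have hQ := Q_eq hW.cont E hv
  rw [hQ] at h
  set m := v x0 ^ 2 with hm
  set D := ∫ t, deriv v t ^ 2 with hD
  set V := ∫ t, v t ^ 2 with hV
  set U := ∫ t, W t * v t ^ 2 with hU
  have hV0 : 0 ≤ V := integral_nonneg (fun t => sq_nonneg (v t))
  have hVI : V = ∫ t in Icc a b, v t ^ 2 := by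
    rw [hV]
    symm
    apply setIntegral_eq_integral_of_forall_compl_eq_zero
    intro t ht
    rw [hvA t ht]; norm_num
  have hUI : U = ∫ t in Icc a b, W t * v t ^ 2 := by
    rw [hU]
    symm
    apply setIntegral_eq_integral_of_forall_compl_eq_zero
    intro t ht
    rw [hvA t ht]; norm_num
  have hi1 : IntegrableOn (fun t => v t ^ 2) (Icc a b) :=
    (hvc.pow 2).continuousOn.integrableOn_Icc
  have hi2 : IntegrableOn (fun t => W t * v t ^ 2) (Icc a b) :=
    (hW.cont.mul (hvc.pow 2)).continuousOn.integrableOn_Icc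
  have hi3 : IntegrableOn (fun t => W t ^ ((5 : ℝ) / 2)) (Icc a b) :=
    (hW.cont.rpow_const (fun t => Or.inr (by norm_num))).continuousOn.integrableOn_Icc
  have hVm : V ≤ m * (b - a) := by
    rw [hVI]
    calc ∫ t in Icc a b, v t ^ 2 ≤ ∫ _t in Icc a b, m :=
          setIntegral_mono hi1 (by simp) (fun t => hle t)
      _ = m * (b - a) := by
          rw [setIntegral_const, smul_eq_mul, Real.volume_real_Icc_of_le hab.le]
          ring
  have hcost : 231525 / 10000 * U - 61261515 / 1000000 * V ≤ m * cost W (Icc a b) := by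
    unfold cost
    rw [hUI, hVI, ← integral_const_mul, ← integral_const_mul, ← integral_const_mul,
      ← integral_sub (hi2.const_mul _) (hi1.const_mul _)]
    apply setIntegral_mono ((hi2.const_mul _).sub (hi1.const_mul _)) (hi3.const_mul _)
    intro t
    have h1 := Short_tangent (hW.nonneg t)
    have h2 : 0 ≤ W t ^ ((5 : ℝ) / 2) := Real.rpow_nonneg (hW.nonneg t) _
    have h3 := hle t
    have h4 := mul_le_mul_of_nonneg_left h1 (sq_nonneg (v t))
    have h5 := mul_le_mul_of_nonneg_right h3 h2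
    show 231525 / 10000 * (W t * v t ^ 2) - 61261515 / 1000000 * v t ^ 2 ≤ m * W t ^ ((5 : ℝ) / 2)
    nlinarith
  obtain ⟨he1, he2⟩ := Short_e0
  set l := b - a with hl
  have hl0 : 0 < l := by rw [hl]; linarith
  have hDl : 4 * m ≤ l * D := hsup
  have hDm : m * (4 * (25 / 17 - l * (625 / 1156))) ≤ D := by
    have h1 : l * (m * (4 * (25 / 17 - l * (625 / 1156)))) ≤ 4 * m := by
      have h2 : 4 * m - l * (m * (4 * (25 / 17 - l * (625 / 1156)))) =
          4 * m * (1 - l * (25 / 34)) ^ 2 := by ring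
      have h3 : 0 ≤ 4 * m * (1 - l * (25 / 34)) ^ 2 := by positivity
      linarith
    exact le_of_mul_le_mul_left (h1.trans hDl) hl0
  have hfin : m * ((106 / 25 - 37 / 20 * l) * e0) ≤ m * cost W (Icc a b) := by
    refine le_trans ?_ hcost
    have hUl : D + E * V ≤ U := by linarith
    have hEV : 2249 / 1000 * V ≤ E * V := mul_le_mul_of_nonneg_right hE hV0
    have h1 : 231525 / 10000 * (m * (4 * (25 / 17 - l * (625 / 1156)))) -
        (61261515 / 1000000 - 231525 / 10000 * (2249 / 1000)) * (m * l) ≤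
        231525 / 10000 * U - 61261515 / 1000000 * V := by
      nlinarith
    refine le_trans ?_ h1
    have h2 : m * ((106 / 25 - 37 / 20 * l) * e0) =
      m * (106 / 25 * e0) - m * l * (37 / 20 * e0) := by ring
    rw [h2]
    have hml : 0 < m * l := mul_pos hm0 hl0
    have h3 : m * (106 / 25 * e0) ≤ m * (106 / 25 * (32095 / 1000)) := by
      apply mul_le_mul_of_nonneg_left _ hm0.le
      linarith
    have h4 : m * l * (37 / 20 * (3205 / 100)) ≤ m * l * (37 / 20 * e0) := by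
      apply mul_le_mul_of_nonneg_left _ hml.le
      linarith
    nlinarith
  exact le_of_mul_le_mul_left hfin hm0

end Pool.Agent.CLR5
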