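import Pool.Agent.Lib.MP_efa090_mp.One
import Pool.Agent.Lib.MP_efa090_mp.Short

/-! Row Cells: the cost of the nodal cells at energy `-9/4`. -/

open MeasureTheory Set Real

namespace Pool.Agent.CLR5

/-- every cell costs at least `e0` (`one_state` for `E' → 9/4`) -/
theorem cell_cost {W : ℝ → ℝ} (hW : Nice W) {c : Set ℝ} (hc : IsOpen c)
    (h : ∀ E' < (9 / 4 : ℝ), ∃ v, Tst v ∧ (∀ t, t ∉ c → v t = 0) ∧ Q W E' v < 0) :
    e0 ≤ cost W c := by
  have hlim : Filter.Tendsto (fun E : ℝ => e0 * (4 * E / 9) ^ 2) (nhdsWithin (9 / 4 : ℝ) (Iio (9 / 4)))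
      (nhds (e0 * (4 * (9 / 4 : ℝ) / 9) ^ 2)) := by
    have hcont : Continuous (fun E : ℝ => e0 * (4 * E / 9) ^ 2) := by fun_prop
    exact (hcont.tendsto (9 / 4 : ℝ)).mono_left nhdsWithin_le_nhds
  have hev : ∀ᶠ E in nhdsWithin (9 / 4 : ℝ) (Iio (9 / 4)), e0 * (4 * E / 9) ^ 2 ≤ cost W c := by
    filter_upwards [Ioo_mem_nhdsLT (show (0 : ℝ) < 9 / 4 by norm_num)] with E hE
    obtain ⟨v, hv, hv0, hQ⟩ := h E hE.2
    exact one_state hW hv hc.measurableSet hv0 hE.1 hQ
  have hle := le_of_tendsto hlim hev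
  have e1 : e0 * (4 * (9 / 4 : ℝ) / 9) ^ 2 = e0 := by norm_num
  rwa [e1] at hle

private theorem Cells_int {W : ℝ → ℝ} (hW : Nice W) :
    Integrable (fun t => W t ^ ((5 : ℝ) / 2)) := by
  have h1 : Continuous (fun t => W t ^ ((5 : ℝ) / 2)) :=
    hW.cont.rpow_const (fun _ => Or.inr (by norm_num))
  refine h1.integrable_of_hasCompactSupport ?_
  refine hW.cs.mono' ?_
  intro t ht
  refine subset_tsupport W ?_
  intro h0
  apply ht
  change W t ^ ((5 : ℝ) / 2) = 0
  rw [h0, Real.zero_rpow (by norm_num)]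

private theorem Cells_nonneg {W : ℝ → ℝ} (hW : Nice W) (t : ℝ) : 0 ≤ W t ^ ((5 : ℝ) / 2) :=
  Real.rpow_nonneg (hW.nonneg t) _

private theorem Cells_mono {W : ℝ → ℝ} (hW : Nice W) {A A' : Set ℝ} (h : A ⊆ A') :
    cost W A ≤ cost W A' := by
  refine setIntegral_mono_set (Cells_int hW).integrableOn ?_ h.eventuallyLE
  exact Filter.Eventually.of_forall fun t => Cells_nonneg hW t

/-- a bounded cell is an interval -/
private theorem Cells_ioo {W : ℝ → ℝ} (hW : Nice W) {c : Set ℝ} (hc : IsOpen c)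
    (hcc : c.OrdConnected) (hbb : BddBelow c) (hba : BddAbove c)
    (h : ∀ E' < (9 / 4 : ℝ), ∃ v, Tst v ∧ (∀ t, t ∉ c → v t = 0) ∧ Q W E' v < 0) :
    ∃ a b : ℝ, a < b ∧ Ioo a b ⊆ c ∧ (106 / 25 - 37 / 20 * (b - a)) * e0 ≤ cost W c := by
  obtain ⟨v, hv, hvc, hQ⟩ := h (2249 / 1000) (by norm_num)
  have hne : c.Nonempty := by
    by_contra hcon
    rw [not_nonempty_iff_eq_empty] at hcon
    have hv0 : v = fun _ => 0 := by
      funext t
      exact hvc t (by simp [hcon])
    rw [hv0, Q_zero] at hQ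
    exact lt_irrefl _ hQ
  obtain ⟨x, hx⟩ := hne
  obtain ⟨l, u, hlu, hsub⟩ := mem_nhds_iff_exists_Ioo_subset.1 (hc.mem_nhds hx)
  have hy : (x + u) / 2 ∈ c := hsub ⟨by linarith [hlu.1, hlu.2], by linarith [hlu.2]⟩
  have hab : sInf c < sSup c := by
    have h1 := csInf_le hbb hx
    have h2 := le_csSup hba hy
    have h3 := hlu.2
    linarith
  have hI : Ioo (sInf c) (sSup c) ⊆ c :=
    IsConnected.Ioo_csInf_csSup_subset ⟨⟨x, hx⟩, hcc.isPreconnected⟩ hbb hba
  have hI2 : c ⊆ Icc (sInf c) (sSup c) := subset_Icc_csInf_csSup hbb hba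
  refine ⟨sInf c, sSup c, hab, hI, ?_⟩
  have h1 := short_line hW hv hab (fun t ht => hvc t (fun h => ht (hI2 h))) le_rfl hQ
  have h2 : cost W (Icc (sInf c) (sSup c)) = cost W (Ioo (sInf c) (sSup c)) := by
    unfold cost
    rw [integral_Icc_eq_integral_Ioo]
  rw [h2] at h1
  exact h1.trans (Cells_mono hW hI)

/-- The `K` cells which meet `N = ⋃ [lo i, hi i]` (`q` intervals of length `len`): at most `2 q` of
them are not contained in `N` (each of these contains one of the `2 q` end points), the others have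
total length at most `q len` and cost at least `(106/25 - 37/20 length) e0` (`short_line`). -/
theorem cells_short {W : ℝ → ℝ} (hW : Nice W) {j : ℕ} {c : Fin j → Set ℝ}
    (hc : ∀ i, IsOpen (c i) ∧ (c i).OrdConnected) (hd : ∀ i k, i ≠ k → Disjoint (c i) (c k))
    (h : ∀ i, ∀ E' < (9 / 4 : ℝ), ∃ v, Tst v ∧ (∀ t, t ∉ c i → v t = 0) ∧ Q W E' v < 0)
    {q : ℕ} {lo hi : Fin q → ℝ} {len : ℝ} (hlen : ∀ i, hi i = lo i + len) (hl : 0 ≤ len)
    {KK : Finset (Fin j)} (hKK : ∀ i, i ∈ KK ↔ (c i ∩ ⋃ m, Icc (lo m) (hi m)).Nonempty) {Y : Set ℝ}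
    (hY : MeasurableSet Y) (hcY : ∀ i ∈ KK, c i ⊆ Y) :
    (106 / 25 * (KK.card : ℝ) - (162 / 25 + 37 / 20 * len) * q) * e0 ≤ cost W Y := by
  classical
  have he0 : 0 ≤ e0 := by
    unfold e0
    positivity
  set N : Set ℝ := ⋃ m, Icc (lo m) (hi m) with hN
  -- the cells which are not contained in `N`
  set bad : Finset (Fin j) := KK.filter (fun i => ¬ c i ⊆ N) with hbad
  set good : Finset (Fin j) := KK.filter (fun i => c i ⊆ N) with hgood
  have hcard : good.card + bad.card = KK.card := by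
    rw [hgood, hbad]
    exact Finset.card_filter_add_card_filter_not _
  -- at most `2 q` bad cells
  have hbadle : bad.card ≤ 2 * q := by
    have hex : ∀ i ∈ bad, ∃ p : Fin q × Bool, (if p.2 then lo p.1 else hi p.1) ∈ c i := by
      intro i hi'
      rw [hbad, Finset.mem_filter, hKK] at hi'
      obtain ⟨⟨p, hp, hpN⟩, hnot⟩ := hi'
      obtain ⟨p', hp', hpN'⟩ := Set.not_subset.1 hnot
      obtain ⟨m, hm⟩ := mem_iUnion.1 hpN
      have hm' : p' ∉ Icc (lo m) (hi m) := fun hcon => hpN' (mem_iUnion.2 ⟨m, hcon⟩)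
      rcases lt_or_ge p' (lo m) with h1 | h1
      · refine ⟨(m, true), ?_⟩
        simp only [if_true]
        exact (hc i).2.out hp' hp ⟨h1.le, hm.1⟩
      · have h2 : hi m < p' := by
          by_contra hcon
          exact hm' ⟨h1, not_lt.1 hcon⟩
        refine ⟨(m, false), ?_⟩
        simp only [Bool.false_eq_true, if_false]
        exact (hc i).2.out hp hp' ⟨hm.2, h2.le⟩
    choose f hf using hex
    have hinj : Function.Injective (fun i : bad => f i.1 i.2) := by
      intro i k hik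
      by_contra hne
      have h1 := hf i.1 i.2
      have h2 := hf k.1 k.2
      have hik' : f i.1 i.2 = f k.1 k.2 := hik
      rw [hik'] at h1
      exact Set.disjoint_left.1 (hd i.1 k.1 fun hcon => hne (Subtype.ext hcon)) h1 h2
    have h3 := Fintype.card_le_of_injective _ hinj
    simpa [mul_comm] using h3
  -- the intervals of the good cells
  have hNb : ∃ C : ℝ, N ⊆ Icc (-C) C := by
    have h1 : Bornology.IsBounded N := by
      rw [hN, Bornology.isBounded_iUnion]
      intro m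
      exact Metric.isBounded_Icc _ _
    obtain ⟨C, hC⟩ := h1.subset_closedBall 0
    refine ⟨C, fun t ht => ?_⟩
    have h2 := hC ht
    rw [Metric.mem_closedBall, dist_zero_right, Real.norm_eq_abs, abs_le] at h2
    exact h2
  obtain ⟨C, hC⟩ := hNb
  have hcell : ∀ i ∈ good, ∃ ab : ℝ × ℝ, ab.1 < ab.2 ∧ Ioo ab.1 ab.2 ⊆ c i ∧
      (106 / 25 - 37 / 20 * (ab.2 - ab.1)) * e0 ≤ cost W (c i) := by
    intro i hi'
    rw [hgood, Finset.mem_filter] at hi'
    have hsub : c i ⊆ Icc (-C) C := hi'.2.trans hC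
    obtain ⟨a, b, h1, h2, h3⟩ := Cells_ioo hW (hc i).1 (hc i).2
      ⟨-C, fun t ht => (hsub ht).1⟩ ⟨C, fun t ht => (hsub ht).2⟩ (h i)
    exact ⟨(a, b), h1, h2, h3⟩
  choose! ab hab1 hab2 hab3 using hcell
  -- the total length of the good cells
  have hlength : ∑ i ∈ good, ((ab i).2 - (ab i).1) ≤ q * len := by
    have h1 : volume (⋃ i ∈ good, Ioo (ab i).1 (ab i).2) =
        ∑ i ∈ good, volume (Ioo (ab i).1 (ab i).2) := by
      refine measure_biUnion_finset ?_ (fun i _ => measurableSet_Ioo)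
      intro i hi' k hk hik
      exact (hd i k hik).mono (hab2 i hi') (hab2 k hk)
    have h2 : volume (⋃ i ∈ good, Ioo (ab i).1 (ab i).2) ≤ volume N := by
      refine measure_mono ?_
      refine iUnion₂_subset fun i hi' => ?_
      have h3 := hi'
      rw [hgood, Finset.mem_filter] at h3
      exact (hab2 i hi').trans h3.2
    have h3 : volume N ≤ ∑ m : Fin q, volume (Icc (lo m) (hi m)) := by
      rw [hN]
      exact measure_iUnion_fintype_le _ _
    have h4 : ∑ m : Fin q, volume (Icc (lo m) (hi m)) = ENNReal.ofReal (q * len) := by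
      have h5 : ∀ m : Fin q, volume (Icc (lo m) (hi m)) = ENNReal.ofReal len := by
        intro m
        rw [Real.volume_Icc, hlen m]
        congr 1
        ring
      rw [Finset.sum_congr rfl fun m _ => h5 m, Finset.sum_const, Finset.card_univ,
        Fintype.card_fin, ENNReal.ofReal_mul (Nat.cast_nonneg q), ENNReal.ofReal_natCast,
        nsmul_eq_mul]
    have h6 : ∑ i ∈ good, volume (Ioo (ab i).1 (ab i).2) =
        ENNReal.ofReal (∑ i ∈ good, ((ab i).2 - (ab i).1)) := by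
      rw [ENNReal.ofReal_sum_of_nonneg fun i hi' => sub_nonneg.2 (hab1 i hi').le]
      exact Finset.sum_congr rfl fun i _ => Real.volume_Ioo
    have h7 : ENNReal.ofReal (∑ i ∈ good, ((ab i).2 - (ab i).1)) ≤ ENNReal.ofReal (q * len) := by
      rw [← h6, ← h1, ← h4]
      exact h2.trans h3
    exact (ENNReal.ofReal_le_ofReal_iff (by positivity)).1 h7
  -- the sum of the costs
  have hsum : ∑ i ∈ KK, cost W (c i) ≤ cost W Y := by
    have h1 : cost W (⋃ i ∈ KK, c i) = ∑ i ∈ KK, cost W (c i) := by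
      unfold cost
      refine integral_biUnion_finset KK (fun i _ => (hc i).1.measurableSet) ?_
        (fun i _ => (Cells_int hW).integrableOn)
      intro i _ k _ hik
      exact hd i k hik
    rw [← h1]
    exact Cells_mono hW (iUnion₂_subset hcY)
  have hsplit : ∑ i ∈ KK, cost W (c i) = ∑ i ∈ good, cost W (c i) + ∑ i ∈ bad, cost W (c i) := by
    rw [hgood, hbad]
    exact (Finset.sum_filter_add_sum_filter_not KK _ _).symm
  have hb : (bad.card : ℝ) * e0 ≤ ∑ i ∈ bad, cost W (c i) := by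
    rw [← nsmul_eq_mul, ← Finset.sum_const]
    exact Finset.sum_le_sum fun i _ => cell_cost hW (hc i).1 (h i)
  have hg : (106 / 25 * (good.card : ℝ) - 37 / 20 * (q * len)) * e0 ≤
      ∑ i ∈ good, cost W (c i) := by
    have h1 : ∑ i ∈ good, (106 / 25 - 37 / 20 * ((ab i).2 - (ab i).1)) * e0 ≤
        ∑ i ∈ good, cost W (c i) := Finset.sum_le_sum fun i hi' => hab3 i hi'
    have h2 : ∑ i ∈ good, (106 / 25 - 37 / 20 * ((ab i).2 - (ab i).1)) * e0 =
        (106 / 25 * (good.card : ℝ) - 37 / 20 * ∑ i ∈ good, ((ab i).2 - (ab i).1)) * e0 := by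
      rw [← Finset.sum_mul, Finset.sum_sub_distrib, Finset.sum_const, ← Finset.mul_sum,
        nsmul_eq_mul]
      ring
    rw [h2] at h1
    refine le_trans ?_ h1
    refine mul_le_mul_of_nonneg_right ?_ he0
    linarith
  have hcardR : (good.card : ℝ) + (bad.card : ℝ) = (KK.card : ℝ) := by
    exact_mod_cast hcard
  have hbadR : (bad.card : ℝ) ≤ 2 * q := by
    exact_mod_cast hbadle
  have hfin : (106 / 25 * (KK.card : ℝ) - (162 / 25 + 37 / 20 * len) * q) * e0 ≤
      (106 / 25 * (good.card : ℝ) - 37 / 20 * (q * len)) * e0 + (bad.card : ℝ) * e0 := by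
    rw [← add_mul]
    refine mul_le_mul_of_nonneg_right ?_ he0
    rw [← hcardR]
    linarith
  linarith

end Pool.Agent.CLR5
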