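import Mathlib

/-! Row Const: the constants (compare `const_value`, `aL_sup` in Pool/Agent/CLR3/Radial.lean). -/

namespace Pool.Agent.CLR5

private theorem Const_pow (y : ℝ) (hy : 0 ≤ y) : y ^ ((5 : ℝ) / 2) = (Real.sqrt y) ^ 5 := by
  rw [Real.sqrt_eq_rpow, ← Real.rpow_natCast, ← Real.rpow_mul hy]
  norm_num

private theorem Const_sqrt4 : Real.sqrt 4 = 2 := by
  rw [show (4 : ℝ) = 2 ^ 2 by norm_num]
  exact Real.sqrt_sq (by norm_num)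

private theorem Const_15 : ((15 : ℝ) / 4) ^ ((5 : ℝ) / 2) = 225 / 32 * Real.sqrt 15 := by
  have h15 : Real.sqrt 15 ^ 2 = 15 := Real.sq_sqrt (by norm_num)
  rw [Const_pow _ (by norm_num), Real.sqrt_div (by norm_num), Const_sqrt4]
  have : (Real.sqrt 15 / 2) ^ 5 = (Real.sqrt 15 ^ 2) ^ 2 * Real.sqrt 15 / 32 := by ring
  rw [this, h15]
  ring

/-- `L^cl_{0,5} * a_0`. -/
theorem const_value : (4 * Real.pi) ^ (-(5 : ℝ) / 2) / Real.Gamma (1 + (5 : ℝ) / 2) *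
    (60 / (15 / 4 : ℝ) ^ ((5 : ℝ) / 2)) = 1 / (225 / 32 * Real.sqrt 15 * Real.pi ^ 3) := by
  have hpi := Real.pi_pos
  have hsp : 0 < Real.sqrt Real.pi := Real.sqrt_pos.2 hpi
  have h15 : 0 < Real.sqrt 15 := Real.sqrt_pos.2 (by norm_num)
  have hsp2 : Real.sqrt Real.pi ^ 2 = Real.pi := Real.sq_sqrt hpi.le
  have hG : Real.Gamma (1 + (5 : ℝ) / 2) = 15 / 8 * Real.sqrt Real.pi := by
    have e1 : (1 + (5 : ℝ) / 2) = ((1 / 2 + 1) + 1) + 1 := by norm_num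
    rw [e1, Real.Gamma_add_one (by norm_num), Real.Gamma_add_one (by norm_num),
      Real.Gamma_add_one (by norm_num), Real.Gamma_one_half_eq]
    ring
  have hP : (4 * Real.pi) ^ (-(5 : ℝ) / 2) = 1 / (32 * (Real.sqrt Real.pi) ^ 5) := by
    have h4 : (0 : ℝ) ≤ 4 * Real.pi := by positivity
    have e2 : (-(5 : ℝ) / 2) = -((5 : ℝ) / 2) := by ring
    rw [e2, Real.rpow_neg h4, Const_pow _ h4, Real.sqrt_mul (by norm_num), Const_sqrt4, mul_pow]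
    norm_num
  rw [hG, hP, Const_15]
  have e4 : Real.pi ^ 3 = Real.sqrt Real.pi ^ 6 := by
    calc Real.pi ^ 3 = (Real.sqrt Real.pi ^ 2) ^ 3 := by rw [hsp2]
      _ = Real.sqrt Real.pi ^ 6 := by ring
  rw [e4]
  field_simp
  norm_num

/-- The supremum of the numbers `a_L` in dimension five is `a_0 = 60 / (15/4)^(5/2)`. -/
theorem aL_sup : IsLUB (Set.range (fun L : ℕ =>
        ((Nat.factorial (L + 5 - 1) : ℝ) / (Nat.factorial L : ℝ)) * ((L : ℝ) + (5 : ℝ) / 2) /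
          (((L : ℝ) + ((5 : ℝ) - 2) / 2) * ((L : ℝ) + (5 : ℝ) / 2)) ^ ((5 : ℝ) / 2)))
    (60 / (15 / 4 : ℝ) ^ ((5 : ℝ) / 2)) := by
  have hfac : ∀ L : ℕ, ((Nat.factorial (L + 5 - 1) : ℝ) / (Nat.factorial L : ℝ)) =
      ((L : ℝ) + 4) * ((L : ℝ) + 3) * ((L : ℝ) + 2) * ((L : ℝ) + 1) := by
    intro L
    have : L + 5 - 1 = (((L + 1) + 1) + 1) + 1 := by omega
    rw [this, Nat.factorial_succ, Nat.factorial_succ, Nat.factorial_succ, Nat.factorial_succ]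
    have hL : (Nat.factorial L : ℝ) ≠ 0 := by exact_mod_cast Nat.factorial_ne_zero L
    push_cast
    field_simp
    ring
  have hc0 : 0 < ((15 : ℝ) / 4) ^ ((5 : ℝ) / 2) := Real.rpow_pos_of_pos (by norm_num) _
  have hle : ∀ L : ℕ, ((Nat.factorial (L + 5 - 1) : ℝ) / (Nat.factorial L : ℝ)) *
      ((L : ℝ) + (5 : ℝ) / 2) /
          (((L : ℝ) + ((5 : ℝ) - 2) / 2) * ((L : ℝ) + (5 : ℝ) / 2)) ^ ((5 : ℝ) / 2) ≤
      60 / (15 / 4 : ℝ) ^ ((5 : ℝ) / 2) := by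
    intro L
    have hL : (0 : ℝ) ≤ L := Nat.cast_nonneg L
    rw [hfac]
    set x : ℝ := (L : ℝ) with hx
    have hy0 : 0 < (x + ((5 : ℝ) - 2) / 2) * (x + (5 : ℝ) / 2) := by
      apply mul_pos <;> linarith
    set y := (x + ((5 : ℝ) - 2) / 2) * (x + (5 : ℝ) / 2) with hy
    have hsy : 0 < Real.sqrt y := Real.sqrt_pos.2 hy0
    rw [div_le_div_iff₀ (Real.rpow_pos_of_pos hy0 _) hc0, Const_pow y hy0.le,
      Const_pow (15 / 4) (by norm_num)]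
    refine abs_le_of_sq_le_sq ?_ (by positivity) |> fun h => le_trans (le_abs_self _) h
    have e5 : (Real.sqrt y ^ 5) ^ 2 = y ^ 5 := by
      rw [← pow_mul, mul_comm 5 2, pow_mul, Real.sq_sqrt hy0.le]
    have e5' : (Real.sqrt (15 / 4) ^ 5) ^ 2 = (15 / 4 : ℝ) ^ 5 := by
      rw [← pow_mul, mul_comm 5 2, pow_mul, Real.sq_sqrt (by norm_num)]
    rw [mul_pow _ (Real.sqrt (15 / 4) ^ 5), mul_pow 60, e5, e5', hy]
    have hprod : ((x + 4) * (x + 3) * (x + 2) * (x + 1)) ^ 2 * (15 / 4 : ℝ) ^ 5 ≤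
        3600 * (x + 3 / 2) ^ 5 * (x + 5 / 2) ^ 3 := by
      rw [← sub_nonneg]
      ring_nf
      positivity
    have hmul := mul_le_mul_of_nonneg_right hprod (show 0 ≤ (x + 5 / 2) ^ 2 by positivity)
    have e6 : (3600 * (x + 3 / 2) ^ 5 * (x + 5 / 2) ^ 3) * (x + 5 / 2) ^ 2 =
        60 ^ 2 * ((x + ((5 : ℝ) - 2) / 2) * (x + (5 : ℝ) / 2)) ^ 5 := by ring
    have e7 : ((x + 4) * (x + 3) * (x + 2) * (x + 1)) ^ 2 * (15 / 4 : ℝ) ^ 5 * (x + 5 / 2) ^ 2 =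
        ((x + 4) * (x + 3) * (x + 2) * (x + 1) * (x + 5 / 2)) ^ 2 * (15 / 4 : ℝ) ^ 5 := by ring
    rw [e6, e7] at hmul
    exact hmul
  refine ⟨?_, ?_⟩
  · rintro _ ⟨L, rfl⟩
    exact hle L
  · intro b hb
    have h0 := hb ⟨0, rfl⟩
    simp only [hfac] at h0
    norm_num at h0 ⊢
    exact h0

end Pool.Agent.CLR5
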