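import Pool.Agent.Lib.MP_efa090_mp.Tst2

/-! Row One: the sharp bound for one bound state. -/

open MeasureTheory Set Real

namespace Pool.Agent.CLR5

/-- The polynomial form of the sharp Young inequality. -/
private lemma one_young_aux (q w : ℝ) (hq : 0 ≤ q) (hw : 0 ≤ w) :
    5 * (w ^ 2 * q ^ 3) ≤ 3 * q ^ 5 + 2 * w ^ 5 := by
  have h : 0 ≤ (q - w) ^ 2 * (3 * q ^ 3 + 6 * q ^ 2 * w + 4 * q * w ^ 2 + 2 * w ^ 3) := by
    positivity
  have e : (q - w) ^ 2 * (3 * q ^ 3 + 6 * q ^ 2 * w + 4 * q * w ^ 2 + 2 * w ^ 3) =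
      3 * q ^ 5 + 2 * w ^ 5 - 5 * (w ^ 2 * q ^ 3) := by ring
  linarith

/-- Young inequality with a parameter. -/
private lemma one_young {E k u W : ℝ} (_hE : 0 < E) (hk : 0 < k) (hkE : k ^ 2 * (5 * E) = 3)
    (hW : 0 ≤ W) :
    W * u ^ 2 - E * |u| ^ ((10 : ℝ) / 3) ≤ 2 / 5 * k ^ 3 * W ^ ((5 : ℝ) / 2) := by
  have h1 : W ^ ((5 : ℝ) / 2) = (Real.sqrt W) ^ 5 := by
    rw [Real.sqrt_eq_rpow, ← Real.rpow_natCast, ← Real.rpow_mul hW]
    norm_num
  have h2 : |u| ^ ((10 : ℝ) / 3) = (|u| ^ ((2 : ℝ) / 3)) ^ 5 := by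
    rw [← Real.rpow_natCast, ← Real.rpow_mul (abs_nonneg u)]
    norm_num
  have h3 : u ^ 2 = (|u| ^ ((2 : ℝ) / 3)) ^ 3 := by
    rw [← Real.rpow_natCast (|u| ^ ((2 : ℝ) / 3)), ← Real.rpow_mul (abs_nonneg u), ← sq_abs u]
    norm_num
  rw [h1, h2, h3]
  set w := Real.sqrt W with hw
  have hw0 : 0 ≤ w := Real.sqrt_nonneg _
  have hWw : W = w ^ 2 := (Real.sq_sqrt hW).symm
  set p := |u| ^ ((2 : ℝ) / 3) with hp
  have hp0 : 0 ≤ p := Real.rpow_nonneg (abs_nonneg _) _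
  rw [hWw]
  have h := one_young_aux (p / k) w (div_nonneg hp0 hk.le) hw0
  have h4 : k ^ 3 / 5 * (5 * (w ^ 2 * (p / k) ^ 3)) ≤
      k ^ 3 / 5 * (3 * (p / k) ^ 5 + 2 * w ^ 5) :=
    mul_le_mul_of_nonneg_left h (by positivity)
  have e1 : k ^ 3 / 5 * (5 * (w ^ 2 * (p / k) ^ 3)) = w ^ 2 * p ^ 3 := by field_simp
  have e2 : k ^ 3 / 5 * (3 * (p / k) ^ 5 + 2 * w ^ 5) =
      (3 / (5 * k ^ 2)) * p ^ 5 + 2 / 5 * k ^ 3 * w ^ 5 := by
    field_simp
  have e3 : 3 / (5 * k ^ 2) = E := by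
    rw [div_eq_iff (by positivity)]
    linarith
  rw [e1, e2, e3] at h4
  linarith

/-- the integrand -/
private noncomputable def oneg (E : ℝ) (u : ℝ) : ℝ :=
  Real.sqrt (E * (u ^ 2 - |u| ^ ((10 : ℝ) / 3)))

private lemma oneg_cont (E : ℝ) : Continuous (oneg E) := by
  have h : Continuous fun u : ℝ => |u| ^ ((10 : ℝ) / 3) :=
    continuous_abs.rpow_const fun _ => Or.inr (by norm_num)
  unfold oneg
  exact Real.continuous_sqrt.comp (continuous_const.mul ((continuous_pow 2).sub h))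

private lemma oneg_nonneg (E u : ℝ) : 0 ≤ oneg E u := Real.sqrt_nonneg _

private lemma oneg_neg (E u : ℝ) : oneg E (-u) = oneg E u := by
  unfold oneg
  rw [abs_neg, neg_sq]

/-- the integral -/
private lemma one_int {E : ℝ} (hE : 0 < E) :
    ∫ u in (0 : ℝ)..1, oneg E u = 3 * π / 32 * Real.sqrt E := by
  have hder : ∀ φ ∈ uIcc 0 (π / 2), HasDerivAt (fun φ => sin φ ^ ((3 : ℝ) / 2))
      (cos φ * (3 / 2) * sin φ ^ ((3 : ℝ) / 2 - 1)) φ := fun φ _ =>
    (Real.hasDerivAt_sin φ).rpow_const (Or.inr (by norm_num))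
  have hc : Continuous fun φ : ℝ => cos φ * (3 / 2) * sin φ ^ ((3 : ℝ) / 2 - 1) := by
    have : Continuous fun φ : ℝ => sin φ ^ ((3 : ℝ) / 2 - 1) :=
      Real.continuous_sin.rpow_const fun _ => Or.inr (by norm_num)
    exact (Real.continuous_cos.mul continuous_const).mul this
  have h := intervalIntegral.integral_comp_mul_deriv hder hc.continuousOn (oneg_cont E)
  simp only [Real.sin_zero, Real.sin_pi_div_two, Real.one_rpow] at h
  rw [Real.zero_rpow (by norm_num)] at h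
  rw [← h]
  have h2 : ∫ φ in (0 : ℝ)..(π / 2), (oneg E ∘ fun φ => sin φ ^ ((3 : ℝ) / 2)) φ *
      (cos φ * (3 / 2) * sin φ ^ ((3 : ℝ) / 2 - 1)) =
      ∫ φ in (0 : ℝ)..(π / 2), (3 / 2 * Real.sqrt E) * (sin φ ^ 2 * cos φ ^ 2) := by
    refine intervalIntegral.integral_congr fun φ hφ => ?_
    rw [uIcc_of_le (by positivity)] at hφ
    have hs : 0 ≤ sin φ := Real.sin_nonneg_of_nonneg_of_le_pi hφ.1 (by linarith [hφ.2, Real.pi_pos])
    have hcs : 0 ≤ cos φ := Real.cos_nonneg_of_mem_Icc ⟨by linarith [hφ.1, Real.pi_pos], hφ.2⟩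
    have ha : |sin φ ^ ((3 : ℝ) / 2)| = sin φ ^ ((3 : ℝ) / 2) :=
      abs_of_nonneg (Real.rpow_nonneg hs _)
    have e1 : (sin φ ^ ((3 : ℝ) / 2)) ^ 2 = sin φ ^ 3 := by
      rw [← Real.rpow_natCast (sin φ ^ ((3 : ℝ) / 2)), ← Real.rpow_mul hs,
        ← Real.rpow_natCast (sin φ)]
      norm_num
    have e2 : (sin φ ^ ((3 : ℝ) / 2)) ^ ((10 : ℝ) / 3) = sin φ ^ 5 := by
      rw [← Real.rpow_mul hs, ← Real.rpow_natCast (sin φ)]
      norm_num
    have e3 : sin φ ^ ((3 : ℝ) / 2) * sin φ ^ ((3 : ℝ) / 2 - 1) = sin φ ^ 2 := by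
      rw [← Real.rpow_add' hs (by norm_num)]
      norm_num
    have e4 : oneg E (sin φ ^ ((3 : ℝ) / 2)) =
        Real.sqrt E * (sin φ ^ ((3 : ℝ) / 2) * cos φ) := by
      unfold oneg
      rw [ha, e1, e2, Real.sqrt_mul hE.le]
      congr 1
      have : sin φ ^ 3 - sin φ ^ 5 = (sin φ ^ ((3 : ℝ) / 2) * cos φ) ^ 2 := by
        rw [mul_pow, e1, Real.cos_sq']
        ring
      rw [this, Real.sqrt_sq (mul_nonneg (Real.rpow_nonneg hs _) hcs)]
    simp only [Function.comp]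
    rw [e4]
    calc Real.sqrt E * (sin φ ^ ((3 : ℝ) / 2) * cos φ) *
          (cos φ * (3 / 2) * sin φ ^ ((3 : ℝ) / 2 - 1))
        = (3 / 2 * Real.sqrt E) * ((sin φ ^ ((3 : ℝ) / 2) * sin φ ^ ((3 : ℝ) / 2 - 1)) *
          cos φ ^ 2) := by ring
      _ = _ := by rw [e3]
  rw [h2, intervalIntegral.integral_const_mul, integral_sin_sq_mul_cos_sq]
  have e5 : sin (4 * (π / 2)) = 0 := by
    rw [show 4 * (π / 2) = 2 * π by ring, Real.sin_two_pi]
  rw [e5, mul_zero, Real.sin_zero]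
  ring

/-- the normalised statement -/
private lemma one_norm {W : ℝ → ℝ} (hW : Nice W) {v : ℝ → ℝ} (hv : Tst v) {A : Set ℝ}
    (hA : MeasurableSet A) (hvA : ∀ t, t ∉ A → v t = 0) {E : ℝ} (hE : 0 < E)
    (h : Q W E v < 0) {x : ℝ} (hx : |v x| = 1) (hM : ∀ t, |v t| ≤ 1) :
    e0 * (4 * E / 9) ^ 2 ≤ cost W A := by
  have hpi := Real.pi_pos
  set k : ℝ := Real.sqrt (3 / (5 * E)) with hk
  have hk0 : 0 < k := Real.sqrt_pos.2 (by positivity)
  have hk2 : k ^ 2 = 3 / (5 * E) := Real.sq_sqrt (by positivity)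
  have hkE : k ^ 2 * (5 * E) = 3 := by rw [hk2]; field_simp
  have hvc : Continuous v := hv.continuous
  -- the primitive
  set G : ℝ → ℝ := fun u => ∫ r in (0 : ℝ)..u, oneg E r with hG
  have hGd : ∀ u, HasDerivAt G (oneg E u) u := fun u =>
    (oneg_cont E).integral_hasStrictDerivAt 0 u |>.hasDerivAt
  have hG0 : G 0 = 0 := by simp [hG]
  have hG1 : |G (v x)| = 3 * π / 32 * Real.sqrt E := by
    have hp : 0 ≤ 3 * π / 32 * Real.sqrt E := by positivity
    have hGn : G (-1) = -G 1 := by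
      have := intervalIntegral.integral_comp_neg (a := (0 : ℝ)) (b := 1) (oneg E)
      simp only [oneg_neg, neg_zero] at this
      simp only [hG]
      rw [intervalIntegral.integral_symm, ← this]
    have h1 : G 1 = 3 * π / 32 * Real.sqrt E := one_int hE
    rcases (abs_eq (by norm_num : (0 : ℝ) ≤ 1)).1 hx with e | e
    · rw [e, h1, abs_of_nonneg hp]
    · rw [e, hGn, abs_neg, h1, abs_of_nonneg hp]
  have hpath := hv.path (oneg_cont E) (fun u => Real.sqrt_nonneg _) hGd hG0 x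
  rw [hG1] at hpath
  -- integrability
  obtain ⟨i1, i2⟩ := hv.int_sq
  have i3 : Integrable (fun t => |v t| ^ ((10 : ℝ) / 3)) := by
    refine Continuous.integrable_of_hasCompactSupport
      (hvc.abs.rpow_const fun _ => Or.inr (by norm_num)) ?_
    have := hv.cs.comp_left (g := fun u : ℝ => |u| ^ ((10 : ℝ) / 3))
      (by simp only [abs_zero]; exact Real.zero_rpow (by norm_num))
    exact this
  have i4 : Integrable (fun t => W t * v t ^ 2) := by
    have := (hv.int_mul hv hW.cont).1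
    refine this.congr (Filter.Eventually.of_forall fun t => ?_)
    simp only
    ring
  have i5 : Integrable (fun t => W t ^ ((5 : ℝ) / 2)) := by
    refine Continuous.integrable_of_hasCompactSupport
      (hW.cont.rpow_const fun _ => Or.inr (by norm_num)) ?_
    have := hW.cs.comp_left (g := fun u : ℝ => u ^ ((5 : ℝ) / 2))
      (Real.zero_rpow (by norm_num))
    exact this
  have i6 : Integrable (fun t => deriv v t ^ 2 + E * (v t ^ 2 - |v t| ^ ((10 : ℝ) / 3))) :=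
    i2.add ((i1.sub i3).const_mul _)
  -- the pointwise bound for the path
  have hpt : ∀ t, oneg E (v t) * |deriv v t| ≤
      (deriv v t ^ 2 + E * (v t ^ 2 - |v t| ^ ((10 : ℝ) / 3))) / 2 := by
    intro t
    have hn : 0 ≤ E * (v t ^ 2 - |v t| ^ ((10 : ℝ) / 3)) := by
      refine mul_nonneg hE.le (sub_nonneg.2 ?_)
      have h1 := Real.rpow_le_rpow_of_exponent_ge' (abs_nonneg (v t)) (hM t)
        (by norm_num : (0 : ℝ) ≤ 2) (by norm_num : (2 : ℝ) ≤ 10 / 3)
      rwa [Real.rpow_two, sq_abs] at h1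
    have hs := Real.sq_sqrt hn
    have h2 := sq_nonneg (oneg E (v t) - |deriv v t|)
    have h3 : oneg E (v t) ^ 2 = E * (v t ^ 2 - |v t| ^ ((10 : ℝ) / 3)) := hs
    have h4 : |deriv v t| ^ 2 = deriv v t ^ 2 := sq_abs _
    nlinarith
  have i7 : Integrable (fun t => oneg E (v t) * |deriv v t|) := by
    refine Integrable.mono' (i6.div_const 2) ?_ (Filter.Eventually.of_forall fun t => ?_)
    · exact ((oneg_cont E).comp hvc).aestronglyMeasurable.mul
        (measurable_deriv v).abs.aestronglyMeasurable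
    · rw [Real.norm_eq_abs, abs_of_nonneg (mul_nonneg (oneg_nonneg _ _) (abs_nonneg _))]
      exact hpt t
  have hI1 : ∫ t, oneg E (v t) * |deriv v t| ≤
      (∫ t, (deriv v t ^ 2 + E * (v t ^ 2 - |v t| ^ ((10 : ℝ) / 3)))) / 2 := by
    rw [← integral_div]
    exact integral_mono i7 (i6.div_const 2) hpt
  have hI2 : ∫ t, (deriv v t ^ 2 + E * (v t ^ 2 - |v t| ^ ((10 : ℝ) / 3))) =
      Q W E v + ∫ t, (W t * v t ^ 2 - E * |v t| ^ ((10 : ℝ) / 3)) := by
    unfold Q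
    have i8 : Integrable (fun t => deriv v t ^ 2 + E * v t ^ 2 - W t * v t ^ 2) :=
      (i2.add (i1.const_mul _)).sub i4
    have i9 : Integrable (fun t => W t * v t ^ 2 - E * |v t| ^ ((10 : ℝ) / 3)) :=
      i4.sub (i3.const_mul _)
    rw [← integral_add i8 i9]
    refine integral_congr_ae (Filter.Eventually.of_forall fun t => ?_)
    simp only
    ring
  have hI3 : ∫ t, (W t * v t ^ 2 - E * |v t| ^ ((10 : ℝ) / 3)) ≤
      2 / 5 * k ^ 3 * cost W A := by
    unfold cost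
    rw [← integral_indicator hA, ← integral_const_mul]
    refine integral_mono (i4.sub (i3.const_mul _)) ((i5.indicator hA).const_mul _) fun t => ?_
    simp only
    by_cases ht : t ∈ A
    · rw [indicator_of_mem ht]
      exact one_young hE hk0 hkE (hW.nonneg t)
    · rw [indicator_of_notMem ht, hvA t ht, abs_zero, Real.zero_rpow (by norm_num)]
      simp
  have hmain : 3 * π / 8 * Real.sqrt E ≤ 2 / 5 * k ^ 3 * cost W A := by linarith
  -- the constants
  have hsE : Real.sqrt E ^ 2 = E := Real.sq_sqrt hE.le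
  have hsE0 : 0 < Real.sqrt E := Real.sqrt_pos.2 hE
  have h15 : Real.sqrt 15 ^ 2 = 15 := Real.sq_sqrt (by norm_num)
  have h150 : 0 < Real.sqrt 15 := Real.sqrt_pos.2 (by norm_num)
  have hkk : k * (5 * Real.sqrt E) = Real.sqrt 15 := by
    have h1 : (k * (5 * Real.sqrt E)) ^ 2 = Real.sqrt 15 ^ 2 := by
      rw [mul_pow, mul_pow, hsE, h15, hk2]
      field_simp
      norm_num
    exact (pow_left_inj₀ (by positivity) h150.le (by norm_num)).1 h1
  have hk3 : k ^ 3 = 3 / (5 * E) * (Real.sqrt 15 / (5 * Real.sqrt E)) := by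
    have : k = Real.sqrt 15 / (5 * Real.sqrt E) := by
      rw [eq_div_iff (by positivity)]
      exact hkk
    calc k ^ 3 = k ^ 2 * k := by ring
      _ = _ := by rw [hk2]; nth_rewrite 1 [this]; rfl
  rw [hk3] at hmain
  unfold e0
  have h5 : 0 ≤ 25 / 18 * Real.sqrt 15 * (E * Real.sqrt E) := by positivity
  have h6 := mul_le_mul_of_nonneg_left hmain h5
  have e6 : 25 / 18 * Real.sqrt 15 * (E * Real.sqrt E) * (3 * π / 8 * Real.sqrt E) =
      225 / 32 * Real.sqrt 15 * (3 * π / 8) * (4 * E / 9) ^ 2 := by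
    calc 25 / 18 * Real.sqrt 15 * (E * Real.sqrt E) * (3 * π / 8 * Real.sqrt E)
        = 25 / 18 * Real.sqrt 15 * (E * Real.sqrt E ^ 2) * (3 * π / 8) := by ring
      _ = _ := by rw [hsE]; ring
  have e7 : 25 / 18 * Real.sqrt 15 * (E * Real.sqrt E) *
      (2 / 5 * (3 / (5 * E) * (Real.sqrt 15 / (5 * Real.sqrt E))) * cost W A) =
      cost W A := by
    have e8 : E * Real.sqrt E * (3 / (5 * E) * (1 / (5 * Real.sqrt E))) = 3 / 25 := by
      field_simp
      norm_num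
    calc 25 / 18 * Real.sqrt 15 * (E * Real.sqrt E) *
        (2 / 5 * (3 / (5 * E) * (Real.sqrt 15 / (5 * Real.sqrt E))) * cost W A)
        = 5 / 9 * Real.sqrt 15 ^ 2 * (E * Real.sqrt E * (3 / (5 * E) * (1 / (5 * Real.sqrt E)))) *
          cost W A := by ring
      _ = _ := by rw [e8, h15]; ring
  rw [e6, e7] at h6
  exact h6

/-- Sharp one-state bound: `e0 (E / (9/4))^2 <= ∫_A W^(5/2)`.
Proof: `M = max |v|`, `b = E M^(-4/3)`; Young `W P <= b P^(5/3) + (2/5) (3/(5b))^(3/2) W^(5/2)` with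
`P = v^2`; `g(u)^2 = E u^2 - b |u|^(10/3) >= 0` for `|u| <= M`, `∫ v'^2 + g(v)^2 >= 2 ∫ g(v)|v'| >=
4 ∫_0^M g = (3 pi / 8) sqrt E M^2` (`Tst.path`; for the integral put `u = M sin(φ)^(3/2)`). -/
theorem one_state {W : ℝ → ℝ} (hW : Nice W) {v : ℝ → ℝ} (hv : Tst v) {A : Set ℝ}
    (hA : MeasurableSet A) (hvA : ∀ t, t ∉ A → v t = 0) {E : ℝ} (hE : 0 < E)
    (h : Q W E v < 0) : e0 * (4 * E / 9) ^ 2 ≤ cost W A := by
  obtain ⟨x, hx⟩ : ∃ x, ∀ t, |v t| ≤ |v x| := by
    have hc : Continuous fun t => |v t| := hv.continuous.abs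
    have hs : HasCompactSupport fun t => |v t| :=
      hv.cs.comp_left (g := fun u : ℝ => |u|) abs_zero
    exact hc.exists_forall_ge_of_hasCompactSupport hs
  have hx0 : v x ≠ 0 := by
    intro e
    have h0 : v = fun _ => 0 := by
      funext t
      have := hx t
      rw [e, abs_zero] at this
      exact abs_eq_zero.1 (le_antisymm this (abs_nonneg _))
    rw [h0, Q_zero] at h
    exact lt_irrefl _ h
  have hp : 0 < |v x| := abs_pos.2 hx0
  have hQ : Q W E (fun t => |v x|⁻¹ * v t) < 0 := by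
    rw [Q_smul]
    exact mul_neg_of_pos_of_neg (by positivity) h
  refine one_norm hW (hv.smul _) hA (fun t ht => ?_) hE hQ (x := x) ?_ fun t => ?_
  · rw [hvA t ht, mul_zero]
  · rw [abs_mul, abs_inv, abs_abs, inv_mul_cancel₀ hp.ne']
  · rw [abs_mul, abs_inv, abs_abs, inv_mul_le_iff₀ hp, mul_one]
    exact hx t

end Pool.Agent.CLR5
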