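import Pool.Agent.Lib.MP_efa090_mp.NegA
import Pool.Agent.Lib.MP_efa090_mp.One

/-! Row Cores: a maximal family of disjoint deep windows. -/

open MeasureTheory Set Real

namespace Pool.Agent.CLR5

/-- a test function vanishing outside `[x, x + l]` vanishes at `x + l` -/
private theorem cores_end {v : ℝ → ℝ} (hv : Tst v) {x l : ℝ}
    (h : ∀ t, t ∉ Icc x (x + l) → v t = 0) : v (x + l) = 0 := by
  have hc := hv.continuous
  have h1 : Filter.Tendsto v (nhdsWithin (x + l) (Ioi (x + l))) (nhds (v (x + l))) :=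
    hc.continuousWithinAt
  have h2 : Filter.Tendsto v (nhdsWithin (x + l) (Ioi (x + l))) (nhds 0) := by
    refine (tendsto_const_nhds (x := (0 : ℝ))).congr' ?_
    filter_upwards [self_mem_nhdsWithin] with t ht
    exact (h t (fun h' => absurd h'.2 (not_le.mpr ht))).symm
  exact tendsto_nhds_unique h1 h2

private theorem cores_int {W : ℝ → ℝ} (hW : Nice W) :
    Integrable (fun t => W t ^ ((5 : ℝ) / 2)) := by
  refine Continuous.integrable_of_hasCompactSupport
    (hW.cont.rpow_const (fun x => Or.inr (by norm_num))) ?_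
  exact hW.cs.comp_left (g := fun s : ℝ => s ^ ((5 : ℝ) / 2)) (Real.zero_rpow (by norm_num))

private theorem cores_bound {W : ℝ → ℝ} (hW : Nice W) {E l : ℝ} (hE : 0 < E) {q : ℕ}
    (a : Fin q → ℝ)
    (ha : ∀ i, ∃ v, Tst v ∧ (∀ t, t ∉ Icc (a i) (a i + l) → v t = 0) ∧ Q W E v < 0)
    (hd : ∀ i j, i ≠ j → l ≤ |a i - a j|) :
    (q : ℝ) * (e0 * (4 * E / 9) ^ 2) ≤ ∫ t, W t ^ ((5 : ℝ) / 2) := by
  have hint := cores_int hW
  have hcost : ∀ i, e0 * (4 * E / 9) ^ 2 ≤ ∫ t in Ico (a i) (a i + l), W t ^ ((5 : ℝ) / 2) := by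
    intro i
    obtain ⟨v, hv, hv0, hvn⟩ := ha i
    refine one_state hW hv measurableSet_Ico (fun t ht => ?_) hE hvn
    by_cases h : t ∈ Icc (a i) (a i + l)
    · have h1 : t = a i + l := by
        by_contra h2
        exact ht ⟨h.1, lt_of_le_of_ne h.2 h2⟩
      rw [h1]
      exact cores_end hv hv0
    · exact hv0 t h
  have hdis : Set.Pairwise (↑(Finset.univ : Finset (Fin q)))
      (Function.onFun Disjoint fun i => Ico (a i) (a i + l)) := by
    intro i _ j _ hij
    change Disjoint (Ico (a i) (a i + l)) (Ico (a j) (a j + l))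
    rw [Set.disjoint_left]
    intro t h1 h2
    have h3 := hd i j hij
    rcases le_abs.mp h3 with h4 | h4
    · linarith [h1.1, h1.2, h2.1, h2.2]
    · linarith [h1.1, h1.2, h2.1, h2.2]
  have hsum := integral_biUnion_finset (μ := volume) (f := fun t => W t ^ ((5 : ℝ) / 2))
    (Finset.univ : Finset (Fin q)) (s := fun i => Ico (a i) (a i + l))
    (fun i _ => measurableSet_Ico) hdis (fun i _ => hint.integrableOn)
  have h0 : ∀ t, 0 ≤ W t ^ ((5 : ℝ) / 2) := fun t => Real.rpow_nonneg (hW.nonneg t) _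
  calc (q : ℝ) * (e0 * (4 * E / 9) ^ 2) = ∑ _i : Fin q, e0 * (4 * E / 9) ^ 2 := by
        rw [Finset.sum_const, Finset.card_univ, Fintype.card_fin, nsmul_eq_mul]
    _ ≤ ∑ i : Fin q, ∫ t in Ico (a i) (a i + l), W t ^ ((5 : ℝ) / 2) :=
        Finset.sum_le_sum fun i _ => hcost i
    _ = ∫ t in ⋃ i ∈ (Finset.univ : Finset (Fin q)), Ico (a i) (a i + l),
          W t ^ ((5 : ℝ) / 2) := hsum.symm
    _ ≤ ∫ t, W t ^ ((5 : ℝ) / 2) :=
        setIntegral_le_integral hint (Filter.Eventually.of_forall h0)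

/-- Take a finite set of points `x` with a negative vector in `[x, x + l]`, at mutual distances
`>= l`, of maximal cardinality; the cardinality is bounded by `one_state`. -/
theorem cores {W : ℝ → ℝ} (hW : Nice W) {E l : ℝ} (hE : 0 < E) (hl : 0 < l) :
    ∃ (q : ℕ) (a : Fin q → ℝ), Neg W E (⋃ i, Icc (a i) (a i + l)) q ∧
      ∀ x, (∃ v, Tst v ∧ (∀ t, t ∉ Icc x (x + l) → v t = 0) ∧ Q W E v < 0) →
        ∃ i, |x - a i| < l := by
  classical
  set P : ℝ → Prop := fun x => ∃ v, Tst v ∧ (∀ t, t ∉ Icc x (x + l) → v t = 0) ∧ Q W E v < 0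
    with hP
  set S : Set ℕ := {q | ∃ a : Fin q → ℝ, (∀ i, P (a i)) ∧ ∀ i j, i ≠ j → l ≤ |a i - a j|} with hS
  have he0 : 0 < e0 * (4 * E / 9) ^ 2 := by
    unfold e0
    positivity
  have hbdd : BddAbove S := by
    refine ⟨⌊(∫ t, W t ^ ((5 : ℝ) / 2)) / (e0 * (4 * E / 9) ^ 2)⌋₊, ?_⟩
    rintro q ⟨a, ha, hd⟩
    have h1 := cores_bound hW hE a ha hd
    exact Nat.le_floor ((le_div_iff₀ he0).mpr h1)
  have hne : S.Nonempty := ⟨0, Fin.elim0, fun i => i.elim0, fun i => i.elim0⟩
  obtain ⟨q, ⟨a, ha, hd⟩, hmax⟩ : ∃ q, q ∈ S ∧ ∀ r ∈ S, r ≤ q :=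
    ⟨sSup S, Nat.sSup_mem hne hbdd, fun r hr => le_csSup hbdd hr⟩
  refine ⟨q, a, ?_, ?_⟩
  · choose v hv hv0 hvn using ha
    refine Neg.of_disjoint hW.cont v hv ?_ ?_ hvn
    · intro i t ht
      refine hv0 i t fun h => ht ?_
      exact mem_iUnion.mpr ⟨i, h⟩
    · intro i j hij t
      by_cases hi : t ∈ Icc (a i) (a i + l)
      · by_cases hj : t ∈ Icc (a j) (a j + l)
        · rcases le_abs.mp (hd i j hij) with h4 | h4
          · right
            have : t = a j + l := by linarith [hi.1, hj.2]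
            rw [this]
            exact cores_end (hv j) (hv0 j)
          · left
            have : t = a i + l := by linarith [hj.1, hi.2]
            rw [this]
            exact cores_end (hv i) (hv0 i)
        · exact Or.inr (hv0 j t hj)
      · exact Or.inl (hv0 i t hi)
  · intro x hx
    by_contra hcon
    push Not at hcon
    have hmem : q + 1 ∈ S := by
      refine ⟨Fin.cons x a, ?_, ?_⟩
      · intro i
        refine Fin.cases ?_ (fun j => ?_) i
        · exact hx
        · exact ha j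
      · intro i j
        refine Fin.cases ?_ (fun i' => ?_) i
        · refine Fin.cases ?_ (fun j' => ?_) j
          · intro h
            exact absurd rfl h
          · intro _
            simpa using hcon j'
        · refine Fin.cases ?_ (fun j' => ?_) j
          · intro _
            rw [abs_sub_comm]
            simpa using hcon i'
          · intro h
            have : i' ≠ j' := fun e => h (by rw [e])
            simpa using hd i' j' this
    have := hmax _ hmem
    omega

end Pool.Agent.CLR5
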