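import Pool.Agent.Lib.MP_efa090_mp.Tst2

/-! Row Grid: cutting a test function at the points of a grid. -/

open MeasureTheory Set Real

namespace Pool.Agent.CLR5

private theorem Grid_split_two {W : ℝ → ℝ} (hW : Continuous W) {v : ℝ → ℝ} (hv : Tst v) {E p q r : ℝ}
    (hpq : p ≤ q) (hqr : q ≤ r) (hp : v p = 0) (hq : v q = 0) (hr : v r = 0) :
    Q W E (indicator (Icc p r) v) =
      Q W E (indicator (Icc p q) v) + Q W E (indicator (Icc q r) v) := by
  have h1 : Tst (indicator (Icc p q) v) := hv.cut hpq hp hq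
  have h2 : Tst (indicator (Icc q r) v) := hv.cut hqr hq hr
  have hfun : (fun t => indicator (Icc p q) v t + indicator (Icc q r) v t) =
      indicator (Icc p r) v := by
    funext t
    by_cases ha : t ∈ Icc p q
    · by_cases hb : t ∈ Icc q r
      · have htq : t = q := le_antisymm ha.2 hb.1
        have hc : t ∈ Icc p r := ⟨ha.1, hb.2⟩
        rw [indicator_of_mem ha, indicator_of_mem hb, indicator_of_mem hc, htq, hq, add_zero]
      · have hc : t ∈ Icc p r := ⟨ha.1, ha.2.trans hqr⟩
        rw [indicator_of_mem ha, indicator_of_notMem hb, indicator_of_mem hc, add_zero]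
    · by_cases hb : t ∈ Icc q r
      · have hc : t ∈ Icc p r := ⟨hpq.trans hb.1, hb.2⟩
        rw [indicator_of_notMem ha, indicator_of_mem hb, indicator_of_mem hc, zero_add]
      · have hc : t ∉ Icc p r := by
          intro hc
          rcases le_total t q with h | h
          · exact ha ⟨hc.1, h⟩
          · exact hb ⟨h, hc.2⟩
        rw [indicator_of_notMem ha, indicator_of_notMem hb, indicator_of_notMem hc, add_zero]
  have hdis : B W E (indicator (Icc p q) v) (indicator (Icc q r) v) = 0 := by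
    refine B_disjoint W E h1 h2 ?_
    intro t
    by_cases ha : t ∈ Icc p q
    · by_cases hb : t ∈ Icc q r
      · left
        have htq : t = q := le_antisymm ha.2 hb.1
        rw [indicator_of_mem ha, htq, hq]
      · right
        rw [indicator_of_notMem hb]
    · left
      rw [indicator_of_notMem ha]
  have hadd := Q_add hW E h1 h2
  rw [hdis, hfun] at hadd
  rw [hadd]
  ring

/-- If `v` vanishes at all points `a + k l` and `Q v < 0`, then one of the pieces is negative. -/
theorem grid_split {W : ℝ → ℝ} (hW : Continuous W) {v : ℝ → ℝ} (hv : Tst v) {E a l : ℝ}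
    (hl : 0 < l) (h0 : ∀ k : ℤ, v (a + k * l) = 0) (hneg : Q W E v < 0) :
    ∃ k : ℤ, Tst (indicator (Icc (a + k * l) (a + (k + 1) * l)) v) ∧
      Q W E (indicator (Icc (a + k * l) (a + (k + 1) * l)) v) < 0 := by
  have hcut : ∀ k : ℤ, Tst (indicator (Icc (a + k * l) (a + (k + 1) * l)) v) := by
    intro k
    refine hv.cut (by nlinarith) (h0 k) ?_
    have := h0 (k + 1)
    push_cast at this
    exact this
  by_contra hcon
  push Not at hcon
  have hnn : ∀ k : ℤ, 0 ≤ Q W E (indicator (Icc (a + k * l) (a + (k + 1) * l)) v) :=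
    fun k => hcon k (hcut k)
  obtain ⟨C, hC0, -, -, hC⟩ := hv.bdd
  obtain ⟨N, hN⟩ := exists_nat_gt ((C + |a|) / l)
  have hN' : C + |a| < N * l := by
    rwa [div_lt_iff₀ hl] at hN
  have key : ∀ n : ℕ, 0 ≤ Q W E
      (indicator (Icc (a + ((-(N : ℤ) : ℤ) : ℝ) * l) (a + ((-(N : ℤ) + n : ℤ) : ℝ) * l)) v) := by
    intro n
    induction n with
    | zero =>
      have hz : indicator (Icc (a + ((-(N : ℤ) : ℤ) : ℝ) * l)
          (a + ((-(N : ℤ) + (0 : ℕ) : ℤ) : ℝ) * l)) v = fun _ => 0 := by
        funext t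
        by_cases ht : t ∈ Icc (a + ((-(N : ℤ) : ℤ) : ℝ) * l)
          (a + ((-(N : ℤ) + (0 : ℕ) : ℤ) : ℝ) * l)
        · rw [indicator_of_mem ht]
          have h1 := ht.1
          have h2 := ht.2
          have e : ((-(N : ℤ) + (0 : ℕ) : ℤ) : ℝ) = ((-(N : ℤ) : ℤ) : ℝ) := by push_cast; ring
          rw [e] at h2
          have : t = a + ((-(N : ℤ) : ℤ) : ℝ) * l := le_antisymm h2 h1
          rw [this]
          exact h0 _
        · rw [indicator_of_notMem ht]
      rw [hz, Q_zero]
    | succ n ih =>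
      have hs := Grid_split_two (E := E) hW hv
        (p := a + ((-(N : ℤ) : ℤ) : ℝ) * l) (q := a + ((-(N : ℤ) + n : ℤ) : ℝ) * l)
        (r := a + ((-(N : ℤ) + (n + 1 : ℕ) : ℤ) : ℝ) * l)
        (by push_cast; nlinarith [mul_nonneg (Nat.cast_nonneg (α := ℝ) n) hl.le])
        (by push_cast; nlinarith)
        (h0 _) (h0 _) (h0 _)
      rw [hs]
      have h2 := hnn (-(N : ℤ) + n)
      have e : (((-(N : ℤ) + n : ℤ) : ℝ) + 1) = ((-(N : ℤ) + (n + 1 : ℕ) : ℤ) : ℝ) := by
        push_cast; ring
      rw [e] at h2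
      exact add_nonneg ih h2
  have hfin := key (2 * N)
  have hvv : indicator (Icc (a + ((-(N : ℤ) : ℤ) : ℝ) * l)
      (a + ((-(N : ℤ) + (2 * N : ℕ) : ℤ) : ℝ) * l)) v = v := by
    funext t
    by_cases ht : t ∈ Icc (a + ((-(N : ℤ) : ℤ) : ℝ) * l)
      (a + ((-(N : ℤ) + (2 * N : ℕ) : ℤ) : ℝ) * l)
    · rw [indicator_of_mem ht]
    · rw [indicator_of_notMem ht]
      symm
      apply (hC t _).1
      by_contra hcc
      push Not at hcc
      apply ht
      have h1 := abs_le.1 hcc
      have h3 := neg_abs_le a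
      have h4 := le_abs_self a
      constructor
      · push_cast; nlinarith
      · push_cast; nlinarith
  rw [hvv] at hfin
  exact absurd hneg (not_lt.2 hfin)

end Pool.Agent.CLR5
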