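import Pool.Agent.Lib.MP_efa090_mp.Tst2

/-! Row Ims: the localisation formula. -/

open MeasureTheory Set Real

namespace Pool.Agent.CLR5

private theorem Ims_lip_sin : LipschitzWith 1 Real.sin := by
  refine lipschitzWith_of_nnnorm_deriv_le Real.differentiable_sin fun x => ?_
  rw [← NNReal.coe_le_coe, coe_nnnorm, Real.deriv_sin, Real.norm_eq_abs]
  exact Real.abs_cos_le_one x

private theorem Ims_lip_cos : LipschitzWith 1 Real.cos := by
  refine lipschitzWith_of_nnnorm_deriv_le Real.differentiable_cos fun x => ?_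
  rw [← NNReal.coe_le_coe, coe_nnnorm, Real.deriv_cos, Real.norm_eq_abs, abs_neg]
  exact Real.abs_sin_le_one x

/-- `(v sin g)'^2 + (v cos g)'^2 = v'^2 + g'^2 v^2` almost everywhere and `|g'| <= k`. -/
theorem ims {W : ℝ → ℝ} (hW : Continuous W) {v g : ℝ → ℝ} (hv : Tst v) {k : NNReal}
    (hg : LipschitzWith k g) (E : ℝ) :
    Tst (fun t => v t * Real.sin (g t)) ∧ Tst (fun t => v t * Real.cos (g t)) ∧
      Q W (E - (k : ℝ) ^ 2) (fun t => v t * Real.sin (g t)) +
        Q W (E - (k : ℝ) ^ 2) (fun t => v t * Real.cos (g t)) ≤ Q W E v := by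
  have hs : Tst (fun t => v t * Real.sin (g t)) :=
    hv.mul_lip (g := fun t => Real.sin (g t)) (Ims_lip_sin.comp hg) (M := 1)
      fun t => Real.abs_sin_le_one _
  have hc : Tst (fun t => v t * Real.cos (g t)) :=
    hv.mul_lip (g := fun t => Real.cos (g t)) (Ims_lip_cos.comp hg) (M := 1)
      fun t => Real.abs_cos_le_one _
  refine ⟨hs, hc, ?_⟩
  obtain ⟨s, hs_def⟩ : ∃ s : ℝ → ℝ, s = fun t => v t * Real.sin (g t) := ⟨_, rfl⟩
  obtain ⟨c, hc_def⟩ : ∃ c : ℝ → ℝ, c = fun t => v t * Real.cos (g t) := ⟨_, rfl⟩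
  rw [← hs_def, ← hc_def]
  rw [← hs_def] at hs
  rw [← hc_def] at hc
  rw [Q_eq hW _ hs, Q_eq hW _ hc, Q_eq hW _ hv]
  have hsum : ∀ t, s t ^ 2 + c t ^ 2 = v t ^ 2 := by
    intro t
    rw [hs_def, hc_def]
    show (v t * Real.sin (g t)) ^ 2 + (v t * Real.cos (g t)) ^ 2 = v t ^ 2
    have := Real.sin_sq_add_cos_sq (g t)
    linear_combination (v t ^ 2) * this
  -- the mass terms
  have h1 : (∫ t, s t ^ 2) + ∫ t, c t ^ 2 = ∫ t, v t ^ 2 := by
    rw [← integral_add hs.int_sq.1 hc.int_sq.1]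
    exact integral_congr_ae (Filter.Eventually.of_forall fun t => hsum t)
  have hWi : ∀ {u : ℝ → ℝ}, Tst u → Integrable fun t => W t * u t ^ 2 := by
    intro u hu
    refine ((hu.int_mul hu hW).1).congr (Filter.Eventually.of_forall fun t => ?_)
    show W t * (u t * u t) = W t * u t ^ 2
    ring
  have h2 : (∫ t, W t * s t ^ 2) + ∫ t, W t * c t ^ 2 = ∫ t, W t * v t ^ 2 := by
    rw [← integral_add (hWi hs) (hWi hc)]
    refine integral_congr_ae (Filter.Eventually.of_forall fun t => ?_)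
    show W t * s t ^ 2 + W t * c t ^ 2 = W t * v t ^ 2
    rw [← mul_add, hsum]
  -- the kinetic terms
  have hgd : ∀ᵐ t, DifferentiableAt ℝ g t := hg.ae_differentiableAt
  have h3 : (∫ t, deriv s t ^ 2) + ∫ t, deriv c t ^ 2 ≤
      (∫ t, deriv v t ^ 2) + (k : ℝ) ^ 2 * ∫ t, v t ^ 2 := by
    rw [← integral_add hs.int_sq.2 hc.int_sq.2, ← integral_const_mul,
      ← integral_add hv.int_sq.2 (hv.int_sq.1.const_mul _)]
    refine integral_mono_ae (hs.int_sq.2.add hc.int_sq.2)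
      (hv.int_sq.2.add (hv.int_sq.1.const_mul _)) ?_
    filter_upwards [hv.ae_diff, hgd] with t ht hgt
    have e1 : deriv s t = deriv v t * Real.sin (g t) + v t * (Real.cos (g t) * deriv g t) := by
      rw [hs_def]
      exact (ht.hasDerivAt.mul hgt.hasDerivAt.sin).deriv
    have e2 : deriv c t = deriv v t * Real.cos (g t) + v t * (-Real.sin (g t) * deriv g t) := by
      rw [hc_def]
      exact (ht.hasDerivAt.mul hgt.hasDerivAt.cos).deriv
    have e3 : |deriv g t| ≤ k := by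
      have := norm_deriv_le_of_lipschitz hg (x₀ := t)
      rwa [Real.norm_eq_abs] at this
    have e4 : deriv g t ^ 2 ≤ (k : ℝ) ^ 2 := by
      rw [← sq_abs]
      exact pow_le_pow_left₀ (abs_nonneg _) e3 2
    show deriv s t ^ 2 + deriv c t ^ 2 ≤ deriv v t ^ 2 + (k : ℝ) ^ 2 * v t ^ 2
    have e5 : deriv s t ^ 2 + deriv c t ^ 2 = deriv v t ^ 2 + deriv g t ^ 2 * v t ^ 2 := by
      rw [e1, e2]
      have := Real.sin_sq_add_cos_sq (g t)
      linear_combination (deriv v t ^ 2 + deriv g t ^ 2 * v t ^ 2) * this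
    rw [e5]
    have e6 := mul_le_mul_of_nonneg_right e4 (sq_nonneg (v t))
    linarith
  have h4 : (E - (k : ℝ) ^ 2) * (∫ t, s t ^ 2) + (E - (k : ℝ) ^ 2) * (∫ t, c t ^ 2) =
      E * (∫ t, v t ^ 2) - (k : ℝ) ^ 2 * ∫ t, v t ^ 2 := by
    rw [← mul_add, h1]
    ring
  linarith

end Pool.Agent.CLR5
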