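import Pool.Agent.Lib.MP_efa090_mp.NegA
import Pool.Agent.Lib.MP_efa090_mp.Ims
import Pool.Agent.Lib.MP_efa090_mp.Grid

/-! Row Deep: deep states live near the cores. -/

open MeasureTheory Set Real

namespace Pool.Agent.CLR5

/-- one of the two pieces -/
theorem deep_a_piece {W : ℝ → ℝ} (hW : Nice W) {q : ℕ} {a : Fin q → ℝ} {Ec l : ℝ}
    (hl : 0 < l) (hcov : ∀ x, (∃ v, Tst v ∧ (∀ t, t ∉ Icc x (x + l) → v t = 0) ∧ Q W Ec v < 0) →
      ∃ i, |x - a i| < l) {v w : ℝ → ℝ} {b : ℝ} (hw : Tst w) (hz : ∀ k : ℤ, w (b + k * l) = 0)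
    (hvw : ∀ t, v t = 0 → w t = 0)
    (h0 : ∀ i, ∀ t ∈ Icc (a i - l) (a i + 2 * l), v t = 0) : ¬ Q W Ec w < 0 := by
  intro hneg
  obtain ⟨k, hk1, hk2⟩ := grid_split hW.cont hw hl hz hneg
  have hlen : b + (k + 1) * l = b + k * l + l := by ring
  obtain ⟨i, hi⟩ := hcov (b + k * l) ⟨_, hk1, fun t ht => by
    apply indicator_of_notMem
    rwa [hlen], hk2⟩
  have hzero : indicator (Icc (b + k * l) (b + (k + 1) * l)) w = fun _ => 0 := by
    funext t
    by_cases ht : t ∈ Icc (b + k * l) (b + (k + 1) * l)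
    · rw [indicator_of_mem ht]
      apply hvw
      apply h0 i
      rw [hlen] at ht
      rw [abs_lt] at hi
      exact ⟨by linarith [ht.1, hi.1], by linarith [ht.2, hi.2]⟩
    · exact indicator_of_notMem ht _
  rw [hzero, Q_zero] at hk2
  exact lt_irrefl _ hk2

/-- A test function which vanishes on `⋃ [a i - l, a i + 2 l]` has `Q W (Ec + (π/l)^2) v >= 0`:
`ims` with `g t = π t / l`, then `grid_split` for `v sin g` (zeros `k l`) and `v cos g`
(zeros `(k + 1/2) l`); the negative piece lives in a window `[x, x + l]`, which by `hcov` lies in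
`[a i - l, a i + 2 l]`, where `v = 0`. -/
theorem outside_cores {W : ℝ → ℝ} (hW : Nice W) {q : ℕ} {a : Fin q → ℝ} {Ec l : ℝ}
    (hl : 0 < l) (hcov : ∀ x, (∃ v, Tst v ∧ (∀ t, t ∉ Icc x (x + l) → v t = 0) ∧ Q W Ec v < 0) →
      ∃ i, |x - a i| < l) {E : ℝ} (hE : Ec + (π / l) ^ 2 ≤ E) {v : ℝ → ℝ} (hv : Tst v)
    (h0 : ∀ i, ∀ t ∈ Icc (a i - l) (a i + 2 * l), v t = 0) : 0 ≤ Q W E v := by
  by_contra hlt
  push Not at hlt
  have hkpos : 0 ≤ π / l := by positivity
  set k : NNReal := ⟨π / l, hkpos⟩ with hk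
  have hkv : (k : ℝ) = π / l := rfl
  have hg : LipschitzWith k (fun t : ℝ => π / l * t) := by
    apply LipschitzWith.of_dist_le_mul
    intro x y
    rw [Real.dist_eq, Real.dist_eq, hkv, ← mul_sub, abs_mul, abs_of_nonneg hkpos]
  obtain ⟨hs, hc, hsum⟩ := ims hW.cont hv hg E
  have hdown : ∀ w, Tst w → Q W (E - (k : ℝ) ^ 2) w < 0 → Q W Ec w < 0 := by
    intro w hw hneg
    rw [Q_energy hW.cont (E - (k : ℝ) ^ 2) Ec hw]
    have h1 : 0 ≤ ∫ t, w t ^ 2 := integral_nonneg fun t => sq_nonneg _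
    have h2 : Ec - (E - (k : ℝ) ^ 2) ≤ 0 := by rw [hkv]; linarith
    have h3 := mul_nonpos_of_nonpos_of_nonneg h2 h1
    linarith
  rcases lt_or_ge (Q W (E - (k : ℝ) ^ 2) (fun t => v t * Real.sin (π / l * t))) 0 with h | h
  · refine deep_a_piece hW hl hcov (v := v) (b := 0) hs ?_ ?_ h0 (hdown _ hs h)
    · intro m
      have : π / l * (0 + (m : ℝ) * l) = m * π := by field_simp; ring
      simp only [this, Real.sin_int_mul_pi, mul_zero]
    · intro t ht
      simp only [ht, zero_mul]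
  · have h' : Q W (E - (k : ℝ) ^ 2) (fun t => v t * Real.cos (π / l * t)) < 0 := by linarith
    refine deep_a_piece hW hl hcov (v := v) (b := l / 2) hc ?_ ?_ h0 (hdown _ hc h')
    · intro m
      have : π / l * (l / 2 + (m : ℝ) * l) = m * π + π / 2 := by field_simp; ring
      simp only [this, Real.cos_add_pi_div_two, Real.sin_int_mul_pi, neg_zero, mul_zero]
    · intro t ht
      simp only [ht, zero_mul]

/-- the cut-off angle -/
private noncomputable def Deep_b_g (U : Set ℝ) (T : ℝ) (t : ℝ) : ℝ :=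
  (π / 2) * min 1 (Metric.infDist t U / T)

private theorem Deep_b_lip (U : Set ℝ) {T : ℝ} (hT : 0 < T) :
    LipschitzWith (Real.toNNReal (π / (2 * T))) (Deep_b_g U T) := by
  have hk : 0 ≤ π / (2 * T) := by positivity
  apply LipschitzWith.of_dist_le_mul
  intro s t
  rw [Real.dist_eq, Real.dist_eq, Real.coe_toNNReal _ hk]
  unfold Deep_b_g
  rw [← mul_sub, abs_mul, abs_of_pos (by positivity : 0 < π / 2)]
  have h1 : |min 1 (Metric.infDist s U / T) - min 1 (Metric.infDist t U / T)| ≤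
      |Metric.infDist s U / T - Metric.infDist t U / T| := by
    refine (abs_min_sub_min_le_max 1 _ 1 _).trans ?_
    simp
  have h2 : |Metric.infDist s U / T - Metric.infDist t U / T| ≤ |s - t| / T := by
    rw [← sub_div, abs_div, abs_of_pos hT]
    apply div_le_div_of_nonneg_right _ hT.le
    have h3 := (Metric.lipschitz_infDist_pt U).dist_le_mul s t
    rw [Real.dist_eq, Real.dist_eq] at h3
    simpa using h3
  calc π / 2 * |min 1 (Metric.infDist s U / T) - min 1 (Metric.infDist t U / T)|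
      ≤ π / 2 * (|s - t| / T) := by
        apply mul_le_mul_of_nonneg_left (h1.trans h2) (by positivity)
    _ = π / (2 * T) * |s - t| := by
        field_simp

private theorem Deep_b_zero {U : Set ℝ} {T t : ℝ} (ht : t ∈ U) : Deep_b_g U T t = 0 := by
  unfold Deep_b_g
  rw [Metric.infDist_zero_of_mem ht]
  simp

private theorem Deep_b_far {U : Set ℝ} {T t : ℝ} (hT : 0 < T) (hU : U.Nonempty)
    (ht : ∀ s ∈ U, T ≤ |t - s|) : Deep_b_g U T t = π / 2 := by
  unfold Deep_b_g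
  have h1 : T ≤ Metric.infDist t U := by
    rw [Metric.le_infDist hU]
    intro y hy
    rw [Real.dist_eq]
    exact ht y hy
  have h2 : 1 ≤ Metric.infDist t U / T := by
    rw [le_div_iff₀ hT]
    simpa using h1
  rw [min_eq_left h2, mul_one]

/-- `ims` with `g = (π/2) min(1, dist(t, ⋃ [a i - l, a i + 2 l]) / T)`; `v sin g` vanishes on the
enlarged cores, `v cos g` outside their `T`-neighbourhood. -/
theorem deep {W : ℝ → ℝ} (hW : Nice W) {q : ℕ} {a : Fin q → ℝ} {Ec l T : ℝ} (hl : 0 < l)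
    (hT : 0 < T) (hcov : ∀ x, (∃ v, Tst v ∧ (∀ t, t ∉ Icc x (x + l) → v t = 0) ∧ Q W Ec v < 0) →
      ∃ i, |x - a i| < l) {E : ℝ} (hE : Ec + (π / l) ^ 2 + (π / (2 * T)) ^ 2 ≤ E) {n : ℕ}
    (h : Neg W E univ n) :
    Neg W (E - (π / (2 * T)) ^ 2) (⋃ i, Icc (a i - l - T) (a i + 2 * l + T)) n := by
  have hk : 0 ≤ π / (2 * T) := by positivity
  set U : Set ℝ := ⋃ i, Icc (a i - l) (a i + 2 * l) with hU
  refine h.mul (fun t => Real.cos (Deep_b_g U T t)) ?_
  intro v hv _ hneg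
  obtain ⟨h1, h2, h3⟩ := ims hW.cont hv (Deep_b_lip U hT) E
  rw [Real.coe_toNNReal _ hk] at h3
  have hsin : 0 ≤ Q W (E - (π / (2 * T)) ^ 2) (fun t => v t * Real.sin (Deep_b_g U T t)) := by
    refine outside_cores hW hl hcov (by linarith) h1 ?_
    intro i t ht
    rw [Deep_b_zero (mem_iUnion.mpr ⟨i, ht⟩)]
    simp
  have hUne : U.Nonempty := by
    rcases isEmpty_or_nonempty (Fin q) with hem | ⟨⟨i⟩⟩
    · exfalso
      have h4 : 0 ≤ Q W E v := by
        refine outside_cores hW hl hcov (by nlinarith [sq_nonneg (π / (2 * T))]) hv ?_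
        intro i
        exact (hem.false i).elim
      linarith
    · refine ⟨a i, mem_iUnion.mpr ⟨i, ?_, ?_⟩⟩ <;> linarith
  refine ⟨h2, ?_, by linarith⟩
  intro t ht
  rw [Deep_b_far hT hUne]
  · simp
  · intro s hs
    obtain ⟨i, hi1, hi2⟩ := mem_iUnion.mp hs
    by_contra hcon
    push Not at hcon
    rw [abs_lt] at hcon
    apply ht
    refine mem_iUnion.mpr ⟨i, ?_, ?_⟩ <;> linarith [hcon.1, hcon.2]

end Pool.Agent.CLR5
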