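import Mathlib

/-! Definitions for the sharp CLR bound for radial potentials in dimension five
(problem MP_efa090_mp). One-dimensional part. -/

open MeasureTheory Set Real

namespace Pool.Agent.CLR5

noncomputable section

/-- Test functions on the line: Lipschitz with compact support. -/
structure Tst (v : ℝ → ℝ) : Prop where
  lip : ∃ K : NNReal, LipschitzWith K v
  cs : HasCompactSupport v

/-- The Schroedinger form at energy `-E`. -/
def Q (W : ℝ → ℝ) (E : ℝ) (v : ℝ → ℝ) : ℝ :=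
  ∫ t, ((deriv v t) ^ 2 + E * v t ^ 2 - W t * v t ^ 2)

/-- The bilinear form belonging to `Q W E`. -/
def B (W : ℝ → ℝ) (E : ℝ) (v w : ℝ → ℝ) : ℝ :=
  ∫ t, (deriv v t * deriv w t + E * (v t * w t) - W t * (v t * w t))

/-- `Q W E` is negative on an `n`-dimensional space of test functions which vanish outside `A`. -/
def Neg (W : ℝ → ℝ) (E : ℝ) (A : Set ℝ) (n : ℕ) : Prop :=
  ∃ L : (Fin n → ℝ) →ₗ[ℝ] (ℝ → ℝ), ∀ c, Tst (L c) ∧ (∀ t, t ∉ A → L c t = 0) ∧
    (c ≠ 0 → Q W E (L c) < 0)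

/-- Nice potentials. -/
structure Nice (W : ℝ → ℝ) : Prop where
  cont : Continuous W
  cs : HasCompactSupport W
  nonneg : ∀ t, 0 ≤ W t

/-- The cost of the potential on `A`. -/
def cost (W : ℝ → ℝ) (A : Set ℝ) : ℝ := ∫ t in A, W t ^ ((5 : ℝ) / 2)

/-- The cost of the soliton `(15/4) / cosh^2`, that is `(15/4)^(5/2) * (3 pi / 8)`. -/
def e0 : ℝ := 225 / 32 * Real.sqrt 15 * (3 * π / 8)

/-- `F` is the logarithmic derivative of a positive ground state of `-d^2/dx^2 - W` at energy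
`-κ^2`. -/
structure Gst (W : ℝ → ℝ) (κ R : ℝ) (F : ℝ → ℝ) : Prop where
  kpos : 0 < κ
  Rpos : 0 < R
  ode : ∀ x, HasDerivAt F (κ ^ 2 - W x - F x ^ 2) x
  left : ∀ x, x ≤ -R → F x = κ
  right : ∀ x, R ≤ x → F x = -κ

/-- The potential after removal of the ground state. -/
def comm (W : ℝ → ℝ) (κ : ℝ) (F : ℝ → ℝ) (x : ℝ) : ℝ := W x + 2 * (κ ^ 2 - W x - F x ^ 2)

/-- Multiplicities of the spherical harmonics on `S^4`. -/
def mult (l : ℕ) : ℝ := (2 * l + 3) * (l + 1) * (l + 2) / 6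

/-- Functions which are continuously differentiable, of size `exp (3 t / 2)` together with the
derivative, and vanish for large `t`. -/
structure Adm (v : ℝ → ℝ) : Prop where
  cd : ContDiff ℝ 1 v
  bd : ∃ C T : ℝ, ∀ t, |v t| ≤ C * Real.exp (3 * t / 2) ∧
    |deriv v t| ≤ C * Real.exp (3 * t / 2) ∧ (T ≤ t → v t = 0)

end

end Pool.Agent.CLR5
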