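import Pool.Agent.Lib.MP_efa090_mp.Defs

/-! Definitions in dimension five (compare `Pool.Agent.CLR3.Defs`). -/

open MeasureTheory Set Metric

namespace Pool.Agent.CLR5

noncomputable section

abbrev E5 := EuclideanSpace ℝ (Fin 5)
abbrev S4 := sphere (0 : E5) 1

/-- Surface measure of the unit sphere. -/
def σ : Measure S4 := (volume : Measure E5).toSphere

/-- Squared length of the tangential part of the gradient of `F` at `x` (for `‖x‖ = 1`). -/
def tan2 (F : E5 → ℝ) (x : E5) : ℝ := ‖x‖ ^ 2 * ‖fderiv ℝ F x‖ ^ 2 - (fderiv ℝ F x x) ^ 2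

/-- The rescaled function `x ↦ exp (3 t / 2) u (exp t x)`. -/
def resc (u : E5 → ℝ) (t : ℝ) (x : E5) : ℝ := Real.exp (3 * t / 2) * u (Real.exp t • x)

/-- The `t`-derivative of `resc u t x`. -/
def Vt (u : E5 → ℝ) (t : ℝ) (x : E5) : ℝ := 3 / 2 * resc u t x + fderiv ℝ (resc u t) x x

/-- Density in `t` of the transformed form. -/
def dens (W : ℝ → ℝ) (u : E5 → ℝ) (t : ℝ) : ℝ :=
  ∫ ω : S4, (Vt u t ω ^ 2 + (9 / 4) * resc u t ω ^ 2 + tan2 (resc u t) ω
    - W t * resc u t ω ^ 2) ∂σ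

/-- The form. -/
def QQ (W : ℝ → ℝ) (u : E5 → ℝ) : ℝ := ∫ t, dens W u t

/-- The logarithmic potential belonging to the radial potential `w ‖x‖`. -/
def logPot (w : ℝ → ℝ) (t : ℝ) : ℝ := Real.exp (2 * t) * w (Real.exp t)

/-- coefficient of the rescaled function on the sphere -/
def coef (u : E5 → ℝ) (p : C(S4, ℝ)) (t : ℝ) : ℝ := ∫ ω : S4, resc u t ω * p ω ∂σ

/-- the remainder -/
def rest {M : ℕ} (u : E5 → ℝ) (p : Fin M → C(S4, ℝ)) (t : ℝ) (ω : S4) : ℝ :=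
  resc u t ω - ∑ i, coef u (p i) t * p i ω

/-- the test functions of the problem -/
def IsTest (S : Submodule ℝ (E5 → ℝ)) : Prop :=
  ∀ u ∈ S, ContDiff ℝ ((⊤ : ℕ∞) : WithTop ℕ∞) u ∧ HasCompactSupport u

end

end Pool.Agent.CLR5
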