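import Pool.Agent.Lib.MP_efa090_mp.Tst2

/-! Row NegA: elementary properties of `Neg`. -/

open MeasureTheory Set Real

namespace Pool.Agent.CLR5

theorem Neg.zero (W : ℝ → ℝ) (E : ℝ) (A : Set ℝ) : Neg W E A 0 := by
  refine ⟨0, fun c => ⟨?_, fun t _ => rfl, fun hc => absurd (Subsingleton.elim c 0) hc⟩⟩
  exact Tst.zero

theorem Neg.mono_E {W : ℝ → ℝ} (hW : Continuous W) {E E' : ℝ} (h : E' ≤ E) {A : Set ℝ} {n : ℕ}
    (hn : Neg W E A n) : Neg W E' A n := by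
  obtain ⟨L, hL⟩ := hn
  refine ⟨L, fun c => ⟨(hL c).1, (hL c).2.1, fun hc => ?_⟩⟩
  have h1 := (hL c).2.2 hc
  rw [Q_energy hW E E' (hL c).1]
  have h2 : 0 ≤ ∫ t, (L c) t ^ 2 := integral_nonneg fun t => sq_nonneg _
  nlinarith [mul_nonneg (sub_nonneg.2 h) h2]

theorem Neg.mono_A {W : ℝ → ℝ} {E : ℝ} {A A' : Set ℝ} (h : A ⊆ A') {n : ℕ}
    (hn : Neg W E A n) : Neg W E A' n := by
  obtain ⟨L, hL⟩ := hn
  exact ⟨L, fun c => ⟨(hL c).1, fun t ht => (hL c).2.1 t fun ht' => ht (h ht'), (hL c).2.2⟩⟩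

theorem Neg.mono_n {W : ℝ → ℝ} {E : ℝ} {A : Set ℝ} {m n : ℕ} (h : m ≤ n)
    (hn : Neg W E A n) : Neg W E A m := by
  obtain ⟨L, hL⟩ := hn
  let J : (Fin m → ℝ) →ₗ[ℝ] (Fin n → ℝ) :=
    { toFun := fun c i => if hi : (i : ℕ) < m then c ⟨i, hi⟩ else 0
      map_add' := fun c d => by
        funext i
        simp only [Pi.add_apply]
        split_ifs <;> simp
      map_smul' := fun a c => by
        funext i
        simp only [Pi.smul_apply, RingHom.id_apply, smul_eq_mul]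
        split_ifs <;> simp }
  refine ⟨L.comp J, fun c => ⟨(hL (J c)).1, (hL (J c)).2.1, fun hc => (hL (J c)).2.2 ?_⟩⟩
  intro h0
  apply hc
  funext i
  have h1 := congrFun h0 (Fin.castLE h i)
  simpa [J] using h1

/-- change of the potential -/
theorem Neg.mono_W {W W' : ℝ → ℝ} (hW : Continuous W) (hW' : Continuous W') {E E' : ℝ}
    {A : Set ℝ} (h : ∀ t ∈ A, W t - E ≤ W' t - E') {n : ℕ} (hn : Neg W E A n) :
    Neg W' E' A n := by
  obtain ⟨L, hL⟩ := hn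
  refine ⟨L, fun c => ⟨(hL c).1, (hL c).2.1, fun hc => lt_of_le_of_lt ?_ ((hL c).2.2 hc)⟩⟩
  have hint : ∀ (V : ℝ → ℝ) (e : ℝ), Continuous V → Integrable (fun t =>
      (deriv (L c) t) ^ 2 + e * (L c) t ^ 2 - V t * (L c) t ^ 2) := by
    intro V e hV
    have h1 := ((hL c).1.int_sq).2
    have h2 := ((hL c).1.int_sq).1
    have h3 := ((hL c).1.int_mul (hL c).1 hV).1
    have h4 : Integrable (fun t => V t * (L c) t ^ 2) := by
      simpa [sq] using h3
    exact (h1.add (h2.const_mul e)).sub h4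
  refine integral_mono (hint W' E' hW') (hint W E hW) fun t => ?_
  show (deriv (L c) t) ^ 2 + E' * (L c) t ^ 2 - W' t * (L c) t ^ 2 ≤
    (deriv (L c) t) ^ 2 + E * (L c) t ^ 2 - W t * (L c) t ^ 2
  by_cases ht : t ∈ A
  · nlinarith [h t ht, mul_nonneg (sub_nonneg.2 (h t ht)) (sq_nonneg ((L c) t))]
  · rw [(hL c).2.1 t ht]
    simp

theorem Neg.exists_one {W : ℝ → ℝ} {E : ℝ} {A : Set ℝ} {n : ℕ} (hn : Neg W E A (n + 1)) :
    ∃ v, Tst v ∧ (∀ t, t ∉ A → v t = 0) ∧ Q W E v < 0 := by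
  obtain ⟨L, hL⟩ := hn
  have h1 : (fun _ : Fin (n + 1) => (1 : ℝ)) ≠ 0 := fun h => one_ne_zero (congrFun h 0)
  exact ⟨L _, (hL _).1, (hL _).2.1, (hL _).2.2 h1⟩

private theorem negA_sum (W : ℝ → ℝ) (hW : Continuous W) (E : ℝ) {n : ℕ} (v : Fin n → ℝ → ℝ)
    (hv : ∀ i, Tst (v i)) (hd : ∀ i j, i ≠ j → ∀ t, v i t = 0 ∨ v j t = 0) (c : Fin n → ℝ)
    (s : Finset (Fin n)) :
    Tst (fun t => ∑ i ∈ s, c i * v i t) ∧
      Q W E (fun t => ∑ i ∈ s, c i * v i t) = ∑ i ∈ s, c i ^ 2 * Q W E (v i) := by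
  classical
  induction s using Finset.induction_on with
  | empty =>
    simp only [Finset.sum_empty]
    exact ⟨Tst.zero, Q_zero W E⟩
  | insert i s hi ih =>
    have hs : (fun t => ∑ j ∈ insert i s, c j * v j t) =
        fun t => (fun t => c i * v i t) t + (fun t => ∑ j ∈ s, c j * v j t) t := by
      funext t
      rw [Finset.sum_insert hi]
    rw [hs]
    refine ⟨Tst.add ((hv i).smul (c i)) ih.1, ?_⟩
    rw [Q_add hW E ((hv i).smul (c i)) ih.1, Q_smul, ih.2,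
      B_disjoint W E ((hv i).smul (c i)) ih.1, Finset.sum_insert hi]
    · ring
    · intro t
      by_cases h0 : v i t = 0
      · left
        rw [h0, mul_zero]
      · right
        refine Finset.sum_eq_zero fun j hj => ?_
        rcases hd i j (fun h => hi (h ▸ hj)) t with h1 | h1
        · exact absurd h1 h0
        · rw [h1, mul_zero]

/-- functions with disjoint supports span a negative space -/
theorem Neg.of_disjoint {W : ℝ → ℝ} (hW : Continuous W) {E : ℝ} {A : Set ℝ} {n : ℕ}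
    (v : Fin n → ℝ → ℝ) (hv : ∀ i, Tst (v i)) (hA : ∀ i t, t ∉ A → v i t = 0)
    (hd : ∀ i j, i ≠ j → ∀ t, v i t = 0 ∨ v j t = 0) (hneg : ∀ i, Q W E (v i) < 0) :
    Neg W E A n := by
  let L : (Fin n → ℝ) →ₗ[ℝ] (ℝ → ℝ) :=
    { toFun := fun c t => ∑ i, c i * v i t
      map_add' := fun c d => by
        funext t
        simp only [Pi.add_apply, add_mul, Finset.sum_add_distrib]
      map_smul' := fun a c => by
        funext t
        simp only [Pi.smul_apply, RingHom.id_apply, smul_eq_mul, mul_assoc, Finset.mul_sum] }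
  refine ⟨L, fun c => ⟨?_, fun t ht => ?_, fun hc => ?_⟩⟩
  · exact (negA_sum W hW E v hv hd c Finset.univ).1
  · show ∑ i, c i * v i t = 0
    exact Finset.sum_eq_zero fun i _ => by rw [hA i t ht, mul_zero]
  · have h1 : Q W E (L c) = ∑ i, c i ^ 2 * Q W E (v i) :=
      (negA_sum W hW E v hv hd c Finset.univ).2
    rw [h1]
    obtain ⟨i, hi⟩ := Function.ne_iff.1 hc
    have hi' : c i ≠ 0 := hi
    refine Finset.sum_neg' (fun j _ => ?_) ⟨i, Finset.mem_univ i, ?_⟩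
    · exact mul_nonpos_of_nonneg_of_nonpos (sq_nonneg _) (hneg j).le
    · exact mul_neg_of_pos_of_neg (pow_pos (abs_pos.2 hi') 2 |>.trans_eq (sq_abs _)) (hneg i)

/-- fewer linear conditions than dimensions -/
theorem Neg.exists_ker {W : ℝ → ℝ} {E : ℝ} {A : Set ℝ} {n m : ℕ} (hn : Neg W E A n)
    (hmn : m < n) (l : Fin m → (ℝ → ℝ) →ₗ[ℝ] ℝ) :
    ∃ v, Tst v ∧ (∀ t, t ∉ A → v t = 0) ∧ Q W E v < 0 ∧ ∀ k, l k v = 0 := by
  obtain ⟨L, hL⟩ := hn
  let T : (Fin n → ℝ) →ₗ[ℝ] (Fin m → ℝ) := LinearMap.pi fun k => (l k).comp L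
  have hT : LinearMap.ker T ≠ ⊥ := by
    apply LinearMap.ker_ne_bot_of_finrank_lt
    simpa using hmn
  obtain ⟨c, hc, hc0⟩ := (Submodule.ne_bot_iff _).1 hT
  refine ⟨L c, (hL c).1, (hL c).2.1, (hL c).2.2 hc0, fun k => ?_⟩
  exact congrFun (LinearMap.mem_ker.1 hc) k

/-- multiplication by a function -/
theorem Neg.mul {W : ℝ → ℝ} {E E' : ℝ} {A A' : Set ℝ} {n : ℕ} (hn : Neg W E A n) (g : ℝ → ℝ)
    (h : ∀ v, Tst v → (∀ t, t ∉ A → v t = 0) → Q W E v < 0 → Tst (fun t => v t * g t) ∧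
      (∀ t, t ∉ A' → v t * g t = 0) ∧ Q W E' (fun t => v t * g t) < 0) : Neg W E' A' n := by
  obtain ⟨L, hL⟩ := hn
  let L' : (Fin n → ℝ) →ₗ[ℝ] (ℝ → ℝ) :=
    { toFun := fun c t => L c t * g t
      map_add' := fun c d => by
        funext t
        simp only [map_add, Pi.add_apply, add_mul]
      map_smul' := fun a c => by
        funext t
        simp only [map_smul, Pi.smul_apply, RingHom.id_apply, smul_eq_mul, mul_assoc] }
  refine ⟨L', fun c => ?_⟩
  by_cases hc : c = 0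
  · have h0 : L' c = fun _ => 0 := by
      funext t
      show L c t * g t = 0
      rw [hc, map_zero, Pi.zero_apply, zero_mul]
    rw [h0]
    exact ⟨Tst.zero, fun _ _ => rfl, fun h => absurd hc h⟩
  · obtain ⟨h1, h2, h3⟩ := h (L c) (hL c).1 (hL c).2.1 ((hL c).2.2 hc)
    exact ⟨h1, h2, fun _ => h3⟩

end Pool.Agent.CLR5
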