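import Pool.Agent.Lib.MP_efa090_mp.Tst2
import Pool.Agent.Lib.MP_efa090_mp.NegA

/-! Row Drop: the commutation step. -/

open MeasureTheory Set Real

namespace Pool.Agent.CLR5

private theorem Drop_a_fp {W F : ℝ → ℝ} {κ R : ℝ} (hF : Gst W κ R F) {x : ℝ}
    (hx : x < -R ∨ R < x) : κ ^ 2 - W x - F x ^ 2 = 0 := by
  rcases hx with hx | hx
  · have h1 : HasDerivAt F 0 x := by
      have h2 : HasDerivAt (fun _ : ℝ => κ) 0 x := hasDerivAt_const x κ
      refine h2.congr_of_eventuallyEq ?_
      filter_upwards [Iio_mem_nhds hx] with y hy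
      exact hF.left y (le_of_lt hy)
    exact (hF.ode x).unique h1
  · have h1 : HasDerivAt F 0 x := by
      have h2 : HasDerivAt (fun _ : ℝ => -κ) 0 x := hasDerivAt_const x (-κ)
      refine h2.congr_of_eventuallyEq ?_
      filter_upwards [Ioi_mem_nhds hx] with y hy
      exact hF.right y (le_of_lt hy)
    exact (hF.ode x).unique h1

private theorem Drop_a_F2 {W F : ℝ → ℝ} {κ R : ℝ} (hF : Gst W κ R F) {x : ℝ}
    (hx : x ≤ -R ∨ R ≤ x) : F x ^ 2 = κ ^ 2 := by
  rcases hx with hx | hx
  · rw [hF.left x hx]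
  · rw [hF.right x hx]
    ring

private theorem Drop_a_cont {W F : ℝ → ℝ} {κ R : ℝ} (hF : Gst W κ R F) : Continuous F :=
  continuous_iff_continuousAt.2 fun x => (hF.ode x).continuousAt

theorem comm_nice {W F : ℝ → ℝ} (hW : Continuous W) {κ R : ℝ} (hF : Gst W κ R F) :
    Continuous (comm W κ F) ∧ HasCompactSupport (comm W κ F) := by
  have hc := Drop_a_cont hF
  constructor
  · have : comm W κ F = fun x => W x + 2 * (κ ^ 2 - W x - F x ^ 2) := rfl
    rw [this]
    fun_prop
  · apply HasCompactSupport.intro (isCompact_Icc (a := -R) (b := R))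
    intro x hx
    have hx' : x < -R ∨ R < x := by
      rw [mem_Icc, not_and_or, not_le, not_le] at hx
      exact hx
    have h1 := Drop_a_fp hF hx'
    have h2 := Drop_a_F2 hF (x := x) (by
      rcases hx' with h | h
      · exact Or.inl h.le
      · exact Or.inr h.le)
    have h3 : W x = 0 := by linarith
    change W x + 2 * (κ ^ 2 - W x - F x ^ 2) = 0
    rw [h1, h3]
    ring

/-- `∫ W1^2 = ∫ W^2 - (16/3) κ^3`: `W1^2 - W^2 = 4 F' (κ^2 - F^2)`, `F' = κ^2 - W - F^2`. -/
theorem comm_sq {W F : ℝ → ℝ} (hW : Continuous W) (hc : HasCompactSupport W) {κ R : ℝ}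
    (hF : Gst W κ R F) : ∫ x, comm W κ F x ^ 2 = (∫ x, W x ^ 2) - 16 / 3 * κ ^ 3 := by
  have hFc := Drop_a_cont hF
  have hR := hF.Rpos
  have hgc : Continuous (fun x => 4 * (κ ^ 2 - W x - F x ^ 2) * (κ ^ 2 - F x ^ 2)) := by
    fun_prop
  have hg0 : ∀ x, x ∉ Ioc (-R) R → 4 * (κ ^ 2 - W x - F x ^ 2) * (κ ^ 2 - F x ^ 2) = 0 := by
    intro x hx
    rw [mem_Ioc, not_and_or, not_lt, not_le] at hx
    have h2 := Drop_a_F2 hF (x := x) (by
      rcases hx with h | h
      · exact Or.inl h
      · exact Or.inr h.le)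
    rw [h2, sub_self, mul_zero]
  have hgcs : HasCompactSupport (fun x => 4 * (κ ^ 2 - W x - F x ^ 2) * (κ ^ 2 - F x ^ 2)) := by
    apply HasCompactSupport.intro (isCompact_Icc (a := -R) (b := R))
    intro x hx
    exact hg0 x fun h => hx (Ioc_subset_Icc_self h)
  have hgi := hgc.integrable_of_hasCompactSupport (μ := volume) hgcs
  have hWi : Integrable (fun x => W x ^ 2) := by
    have h1 : Continuous (fun x => W x ^ 2) := by fun_prop
    refine h1.integrable_of_hasCompactSupport ?_
    exact hc.comp_left (g := fun y : ℝ => y ^ 2) (by simp)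
  have hprim : ∀ x, HasDerivAt (fun x => 4 * κ ^ 2 * F x - 4 / 3 * F x ^ 3)
      (4 * (κ ^ 2 - W x - F x ^ 2) * (κ ^ 2 - F x ^ 2)) x := by
    intro x
    have h1 := (hF.ode x).const_mul (4 * κ ^ 2)
    have h2 := ((hF.ode x).pow 3).const_mul (4 / 3)
    have h3 := h1.sub h2
    refine h3.congr_deriv ?_
    push_cast
    ring
  have hint : ∫ x, 4 * (κ ^ 2 - W x - F x ^ 2) * (κ ^ 2 - F x ^ 2) = -(16 / 3 * κ ^ 3) := by
    rw [← setIntegral_eq_integral_of_forall_compl_eq_zero hg0,
      ← intervalIntegral.integral_of_le (by linarith),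
      intervalIntegral.integral_eq_sub_of_hasDerivAt (fun x _ => hprim x)
        (hgc.intervalIntegrable _ _),
      hF.left (-R) le_rfl, hF.right R le_rfl]
    ring
  have hsplit : ∀ x, comm W κ F x ^ 2 =
      W x ^ 2 + 4 * (κ ^ 2 - W x - F x ^ 2) * (κ ^ 2 - F x ^ 2) := by
    intro x
    change (W x + 2 * (κ ^ 2 - W x - F x ^ 2)) ^ 2 = _
    ring
  simp only [hsplit]
  rw [integral_add hWi hgi, hint]
  ring

/-- For one function: if `∫ f v = 0` for `f = exp (∫_0^x F)` then
`w = -(1/f) ∫_{-oo}^x f v` is a test function with `w' + F w = -v`, and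
`Q W E v < 0` implies `Q W1 E w < 0`:
`Q W E v = ‖v' - F v‖^2 - (κ^2 - E) ‖v‖^2`, `Q W1 E w = ‖v‖^2 - (κ^2 - E) ‖w‖^2`,
`‖v‖^2 = ∫ w (v' - F v) <= ‖w‖ ‖v' - F v‖`. -/
theorem drop_one {W F : ℝ → ℝ} (hW : Continuous W) (hc : HasCompactSupport W) {κ R : ℝ}
    (hF : Gst W κ R F) {f : ℝ → ℝ} (hf : ∀ x, HasDerivAt f (F x * f x) x) (hf0 : ∀ x, 0 < f x)
    {v : ℝ → ℝ} (hv : Tst v) (h0 : ∫ x, f x * v x = 0) :
    Tst (fun x => -(1 / f x) * ∫ y in Iic x, f y * v y) ∧ ∀ E : ℝ, Q W E v < 0 →
      Q (comm W κ F) E (fun x => -(1 / f x) * ∫ y in Iic x, f y * v y) < 0 := by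
  have hfc : Continuous f := continuous_iff_continuousAt.mpr fun x => (hf x).continuousAt
  have hFc : Continuous F := continuous_iff_continuousAt.mpr fun x => (hF.ode x).continuousAt
  have hvc : Continuous v := hv.continuous
  have hgc : Continuous (fun y => f y * v y) := hfc.mul hvc
  have hgs : HasCompactSupport (fun y => f y * v y) := hv.cs.mul_left
  have hgi : Integrable (fun y => f y * v y) := hgc.integrable_of_hasCompactSupport hgs
  obtain ⟨C, hC0, _, _, hC⟩ := hv.bdd
  -- the primitive
  have hG : ∀ x, HasDerivAt (fun x => ∫ y in Iic x, f y * v y) (f x * v x) x := by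
    intro x
    have h1 : (fun x => ∫ y in Iic x, f y * v y) =
        fun x => (∫ y in Iic (0 : ℝ), f y * v y) + ∫ y in (0 : ℝ)..x, f y * v y := by
      funext x
      have := intervalIntegral.integral_Iic_sub_Iic (hgi.integrableOn (s := Iic (0 : ℝ)))
        (hgi.integrableOn (s := Iic x))
      linarith
    rw [h1]
    exact ((hgc.integral_hasStrictDerivAt 0 x).hasDerivAt).const_add _
  have hGl : ∀ x, x < -C → (∫ y in Iic x, f y * v y) = 0 := by
    intro x hx
    apply setIntegral_eq_zero_of_forall_eq_zero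
    intro y hy
    rw [mem_Iic] at hy
    rw [(hC y (by rw [abs_of_neg (by linarith)]; linarith)).1, mul_zero]
  have hGr : ∀ x, C < x → (∫ y in Iic x, f y * v y) = 0 := by
    intro x hx
    rw [setIntegral_eq_integral_of_forall_compl_eq_zero, h0]
    intro y hy
    rw [mem_Iic, not_le] at hy
    rw [(hC y (by rw [abs_of_pos (by linarith)]; linarith)).1, mul_zero]
  set w : ℝ → ℝ := fun x => -(1 / f x) * ∫ y in Iic x, f y * v y with hw
  have hw' : ∀ x, HasDerivAt w (-v x - F x * w x) x := by
    intro x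
    have hfx : f x ≠ 0 := (hf0 x).ne'
    have h1 : HasDerivAt (fun x => -(1 / f x)) (F x / f x) x := by
      have h2 := ((hf x).inv hfx).neg
      have h3 : (fun x => -(1 / f x)) = fun x => -(f x)⁻¹ := by
        funext x
        rw [one_div]
      rw [h3]
      refine h2.congr_deriv ?_
      field_simp
    refine (h1.mul (hG x)).congr_deriv ?_
    simp only [hw]
    field_simp
    ring
  have hwc : Continuous w := continuous_iff_continuousAt.mpr fun x => (hw' x).continuousAt
  have hdw : deriv w = fun x => -v x - F x * w x := funext fun x => (hw' x).deriv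
  have hws : HasCompactSupport w := by
    refine HasCompactSupport.intro (isCompact_Icc (a := -C) (b := C)) ?_
    intro x hx
    rw [mem_Icc, not_and_or, not_le, not_le] at hx
    simp only [hw]
    rcases hx with hx | hx
    · rw [hGl x hx, mul_zero]
    · rw [hGr x hx, mul_zero]
  have hwT : Tst w := by
    refine Tst.of_contDiff ?_ hws
    rw [contDiff_one_iff_deriv, hdw]
    exact ⟨fun x => (hw' x).differentiableAt, (hvc.neg).sub (hFc.mul hwc)⟩
  refine ⟨hwT, fun E hE => ?_⟩
  have hF' : Continuous (fun x => κ ^ 2 - W x - F x ^ 2) := by fun_prop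
  have hW1 : Continuous (comm W κ F) := by
    unfold comm
    fun_prop
  -- exact terms
  have e1 := hv.ftc hF.ode hF'
  have e2 := hwT.ftc hF.ode hF'
  have e3 := Tst.ftc_mul hv hwT
  have i1 : Integrable (fun t => (κ ^ 2 - W t - F t ^ 2) * v t ^ 2 +
      2 * F t * (v t * deriv v t)) := by
    have a1 := (hv.int_mul hv hF').1
    have a2 := (hv.int_mul hv (g := fun t => 2 * F t) (by fun_prop)).2.1
    refine (a1.add a2).congr (Filter.Eventually.of_forall fun t => ?_)
    simp only [Pi.add_apply]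
    ring
  have i2 : Integrable (fun t => (κ ^ 2 - W t - F t ^ 2) * w t ^ 2 +
      2 * F t * (w t * deriv w t)) := by
    have a1 := (hwT.int_mul hwT hF').1
    have a2 := (hwT.int_mul hwT (g := fun t => 2 * F t) (by fun_prop)).2.1
    refine (a1.add a2).congr (Filter.Eventually.of_forall fun t => ?_)
    simp only [Pi.add_apply]
    ring
  have i3 : Integrable (fun t => v t * deriv w t + deriv v t * w t) := by
    have a1 := (hv.int_mul hwT (g := fun _ => 1) continuous_const).2.1
    have a2 := (hwT.int_mul hv (g := fun _ => 1) continuous_const).2.1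
    refine (a1.add a2).congr (Filter.Eventually.of_forall fun t => ?_)
    simp only [Pi.add_apply]
    ring
  have i4 : Integrable (fun t => (deriv v t) ^ 2 + E * v t ^ 2 - W t * v t ^ 2) := by
    have a1 := hv.int_sq.2
    have a2 := (hv.int_mul hv (g := fun t => E - W t) (by fun_prop)).1
    refine (a1.add a2).congr (Filter.Eventually.of_forall fun t => ?_)
    simp only [Pi.add_apply]
    ring
  have i5 : Integrable (fun t => (deriv w t) ^ 2 + E * w t ^ 2 - comm W κ F t * w t ^ 2) := by
    have a1 := hwT.int_sq.2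
    have a2 := (hwT.int_mul hwT (g := fun t => E - comm W κ F t) (by fun_prop)).1
    refine (a1.add a2).congr (Filter.Eventually.of_forall fun t => ?_)
    simp only [Pi.add_apply]
    ring
  have i6 : Integrable (fun t => (deriv v t - F t * v t) ^ 2) := by
    have a1 := hv.int_sq.2
    have a2 := (hv.int_mul hv (g := fun t => F t ^ 2) (by fun_prop)).1
    have a3 := (hv.int_mul hv (g := fun t => -(2 * F t)) (by fun_prop)).2.1
    refine ((a1.add a2).add a3).congr (Filter.Eventually.of_forall fun t => ?_)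
    simp only [Pi.add_apply]
    ring
  have i7 : Integrable (fun t => v t ^ 2) := hv.int_sq.1
  have i8 : Integrable (fun t => ((κ ^ 2 - E) * w t - deriv v t + F t * v t) ^ 2) := by
    have a1 := (hwT.int_mul hwT (g := fun _ => (κ ^ 2 - E) ^ 2) continuous_const).1
    have a2 := (hwT.int_mul hv (g := fun _ => -(2 * (κ ^ 2 - E))) continuous_const).2.1
    have a3 := (hwT.int_mul hv (g := fun t => 2 * (κ ^ 2 - E) * F t) (by fun_prop)).1
    refine (((a1.add a2).add a3).add i6).congr (Filter.Eventually.of_forall fun t => ?_)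
    simp only [Pi.add_apply]
    ring
  -- the energy is below the ground state
  have hs : 0 < κ ^ 2 - E := by
    by_contra hs
    rw [not_lt] at hs
    have h1 : Q W E v = (∫ t, (deriv v t - F t * v t) ^ 2) - (κ ^ 2 - E) * (∫ t, v t ^ 2) +
        ∫ t, ((κ ^ 2 - W t - F t ^ 2) * v t ^ 2 + 2 * F t * (v t * deriv v t)) := by
      have j1 : Integrable (fun t => (κ ^ 2 - E) * v t ^ 2) := i7.const_mul _
      have j2 : Integrable (fun t => (deriv v t - F t * v t) ^ 2 - (κ ^ 2 - E) * v t ^ 2) :=
        i6.sub j1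
      rw [← integral_const_mul, ← integral_sub i6 j1, ← integral_add j2 i1]
      unfold Q
      congr 1
      funext t
      ring
    rw [e1, add_zero] at h1
    have h2 : 0 ≤ ∫ t, (deriv v t - F t * v t) ^ 2 := integral_nonneg fun t => sq_nonneg _
    have h3 : 0 ≤ ∫ t, v t ^ 2 := integral_nonneg fun t => sq_nonneg _
    nlinarith
  have hkey : (κ ^ 2 - E) * Q (comm W κ F) E w - Q W E v +
      ∫ t, ((κ ^ 2 - E) * w t - deriv v t + F t * v t) ^ 2 =
      -((κ ^ 2 - E) * ∫ t, ((κ ^ 2 - W t - F t ^ 2) * w t ^ 2 +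
        2 * F t * (w t * deriv w t))) -
      2 * (κ ^ 2 - E) * (∫ t, (v t * deriv w t + deriv v t * w t)) -
      ∫ t, ((κ ^ 2 - W t - F t ^ 2) * v t ^ 2 + 2 * F t * (v t * deriv v t)) := by
    unfold Q
    have j1 : Integrable (fun t => (κ ^ 2 - E) *
        ((deriv w t) ^ 2 + E * w t ^ 2 - comm W κ F t * w t ^ 2)) := i5.const_mul _
    have j2 : Integrable (fun t => (κ ^ 2 - E) *
        ((deriv w t) ^ 2 + E * w t ^ 2 - comm W κ F t * w t ^ 2) -
        ((deriv v t) ^ 2 + E * v t ^ 2 - W t * v t ^ 2)) := j1.sub i4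
    have j3 : Integrable (fun t => -((κ ^ 2 - E) * ((κ ^ 2 - W t - F t ^ 2) * w t ^ 2 +
        2 * F t * (w t * deriv w t)))) := (i2.const_mul _).neg
    have j4 : Integrable (fun t => 2 * (κ ^ 2 - E) * (v t * deriv w t + deriv v t * w t)) :=
      i3.const_mul _
    have j5 : Integrable (fun t => -((κ ^ 2 - E) * ((κ ^ 2 - W t - F t ^ 2) * w t ^ 2 +
        2 * F t * (w t * deriv w t))) - 2 * (κ ^ 2 - E) * (v t * deriv w t + deriv v t * w t)) :=
      j3.sub j4
    rw [← integral_const_mul, ← integral_const_mul, ← integral_const_mul, ← integral_neg,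
      ← integral_sub j1 i4, ← integral_add j2 i8, ← integral_sub j3 j4,
      ← integral_sub j5 i1]
    congr 1
    funext t
    simp only [hdw, comm]
    ring
  rw [e1, e2, e3] at hkey
  have h8 : 0 ≤ ∫ t, ((κ ^ 2 - E) * w t - deriv v t + F t * v t) ^ 2 :=
    integral_nonneg fun t => sq_nonneg _
  have h9 : (κ ^ 2 - E) * Q (comm W κ F) E w < 0 := by linarith
  exact (pos_iff_neg_of_mul_neg h9).mp hs

/-- a linear map from an `n`-dimensional space into the kernel of a functional on an
`(n+1)`-dimensional space -/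
theorem Drop_c_ker {n : ℕ} (φ : (Fin (n + 1) → ℝ) →ₗ[ℝ] ℝ) :
    ∃ ι : (Fin n → ℝ) →ₗ[ℝ] (Fin (n + 1) → ℝ), (∀ d, φ (ι d) = 0) ∧ ∀ d, d ≠ 0 → ι d ≠ 0 := by
  have hk : n ≤ Module.finrank ℝ (LinearMap.ker φ) := by
    have h1 := LinearMap.finrank_range_add_finrank_ker φ
    have h2 : Module.finrank ℝ (LinearMap.range φ) ≤ 1 := by
      have := Submodule.finrank_le (LinearMap.range φ)
      rwa [Module.finrank_self] at this
    rw [Module.finrank_fin_fun] at h1
    omega
  let b := Module.finBasis ℝ (LinearMap.ker φ)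
  let w : Fin n → (Fin (n + 1) → ℝ) := fun i => (b (Fin.castLE hk i) : Fin (n + 1) → ℝ)
  have hw : LinearIndependent ℝ w :=
    (b.linearIndependent.comp (Fin.castLE hk) (Fin.castLE_injective hk)).map'
      (LinearMap.ker φ).subtype (Submodule.ker_subtype _)
  refine ⟨Fintype.linearCombination ℝ w, fun d => ?_, fun d hd h0 => hd ?_⟩
  · have : Fintype.linearCombination ℝ w d ∈ LinearMap.ker φ := by
      rw [Fintype.linearCombination_apply]
      exact Submodule.sum_mem _ fun i _ => Submodule.smul_mem _ _ (b _).2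
    exact this
  · rw [Fintype.linearCombination_apply] at h0
    funext i
    exact Fintype.linearIndependent_iff.1 hw d h0 i

theorem index_drop {W F : ℝ → ℝ} (hW : Continuous W) (hc : HasCompactSupport W) {κ R : ℝ}
    (hF : Gst W κ R F) {E : ℝ} {n : ℕ} (h : Neg W E univ (n + 1)) :
    Neg (comm W κ F) E univ n := by
  have hFc : Continuous F := continuous_iff_continuousAt.2 fun x => (hF.ode x).continuousAt
  obtain ⟨f, hf, hf0⟩ : ∃ f : ℝ → ℝ, (∀ x, HasDerivAt f (F x * f x) x) ∧ ∀ x, 0 < f x := by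
    refine ⟨fun x => Real.exp (∫ t in (0 : ℝ)..x, F t), fun x => ?_, fun x => Real.exp_pos _⟩
    have h1 : HasDerivAt (fun x => ∫ t in (0 : ℝ)..x, F t) (F x) x :=
      intervalIntegral.integral_hasDerivAt_right (hFc.intervalIntegrable _ _)
        (hFc.stronglyMeasurableAtFilter _ _) hFc.continuousAt
    have h2 := h1.exp
    rw [mul_comm]
    exact h2
  have hfc : Continuous f := continuous_iff_continuousAt.2 fun x => (hf x).continuousAt
  obtain ⟨L, hL⟩ := h
  have hint : ∀ c, Integrable (fun y => f y * L c y) := fun c =>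
    (hfc.mul (hL c).1.continuous).integrable_of_hasCompactSupport (hL c).1.cs.mul_left
  have hadd : ∀ c d y, f y * L (c + d) y = f y * L c y + f y * L d y := by
    intro c d y
    rw [map_add, Pi.add_apply, mul_add]
  have hsmul : ∀ (r : ℝ) c y, f y * L (r • c) y = r * (f y * L c y) := by
    intro r c y
    rw [map_smul, Pi.smul_apply, smul_eq_mul]
    ring
  let φ : (Fin (n + 1) → ℝ) →ₗ[ℝ] ℝ :=
    { toFun := fun c => ∫ y, f y * L c y
      map_add' := by
        intro c d
        simp only [hadd]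
        exact integral_add (hint c) (hint d)
      map_smul' := by
        intro r c
        simp only [hsmul]
        exact integral_const_mul _ _ }
  obtain ⟨ι, hι, hι0⟩ := Drop_c_ker φ
  let L' : (Fin n → ℝ) →ₗ[ℝ] (ℝ → ℝ) :=
    { toFun := fun d x => -(1 / f x) * ∫ y in Iic x, f y * L (ι d) y
      map_add' := by
        intro c d
        funext x
        simp only [map_add ι, hadd, Pi.add_apply]
        rw [integral_add (hint _).integrableOn (hint _).integrableOn, mul_add]
      map_smul' := by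
        intro r c
        funext x
        simp only [map_smul ι, hsmul, Pi.smul_apply, smul_eq_mul, RingHom.id_apply]
        rw [integral_const_mul]
        ring }
  refine ⟨L', fun d => ?_⟩
  obtain ⟨h1, h2⟩ := drop_one hW hc hF hf hf0 (hL (ι d)).1 (hι d)
  refine ⟨h1, fun t ht => absurd (mem_univ t) ht, fun hd => ?_⟩
  exact h2 E ((hL (ι d)).2.2 (hι0 d hd))

end Pool.Agent.CLR5
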