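import Pool.Agent.Lib.MP_efa090_mp.Bas

/-! Row Gen: from nice potentials to all potentials in `L^(5/2)`. -/

open MeasureTheory Set Metric

namespace Pool.Agent.CLR5

/-! ### The weight -/

noncomputable def GenE (T t : ℝ) : ℝ := if t < T then Real.exp (3 * t) else 0

theorem GenE_nonneg (T t : ℝ) : 0 ≤ GenE T t := by
  unfold GenE
  split_ifs
  · exact (Real.exp_pos _).le
  · exact le_rfl

theorem GenE_eq (T : ℝ) {q : ℝ} (hq : 0 < q) :
    (fun t => GenE T t ^ q) = (Iio T).indicator (fun t => Real.exp ((3 * q) * t)) := by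
  funext t
  unfold GenE
  by_cases h : t < T
  · rw [if_pos h, indicator_of_mem (show t ∈ Iio T from h), ← Real.exp_mul]
    ring_nf
  · rw [if_neg h, indicator_of_notMem (show t ∉ Iio T from h), Real.zero_rpow hq.ne']

theorem GenE_int_rpow (T : ℝ) {q : ℝ} (hq : 0 < q) : Integrable (fun t => GenE T t ^ q) := by
  rw [GenE_eq T hq, integrable_indicator_iff measurableSet_Iio]
  exact (integrableOn_exp_mul_Iic (by positivity) T).mono_set Iio_subset_Iic_self

theorem GenE_int (T : ℝ) : Integrable (GenE T) := by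
  have h := GenE_int_rpow T one_pos
  simpa using h

theorem GenE_meas (T : ℝ) : Measurable (GenE T) := by
  unfold GenE
  exact Measurable.ite measurableSet_Iio (by fun_prop) measurable_const

theorem GenE_memLp (T : ℝ) {q : ℝ} (hq : 0 < q) : MemLp (GenE T) (ENNReal.ofReal q) volume := by
  have h0 : ENNReal.ofReal q ≠ 0 := by simpa using hq
  rw [← integrable_norm_rpow_iff (GenE_meas T).aestronglyMeasurable h0 ENNReal.ofReal_ne_top]
  rw [ENNReal.toReal_ofReal hq.le]
  have h := GenE_int_rpow T hq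
  refine h.congr (Filter.Eventually.of_forall fun t => ?_)
  simp only [Real.norm_of_nonneg (GenE_nonneg T t)]

/-! ### Sums of functions -/

noncomputable def GenU {n : ℕ} (u : Fin n → E5 → ℝ) (c : Fin n → ℝ) : E5 → ℝ :=
  fun x => ∑ i, c i * u i x

variable {n : ℕ} {u : Fin n → E5 → ℝ}

theorem GenU_cd (hu : ∀ i, ContDiff ℝ 1 (u i)) (c : Fin n → ℝ) : ContDiff ℝ 1 (GenU u c) := by
  unfold GenU
  exact ContDiff.sum fun i _ => contDiff_const.mul (hu i)

theorem GenU_cs (hc : ∀ i, HasCompactSupport (u i)) (c : Fin n → ℝ) :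
    HasCompactSupport (GenU u c) := by
  have h : IsCompact (⋃ i, tsupport (u i)) := isCompact_iUnion fun i => hc i
  refine HasCompactSupport.of_support_subset_isCompact h ?_
  intro x hx
  by_contra hcon
  apply hx
  unfold GenU
  apply Finset.sum_eq_zero
  intro i _
  have : u i x = 0 := by
    by_contra hne
    exact hcon (mem_iUnion.2 ⟨i, subset_tsupport _ hne⟩)
  rw [this, mul_zero]

theorem Gen_resc (c : Fin n → ℝ) (t : ℝ) (x : E5) :
    resc (GenU u c) t x = ∑ i, c i * resc (u i) t x := by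
  unfold resc GenU
  rw [Finset.mul_sum]
  apply Finset.sum_congr rfl
  intro i _
  ring

theorem Gen_fd (hu : ∀ i, ContDiff ℝ 1 (u i)) (c : Fin n → ℝ) (t : ℝ) (x : E5) :
    fderiv ℝ (resc (GenU u c) t) x = ∑ i, c i • fderiv ℝ (resc (u i) t) x := by
  have h : resc (GenU u c) t = fun y => ∑ i, c i * resc (u i) t y := by
    funext y
    exact Gen_resc c t y
  rw [h]
  apply HasFDerivAt.fderiv
  apply HasFDerivAt.fun_sum
  intro i _
  exact (((contDiff_resc (hu i) t).differentiable (by norm_num)) x).hasFDerivAt.const_mul (c i)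

theorem Gen_Vt (hu : ∀ i, ContDiff ℝ 1 (u i)) (c : Fin n → ℝ) (t : ℝ) (x : E5) :
    Vt (GenU u c) t x = ∑ i, c i * Vt (u i) t x := by
  unfold Vt
  rw [Gen_fd hu, Gen_resc, Finset.mul_sum, sum_apply, ← Finset.sum_add_distrib]
  apply Finset.sum_congr rfl
  intro i _
  simp only [smul_apply, smul_eq_mul]
  ring

/-! ### The tangential part -/

noncomputable def GenP (L : E5 →L[ℝ] ℝ) (x : E5) : E5 :=
  (InnerProductSpace.toDual ℝ E5).symm L - (L x) • x

theorem GenP_sq (L : E5 →L[ℝ] ℝ) {x : E5} (hx : ‖x‖ = 1) :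
    ‖GenP L x‖ ^ 2 = ‖L‖ ^ 2 - (L x) ^ 2 := by
  unfold GenP
  rw [@norm_sub_sq_real]
  have h1 : inner ℝ ((InnerProductSpace.toDual ℝ E5).symm L) ((L x) • x) = L x * L x := by
    rw [inner_smul_right, InnerProductSpace.toDual_symm_apply]
  have h2 : ‖(InnerProductSpace.toDual ℝ E5).symm L‖ = ‖L‖ :=
    LinearIsometryEquiv.norm_map _ _
  rw [h1, h2, norm_smul, hx, Real.norm_eq_abs, mul_one, sq_abs]
  ring

theorem GenP_sum (c : Fin n → ℝ) (L : Fin n → E5 →L[ℝ] ℝ) (x : E5) :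
    GenP (∑ i, c i • L i) x = ∑ i, c i • GenP (L i) x := by
  unfold GenP
  simp only [map_sum, map_smulₛₗ, sum_apply, smul_apply,
    smul_eq_mul, Finset.sum_smul, smul_sub, Finset.sum_sub_distrib, smul_smul]
  rfl

theorem Gen_tan (F : E5 → ℝ) {x : E5} (hx : ‖x‖ = 1) : tan2 F x = ‖GenP (fderiv ℝ F x) x‖ ^ 2 := by
  rw [GenP_sq _ hx]
  unfold tan2
  rw [hx]
  ring

/-! ### Uniform bounds -/

theorem Gen_bd (hu : ∀ i, ContDiff ℝ 1 (u i)) (hc : ∀ i, HasCompactSupport (u i)) :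
    ∃ A T : ℝ, 0 ≤ A ∧ ∀ c : Fin n → ℝ, (∀ i, |c i| ≤ 1) → ∀ (t : ℝ) (ω : S4),
      resc (GenU u c) t ω ^ 2 ≤ A * GenE T t ∧ Vt (GenU u c) t ω ^ 2 ≤ A * GenE T t ∧
        0 ≤ tan2 (resc (GenU u c) t) ω ∧ tan2 (resc (GenU u c) t) ω ≤ A * GenE T t := by
  choose C T hC hb using fun i => bounds (hu i) (hc i)
  refine ⟨(∑ i, C i) ^ 2 + (∑ i, Real.sqrt (C i)) ^ 2, ∑ i, |T i|, by positivity, ?_⟩
  intro c hc1 t ω
  have hω : ‖(ω : E5)‖ = 1 := by simp
  have hsum : ∀ (a b : Fin n → ℝ), (∀ i, |a i| ≤ b i) → |∑ i, c i * a i| ≤ ∑ i, b i := by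
    intro a b hab
    refine (Finset.abs_sum_le_sum_abs _ _).trans (Finset.sum_le_sum fun i _ => ?_)
    rw [abs_mul]
    calc |c i| * |a i| ≤ 1 * |a i| := mul_le_mul_of_nonneg_right (hc1 i) (abs_nonneg _)
      _ ≤ b i := by rw [one_mul]; exact hab i
  have htan0 : 0 ≤ tan2 (resc (GenU u c) t) ω := by
    rw [Gen_tan _ hω]; positivity
  have hTi : ∀ i, T i ≤ ∑ i, |T i| := fun i =>
    (le_abs_self _).trans (Finset.single_le_sum (fun j _ => abs_nonneg (T j)) (Finset.mem_univ i))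
  have htaneq : tan2 (resc (GenU u c) t) ω =
      ‖∑ i, c i • GenP (fderiv ℝ (resc (u i) t) ω) ω‖ ^ 2 := by
    rw [Gen_tan _ hω, Gen_fd hu, GenP_sum]
  by_cases ht : t < ∑ i, |T i|
  · have hE : GenE (∑ i, |T i|) t = Real.exp (3 * t) := by unfold GenE; rw [if_pos ht]
    rw [hE]
    have he : Real.exp (3 * t / 2) ^ 2 = Real.exp (3 * t) := by
      rw [← Real.exp_nat_mul]; congr 1; push_cast; ring
    have hr : |resc (GenU u c) t ω| ≤ (∑ i, C i) * Real.exp (3 * t / 2) := by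
      rw [Gen_resc, Finset.sum_mul]
      exact hsum _ _ fun i => (hb i t ω).1
    have hV : |Vt (GenU u c) t ω| ≤ (∑ i, C i) * Real.exp (3 * t / 2) := by
      rw [Gen_Vt hu, Finset.sum_mul]
      exact hsum _ _ fun i => (hb i t ω).2.1
    have hsq : ∀ a : ℝ, |a| ≤ (∑ i, C i) * Real.exp (3 * t / 2) →
        a ^ 2 ≤ ((∑ i, C i) ^ 2 + (∑ i, Real.sqrt (C i)) ^ 2) * Real.exp (3 * t) := by
      intro a ha
      have h1 : a ^ 2 ≤ ((∑ i, C i) * Real.exp (3 * t / 2)) ^ 2 := by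
        rw [← sq_abs a]
        exact pow_le_pow_left₀ (abs_nonneg _) ha 2
      rw [mul_pow, he] at h1
      have h2 : 0 ≤ (∑ i, Real.sqrt (C i)) ^ 2 * Real.exp (3 * t) := by positivity
      linarith
    refine ⟨hsq _ hr, hsq _ hV, htan0, ?_⟩
    rw [htaneq]
    have hP : ∀ i, ‖GenP (fderiv ℝ (resc (u i) t) ω) ω‖ ≤
        Real.sqrt (C i) * Real.exp (3 * t / 2) := by
      intro i
      apply le_of_sq_le_sq _ (by positivity)
      rw [mul_pow, he, Real.sq_sqrt (hC i), ← Gen_tan _ hω]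
      exact (le_abs_self _).trans (hb i t ω).2.2.1
    have h3 : ‖∑ i, c i • GenP (fderiv ℝ (resc (u i) t) ω) ω‖ ≤
        (∑ i, Real.sqrt (C i)) * Real.exp (3 * t / 2) := by
      rw [Finset.sum_mul]
      refine (norm_sum_le _ _).trans (Finset.sum_le_sum fun i _ => ?_)
      rw [norm_smul, Real.norm_eq_abs]
      calc |c i| * ‖GenP (fderiv ℝ (resc (u i) t) ω) ω‖
          ≤ 1 * ‖GenP (fderiv ℝ (resc (u i) t) ω) ω‖ :=
            mul_le_mul_of_nonneg_right (hc1 i) (norm_nonneg _)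
        _ ≤ _ := by rw [one_mul]; exact hP i
    have h4 := pow_le_pow_left₀ (norm_nonneg _) h3 2
    rw [mul_pow, he] at h4
    have h5 : 0 ≤ (∑ i, C i) ^ 2 * Real.exp (3 * t) := by positivity
    linarith
  · have hE : GenE (∑ i, |T i|) t = 0 := by unfold GenE; rw [if_neg ht]
    have hz : ∀ i, resc (u i) t ω = 0 ∧ Vt (u i) t ω = 0 ∧ tan2 (resc (u i) t) ω = 0 :=
      fun i => (hb i t ω).2.2.2 ((hTi i).trans (not_lt.1 ht))
    rw [hE, mul_zero]
    have e1 : resc (GenU u c) t ω = 0 := by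
      rw [Gen_resc]
      exact Finset.sum_eq_zero fun i _ => by rw [(hz i).1, mul_zero]
    have e2 : Vt (GenU u c) t ω = 0 := by
      rw [Gen_Vt hu]
      exact Finset.sum_eq_zero fun i _ => by rw [(hz i).2.1, mul_zero]
    have e3 : tan2 (resc (GenU u c) t) ω = 0 := by
      rw [htaneq]
      have : ∑ i, c i • GenP (fderiv ℝ (resc (u i) t) ω) ω = 0 := by
        apply Finset.sum_eq_zero
        intro i _
        have h6 := (hz i).2.2
        rw [Gen_tan _ hω] at h6
        rw [norm_eq_zero.1 (pow_eq_zero_iff (two_ne_zero)|>.1 h6), smul_zero]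
      rw [this, norm_zero]
      norm_num
    rw [e1, e2, e3]
    norm_num

/-! ### Splitting of the form -/

noncomputable def GenD (w : E5 → ℝ) (t : ℝ) : ℝ :=
  ∫ ω : S4, (Vt w t ω ^ 2 + (9 / 4) * resc w t ω ^ 2 + tan2 (resc w t) ω) ∂σ

noncomputable def GenH (w : E5 → ℝ) (t : ℝ) : ℝ := ∫ ω : S4, resc w t ω ^ 2 ∂σ

theorem Gen_int_sphere {f : S4 → ℝ} (hf : Continuous f) : Integrable f σ := by
  have h := hf.continuousOn.integrableOn_compact (μ := σ) isCompact_univ
  rwa [integrableOn_univ] at h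

theorem Gen_dens (W : ℝ → ℝ) {w : E5 → ℝ} (hw : ContDiff ℝ 1 w) (t : ℝ) :
    dens W w t = GenD w t - W t * GenH w t := by
  obtain ⟨h1, h2, h3⟩ := cont_all hw
  have c0 : Continuous fun ω : S4 => ((t, ω) : ℝ × S4) := by fun_prop
  have c1 : Continuous fun ω : S4 => resc w t ω := h1.comp c0
  have c2 : Continuous fun ω : S4 => Vt w t ω := h2.comp c0
  have c3 : Continuous fun ω : S4 => tan2 (resc w t) ω := by
    have h4 := h3.comp c0
    simp only [Function.comp_def] at h4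
    exact h4
  have i1 : Integrable (fun ω : S4 => Vt w t ω ^ 2 + (9 / 4) * resc w t ω ^ 2 +
      tan2 (resc w t) ω) σ :=
    Gen_int_sphere (((c2.pow 2).add (continuous_const.mul (c1.pow 2))).add c3)
  have i2 : Integrable (fun ω : S4 => W t * resc w t ω ^ 2) σ :=
    Gen_int_sphere (continuous_const.mul (c1.pow 2))
  unfold dens GenD GenH
  rw [← integral_const_mul, ← integral_sub i1 i2]

theorem Gen_H_cont {w : E5 → ℝ} (hw : ContDiff ℝ 1 w) : Continuous (GenH w) := by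
  obtain ⟨h1, _, _⟩ := cont_all hw
  have h := continuous_parametric_integral_of_continuous (μ := σ)
    (f := fun (t : ℝ) (ω : S4) => resc w t ω ^ 2) (by
      have : Continuous fun z : ℝ × S4 => resc w z.1 z.2 ^ 2 := h1.pow 2
      exact this) (isCompact_univ)
  simp only [Measure.restrict_univ] at h
  exact h

theorem Gen_D_int {w : E5 → ℝ} (hw : ContDiff ℝ 1 w) (hc : HasCompactSupport w) :
    Integrable (GenD w) := by
  have h0 : Nice (fun _ => (0 : ℝ)) := ⟨continuous_const, HasCompactSupport.zero, fun _ => le_rfl⟩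
  have h := int_dens h0 hw hc
  have e : dens (fun _ => (0 : ℝ)) w = GenD w := by
    funext t
    rw [Gen_dens _ hw]
    simp
  rwa [e] at h

theorem Gen_H_nonneg (w : E5 → ℝ) (t : ℝ) : 0 ≤ GenH w t :=
  integral_nonneg fun _ => sq_nonneg _

theorem Gen_H_le (hu : ∀ i, ContDiff ℝ 1 (u i)) {A T : ℝ}
    (hb : ∀ c : Fin n → ℝ, (∀ i, |c i| ≤ 1) → ∀ (t : ℝ) (ω : S4),
      resc (GenU u c) t ω ^ 2 ≤ A * GenE T t ∧ Vt (GenU u c) t ω ^ 2 ≤ A * GenE T t ∧
        0 ≤ tan2 (resc (GenU u c) t) ω ∧ tan2 (resc (GenU u c) t) ω ≤ A * GenE T t)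
    {c : Fin n → ℝ} (hc1 : ∀ i, |c i| ≤ 1) (t : ℝ) :
    GenH (GenU u c) t ≤ (σ.real univ * A) * GenE T t := by
  obtain ⟨h1, _, _⟩ := cont_all (GenU_cd hu c)
  have c1 : Continuous fun ω : S4 => resc (GenU u c) t ω :=
    h1.comp (Continuous.prodMk continuous_const continuous_id)
  have h2 : GenH (GenU u c) t ≤ ∫ _ω : S4, A * GenE T t ∂σ := by
    unfold GenH
    exact integral_mono (Gen_int_sphere (by fun_prop)) (integrable_const _)
      fun ω => (hb c hc1 t ω).1
  rw [integral_const, smul_eq_mul] at h2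
  linarith

theorem Gen_WE {W : ℝ → ℝ} (hW : MemLp W (ENNReal.ofReal (5 / 2)) volume) (T : ℝ) :
    Integrable (fun t => W t * GenE T t) := by
  have hpq : Real.HolderConjugate (5 / 2) (5 / 3) := by
    rw [Real.holderConjugate_iff]
    constructor <;> norm_num
  have := hpq.ennrealOfReal
  exact hW.integrable_mul (GenE_memLp T (q := 5 / 3) (by norm_num))

theorem Gen_WH {W : ℝ → ℝ} (hm : Measurable W)
    (hW : MemLp W (ENNReal.ofReal (5 / 2)) volume) (hu : ∀ i, ContDiff ℝ 1 (u i)) {A T : ℝ}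
    (hb : ∀ c : Fin n → ℝ, (∀ i, |c i| ≤ 1) → ∀ (t : ℝ) (ω : S4),
      resc (GenU u c) t ω ^ 2 ≤ A * GenE T t ∧ Vt (GenU u c) t ω ^ 2 ≤ A * GenE T t ∧
        0 ≤ tan2 (resc (GenU u c) t) ω ∧ tan2 (resc (GenU u c) t) ω ≤ A * GenE T t)
    {c : Fin n → ℝ} (hc1 : ∀ i, |c i| ≤ 1) :
    Integrable (fun t => W t * GenH (GenU u c) t) := by
  have h1 := ((Gen_WE hW T).norm).const_mul (σ.real univ * A)
  refine h1.mono' (hm.aestronglyMeasurable.mul
    (Gen_H_cont (GenU_cd hu c)).aestronglyMeasurable) (Filter.Eventually.of_forall fun t => ?_)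
  rw [norm_mul, norm_mul, Real.norm_of_nonneg (Gen_H_nonneg _ _),
    Real.norm_of_nonneg (GenE_nonneg _ _)]
  have h2 := Gen_H_le hu hb hc1 t
  calc ‖W t‖ * GenH (GenU u c) t ≤ ‖W t‖ * ((σ.real univ * A) * GenE T t) :=
        mul_le_mul_of_nonneg_left h2 (norm_nonneg _)
    _ = σ.real univ * A * (‖W t‖ * GenE T t) := by ring

theorem Gen_QQ {W : ℝ → ℝ} (hm : Measurable W)
    (hW : MemLp W (ENNReal.ofReal (5 / 2)) volume) (hu : ∀ i, ContDiff ℝ 1 (u i))
    (hc : ∀ i, HasCompactSupport (u i)) {A T : ℝ}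
    (hb : ∀ c : Fin n → ℝ, (∀ i, |c i| ≤ 1) → ∀ (t : ℝ) (ω : S4),
      resc (GenU u c) t ω ^ 2 ≤ A * GenE T t ∧ Vt (GenU u c) t ω ^ 2 ≤ A * GenE T t ∧
        0 ≤ tan2 (resc (GenU u c) t) ω ∧ tan2 (resc (GenU u c) t) ω ≤ A * GenE T t)
    {c : Fin n → ℝ} (hc1 : ∀ i, |c i| ≤ 1) :
    QQ W (GenU u c) = (∫ t, GenD (GenU u c) t) - ∫ t, W t * GenH (GenU u c) t := by
  unfold QQ
  rw [← integral_sub (Gen_D_int (GenU_cd hu c) (GenU_cs hc c)) (Gen_WH hm hW hu hb hc1)]
  apply integral_congr_ae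
  exact Filter.Eventually.of_forall fun t => Gen_dens W (GenU_cd hu c) t

/-! ### Continuity in the coefficients -/

theorem Gen_cont_dens (W : ℝ → ℝ) (hu : ∀ i, ContDiff ℝ 1 (u i)) (t : ℝ) :
    Continuous fun c : Fin n → ℝ => dens W (GenU u c) t := by
  have c1 : ∀ i, Continuous fun ω : S4 => resc (u i) t ω := fun i =>
    (cont_all (hu i)).1.comp (Continuous.prodMk continuous_const continuous_id)
  have c2 : ∀ i, Continuous fun ω : S4 => Vt (u i) t ω := fun i =>
    (cont_all (hu i)).2.1.comp (Continuous.prodMk continuous_const continuous_id)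
  have c3 : ∀ i, Continuous fun ω : S4 => fderiv ℝ (resc (u i) t) ω := fun i =>
    ((contDiff_resc (hu i) t).continuous_fderiv (by norm_num)).comp continuous_subtype_val
  have d1 : Continuous fun z : (Fin n → ℝ) × S4 => resc (GenU u z.1) t z.2 := by
    simp only [Gen_resc]
    exact continuous_finsetSum _ fun i _ =>
      ((continuous_apply i).comp continuous_fst).mul ((c1 i).comp continuous_snd)
  have d2 : Continuous fun z : (Fin n → ℝ) × S4 => Vt (GenU u z.1) t z.2 := by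
    simp only [Gen_Vt hu]
    exact continuous_finsetSum _ fun i _ =>
      ((continuous_apply i).comp continuous_fst).mul ((c2 i).comp continuous_snd)
  have d3 : Continuous fun z : (Fin n → ℝ) × S4 => fderiv ℝ (resc (GenU u z.1) t) z.2 := by
    simp only [Gen_fd hu]
    exact continuous_finsetSum _ fun i _ =>
      ((continuous_apply i).comp continuous_fst).smul ((c3 i).comp continuous_snd)
  have d4 : Continuous fun z : (Fin n → ℝ) × S4 => (z.2 : E5) :=
    continuous_subtype_val.comp continuous_snd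
  have d5 : Continuous fun z : (Fin n → ℝ) × S4 =>
      fderiv ℝ (resc (GenU u z.1) t) z.2 (z.2 : E5) := d3.clm_apply d4
  have h := continuous_parametric_integral_of_continuous (μ := σ)
    (f := fun (c : Fin n → ℝ) (ω : S4) => Vt (GenU u c) t ω ^ 2 +
      (9 / 4) * resc (GenU u c) t ω ^ 2 + tan2 (resc (GenU u c) t) ω
      - W t * resc (GenU u c) t ω ^ 2) (by
      have : Continuous fun z : (Fin n → ℝ) × S4 => Vt (GenU u z.1) t z.2 ^ 2 +
          (9 / 4) * resc (GenU u z.1) t z.2 ^ 2 + tan2 (resc (GenU u z.1) t) z.2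
          - W t * resc (GenU u z.1) t z.2 ^ 2 := by
        unfold tan2
        exact (((d2.pow 2).add (continuous_const.mul (d1.pow 2))).add
          (((d4.norm.pow 2).mul (d3.norm.pow 2)).sub (d5.pow 2))).sub
            (continuous_const.mul (d1.pow 2))
      exact this) (isCompact_univ)
  simp only [Measure.restrict_univ] at h
  exact h

theorem Gen_cont_QQ {W : ℝ → ℝ} (hm : Measurable W)
    (hW : MemLp W (ENNReal.ofReal (5 / 2)) volume) (hu : ∀ i, ContDiff ℝ 1 (u i))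
    (hc : ∀ i, HasCompactSupport (u i)) {A T : ℝ} (hA : 0 ≤ A)
    (hb : ∀ c : Fin n → ℝ, (∀ i, |c i| ≤ 1) → ∀ (t : ℝ) (ω : S4),
      resc (GenU u c) t ω ^ 2 ≤ A * GenE T t ∧ Vt (GenU u c) t ω ^ 2 ≤ A * GenE T t ∧
        0 ≤ tan2 (resc (GenU u c) t) ω ∧ tan2 (resc (GenU u c) t) ω ≤ A * GenE T t) :
    ContinuousOn (fun c : Fin n → ℝ => QQ W (GenU u c)) {c | ∀ i, |c i| ≤ 1} := by
  unfold QQ
  refine continuousOn_of_dominated
    (bound := fun t => σ.real univ * (5 * A) * (GenE T t + ‖W t * GenE T t‖)) ?_ ?_ ?_ ?_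
  · intro c hc1
    have e : dens W (GenU u c) = fun t => GenD (GenU u c) t - W t * GenH (GenU u c) t := by
      funext t
      exact Gen_dens W (GenU_cd hu c) t
    rw [e]
    exact ((Gen_D_int (GenU_cd hu c) (GenU_cs hc c)).sub
      (Gen_WH hm hW hu hb hc1)).aestronglyMeasurable
  · intro c hc1
    refine Filter.Eventually.of_forall fun t => ?_
    unfold dens
    have hE := GenE_nonneg T t
    have h1 : ∀ ω : S4, ‖Vt (GenU u c) t ω ^ 2 + (9 / 4) * resc (GenU u c) t ω ^ 2 +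
        tan2 (resc (GenU u c) t) ω - W t * resc (GenU u c) t ω ^ 2‖ ≤
          5 * A * (GenE T t + ‖W t * GenE T t‖) := by
      intro ω
      obtain ⟨b1, b2, b3, b4⟩ := hb c hc1 t ω
      have hr := sq_nonneg (resc (GenU u c) t ω)
      have hV := sq_nonneg (Vt (GenU u c) t ω)
      have hWb : |W t * resc (GenU u c) t ω ^ 2| ≤ A * ‖W t * GenE T t‖ := by
        rw [abs_mul, abs_of_nonneg hr, norm_mul, Real.norm_of_nonneg hE, Real.norm_eq_abs]
        calc |W t| * resc (GenU u c) t ω ^ 2 ≤ |W t| * (A * GenE T t) :=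
              mul_le_mul_of_nonneg_left b1 (abs_nonneg _)
          _ = A * (|W t| * GenE T t) := by ring
      rw [Real.norm_eq_abs]
      have hAn : 0 ≤ A * ‖W t * GenE T t‖ := by positivity
      have hAE : 0 ≤ A * GenE T t := by positivity
      rw [abs_le] at hWb ⊢
      have e5 : 5 * A * (GenE T t + ‖W t * GenE T t‖) =
          5 * (A * GenE T t) + 5 * (A * ‖W t * GenE T t‖) := by ring
      rw [e5]
      obtain ⟨w1, w2⟩ := hWb
      constructor <;> linarith
    have h2 := norm_integral_le_of_norm_le_const (μ := σ) (Filter.Eventually.of_forall h1)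
    refine h2.trans (le_of_eq ?_)
    ring
  · exact ((GenE_int T).add (Gen_WE hW T).norm).const_mul _
  · exact Filter.Eventually.of_forall fun t => (Gen_cont_dens W hu t).continuousOn

/-! ### Scaling -/

theorem Gen_scale (W : ℝ → ℝ) (hu : ∀ i, ContDiff ℝ 1 (u i)) (s : ℝ) (c : Fin n → ℝ) :
    QQ W (GenU u (s • c)) = s ^ 2 * QQ W (GenU u c) := by
  unfold QQ
  rw [← integral_const_mul]
  congr 1
  funext t
  unfold dens
  rw [← integral_const_mul]
  congr 1
  funext ω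
  have hω : ‖(ω : E5)‖ = 1 := by simp
  have e1 : resc (GenU u (s • c)) t ω = s * resc (GenU u c) t ω := by
    rw [Gen_resc, Gen_resc, Finset.mul_sum]
    exact Finset.sum_congr rfl fun i _ => by simp only [Pi.smul_apply, smul_eq_mul]; ring
  have e2 : Vt (GenU u (s • c)) t ω = s * Vt (GenU u c) t ω := by
    rw [Gen_Vt hu, Gen_Vt hu, Finset.mul_sum]
    exact Finset.sum_congr rfl fun i _ => by simp only [Pi.smul_apply, smul_eq_mul]; ring
  have e3 : fderiv ℝ (resc (GenU u (s • c)) t) ω = s • fderiv ℝ (resc (GenU u c) t) ω := by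
    rw [Gen_fd hu, Gen_fd hu, Finset.smul_sum]
    exact Finset.sum_congr rfl fun i _ => by simp only [Pi.smul_apply, smul_eq_mul, mul_smul]
  have e4 : tan2 (resc (GenU u (s • c)) t) ω = s ^ 2 * tan2 (resc (GenU u c) t) ω := by
    unfold tan2
    rw [e3, norm_smul, smul_apply, smul_eq_mul, Real.norm_eq_abs, mul_pow |s|, sq_abs]
    ring
  rw [e1, e2, e4]
  ring

/-! ### Approximation of the potential -/

theorem Gen_memLp {W : ℝ → ℝ} (hm : Measurable W) (h0 : ∀ t, 0 ≤ W t)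
    (hi : Integrable (fun t => W t ^ ((5 : ℝ) / 2))) :
    MemLp W (ENNReal.ofReal (5 / 2)) volume := by
  have hz : ENNReal.ofReal (5 / 2) ≠ 0 := by simp
  rw [← integrable_norm_rpow_iff hm.aestronglyMeasurable hz ENNReal.ofReal_ne_top]
  rw [ENNReal.toReal_ofReal (by norm_num)]
  refine hi.congr (Filter.Eventually.of_forall fun t => ?_)
  simp only [Real.norm_of_nonneg (h0 t)]

theorem Gen_norm {f : ℝ → ℝ} (hf : MemLp f (ENNReal.ofReal (5 / 2)) volume) :
    eLpNorm f (ENNReal.ofReal (5 / 2)) volume =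
      ENNReal.ofReal ((∫ t, |f t| ^ ((5 : ℝ) / 2)) ^ ((2 : ℝ) / 5)) := by
  have hz : ENNReal.ofReal (5 / 2) ≠ 0 := by simp
  rw [hf.eLpNorm_eq_integral_rpow_norm hz ENNReal.ofReal_ne_top,
    ENNReal.toReal_ofReal (by norm_num)]
  simp only [Real.norm_eq_abs]
  norm_num

theorem Gen_mink {W W' : ℝ → ℝ} (hW : MemLp W (ENNReal.ofReal (5 / 2)) volume)
    (hW' : MemLp W' (ENNReal.ofReal (5 / 2)) volume) (h0 : ∀ t, 0 ≤ W t) (h0' : ∀ t, 0 ≤ W' t) :
    (∫ t, W' t ^ ((5 : ℝ) / 2)) ^ ((2 : ℝ) / 5) ≤ (∫ t, W t ^ ((5 : ℝ) / 2)) ^ ((2 : ℝ) / 5) +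
      (∫ t, |W t - W' t| ^ ((5 : ℝ) / 2)) ^ ((2 : ℝ) / 5) := by
  have hp1 : (1 : ENNReal) ≤ ENNReal.ofReal (5 / 2) := by
    rw [← ENNReal.ofReal_one]
    exact ENNReal.ofReal_le_ofReal (by norm_num)
  have h1 := eLpNorm_sub_le (μ := volume) hW.1 (hW.sub hW').1 hp1
  have e1 : W - (W - W') = W' := by
    funext t; simp
  rw [e1, Gen_norm hW', Gen_norm hW, Gen_norm (hW.sub hW')] at h1
  rw [← ENNReal.ofReal_add (by positivity) (by positivity),
    ENNReal.ofReal_le_ofReal_iff (by positivity)] at h1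
  have a1 : (fun t => |W' t| ^ ((5 : ℝ) / 2)) = fun t => W' t ^ ((5 : ℝ) / 2) := by
    funext t; rw [abs_of_nonneg (h0' t)]
  have a2 : (fun t => |W t| ^ ((5 : ℝ) / 2)) = fun t => W t ^ ((5 : ℝ) / 2) := by
    funext t; rw [abs_of_nonneg (h0 t)]
  rw [a1, a2] at h1
  exact h1

theorem Gen_approx {W : ℝ → ℝ} (h0 : ∀ t, 0 ≤ W t)
    (hW : MemLp W (ENNReal.ofReal (5 / 2)) volume) {η : ℝ} (hη : 0 < η) :
    ∃ W' : ℝ → ℝ, Nice W' ∧ MemLp W' (ENNReal.ofReal (5 / 2)) volume ∧
      (∫ t, |W t - W' t| ^ ((5 : ℝ) / 2)) ≤ η := by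
  obtain ⟨g, g1, g2, g3, g4⟩ := hW.exists_hasCompactSupport_integral_rpow_sub_le
    (by norm_num) hη
  have hmem : MemLp (fun t => max (g t) 0) (ENNReal.ofReal (5 / 2)) volume := by
    refine g4.mono (g3.max continuous_const).aestronglyMeasurable
      (Filter.Eventually.of_forall fun t => ?_)
    rw [Real.norm_eq_abs, Real.norm_eq_abs, abs_of_nonneg (le_max_right _ _)]
    exact max_le (le_abs_self _) (abs_nonneg _)
  refine ⟨fun t => max (g t) 0, ⟨g3.max continuous_const, ?_, fun t => le_max_right _ _⟩, hmem, ?_⟩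
  · refine g1.comp_left (g := fun y : ℝ => max y 0) ?_
    simp
  · refine le_trans ?_ g2
    apply integral_mono_of_nonneg
    · exact Filter.Eventually.of_forall fun t => by positivity
    · have hz : ENNReal.ofReal (5 / 2) ≠ 0 := by simp
      have := (integrable_norm_rpow_iff (hW.sub g4).1 hz ENNReal.ofReal_ne_top).2 (hW.sub g4)
      rw [ENNReal.toReal_ofReal (by norm_num)] at this
      exact this
    · refine Filter.Eventually.of_forall fun t => ?_
      refine Real.rpow_le_rpow (abs_nonneg _) ?_ (by norm_num)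
      rw [Real.norm_eq_abs]
      show |W t - max (g t) 0| ≤ |W t - g t|
      have hw := h0 t
      rcases le_total (g t) 0 with h | h
      · rw [max_eq_right h, sub_zero, abs_of_nonneg hw, abs_of_nonneg (by linarith)]
        linarith
      · rw [max_eq_left h]

/-- Approximate `W` in `L^(5/2)` by continuous functions `W' >= 0` with compact support
(`MemLp.exists_hasCompactSupport_eLpNorm_sub_le`, positive part); the form
`c ↦ QQ W (∑ c_i u_i)` is continuous and negative on the unit sphere of `R^n`, and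
`|QQ W u - QQ W' u| <= ∫ |W - W'| h`, `h(t) = ∫ resc u t ^ 2 dσ <= n ∑_i ∫ resc u_i t ^ 2` in
`L^(5/3)`. -/
theorem general_of_nice
    (hnice : ∀ W : ℝ → ℝ, Nice W → ∀ S : Submodule ℝ (E5 → ℝ), FiniteDimensional ℝ S →
      IsTest S → (∀ u ∈ S, u ≠ 0 → QQ W u < 0) →
      (Module.finrank ℝ S : ℝ) ≤ (∫ t, W t ^ ((5 : ℝ) / 2)) / e0)
    {W : ℝ → ℝ} (hm : Measurable W) (h0 : ∀ t, 0 ≤ W t)
    (hi : Integrable (fun t => W t ^ ((5 : ℝ) / 2))) (S : Submodule ℝ (E5 → ℝ))
    (hfin : FiniteDimensional ℝ S) (hS : IsTest S) (hneg : ∀ u ∈ S, u ≠ 0 → QQ W u < 0) :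
    (Module.finrank ℝ S : ℝ) ≤ (∫ t, W t ^ ((5 : ℝ) / 2)) / e0 := by
  have hW := Gen_memLp hm h0 hi
  have he0 : 0 < e0 := by unfold e0; positivity
  have hI : 0 ≤ ∫ t, W t ^ ((5 : ℝ) / 2) :=
    integral_nonneg fun t => Real.rpow_nonneg (h0 t) _
  rcases Nat.eq_zero_or_pos (Module.finrank ℝ S) with hz | hpos
  · rw [hz]
    push_cast
    positivity
  set n := Module.finrank ℝ S with hn
  let b := Module.finBasis ℝ S
  let u : Fin n → E5 → ℝ := fun i => ((b i : S) : E5 → ℝ)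
  have hu : ∀ i, ContDiff ℝ 1 (u i) := fun i =>
    (hS _ (b i).2).1.of_le (by exact_mod_cast le_top)
  have hc : ∀ i, HasCompactSupport (u i) := fun i => (hS _ (b i).2).2
  have hU : ∀ c : Fin n → ℝ, GenU u c = ((∑ i, c i • b i : S) : E5 → ℝ) := by
    intro c
    funext x
    rw [Submodule.coe_sum, Finset.sum_apply]
    rfl
  have hUmem : ∀ c : Fin n → ℝ, GenU u c ∈ S := fun c => by rw [hU]; exact (∑ i, c i • b i : S).2
  have hUne : ∀ c : Fin n → ℝ, c ≠ 0 → GenU u c ≠ 0 := by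
    intro c hcne h
    apply hcne
    rw [hU] at h
    have h2 : (∑ i, c i • b i : S) = 0 := Subtype.ext h
    funext i
    exact Fintype.linearIndependent_iff.1 b.linearIndependent c h2 i
  have hUsurj : ∀ w ∈ S, ∃ c : Fin n → ℝ, GenU u c = w := by
    intro w hw
    refine ⟨fun i => b.repr ⟨w, hw⟩ i, ?_⟩
    rw [hU, b.sum_repr]
  obtain ⟨A, T, hA, hb⟩ := Gen_bd hu hc
  have hcont := Gen_cont_QQ hm hW hu hc hA hb
  have hKsub : sphere (0 : Fin n → ℝ) 1 ⊆ {c | ∀ i, |c i| ≤ 1} := by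
    intro c hc1 i
    have h1 : ‖c‖ = 1 := by simpa using hc1
    rw [← h1, ← Real.norm_eq_abs]
    exact norm_le_pi_norm c i
  have hKne : (sphere (0 : Fin n → ℝ) 1).Nonempty := by
    have : Nonempty (Fin n) := ⟨⟨0, hpos⟩⟩
    exact NormedSpace.sphere_nonempty.2 zero_le_one
  obtain ⟨c0, hc0, hmax⟩ := (isCompact_sphere (0 : Fin n → ℝ) 1).exists_isMaxOn hKne
    (hcont.mono hKsub)
  have hc0ne : c0 ≠ 0 := by
    intro h
    rw [h] at hc0
    simp at hc0
  have hδ : QQ W (GenU u c0) < 0 := hneg _ (hUmem _) (hUne _ hc0ne)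
  set δ := -QQ W (GenU u c0) with hδdef
  have hδpos : 0 < δ := by linarith
  have hmax' : ∀ c ∈ sphere (0 : Fin n → ℝ) 1, QQ W (GenU u c) ≤ -δ := by
    intro c hcs
    have := hmax hcs
    rw [hδdef, neg_neg]
    exact this
  -- the constant of the perturbation
  set M := (σ.real univ * A) * (∫ t, GenE T t ^ ((5 : ℝ) / 3)) ^ ((3 : ℝ) / 5) with hM
  have hM0 : 0 ≤ M := by
    have h1 : 0 ≤ ∫ t, GenE T t ^ ((5 : ℝ) / 3) :=
      integral_nonneg fun t => Real.rpow_nonneg (GenE_nonneg T t) _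
    positivity
  have hmain : ∀ ε : ℝ, 0 < ε → ε * M < δ →
      (n : ℝ) ≤ (((∫ t, W t ^ ((5 : ℝ) / 2)) ^ ((2 : ℝ) / 5) + ε) ^ ((5 : ℝ) / 2)) / e0 := by
    intro ε hε hεM
    obtain ⟨W', hN, hW', hWW⟩ := Gen_approx h0 hW (η := ε ^ ((5 : ℝ) / 2)) (by positivity)
    have hdist0 : 0 ≤ ∫ t, |W t - W' t| ^ ((5 : ℝ) / 2) :=
      integral_nonneg fun t => Real.rpow_nonneg (abs_nonneg _) _
    have hdist : (∫ t, |W t - W' t| ^ ((5 : ℝ) / 2)) ^ ((2 : ℝ) / 5) ≤ ε := by
      have h1 := Real.rpow_le_rpow hdist0 hWW (show (0 : ℝ) ≤ 2 / 5 by norm_num)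
      rw [← Real.rpow_mul hε.le] at h1
      norm_num at h1
      exact h1
    have hpert : ∀ c ∈ sphere (0 : Fin n → ℝ) 1, QQ W' (GenU u c) < 0 := by
      intro c hcs
      have hc1 := hKsub hcs
      have e1 := Gen_QQ hm hW hu hc hb hc1
      have e2 := Gen_QQ hN.cont.measurable hW' hu hc hb hc1
      have i1 := Gen_WH hm hW hu hb hc1
      have i2 := Gen_WH hN.cont.measurable hW' hu hb hc1
      have e3 : QQ W' (GenU u c) = QQ W (GenU u c) +
          ∫ t, (W t * GenH (GenU u c) t - W' t * GenH (GenU u c) t) := by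
        rw [integral_sub i1 i2, e1, e2]
        ring
      have hmemd : MemLp (fun t => |W t - W' t|) (ENNReal.ofReal (5 / 2)) volume :=
        (hW.sub hW').norm
      have i3 := Gen_WE hmemd T
      have e4 : ∫ t, (W t * GenH (GenU u c) t - W' t * GenH (GenU u c) t) ≤
          ∫ t, (σ.real univ * A) * (|W t - W' t| * GenE T t) := by
        refine integral_mono (i1.sub i2) (i3.const_mul _) fun t => ?_
        have h1 := Gen_H_le hu hb hc1 t
        have h2 := Gen_H_nonneg (GenU u c) t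
        have h3 : W t * GenH (GenU u c) t - W' t * GenH (GenU u c) t =
            (W t - W' t) * GenH (GenU u c) t := by ring
        show W t * GenH (GenU u c) t - W' t * GenH (GenU u c) t ≤ _
        rw [h3]
        calc (W t - W' t) * GenH (GenU u c) t ≤ |W t - W' t| * GenH (GenU u c) t :=
              mul_le_mul_of_nonneg_right (le_abs_self _) h2
          _ ≤ |W t - W' t| * ((σ.real univ * A) * GenE T t) :=
              mul_le_mul_of_nonneg_left h1 (abs_nonneg _)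
          _ = (σ.real univ * A) * (|W t - W' t| * GenE T t) := by ring
      rw [integral_const_mul] at e4
      have hpq : Real.HolderConjugate (5 / 2) (5 / 3) := by
        rw [Real.holderConjugate_iff]
        constructor <;> norm_num
      have hH := integral_mul_le_Lp_mul_Lq_of_nonneg (μ := volume) hpq
        (f := fun t => |W t - W' t|) (g := GenE T)
        (Filter.Eventually.of_forall fun t => abs_nonneg _)
        (Filter.Eventually.of_forall fun t => GenE_nonneg T t) hmemd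
        (GenE_memLp T (by norm_num))
      have h53 : (1 : ℝ) / (5 / 3) = 3 / 5 := by norm_num
      have h52 : (1 : ℝ) / (5 / 2) = 2 / 5 := by norm_num
      rw [h53, h52] at hH
      have hE0 : 0 ≤ (∫ t, GenE T t ^ ((5 : ℝ) / 3)) ^ ((3 : ℝ) / 5) := by
        apply Real.rpow_nonneg
        exact integral_nonneg fun t => Real.rpow_nonneg (GenE_nonneg T t) _
      have hH2 : ∫ t, |W t - W' t| * GenE T t ≤
          ε * (∫ t, GenE T t ^ ((5 : ℝ) / 3)) ^ ((3 : ℝ) / 5) :=
        hH.trans (mul_le_mul_of_nonneg_right hdist hE0)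
      have hsA : 0 ≤ σ.real univ * A := by positivity
      have h6 := mul_le_mul_of_nonneg_left hH2 hsA
      have h7 : (σ.real univ * A) * (ε * (∫ t, GenE T t ^ ((5 : ℝ) / 3)) ^ ((3 : ℝ) / 5)) =
          ε * M := by rw [hM]; ring
      have h8 := hmax' c hcs
      rw [e3]
      linarith
    have hneg' : ∀ w ∈ S, w ≠ 0 → QQ W' w < 0 := by
      intro w hw hwne
      obtain ⟨c, rfl⟩ := hUsurj w hw
      have hcne : c ≠ 0 := by
        intro h
        apply hwne
        rw [h]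
        funext x
        simp [GenU]
      have hnorm : 0 < ‖c‖ := norm_pos_iff.2 hcne
      have h1 : (‖c‖⁻¹ • c) ∈ sphere (0 : Fin n → ℝ) 1 := by
        rw [mem_sphere_zero_iff_norm, norm_smul, norm_inv, norm_norm, inv_mul_cancel₀ hnorm.ne']
      have h2 := hpert _ h1
      rw [Gen_scale W' hu] at h2
      have h3 : 0 < ‖c‖⁻¹ ^ 2 := by positivity
      by_contra hcon
      have h4 : 0 ≤ ‖c‖⁻¹ ^ 2 * QQ W' (GenU u c) := mul_nonneg h3.le (not_lt.1 hcon)
      linarith
    have h9 := hnice W' hN S hfin hS hneg'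
    have h10 : 0 ≤ ∫ t, W' t ^ ((5 : ℝ) / 2) :=
      integral_nonneg fun t => Real.rpow_nonneg (hN.nonneg t) _
    have h11 := Gen_mink hW hW' h0 hN.nonneg
    have h12 : (∫ t, W' t ^ ((5 : ℝ) / 2)) ^ ((2 : ℝ) / 5) ≤
        (∫ t, W t ^ ((5 : ℝ) / 2)) ^ ((2 : ℝ) / 5) + ε := by linarith
    have h13 := Real.rpow_le_rpow (by positivity) h12 (show (0 : ℝ) ≤ 5 / 2 by norm_num)
    rw [← Real.rpow_mul h10] at h13
    norm_num at h13
    refine h9.trans ?_
    rw [div_le_div_iff_of_pos_right he0]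
    convert h13 using 2
  -- limit
  have hlim : Filter.Tendsto (fun ε : ℝ =>
      (((∫ t, W t ^ ((5 : ℝ) / 2)) ^ ((2 : ℝ) / 5) + ε) ^ ((5 : ℝ) / 2)) / e0)
      (nhdsWithin 0 (Ioi 0)) (nhds ((((∫ t, W t ^ ((5 : ℝ) / 2)) ^ ((2 : ℝ) / 5) + 0) ^
        ((5 : ℝ) / 2)) / e0)) := by
    apply Filter.Tendsto.mono_left _ nhdsWithin_le_nhds
    apply Filter.Tendsto.div_const
    apply Filter.Tendsto.rpow_const
    · exact Filter.Tendsto.const_add _ Filter.tendsto_id
    · right; norm_num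
  have hfinal : ((((∫ t, W t ^ ((5 : ℝ) / 2)) ^ ((2 : ℝ) / 5) + 0) ^
        ((5 : ℝ) / 2)) / e0) = (∫ t, W t ^ ((5 : ℝ) / 2)) / e0 := by
    rw [add_zero, ← Real.rpow_mul hI]
    norm_num
  rw [hfinal] at hlim
  refine ge_of_tendsto hlim ?_
  have hev : ∀ᶠ ε : ℝ in nhdsWithin 0 (Ioi 0), ε * M < δ := by
    have h1 : Filter.Tendsto (fun ε : ℝ => ε * M) (nhds 0) (nhds (0 * M)) :=
      Filter.Tendsto.mul_const M Filter.tendsto_id
    rw [zero_mul] at h1
    exact nhdsWithin_le_nhds (h1.eventually (gt_mem_nhds hδpos))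
  filter_upwards [hev, self_mem_nhdsWithin] with ε h1 h2
  exact hmain ε h2 h1

end Pool.Agent.CLR5
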