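import Pool.Agent.Lib.MP_efa090_mp.Defs5

/-! Row Polar: polar coordinates (port of Pool/Agent/CLR3/Polar.lean from dimension 3 to 5). -/

open MeasureTheory Set Metric

namespace Pool.Agent.CLR5

open Filter Topology

noncomputable section

/-- The exponential map onto the positive reals. -/
def Polar_expI (t : ℝ) : Ioi (0 : ℝ) := ⟨Real.exp t, Real.exp_pos t⟩

/-- The measure `exp (5 t) dt` on the line. -/
def Polar_nu : Measure ℝ := volume.withDensity fun t : ℝ => ENNReal.ofReal (Real.exp (5 * t))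

theorem Polar_measurable_expI : Measurable Polar_expI :=
  Real.measurable_exp.subtype_mk

theorem Polar_mp_exp : MeasurePreserving Polar_expI Polar_nu (Measure.volumeIoiPow 4) := by
  refine ⟨Polar_measurable_expI, ?_⟩
  ext s hs
  rw [Measure.map_apply Polar_measurable_expI hs, Measure.volumeIoiPow, withDensity_apply _ hs,
    setLIntegral_subtype measurableSet_Ioi s (fun a : ℝ => ENNReal.ofReal (a ^ 4)), Polar_nu,
    withDensity_apply _ (Polar_measurable_expI hs)]
  have himg : Subtype.val '' s = Real.exp '' (Polar_expI ⁻¹' s) := by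
    ext x
    constructor
    · rintro ⟨y, hy, rfl⟩
      refine ⟨Real.log y, ?_, Real.exp_log y.2⟩
      change Polar_expI (Real.log y) ∈ s
      have : Polar_expI (Real.log y) = y := Subtype.ext (Real.exp_log y.2)
      rwa [this]
    · rintro ⟨t, ht, rfl⟩
      exact ⟨Polar_expI t, ht, rfl⟩
  rw [himg, lintegral_image_eq_lintegral_abs_deriv_mul (Polar_measurable_expI hs)
    (fun x _ => (Real.hasDerivAt_exp x).hasDerivWithinAt) (Real.exp_injective.injOn)]
  refine lintegral_congr fun t => ?_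
  rw [abs_of_pos (Real.exp_pos t), ← ENNReal.ofReal_mul (Real.exp_pos t).le, ← Real.exp_nat_mul,
    ← Real.exp_add]
  congr 2
  push_cast
  ring

/-- Logarithmic Polar_polar coordinates. -/
def Polar_pol (p : S4 × ℝ) : E5 := Real.exp p.2 • (p.1 : E5)

theorem Polar_continuous_pol : Continuous Polar_pol :=
  (Real.continuous_exp.comp continuous_snd).smul (continuous_subtype_val.comp continuous_fst)

theorem Polar_sfinite_nu : SFinite Polar_nu := by unfold Polar_nu; infer_instance

theorem Polar_finrank : Module.finrank ℝ E5 = 5 := by simp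

theorem Polar_mp_pol : MeasurePreserving Polar_pol (σ.prod Polar_nu) (volume : Measure E5) := by
  have := Polar_sfinite_nu
  have h1 : MeasurePreserving (Prod.map (id : S4 → S4) Polar_expI) (σ.prod Polar_nu)
      (σ.prod (Measure.volumeIoiPow 4)) := by
    have : SFinite σ := by unfold σ; infer_instance
    exact (MeasurePreserving.id σ).prod Polar_mp_exp
  have h2 := (volume : Measure E5).measurePreserving_homeomorphUnitSphereProd
  rw [Polar_finrank] at h2
  have h3 : MeasurePreserving (homeomorphUnitSphereProd E5).symm (σ.prod (Measure.volumeIoiPow 4))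
      ((volume : Measure E5).comap (Subtype.val : ({(0 : E5)}ᶜ : Set E5) → E5)) :=
    MeasurePreserving.symm (homeomorphUnitSphereProd E5).toMeasurableEquiv h2
  have h4 : MeasurePreserving (Subtype.val : ({(0 : E5)}ᶜ : Set E5) → E5)
      ((volume : Measure E5).comap (Subtype.val : ({(0 : E5)}ᶜ : Set E5) → E5))
      ((volume : Measure E5).restrict {(0 : E5)}ᶜ) :=
    measurePreserving_subtype_coe (measurableSet_singleton _).compl
  rw [restrict_compl_singleton] at h4
  exact h4.comp (h3.comp h1)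

theorem Polar_injective_pol : Function.Injective Polar_pol := by
  rintro ⟨ω, t⟩ ⟨ω', t'⟩ h
  simp only [Polar_pol] at h
  have h1 : ‖(ω : E5)‖ = 1 := by simp
  have h2 : ‖(ω' : E5)‖ = 1 := by simp
  have h3 : Real.exp t = Real.exp t' := by
    have := congrArg norm h
    rw [norm_smul, norm_smul, h1, h2, mul_one, mul_one, Real.norm_of_nonneg (Real.exp_pos t).le,
      Real.norm_of_nonneg (Real.exp_pos t').le] at this
    exact this
  have h4 : t = t' := Real.exp_injective h3
  subst h4
  have h5 : (ω : E5) = ω' := smul_right_injective E5 (Real.exp_pos t).ne' h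
  rw [Subtype.ext h5]

theorem Polar_me_pol : MeasurableEmbedding Polar_pol :=
  Polar_continuous_pol.measurableEmbedding Polar_injective_pol

theorem Polar_measurable_dens : Measurable fun t : ℝ => Real.toNNReal (Real.exp (5 * t)) := by
  fun_prop

theorem Polar_nu_eq : Polar_nu = volume.withDensity fun t : ℝ => ((Real.toNNReal (Real.exp (5 * t)) : NNReal) :
    ENNReal) := rfl

/-- Polar coordinates. -/
theorem Polar_polar (f : E5 → ℝ) (hf : Integrable f) :
    Integrable (fun t : ℝ => Real.exp (5 * t) * ∫ ω : S4, f (Real.exp t • (ω : E5)) ∂σ) ∧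
    ∫ x, f x = ∫ t : ℝ, Real.exp (5 * t) * ∫ ω : S4, f (Real.exp t • (ω : E5)) ∂σ := by
  have := Polar_sfinite_nu
  have : SFinite σ := by unfold σ; infer_instance
  have h1 : Integrable (f ∘ Polar_pol) (σ.prod Polar_nu) := (Polar_mp_pol.integrable_comp_emb Polar_me_pol).mpr hf
  have h2 : ∫ x, f x = ∫ p, f (Polar_pol p) ∂(σ.prod Polar_nu) := (Polar_mp_pol.integral_comp Polar_me_pol f).symm
  have h3 := h1.integral_prod_right
  constructor
  · rw [Polar_nu_eq, integrable_withDensity_iff_integrable_smul Polar_measurable_dens] at h3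
    refine h3.congr (Eventually.of_forall fun t => ?_)
    simp only [NNReal.smul_def, Real.coe_toNNReal _ (Real.exp_pos _).le, smul_eq_mul, Polar_pol,
      Function.comp]
  · rw [h2]
    rw [show (fun p => f (Polar_pol p)) = f ∘ Polar_pol from rfl, integral_prod_symm _ h1]
    conv_lhs => rw [Polar_nu_eq]
    rw [integral_withDensity_eq_integral_smul Polar_measurable_dens]
    refine integral_congr_ae (Eventually.of_forall fun t => ?_)
    simp only [NNReal.smul_def, Real.coe_toNNReal _ (Real.exp_pos _).le, smul_eq_mul, Polar_pol,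
      Function.comp]

/-! ### The form -/

theorem Polar_finite_σ : IsFiniteMeasure σ := by unfold σ; infer_instance

theorem Polar_norm_S4 (ω : S4) : ‖(ω : E5)‖ = 1 := by simp

theorem Polar_hasFDerivAt_resc {u : E5 → ℝ} (hu : ContDiff ℝ 1 u) (t : ℝ) (x : E5) :
    HasFDerivAt (resc u t) (Real.exp (5 * t / 2) • fderiv ℝ u (Real.exp t • x)) x := by
  have h1 : HasFDerivAt u (fderiv ℝ u (Real.exp t • x)) (Real.exp t • x) :=
    (hu.differentiable one_ne_zero _).hasFDerivAt
  have h2 : HasFDerivAt (fun y : E5 => Real.exp t • y)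
      (Real.exp t • ContinuousLinearMap.id ℝ E5) x :=
    (hasFDerivAt_id x).const_smul (Real.exp t)
  have h3 := (h1.comp x h2).const_mul (Real.exp (3 * t / 2))
  refine h3.congr_fderiv ?_
  ext y
  simp only [_root_.smul_apply, ContinuousLinearMap.comp_apply,
    ContinuousLinearMap.id_apply, smul_eq_mul, map_smul]
  rw [← mul_assoc, ← Real.exp_add]
  congr 2
  ring

theorem Polar_fderiv_resc {u : E5 → ℝ} (hu : ContDiff ℝ 1 u) (t : ℝ) (x : E5) :
    fderiv ℝ (resc u t) x = Real.exp (5 * t / 2) • fderiv ℝ u (Real.exp t • x) :=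
  (Polar_hasFDerivAt_resc hu t x).fderiv

/-- The function `3 v v_t`. -/
def Polar_gg (u : E5 → ℝ) (t : ℝ) (x : E5) : ℝ :=
  3 * (Real.exp (3 * t / 2) * u (Real.exp t • x)) *
    (3 / 2 * (Real.exp (3 * t / 2) * u (Real.exp t • x)) +
    Real.exp (5 * t / 2) * fderiv ℝ u (Real.exp t • x) x)

theorem Polar_hasDerivAt_resc {u : E5 → ℝ} (hu : ContDiff ℝ 1 u) (t : ℝ) (x : E5) :
    HasDerivAt (fun t => Real.exp (3 * t / 2) * u (Real.exp t • x))
      (3 / 2 * (Real.exp (3 * t / 2) * u (Real.exp t • x)) +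
        Real.exp (5 * t / 2) * fderiv ℝ u (Real.exp t • x) x) t := by
  have h1 : HasFDerivAt u (fderiv ℝ u (Real.exp t • x)) (Real.exp t • x) :=
    (hu.differentiable one_ne_zero _).hasFDerivAt
  have h2 : HasDerivAt (fun t : ℝ => Real.exp t • x) (Real.exp t • x) t :=
    (Real.hasDerivAt_exp t).smul_const x
  have h3 : HasDerivAt (fun t : ℝ => u (Real.exp t • x))
      (fderiv ℝ u (Real.exp t • x) (Real.exp t • x)) t := h1.comp_hasDerivAt t h2
  have h4 : HasDerivAt (fun t : ℝ => Real.exp (3 * t / 2)) (Real.exp (3 * t / 2) * (3 * 1 / 2)) t :=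
    (((hasDerivAt_id t).const_mul 3).div_const 2).exp
  refine (h4.mul h3).congr_deriv ?_
  rw [map_smul, smul_eq_mul, show (5 * t / 2 : ℝ) = 3 * t / 2 + t by ring, Real.exp_add]
  ring

theorem Polar_dens_eq {u : E5 → ℝ} (hu : ContDiff ℝ 1 u) (w : ℝ → ℝ) (t : ℝ) :
    dens (logPot w) u t = (∫ ω : S4, Polar_gg u t ω ∂σ) + Real.exp (5 * t) *
      ∫ ω : S4, (‖fderiv ℝ u (Real.exp t • (ω : E5))‖ ^ 2
        - w ‖Real.exp t • (ω : E5)‖ * u (Real.exp t • (ω : E5)) ^ 2) ∂σ := by
  have := Polar_finite_σ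
  have hfd : Continuous (fderiv ℝ u) := hu.continuous_fderiv one_ne_zero
  have hc : Continuous fun ω : S4 => Real.exp t • (ω : E5) := by fun_prop
  have i1 : Integrable (fun ω : S4 => Polar_gg u t ω) σ := by
    apply Continuous.integrable_of_hasCompactSupport
    · unfold Polar_gg
      have := hu.continuous
      have h5 : Continuous fun ω : S4 => fderiv ℝ u (Real.exp t • (ω : E5)) (ω : E5) :=
        (hfd.comp hc).clm_apply continuous_subtype_val
      fun_prop
    · exact HasCompactSupport.of_compactSpace _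
  have i2 : Integrable (fun ω : S4 => Real.exp (5 * t) *
      (‖fderiv ℝ u (Real.exp t • (ω : E5))‖ ^ 2
        - w ‖Real.exp t • (ω : E5)‖ * u (Real.exp t • (ω : E5)) ^ 2)) σ := by
    apply Continuous.integrable_of_hasCompactSupport
    · have e : ∀ ω : S4, ‖Real.exp t • (ω : E5)‖ = Real.exp t := by
        intro ω
        rw [norm_smul, Polar_norm_S4, mul_one, Real.norm_of_nonneg (Real.exp_pos t).le]
      simp only [e]
      have := hu.continuous
      fun_prop
    · exact HasCompactSupport.of_compactSpace _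
  rw [← integral_const_mul, ← integral_add i1 i2]
  refine integral_congr_ae (Eventually.of_forall fun ω => ?_)
  simp only
  rw [tan2, Vt, Polar_fderiv_resc hu, norm_smul, norm_smul, Polar_norm_S4]
  simp only [_root_.smul_apply, smul_eq_mul, resc, Polar_gg, logPot,
    Real.norm_of_nonneg (Real.exp_pos _).le, mul_one]
  have e0 : Real.exp (3 * t / 2) = Real.exp (t / 2) ^ 3 := by
    rw [← Real.exp_nat_mul]; congr 1; push_cast; ring
  have e1 : Real.exp (5 * t) = Real.exp (t / 2) ^ 10 := by
    rw [← Real.exp_nat_mul]; congr 1; push_cast; ring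
  have e2 : Real.exp (5 * t / 2) = Real.exp (t / 2) ^ 5 := by
    rw [← Real.exp_nat_mul]; congr 1; push_cast; ring
  have e3 : Real.exp (2 * t) = Real.exp (t / 2) ^ 4 := by
    rw [← Real.exp_nat_mul]; congr 1; push_cast; ring
  rw [e0, e1, e2, e3]
  ring

/-- Bounds for a compactly supported function. -/
theorem Polar_exists_bounds {u : E5 → ℝ} (hu : ContDiff ℝ 1 u) (hc : HasCompactSupport u) :
    ∃ M T : ℝ, 0 ≤ M ∧ (∀ x, |u x| ≤ M) ∧ (∀ x, ‖fderiv ℝ u x‖ ≤ M) ∧
      ∀ t, T ≤ t → ∀ ω : S4, u (Real.exp t • (ω : E5)) = 0 := by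
  obtain ⟨M1, hM1⟩ := hc.exists_bound_of_continuous hu.continuous
  obtain ⟨M2, hM2⟩ := (hc.fderiv (𝕜 := ℝ)).exists_bound_of_continuous
    (hu.continuous_fderiv one_ne_zero)
  obtain ⟨R, hR⟩ := hc.isCompact.isBounded.exists_norm_le
  refine ⟨max 0 (max M1 M2), Real.log (max 1 (R + 1)), le_max_left _ _, fun x => ?_, fun x => ?_,
    fun t ht ω => ?_⟩
  · exact (hM1 x).trans ((le_max_left _ _).trans (le_max_right _ _))
  · exact (hM2 x).trans ((le_max_right _ _).trans (le_max_right _ _))
  · apply image_eq_zero_of_notMem_tsupport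
    intro hmem
    have h1 := hR _ hmem
    rw [norm_smul, Polar_norm_S4, mul_one, Real.norm_of_nonneg (Real.exp_pos t).le] at h1
    have h2 : max 1 (R + 1) ≤ Real.exp t := by
      have h3 : (0 : ℝ) < max 1 (R + 1) := lt_of_lt_of_le one_pos (le_max_left _ _)
      calc max 1 (R + 1) = Real.exp (Real.log (max 1 (R + 1))) := (Real.exp_log h3).symm
        _ ≤ Real.exp t := Real.exp_le_exp.mpr ht
    have := (le_max_right 1 (R + 1)).trans h2
    linarith

theorem Polar_gg_bound {u : E5 → ℝ} (hu : ContDiff ℝ 1 u) (hc : HasCompactSupport u) :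
    ∃ b : ℝ → ℝ, Integrable b ∧ ∀ t (ω : S4), |Polar_gg u t ω| ≤ b t := by
  obtain ⟨M, T, hM, h1, h2, h3⟩ := Polar_exists_bounds hu hc
  refine ⟨(Iic T).indicator fun t => 3 * M * (3 / 2 * M + Real.exp T * M) * Real.exp T ^ 2 *
    Real.exp t, ?_, ?_⟩
  · rw [integrable_indicator_iff measurableSet_Iic]
    exact (integrableOn_exp_Iic T).const_mul _
  · intro t ω
    by_cases ht : t ≤ T
    · rw [indicator_of_mem (show t ∈ Iic T from ht)]
      have hD : |fderiv ℝ u (Real.exp t • (ω : E5)) (ω : E5)| ≤ M := by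
        have := (fderiv ℝ u (Real.exp t • (ω : E5))).le_opNorm (ω : E5)
        rw [Polar_norm_S4, mul_one] at this
        exact this.trans (h2 _)
      have e1 : Real.exp (3 * t / 2) * Real.exp (3 * t / 2) = Real.exp t ^ 2 * Real.exp t := by
        rw [← Real.exp_add, ← Real.exp_nat_mul, ← Real.exp_add]; congr 1; push_cast; ring
      have e2 : Real.exp (5 * t / 2) = Real.exp (3 * t / 2) * Real.exp t := by
        rw [← Real.exp_add]; congr 1; ring
      have ha := Real.exp_pos (3 * t / 2)
      have hb : Real.exp t ≤ Real.exp T := Real.exp_le_exp.mpr ht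
      have hbp := Real.exp_pos t
      have hTp := Real.exp_pos T
      unfold Polar_gg
      rw [abs_mul, abs_mul, abs_of_pos (three_pos : (0 : ℝ) < 3), e2]
      have f1 : |Real.exp (3 * t / 2) * u (Real.exp t • (ω : E5))| ≤ Real.exp (3 * t / 2) * M := by
        rw [abs_mul, abs_of_pos ha]
        exact mul_le_mul_of_nonneg_left (h1 _) ha.le
      have f2 : |3 / 2 * (Real.exp (3 * t / 2) * u (Real.exp t • (ω : E5))) +
          Real.exp (3 * t / 2) * Real.exp t * fderiv ℝ u (Real.exp t • (ω : E5)) (ω : E5)| ≤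
          Real.exp (3 * t / 2) * (3 / 2 * M + Real.exp T * M) := by
        refine (abs_add_le _ _).trans ?_
        rw [abs_mul (3 / 2 : ℝ), abs_mul (Real.exp (3 * t / 2) * Real.exp t),
          abs_of_pos (mul_pos ha hbp), abs_of_pos (by norm_num : (0 : ℝ) < 3 / 2)]
        have g1 : 3 / 2 * |Real.exp (3 * t / 2) * u (Real.exp t • (ω : E5))| ≤
            3 / 2 * (Real.exp (3 * t / 2) * M) := by linarith
        have g2 : Real.exp (3 * t / 2) * Real.exp t *
            |fderiv ℝ u (Real.exp t • (ω : E5)) (ω : E5)| ≤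
            Real.exp (3 * t / 2) * Real.exp T * M := by
          gcongr
        calc _ ≤ 3 / 2 * (Real.exp (3 * t / 2) * M) + Real.exp (3 * t / 2) * Real.exp T * M :=
              add_le_add g1 g2
          _ = _ := by ring
      have f3 : Real.exp t ^ 2 ≤ Real.exp T ^ 2 := pow_le_pow_left₀ hbp.le hb 2
      calc _ ≤ 3 * (Real.exp (3 * t / 2) * M) *
              (Real.exp (3 * t / 2) * (3 / 2 * M + Real.exp T * M)) := by
            refine mul_le_mul ?_ f2 (abs_nonneg _) (by positivity)
            linarith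
        _ = 3 * M * (3 / 2 * M + Real.exp T * M) *
              (Real.exp (3 * t / 2) * Real.exp (3 * t / 2)) := by ring
        _ = 3 * M * (3 / 2 * M + Real.exp T * M) * Real.exp t ^ 2 * Real.exp t := by
            rw [e1]; ring
        _ ≤ _ := by gcongr
    · rw [indicator_of_notMem (show t ∉ Iic T from ht)]
      unfold Polar_gg
      rw [h3 t (le_of_lt (not_le.mp ht)) ω]
      simp

theorem Polar_continuous_gg {u : E5 → ℝ} (hu : ContDiff ℝ 1 u) :
    Continuous fun p : ℝ × S4 => Polar_gg u p.1 p.2 := by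
  have hfd : Continuous (fderiv ℝ u) := hu.continuous_fderiv one_ne_zero
  have hc : Continuous fun p : ℝ × S4 => Real.exp p.1 • (p.2 : E5) := by fun_prop
  have h5 : Continuous fun p : ℝ × S4 => fderiv ℝ u (Real.exp p.1 • (p.2 : E5)) (p.2 : E5) :=
    (hfd.comp hc).clm_apply (continuous_subtype_val.comp continuous_snd)
  have := hu.continuous
  unfold Polar_gg
  fun_prop

theorem Polar_gg_integrable {u : E5 → ℝ} (hu : ContDiff ℝ 1 u) (hc : HasCompactSupport u) :
    Integrable (fun p : ℝ × S4 => Polar_gg u p.1 p.2) (volume.prod σ) := by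
  have := Polar_finite_σ
  obtain ⟨b, hb, hle⟩ := Polar_gg_bound hu hc
  refine (hb.comp_fst σ).mono' (Polar_continuous_gg hu).aestronglyMeasurable ?_
  exact Eventually.of_forall fun p => hle p.1 p.2

theorem Polar_gg_integral_zero {u : E5 → ℝ} (hu : ContDiff ℝ 1 u) (hc : HasCompactSupport u)
    (ω : S4) : ∫ t, Polar_gg u t ω = 0 := by
  obtain ⟨b, hb, hle⟩ := Polar_gg_bound hu hc
  obtain ⟨M, T, hM, h1, h2, h3⟩ := Polar_exists_bounds hu hc
  have hi : Integrable fun t => Polar_gg u t ω := by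
    refine hb.mono' ?_ (Eventually.of_forall fun t => hle t ω)
    exact ((Polar_continuous_gg hu).comp (by fun_prop : Continuous fun t : ℝ => (t, ω))).aestronglyMeasurable
  have hd : ∀ t, HasDerivAt
      (fun t => 3 / 2 * (Real.exp (3 * t / 2) * u (Real.exp t • (ω : E5))) ^ 2)
      (Polar_gg u t ω) t := by
    intro t
    refine (((Polar_hasDerivAt_resc hu t (ω : E5)).pow 2).const_mul (3 / 2)).congr_deriv ?_
    unfold Polar_gg
    simp
    ring
  have hbot : Tendsto (fun t => 3 / 2 * (Real.exp (3 * t / 2) * u (Real.exp t • (ω : E5))) ^ 2)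
      atBot (𝓝 0) := by
    refine squeeze_zero (fun t => by positivity) (g := fun t => Real.exp (3 * t) * (3 / 2 * M ^ 2))
      ?_ ?_
    · intro t
      have e1 : Real.exp (3 * t) = Real.exp (3 * t / 2) ^ 2 := by
        rw [← Real.exp_nat_mul]; congr 1; push_cast; ring
      have : u (Real.exp t • (ω : E5)) ^ 2 ≤ M ^ 2 := by
        rw [← sq_abs]
        exact pow_le_pow_left₀ (abs_nonneg _) (h1 _) 2
      rw [mul_pow, ← e1]
      have := mul_le_mul_of_nonneg_left this (Real.exp_pos (3 * t)).le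
      linarith
    · have h5 : Tendsto (fun t : ℝ => 3 * t) atBot atBot :=
        tendsto_id.const_mul_atBot (by norm_num)
      have := (Real.tendsto_exp_atBot.comp h5).mul_const (3 / 2 * M ^ 2)
      rwa [zero_mul] at this
  have htop : Tendsto (fun t => 3 / 2 * (Real.exp (3 * t / 2) * u (Real.exp t • (ω : E5))) ^ 2)
      atTop (𝓝 0) := by
    refine tendsto_const_nhds.congr' ?_
    filter_upwards [eventually_ge_atTop T] with t ht
    rw [h3 t ht ω]
    simp
  rw [integral_of_hasDerivAt_of_tendsto hd hi hbot htop, sub_zero]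

theorem Polar_gg_total {u : E5 → ℝ} (hu : ContDiff ℝ 1 u) (hc : HasCompactSupport u) :
    Integrable (fun t => ∫ ω : S4, Polar_gg u t ω ∂σ) ∧ ∫ t, ∫ ω : S4, Polar_gg u t ω ∂σ = 0 := by
  have := Polar_finite_σ
  have h := Polar_gg_integrable hu hc
  refine ⟨h.integral_prod_left, ?_⟩
  rw [integral_integral_swap (f := fun (t : ℝ) (ω : S4) => Polar_gg u t ω) h]
  simp only [Polar_gg_integral_zero hu hc, integral_zero]

/-- polar coordinates for the form -/
theorem form_polar (w : ℝ → ℝ) (hw : Measurable w) (hw0 : ∀ r, 0 ≤ w r)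
    (hint : Integrable (fun x : E5 => w ‖x‖ ^ ((5 : ℝ) / 2))) (u : E5 → ℝ)
    (hu : ContDiff ℝ ((⊤ : ℕ∞) : WithTop ℕ∞) u) (hc : HasCompactSupport u) :
    (∫ x, ‖fderiv ℝ u x‖ ^ 2) - ∫ x, w ‖x‖ * u x ^ 2 = QQ (logPot w) u := by
  have hu1 : ContDiff ℝ 1 u := hu.of_le (by exact_mod_cast le_top)
  obtain ⟨M, T, hM, h1, h2, h3⟩ := Polar_exists_bounds hu1 hc
  have i1 : Integrable fun x : E5 => ‖fderiv ℝ u x‖ ^ 2 := by
    apply Continuous.integrable_of_hasCompactSupport
    · have := hu1.continuous_fderiv one_ne_zero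
      fun_prop
    · have := (hc.fderiv (𝕜 := ℝ)).norm
      exact this.comp_left (g := fun y : ℝ => y ^ 2) (by simp)
  have i0 : Integrable fun x : E5 => u x ^ 2 := by
    apply Continuous.integrable_of_hasCompactSupport
    · have := hu1.continuous
      fun_prop
    · exact hc.comp_left (g := fun y : ℝ => y ^ 2) (by simp)
  have i2 : Integrable fun x : E5 => w ‖x‖ * u x ^ 2 := by
    refine (i0.add (hint.const_mul (M ^ 2))).mono' ?_ (Eventually.of_forall fun x => ?_)
    · exact ((hw.comp measurable_norm).aestronglyMeasurable).mul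
        (hu1.continuous.pow 2).aestronglyMeasurable
    · have hM2 : u x ^ 2 ≤ M ^ 2 := by
        rw [← sq_abs]
        exact pow_le_pow_left₀ (abs_nonneg _) (h1 _) 2
      have hw1 : w ‖x‖ ≤ 1 + w ‖x‖ ^ ((5 : ℝ) / 2) := by
        rcases le_or_gt (w ‖x‖) 1 with h | h
        · have := Real.rpow_nonneg (hw0 ‖x‖) ((5 : ℝ) / 2)
          linarith
        · have := Real.rpow_le_rpow_of_exponent_le h.le (show (1 : ℝ) ≤ 5 / 2 by norm_num)
          rw [Real.rpow_one] at this
          linarith
      rw [Real.norm_of_nonneg (mul_nonneg (hw0 _) (sq_nonneg _))]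
      have hr := Real.rpow_nonneg (hw0 ‖x‖) ((5 : ℝ) / 2)
      calc w ‖x‖ * u x ^ 2 ≤ (1 + w ‖x‖ ^ ((5 : ℝ) / 2)) * u x ^ 2 :=
            mul_le_mul_of_nonneg_right hw1 (sq_nonneg _)
        _ = u x ^ 2 + w ‖x‖ ^ ((5 : ℝ) / 2) * u x ^ 2 := by ring
        _ ≤ u x ^ 2 + w ‖x‖ ^ ((5 : ℝ) / 2) * M ^ 2 := by gcongr
        _ = _ := by simp only [Pi.add_apply]; ring
  obtain ⟨j1, j2⟩ := Polar_polar (fun x => ‖fderiv ℝ u x‖ ^ 2 - w ‖x‖ * u x ^ 2) (i1.sub i2)
  obtain ⟨k1, k2⟩ := Polar_gg_total hu1 hc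
  rw [← integral_sub i1 i2, j2, QQ]
  simp only [Polar_dens_eq hu1]
  rw [integral_add k1 j1, k2, zero_add]

/-- polar coordinates for the potential -/
theorem pot_polar (w : ℝ → ℝ) (hw : Measurable w) (hw0 : ∀ r, 0 ≤ w r)
    (hint : Integrable (fun x : E5 => w ‖x‖ ^ ((5 : ℝ) / 2))) :
    Measurable (logPot w) ∧ (∀ t, 0 ≤ logPot w t) ∧
      Integrable (fun t => logPot w t ^ ((5 : ℝ) / 2)) ∧
      ∫ x : E5, w ‖x‖ ^ ((5 : ℝ) / 2) =
        8 * Real.pi ^ 2 / 3 * ∫ t, logPot w t ^ ((5 : ℝ) / 2) := by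
  have key : ∀ t, logPot w t ^ ((5 : ℝ) / 2) =
      |Real.exp t| • (Real.exp t ^ 4 • w (Real.exp t) ^ ((5 : ℝ) / 2)) := by
    intro t
    rw [logPot, Real.mul_rpow (Real.exp_pos _).le (hw0 _), ← Real.exp_mul, abs_of_pos
      (Real.exp_pos t), smul_eq_mul, smul_eq_mul, ← mul_assoc, ← Real.exp_nat_mul, ← Real.exp_add]
    congr 2
    push_cast
    ring
  have himg : Real.exp '' univ = Ioi 0 := by rw [image_univ, Real.range_exp]
  refine ⟨?_, fun t => mul_nonneg (Real.exp_pos _).le (hw0 _), ?_, ?_⟩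
  · unfold logPot
    exact (by fun_prop : Measurable fun t : ℝ => Real.exp (2 * t)).mul
      (hw.comp Real.measurable_exp)
  · have h1 := (integrable_fun_norm_addHaar (volume : Measure E5)
      (f := fun r => w r ^ ((5 : ℝ) / 2))).mp hint
    rw [Polar_finrank, ← himg, integrableOn_image_iff_integrableOn_abs_deriv_smul MeasurableSet.univ
      (fun x _ => (Real.hasDerivAt_exp x).hasDerivWithinAt) (Real.exp_injective.injOn),
      integrableOn_univ] at h1
    refine h1.congr (Eventually.of_forall fun t => ?_)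
    simp only [key]
  · rw [integral_fun_norm_addHaar (volume : Measure E5) (fun r => w r ^ ((5 : ℝ) / 2)),
      Polar_finrank, ← himg, integral_image_eq_integral_abs_deriv_smul MeasurableSet.univ
      (fun x _ => (Real.hasDerivAt_exp x).hasDerivWithinAt) (Real.exp_injective.injOn),
      Measure.restrict_univ]
    simp only [key]
    rw [Measure.real, InnerProductSpace.volume_ball_of_dim_odd (k := 2) (by simp), Polar_finrank]
    simp only [ENNReal.ofReal_one, one_pow, one_mul, smul_eq_mul, nsmul_eq_mul]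
    rw [ENNReal.toReal_ofReal (by positivity)]
    have e : ((Nat.doubleFactorial 5 : ℕ) : ℝ) = 15 := by
      norm_num [Nat.doubleFactorial]
    rw [e]
    push_cast
    ring

end

end Pool.Agent.CLR5
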