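import Pool.Agent.Lib.MP_efa090_mp.Polar

/-! Row Sharp: the lower bound (port of Pool/Agent/CLR3/Sharp.lean): `w = 15 (1 + e) / (1 + r^2)^2`,
`u = δ F((1 + |x|^2)^(-3/2) / δ)`; `∫ |∇U|^2 = ∫ 15 (1+|x|^2)^(-2) U^2`, `U = (1+|x|^2)^(-3/2)`,
`∫_{R^5} (1 + |x|^2)^(-5) = π^3 / 32`. -/

open MeasureTheory Set Metric Filter Topology

namespace Pool.Agent.CLR5

noncomputable section

/-! ### Two integrals on the half line -/

theorem Sharp_deriv_g1 (y : ℝ) :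
    HasDerivAt (fun y : ℝ => (3 * Real.arctan y +
      y * (3 * y ^ 6 + 11 * y ^ 4 - 11 * y ^ 2 - 3) / (1 + y ^ 2) ^ 4) / 128)
      (y ^ 4 * ((1 + y ^ 2) ^ 5)⁻¹) y := by
  have h0 : (1 + y ^ 2 : ℝ) ≠ 0 := by positivity
  have h1 : HasDerivAt (fun y : ℝ => y * (3 * y ^ 6 + 11 * y ^ 4 - 11 * y ^ 2 - 3))
      (1 * (3 * y ^ 6 + 11 * y ^ 4 - 11 * y ^ 2 - 3) +
        y * (3 * (6 * y ^ 5) + 11 * (4 * y ^ 3) - 11 * (2 * y))) y := by
    have := (hasDerivAt_id' y).fun_mul (((((hasDerivAt_pow 6 y).const_mul 3).fun_add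
      ((hasDerivAt_pow 4 y).const_mul 11)).fun_sub ((hasDerivAt_pow 2 y).const_mul 11)).sub_const 3)
    simpa using this
  have h2 : HasDerivAt (fun y : ℝ => (1 + y ^ 2) ^ 4) (4 * (1 + y ^ 2) ^ 3 * (2 * y)) y := by
    have := ((hasDerivAt_pow 2 y).const_add 1).fun_pow 4
    simpa using this
  have h3 := (((Real.hasDerivAt_arctan y).const_mul 3).add
    (h1.div h2 (by positivity))).div_const 128
  refine h3.congr_deriv ?_
  field_simp
  ring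

theorem Sharp_deriv_g2 (y : ℝ) :
    HasDerivAt (fun y : ℝ => (15 * Real.arctan y +
      y * (15 * y ^ 6 - 73 * y ^ 4 - 55 * y ^ 2 - 15) / (1 + y ^ 2) ^ 4) / 384)
      (y ^ 6 * ((1 + y ^ 2) ^ 5)⁻¹) y := by
  have h0 : (1 + y ^ 2 : ℝ) ≠ 0 := by positivity
  have h1 : HasDerivAt (fun y : ℝ => y * (15 * y ^ 6 - 73 * y ^ 4 - 55 * y ^ 2 - 15))
      (1 * (15 * y ^ 6 - 73 * y ^ 4 - 55 * y ^ 2 - 15) +
        y * (15 * (6 * y ^ 5) - 73 * (4 * y ^ 3) - 55 * (2 * y))) y := by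
    have := (hasDerivAt_id' y).fun_mul (((((hasDerivAt_pow 6 y).const_mul 15).fun_sub
      ((hasDerivAt_pow 4 y).const_mul 73)).fun_sub ((hasDerivAt_pow 2 y).const_mul 55)).sub_const 15)
    simpa using this
  have h2 : HasDerivAt (fun y : ℝ => (1 + y ^ 2) ^ 4) (4 * (1 + y ^ 2) ^ 3 * (2 * y)) y := by
    have := ((hasDerivAt_pow 2 y).const_add 1).fun_pow 4
    simpa using this
  have h3 := (((Real.hasDerivAt_arctan y).const_mul 15).add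
    (h1.div h2 (by positivity))).div_const 384
  refine h3.congr_deriv ?_
  field_simp
  ring

theorem Sharp_arctan : Tendsto Real.arctan atTop (𝓝 (Real.pi / 2)) :=
  (Real.tendsto_arctan_atTop).mono_right nhdsWithin_le_nhds

/-- A quotient of size `1 / y`. -/
theorem Sharp_quot (p : ℝ → ℝ) (hp : ∀ y, |p y| ≤ 100 * (1 + y ^ 2) ^ 3) :
    Tendsto (fun y : ℝ => y * p y / (1 + y ^ 2) ^ 4) atTop (𝓝 0) := by
  have h5 : Tendsto (fun y : ℝ => 100 * y⁻¹) atTop (𝓝 0) := by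
    simpa using tendsto_inv_atTop_zero.const_mul (100 : ℝ)
  refine squeeze_zero_norm' ?_ h5
  filter_upwards [eventually_gt_atTop (0 : ℝ)] with y hy
  rw [Real.norm_eq_abs, abs_div, abs_mul, abs_of_pos hy, abs_of_pos (by positivity :
    0 < (1 + y ^ 2) ^ 4), div_le_iff₀ (by positivity)]
  have h1 : y * |p y| ≤ y * (100 * (1 + y ^ 2) ^ 3) := mul_le_mul_of_nonneg_left (hp y) hy.le
  refine h1.trans ?_
  have h3 : 100 * y⁻¹ * (1 + y ^ 2) ^ 4 = (100 * (1 + y ^ 2) ^ 3) * (y⁻¹ * (1 + y ^ 2)) := by ring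
  rw [h3, mul_comm y]
  refine mul_le_mul_of_nonneg_left ?_ (by positivity)
  have h4 : y⁻¹ * (1 + y ^ 2) = y⁻¹ + y := by
    field_simp
  rw [h4]
  have : 0 < y⁻¹ := by positivity
  linarith

theorem Sharp_tendsto_g1 : Tendsto (fun y : ℝ => (3 * Real.arctan y +
      y * (3 * y ^ 6 + 11 * y ^ 4 - 11 * y ^ 2 - 3) / (1 + y ^ 2) ^ 4) / 128)
    atTop (𝓝 (3 * Real.pi / 256)) := by
  have h1 := Sharp_quot (fun y => 3 * y ^ 6 + 11 * y ^ 4 - 11 * y ^ 2 - 3) (fun y => by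
    rw [abs_le]
    constructor <;> nlinarith [sq_nonneg y, pow_nonneg (sq_nonneg y) 2,
      pow_nonneg (sq_nonneg y) 3])
  have h2 := ((Sharp_arctan.const_mul 3).add h1).div_const 128
  have h3 : (3 * (Real.pi / 2) + 0) / 128 = 3 * Real.pi / 256 := by ring
  rwa [h3] at h2

theorem Sharp_tendsto_g2 : Tendsto (fun y : ℝ => (15 * Real.arctan y +
      y * (15 * y ^ 6 - 73 * y ^ 4 - 55 * y ^ 2 - 15) / (1 + y ^ 2) ^ 4) / 384)
    atTop (𝓝 (5 * Real.pi / 256)) := by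
  have h1 := Sharp_quot (fun y => 15 * y ^ 6 - 73 * y ^ 4 - 55 * y ^ 2 - 15) (fun y => by
    rw [abs_le]
    constructor <;> nlinarith [sq_nonneg y, pow_nonneg (sq_nonneg y) 2,
      pow_nonneg (sq_nonneg y) 3])
  have h2 := ((Sharp_arctan.const_mul 15).add h1).div_const 384
  have h3 : (15 * (Real.pi / 2) + 0) / 384 = 5 * Real.pi / 256 := by ring
  rwa [h3] at h2

theorem Sharp_int_g1 : IntegrableOn (fun y : ℝ => y ^ 4 * ((1 + y ^ 2) ^ 5)⁻¹) (Ioi 0) ∧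
    ∫ y in Ioi (0 : ℝ), y ^ 4 * ((1 + y ^ 2) ^ 5)⁻¹ = 3 * Real.pi / 256 := by
  constructor
  · exact integrableOn_Ioi_deriv_of_nonneg' (fun x _ => Sharp_deriv_g1 x)
      (fun x _ => by positivity) Sharp_tendsto_g1
  · rw [integral_Ioi_of_hasDerivAt_of_nonneg' (fun x _ => Sharp_deriv_g1 x)
      (fun x _ => by positivity) Sharp_tendsto_g1]
    simp

theorem Sharp_int_g2 : IntegrableOn (fun y : ℝ => y ^ 6 * ((1 + y ^ 2) ^ 5)⁻¹) (Ioi 0) ∧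
    ∫ y in Ioi (0 : ℝ), y ^ 6 * ((1 + y ^ 2) ^ 5)⁻¹ = 5 * Real.pi / 256 := by
  constructor
  · exact integrableOn_Ioi_deriv_of_nonneg' (fun x _ => Sharp_deriv_g2 x)
      (fun x _ => by positivity) Sharp_tendsto_g2
  · rw [integral_Ioi_of_hasDerivAt_of_nonneg' (fun x _ => Sharp_deriv_g2 x)
      (fun x _ => by positivity) Sharp_tendsto_g2]
    simp

/-! ### Integrals over the space -/

theorem Sharp_finrank : Module.finrank ℝ E5 = 5 := by simp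

theorem Sharp_ball : (volume : Measure E5).real (ball 0 1) = 8 * Real.pi ^ 2 / 15 := by
  rw [Measure.real, EuclideanSpace.volume_ball]
  simp only [ENNReal.ofReal_one, one_pow, one_mul, Fintype.card_fin]
  have hG : Real.Gamma (((5 : ℕ) : ℝ) / 2 + 1) = 15 / 8 * Real.sqrt Real.pi := by
    have e1 : ((5 : ℕ) : ℝ) / 2 + 1 = (3 / 2 + 1) + 1 := by norm_num
    rw [e1, Real.Gamma_add_one (by norm_num), Real.Gamma_add_one (by norm_num),
      show (3 / 2 : ℝ) = 1 / 2 + 1 by norm_num, Real.Gamma_add_one (by norm_num),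
      Real.Gamma_one_half_eq]
    ring
  rw [hG]
  have hs : 0 < Real.sqrt Real.pi := Real.sqrt_pos.2 Real.pi_pos
  rw [ENNReal.toReal_ofReal (by positivity)]
  have h2 : Real.sqrt Real.pi ^ 2 = Real.pi := Real.sq_sqrt Real.pi_pos.le
  have h4 : Real.sqrt Real.pi ^ 5 = Real.pi ^ 2 * Real.sqrt Real.pi := by
    have : Real.sqrt Real.pi ^ 5 = (Real.sqrt Real.pi ^ 2) ^ 2 * Real.sqrt Real.pi := by ring
    rw [this, h2]
  rw [h4]
  field_simp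

/-- `∫ (1 + |x|^2)^(-5) = π^3 / 32`. -/
theorem Sharp_bSh : Integrable (fun x : E5 => ((1 + ‖x‖ ^ 2) ^ 5)⁻¹) ∧
    ∫ x : E5, ((1 + ‖x‖ ^ 2) ^ 5)⁻¹ = Real.pi ^ 3 / 32 := by
  constructor
  · rw [integrable_fun_norm_addHaar (volume : Measure E5) (f := fun y : ℝ => ((1 + y ^ 2) ^ 5)⁻¹),
      Sharp_finrank]
    exact Sharp_int_g1.1
  · rw [integral_fun_norm_addHaar (volume : Measure E5) (fun y : ℝ => ((1 + y ^ 2) ^ 5)⁻¹),
      Sharp_finrank, Sharp_ball]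
    have h : ∫ y in Ioi (0 : ℝ), y ^ (5 - 1) • ((1 + y ^ 2) ^ 5)⁻¹ = 3 * Real.pi / 256 :=
      Sharp_int_g1.2
    rw [h]
    simp only [nsmul_eq_mul, smul_eq_mul]
    push_cast
    ring

/-- `∫ |x|^2 (1 + |x|^2)^(-5) = 5 π^3 / 96`. -/
theorem Sharp_intc : Integrable (fun x : E5 => ‖x‖ ^ 2 * ((1 + ‖x‖ ^ 2) ^ 5)⁻¹) ∧
    ∫ x : E5, ‖x‖ ^ 2 * ((1 + ‖x‖ ^ 2) ^ 5)⁻¹ = 5 * Real.pi ^ 3 / 96 := by
  have e : ∀ y : ℝ, y ^ (5 - 1) • (y ^ 2 * ((1 + y ^ 2) ^ 5)⁻¹) = y ^ 6 * ((1 + y ^ 2) ^ 5)⁻¹ := by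
    intro y
    simp only [smul_eq_mul]
    ring
  constructor
  · rw [integrable_fun_norm_addHaar (volume : Measure E5)
      (f := fun y : ℝ => y ^ 2 * ((1 + y ^ 2) ^ 5)⁻¹), Sharp_finrank]
    simp only [e]
    exact Sharp_int_g2.1
  · rw [integral_fun_norm_addHaar (volume : Measure E5)
      (fun y : ℝ => y ^ 2 * ((1 + y ^ 2) ^ 5)⁻¹), Sharp_finrank, Sharp_ball]
    simp only [e]
    rw [Sharp_int_g2.2]
    simp only [nsmul_eq_mul, smul_eq_mul]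
    push_cast
    ring

/-! ### The truncation -/

/-- The smooth truncation function, with derivative between `0` and `1`. -/
def Sharp_trF (t : ℝ) : ℝ := ∫ s in (0 : ℝ)..t, Real.smoothTransition (s - 1)

theorem Sharp_cont_trS : Continuous fun s : ℝ => Real.smoothTransition (s - 1) :=
  Real.smoothTransition.continuous.comp (continuous_id.sub continuous_const)

theorem Sharp_deriv_trF' (t : ℝ) : HasDerivAt Sharp_trF (Real.smoothTransition (t - 1)) t :=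
  intervalIntegral.integral_hasDerivAt_right (Sharp_cont_trS.intervalIntegrable _ _)
    (Sharp_cont_trS.stronglyMeasurableAtFilter _ _) Sharp_cont_trS.continuousAt

theorem Sharp_deriv_trF : deriv Sharp_trF = fun t : ℝ => Real.smoothTransition (t - 1) :=
  funext fun t => (Sharp_deriv_trF' t).deriv

theorem Sharp_contDiff_trF : ContDiff ℝ ((⊤ : ℕ∞) : WithTop ℕ∞) Sharp_trF := by
  rw [contDiff_infty_iff_deriv]
  refine ⟨fun t => (Sharp_deriv_trF' t).differentiableAt, ?_⟩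
  rw [Sharp_deriv_trF]
  exact Real.smoothTransition.contDiff.comp (contDiff_id.sub contDiff_const)

theorem Sharp_trF_zero {t : ℝ} (ht : t ≤ 1) : Sharp_trF t = 0 := by
  rw [Sharp_trF]
  refine intervalIntegral.integral_zero_ae (Eventually.of_forall fun s hs => ?_)
  refine Real.smoothTransition.zero_of_nonpos ?_
  rcases mem_uIoc.1 hs with h | h
  · linarith [h.2]
  · linarith [h.2]

theorem Sharp_trF_mono : Monotone Sharp_trF := by
  refine monotone_of_deriv_nonneg (fun t => (Sharp_deriv_trF' t).differentiableAt) fun t => ?_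
  rw [Sharp_deriv_trF]
  exact Real.smoothTransition.nonneg _

theorem Sharp_trF_nonneg (t : ℝ) : 0 ≤ Sharp_trF t := by
  by_cases ht : t ≤ 1
  · rw [Sharp_trF_zero ht]
  · rw [← Sharp_trF_zero (le_refl (1 : ℝ))]
    exact Sharp_trF_mono (le_of_not_ge ht)

theorem Sharp_trF_ge (t : ℝ) : t - 2 ≤ Sharp_trF t := by
  by_cases ht : t ≤ 2
  · exact le_trans (by linarith) (Sharp_trF_nonneg t)
  · rw [not_le] at ht
    have h1 : Sharp_trF t = Sharp_trF 2 + ∫ s in (2 : ℝ)..t, Real.smoothTransition (s - 1) := by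
      rw [Sharp_trF, Sharp_trF, intervalIntegral.integral_add_adjacent_intervals
        (Sharp_cont_trS.intervalIntegrable _ _) (Sharp_cont_trS.intervalIntegrable _ _)]
    have h2 : ∫ s in (2 : ℝ)..t, Real.smoothTransition (s - 1) = ∫ s in (2 : ℝ)..t, (1 : ℝ) := by
      refine intervalIntegral.integral_congr fun s hs => ?_
      rw [uIcc_of_le ht.le] at hs
      exact Real.smoothTransition.one_of_one_le (by linarith [hs.1])
    rw [h1, h2, intervalIntegral.integral_const, smul_eq_mul, mul_one]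
    linarith [Sharp_trF_nonneg 2]

/-! ### The profile -/

/-- The profile `(1 + |x|^2)^(-3/2)`. -/
def Sharp_prof (x : E5) : ℝ := (Real.sqrt (1 + ‖x‖ ^ 2) ^ 3)⁻¹

theorem Sharp_prof_pos (x : E5) : 0 < Sharp_prof x := by
  have : 0 < 1 + ‖x‖ ^ 2 := by positivity
  exact inv_pos.2 (pow_pos (Real.sqrt_pos.2 this) 3)

theorem Sharp_prof_sq (x : E5) : Sharp_prof x ^ 2 = ((1 + ‖x‖ ^ 2) ^ 3)⁻¹ := by
  rw [Sharp_prof, inv_pow, ← pow_mul, mul_comm 3 2, pow_mul, Real.sq_sqrt (by positivity)]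

theorem Sharp_contDiff_prof : ContDiff ℝ ((⊤ : ℕ∞) : WithTop ℕ∞) Sharp_prof := by
  have h1 : ContDiff ℝ ((⊤ : ℕ∞) : WithTop ℕ∞) fun x : E5 => 1 + ‖x‖ ^ 2 :=
    contDiff_const.add (contDiff_norm_sq ℝ)
  have h2 : ∀ x : E5, 1 + ‖x‖ ^ 2 ≠ 0 := fun x => by positivity
  exact ((h1.sqrt h2).pow 3).inv fun x => pow_ne_zero 3 (Real.sqrt_pos.2 (by positivity)).ne'

theorem Sharp_norm_fderiv_prof (x : E5) :
    ‖fderiv ℝ Sharp_prof x‖ ^ 2 = 9 * (‖x‖ ^ 2 * ((1 + ‖x‖ ^ 2) ^ 5)⁻¹) := by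
  have h0 : (1 + ‖x‖ ^ 2 : ℝ) ≠ 0 := by positivity
  have hs : Real.sqrt (1 + ‖x‖ ^ 2) ≠ 0 := (Real.sqrt_pos.2 (by positivity)).ne'
  have h1 : HasFDerivAt (fun x : E5 => 1 + ‖x‖ ^ 2) (2 • innerSL ℝ x) x :=
    (hasStrictFDerivAt_norm_sq x).hasFDerivAt.const_add 1
  have h2 : HasDerivAt (fun s : ℝ => (Real.sqrt s ^ 3)⁻¹)
      (-(3 * Real.sqrt (1 + ‖x‖ ^ 2) ^ 2 * (1 / (2 * Real.sqrt (1 + ‖x‖ ^ 2)))) /
        (Real.sqrt (1 + ‖x‖ ^ 2) ^ 3) ^ 2) (1 + ‖x‖ ^ 2) := by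
    have := ((Real.hasDerivAt_sqrt h0).fun_pow 3).fun_inv (pow_ne_zero 3 hs)
    simpa using this
  have h3 := h2.comp_hasFDerivAt x h1
  have h4 : fderiv ℝ Sharp_prof x = (-(3 * Real.sqrt (1 + ‖x‖ ^ 2) ^ 2 *
      (1 / (2 * Real.sqrt (1 + ‖x‖ ^ 2)))) /
        (Real.sqrt (1 + ‖x‖ ^ 2) ^ 3) ^ 2) • (2 • innerSL ℝ x) := h3.fderiv
  have h5 : ‖(2 • innerSL ℝ x : E5 →L[ℝ] ℝ)‖ = 2 * ‖x‖ := by
    rw [← Nat.cast_smul_eq_nsmul ℝ, norm_smul, innerSL_apply_norm]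
    norm_num
  have h6 : (-(3 * Real.sqrt (1 + ‖x‖ ^ 2) ^ 2 * (1 / (2 * Real.sqrt (1 + ‖x‖ ^ 2)))) /
        (Real.sqrt (1 + ‖x‖ ^ 2) ^ 3) ^ 2) ^ 2 = 9 / 4 * ((1 + ‖x‖ ^ 2) ^ 5)⁻¹ := by
    have h7 : Real.sqrt (1 + ‖x‖ ^ 2) ^ 2 = 1 + ‖x‖ ^ 2 := Real.sq_sqrt (by positivity)
    generalize Real.sqrt (1 + ‖x‖ ^ 2) = s at hs h7
    rw [← h7]
    field_simp
    ring
  rw [h4, norm_smul, h5, mul_pow, Real.norm_eq_abs, sq_abs, h6]
  ring

/-- The truncated profile. -/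
def Sharp_tprof (δ : ℝ) (x : E5) : ℝ := δ * Sharp_trF (Sharp_prof x / δ)

theorem Sharp_contDiff_tprof (δ : ℝ) : ContDiff ℝ ((⊤ : ℕ∞) : WithTop ℕ∞) (Sharp_tprof δ) :=
  contDiff_const.mul (Sharp_contDiff_trF.comp (Sharp_contDiff_prof.div_const δ))

theorem Sharp_hcs_tprof {δ : ℝ} (hδ : 0 < δ) : HasCompactSupport (Sharp_tprof δ) := by
  refine HasCompactSupport.intro (isCompact_closedBall (0 : E5) (1 / δ)) fun x hx => ?_
  rw [mem_closedBall_zero_iff, not_le] at hx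
  rw [Sharp_tprof, Sharp_trF_zero, mul_zero]
  rw [div_le_one hδ, Sharp_prof]
  have h1 : 1 / δ ≤ Real.sqrt (1 + ‖x‖ ^ 2) := by
    refine Real.le_sqrt_of_sq_le ?_
    have : 0 < 1 / δ := by positivity
    nlinarith
  have h2 : 1 ≤ Real.sqrt (1 + ‖x‖ ^ 2) := by
    rw [Real.one_le_sqrt]
    nlinarith [sq_nonneg ‖x‖]
  rw [inv_le_comm₀ (by positivity) hδ, inv_eq_one_div]
  refine h1.trans ?_
  nlinarith [mul_nonneg (sub_nonneg.2 h2) (sub_nonneg.2 h2), sq_nonneg (Real.sqrt (1 + ‖x‖ ^ 2))]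

theorem Sharp_norm_fderiv_tprof {δ : ℝ} (hδ : 0 < δ) (x : E5) :
    ‖fderiv ℝ (Sharp_tprof δ) x‖ ^ 2 ≤ 9 * (‖x‖ ^ 2 * ((1 + ‖x‖ ^ 2) ^ 5)⁻¹) := by
  have h1 : HasFDerivAt Sharp_prof (fderiv ℝ Sharp_prof x) x :=
    (Sharp_contDiff_prof.differentiable (by simp) x).hasFDerivAt
  have h2 : HasDerivAt (fun s : ℝ => δ * Sharp_trF (s / δ))
      (δ * (Real.smoothTransition (Sharp_prof x / δ - 1) * (1 / δ))) (Sharp_prof x) := by
    have := ((Sharp_deriv_trF' (Sharp_prof x / δ)).comp (Sharp_prof x)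
      ((hasDerivAt_id (Sharp_prof x)).div_const δ))
    exact this.const_mul δ
  have h3 : fderiv ℝ (Sharp_tprof δ) x =
      (δ * (Real.smoothTransition (Sharp_prof x / δ - 1) * (1 / δ))) • fderiv ℝ Sharp_prof x :=
    (h2.comp_hasFDerivAt x h1).fderiv
  have h4 : δ * (Real.smoothTransition (Sharp_prof x / δ - 1) * (1 / δ)) =
      Real.smoothTransition (Sharp_prof x / δ - 1) := by field_simp
  rw [h3, h4, norm_smul, mul_pow, ← Sharp_norm_fderiv_prof, Real.norm_eq_abs, sq_abs]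
  refine mul_le_of_le_one_left (by positivity) ?_
  exact pow_le_one₀ (Real.smoothTransition.nonneg _) (Real.smoothTransition.le_one _)

theorem Sharp_tprof_sq {δ : ℝ} (hδ : 0 < δ) (x : E5) :
    ((1 + ‖x‖ ^ 2) ^ 3)⁻¹ - 4 * δ * Sharp_prof x ≤ Sharp_tprof δ x ^ 2 := by
  rw [← Sharp_prof_sq]
  have h1 : Sharp_prof x - 2 * δ ≤ Sharp_tprof δ x := by
    have := mul_le_mul_of_nonneg_left (Sharp_trF_ge (Sharp_prof x / δ)) hδ.le
    have e : δ * (Sharp_prof x / δ - 2) = Sharp_prof x - 2 * δ := by field_simp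
    rw [e] at this
    exact this
  have h3 := Sharp_prof_pos x
  by_cases h : 2 * δ ≤ Sharp_prof x
  · have h4 : (Sharp_prof x - 2 * δ) ^ 2 ≤ Sharp_tprof δ x ^ 2 := pow_le_pow_left₀ (by linarith) h1 2
    nlinarith
  · rw [not_le] at h
    have : 0 ≤ Sharp_tprof δ x ^ 2 := sq_nonneg _
    nlinarith

theorem Sharp_inta : Integrable (fun x : E5 => ((1 + ‖x‖ ^ 2) ^ 2)⁻¹ * Sharp_prof x) := by
  have h := integrable_rpow_neg_one_add_norm_sq (E := E5) (μ := volume) (r := 7)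
    (by rw [Sharp_finrank]; norm_num)
  refine h.congr (Eventually.of_forall fun x => ?_)
  have h0 : (0 : ℝ) < 1 + ‖x‖ ^ 2 := by positivity
  change (1 + ‖x‖ ^ 2) ^ (-(7 : ℝ) / 2) = ((1 + ‖x‖ ^ 2) ^ 2)⁻¹ * (Real.sqrt (1 + ‖x‖ ^ 2) ^ 3)⁻¹
  generalize 1 + ‖x‖ ^ 2 = z at h0
  rw [Real.sqrt_eq_rpow, ← mul_inv, ← Real.rpow_natCast z 2,
    ← Real.rpow_natCast (z ^ (1 / 2 : ℝ)) 3, ← Real.rpow_mul h0.le, ← Real.rpow_add h0,
    show (-(7 : ℝ) / 2) = -(((2 : ℕ) : ℝ) + 1 / 2 * ((3 : ℕ) : ℝ)) by norm_num,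
    Real.rpow_neg h0.le]

/-! ### The constant -/

theorem Sharp_rpow : (15 : ℝ) ^ ((5 : ℝ) / 2) = 225 * Real.sqrt 15 := by
  rw [show ((5 : ℝ) / 2) = ((2 : ℕ) : ℝ) + 1 / 2 by norm_num, Real.rpow_add (by norm_num),
    Real.rpow_natCast, Real.sqrt_eq_rpow]
  norm_num

theorem Sharp_exists_eps (r : ℝ) (hr : r < 1 / (225 / 32 * Real.sqrt 15 * Real.pi ^ 3)) :
    ∃ ε : ℝ, 0 < ε ∧ r < 1 / ((15 * (1 + ε)) ^ ((5 : ℝ) / 2) * (Real.pi ^ 3 / 32)) := by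
  have h1 : ContinuousAt (fun ε : ℝ => 1 / ((15 * (1 + ε)) ^ ((5 : ℝ) / 2) * (Real.pi ^ 3 / 32)))
      0 := by
    refine ContinuousAt.div continuousAt_const (ContinuousAt.mul ?_ continuousAt_const) ?_
    · exact ContinuousAt.rpow_const (by fun_prop) (Or.inl (by norm_num))
    · have : 0 < (15 * (1 + (0 : ℝ))) ^ ((5 : ℝ) / 2) := by positivity
      have := Real.pi_pos
      positivity
  have h2 : (fun ε : ℝ => 1 / ((15 * (1 + ε)) ^ ((5 : ℝ) / 2) * (Real.pi ^ 3 / 32))) 0 =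
      1 / (225 / 32 * Real.sqrt 15 * Real.pi ^ 3) := by
    simp only [add_zero, mul_one]
    rw [Sharp_rpow]
    have := Real.pi_pos
    field_simp
  have h3 : ∀ᶠ ε in 𝓝 (0 : ℝ), r < 1 / ((15 * (1 + ε)) ^ ((5 : ℝ) / 2) * (Real.pi ^ 3 / 32)) :=
    h1.eventually (lt_mem_nhds (by rw [h2]; exact hr))
  have h4 : ∀ᶠ ε in 𝓝[>] (0 : ℝ), 0 < ε := eventually_mem_nhdsWithin
  obtain ⟨ε, h5, h6⟩ := ((h3.filter_mono nhdsWithin_le_nhds).and h4).exists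
  exact ⟨ε, h6, h5⟩

theorem radial_sharp (r : ℝ)
    (hr : r < 1 / (225 / 32 * Real.sqrt 15 * Real.pi ^ 3)) :
    ∃ (w : ℝ → ℝ) (S : Submodule ℝ (E5 → ℝ)), Measurable w ∧ (∀ ρ, 0 ≤ w ρ) ∧
      Integrable (fun x : E5 => w ‖x‖ ^ ((5 : ℝ) / 2)) ∧
      0 < ∫ x : E5, w ‖x‖ ^ ((5 : ℝ) / 2) ∧ FiniteDimensional ℝ S ∧
      (∀ u ∈ S, ContDiff ℝ ((⊤ : ℕ∞) : WithTop ℕ∞) u ∧ HasCompactSupport u) ∧
      (∀ u ∈ S, u ≠ 0 → ∫ x, ‖fderiv ℝ u x‖ ^ 2 < ∫ x, w ‖x‖ * u x ^ 2) ∧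
      r < (Module.finrank ℝ S : ℝ) / ∫ x : E5, w ‖x‖ ^ ((5 : ℝ) / 2) := by
  obtain ⟨ε, hε, hr'⟩ := Sharp_exists_eps r hr
  have hpi := Real.pi_pos
  set a : ℝ := ∫ x : E5, ((1 + ‖x‖ ^ 2) ^ 2)⁻¹ * Sharp_prof x with ha
  have ha0 : 0 ≤ a := integral_nonneg fun x => by
    have := Sharp_prof_pos x
    positivity
  obtain ⟨δ, hδ, hδa⟩ : ∃ δ : ℝ, 0 < δ ∧ (1 + ε) * (4 * δ * a) < ε * (Real.pi ^ 3 / 32) := by
    refine ⟨ε * Real.pi ^ 3 / (256 * (1 + ε) * (a + 1)), by positivity, ?_⟩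
    have e : (1 + ε) * (4 * (ε * Real.pi ^ 3 / (256 * (1 + ε) * (a + 1))) * a) =
        ε * (Real.pi ^ 3 / 32) * (a / (a + 1) / 2) := by
      field_simp
      ring
    rw [e]
    have h1 : a / (a + 1) / 2 < 1 := by
      rw [div_div, div_lt_one (by positivity)]
      linarith
    have h2 : 0 < ε * (Real.pi ^ 3 / 32) := by positivity
    nlinarith
  let w : ℝ → ℝ := fun ρ => 15 * (1 + ε) * ((1 + ρ ^ 2) ^ 2)⁻¹
  have hw0 : ∀ ρ, 0 ≤ w ρ := fun ρ => by positivity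
  have hwm : Continuous w := by
    refine continuous_const.mul (Continuous.inv₀ (by fun_prop) fun ρ => by positivity)
  have hwr : ∀ x : E5, w ‖x‖ ^ ((5 : ℝ) / 2) =
      (15 * (1 + ε)) ^ ((5 : ℝ) / 2) * ((1 + ‖x‖ ^ 2) ^ 5)⁻¹ := by
    intro x
    have h0 : (0 : ℝ) ≤ 1 + ‖x‖ ^ 2 := by positivity
    change (15 * (1 + ε) * ((1 + ‖x‖ ^ 2) ^ 2)⁻¹) ^ ((5 : ℝ) / 2) = _
    rw [Real.mul_rpow (by positivity) (by positivity), Real.inv_rpow (by positivity)]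
    congr 2
    generalize 1 + ‖x‖ ^ 2 = z at h0
    rw [← Real.rpow_natCast z 2, ← Real.rpow_natCast z 5, ← Real.rpow_mul h0]
    norm_num
  have hu := Sharp_contDiff_tprof δ
  have hcs := Sharp_hcs_tprof hδ
  set u : E5 → ℝ := Sharp_tprof δ with hudef
  have hI : ∫ x : E5, w ‖x‖ ^ ((5 : ℝ) / 2) =
      (15 * (1 + ε)) ^ ((5 : ℝ) / 2) * (Real.pi ^ 3 / 32) := by
    simp only [hwr]
    rw [integral_const_mul, Sharp_bSh.2]
  have hkin : ∫ x, ‖fderiv ℝ u x‖ ^ 2 ≤ 15 * Real.pi ^ 3 / 32 := by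
    have e : ∫ x : E5, 9 * (‖x‖ ^ 2 * ((1 + ‖x‖ ^ 2) ^ 5)⁻¹) = 15 * Real.pi ^ 3 / 32 := by
      rw [integral_const_mul, Sharp_intc.2]
      ring
    rw [← e]
    refine integral_mono_of_nonneg (Eventually.of_forall fun x => by positivity)
      (Sharp_intc.1.const_mul 9) (Eventually.of_forall fun x => Sharp_norm_fderiv_tprof hδ x)
  have hcontu : Continuous u := hu.continuous
  have hpotint : Integrable fun x : E5 => w ‖x‖ * u x ^ 2 := by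
    refine Continuous.integrable_of_hasCompactSupport ?_ ?_
    · exact (hwm.comp continuous_norm).mul (hcontu.pow 2)
    · refine HasCompactSupport.mul_left ?_
      exact hcs.comp_left (g := fun t : ℝ => t ^ 2) (by norm_num)
  have hpot : 15 * (1 + ε) * (Real.pi ^ 3 / 32 - 4 * δ * a) ≤ ∫ x, w ‖x‖ * u x ^ 2 := by
    have h1 : 15 * (1 + ε) * (Real.pi ^ 3 / 32 - 4 * δ * a) =
        ∫ x : E5, 15 * (1 + ε) * (((1 + ‖x‖ ^ 2) ^ 5)⁻¹ -
          4 * δ * (((1 + ‖x‖ ^ 2) ^ 2)⁻¹ * Sharp_prof x)) := by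
      rw [integral_const_mul, integral_sub Sharp_bSh.1 (Sharp_inta.const_mul _), Sharp_bSh.2,
        integral_const_mul]
    rw [h1]
    refine integral_mono ((Sharp_bSh.1.sub (Sharp_inta.const_mul _)).const_mul _) hpotint
      fun x => ?_
    have h2 := Sharp_tprof_sq hδ x
    have h3 : (0 : ℝ) ≤ ((1 + ‖x‖ ^ 2) ^ 2)⁻¹ := by positivity
    have h4 := mul_le_mul_of_nonneg_left h2 h3
    have h5 : ((1 + ‖x‖ ^ 2) ^ 5)⁻¹ = ((1 + ‖x‖ ^ 2) ^ 2)⁻¹ * ((1 + ‖x‖ ^ 2) ^ 3)⁻¹ := by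
      rw [← mul_inv, ← pow_add]
    have h6 : w ‖x‖ * u x ^ 2 =
        15 * (1 + ε) * (((1 + ‖x‖ ^ 2) ^ 2)⁻¹ * Sharp_tprof δ x ^ 2) := by
      change 15 * (1 + ε) * ((1 + ‖x‖ ^ 2) ^ 2)⁻¹ * Sharp_tprof δ x ^ 2 = _
      ring
    rw [h6]
    refine mul_le_mul_of_nonneg_left ?_ (by positivity)
    rw [h5]
    linarith
  have hstrict : ∫ x, ‖fderiv ℝ u x‖ ^ 2 < ∫ x, w ‖x‖ * u x ^ 2 := by
    refine lt_of_le_of_lt hkin (lt_of_lt_of_le ?_ hpot)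
    nlinarith
  have hune : u ≠ 0 := by
    intro h0
    rw [h0] at hstrict
    simp at hstrict
  refine ⟨w, Submodule.span ℝ {u}, hwm.measurable, hw0, ?_, ?_, inferInstance, ?_, ?_, ?_⟩
  · simp only [hwr]
    exact Sharp_bSh.1.const_mul _
  · rw [hI]
    have : 0 < (15 * (1 + ε)) ^ ((5 : ℝ) / 2) := by positivity
    positivity
  · intro v hv
    obtain ⟨c, rfl⟩ := Submodule.mem_span_singleton.1 hv
    refine ⟨contDiff_const.smul hu, ?_⟩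
    exact HasCompactSupport.smul_left (f := fun _ : E5 => c) hcs
  · intro v hv hv0
    obtain ⟨c, rfl⟩ := Submodule.mem_span_singleton.1 hv
    have hc : c ≠ 0 := by
      rintro rfl
      exact hv0 (zero_smul _ _)
    have h1 : ∀ x, ‖fderiv ℝ (c • u) x‖ ^ 2 = c ^ 2 * ‖fderiv ℝ u x‖ ^ 2 := by
      intro x
      rw [fderiv_const_smul (hu.differentiable (by simp) x), norm_smul, mul_pow,
        Real.norm_eq_abs, sq_abs]
    have h2 : ∀ x : E5, w ‖x‖ * (c • u) x ^ 2 = c ^ 2 * (w ‖x‖ * u x ^ 2) := by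
      intro x
      simp only [Pi.smul_apply, smul_eq_mul]
      ring
    simp only [h1, h2]
    rw [integral_const_mul, integral_const_mul]
    exact mul_lt_mul_of_pos_left hstrict (by positivity)
  · rw [finrank_span_singleton hune, hI]
    simpa using hr'

end

end Pool.Agent.CLR5
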