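import Pool.Agent.Lib.MP_efa090_mp.NiceCLR
import Pool.Agent.Lib.MP_efa090_mp.Gen
import Pool.Agent.Lib.MP_efa090_mp.Polar
import Pool.Agent.Lib.MP_efa090_mp.Sharp
import Pool.Agent.Lib.MP_efa090_mp.Const

/-! The Cwikel-Lieb-Rozenblum inequality for radial potentials in dimension five. -/

open MeasureTheory Set Metric

namespace Pool.Agent.CLR5

theorem radial_clr (w : ℝ → ℝ) (hw : Measurable w) (hw0 : ∀ r, 0 ≤ w r)
    (hint : Integrable (fun x : E5 => w ‖x‖ ^ ((5 : ℝ) / 2)))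
    (S : Submodule ℝ (E5 → ℝ)) [hfin : FiniteDimensional ℝ S]
    (hS : ∀ u ∈ S, ContDiff ℝ ((⊤ : ℕ∞) : WithTop ℕ∞) u ∧ HasCompactSupport u)
    (hneg : ∀ u ∈ S, u ≠ 0 → ∫ x, ‖fderiv ℝ u x‖ ^ 2 < ∫ x, w ‖x‖ * u x ^ 2) :
    (Module.finrank ℝ S : ℝ) ≤
      1 / (225 / 32 * Real.sqrt 15 * Real.pi ^ 3) * ∫ x : E5, w ‖x‖ ^ ((5 : ℝ) / 2) := by
  obtain ⟨hm, h0, hi, he⟩ := pot_polar w hw hw0 hint
  have h := general_of_nice (fun W hW S hfin hS hneg => nice_clr hW S hfin hS hneg) hm h0 hi S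
    hfin hS (fun u hu hu0 => by
      rw [← form_polar w hw hw0 hint u (hS u hu).1 (hS u hu).2]
      have := hneg u hu hu0
      linarith)
  rw [he]
  refine h.trans (le_of_eq ?_)
  unfold e0
  have : Real.pi ≠ 0 := Real.pi_ne_zero
  have h3 : Real.sqrt 15 ≠ 0 := by positivity
  field_simp

end Pool.Agent.CLR5
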