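import Pool.Agent.Lib.MP_efa090_mp.Defs

/-! Row Ode: linear second order equations, existence, uniqueness, dependence on a parameter. -/

open MeasureTheory Set Real

namespace Pool.Agent.CLR5

theorem Ode_unique_right {q f g : ℝ → ℝ} (hq : Continuous q) (hf : ∀ x, HasDerivAt f (g x) x)
    (hg : ∀ x, HasDerivAt g (q x * f x) x) {x0 : ℝ} (h0 : f x0 = 0) (h1 : g x0 = 0) {x : ℝ}
    (hx : x0 ≤ x) : f x = 0 ∧ g x = 0 := by
  obtain ⟨C, hC⟩ := (isCompact_Icc (a := x0) (b := x)).exists_bound_of_continuousOn hq.continuousOn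
  have hd : ∀ t, HasDerivAt (fun t => (f t, g t)) (g t, q t * f t) t := fun t =>
    (hf t).prodMk (hg t)
  have key := eq_zero_of_abs_deriv_le_mul_abs_self_of_eq_zero_right
    (f := fun t => (f t, g t)) (f' := fun t => (g t, q t * f t)) (K := max 1 C) (a := x0) (b := x)
    (fun t _ => (hd t).continuousAt.continuousWithinAt) (fun t _ => (hd t).hasDerivWithinAt)
    (by simp [h0, h1]) ?_ x (right_mem_Icc.mpr hx)
  · exact ⟨congrArg Prod.fst key, congrArg Prod.snd key⟩
  · intro t ht
    have hCt := hC t ⟨ht.1, ht.2.le⟩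
    rw [Prod.norm_def, Prod.norm_def]
    simp only
    have hm : 0 ≤ max ‖f t‖ ‖g t‖ := le_max_of_le_left (norm_nonneg _)
    refine max_le ?_ ?_
    · calc ‖g t‖ ≤ max ‖f t‖ ‖g t‖ := le_max_right _ _
        _ = 1 * max ‖f t‖ ‖g t‖ := (one_mul _).symm
        _ ≤ max 1 C * max ‖f t‖ ‖g t‖ := mul_le_mul_of_nonneg_right (le_max_left _ _) hm
    · rw [norm_mul]
      calc ‖q t‖ * ‖f t‖ ≤ max 1 C * ‖f t‖ :=
            mul_le_mul_of_nonneg_right (hCt.trans (le_max_right _ _)) (norm_nonneg _)
        _ ≤ max 1 C * max ‖f t‖ ‖g t‖ :=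
            mul_le_mul_of_nonneg_left (le_max_left _ _) (le_max_of_le_left zero_le_one)

theorem lin_ode_unique {q f g : ℝ → ℝ} (hq : Continuous q) (hf : ∀ x, HasDerivAt f (g x) x)
    (hg : ∀ x, HasDerivAt g (q x * f x) x) {x0 : ℝ} (h0 : f x0 = 0) (h1 : g x0 = 0) (x : ℝ) :
    f x = 0 ∧ g x = 0 := by
  rcases le_total x0 x with hx | hx
  · exact Ode_unique_right hq hf hg h0 h1 hx
  · have hs : ∀ t : ℝ, HasDerivAt (fun t : ℝ => 2 * x0 - t) (-1) t := by
      intro t
      simpa using (hasDerivAt_id t).const_sub (2 * x0)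
    have hf' : ∀ t, HasDerivAt (fun t => f (2 * x0 - t)) (-g (2 * x0 - t)) t := by
      intro t
      have := (hf (2 * x0 - t)).comp t (hs t)
      rw [mul_neg_one] at this
      exact this
    have hg' : ∀ t, HasDerivAt (fun t => -g (2 * x0 - t))
        (q (2 * x0 - t) * f (2 * x0 - t)) t := by
      intro t
      have := ((hg (2 * x0 - t)).comp t (hs t)).neg
      rw [mul_neg_one, neg_neg] at this
      exact this
    have hq' : Continuous fun t => q (2 * x0 - t) := by fun_prop
    have e0 : 2 * x0 - x0 = x0 := by ring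
    have key := Ode_unique_right (q := fun t => q (2 * x0 - t)) hq' hf' hg' (x0 := x0)
      (by rw [e0, h0]) (by rw [e0, h1, neg_zero])
      (x := 2 * x0 - x) (by linarith)
    have e1 : 2 * x0 - (2 * x0 - x) = x := by ring
    rw [e1] at key
    exact ⟨key.1, neg_eq_zero.mp key.2⟩

/-- the terms of the Picard series -/
noncomputable def OdeFG (W : ℝ → ℝ) (x0 : ℝ) : ℕ → (ℝ → ℝ → ℝ) × (ℝ → ℝ → ℝ)
  | 0 => (fun _ _ => 1, fun k _ => k)
  | n + 1 => (fun k x => ∫ s in x0..x, (OdeFG W x0 n).2 k s,
      fun k x => ∫ s in x0..x, (k ^ 2 - W s) * (OdeFG W x0 n).1 k s)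

theorem Ode_cont {W : ℝ → ℝ} (hW : Continuous W) (x0 : ℝ) (n : ℕ) :
    Continuous (Function.uncurry (OdeFG W x0 n).1) ∧
      Continuous (Function.uncurry (OdeFG W x0 n).2) := by
  induction n with
  | zero =>
    constructor
    · exact continuous_const
    · exact continuous_fst
  | succ n ih =>
    constructor
    · exact intervalIntegral.continuous_parametric_primitive_of_continuous ih.2
    · refine intervalIntegral.continuous_parametric_primitive_of_continuous
        (f := fun k s => (k ^ 2 - W s) * (OdeFG W x0 n).1 k s) ?_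
      have h1 : Continuous fun p : ℝ × ℝ => (OdeFG W x0 n).1 p.1 p.2 := ih.1
      have h2 : Continuous fun p : ℝ × ℝ => (p.1 ^ 2 - W p.2) * (OdeFG W x0 n).1 p.1 p.2 := by
        fun_prop
      exact h2

theorem Ode_cont_x {W : ℝ → ℝ} (hW : Continuous W) (x0 : ℝ) (n : ℕ) (k : ℝ) :
    Continuous ((OdeFG W x0 n).1 k) ∧ Continuous ((OdeFG W x0 n).2 k) := by
  obtain ⟨h1, h2⟩ := Ode_cont hW x0 n
  exact ⟨h1.comp (continuous_const.prodMk continuous_id),
    h2.comp (continuous_const.prodMk continuous_id)⟩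

/-- the integral of a function bounded by a power -/
theorem Ode_int_le {h : ℝ → ℝ} {x0 R A : ℝ} (n : ℕ)
    (hb : ∀ s, |s - x0| ≤ R → |h s| ≤ A * |s - x0| ^ n) {x : ℝ} (hx : |x - x0| ≤ R) :
    |∫ s in x0..x, h s| ≤ A * (|x - x0| ^ (n + 1) / (n + 1)) := by
  rcases le_total x0 x with h0 | h0
  · have e1 : |x - x0| = x - x0 := abs_of_nonneg (by linarith)
    have h1 : |∫ s in x0..x, h s| ≤ ∫ s in x0..x, A * (s - x0) ^ n := by
      rw [← Real.norm_eq_abs]
      refine intervalIntegral.norm_integral_le_of_norm_le h0 ?_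
        ((by fun_prop : Continuous fun s : ℝ => A * (s - x0) ^ n).intervalIntegrable _ _)
      refine Filter.Eventually.of_forall fun s hs => ?_
      have e2 : |s - x0| = s - x0 := abs_of_nonneg (by linarith [hs.1])
      rw [Real.norm_eq_abs, ← e2]
      refine hb s ?_
      rw [e2]
      rw [e1] at hx
      linarith [hs.2]
    have h2 : ∫ s in x0..x, A * (s - x0) ^ n = A * ((x - x0) ^ (n + 1) / (n + 1)) := by
      rw [intervalIntegral.integral_const_mul,
        intervalIntegral.integral_comp_sub_right (fun s => s ^ n) x0, integral_pow]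
      simp
    rw [e1, ← h2]
    exact h1
  · have e1 : |x - x0| = x0 - x := by rw [abs_of_nonpos (by linarith)]; ring
    have h1 : |∫ s in x..x0, h s| ≤ ∫ s in x..x0, A * (x0 - s) ^ n := by
      rw [← Real.norm_eq_abs]
      refine intervalIntegral.norm_integral_le_of_norm_le h0 ?_
        ((by fun_prop : Continuous fun s : ℝ => A * (x0 - s) ^ n).intervalIntegrable _ _)
      refine Filter.Eventually.of_forall fun s hs => ?_
      have e2 : |s - x0| = x0 - s := by rw [abs_of_nonpos (by linarith [hs.2])]; ring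
      rw [Real.norm_eq_abs, ← e2]
      refine hb s ?_
      rw [e2]
      rw [e1] at hx
      linarith [hs.1]
    have h2 : ∫ s in x..x0, A * (x0 - s) ^ n = A * ((x0 - x) ^ (n + 1) / (n + 1)) := by
      rw [intervalIntegral.integral_const_mul,
        intervalIntegral.integral_comp_sub_left (fun s => s ^ n) x0, integral_pow]
      simp
    rw [intervalIntegral.integral_symm, abs_neg, e1, ← h2]
    exact h1

theorem Ode_bound {W : ℝ → ℝ} (hW : Continuous W) (x0 : ℝ) {R C : ℝ} (hC1 : 1 ≤ C)
    (hC : ∀ k x, |k| ≤ R → |x - x0| ≤ R → |k ^ 2 - W x| ≤ C) {M : ℝ} (hM1 : 1 ≤ M) (hMR : R ≤ M)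
    (n : ℕ) {k x : ℝ} (hk : |k| ≤ R) (hx : |x - x0| ≤ R) :
    |(OdeFG W x0 n).1 k x| ≤ M * C ^ n * |x - x0| ^ n / n.factorial ∧
      |(OdeFG W x0 n).2 k x| ≤ M * C ^ n * |x - x0| ^ n / n.factorial := by
  induction n generalizing x with
  | zero =>
    simp only [OdeFG, pow_zero, mul_one, Nat.factorial_zero, Nat.cast_one, div_one]
    exact ⟨by rw [abs_one]; exact hM1, hk.trans hMR⟩
  | succ n ih =>
    obtain ⟨c1, c2⟩ := Ode_cont_x hW x0 n k
    have hfac : (0 : ℝ) < n.factorial := by exact_mod_cast n.factorial_pos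
    have hC0 : 0 ≤ C := by linarith
    have hM0 : 0 ≤ M := by linarith
    have hA : ∀ t : ℝ, (M * C ^ (n + 1) / n.factorial) * (t ^ (n + 1) / (n + 1)) =
        M * C ^ (n + 1) * t ^ (n + 1) / ((n + 1).factorial : ℝ) := by
      intro t
      rw [Nat.factorial_succ]
      push_cast
      field_simp
    rw [← hA]
    constructor
    · refine Ode_int_le (h := fun s => (OdeFG W x0 n).2 k s) n ?_ hx
      intro s hs
      refine (ih hs).2.trans ?_
      have : M * C ^ (n + 1) / n.factorial * |s - x0| ^ n =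
          C * (M * C ^ n * |s - x0| ^ n / n.factorial) := by
        rw [pow_succ]
        field_simp
      rw [this]
      exact le_mul_of_one_le_left (by positivity) hC1
    · refine Ode_int_le (h := fun s => (k ^ 2 - W s) * (OdeFG W x0 n).1 k s)
        n ?_ hx
      intro s hs
      have : M * C ^ (n + 1) / n.factorial * |s - x0| ^ n =
          C * (M * C ^ n * |s - x0| ^ n / n.factorial) := by
        rw [pow_succ]
        field_simp
      rw [this, abs_mul]
      exact mul_le_mul (hC k s hk hs) (ih hs).1 (abs_nonneg _) hC0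

theorem Ode_box {W : ℝ → ℝ} (hW : Continuous W) (x0 R : ℝ) : ∃ u : ℕ → ℝ, Summable u ∧
    ∀ n k x, |k| ≤ R → |x - x0| ≤ R → |(OdeFG W x0 n).1 k x| ≤ u n ∧
      |(OdeFG W x0 n).2 k x| ≤ u n := by
  obtain ⟨C, hC⟩ := ((isCompact_Icc (a := -R) (b := R)).prod
    (isCompact_Icc (a := x0 - R) (b := x0 + R))).exists_bound_of_continuousOn
    (f := fun p : ℝ × ℝ => p.1 ^ 2 - W p.2) (by fun_prop : Continuous fun p : ℝ × ℝ =>
      p.1 ^ 2 - W p.2).continuousOn
  set M := max 1 R with hM
  set D := max 1 C with hD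
  refine ⟨fun n => M * ((D * R) ^ n / n.factorial),
    (Real.summable_pow_div_factorial (D * R)).mul_left M, ?_⟩
  intro n k x hk hx
  have hb := Ode_bound hW x0 (R := R) (C := D) (le_max_left _ _)
    (fun k x hk hx => by
      have := hC (k, x) ⟨⟨by linarith [(abs_le.mp hk).1], (abs_le.mp hk).2⟩,
        ⟨by linarith [(abs_le.mp hx).1], by linarith [(abs_le.mp hx).2]⟩⟩
      exact this.trans (le_max_right _ _))
    (M := M) (le_max_left _ _) (le_max_right _ _) n hk hx
  have h0 : M * D ^ n * |x - x0| ^ n / n.factorial ≤ M * ((D * R) ^ n / n.factorial) := by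
    rw [mul_pow, mul_assoc, mul_div_assoc]
    have hM0 : 0 ≤ M := le_max_of_le_left zero_le_one
    have hD0 : 0 ≤ D := le_max_of_le_left zero_le_one
    refine mul_le_mul_of_nonneg_left ?_ hM0
    refine div_le_div_of_nonneg_right ?_ (by positivity)
    exact mul_le_mul_of_nonneg_left (pow_le_pow_left₀ (abs_nonneg _) hx n) (by positivity)
  exact ⟨hb.1.trans h0, hb.2.trans h0⟩

theorem Ode_deriv {W : ℝ → ℝ} (hW : Continuous W) (x0 : ℝ) (n : ℕ) (k x : ℝ) :
    HasDerivAt ((OdeFG W x0 (n + 1)).1 k) ((OdeFG W x0 n).2 k x) x ∧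
      HasDerivAt ((OdeFG W x0 (n + 1)).2 k) ((k ^ 2 - W x) * (OdeFG W x0 n).1 k x) x := by
  obtain ⟨c1, c2⟩ := Ode_cont_x hW x0 n k
  constructor
  · exact intervalIntegral.integral_hasDerivAt_right (c2.intervalIntegrable _ _)
      (c2.stronglyMeasurableAtFilter _ _) c2.continuousAt
  · have c3 : Continuous fun s => (k ^ 2 - W s) * (OdeFG W x0 n).1 k s := by fun_prop
    exact intervalIntegral.integral_hasDerivAt_right (c3.intervalIntegrable _ _)
      (c3.stronglyMeasurableAtFilter _ _) c3.continuousAt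

/-- Picard-Lindelof for the linear field `(y, z) ↦ (z, (k^2 - W) y)`, Gronwall for the continuity. -/
theorem lin_ode_param {W : ℝ → ℝ} (hW : Continuous W) (x0 : ℝ) : ∃ f g : ℝ → ℝ → ℝ,
    (∀ k, f k x0 = 1 ∧ g k x0 = k ∧ (∀ x, HasDerivAt (f k) (g k x) x) ∧
      ∀ x, HasDerivAt (g k) ((k ^ 2 - W x) * f k x) x) ∧
    Continuous (fun p : ℝ × ℝ => f p.1 p.2) ∧ Continuous (fun p : ℝ × ℝ => g p.1 p.2) := by
  have hsum : ∀ k x, Summable (fun n => (OdeFG W x0 n).1 k x) ∧
      Summable (fun n => (OdeFG W x0 n).2 k x) := by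
    intro k x
    obtain ⟨u, hu, hb⟩ := Ode_box hW x0 (max |k| |x - x0|)
    exact ⟨Summable.of_norm_bounded hu fun n => (hb n k x (le_max_left _ _) (le_max_right _ _)).1,
      Summable.of_norm_bounded hu fun n => (hb n k x (le_max_left _ _) (le_max_right _ _)).2⟩
  refine ⟨fun k x => ∑' n, (OdeFG W x0 n).1 k x, fun k x => ∑' n, (OdeFG W x0 n).2 k x, ?_, ?_, ?_⟩
  · intro k
    refine ⟨?_, ?_, ?_, ?_⟩
    · simp only
      rw [tsum_eq_single 0]
      · rfl
      · intro n hn
        obtain ⟨m, rfl⟩ := Nat.exists_eq_succ_of_ne_zero hn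
        show ∫ s in x0..x0, (OdeFG W x0 m).2 k s = 0
        exact intervalIntegral.integral_same
    · simp only
      rw [tsum_eq_single 0]
      · rfl
      · intro n hn
        obtain ⟨m, rfl⟩ := Nat.exists_eq_succ_of_ne_zero hn
        show ∫ s in x0..x0, (k ^ 2 - W s) * (OdeFG W x0 m).1 k s = 0
        exact intervalIntegral.integral_same
    · intro x
      obtain ⟨u, hu, hb⟩ := Ode_box hW x0 (max |k| (|x - x0| + 1))
      -- derivatives of the terms
      have key := hasDerivAt_tsum_of_isPreconnected (𝕜 := ℝ)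
        (u := fun n => Nat.casesOn n 0 u) (t := Metric.ball x0 (|x - x0| + 1))
        (g := fun n y => (OdeFG W x0 n).1 k y)
        (g' := fun n y => Nat.casesOn n 0 fun m => (OdeFG W x0 m).2 k y)
        (y₀ := x) (y := x) ?_ Metric.isOpen_ball (convex_ball _ _).isPreconnected ?_ ?_ ?_
        (hsum k x).1 ?_
      · have e : (∑' n, (fun n y => (Nat.casesOn n 0 fun m => (OdeFG W x0 m).2 k y : ℝ)) n x) =
            ∑' n, (OdeFG W x0 n).2 k x := by
          rw [Summable.tsum_eq_zero_add]
          · simp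
          · rw [← summable_nat_add_iff 1]
            exact (hsum k x).2
        show HasDerivAt (fun x => ∑' n, (OdeFG W x0 n).1 k x) (∑' n, (OdeFG W x0 n).2 k x) x
        rw [← e]
        exact key
      · rw [← summable_nat_add_iff 1]
        exact hu
      · intro n y hy
        cases n with
        | zero => exact hasDerivAt_const y (1 : ℝ)
        | succ m => exact (Ode_deriv hW x0 m k y).1
      · intro n y hy
        cases n with
        | zero => simp
        | succ m =>
          refine (hb m k y (le_max_left _ _) ?_).2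
          rw [Metric.mem_ball, Real.dist_eq] at hy
          exact hy.le.trans (le_max_right _ _)
      · rw [Metric.mem_ball, Real.dist_eq]
        linarith
      · rw [Metric.mem_ball, Real.dist_eq]
        linarith
    · intro x
      obtain ⟨u, hu, hb⟩ := Ode_box hW x0 (max |k| (|x - x0| + 1))
      obtain ⟨C, hC⟩ := (isCompact_Icc (a := x0 - (|x - x0| + 1)) (b := x0 + (|x - x0| + 1))
        ).exists_bound_of_continuousOn (f := fun y => k ^ 2 - W y)
        (by fun_prop : Continuous fun y => k ^ 2 - W y).continuousOn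
      have key := hasDerivAt_tsum_of_isPreconnected (𝕜 := ℝ)
        (u := fun n => Nat.casesOn n 0 fun m => C * u m) (t := Metric.ball x0 (|x - x0| + 1))
        (g := fun n y => (OdeFG W x0 n).2 k y)
        (g' := fun n y => Nat.casesOn n 0 fun m => (k ^ 2 - W y) * (OdeFG W x0 m).1 k y)
        (y₀ := x) (y := x) ?_ Metric.isOpen_ball (convex_ball _ _).isPreconnected ?_ ?_ ?_
        (hsum k x).2 ?_
      · have e : (∑' n, (fun n y => (Nat.casesOn n 0 fun m =>
            (k ^ 2 - W y) * (OdeFG W x0 m).1 k y : ℝ)) n x) =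
            (k ^ 2 - W x) * ∑' n, (OdeFG W x0 n).1 k x := by
          rw [Summable.tsum_eq_zero_add, ← tsum_mul_left]
          · simp
          · rw [← summable_nat_add_iff 1]
            exact (hsum k x).1.mul_left _
        show HasDerivAt (fun x => ∑' n, (OdeFG W x0 n).2 k x)
          ((k ^ 2 - W x) * ∑' n, (OdeFG W x0 n).1 k x) x
        rw [← e]
        exact key
      · rw [← summable_nat_add_iff 1]
        exact hu.mul_left C
      · intro n y hy
        cases n with
        | zero => exact hasDerivAt_const y k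
        | succ m => exact (Ode_deriv hW x0 m k y).2
      · intro n y hy
        rw [Metric.mem_ball, Real.dist_eq] at hy
        cases n with
        | zero => simp
        | succ m =>
          have h1 := (hb m k y (le_max_left _ _) (hy.le.trans (le_max_right _ _))).1
          have h2 := hC y ⟨by linarith [(abs_lt.mp hy).1], by linarith [(abs_lt.mp hy).2]⟩
          show ‖(k ^ 2 - W y) * (OdeFG W x0 m).1 k y‖ ≤ C * u m
          rw [norm_mul]
          exact mul_le_mul h2 h1 (norm_nonneg _) ((norm_nonneg _).trans h2)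
      · rw [Metric.mem_ball, Real.dist_eq]
        linarith
      · rw [Metric.mem_ball, Real.dist_eq]
        linarith
  · rw [continuous_iff_continuousAt]
    rintro ⟨k, x⟩
    obtain ⟨u, hu, hb⟩ := Ode_box hW x0 (max (|k| + 1) (|x - x0| + 1))
    have hU : IsOpen {p : ℝ × ℝ | |p.1| < |k| + 1 ∧ |p.2 - x0| < |x - x0| + 1} :=
      IsOpen.inter
        (isOpen_lt (by fun_prop : Continuous fun p : ℝ × ℝ => |p.1|) continuous_const)
        (isOpen_lt (by fun_prop : Continuous fun p : ℝ × ℝ => |p.2 - x0|) continuous_const)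
    refine ContinuousOn.continuousAt (s := {p : ℝ × ℝ | |p.1| < |k| + 1 ∧ |p.2 - x0| < |x - x0| + 1})
      ?_ (hU.mem_nhds ⟨by simp, by simp⟩)
    refine continuousOn_tsum (fun n => (Ode_cont hW x0 n).1.continuousOn) hu ?_
    rintro n p ⟨h1, h2⟩
    exact (hb n p.1 p.2 (h1.le.trans (le_max_left _ _)) (h2.le.trans (le_max_right _ _))).1
  · rw [continuous_iff_continuousAt]
    rintro ⟨k, x⟩
    obtain ⟨u, hu, hb⟩ := Ode_box hW x0 (max (|k| + 1) (|x - x0| + 1))
    have hU : IsOpen {p : ℝ × ℝ | |p.1| < |k| + 1 ∧ |p.2 - x0| < |x - x0| + 1} :=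
      IsOpen.inter
        (isOpen_lt (by fun_prop : Continuous fun p : ℝ × ℝ => |p.1|) continuous_const)
        (isOpen_lt (by fun_prop : Continuous fun p : ℝ × ℝ => |p.2 - x0|) continuous_const)
    refine ContinuousOn.continuousAt (s := {p : ℝ × ℝ | |p.1| < |k| + 1 ∧ |p.2 - x0| < |x - x0| + 1})
      ?_ (hU.mem_nhds ⟨by simp, by simp⟩)
    refine continuousOn_tsum (fun n => (Ode_cont hW x0 n).2.continuousOn) hu ?_
    rintro n p ⟨h1, h2⟩
    exact (hb n p.1 p.2 (h1.le.trans (le_max_left _ _)) (h2.le.trans (le_max_right _ _))).2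

end Pool.Agent.CLR5
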