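import Pool.Agent.Lib.MP_efa090_mp.Tst2
import Pool.Agent.Lib.MP_efa090_mp.Ode

/-! Row Ground: existence of the ground state (shooting). -/

open MeasureTheory Set Real

namespace Pool.Agent.CLR5

/-- a function with vanishing derivative on a convex set is constant there -/
theorem Ground_const {f f' : ℝ → ℝ} {s : Set ℝ} (hs : Convex ℝ s)
    (hf : ∀ x ∈ s, HasDerivAt f (f' x) x) (h0 : ∀ x ∈ s, f' x = 0) {x y : ℝ} (hx : x ∈ s)
    (hy : y ∈ s) : f x = f y := by
  have h := hs.norm_image_sub_le_of_norm_hasDerivWithin_le (f := f) (f' := f') (C := 0)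
    (fun z hz => (hf z hz).hasDerivWithinAt) (fun z hz => by rw [h0 z hz]; simp) hy hx
  rw [zero_mul] at h
  have h1 := norm_le_zero_iff.1 h
  linarith

/-- the solution is a growing exponential on the left of the support -/
theorem Ground_left {W f g : ℝ → ℝ} {k R : ℝ} (hW0 : ∀ x, x ≤ -R → W x = 0)
    (hf : ∀ x, HasDerivAt f (g x) x) (hg : ∀ x, HasDerivAt g ((k ^ 2 - W x) * f x) x)
    (h1 : f (-R) = 1) (h2 : g (-R) = k) {x : ℝ} (hx : x ≤ -R) : 0 < f x ∧ g x = k * f x := by
  have e1 : ∀ y, HasDerivAt (fun z => Real.exp (k * z)) (k * Real.exp (k * y)) y := by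
    intro y
    have := ((hasDerivAt_id y).const_mul k).exp
    simp only [id, mul_one] at this
    rw [mul_comm k (Real.exp (k * y))]
    exact this
  have e2 : ∀ y, HasDerivAt (fun z => Real.exp (-(k * z))) (-k * Real.exp (-(k * y))) y := by
    intro y
    have := (((hasDerivAt_id y).const_mul k).neg).exp
    simp only [id, mul_one] at this
    rw [mul_comm (-k) (Real.exp (-(k * y)))]
    exact this
  have hc : ∀ y ∈ Iic (-R), g y - k * f y = 0 := by
    intro y hy
    have h3 : ∀ z ∈ Iic (-R), HasDerivAt (fun t => (g t - k * f t) * Real.exp (k * t))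
        (((k ^ 2 - W z) * f z - k * g z) * Real.exp (k * z) +
          (g z - k * f z) * (k * Real.exp (k * z))) z := fun z _ =>
      ((hg z).sub ((hf z).const_mul k)).mul (e1 z)
    have h4 := Ground_const (convex_Iic (-R)) h3 (fun z hz => by
      rw [hW0 z hz]
      ring) hy (mem_Iic.2 le_rfl : -R ∈ Iic (-R))
    rw [h1, h2, mul_one, sub_self, zero_mul] at h4
    rcases mul_eq_zero.1 h4 with h5 | h5
    · exact h5
    · exact absurd h5 (Real.exp_pos _).ne'
  have h6 : ∀ z ∈ Iic (-R), HasDerivAt (fun t => f t * Real.exp (-(k * t)))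
      (g z * Real.exp (-(k * z)) + f z * (-k * Real.exp (-(k * z)))) z := fun z _ =>
    (hf z).mul (e2 z)
  have h7 := Ground_const (convex_Iic (-R)) h6 (fun z hz => by
    have := hc z hz
    have h8 : g z * Real.exp (-(k * z)) + f z * (-k * Real.exp (-(k * z))) =
        (g z - k * f z) * Real.exp (-(k * z)) := by ring
    rw [h8, this, zero_mul]) (mem_Iic.2 hx) (mem_Iic.2 le_rfl : -R ∈ Iic (-R))
  rw [h1, one_mul] at h7
  refine ⟨?_, by linarith [hc x hx]⟩
  have h9 : 0 < f x * Real.exp (-(k * x)) := by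
    rw [h7]
    exact Real.exp_pos _
  exact (pos_iff_pos_of_mul_pos h9).2 (Real.exp_pos _)

/-- on the right of the support `g + k f` is a growing exponential -/
theorem Ground_right {W f g : ℝ → ℝ} {k R : ℝ} (hW0 : ∀ x, R ≤ x → W x = 0)
    (hf : ∀ x, HasDerivAt f (g x) x) (hg : ∀ x, HasDerivAt g ((k ^ 2 - W x) * f x) x)
    {x : ℝ} (hx : R ≤ x) :
    (g x + k * f x) * Real.exp (-(k * x)) = (g R + k * f R) * Real.exp (-(k * R)) := by
  have e2 : ∀ y, HasDerivAt (fun z => Real.exp (-(k * z))) (-k * Real.exp (-(k * y))) y := by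
    intro y
    have := (((hasDerivAt_id y).const_mul k).neg).exp
    simp only [id, mul_one] at this
    rw [mul_comm (-k) (Real.exp (-(k * y)))]
    exact this
  have h3 : ∀ z ∈ Ici R, HasDerivAt (fun t => (g t + k * f t) * Real.exp (-(k * t)))
      (((k ^ 2 - W z) * f z + k * g z) * Real.exp (-(k * z)) +
        (g z + k * f z) * (-k * Real.exp (-(k * z)))) z := fun z _ =>
    ((hg z).add ((hf z).const_mul k)).mul (e2 z)
  exact Ground_const (convex_Ici R) h3 (fun z hz => by
    rw [hW0 z hz]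
    ring) (mem_Ici.2 hx) (mem_Ici.2 le_rfl)

/-- the solution is positive on the right of the support -/
theorem Ground_right_pos {W f g : ℝ → ℝ} {k R : ℝ} (hW0 : ∀ x, R ≤ x → W x = 0)
    (hf : ∀ x, HasDerivAt f (g x) x) (hg : ∀ x, HasDerivAt g ((k ^ 2 - W x) * f x) x)
    (h1 : 0 < f R) (h2 : 0 ≤ g R + k * f R) {x : ℝ} (hx : R ≤ x) : 0 < f x := by
  have e1 : ∀ y, HasDerivAt (fun z => Real.exp (k * z)) (k * Real.exp (k * y)) y := by
    intro y
    have := ((hasDerivAt_id y).const_mul k).exp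
    simp only [id, mul_one] at this
    rw [mul_comm k (Real.exp (k * y))]
    exact this
  have h3 : ∀ z, HasDerivAt (fun t => f t * Real.exp (k * t))
      (g z * Real.exp (k * z) + f z * (k * Real.exp (k * z))) z := fun z => (hf z).mul (e1 z)
  have h4 : ∀ z ∈ Ici R, 0 ≤ g z + k * f z := by
    intro z hz
    have h5 := Ground_right hW0 hf hg (mem_Ici.1 hz)
    by_contra h6
    push Not at h6
    have h7 : (g z + k * f z) * Real.exp (-(k * z)) < 0 :=
      mul_neg_of_neg_of_pos h6 (Real.exp_pos _)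
    have h8 : 0 ≤ (g R + k * f R) * Real.exp (-(k * R)) := mul_nonneg h2 (Real.exp_pos _).le
    linarith
  have h9 : MonotoneOn (fun t => f t * Real.exp (k * t)) (Ici R) := by
    apply monotoneOn_of_deriv_nonneg (convex_Ici R)
    · exact fun z _ => (h3 z).continuousAt.continuousWithinAt
    · exact fun z _ => (h3 z).differentiableAt.differentiableWithinAt
    · intro z hz
      rw [interior_Ici] at hz
      rw [(h3 z).deriv]
      have h10 := h4 z (mem_Ici.2 (le_of_lt hz))
      have h11 : g z * Real.exp (k * z) + f z * (k * Real.exp (k * z)) =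
          (g z + k * f z) * Real.exp (k * z) := by ring
      rw [h11]
      exact mul_nonneg h10 (Real.exp_pos _).le
  have h12 := h9 (mem_Ici.2 le_rfl) (mem_Ici.2 hx) hx
  simp only at h12
  have h13 : 0 < f R * Real.exp (k * R) := mul_pos h1 (Real.exp_pos _)
  have h14 : 0 < f x * Real.exp (k * x) := by linarith
  exact (pos_iff_pos_of_mul_pos h14).2 (Real.exp_pos _)

/-- the logarithmic derivative of a positive solution -/
theorem Ground_ric {W f g : ℝ → ℝ} {k : ℝ} (hf : ∀ x, HasDerivAt f (g x) x)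
    (hg : ∀ x, HasDerivAt g ((k ^ 2 - W x) * f x) x) (hpos : ∀ x, 0 < f x) (x : ℝ) :
    HasDerivAt (fun t => g t / f t) (k ^ 2 - W x - (g x / f x) ^ 2) x := by
  have h := (hg x).div (hf x) (hpos x).ne'
  have h1 : ((k ^ 2 - W x) * f x * f x - g x * g x) / f x ^ 2 =
      k ^ 2 - W x - (g x / f x) ^ 2 := by
    have := (hpos x).ne'
    field_simp
  rw [h1] at h
  exact h

/-- a positive solution makes the form nonnegative -/
theorem Ground_nonneg {W f g : ℝ → ℝ} {k : ℝ} (hW : Continuous W)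
    (hf : ∀ x, HasDerivAt f (g x) x)
    (hg : ∀ x, HasDerivAt g ((k ^ 2 - W x) * f x) x) (hpos : ∀ x, 0 < f x) {v : ℝ → ℝ}
    (hv : Tst v) : 0 ≤ Q W (k ^ 2) v := by
  set F : ℝ → ℝ := fun t => g t / f t with hF
  have hFd := Ground_ric hf hg hpos
  have hFc : Continuous F := continuous_iff_continuousAt.2 fun x => (hFd x).continuousAt
  have hF'c : Continuous (fun x => k ^ 2 - W x - (g x / f x) ^ 2) :=
    (continuous_const.sub hW).sub (hFc.pow 2)
  have h1 := hv.ftc hFd hF'c
  have i1 : Integrable (fun t => deriv v t ^ 2) := hv.int_sq.2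
  have i2 : Integrable (fun t => (k ^ 2 - W t) * (v t * v t)) :=
    (hv.int_mul hv (continuous_const.sub hW)).1
  have i3 : Integrable (fun t => (k ^ 2 - W t - F t ^ 2) * (v t * v t)) :=
    (hv.int_mul hv hF'c).1
  have i4 : Integrable (fun t => (2 * F t) * (v t * deriv v t)) :=
    (hv.int_mul hv (continuous_const.mul hFc)).2.1
  have i5 : Integrable (fun t => (F t ^ 2) * (v t * v t)) :=
    (hv.int_mul hv (hFc.pow 2)).1
  have e1 : Q W (k ^ 2) v = ∫ t, (deriv v t ^ 2 + (k ^ 2 - W t) * (v t * v t)) := by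
    unfold Q
    apply integral_congr_ae
    filter_upwards with t
    ring
  have e2 : ∫ t, (deriv v t ^ 2 + (k ^ 2 - W t) * (v t * v t)) =
      ∫ t, ((deriv v t - F t * v t) ^ 2 +
        ((k ^ 2 - W t - F t ^ 2) * v t ^ 2 + 2 * F t * (v t * deriv v t))) := by
    apply integral_congr_ae
    filter_upwards with t
    ring
  have i6 : Integrable (fun t => (k ^ 2 - W t - F t ^ 2) * v t ^ 2 +
      2 * F t * (v t * deriv v t)) := by
    refine (i3.add i4).congr ?_
    filter_upwards with t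
    simp only [Pi.add_apply]
    ring
  have i7 : Integrable (fun t => (deriv v t - F t * v t) ^ 2) := by
    refine ((i1.add i5).sub i4).congr ?_
    filter_upwards with t
    simp only [Pi.add_apply, Pi.sub_apply]
    ring
  rw [e1, e2, integral_add i7 i6]
  have h2 : ∫ t, ((k ^ 2 - W t - F t ^ 2) * v t ^ 2 + 2 * F t * (v t * deriv v t)) = 0 := h1
  rw [h2, add_zero]
  exact integral_nonneg fun t => sq_nonneg _

/-- for large `k` the solution is positive and increasing -/
theorem Ground_large {W f g : ℝ → ℝ} {k R : ℝ} (hk : 0 < k) (hWk : ∀ x, W x ≤ k ^ 2)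
    (hf : ∀ x, HasDerivAt f (g x) x) (hg : ∀ x, HasDerivAt g ((k ^ 2 - W x) * f x) x)
    (h1 : f (-R) = 1) (h2 : g (-R) = k) {x : ℝ} (hx : -R ≤ x) : 0 < f x ∧ 0 < g x := by
  have h3 : ∀ z, HasDerivAt (fun t => f t * g t)
      (g z * g z + f z * ((k ^ 2 - W z) * f z)) z := fun z => (hf z).mul (hg z)
  have h4 : Monotone (fun t => f t * g t) := by
    apply monotone_of_deriv_nonneg
    · exact fun z => (h3 z).differentiableAt
    · intro z
      rw [(h3 z).deriv]
      have := hWk z
      nlinarith [mul_self_nonneg (g z), mul_self_nonneg (f z),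
        mul_nonneg (sub_nonneg.2 this) (mul_self_nonneg (f z))]
  have h5 : ∀ z, -R ≤ z → 0 < f z * g z := by
    intro z hz
    have := h4 hz
    simp only at this
    rw [h1, h2, one_mul] at this
    linarith
  have hfc : Continuous f := continuous_iff_continuousAt.2 fun z => (hf z).continuousAt
  have h6 : 0 < f x := by
    by_contra h7
    push Not at h7
    have h8 : (0 : ℝ) ∈ Icc (f x) (f (-R)) := ⟨h7, by rw [h1]; norm_num⟩
    obtain ⟨z, hz, hz0⟩ := intermediate_value_Icc' hx hfc.continuousOn h8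
    have := h5 z hz.1
    rw [hz0, zero_mul] at this
    exact lt_irrefl _ this
  exact ⟨h6, (pos_iff_pos_of_mul_pos (h5 x hx)).1 h6⟩

/-- `W = 0` outside `(-R, R)`, `f k` the solution with `f = 1, f' = k` at `-R`.
`P = {k > 0 : f k > 0 on [-R, R] and f' + k f > 0 at R}` is open (`lin_ode_param`) and contains all
large `k`.  If `k ∈ P` then `Q W (k^2) v >= 0` for all test functions (with `F = f'/f` on `[-R, R]`,
`F = k` on the left: `∫ v'^2 + (k^2 - W) v^2 >= (F(R) + k) v(R)^2 >= 0`), so `sqrt E ∉ P`.  At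
`κ = sup of (0, oo) \ P`: `f >= 0` and `f' + κ f >= 0` at `R` by continuity; `f > 0` (a zero would be
double, `lin_ode_unique`; at `R` itself `f = 0` gives `f' <= 0` and `f' >= 0`), so `f' = -κ f` at
`R` because `κ ∉ P`.  `F = f'/f`, extended by `κ` and `-κ`.  `E < κ^2` because
`Q W (κ^2) v = ∫ (v' - F v)^2 >= 0`. -/
theorem ground {W : ℝ → ℝ} (hW : Continuous W) (hc : HasCompactSupport W) {v : ℝ → ℝ}
    (hv : Tst v) {E : ℝ} (hE : 0 < E) (h : Q W E v < 0) :
    ∃ κ R : ℝ, ∃ F : ℝ → ℝ, Gst W κ R F ∧ E < κ ^ 2 := by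
  -- the support
  obtain ⟨R, hR, hWR⟩ : ∃ R : ℝ, 0 < R ∧ ∀ x, R ≤ |x| → W x = 0 := by
    obtain ⟨r, hr⟩ := hc.isCompact.isBounded.subset_closedBall (0 : ℝ)
    refine ⟨max r 0 + 1, by positivity, ?_⟩
    intro x hx
    by_contra h1
    have h2 : x ∈ tsupport W := subset_tsupport _ h1
    have h3 := hr h2
    rw [Metric.mem_closedBall, Real.dist_eq, sub_zero] at h3
    have := le_max_left r 0
    linarith
  have hWl : ∀ x, x ≤ -R → W x = 0 := fun x hx => hWR x (by
    rw [abs_of_nonpos (by linarith)]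
    linarith)
  have hWr : ∀ x, R ≤ x → W x = 0 := fun x hx => hWR x (hx.trans (le_abs_self x))
  obtain ⟨M, hM⟩ : ∃ M : ℝ, ∀ x, W x ≤ M := by
    obtain ⟨M, hM⟩ := hW.bounded_above_of_compact_support hc
    exact ⟨M, fun x => (le_abs_self _).trans (hM x)⟩
  obtain ⟨f, g, hfg, hfc, hgc⟩ := lin_ode_param hW (-R)
  set P : Set ℝ := {k | 0 < k ∧ (∀ x ∈ Icc (-R) R, 0 < f k x) ∧ 0 < g k R + k * f k R} with hP
  -- positivity on the line
  have hPpos : ∀ k ∈ P, ∀ x, 0 < f k x := by
    rintro k ⟨hk, h1, h2⟩ x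
    obtain ⟨h3, h4, h5, h6⟩ := hfg k
    rcases le_total x (-R) with hx | hx
    · exact (Ground_left hWl h5 h6 h3 h4 hx).1
    · rcases le_total x R with hx' | hx'
      · exact h1 x ⟨hx, hx'⟩
      · exact Ground_right_pos hWr h5 h6 (h1 R ⟨by linarith, le_rfl⟩) h2.le hx'
  -- `P` is open
  have hPo : IsOpen P := by
    rw [isOpen_iff_mem_nhds]
    rintro k ⟨hk, h1, h2⟩
    have a1 : ∀ᶠ k' in nhds k, 0 < k' := lt_mem_nhds hk
    have a2 : ∀ᶠ k' in nhds k, ∀ x ∈ Icc (-R) R, 0 < f k' x := by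
      apply isCompact_Icc.eventually_forall_of_forall_eventually
      intro x hx
      have := hfc.continuousAt (x := (k, x))
      have h3 : ∀ᶠ p in nhds ((k, x) : ℝ × ℝ), 0 < f p.1 p.2 := this.eventually (lt_mem_nhds (h1 x hx))
      exact h3
    have a3 : ∀ᶠ k' in nhds k, 0 < g k' R + k' * f k' R := by
      have c1 : Continuous (fun k' => g k' R + k' * f k' R) :=
        (hgc.comp (continuous_id.prodMk continuous_const)).add
          (continuous_id.mul (hfc.comp (continuous_id.prodMk continuous_const)))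
      exact c1.continuousAt.eventually (lt_mem_nhds h2)
    filter_upwards [a1, a2, a3] with k' b1 b2 b3
    exact ⟨b1, b2, b3⟩
  -- large `k`
  have hPl : ∀ k, 0 < k → M ≤ k ^ 2 → k ∈ P := by
    intro k hk hkM
    obtain ⟨h3, h4, h5, h6⟩ := hfg k
    have h7 : ∀ x, -R ≤ x → 0 < f k x ∧ 0 < g k x := fun x hx =>
      Ground_large hk (fun z => (hM z).trans hkM) h5 h6 h3 h4 hx
    refine ⟨hk, fun x hx => (h7 x hx.1).1, ?_⟩
    have := h7 R (by linarith)
    have h8 := mul_pos hk this.1
    linarith [this.2]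
  -- the supremum
  set N : Set ℝ := {k | 0 < k ∧ k ∉ P} with hN
  have hNE : Real.sqrt E ∈ N := by
    refine ⟨Real.sqrt_pos.2 hE, ?_⟩
    intro h1
    obtain ⟨h3, h4, h5, h6⟩ := hfg (Real.sqrt E)
    have h7 := Ground_nonneg hW h5 h6 (hPpos _ h1) hv
    rw [Real.sq_sqrt hE.le] at h7
    linarith
  have hNb : ∀ k ∈ N, k ≤ |M| + 1 := by
    rintro k ⟨hk, hkP⟩
    by_contra h1
    push Not at h1
    apply hkP
    apply hPl k hk
    have h2 := le_abs_self M
    have h3 := abs_nonneg M
    nlinarith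
  have hNbd : BddAbove N := ⟨|M| + 1, hNb⟩
  set κ := sSup N with hκ
  have hκE : Real.sqrt E ≤ κ := le_csSup hNbd hNE
  have hκ0 : 0 < κ := lt_of_lt_of_le (Real.sqrt_pos.2 hE) hκE
  have habove : ∀ k, κ < k → k ∈ P := by
    intro k hk
    by_contra h1
    have : k ≤ κ := le_csSup hNbd ⟨hκ0.trans hk, h1⟩
    linarith
  have hκP : κ ∉ P := by
    intro h1
    have h2 := hPo.mem_nhds h1
    obtain ⟨ε, hε, h3⟩ := Metric.mem_nhds_iff.1 h2
    obtain ⟨k, hk, hk2⟩ := exists_lt_of_lt_csSup ⟨_, hNE⟩ (show κ - ε < sSup N by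
      rw [← hκ]
      linarith)
    have h4 : k ≤ κ := le_csSup hNbd hk
    apply hk.2
    apply h3
    rw [Metric.mem_ball, Real.dist_eq, abs_lt]
    constructor <;> linarith
  obtain ⟨h3, h4, h5, h6⟩ := hfg κ
  -- limits from above
  have hmem : ∀ᶠ k in nhdsWithin κ (Ioi κ), k ∈ P :=
    Filter.eventually_of_mem self_mem_nhdsWithin habove
  have hf0 : ∀ x, 0 ≤ f κ x := by
    intro x
    have c1 : Continuous (fun k => f k x) := hfc.comp (continuous_id.prodMk continuous_const)
    have c2 : Filter.Tendsto (fun k => f k x) (nhdsWithin κ (Ioi κ)) (nhds (f κ x)) :=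
      c1.continuousAt.tendsto.mono_left nhdsWithin_le_nhds
    exact ge_of_tendsto c2 (hmem.mono fun k hk => (hPpos k hk x).le)
  have hg0 : 0 ≤ g κ R + κ * f κ R := by
    have c1 : Continuous (fun k' => g k' R + k' * f k' R) :=
      (hgc.comp (continuous_id.prodMk continuous_const)).add
        (continuous_id.mul (hfc.comp (continuous_id.prodMk continuous_const)))
    have c2 : Filter.Tendsto (fun k' => g k' R + k' * f k' R) (nhdsWithin κ (Ioi κ))
        (nhds (g κ R + κ * f κ R)) := c1.continuousAt.tendsto.mono_left nhdsWithin_le_nhds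
    exact ge_of_tendsto c2 (hmem.mono fun k hk => hk.2.2.le)
  -- positivity at `κ`
  have hpos : ∀ x, 0 < f κ x := by
    intro x
    rcases (hf0 x).lt_or_eq with h7 | h7
    · exact h7
    · exfalso
      have h8 : IsLocalMin (f κ) x := by
        filter_upwards with y
        rw [← h7]
        exact hf0 y
      have h9 : g κ x = 0 := h8.hasDerivAt_eq_zero (h5 x)
      have h10 := lin_ode_unique (q := fun x => κ ^ 2 - W x) (continuous_const.sub hW) h5 h6
        h7.symm h9 (-R)
      rw [h3] at h10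
      exact one_ne_zero h10.1
  have hgR : g κ R + κ * f κ R = 0 := by
    rcases hg0.lt_or_eq with h7 | h7
    · exact absurd ⟨hκ0, fun x _ => hpos x, h7⟩ hκP
    · exact h7.symm
  refine ⟨κ, R, fun x => g κ x / f κ x, ⟨hκ0, hR, Ground_ric h5 h6 hpos, ?_, ?_⟩, ?_⟩
  · intro x hx
    have h7 := (Ground_left hWl h5 h6 h3 h4 hx).2
    rw [h7, mul_div_assoc, div_self (hpos x).ne', mul_one]
  · intro x hx
    have h7 := Ground_right hWr h5 h6 hx
    rw [hgR, zero_mul] at h7
    rcases mul_eq_zero.1 h7 with h8 | h8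
    · have h9 : g κ x = -κ * f κ x := by linarith
      rw [h9, mul_div_assoc, div_self (hpos x).ne', mul_one]
    · exact absurd h8 (Real.exp_pos _).ne'
  · have h7 := Ground_nonneg hW h5 h6 hpos hv
    rw [Q_energy hW E (κ ^ 2) hv] at h7
    have h8 : 0 ≤ ∫ t, v t ^ 2 := integral_nonneg fun t => sq_nonneg _
    by_contra h9
    push Not at h9
    nlinarith

end Pool.Agent.CLR5
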