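import Pool.Agent.Lib.MP_efa090_mp.LT32

/-! Row LT2: lifting to `γ = 2` (Aizenman and Lieb) and localisation to a closed set. -/

open MeasureTheory Set Real

namespace Pool.Agent.CLR5

private theorem LT2_sqrt_cont (e : ℝ) : Continuous fun s : ℝ => Real.sqrt (e - s ^ 2) ^ 3 := by
  fun_prop

private theorem LT2_int_e {e S : ℝ} (he : 0 < e) (hS : Real.sqrt e ≤ S) :
    ∫ s in (0 : ℝ)..S, Real.sqrt (e - s ^ 2) ^ 3 = 3 * π / 16 * e ^ 2 := by
  set a : ℝ := Real.sqrt e with ha
  have ha0 : 0 < a := Real.sqrt_pos.2 he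
  have hae : a ^ 2 = e := Real.sq_sqrt he.le
  have hc := LT2_sqrt_cont e
  rw [← intervalIntegral.integral_add_adjacent_intervals (hc.intervalIntegrable 0 a)
    (hc.intervalIntegrable a S)]
  have h2 : ∫ s in a..S, Real.sqrt (e - s ^ 2) ^ 3 = 0 := by
    rw [intervalIntegral.integral_congr (g := fun _ => (0 : ℝ))]
    · simp
    · intro s hs
      rw [uIcc_of_le hS] at hs
      have h3 : e - s ^ 2 ≤ 0 := by
        have : a ^ 2 ≤ s ^ 2 := pow_le_pow_left₀ ha0.le hs.1 2
        linarith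
      show Real.sqrt (e - s ^ 2) ^ 3 = 0
      rw [Real.sqrt_eq_zero_of_nonpos h3]
      norm_num
  rw [h2, add_zero]
  have h1 := intervalIntegral.integral_eq_sub_of_hasDerivAt_of_le ha0.le
    (f := fun s => s / 8 * (5 * e - 2 * s ^ 2) * Real.sqrt (e - s ^ 2) +
      3 * e ^ 2 / 8 * Real.arcsin (s / a)) (f' := fun s => Real.sqrt (e - s ^ 2) ^ 3)
    (by fun_prop) ?_ (hc.intervalIntegrable 0 a)
  · rw [h1]
    have h3 : e - a ^ 2 = 0 := by rw [hae]; ring
    simp only [h3, Real.sqrt_zero, mul_zero, zero_add, div_self ha0.ne', Real.arcsin_one, zero_div,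
      zero_mul, Real.arcsin_zero, sub_zero]
    ring
  · intro s hs
    have hs2 : s ^ 2 < e := by
      rw [← hae]
      exact pow_lt_pow_left₀ hs.2 hs.1.le (by norm_num)
    have hpos : 0 < e - s ^ 2 := by linarith
    set r : ℝ := Real.sqrt (e - s ^ 2) with hr
    have hr0 : 0 < r := Real.sqrt_pos.2 hpos
    have hr2 : r ^ 2 = e - s ^ 2 := Real.sq_sqrt hpos.le
    have d0 : HasDerivAt (fun s : ℝ => e - s ^ 2) (-(2 * s)) s := by
      have := (hasDerivAt_pow 2 s).const_sub e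
      simpa using this
    have d1 : HasDerivAt (fun s : ℝ => Real.sqrt (e - s ^ 2)) (-(2 * s) / (2 * r)) s :=
      d0.sqrt hpos.ne'
    have d2 : HasDerivAt (fun s : ℝ => s / 8 * (5 * e - 2 * s ^ 2))
        (1 / 8 * (5 * e - 2 * s ^ 2) + s / 8 * (-(4 * s))) s := by
      have e1 : HasDerivAt (fun s : ℝ => s / 8) (1 / 8) s := (hasDerivAt_id s).div_const 8
      have e2 : HasDerivAt (fun s : ℝ => 5 * e - 2 * s ^ 2) (-(4 * s)) s := by
        have := ((hasDerivAt_pow 2 s).const_mul 2).const_sub (5 * e)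
        refine this.congr_deriv ?_
        push_cast
        ring
      exact e1.mul e2
    have d3 : HasDerivAt (fun s : ℝ => Real.arcsin (s / a)) (1 / r) s := by
      have e1 : HasDerivAt (fun s : ℝ => s / a) (1 / a) s := (hasDerivAt_id s).div_const a
      have hlt : s / a < 1 := (div_lt_one ha0).2 hs.2
      have hgt : 0 < s / a := div_pos hs.1 ha0
      have e2 := (Real.hasDerivAt_arcsin (x := s / a) (by intro h; linarith) hlt.ne).comp s e1
      have e3 : Real.sqrt (1 - (s / a) ^ 2) = r / a := by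
        have e4 : 1 - (s / a) ^ 2 = (r / a) ^ 2 := by
          rw [div_pow, div_pow, hr2, ← hae]
          field_simp
        rw [e4, Real.sqrt_sq (by positivity)]
      rw [e3] at e2
      refine e2.congr_deriv ?_
      field_simp
    have d4 := (d2.mul d1).add (d3.const_mul (3 * e ^ 2 / 8))
    have he' : e = r ^ 2 + s ^ 2 := by rw [hr2]; ring
    refine HasDerivAt.congr_deriv d4 ?_
    rw [← hr]
    clear_value r
    rw [he']
    field_simp
    ring

private theorem LT2_int_w {w S : ℝ} (hw : 0 ≤ w) (hS : Real.sqrt w ≤ S) :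
    ∫ s in (0 : ℝ)..S, max (w - s ^ 2) 0 ^ 2 = 8 / 15 * w ^ ((5 : ℝ) / 2) := by
  set a : ℝ := Real.sqrt w with ha
  have ha0 : 0 ≤ a := Real.sqrt_nonneg _
  have haw : a ^ 2 = w := Real.sq_sqrt hw
  have hc : Continuous fun s : ℝ => max (w - s ^ 2) 0 ^ 2 := by fun_prop
  rw [← intervalIntegral.integral_add_adjacent_intervals (hc.intervalIntegrable 0 a)
    (hc.intervalIntegrable a S)]
  have h2 : ∫ s in a..S, max (w - s ^ 2) 0 ^ 2 = 0 := by
    rw [intervalIntegral.integral_congr (g := fun _ => (0 : ℝ))]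
    · simp
    · intro s hs
      rw [uIcc_of_le hS] at hs
      have h3 : w - s ^ 2 ≤ 0 := by
        have : a ^ 2 ≤ s ^ 2 := pow_le_pow_left₀ ha0 hs.1 2
        linarith
      show max (w - s ^ 2) 0 ^ 2 = 0
      rw [max_eq_right h3]
      norm_num
  have h1 : ∫ s in (0 : ℝ)..a, max (w - s ^ 2) 0 ^ 2 = ∫ s in (0 : ℝ)..a,
      (w ^ 2 - 2 * w * s ^ 2 + s ^ 4) := by
    refine intervalIntegral.integral_congr fun s hs => ?_
    rw [uIcc_of_le ha0] at hs
    have h3 : 0 ≤ w - s ^ 2 := by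
      have : s ^ 2 ≤ a ^ 2 := pow_le_pow_left₀ hs.1 hs.2 2
      linarith
    show max (w - s ^ 2) 0 ^ 2 = w ^ 2 - 2 * w * s ^ 2 + s ^ 4
    rw [max_eq_left h3]
    ring
  rw [h2, add_zero, h1]
  have h4 : ∫ s in (0 : ℝ)..a, (w ^ 2 - 2 * w * s ^ 2 + s ^ 4) =
      w ^ 2 * a - 2 * w * (a ^ 3 / 3) + a ^ 5 / 5 := by
    rw [intervalIntegral.integral_add (Continuous.intervalIntegrable (by fun_prop) _ _)
      (Continuous.intervalIntegrable (by fun_prop) _ _),
      intervalIntegral.integral_sub (Continuous.intervalIntegrable (by fun_prop) _ _)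
      (Continuous.intervalIntegrable (by fun_prop) _ _), intervalIntegral.integral_const_mul,
      integral_pow, integral_pow, intervalIntegral.integral_const, smul_eq_mul]
    push_cast
    ring
  rw [h4]
  have h5 : w ^ ((5 : ℝ) / 2) = a ^ 5 := by
    rw [ha, Real.sqrt_eq_rpow, ← Real.rpow_natCast, ← Real.rpow_mul hw]
    norm_num
  rw [h5, ← haw]
  ring

/-- Lifting: `lt32` for `max (W - s^2) 0` and `e - s^2` (monotone relabelling by `Neg.mono_n` is not
needed, `lt32` allows `e i <= 0`), integrated over `s > 0`: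
`2 ∫_0^oo sqrt(e - s^2)^3 ds = (3 pi / 8) e^2`, `2 ∫_0^oo max(W - s^2) 0 ^2 ds = (16/15) W^(5/2)`. -/
theorem lt2_line (n : ℕ) {W : ℝ → ℝ} (hW : Nice W) (e : Fin n → ℝ) (he : ∀ i, 0 < e i)
    (h : ∀ i : Fin n, Neg W (e i) univ (i + 1)) :
    ∑ i, e i ^ 2 ≤ 8 / (15 * π) * ∫ x, W x ^ ((5 : ℝ) / 2) := by
  obtain ⟨C, hC⟩ := hW.cs.exists_bound_of_continuous hW.cont
  have hC' : ∀ x, W x ≤ |C| := fun x => (le_abs_self _).trans ((hC x).trans (le_abs_self _))
  set S : ℝ := 1 + ∑ i, e i + |C| with hS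
  have hsum0 : 0 ≤ ∑ i, e i := Finset.sum_nonneg fun i _ => (he i).le
  have hS1 : 1 ≤ S := by
    have := abs_nonneg C
    linarith
  have hS0 : 0 ≤ S := by linarith
  have hSS : S ≤ S ^ 2 := by nlinarith
  have hSe : ∀ i, Real.sqrt (e i) ≤ S := by
    intro i
    refine Real.sqrt_le_iff.2 ⟨hS0, ?_⟩
    have h1 : e i ≤ ∑ i, e i := Finset.single_le_sum (fun j _ => (he j).le) (Finset.mem_univ i)
    have := abs_nonneg C
    linarith
  have hSW : ∀ x, Real.sqrt (W x) ≤ S := by
    intro x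
    refine Real.sqrt_le_iff.2 ⟨hS0, ?_⟩
    have := hC' x
    linarith
  have hcont : Continuous fun p : ℝ × ℝ => max (W p.2 - p.1 ^ 2) 0 ^ 2 := by
    have := hW.cont
    fun_prop
  have hI : IntegrableOn (fun p : ℝ × ℝ => max (W p.2 - p.1 ^ 2) 0 ^ 2)
      (Icc 0 S ×ˢ tsupport W) (volume.prod volume) :=
    hcont.continuousOn.integrableOn_compact (isCompact_Icc.prod hW.cs)
  have hI2 : IntegrableOn (fun p : ℝ × ℝ => max (W p.2 - p.1 ^ 2) 0 ^ 2)
      (Ioc 0 S ×ˢ univ) (volume.prod volume) := by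
    refine hI.of_forall_sdiff_eq_zero (measurableSet_Ioc.prod MeasurableSet.univ) ?_
    rintro ⟨s, x⟩ ⟨⟨h1, -⟩, h2⟩
    have h3 : x ∉ tsupport W := fun h3 => h2 ⟨Ioc_subset_Icc_self h1, h3⟩
    have h4 : W x = 0 := image_eq_zero_of_notMem_tsupport h3
    show max (W x - s ^ 2) 0 ^ 2 = 0
    rw [h4, max_eq_right (by nlinarith)]
    norm_num
  have hI3 : Integrable (fun p : ℝ × ℝ => max (W p.2 - p.1 ^ 2) 0 ^ 2)
      ((volume.restrict (Ioc 0 S)).prod volume) := by
    have : ((volume : Measure ℝ).restrict (Ioc 0 S)).prod (volume : Measure ℝ) =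
        ((volume : Measure ℝ).prod volume).restrict (Ioc 0 S ×ˢ univ) := by
      rw [← Measure.prod_restrict, Measure.restrict_univ]
    rw [this]
    exact hI2
  have hG : IntervalIntegrable (fun s : ℝ => ∫ x, max (W x - s ^ 2) 0 ^ 2) volume 0 S := by
    rw [intervalIntegrable_iff_integrableOn_Ioc_of_le hS0]
    exact hI3.integral_prod_left
  have key : ∀ s : ℝ, ∑ i, Real.sqrt (e i - s ^ 2) ^ 3 ≤
      3 / 16 * ∫ x, max (W x - s ^ 2) 0 ^ 2 := by
    intro s
    have hWs : Continuous fun x => max (W x - s ^ 2) 0 := by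
      have := hW.cont
      fun_prop
    refine lt32 n hWs ?_ (fun i => e i - s ^ 2) fun i hi => ?_
    · refine hW.cs.mono' ?_
      intro x hx
      by_contra h1
      apply hx
      have h2 : W x = 0 := image_eq_zero_of_notMem_tsupport h1
      show max (W x - s ^ 2) 0 = 0
      rw [h2, max_eq_right (by nlinarith [sq_nonneg s])]
    · refine Neg.mono_W hW.cont hWs (fun t _ => ?_) (h i)
      have := le_max_left (W t - s ^ 2) 0
      linarith
  have hF : ∀ i, IntervalIntegrable (fun s : ℝ => Real.sqrt (e i - s ^ 2) ^ 3) volume 0 S :=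
    fun i => (LT2_sqrt_cont (e i)).intervalIntegrable 0 S
  have h1 : ∫ s in (0 : ℝ)..S, ∑ i, Real.sqrt (e i - s ^ 2) ^ 3 ≤
      ∫ s in (0 : ℝ)..S, 3 / 16 * ∫ x, max (W x - s ^ 2) 0 ^ 2 := by
    refine intervalIntegral.integral_mono_on hS0 ?_ (hG.const_mul _) fun s _ => key s
    exact (continuous_finsetSum _ fun i _ => LT2_sqrt_cont (e i)).intervalIntegrable 0 S
  rw [intervalIntegral.integral_finsetSum fun i _ => hF i, intervalIntegral.integral_const_mul]
    at h1
  have h2 : ∑ i, ∫ s in (0 : ℝ)..S, Real.sqrt (e i - s ^ 2) ^ 3 = 3 * π / 16 * ∑ i, e i ^ 2 := by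
    rw [Finset.mul_sum]
    exact Finset.sum_congr rfl fun i _ => LT2_int_e (he i) (hSe i)
  have h3 : ∫ s in (0 : ℝ)..S, ∫ x, max (W x - s ^ 2) 0 ^ 2 =
      8 / 15 * ∫ x, W x ^ ((5 : ℝ) / 2) := by
    rw [intervalIntegral.integral_of_le hS0,
      integral_integral_swap (f := fun s x => max (W x - s ^ 2) 0 ^ 2) hI3, ← integral_const_mul]
    congr 1
    funext x
    rw [← intervalIntegral.integral_of_le hS0]
    exact LT2_int_w (hW.nonneg x) (hSW x)
  rw [h2, h3] at h1
  have hpi := Real.pi_pos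
  have h4 : π * ∑ i, e i ^ 2 ≤ 8 / 15 * ∫ x, W x ^ ((5 : ℝ) / 2) := by linarith
  calc ∑ i, e i ^ 2 = (π * ∑ i, e i ^ 2) / π := by field_simp
    _ ≤ (8 / 15 * ∫ x, W x ^ ((5 : ℝ) / 2)) / π := by gcongr
    _ = 8 / (15 * π) * ∫ x, W x ^ ((5 : ℝ) / 2) := by field_simp

theorem lt2_b_int {W : ℝ → ℝ} (hW : Nice W) : Integrable (fun x => W x ^ ((5 : ℝ) / 2)) := by
  have hc : Continuous (fun x => W x ^ ((5 : ℝ) / 2)) :=
    hW.cont.rpow_const (fun x => Or.inr (by norm_num))
  have hs : HasCompactSupport (fun x => W x ^ ((5 : ℝ) / 2)) :=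
    hW.cs.comp_left (g := fun y : ℝ => y ^ ((5 : ℝ) / 2)) (Real.zero_rpow (by norm_num))
  exact hc.integrable_of_hasCompactSupport hs

/-- Localisation: apply `lt2_line` to `W max 0 (1 - m dist(x, Y))`, `m → oo`. -/
theorem lt2 (n : ℕ) {W : ℝ → ℝ} (hW : Nice W) {Y : Set ℝ} (hY : IsClosed Y) (e : Fin n → ℝ)
    (he : ∀ i, 0 < e i) (h : ∀ i : Fin n, Neg W (e i) Y (i + 1)) :
    ∑ i, e i ^ 2 ≤ 8 / (15 * π) * cost W Y := by
  classical
  have hδ : ∀ m : ℕ, (0 : ℝ) < 1 / ((m : ℝ) + 1) := fun m => by positivity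
  set φ : ℕ → ℝ → ℝ := fun m x => ((thickenedIndicator (hδ m) Y x : NNReal) : ℝ) with hφ
  have hφ0 : ∀ m x, 0 ≤ φ m x := fun m x => NNReal.coe_nonneg _
  have hφ1 : ∀ m x, φ m x ≤ 1 := fun m x => by
    have h1 := thickenedIndicator_le_one (hδ m) Y x
    have h2 : ((thickenedIndicator (hδ m) Y x : NNReal) : ℝ) ≤ ((1 : NNReal) : ℝ) :=
      NNReal.coe_le_coe.2 h1
    rw [NNReal.coe_one] at h2
    exact h2
  have hφY : ∀ m x, x ∈ Y → φ m x = 1 := fun m x hx => by
    have := thickenedIndicator_one (hδ m) Y hx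
    simp only [hφ, this, NNReal.coe_one]
  have hφc : ∀ m, Continuous (φ m) := fun m =>
    NNReal.continuous_coe.comp (thickenedIndicator (hδ m) Y).continuous
  have hφt : ∀ x, Filter.Tendsto (fun m => φ m x) Filter.atTop
      (nhds (Y.indicator (fun _ => (1 : ℝ)) x)) := by
    intro x
    have h1 := thickenedIndicator_tendsto_indicator_closure hδ
      tendsto_one_div_add_atTop_nhds_zero_nat Y
    rw [hY.closure_eq, tendsto_pi_nhds] at h1
    have h2 := (NNReal.continuous_coe.tendsto _).comp (h1 x)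
    have h3 : ((Y.indicator (fun _ => (1 : NNReal)) x : NNReal) : ℝ) =
        Y.indicator (fun _ => (1 : ℝ)) x := by
      by_cases hx : x ∈ Y
      · rw [Set.indicator_of_mem hx, Set.indicator_of_mem hx, NNReal.coe_one]
      · rw [Set.indicator_of_notMem hx, Set.indicator_of_notMem hx, NNReal.coe_zero]
    rw [h3] at h2
    exact h2
  have hN : ∀ m, Nice (fun x => W x * φ m x) := fun m =>
    { cont := hW.cont.mul (hφc m)
      cs := hW.cs.mul_right
      nonneg := fun t => mul_nonneg (hW.nonneg t) (hφ0 m t) }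
  have hneg : ∀ m, ∀ i : Fin n, Neg (fun x => W x * φ m x) (e i) univ (i + 1) := by
    intro m i
    obtain ⟨L, hL⟩ := h i
    refine ⟨L, fun c => ⟨(hL c).1, fun t ht => absurd (mem_univ t) ht, fun hc => ?_⟩⟩
    have h1 := (hL c).2.2 hc
    have h2 : Q (fun x => W x * φ m x) (e i) (L c) = Q W (e i) (L c) := by
      unfold Q
      congr 1
      funext t
      show deriv (L c) t ^ 2 + e i * L c t ^ 2 - (W t * φ m t) * L c t ^ 2 =
        deriv (L c) t ^ 2 + e i * L c t ^ 2 - W t * L c t ^ 2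
      by_cases ht : t ∈ Y
      · rw [hφY m t ht, mul_one]
      · rw [(hL c).2.1 t ht]
        ring
    rw [h2]
    exact h1
  have hle : ∀ m, ∑ i, e i ^ 2 ≤
      8 / (15 * π) * ∫ x, (W x * φ m x) ^ ((5 : ℝ) / 2) := fun m =>
    lt2_line n (hN m) e he (hneg m)
  have hlim : Filter.Tendsto (fun m => ∫ x, (W x * φ m x) ^ ((5 : ℝ) / 2)) Filter.atTop
      (nhds (∫ x, Y.indicator (fun x => W x ^ ((5 : ℝ) / 2)) x)) := by
    apply tendsto_integral_of_dominated_convergence (fun x => W x ^ ((5 : ℝ) / 2))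
    · intro m
      exact (((hN m).cont.rpow_const (fun x => Or.inr (by norm_num))).aestronglyMeasurable)
    · exact lt2_b_int hW
    · intro m
      refine Filter.Eventually.of_forall fun x => ?_
      have h1 : 0 ≤ W x * φ m x := (hN m).nonneg x
      rw [Real.norm_eq_abs, abs_of_nonneg (Real.rpow_nonneg h1 _)]
      exact Real.rpow_le_rpow h1 (mul_le_of_le_one_right (hW.nonneg x) (hφ1 m x)) (by norm_num)
    · refine Filter.Eventually.of_forall fun x => ?_
      have h1 : Filter.Tendsto (fun m => W x * φ m x) Filter.atTop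
          (nhds (W x * Y.indicator (fun _ => (1 : ℝ)) x)) := (hφt x).const_mul _
      have h2 := ((Real.continuous_rpow_const (q := (5 : ℝ) / 2) (by norm_num)).tendsto _).comp h1
      have h3 : (W x * Y.indicator (fun _ => (1 : ℝ)) x) ^ ((5 : ℝ) / 2) =
          Y.indicator (fun x => W x ^ ((5 : ℝ) / 2)) x := by
        by_cases hx : x ∈ Y
        · rw [Set.indicator_of_mem hx, Set.indicator_of_mem hx, mul_one]
        · rw [Set.indicator_of_notMem hx, Set.indicator_of_notMem hx, mul_zero,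
            Real.zero_rpow (by norm_num)]
      rw [h3] at h2
      exact h2
  have hcost : ∫ x, Y.indicator (fun x => W x ^ ((5 : ℝ) / 2)) x = cost W Y :=
    integral_indicator hY.measurableSet
  rw [hcost] at hlim
  exact ge_of_tendsto' (hlim.const_mul (8 / (15 * π))) hle

end Pool.Agent.CLR5
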