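import Pool.Agent.Lib.MP_efa090_mp.Ground
import Pool.Agent.Lib.MP_efa090_mp.Drop

/-! Row LT32: the sharp one-dimensional Lieb-Thirring inequality for `γ = 3/2` (known; proof by
commutation after Benguria and Loss). -/

open MeasureTheory Set Real

namespace Pool.Agent.CLR5

/-- One member of a negative space. -/
theorem lt32_vec {W : ℝ → ℝ} {E : ℝ} {n : ℕ} (h : Neg W E univ (n + 1)) :
    ∃ v : ℝ → ℝ, Tst v ∧ Q W E v < 0 := by
  obtain ⟨L, hL⟩ := h
  have h1 : (fun _ : Fin (n + 1) => (1 : ℝ)) ≠ 0 := by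
    intro h0
    have := congrFun h0 0
    simp at this
  exact ⟨L (fun _ => 1), (hL _).1, (hL _).2.2 h1⟩

/-- Induction on `n` over all `W`. -/
theorem lt32 (n : ℕ) {W : ℝ → ℝ} (hW : Continuous W) (hc : HasCompactSupport W) (e : Fin n → ℝ)
    (h : ∀ i : Fin n, 0 < e i → Neg W (e i) univ (i + 1)) :
    ∑ i, Real.sqrt (e i) ^ 3 ≤ 3 / 16 * ∫ x, W x ^ 2 := by
  induction n generalizing W with
  | zero =>
    simp only [Finset.univ_eq_empty, Finset.sum_empty]
    exact mul_nonneg (by norm_num) (integral_nonneg fun x => sq_nonneg (W x))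
  | succ n ih =>
    by_cases h0 : ∃ i, 0 < e i
    · obtain ⟨κ, R, F, hF, he0⟩ : ∃ κ R : ℝ, ∃ F : ℝ → ℝ, Gst W κ R F ∧ e 0 < κ ^ 2 := by
        by_cases he : 0 < e 0
        · obtain ⟨v, hv, hQ⟩ := lt32_vec (h 0 he)
          exact ground hW hc hv he hQ
        · obtain ⟨i, hi⟩ := h0
          obtain ⟨v, hv, hQ⟩ := lt32_vec (h i hi)
          obtain ⟨κ, R, F, hF, -⟩ := ground hW hc hv hi hQ
          refine ⟨κ, R, F, hF, lt_of_le_of_lt (not_lt.mp he) ?_⟩
          have := hF.kpos
          positivity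
      have hn := comm_nice hW hF
      have h1 := ih hn.1 hn.2 (fun i => e i.succ) (fun i hi => by
        have h2 := h i.succ hi
        rw [Fin.val_succ] at h2
        exact index_drop hW hc hF h2)
      rw [comm_sq hW hc hF] at h1
      rw [Fin.sum_univ_succ]
      have h3 : Real.sqrt (e 0) ≤ κ := by
        rw [Real.sqrt_le_left hF.kpos.le]
        exact he0.le
      have h4 : Real.sqrt (e 0) ^ 3 ≤ κ ^ 3 := pow_le_pow_left₀ (Real.sqrt_nonneg _) h3 3
      linarith
    · push Not at h0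
      have h1 : ∀ i, Real.sqrt (e i) ^ 3 = 0 := fun i => by
        rw [Real.sqrt_eq_zero_of_nonpos (h0 i)]
        norm_num
      simp only [h1, Finset.sum_const_zero]
      exact mul_nonneg (by norm_num) (integral_nonneg fun x => sq_nonneg (W x))

end Pool.Agent.CLR5
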