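import Pool.Agent.Lib.MP_efa090_mp.LT2

/-! Row Layer: the layered form of `lt2`. -/

open MeasureTheory Set Real

namespace Pool.Agent.CLR5

private theorem Layer_tel (eps : ℕ → ℝ) (m : ℕ) :
    ∑ l ∈ Finset.range (m + 1), (eps l ^ 2 - (if l = 0 then 0 else eps (l - 1) ^ 2)) = eps m ^ 2 := by
  induction m with
  | zero => simp
  | succ m ih =>
    rw [Finset.sum_range_succ, ih]
    simp

private theorem Layer_card (n m : ℕ) (h : m ≤ n) :
    ∑ i : Fin n, (if (i : ℕ) < m then (1 : ℝ) else 0) = m := by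
  have h1 := Fin.sum_univ_eq_sum_range (fun i : ℕ => if i < m then (1 : ℝ) else 0) n
  rw [h1, Finset.sum_ite, Finset.sum_const_zero, add_zero, Finset.sum_const, nsmul_eq_mul, mul_one]
  have h2 : (Finset.range n).filter (fun i => i < m) = Finset.range m := by
    ext i
    simp only [Finset.mem_filter, Finset.mem_range]
    omega
  rw [h2, Finset.card_range]

/-- Energies `eps 0 <= eps 1 <= ...`, `N l` states below `-eps l`. State `i` gets the energy
`eps l` for the largest `l < L` with `i < N l`. -/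
theorem lt_layer {W : ℝ → ℝ} (hW : Nice W) {Y : Set ℝ} (hY : IsClosed Y) (L : ℕ) {eps : ℕ → ℝ}
    (h0 : 0 < eps 0) (hm : Monotone eps) {N : ℕ → ℕ} (hN : ∀ l < L, Neg W (eps l) Y (N l)) :
    ∑ l ∈ Finset.range L, (eps l ^ 2 - (if l = 0 then 0 else eps (l - 1) ^ 2)) * (N l : ℝ) ≤
      8 / (15 * π) * cost W Y := by
  classical
  have hpos : ∀ l, 0 < eps l := fun l => h0.trans_le (hm (Nat.zero_le l))
  obtain ⟨D, hD⟩ : ∃ D : ℕ → ℝ, D = fun l => eps l ^ 2 - (if l = 0 then 0 else eps (l - 1) ^ 2) :=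
    ⟨_, rfl⟩
  have hDnn : ∀ l, 0 ≤ D l := by
    intro l
    rw [hD]
    by_cases hl : l = 0
    · simp only [hl, if_true, sub_zero]; positivity
    · simp only [hl, if_false]
      have h1 : eps (l - 1) ≤ eps l := hm (Nat.sub_le l 1)
      have h2 := pow_le_pow_left₀ (hpos (l - 1)).le h1 2
      linarith
  have htel : ∀ m, ∑ l ∈ Finset.range (m + 1), D l = eps m ^ 2 := by
    intro m; rw [hD]; exact Layer_tel eps m
  obtain ⟨n, hn⟩ : ∃ n : ℕ, n = (Finset.range L).sup N := ⟨_, rfl⟩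
  have hNn : ∀ l ∈ Finset.range L, N l ≤ n := fun l hl => hn ▸ Finset.le_sup hl
  have hex : ∀ i : Fin n, ((Finset.range L).filter fun l => (i : ℕ) < N l).Nonempty := by
    intro i
    have h1 : (i : ℕ) < (Finset.range L).sup N := hn ▸ i.2
    obtain ⟨l, hl, h2⟩ := Finset.lt_sup_iff.1 h1
    exact ⟨l, Finset.mem_filter.2 ⟨hl, h2⟩⟩
  obtain ⟨lam, hlam⟩ : ∃ lam : Fin n → ℕ, lam = fun i => Finset.max' _ (hex i) := ⟨_, rfl⟩
  have hl1 : ∀ i, lam i < L ∧ (i : ℕ) < N (lam i) := by
    intro i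
    have h1 := Finset.max'_mem _ (hex i)
    rw [Finset.mem_filter, Finset.mem_range] at h1
    rw [hlam]; exact h1
  have hl2 : ∀ i : Fin n, ∀ l < L, (i : ℕ) < N l → l ≤ lam i := by
    intro i l hl h
    rw [hlam]
    exact Finset.le_max' _ _ (Finset.mem_filter.2 ⟨Finset.mem_range.2 hl, h⟩)
  have hlt := lt2 n hW hY (fun i => eps (lam i)) (fun i => hpos _)
    (fun i => (hN _ (hl1 i).1).mono_n (hl1 i).2)
  refine le_trans ?_ hlt
  calc ∑ l ∈ Finset.range L, (eps l ^ 2 - (if l = 0 then 0 else eps (l - 1) ^ 2)) * (N l : ℝ)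
      = ∑ l ∈ Finset.range L, D l * (N l : ℝ) := by rw [hD]
    _ = ∑ l ∈ Finset.range L, ∑ i : Fin n, (if (i : ℕ) < N l then D l else 0) := by
        refine Finset.sum_congr rfl fun l hl => ?_
        rw [← Layer_card n (N l) (hNn l hl), Finset.mul_sum]
        refine Finset.sum_congr rfl fun i _ => ?_
        split_ifs <;> simp
    _ = ∑ i : Fin n, ∑ l ∈ Finset.range L, (if (i : ℕ) < N l then D l else 0) := Finset.sum_comm
    _ ≤ ∑ i : Fin n, eps (lam i) ^ 2 := by
        refine Finset.sum_le_sum fun i _ => ?_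
        rw [← htel (lam i), ← Finset.sum_filter]
        refine Finset.sum_le_sum_of_subset_of_nonneg ?_ fun l _ _ => hDnn l
        intro l hl
        rw [Finset.mem_filter, Finset.mem_range] at hl
        rw [Finset.mem_range]
        have := hl2 i l hl.1 hl.2
        omega

end Pool.Agent.CLR5
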