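import Pool.Agent.Lib.MP_efa090_mp.Tst2
import Pool.Agent.Lib.MP_efa090_mp.NegA
import Pool.Agent.Lib.MP_efa090_mp.Ode

/-! Rows Nodes_a .. Nodes_d: nodal cells at energy `-E` (Sturm oscillation). -/

open MeasureTheory Set Real

namespace Pool.Agent.CLR5

/-- A solution of `f'' = (E - W) f` which decays at `-oo`, with finitely many zeros. -/
structure Nodal (W : ℝ → ℝ) (E R : ℝ) (f g : ℝ → ℝ) : Prop where
  Rpos : 0 < R
  hf : ∀ x, HasDerivAt f (g x) x
  hg : ∀ x, HasDerivAt g ((E - W x) * f x) x
  left : ∀ x, x ≤ -R → W x = 0 ∧ f x = Real.exp (Real.sqrt E * (x + R)) ∧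
    g x = Real.sqrt E * Real.exp (Real.sqrt E * (x + R))
  fin : {x | f x = 0}.Finite
  simple : ∀ x, f x = 0 → g x ≠ 0

private theorem Nodes_a_supp {W : ℝ → ℝ} (hW : Nice W) :
    ∃ R : ℝ, 0 < R ∧ ∀ x, R ≤ |x| → W x = 0 := by
  obtain ⟨r, hr⟩ := hW.cs.isCompact.isBounded.subset_closedBall (0 : ℝ)
  refine ⟨max r 0 + 1, by positivity, fun x hx => ?_⟩
  by_contra h
  have h1 : x ∈ tsupport W := subset_tsupport _ h
  have h2 := hr h1
  rw [mem_closedBall_zero_iff, Real.norm_eq_abs] at h2
  linarith [le_max_left r 0]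

private theorem Nodes_a_const {u u' : ℝ → ℝ} {a b : ℝ} (hab : a ≤ b)
    (hu : ∀ x, HasDerivAt u (u' x) x) (h0 : ∀ x, x ≤ b → u' x = 0) : u b = u a := by
  have h := constant_of_has_deriv_right_zero (f := u) (a := a) (b := b)
    (fun x _ => (hu x).continuousAt.continuousWithinAt) (fun x hx => by
      have h1 := (hu x).hasDerivWithinAt (s := Ici x)
      rwa [h0 x hx.2.le] at h1)
  exact h b ⟨hab, le_rfl⟩

/-- the decaying solution on the left -/
private theorem Nodes_a_left {W f g : ℝ → ℝ} {k R : ℝ} (hW : ∀ x, x ≤ -R → W x = 0)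
    (hf : ∀ x, HasDerivAt f (g x) x) (hg : ∀ x, HasDerivAt g ((k ^ 2 - W x) * f x) x)
    (h0 : f (-R) = 1) (h1 : g (-R) = k) (x : ℝ) (hx : x ≤ -R) :
    f x = Real.exp (k * (x + R)) ∧ g x = k * Real.exp (k * (x + R)) := by
  have hexp : ∀ (c y : ℝ), HasDerivAt (fun z => Real.exp (c * z)) (c * Real.exp (c * y)) y := by
    intro c y
    have h2 : HasDerivAt (fun z : ℝ => c * z) c y := by
      simpa using (hasDerivAt_id y).const_mul c
    have h3 := h2.exp
    rwa [mul_comm] at h3
  have h2 : ∀ y, y ≤ -R → g y = k * f y := by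
    intro y hy
    have h3 : ∀ z, HasDerivAt (fun z => (g z - k * f z) * Real.exp (k * z))
        (((k ^ 2 - W z) * f z - k * g z) * Real.exp (k * z) +
          (g z - k * f z) * (k * Real.exp (k * z))) z := fun z =>
      ((hg z).sub ((hf z).const_mul k)).mul (hexp k z)
    have h4 := Nodes_a_const hy h3 (fun z hz => by rw [hW z hz]; ring)
    simp only [h0, h1] at h4
    have h5 : (g y - k * f y) * Real.exp (k * y) = 0 := by rw [← h4]; ring
    have h6 := (mul_eq_zero.1 h5).resolve_right (Real.exp_pos _).ne'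
    linarith
  have h3 : ∀ z, HasDerivAt (fun z => f z * Real.exp (-k * z))
      (g z * Real.exp (-k * z) + f z * (-k * Real.exp (-k * z))) z := fun z =>
    (hf z).mul (hexp (-k) z)
  have h4 := Nodes_a_const hx h3 (fun z hz => by rw [h2 z hz]; ring)
  simp only [h0] at h4
  have h5 : f x = Real.exp (k * (x + R)) := by
    have h6 : f x * Real.exp (-k * x) * Real.exp (k * x) = f x := by
      rw [mul_assoc, ← Real.exp_add]
      have : -k * x + k * x = 0 := by ring
      rw [this, Real.exp_zero, mul_one]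
    rw [← h6, ← h4, one_mul, ← Real.exp_add]
    congr 1
    ring
  exact ⟨h5, by rw [h2 x hx, h5]⟩

/-- Row Nodes_a. `f` from `lin_ode_param` with `k = sqrt E` at `-R` (uniqueness on the left of `-R`);
the zeros are simple (`lin_ode_unique`), hence isolated; on the right of the support of `W`,
`f = α exp (k x) + β exp (-k x)` has at most one zero. -/
theorem exists_nodal {W : ℝ → ℝ} (hW : Nice W) {E : ℝ} (hE : 0 < E) :
    ∃ (R : ℝ) (f g : ℝ → ℝ), Nodal W E R f g := by
  obtain ⟨R, hR, hWR⟩ := Nodes_a_supp hW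
  obtain ⟨f, g, h, -, -⟩ := lin_ode_param hW.cont (-R)
  obtain ⟨h0, h1, hf, hg⟩ := h (Real.sqrt E)
  have hE2 : Real.sqrt E ^ 2 = E := Real.sq_sqrt hE.le
  have hWl : ∀ x, x ≤ -R → W x = 0 := fun x hx => hWR x (by
    rw [abs_of_nonpos (by linarith)]; linarith)
  have hWr : ∀ x, R ≤ x → W x = 0 := fun x hx => hWR x (by
    rw [abs_of_nonneg (by linarith)]; linarith)
  have hleft := Nodes_a_left hWl hf hg h0 h1
  have hg' : ∀ x, HasDerivAt (g (Real.sqrt E)) ((E - W x) * f (Real.sqrt E) x) x := by
    intro x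
    have h2 := hg x
    rwa [hE2] at h2
  have hsimple : ∀ x, f (Real.sqrt E) x = 0 → g (Real.sqrt E) x ≠ 0 := by
    intro x hx hx'
    have h2 := (lin_ode_unique (q := fun y => E - W y) (continuous_const.sub hW.cont) hf hg' hx
      hx' (-R)).1
    rw [h0] at h2
    exact one_ne_zero h2
  refine ⟨R, f (Real.sqrt E), g (Real.sqrt E), hR, hf, hg',
    fun x hx => ⟨hWl x hx, hleft x hx⟩, ?_, hsimple⟩
  have hfc : Continuous (f (Real.sqrt E)) :=
    continuous_iff_continuousAt.2 fun x => (hf x).continuousAt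
  -- zeros on the right
  have hright : {x | f (Real.sqrt E) x = 0 ∧ R ≤ x}.Finite := by
    apply Set.Subsingleton.finite
    have hmono : StrictMonoOn (fun x => f (Real.sqrt E) x * g (Real.sqrt E) x) (Ici R) := by
      apply strictMonoOn_of_deriv_pos (convex_Ici R)
      · exact fun x _ => ((hf x).mul (hg' x)).continuousAt.continuousWithinAt
      · intro x hx
        rw [interior_Ici] at hx
        have h2 := ((hf x).mul (hg' x)).deriv
        rw [hWr x (le_of_lt hx)] at h2
        have h3 : deriv (fun x => f (Real.sqrt E) x * g (Real.sqrt E) x) x =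
          g (Real.sqrt E) x ^ 2 + E * f (Real.sqrt E) x ^ 2 := by
          refine Eq.trans h2 ?_
          ring
        rw [h3]
        by_cases hx0 : f (Real.sqrt E) x = 0
        · have := hsimple x hx0
          positivity
        · positivity
    rintro a ⟨ha, haR⟩ b ⟨hb, hbR⟩
    exact hmono.injOn haR hbR (by simp [ha, hb])
  -- zeros in the middle
  have hmid : {x | f (Real.sqrt E) x = 0 ∧ x ∈ Icc (-R) R}.Finite := by
    by_contra hinf
    obtain ⟨x, hx, hacc⟩ := Set.Infinite.exists_accPt_of_subset_isCompact hinf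
      (isCompact_Icc (a := -R) (b := R)) (fun y hy => hy.2)
    have hclosed : IsClosed {y | f (Real.sqrt E) y = 0} := isClosed_singleton.preimage hfc
    have hx0 : f (Real.sqrt E) x = 0 := by
      have h2 : AccPt x (Filter.principal {y | f (Real.sqrt E) y = 0}) :=
        hacc.mono (Filter.principal_mono.2 fun y hy => hy.1)
      exact hclosed.closure_subset (mem_closure_iff_clusterPt.2 h2.clusterPt)
    have h3 := (hf x).eventually_ne (hsimple x hx0) (c := 0)
    rw [accPt_iff_frequently_nhdsNE] at hacc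
    obtain ⟨y, hy1, hy2⟩ := (hacc.and_eventually h3).exists
    exact hy2 hy1.1
  refine (hmid.union hright).subset fun x hx => ?_
  rcases le_or_gt x (-R) with h2 | h2
  · exfalso
    have h3 := (hleft x h2).1
    have h4 : f (Real.sqrt E) x = 0 := hx
    rw [h4] at h3
    exact (Real.exp_pos _).ne h3
  · rcases le_or_gt R x with h3 | h3
    · exact Or.inr ⟨hx, h3⟩
    · exact Or.inl ⟨hx, h2.le, h3.le⟩

private theorem Nodes_b_tst {W : ℝ → ℝ} {E R : ℝ} {f g : ℝ → ℝ} (h : Nodal W E R f g) (M : ℝ)
    (hM : 0 < M) : ∃ w : ℝ → ℝ, Tst w ∧ (∀ x, |x| ≤ M → w x = f x) ∧ ∀ x, f x = 0 → w x = 0 := by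
  let χ : ContDiffBump (0 : ℝ) := ⟨M, M + 1, hM, by linarith⟩
  have hfc : ContDiff ℝ 1 f := by
    rw [contDiff_one_iff_deriv]
    refine ⟨fun x => (h.hf x).differentiableAt, ?_⟩
    have : deriv f = g := by
      funext x; exact (h.hf x).deriv
    rw [this]
    exact continuous_iff_continuousAt.mpr (fun x => (h.hg x).continuousAt)
  refine ⟨fun x => χ x * f x, ?_, ?_, ?_⟩
  · apply Tst.of_contDiff
    · exact χ.contDiff.mul hfc
    · exact χ.hasCompactSupport.mul_right
  · intro x hx
    have : χ x = 1 := by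
      apply χ.one_of_mem_closedBall
      rw [mem_closedBall_zero_iff, Real.norm_eq_abs]
      exact hx
    simp [this]
  · intro x hx
    simp [hx]

private theorem Nodes_b_deriv_zero {v : ℝ → ℝ} {a b : ℝ} (h : ∀ x, x ∉ Icc a b → v x = 0) {x : ℝ}
    (hx : x ∉ Icc a b) : deriv v x = 0 := by
  have : v =ᶠ[nhds x] fun _ => 0 := by
    filter_upwards [isClosed_Icc.isOpen_compl.mem_nhds hx] with y hy
    exact h y hy
  rw [this.deriv_eq]
  simp

private theorem Nodes_b_deriv_eq {v f : ℝ → ℝ} {a b : ℝ} (h : ∀ x ∈ Ioo a b, v x = f x) {x f' : ℝ}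
    (hx : x ∈ Ioo a b) (hf : HasDerivAt f f' x) : deriv v x = f' := by
  have : v =ᶠ[nhds x] f := by
    filter_upwards [isOpen_Ioo.mem_nhds hx] with y hy
    exact h y hy
  rw [this.deriv_eq]
  exact hf.deriv

private theorem Nodes_b_red {W : ℝ → ℝ} (E : ℝ) {v : ℝ → ℝ} {a b : ℝ} (hab : a ≤ b)
    (h : ∀ x, x ∉ Icc a b → v x = 0) :
    Q W E v = ∫ t in a..b, ((deriv v t) ^ 2 + E * v t ^ 2 - W t * v t ^ 2) := by
  unfold Q
  rw [intervalIntegral.integral_of_le hab, ← integral_Icc_eq_integral_Ioc,
    setIntegral_eq_integral_of_forall_compl_eq_zero]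
  intro x hx
  rw [Nodes_b_deriv_zero h hx, h x hx]
  ring

private theorem Nodes_b_ibp {W : ℝ → ℝ} (hW : Nice W) {E R : ℝ} {f g : ℝ → ℝ}
    (h : Nodal W E R f g) {v : ℝ → ℝ} {a b : ℝ} (hab : a ≤ b) (hv : ∀ x ∈ Ioo a b, v x = f x) :
    ∫ t in a..b, ((deriv v t) ^ 2 + E * v t ^ 2 - W t * v t ^ 2) = f b * g b - f a * g a := by
  have hfc : Continuous f := continuous_iff_continuousAt.mpr (fun x => (h.hf x).continuousAt)
  have hgc : Continuous g := continuous_iff_continuousAt.mpr (fun x => (h.hg x).continuousAt)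
  have e1 : ∫ t in a..b, ((deriv v t) ^ 2 + E * v t ^ 2 - W t * v t ^ 2)
      = ∫ t in a..b, (g t * g t + f t * ((E - W t) * f t)) := by
    rw [intervalIntegral.integral_of_le hab, intervalIntegral.integral_of_le hab,
      integral_Ioc_eq_integral_Ioo, integral_Ioc_eq_integral_Ioo]
    apply setIntegral_congr_fun measurableSet_Ioo
    intro t ht
    simp only
    rw [Nodes_b_deriv_eq hv ht (h.hf t), hv t ht]
    ring
  rw [e1]
  apply intervalIntegral.integral_eq_sub_of_hasDerivAt
  · intro x _
    exact (h.hf x).mul (h.hg x)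
  · apply Continuous.intervalIntegrable
    have := hW.cont
    fun_prop

/-- Row Nodes_b. `Q W E' (f 1_(a,b)) = -(E - E') ∫ f^2 < 0`; in the cell `(-oo, b)` cut `f` off on
the far left. -/
theorem cell_neg {W : ℝ → ℝ} (hW : Nice W) {E R : ℝ} (hE : 0 < E) {f g : ℝ → ℝ}
    (h : Nodal W E R f g) {b : ℝ} (hb : f b = 0) :
    (∀ a, a < b → f a = 0 → (∀ x ∈ Ioo a b, f x ≠ 0) → ∀ E' < E, ∃ v, Tst v ∧
      (∀ t, t ∉ Ioo a b → v t = 0) ∧ Q W E' v < 0) ∧
    ((∀ x, x < b → f x ≠ 0) → ∀ E' < E, ∃ v, Tst v ∧
      (∀ t, t ∉ Iio b → v t = 0) ∧ Q W E' v < 0) := by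
  constructor
  · intro a hab ha hne E' hE'
    obtain ⟨w, hw, hwM, hw0⟩ := Nodes_b_tst h (|a| + |b| + 1) (by positivity)
    set v : ℝ → ℝ := indicator (Icc a b) w with hvdef
    have hv : Tst v := hw.cut hab.le (hw0 a ha) (hw0 b hb)
    have hvf : ∀ x ∈ Icc a b, v x = f x := by
      intro x hx
      rw [hvdef, indicator_of_mem hx]
      apply hwM
      have h1 := neg_abs_le a
      have h2 := le_abs_self b
      have h3 := abs_nonneg a
      have h4 := abs_nonneg b
      rw [abs_le]
      exact ⟨by linarith [hx.1], by linarith [hx.2]⟩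
    have hv0 : ∀ x, x ∉ Icc a b → v x = 0 := by
      intro x hx
      rw [hvdef, indicator_of_notMem hx]
    refine ⟨v, hv, ?_, ?_⟩
    · intro t ht
      by_cases ht2 : t ∈ Icc a b
      · rw [hvf t ht2]
        rcases eq_or_lt_of_le ht2.1 with h1 | h1
        · rw [← h1, ha]
        · rcases eq_or_lt_of_le ht2.2 with h2 | h2
          · rw [h2, hb]
          · exact absurd ⟨h1, h2⟩ ht
      · exact hv0 t ht2
    · rw [Q_energy hW.cont E E' hv, Nodes_b_red E hab.le hv0,
        Nodes_b_ibp hW h hab.le (fun x hx => hvf x (Ioo_subset_Icc_self hx)), ha, hb]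
      have hm : (a + b) / 2 ∈ Ioo a b := ⟨by linarith, by linarith⟩
      have h1 : v ((a + b) / 2) ≠ 0 := by
        rw [hvf _ (Ioo_subset_Icc_self hm)]
        exact hne _ hm
      have h2 := hv.sq_pos h1
      nlinarith
  · intro hne E' hE'
    set k : ℝ := Real.sqrt E with hk
    have hkpos : 0 < k := Real.sqrt_pos.mpr hE
    have hkk : k * k = E := Real.mul_self_sqrt hE.le
    have hRb : -R < b := by
      by_contra hcon
      push Not at hcon
      have := (h.left b hcon).2.1
      rw [hb] at this
      exact (Real.exp_pos _).ne this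
    set C : ℝ := (k + 1) ^ 2 + k ^ 2 with hC
    have hCpos : 0 < C := by positivity
    set S : ℝ := R + 1 + C * Real.exp (2 * k) / ((E - E') * (2 * k)) with hS
    have hEE : 0 < E - E' := by linarith
    have hS1 : R + 1 ≤ S := by
      rw [hS]
      have : 0 < C * Real.exp (2 * k) / ((E - E') * (2 * k)) := by positivity
      linarith
    have hRpos := h.Rpos
    -- the estimate of the exponential
    have hsmall : Real.exp (2 * k * (R - S)) * C < (E - E') * Real.exp (-(2 * k)) := by
      have h1 : C * Real.exp (2 * k) / (E - E') < Real.exp (2 * k * (S - R)) := by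
        have h2 := Real.add_one_le_exp (2 * k * (S - R))
        have h3 : 2 * k * (S - R) = 2 * k + C * Real.exp (2 * k) / (E - E') := by
          rw [hS]; field_simp; ring
        rw [h3] at h2 ⊢
        linarith
      have h4 : Real.exp (2 * k * (R - S)) = (Real.exp (2 * k * (S - R)))⁻¹ := by
        rw [← Real.exp_neg]; congr 1; ring
      rw [h4, Real.exp_neg]
      rw [div_lt_iff₀ hEE] at h1
      have h5 := Real.exp_pos (2 * k * (S - R))
      have h6 := Real.exp_pos (2 * k)
      rw [inv_mul_lt_iff₀ h5]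
      have h7 : Real.exp (2 * k * (S - R)) * ((E - E') * (Real.exp (2 * k))⁻¹)
          = (Real.exp (2 * k * (S - R)) * (E - E')) / Real.exp (2 * k) := by
        field_simp
      rw [h7, lt_div_iff₀ h6]
      exact h1
    obtain ⟨w, hw, hwM, hw0⟩ := Nodes_b_tst h (S + 1 + |b|) (by positivity)
    set η : ℝ → ℝ := fun x => max 0 (min 1 (x + S + 1)) with hη
    have hηlip : LipschitzWith 1 η := by
      have h1 : LipschitzWith 1 (fun x : ℝ => x + S + 1) := by
        apply LipschitzWith.of_dist_le_mul
        intro x y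
        simp [Real.dist_eq]
      exact (h1.const_min 1).const_max 0
    have hηM : ∀ t, |η t| ≤ 1 := by
      intro t
      rw [abs_of_nonneg (le_max_left _ _)]
      exact max_le zero_le_one (min_le_left _ _)
    set v1 : ℝ → ℝ := indicator (Iic b) w with hv1
    have hv1T : Tst v1 := hw.cut_Iic (hw0 b hb)
    set v : ℝ → ℝ := fun t => v1 t * η t with hvdef
    have hv : Tst v := hv1T.mul_lip hηlip hηM
    have hb0 := neg_abs_le b
    have hb1 := le_abs_self b
    have hb2 := abs_nonneg b
    have hv1f : ∀ x ∈ Icc (-S - 1) b, v1 x = f x := by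
      intro x hx
      rw [hv1, indicator_of_mem (show x ∈ Iic b from hx.2)]
      apply hwM
      rw [abs_le]
      exact ⟨by linarith [hx.1], by linarith [hx.2]⟩
    have hv0 : ∀ x, x ∉ Icc (-S - 1) b → v x = 0 := by
      intro x hx
      rw [hvdef]
      simp only
      by_cases hxb : x ≤ b
      · have : x < -S - 1 := by
          by_contra hcon
          push Not at hcon
          exact hx ⟨hcon, hxb⟩
        have h1 : η x = 0 := by
          rw [hη]; simp only
          rw [max_eq_left]
          exact (min_le_right _ _).trans (by linarith)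
        rw [h1, mul_zero]
      · have : v1 x = 0 := by
          rw [hv1, indicator_of_notMem]
          exact hxb
        rw [this, zero_mul]
    have hvR : ∀ x ∈ Icc (-S) b, v x = f x := by
      intro x hx
      have h1 : η x = 1 := by
        rw [hη]; simp only
        rw [min_eq_left (by linarith [hx.1]), max_eq_right zero_le_one]
      rw [hvdef]; simp only
      rw [h1, mul_one, hv1f x ⟨by linarith [hx.1], hx.2⟩]
    have hvL : ∀ x ∈ Ioo (-S - 1) (-S), v x = f x * (x + S + 1) := by
      intro x hx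
      have h1 : η x = x + S + 1 := by
        rw [hη]; simp only
        rw [min_eq_right (by linarith [hx.2]), max_eq_right (by linarith [hx.1])]
      rw [hvdef]; simp only
      rw [h1, hv1f x ⟨hx.1.le, by linarith [hx.2]⟩]
    refine ⟨v, hv, ?_, ?_⟩
    · intro t ht
      have ht' : b ≤ t := not_lt.mp ht
      rcases eq_or_lt_of_le ht' with h1 | h1
      · rw [← h1, hvR b ⟨by linarith, le_rfl⟩, hb]
      · apply hv0
        intro h2
        linarith [h2.2]
    · rw [Q_energy hW.cont E E' hv, Nodes_b_red E (by linarith : -S - 1 ≤ b) hv0]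
      have hint : Integrable (fun t => (deriv v t) ^ 2 + E * v t ^ 2 - W t * v t ^ 2) := by
        have h1 := hv.int_sq
        have h2 := (hv.int_mul hv hW.cont).1
        have h3 : (fun t => W t * v t ^ 2) = fun t => W t * (v t * v t) := by
          funext t; ring
        rw [← h3] at h2
        exact (h1.2.add (h1.1.const_mul E)).sub h2
      have hii : ∀ x y : ℝ, IntervalIntegrable
          (fun t => (deriv v t) ^ 2 + E * v t ^ 2 - W t * v t ^ 2) volume x y :=
        fun x y => hint.intervalIntegrable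
      rw [← intervalIntegral.integral_add_adjacent_intervals (hii (-S - 1) (-S)) (hii (-S) b),
        Nodes_b_ibp hW h (by linarith : -S ≤ b) (fun x hx => hvR x (Ioo_subset_Icc_self hx)), hb]
      have hleft : ∫ t in (-S - 1)..(-S), ((deriv v t) ^ 2 + E * v t ^ 2 - W t * v t ^ 2)
          ≤ Real.exp (2 * k * (R - S)) * C := by
        have h1 : ∫ t in (-S - 1)..(-S), ((deriv v t) ^ 2 + E * v t ^ 2 - W t * v t ^ 2)
            ≤ ∫ _t in (-S - 1)..(-S), Real.exp (2 * k * (R - S)) * C := by
          apply intervalIntegral.integral_mono_on_of_le_Ioo (by linarith) (hii _ _)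
            intervalIntegrable_const
          intro x hx
          obtain ⟨hWx, hfx, hgx⟩ := h.left x (by linarith [hx.2])
          have hd : HasDerivAt (fun y => f y * (y + S + 1)) (g x * (x + S + 1) + f x * 1) x := by
            refine (h.hf x).mul ?_
            exact ((hasDerivAt_id x).add_const S).add_const 1
          rw [Nodes_b_deriv_eq hvL hx hd, hvL x hx, hWx]
          rw [← hk] at hfx hgx
          have hgf : g x = k * f x := by rw [hgx, hfx]
          rw [hgf]
          set r : ℝ := x + S + 1 with hr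
          have hr0 : 0 ≤ r := by rw [hr]; linarith [hx.1]
          have hr1 : r ≤ 1 := by rw [hr]; linarith [hx.2]
          have hf2 : f x ^ 2 ≤ Real.exp (2 * k * (R - S)) := by
            rw [hfx, ← Real.exp_nat_mul]
            apply Real.exp_le_exp.mpr
            push_cast
            nlinarith [hx.2]
          have e1 : (k * f x * r + f x * 1) ^ 2 + E * (f x * r) ^ 2 - 0 * (f x * r) ^ 2
              = f x ^ 2 * ((k * r + 1) ^ 2 + k ^ 2 * r ^ 2) := by
            rw [← hkk]; ring
          rw [e1]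
          have h2 : (k * r + 1) ^ 2 + k ^ 2 * r ^ 2 ≤ C := by
            rw [hC]
            have h3 : k * r ≤ k := by nlinarith
            have h4 : 0 ≤ k * r := by positivity
            nlinarith
          exact mul_le_mul hf2 h2 (by positivity) (Real.exp_pos _).le
        rw [intervalIntegral.integral_const] at h1
        have h2 : (-S - (-S - 1)) • (Real.exp (2 * k * (R - S)) * C)
            = Real.exp (2 * k * (R - S)) * C := by
          rw [smul_eq_mul]; ring
        rw [h2] at h1
        exact h1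
      obtain ⟨-, hfS, hgS⟩ := h.left (-S) (by linarith)
      have hfg : 0 ≤ f (-S) * g (-S) := by
        rw [hfS, hgS]
        positivity
      have hv2 : Real.exp (-(2 * k)) ≤ ∫ t, v t ^ 2 := by
        have h1 : ∫ t in Icc (-R - 1) (-R), v t ^ 2 ≤ ∫ t, v t ^ 2 :=
          setIntegral_le_integral hv.int_sq.1 (Filter.Eventually.of_forall fun t => sq_nonneg _)
        have h2 : ∫ _t in Icc (-R - 1) (-R), Real.exp (-(2 * k))
            ≤ ∫ t in Icc (-R - 1) (-R), v t ^ 2 := by
          apply setIntegral_mono_on _ hv.int_sq.1.integrableOn measurableSet_Icc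
          · intro x hx
            obtain ⟨-, hfx, -⟩ := h.left x hx.2
            rw [hvR x ⟨by linarith [hx.1], by linarith [hx.2]⟩, hfx, ← hk, ← Real.exp_nat_mul]
            apply Real.exp_le_exp.mpr
            push_cast
            nlinarith [hx.1]
          · exact continuous_const.integrableOn_Icc
        have h3 : ∫ _t in Icc (-R - 1) (-R), Real.exp (-(2 * k)) = Real.exp (-(2 * k)) := by
          rw [setIntegral_const, smul_eq_mul, Real.volume_real_Icc_of_le (by linarith)]
          ring
        rw [h3] at h2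
        exact h2.trans h1
      have hfin : (E - E') * Real.exp (-(2 * k)) ≤ (E - E') * ∫ t, v t ^ 2 :=
        mul_le_mul_of_nonneg_left hv2 hEE.le
      nlinarith

/-- the quotient `v / f` is bounded -/
private theorem Nodes_c_bdd {W : ℝ → ℝ} {E R : ℝ} {f g : ℝ → ℝ}
    (h : Nodal W E R f g) {v : ℝ → ℝ} (hv : Tst v) (h0 : ∀ x, f x = 0 → v x = 0) :
    ∃ C : ℝ, 0 ≤ C ∧ ∀ t, v t ^ 2 ≤ C * f t ^ 2 := by
  obtain ⟨K, hK⟩ := hv.lip
  have hfc : Continuous f := continuous_iff_continuousAt.2 fun x => (h.hf x).continuousAt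
  have hvc : Continuous v := hK.continuous
  have key : ∃ C : ℝ, 0 ≤ C ∧ ∀ t ∈ tsupport v, v t ^ 2 ≤ C * f t ^ 2 := by
    refine IsCompact.induction_on (p := fun s : Set ℝ => ∃ C : ℝ, 0 ≤ C ∧ ∀ t ∈ s,
      v t ^ 2 ≤ C * f t ^ 2) hv.cs ⟨0, le_rfl, fun t ht => absurd ht (notMem_empty t)⟩
      ?_ ?_ ?_
    · rintro s t hst ⟨C, hC, hb⟩
      exact ⟨C, hC, fun x hx => hb x (hst hx)⟩
    · rintro s t ⟨C, hC, hb⟩ ⟨D, hD, hd⟩
      refine ⟨C + D, by positivity, fun x hx => ?_⟩
      rcases hx with hx | hx
      · have := hb x hx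
        nlinarith [mul_nonneg hD (sq_nonneg (f x))]
      · have := hd x hx
        nlinarith [mul_nonneg hC (sq_nonneg (f x))]
    · intro x _
      by_cases hx : f x = 0
      · have hg0 : g x ≠ 0 := h.simple x hx
        have hv0 : v x = 0 := h0 x hx
        have hlim := (h.hf x).isLittleO
        have hgp : 0 < |g x| / 2 := by positivity
        have hev := hlim.def hgp
        refine ⟨{t | ‖f t - f x - (t - x) • g x‖ ≤ |g x| / 2 * ‖t - x‖},
          nhdsWithin_le_nhds hev, (2 * K / |g x|) ^ 2, by positivity, fun t ht => ?_⟩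
        have ht' : |f t - (t - x) * g x| ≤ |g x| / 2 * |t - x| := by
          have ht2 : ‖f t - f x - (t - x) • g x‖ ≤ |g x| / 2 * ‖t - x‖ := ht
          rw [hx, sub_zero, smul_eq_mul, Real.norm_eq_abs, Real.norm_eq_abs] at ht2
          exact ht2
        have h1 : |t - x| * |g x| ≤ |f t| + |g x| / 2 * |t - x| := by
          have h2 : |(t - x) * g x| ≤ |f t| + |f t - (t - x) * g x| := by
            have h3 := abs_sub_abs_le_abs_sub ((t - x) * g x) (f t)
            rw [abs_sub_comm ((t - x) * g x) (f t)] at h3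
            linarith
          rw [abs_mul] at h2
          linarith
        have h4 : |t - x| * (|g x| / 2) ≤ |f t| := by linarith
        have h5 : |v t| ≤ K * |t - x| := by
          have := hK.dist_le_mul t x
          rw [Real.dist_eq, Real.dist_eq, hv0, sub_zero] at this
          exact this
        have h6 : |v t| ≤ 2 * K / |g x| * |f t| := by
          have h7 : |t - x| ≤ 2 / |g x| * |f t| := by
            have hg1 : 0 < |g x| := abs_pos.2 hg0
            rw [div_mul_eq_mul_div, le_div_iff₀ hg1]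
            linarith
          calc |v t| ≤ K * |t - x| := h5
            _ ≤ K * (2 / |g x| * |f t|) := by gcongr
            _ = 2 * K / |g x| * |f t| := by ring
        have h8 : |v t| ^ 2 ≤ (2 * K / |g x| * |f t|) ^ 2 := by gcongr
        rw [sq_abs, mul_pow, sq_abs] at h8
        exact h8
      · have hfx : 0 < f x ^ 2 := by positivity
        have h1 : ∀ᶠ t in nhds x, f x ^ 2 / 2 < f t ^ 2 :=
          (by fun_prop : Continuous fun t => f t ^ 2).continuousAt.eventually
            (lt_mem_nhds (by linarith))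
        have h2 : ∀ᶠ t in nhds x, v t ^ 2 < v x ^ 2 + 1 :=
          (by fun_prop : Continuous fun t => v t ^ 2).continuousAt.eventually
            (gt_mem_nhds (by linarith))
        refine ⟨{t | f x ^ 2 / 2 < f t ^ 2 ∧ v t ^ 2 < v x ^ 2 + 1},
          nhdsWithin_le_nhds (h1.and h2), 2 * (v x ^ 2 + 1) / f x ^ 2, by positivity,
          fun t ht => ?_⟩
        obtain ⟨h3, h4⟩ := ht
        rw [div_mul_eq_mul_div, le_div_iff₀ hfx]
        nlinarith [sq_nonneg (v x), sq_nonneg (v t)]
  obtain ⟨C, hC, hb⟩ := key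
  refine ⟨C, hC, fun t => ?_⟩
  by_cases ht : t ∈ tsupport v
  · exact hb t ht
  · rw [image_eq_zero_of_notMem_tsupport ht, zero_pow two_ne_zero]
    positivity

/-- Row Nodes_c. If `v` vanishes at all zeros of `f` then `Q W E v = ∫ (v' - (g/f) v)^2 >= 0`, cell
by cell; the boundary terms `(g/f) v^2` tend to `0` since `v` is Lipschitz and the zeros of `f` are
simple. -/
theorem nodal_nonneg {W : ℝ → ℝ} (hW : Nice W) {E R : ℝ} (hE : 0 < E) {f g : ℝ → ℝ}
    (h : Nodal W E R f g) {v : ℝ → ℝ} (hv : Tst v) (h0 : ∀ x, f x = 0 → v x = 0) :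
    0 ≤ Q W E v := by
  obtain ⟨C, hC, hb⟩ := Nodes_c_bdd h hv h0
  have hfc : Continuous f := continuous_iff_continuousAt.2 fun x => (h.hf x).continuousAt
  have hgc : Continuous g := continuous_iff_continuousAt.2 fun x => (h.hg x).continuousAt
  have hWc := hW.cont
  have hvc := hv.continuous
  -- the remainder
  set r : ℝ → ℝ → ℝ := fun ε t =>
    (ε * (E - W t) / (f t ^ 2 + ε) - ε * g t ^ 2 / (f t ^ 2 + ε) ^ 2) * v t ^ 2 with hr
  have step : ∀ ε : ℝ, 0 < ε → ∫ t, r ε t ≤ Q W E v := by
    intro ε hε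
    have hpos : ∀ t, 0 < f t ^ 2 + ε := fun t => by positivity
    set F : ℝ → ℝ := fun x => f x * g x / (f x ^ 2 + ε) with hF
    set F' : ℝ → ℝ := fun x => ((g x ^ 2 + (E - W x) * f x ^ 2) * (f x ^ 2 + ε) -
      2 * f x ^ 2 * g x ^ 2) / (f x ^ 2 + ε) ^ 2 with hF'
    have hFd : ∀ x, HasDerivAt F (F' x) x := by
      intro x
      have h1 := (h.hf x).fun_mul (h.hg x)
      have h2 : HasDerivAt (fun x => f x ^ 2 + ε) (2 * f x * g x) x := by
        have := ((h.hf x).fun_pow 2).add_const ε
        simpa using this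
      refine (h1.fun_div h2 (hpos x).ne').congr_deriv ?_
      rw [hF']
      ring
    have hFc : Continuous F := by
      rw [hF]
      exact (hfc.mul hgc).div ((hfc.pow 2).add continuous_const) fun t => (hpos t).ne'
    have hFc' : Continuous F' := by
      rw [hF']
      refine Continuous.div ?_ (by fun_prop) fun t => (pow_pos (hpos t) 2).ne'
      fun_prop
    have hz := hv.ftc hFd hFc'
    have i1 := hv.int_sq.2
    have i2 := hv.int_sq.1
    have i3 : Integrable (fun t => W t * v t ^ 2) := by
      have := (hv.int_mul hv hWc).1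
      simpa only [← pow_two] using this
    have i4 : Integrable (fun t => F' t * v t ^ 2) := by
      have := (hv.int_mul hv hFc').1
      simpa only [← pow_two] using this
    have i5 : Integrable (fun t => 2 * F t * (v t * deriv v t)) :=
      (hv.int_mul hv (continuous_const.mul hFc)).2.1
    have hQ : Q W E v = ∫ t, ((deriv v t ^ 2 + E * v t ^ 2 - W t * v t ^ 2) -
        (F' t * v t ^ 2 + 2 * F t * (v t * deriv v t))) := by
      have hi := integral_sub ((i1.add (i2.const_mul E)).sub i3) (i4.add i5)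
      simp only [Pi.add_apply, Pi.sub_apply] at hi
      rw [hi, hz, sub_zero]
      rfl
    rw [hQ]
    have i6 : Integrable (fun t => (deriv v t ^ 2 + E * v t ^ 2 - W t * v t ^ 2) -
        (F' t * v t ^ 2 + 2 * F t * (v t * deriv v t))) :=
      ((i1.add (i2.const_mul E)).sub i3).sub (i4.add i5)
    have hrc : Continuous fun t => ε * (E - W t) / (f t ^ 2 + ε) -
        ε * g t ^ 2 / (f t ^ 2 + ε) ^ 2 := by
      refine Continuous.sub (Continuous.div (by fun_prop) (by fun_prop) fun t => (hpos t).ne')
        (Continuous.div (by fun_prop) (by fun_prop) fun t => (pow_pos (hpos t) 2).ne')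
    have i7 : Integrable (fun t => r ε t) := by
      have := (hv.int_mul hv hrc).1
      simpa only [← pow_two] using this
    refine integral_mono i7 i6 fun t => ?_
    have e : (deriv v t ^ 2 + E * v t ^ 2 - W t * v t ^ 2) -
        (F' t * v t ^ 2 + 2 * F t * (v t * deriv v t)) =
        (deriv v t - F t * v t) ^ 2 + r ε t := by
      have hne := (hpos t).ne'
      simp only [hF, hF', hr]
      field_simp
      ring
    show r ε t ≤ (deriv v t ^ 2 + E * v t ^ 2 - W t * v t ^ 2) -
        (F' t * v t ^ 2 + 2 * F t * (v t * deriv v t))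
    rw [e]
    nlinarith [sq_nonneg (deriv v t - F t * v t)]
  have hlim : Filter.Tendsto (fun ε => ∫ t, r ε t) (nhdsWithin 0 (Ioi 0)) (nhds (∫ _ : ℝ, (0 : ℝ))) := by
    refine tendsto_integral_filter_of_dominated_convergence
      (indicator (tsupport v) fun t => |E - W t| * v t ^ 2 + C / 4 * g t ^ 2) ?_ ?_ ?_ ?_
    · filter_upwards [self_mem_nhdsWithin] with ε hε
      have hε' : 0 < ε := hε
      have hpos : ∀ t, 0 < f t ^ 2 + ε := fun t => by positivity
      have : Continuous (fun t => r ε t) := by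
        simp only [hr]
        refine Continuous.mul (Continuous.sub (Continuous.div (by fun_prop) (by fun_prop)
          fun t => (hpos t).ne') (Continuous.div (by fun_prop) (by fun_prop)
            fun t => (pow_pos (hpos t) 2).ne')) (by fun_prop)
      exact this.aestronglyMeasurable
    · filter_upwards [self_mem_nhdsWithin] with ε hε
      have hε' : 0 < ε := hε
      refine Filter.Eventually.of_forall fun t => ?_
      by_cases ht : t ∈ tsupport v
      · rw [indicator_of_mem ht]
        have hpos : 0 < f t ^ 2 + ε := by positivity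
        have a1 : |ε * (E - W t) / (f t ^ 2 + ε)| ≤ |E - W t| := by
          rw [abs_div, abs_mul, abs_of_pos hε', abs_of_pos hpos, div_le_iff₀ hpos]
          nlinarith [abs_nonneg (E - W t), sq_nonneg (f t), mul_nonneg (abs_nonneg (E - W t)) (sq_nonneg (f t))]
        have a2 : |ε * g t ^ 2 / (f t ^ 2 + ε) ^ 2| * v t ^ 2 ≤ C / 4 * g t ^ 2 := by
          rw [abs_of_nonneg (by positivity), div_mul_eq_mul_div, div_le_iff₀ (by positivity)]
          have b1 : 4 * ε * f t ^ 2 ≤ (f t ^ 2 + ε) ^ 2 := by nlinarith [sq_nonneg (f t ^ 2 - ε)]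
          have b2 : ε * g t ^ 2 * v t ^ 2 ≤ ε * g t ^ 2 * (C * f t ^ 2) := by
            have := hb t
            gcongr
          have b3 : C / 4 * g t ^ 2 * (4 * ε * f t ^ 2) ≤ C / 4 * g t ^ 2 * (f t ^ 2 + ε) ^ 2 := by
            gcongr
          nlinarith
        rw [Real.norm_eq_abs]
        simp only [hr]
        rw [abs_mul, abs_of_nonneg (sq_nonneg (v t))]
        have a3 := abs_sub (ε * (E - W t) / (f t ^ 2 + ε)) (ε * g t ^ 2 / (f t ^ 2 + ε) ^ 2)
        have a4 : |ε * (E - W t) / (f t ^ 2 + ε) - ε * g t ^ 2 / (f t ^ 2 + ε) ^ 2| * v t ^ 2 ≤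
            (|ε * (E - W t) / (f t ^ 2 + ε)| + |ε * g t ^ 2 / (f t ^ 2 + ε) ^ 2|) * v t ^ 2 :=
          mul_le_mul_of_nonneg_right a3 (sq_nonneg _)
        have a5 : |ε * (E - W t) / (f t ^ 2 + ε)| * v t ^ 2 ≤ |E - W t| * v t ^ 2 :=
          mul_le_mul_of_nonneg_right a1 (sq_nonneg _)
        nlinarith
      · rw [indicator_of_notMem ht]
        simp only [hr]
        rw [image_eq_zero_of_notMem_tsupport ht]
        simp
    · rw [integrable_indicator_iff (isClosed_tsupport v).measurableSet]
      have : Continuous fun t => |E - W t| * v t ^ 2 + C / 4 * g t ^ 2 := by fun_prop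
      exact this.continuousOn.integrableOn_compact hv.cs
    · refine Filter.Eventually.of_forall fun t => ?_
      by_cases hft : f t = 0
      · have : ∀ ε, r ε t = 0 := fun ε => by
          simp only [hr]
          rw [h0 t hft]
          ring
        simp only [this]
        exact tendsto_const_nhds
      · have hf2 : f t ^ 2 + 0 ≠ 0 := by
          rw [add_zero]
          exact pow_ne_zero 2 hft
        have hcont : ContinuousAt (fun ε => r ε t) 0 := by
          simp only [hr]
          refine ContinuousAt.mul (ContinuousAt.sub (ContinuousAt.div (by fun_prop) (by fun_prop)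
            hf2) (ContinuousAt.div (by fun_prop) (by fun_prop) (pow_ne_zero 2 hf2))) (by fun_prop)
        have hz : r 0 t = 0 := by
          simp only [hr]
          ring
        have := hcont.tendsto
        rw [hz] at this
        exact this.mono_left nhdsWithin_le_nhds
  rw [integral_zero] at hlim
  exact le_of_tendsto hlim (by
    filter_upwards [self_mem_nhdsWithin] with ε hε
    exact step ε hε)

/-- Row Nodes_d. Assembly: the zeros `z_0 < .. < z_(j-1)` (`Finset.orderEmbOfFin`), cells
`(-oo, z_0)`, `(z_(i-1), z_i)`; `n <= j` by `Neg.exists_ker` with the evaluations at the zeros. -/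
theorem nodes {W : ℝ → ℝ} (hW : Nice W) {E : ℝ} (hE : 0 < E) :
    ∃ (j : ℕ) (c : Fin j → Set ℝ), (∀ i, IsOpen (c i) ∧ (c i).OrdConnected) ∧
      (∀ i k, i ≠ k → Disjoint (c i) (c k)) ∧
      (∀ i, ∀ E' < E, ∃ v, Tst v ∧ (∀ t, t ∉ c i → v t = 0) ∧ Q W E' v < 0) ∧
      ∀ n, Neg W E univ n → n ≤ j := by
  obtain ⟨R, f, g, h⟩ := exists_nodal hW hE
  let z := h.fin.toFinset.orderEmbOfFin rfl
  have hz : ∀ i, f (z i) = 0 := fun i => by
    have h1 := h.fin.toFinset.orderEmbOfFin_mem rfl i
    rw [Set.Finite.mem_toFinset] at h1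
    exact h1
  have hz' : ∀ x, f x = 0 → ∃ i, z i = x := fun x hx => by
    have h1 : x ∈ h.fin.toFinset := by rw [Set.Finite.mem_toFinset]; exact hx
    have h2 : x ∈ Set.range z := by
      rw [Finset.range_orderEmbOfFin]
      exact h1
    exact h2
  refine ⟨h.fin.toFinset.card, fun i => {x | x < z i ∧ ∀ k, k < i → z k < x}, ?_, ?_, ?_, ?_⟩
  · intro i
    have h1 : {x | x < z i ∧ ∀ k, k < i → z k < x} =
        Iio (z i) ∩ ⋂ k : {k // k < i}, Ioi (z k.1) := by
      ext x
      simp only [Set.mem_ofPred_eq, Set.mem_inter_iff, Set.mem_Iio, Set.mem_iInter, Set.mem_Ioi,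
        Subtype.forall]
    beta_reduce
    rw [h1]
    refine ⟨isOpen_Iio.inter (isOpen_iInter_of_finite fun k => isOpen_Ioi), ?_⟩
    exact ordConnected_Iio.inter (ordConnected_iInter fun k => ordConnected_Ioi)
  · have key : ∀ i k, i < k → Disjoint {x | x < z i ∧ ∀ k, k < i → z k < x}
        {x | x < z k ∧ ∀ l, l < k → z l < x} := by
      intro i k hik
      rw [Set.disjoint_left]
      intro x hx hx'
      exact lt_asymm hx.1 (hx'.2 i hik)
    intro i k hik
    rcases lt_or_gt_of_ne hik with h1 | h1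
    · exact key i k h1
    · exact (key k i h1).symm
  · intro i E' hE'
    obtain ⟨hc1, hc2⟩ := cell_neg hW hE h (hz i)
    rcases Nat.eq_zero_or_pos i.val with hi | hi
    · have h1 : ∀ x, x < z i → f x ≠ 0 := by
        intro x hx hfx
        obtain ⟨k, hk⟩ := hz' x hfx
        rw [← hk] at hx
        have h2 : k < i := z.lt_iff_lt.mp hx
        have h3 : k.val < i.val := h2
        omega
      obtain ⟨v, hv1, hv2, hv3⟩ := hc2 h1 E' hE'
      refine ⟨v, hv1, fun t ht => hv2 t fun h2 => ht ⟨h2, fun k hk => ?_⟩, hv3⟩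
      have h3 : k.val < i.val := hk
      omega
    · have him : i.val - 1 < h.fin.toFinset.card := by have := i.isLt; omega
      set m : Fin h.fin.toFinset.card := ⟨i.val - 1, him⟩ with hm
      have hmi : m < i := by
        rw [Fin.lt_def, hm]
        change i.val - 1 < i.val
        omega
      have h1 : ∀ x ∈ Ioo (z m) (z i), f x ≠ 0 := by
        intro x hx hfx
        obtain ⟨k, hk⟩ := hz' x hfx
        rw [← hk] at hx
        have h2 : k < i := z.lt_iff_lt.mp hx.2
        have h2' : m < k := z.lt_iff_lt.mp hx.1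
        have h3 : k.val < i.val := h2
        have h4 : i.val - 1 < k.val := h2'
        omega
      obtain ⟨v, hv1, hv2, hv3⟩ := hc1 (z m) (z.lt_iff_lt.mpr hmi) (hz m) h1 E' hE'
      refine ⟨v, hv1, fun t ht => hv2 t fun h2 => ht ⟨h2.2, fun k hk => ?_⟩, hv3⟩
      have h3 : k ≤ m := by
        have h4 : k.val < i.val := hk
        change k.val ≤ i.val - 1
        omega
      exact lt_of_le_of_lt (z.le_iff_le.mpr h3) h2.1
  · intro n hn
    by_contra hlt
    push Not at hlt
    obtain ⟨v, hv1, _, hv3, hv4⟩ := hn.exists_ker hlt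
      (fun k => LinearMap.proj (R := ℝ) (φ := fun _ : ℝ => ℝ) (z k))
    have h1 := nodal_nonneg hW hE h hv1 fun x hx => by
      obtain ⟨k, hk⟩ := hz' x hx
      rw [← hk]
      exact hv4 k
    linarith

end Pool.Agent.CLR5
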