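import Pool.Agent.Lib.MP_efa090_mp.Layer
import Pool.Agent.Lib.MP_efa090_mp.Nodes
import Pool.Agent.Lib.MP_efa090_mp.Cores
import Pool.Agent.Lib.MP_efa090_mp.Deep
import Pool.Agent.Lib.MP_efa090_mp.Cells

/-! The one-dimensional theorem. -/

open MeasureTheory Set Real

namespace Pool.Agent.CLR5

/-- Row Num: the numerical inequality. `X = cost Y / e0`; `K` cells meet the neighbourhood of the
`q` cores, `K' = max K q'`, `q' = max q n1`. -/
theorem num_case {X K K' q q' n1 s : ℝ} (hq : 0 ≤ q) (hqq : q ≤ q') (hn : 0 ≤ n1) (hnq : n1 ≤ q')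
    (hK : 0 ≤ K) (hKK : K ≤ K') (hqK : q' ≤ K') {S : ℝ} (hs : 0 ≤ s)
    (hS : 225 / 32 * Real.sqrt 15 / 5 * (s / (17 / 20)) ≤ S)
    (hlt : (2249 / 1000) ^ 2 * K' + ((10 / 3) ^ 2 - (2249 / 1000) ^ 2) * q' +
      ((25 / 4 - (π / 10) ^ 2) ^ 2 - (10 / 3) ^ 2) * n1 + S ≤ 225 / 32 * Real.sqrt 15 / 5 * X)
    (hsh : 106 / 25 * K - (162 / 25 + 37 / 20 * (125 / 8)) * q ≤ X) :
    K + 5 * n1 + s ≤ X := by
  have hq' : 0 ≤ q' := hq.trans hqq
  have hsq : Real.sqrt 15 ≤ 38730 / 10000 := by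
    rw [Real.sqrt_le_left (by norm_num)]
    norm_num
  have hsq0 : 0 < Real.sqrt 15 := Real.sqrt_pos.2 (by norm_num)
  have hpi : π ≤ 31416 / 10000 := by linarith [Real.pi_lt_d4]
  have hpi0 : 0 < π := Real.pi_pos
  have ha2 : 2672 / 100 ≤ (25 / 4 - (π / 10) ^ 2) ^ 2 - (10 / 3) ^ 2 := by
    have h1 : (π / 10) ^ 2 ≤ (31416 / 100000) ^ 2 :=
      pow_le_pow_left₀ (by positivity) (by linarith) 2
    have h2 : 6151 / 1000 ≤ 25 / 4 - (π / 10) ^ 2 := by norm_num at h1 ⊢; linarith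
    have h3 : (6151 / 1000 : ℝ) ^ 2 ≤ (25 / 4 - (π / 10) ^ 2) ^ 2 :=
      pow_le_pow_left₀ (by norm_num) h2 2
    norm_num at h3 ⊢
    linarith
  set c : ℝ := 225 / 32 * Real.sqrt 15 / 5 with hc
  have hc0 : 0 < c := by positivity
  have hcU : c ≤ 54465 / 10000 := by rw [hc]; linarith
  have hn1 : 2672 / 100 * n1 ≤ ((25 / 4 - (π / 10) ^ 2) ^ 2 - (10 / 3) ^ 2) * n1 :=
    mul_le_mul_of_nonneg_right ha2 hn
  have hY : (2249 / 1000) ^ 2 * K + ((10 / 3) ^ 2 - (2249 / 1000) ^ 2) * q' + 2672 / 100 * n1 ≤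
      c * (X - s / (17 / 20)) := by
    nlinarith
  have hpos : 0 ≤ c * (X - s / (17 / 20)) := by
    refine le_trans ?_ hY
    have : (0 : ℝ) ≤ (10 / 3) ^ 2 - (2249 / 1000) ^ 2 := by norm_num
    positivity
  have hY0 : 0 ≤ X - s / (17 / 20) := by
    by_contra h
    push Not at h
    nlinarith
  have hY2 : (2249 / 1000) ^ 2 * K + ((10 / 3) ^ 2 - (2249 / 1000) ^ 2) * q' + 2672 / 100 * n1 ≤
      54465 / 10000 * (X - s / (17 / 20)) :=
    hY.trans (mul_le_mul_of_nonneg_right hcU hY0)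
  clear hY hpos hn1 ha2 hlt hS hcU hc0
  norm_num at hY2 hsh
  rcases le_total K (13 * q') with h | h
  · linarith
  · linarith

theorem main1_int {W : ℝ → ℝ} (hW : Nice W) : Integrable (fun t => W t ^ ((5 : ℝ) / 2)) := by
  have h1 : Continuous fun t => W t ^ ((5 : ℝ) / 2) :=
    hW.cont.rpow_const (fun x => Or.inr (by norm_num))
  have h2 : HasCompactSupport fun t => W t ^ ((5 : ℝ) / 2) := by
    apply hW.cs.comp_left (g := fun x : ℝ => x ^ ((5 : ℝ) / 2))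
    exact Real.zero_rpow (by norm_num)
  exact h1.integrable_of_hasCompactSupport h2

theorem main1_split {W : ℝ → ℝ} (hW : Nice W) {j : ℕ} {c : Fin j → Set ℝ}
    (hc : ∀ i, IsOpen (c i)) (hd : ∀ i k, i ≠ k → Disjoint (c i) (c k)) {Y : Set ℝ}
    {F : Finset (Fin j)} (hF : ∀ i ∈ F, Disjoint (c i) Y)
    (he : ∀ i, e0 ≤ cost W (c i)) : cost W Y + F.card * e0 ≤ cost W univ := by
  have hint := main1_int hW
  have h0 : ∀ t, 0 ≤ W t ^ ((5 : ℝ) / 2) := fun t => Real.rpow_nonneg (hW.nonneg t) _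
  have h1 : ∫ x in ⋃ i ∈ F, c i, W x ^ ((5 : ℝ) / 2) = ∑ i ∈ F, cost W (c i) :=
    integral_biUnion_finset F (fun i _ => (hc i).measurableSet) (fun i _ k _ hik => hd i k hik)
      (fun i _ => hint.integrableOn)
  have h2 : (F.card : ℝ) * e0 ≤ ∑ i ∈ F, cost W (c i) := by
    rw [← nsmul_eq_mul]
    exact Finset.card_nsmul_le_sum F _ _ (fun i _ => he i)
  have hZ : MeasurableSet (⋃ i ∈ F, c i) :=
    Finset.measurableSet_biUnion _ (fun i _ => (hc i).measurableSet)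
  have hdis : Disjoint Y (⋃ i ∈ F, c i) := by
    simp only [disjoint_iUnion_right]
    exact fun i hi => (hF i hi).symm
  have h3 : ∫ x in Y ∪ ⋃ i ∈ F, c i, W x ^ ((5 : ℝ) / 2) =
      cost W Y + ∫ x in ⋃ i ∈ F, c i, W x ^ ((5 : ℝ) / 2) :=
    setIntegral_union hdis hZ hint.integrableOn hint.integrableOn
  have h4 : ∫ x in Y ∪ ⋃ i ∈ F, c i, W x ^ ((5 : ℝ) / 2) ≤ cost W univ := by
    unfold cost
    rw [Measure.restrict_univ]
    exact setIntegral_le_integral hint (Filter.Eventually.of_forall h0)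
  linarith

/-- the energies of the layers -/
noncomputable def main1_eps : ℕ → ℝ
  | 0 => 2249 / 1000
  | 1 => 10 / 3
  | (l + 2) => ((l : ℝ) + 5 / 2) ^ 2 - (π / 10) ^ 2

/-- the numbers of states of the layers -/
def main1_N (K q : ℕ) (n : ℕ → ℕ) : ℕ → ℕ
  | 0 => K
  | 1 => q
  | (l + 2) => n (l + 1)

theorem main1_pi : 0 ≤ (π / 10) ^ 2 ∧ (π / 10) ^ 2 ≤ 987 / 10000 ∧ π ^ 2 ≤ 987 / 100 := by
  have h1 := Real.pi_lt_d4
  have h2 := Real.pi_pos
  have h3 : π ^ 2 ≤ 987 / 100 := by nlinarith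
  refine ⟨by positivity, ?_, h3⟩
  have : (π / 10) ^ 2 = π ^ 2 / 100 := by ring
  rw [this]
  linarith

theorem main1_mono : Monotone main1_eps := by
  obtain ⟨p1, p2, -⟩ := main1_pi
  apply monotone_nat_of_le_succ
  intro l
  rcases l with _ | _ | l
  · show (2249 / 1000 : ℝ) ≤ 10 / 3
    norm_num
  · show (10 / 3 : ℝ) ≤ (((0 : ℕ) : ℝ) + 5 / 2) ^ 2 - (π / 10) ^ 2
    push_cast
    linarith
  · show ((l : ℝ) + 5 / 2) ^ 2 - (π / 10) ^ 2 ≤ (((l + 1 : ℕ) : ℝ) + 5 / 2) ^ 2 - (π / 10) ^ 2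
    have : (0 : ℝ) ≤ l := Nat.cast_nonneg l
    push_cast
    nlinarith

theorem main1_layers {W : ℝ → ℝ} (hW : Nice W) {Y : Set ℝ} (hY : IsClosed Y) (L : ℕ) {n : ℕ → ℕ}
    {K' q' : ℕ} (h0 : Neg W (2249 / 1000) Y K') (h1 : Neg W (10 / 3) Y q')
    (hn : ∀ l < L + 1, Neg W (((l : ℝ) + 5 / 2) ^ 2 - (π / 10) ^ 2) Y (n (l + 1))) :
    (2249 / 1000) ^ 2 * (K' : ℝ) + ((10 / 3) ^ 2 - (2249 / 1000) ^ 2) * (q' : ℝ) +
      ((25 / 4 - (π / 10) ^ 2) ^ 2 - (10 / 3) ^ 2) * (n 1 : ℝ) +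
      ∑ l ∈ Finset.range L, ((((l : ℝ) + 7 / 2) ^ 2 - (π / 10) ^ 2) ^ 2 -
        (((l : ℝ) + 5 / 2) ^ 2 - (π / 10) ^ 2) ^ 2) * (n (l + 2) : ℝ) ≤
      8 / (15 * π) * cost W Y := by
  have h := lt_layer hW hY (L + 3) (eps := main1_eps)
    (by show (0 : ℝ) < 2249 / 1000; norm_num) main1_mono (N := main1_N K' q' n) (by
      intro l hl
      rcases l with _ | _ | l
      · exact h0
      · exact h1
      · exact hn l (by omega))
  rw [Finset.sum_range_succ', Finset.sum_range_succ', Finset.sum_range_succ'] at h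
  have e0 : ∀ l : ℕ, (main1_eps (l + 1 + 1 + 1) ^ 2 -
      (if l + 1 + 1 + 1 = 0 then 0 else main1_eps (l + 1 + 1 + 1 - 1) ^ 2)) *
        (main1_N K' q' n (l + 1 + 1 + 1) : ℝ) =
      ((((l : ℝ) + 7 / 2) ^ 2 - (π / 10) ^ 2) ^ 2 -
        (((l : ℝ) + 5 / 2) ^ 2 - (π / 10) ^ 2) ^ 2) * (n (l + 2) : ℝ) := by
    intro l
    rw [if_neg (by omega)]
    have e1 : main1_eps (l + 1 + 1 + 1) = ((l : ℝ) + 7 / 2) ^ 2 - (π / 10) ^ 2 := by
      show (((l + 1 : ℕ) : ℝ) + 5 / 2) ^ 2 - (π / 10) ^ 2 = _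
      push_cast
      ring
    have e2 : main1_eps (l + 1 + 1 + 1 - 1) = ((l : ℝ) + 5 / 2) ^ 2 - (π / 10) ^ 2 := rfl
    rw [e1, e2]
    rfl
  rw [Finset.sum_congr rfl (fun l _ => e0 l)] at h
  have e3 : (main1_eps (0 + 1 + 1) ^ 2 -
      (if 0 + 1 + 1 = 0 then 0 else main1_eps (0 + 1 + 1 - 1) ^ 2)) *
        (main1_N K' q' n (0 + 1 + 1) : ℝ) =
      ((25 / 4 - (π / 10) ^ 2) ^ 2 - (10 / 3) ^ 2) * (n 1 : ℝ) := by
    rw [if_neg (by omega)]
    have e1 : main1_eps (0 + 1 + 1) = 25 / 4 - (π / 10) ^ 2 := by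
      show (((0 : ℕ) : ℝ) + 5 / 2) ^ 2 - (π / 10) ^ 2 = _
      push_cast
      ring
    rw [e1]
    rfl
  have e4 : (main1_eps (0 + 1) ^ 2 -
      (if 0 + 1 = 0 then 0 else main1_eps (0 + 1 - 1) ^ 2)) *
        (main1_N K' q' n (0 + 1) : ℝ) =
      ((10 / 3) ^ 2 - (2249 / 1000) ^ 2) * (q' : ℝ) := by
    rw [if_neg (by omega)]
    rfl
  have e5 : (main1_eps 0 ^ 2 - (if 0 = 0 then 0 else main1_eps (0 - 1) ^ 2)) *
        (main1_N K' q' n 0 : ℝ) = (2249 / 1000) ^ 2 * (K' : ℝ) := by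
    rw [if_pos rfl, sub_zero]
    rfl
  rw [e3, e4, e5] at h
  linarith

theorem main1_S (l : ℕ) : 225 / 32 * Real.sqrt 15 / 5 * (mult (l + 2) / (17 / 20)) ≤
    (((l : ℝ) + 7 / 2) ^ 2 - (π / 10) ^ 2) ^ 2 - (((l : ℝ) + 5 / 2) ^ 2 - (π / 10) ^ 2) ^ 2 := by
  obtain ⟨p1, p2, -⟩ := main1_pi
  have hl : (0 : ℝ) ≤ l := Nat.cast_nonneg l
  have h15 : Real.sqrt 15 ≤ 3873 / 1000 := by
    rw [Real.sqrt_le_left (by norm_num)]
    norm_num
  have h15' := Real.sqrt_nonneg 15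
  set d := (π / 10) ^ 2 with hd
  have hm : mult (l + 2) = (2 * (l : ℝ) + 7) * (l + 3) * (l + 4) / 6 := by
    unfold mult
    push_cast
    ring
  rw [hm]
  have h1 : 225 / 32 * Real.sqrt 15 / 5 * ((2 * (l : ℝ) + 7) * (l + 3) * (l + 4) / 6 / (17 / 20)) ≤
      225 / 32 * (3873 / 1000) / 5 * ((2 * (l : ℝ) + 7) * (l + 3) * (l + 4) / 6 / (17 / 20)) := by
    apply mul_le_mul_of_nonneg_right _ (by positivity)
    linarith
  have h2 : (((l : ℝ) + 7 / 2) ^ 2 - d) ^ 2 - (((l : ℝ) + 5 / 2) ^ 2 - d) ^ 2 =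
      2 * ((l : ℝ) + 3) * (2 * l ^ 2 + 12 * l + 37 / 2 - 2 * d) := by ring
  rw [h2]
  refine h1.trans ?_
  have h3 : 2 * ((l : ℝ) + 3) * (2 * l ^ 2 + 12 * l + 37 / 2 - 2 * (987 / 10000)) ≤
      2 * ((l : ℝ) + 3) * (2 * l ^ 2 + 12 * l + 37 / 2 - 2 * d) := by
    apply mul_le_mul_of_nonneg_left _ (by positivity)
    linarith
  refine le_trans ?_ h3
  have h4 : 225 / 32 * (3873 / 1000) / 5 * ((2 * (l : ℝ) + 7) * (l + 3) * (l + 4) / 6 / (17 / 20)) =
      ((l : ℝ) + 3) * (225 / 32 * (3873 / 1000) / 5 / 6 / (17 / 20) * ((2 * l + 7) * (l + 4))) := by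
    ring
  have h5 : 2 * ((l : ℝ) + 3) * (2 * l ^ 2 + 12 * l + 37 / 2 - 2 * (987 / 10000)) =
      ((l : ℝ) + 3) * (2 * (2 * l ^ 2 + 12 * l + 37 / 2 - 2 * (987 / 10000))) := by ring
  rw [h4, h5]
  apply mul_le_mul_of_nonneg_left _ (by positivity)
  nlinarith

theorem main1_aux {W : ℝ → ℝ} (hW : Nice W) (L : ℕ) {n : ℕ → ℕ}
    (h : ∀ l < L + 2, Neg W (((l : ℝ) + 3 / 2) ^ 2) univ (n l)) :
    ∑ l ∈ Finset.range (L + 2), mult l * (n l : ℝ) ≤ cost W univ / e0 := by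
  classical
  obtain ⟨j, c, hc, hd, hneg, hj⟩ := nodes hW (E := 9 / 4) (by norm_num)
  obtain ⟨q, a, hq, hcov⟩ := cores hW (E := 10 / 3) (l := 15 / 8) (by norm_num) (by norm_num)
  have he0 : 0 < e0 := by
    unfold e0
    positivity
  obtain ⟨p1, p2, p3⟩ := main1_pi
  set N : Set ℝ := ⋃ i, Icc (a i - 15 / 8 - 5) (a i + 2 * (15 / 8) + 5) with hN
  set KK : Finset (Fin j) := Finset.univ.filter (fun i => (c i ∩ N).Nonempty) with hKK
  set Y : Set ℝ := N ∪ ⋃ i ∈ KK, closure (c i) with hYdef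
  have hNc : IsClosed N := isClosed_iUnion_of_finite (fun i => isClosed_Icc)
  have hYc : IsClosed Y :=
    hNc.union (KK.finite_toSet.isClosed_biUnion (fun i _ => isClosed_closure))
  have hNY : N ⊆ Y := subset_union_left
  have hcY : ∀ i ∈ KK, c i ⊆ Y := by
    intro i hi x hx
    right
    rw [mem_iUnion₂]
    exact ⟨i, hi, subset_closure hx⟩
  have hdY : ∀ i ∈ KKᶜ, Disjoint (c i) Y := by
    intro i hi
    rw [Finset.mem_compl, hKK, Finset.mem_filter, not_and] at hi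
    have hi' := hi (Finset.mem_univ i)
    rw [not_nonempty_iff_eq_empty, ← disjoint_iff_inter_eq_empty] at hi'
    rw [hYdef, disjoint_union_right]
    refine ⟨hi', ?_⟩
    simp only [disjoint_iUnion_right]
    intro k hk
    have hik : i ≠ k := by
      rintro rfl
      rw [hKK, Finset.mem_filter] at hk
      exact hk.2.ne_empty (disjoint_iff_inter_eq_empty.mp hi')
    exact (hd i k hik).closure_right (hc i).1
  -- costs of the cells
  have hcost : ∀ i, e0 ≤ cost W (c i) := fun i => cell_cost hW (hc i).1 (hneg i)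
  have hsplit := main1_split hW (fun i => (hc i).1) hd hdY hcost
  have hcard : (KK.card : ℝ) + (KKᶜ.card : ℝ) = j := by
    have := Finset.card_add_card_compl KK
    rw [Fintype.card_fin] at this
    exact_mod_cast this
  have hn0 : (n 0 : ℝ) ≤ j := by
    have h0 := h 0 (by omega)
    have e : (((0 : ℕ) : ℝ) + 3 / 2) ^ 2 = 9 / 4 := by norm_num
    rw [e] at h0
    exact_mod_cast hj _ h0
  -- the negative vectors of the cells
  choose v hv using fun i => hneg i (2249 / 1000) (by norm_num)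
  have hKneg : Neg W (2249 / 1000) Y KK.card := by
    refine Neg.of_disjoint hW.cont (fun m => v (KK.orderEmbOfFin rfl m)) (fun m => (hv _).1)
      (fun m t ht => (hv _).2.1 t (fun hct => ht (hcY _ (Finset.orderEmbOfFin_mem KK rfl m) hct)))
      ?_ (fun m => (hv _).2.2)
    intro m m' hmm t
    by_cases ht : t ∈ c (KK.orderEmbOfFin rfl m)
    · right
      apply (hv _).2.1
      intro ht'
      exact (Set.disjoint_left.mp (hd _ _ (fun hh => hmm
        ((KK.orderEmbOfFin rfl).injective hh))) ht) ht'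
    · left
      exact (hv _).2.1 t ht
  have hdeep : ∀ l < L + 1, Neg W (((l : ℝ) + 5 / 2) ^ 2 - (π / 10) ^ 2) N (n (l + 1)) := by
    intro l hl
    have hl0 : (0 : ℝ) ≤ l := Nat.cast_nonneg l
    have h1 := deep hW (a := a) (Ec := 10 / 3) (l := 15 / 8) (T := 5) (by norm_num) (by norm_num)
      hcov (E := (((l + 1 : ℕ) : ℝ) + 3 / 2) ^ 2) (by
        push_cast
        have e1 : (π / (15 / 8)) ^ 2 = π ^ 2 * (64 / 225) := by ring
        have e2 : (π / (2 * 5)) ^ 2 = π ^ 2 / 100 := by ring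
        rw [e1, e2]
        nlinarith) (h (l + 1) (by omega))
    have e1 : (((l + 1 : ℕ) : ℝ) + 3 / 2) ^ 2 - (π / (2 * 5)) ^ 2 =
        ((l : ℝ) + 5 / 2) ^ 2 - (π / 10) ^ 2 := by
      push_cast
      ring
    rw [e1] at h1
    exact h1
  have hqN : (⋃ i, Icc (a i) (a i + 15 / 8)) ⊆ N := by
    intro x hx
    rw [mem_iUnion] at hx
    obtain ⟨i, hi⟩ := hx
    rw [hN, mem_iUnion]
    refine ⟨i, ?_⟩
    rw [mem_Icc] at hi ⊢
    constructor <;> linarith [hi.1, hi.2]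
  have hqY : Neg W (10 / 3) Y q := hq.mono_A (hqN.trans hNY)
  have hn1Y : Neg W (10 / 3) Y (n 1) := by
    have h1 := (hdeep 0 (by omega)).mono_A hNY
    apply h1.mono_E hW.cont
    push_cast
    linarith
  have hq'Y : Neg W (10 / 3) Y (max q (n 1)) := by
    rcases max_choice q (n 1) with e | e <;> rw [e]
    · exact hqY
    · exact hn1Y
  have hK'Y : Neg W (2249 / 1000) Y (max KK.card (max q (n 1))) := by
    rcases max_choice KK.card (max q (n 1)) with e | e <;> rw [e]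
    · exact hKneg
    · exact hq'Y.mono_E hW.cont (by norm_num)
  have hlay := main1_layers hW hYc L hK'Y hq'Y (fun l hl => (hdeep l hl).mono_A hNY)
  have hshort := cells_short hW hc hd hneg (q := q) (lo := fun i => a i - 15 / 8 - 5)
    (hi := fun i => a i + 2 * (15 / 8) + 5) (len := 125 / 8) (fun i => by ring) (by norm_num)
    (KK := KK) (fun i => by rw [hKK, Finset.mem_filter]; simp [hN]) hYc.measurableSet hcY
  set S : ℝ := ∑ l ∈ Finset.range L, ((((l : ℝ) + 7 / 2) ^ 2 - (π / 10) ^ 2) ^ 2 -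
        (((l : ℝ) + 5 / 2) ^ 2 - (π / 10) ^ 2) ^ 2) * (n (l + 2) : ℝ) with hSdef
  set s : ℝ := ∑ l ∈ Finset.range L, mult (l + 2) * (n (l + 2) : ℝ) with hsdef
  have hs0 : 0 ≤ s := by
    apply Finset.sum_nonneg
    intro l _
    have : 0 ≤ mult (l + 2) := by
      unfold mult
      positivity
    positivity
  have hS : 225 / 32 * Real.sqrt 15 / 5 * (s / (17 / 20)) ≤ S := by
    have e1 : 225 / 32 * Real.sqrt 15 / 5 * (s / (17 / 20)) =
        ∑ l ∈ Finset.range L, 225 / 32 * Real.sqrt 15 / 5 * (mult (l + 2) / (17 / 20)) *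
          (n (l + 2) : ℝ) := by
      rw [hsdef, Finset.sum_div, Finset.mul_sum]
      apply Finset.sum_congr rfl
      intro l _
      ring
    rw [e1, hSdef]
    apply Finset.sum_le_sum
    intro l _
    exact mul_le_mul_of_nonneg_right (main1_S l) (Nat.cast_nonneg _)
  have hX : 8 / (15 * π) * cost W Y = 225 / 32 * Real.sqrt 15 / 5 * (cost W Y / e0) := by
    unfold e0
    have : Real.sqrt 15 ≠ 0 := by positivity
    have := Real.pi_ne_zero
    field_simp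
    ring
  rw [hX] at hlay
  have hsh : 106 / 25 * (KK.card : ℝ) - (162 / 25 + 37 / 20 * (125 / 8)) * (q : ℝ) ≤
      cost W Y / e0 := by
    rw [le_div_iff₀ he0]
    exact hshort
  have hfin := num_case (X := cost W Y / e0) (K := KK.card)
    (K' := ((max KK.card (max q (n 1)) : ℕ) : ℝ)) (q := q) (q' := ((max q (n 1) : ℕ) : ℝ))
    (n1 := n 1) (s := s) (Nat.cast_nonneg _) (by exact_mod_cast le_max_left _ _)
    (Nat.cast_nonneg _) (by exact_mod_cast le_max_right _ _) (Nat.cast_nonneg _)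
    (by exact_mod_cast le_max_left _ _) (by exact_mod_cast le_max_right _ _) (S := S) hs0 hS
    hlay hsh
  rw [Finset.sum_range_succ', Finset.sum_range_succ']
  have e6 : mult 0 = 1 := by
    unfold mult
    norm_num
  have e7 : mult (0 + 1) = 5 := by
    unfold mult
    norm_num
  rw [e6, e7]
  have e8 : cost W Y / e0 + (KKᶜ.card : ℝ) ≤ cost W univ / e0 := by
    rw [le_div_iff₀ he0, add_mul, div_mul_cancel₀ _ he0.ne']
    exact hsplit
  have e9 : ∑ l ∈ Finset.range L, mult (l + 1 + 1) * (n (l + 1 + 1) : ℝ) = s := rfl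
  rw [e9]
  have e10 : (n (0 + 1) : ℝ) = n 1 := rfl
  rw [e10]
  linarith

/-- Row Main1. -/
theorem main1 {W : ℝ → ℝ} (hW : Nice W) (L : ℕ) {n : ℕ → ℕ} (hn : Antitone n)
    (h : ∀ l < L, Neg W (((l : ℝ) + 3 / 2) ^ 2) univ (n l)) :
    ∑ l ∈ Finset.range L, mult l * (n l : ℝ) ≤ cost W univ / e0 := by
  have h1 := main1_aux hW L (n := fun l => if l < L then n l else 0) (by
    intro l _
    by_cases hl : l < L
    · simp only [if_pos hl]
      exact h l hl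
    · simp only [if_neg hl]
      exact Neg.zero _ _ _)
  refine le_trans (le_of_eq ?_) h1
  rw [Finset.sum_range_succ, Finset.sum_range_succ]
  simp only [lt_irrefl, if_false, Nat.cast_zero, mul_zero, add_zero]
  rw [if_neg (by omega)]
  simp only [Nat.cast_zero, mul_zero, add_zero]
  apply Finset.sum_congr rfl
  intro l hl
  rw [if_pos (Finset.mem_range.mp hl)]

end Pool.Agent.CLR5
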