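import Pool.Agent.Lib.MP_efa090_mp.Cell

/-! Row NiceCLR: the bound for nice potentials. -/

open MeasureTheory Set Metric

namespace Pool.Agent.CLR5

/-- Abel summation -/
private lemma nice_a_abel (d n : ℕ → ℝ) (hd0 : d 0 = 0) (hn : Antitone n) (J : ℕ)
    (hd : ∀ k ≤ J, 0 ≤ d k) :
    d J * n J ≤ ∑ l ∈ Finset.range J, (d (l + 1) - d l) * n l := by
  induction J with
  | zero => simp [hd0]
  | succ J ih =>
    have h1 := ih (fun k hk => hd k (hk.trans (Nat.le_succ J)))
    have h2 : d (J + 1) * n (J + 1) ≤ d (J + 1) * n J :=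
      mul_le_mul_of_nonneg_left (hn (Nat.le_succ J)) (hd _ le_rfl)
    rw [Finset.sum_range_succ]
    linarith

private lemma nice_a_mult (k : ℕ) :
    ∑ l ∈ Finset.range k, mult l = (k : ℝ) * (k + 1) ^ 2 * (k + 2) / 12 := by
  induction k with
  | zero => simp
  | succ k ih =>
    rw [Finset.sum_range_succ, ih]
    unfold mult
    push_cast
    ring

/-- Counting: for antitone `n` and `12 #{i : dg i < k} <= k (k+1)^2 (k+2)`:
`∑_i n (dg i) <= ∑_{l < J} mult l * n l` (Abel summation). -/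
theorem count_le {J M : ℕ} {dg : Fin M → ℕ} (h1 : ∀ i, dg i < J)
    (h2 : ∀ k ≤ J, 12 * (Finset.univ.filter (fun i => dg i < k)).card ≤
      k * (k + 1) ^ 2 * (k + 2)) {n : ℕ → ℕ} (hn : Antitone n) :
    ((∑ i, n (dg i) : ℕ) : ℝ) ≤ ∑ l ∈ Finset.range J, mult l * (n l : ℝ) := by
  classical
  set c : ℕ → ℝ := fun k => ((Finset.univ.filter (fun i => dg i < k)).card : ℝ) with hc
  set s : ℕ → ℝ := fun k => (k : ℝ) * (k + 1) ^ 2 * (k + 2) / 12 with hs
  have hcs : ∀ k ≤ J, c k ≤ s k := by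
    intro k hk
    have h3 : (12 : ℝ) * ((Finset.univ.filter (fun i => dg i < k)).card : ℝ) ≤
      (k : ℝ) * (k + 1) ^ 2 * (k + 2) := by exact_mod_cast h2 k hk
    simp only [hs, hc]
    linarith
  have hmul : ∀ l, mult l = s (l + 1) - s l := by
    intro l
    have e1 := nice_a_mult (l + 1)
    have e2 := nice_a_mult l
    rw [Finset.sum_range_succ] at e1
    have e3 : s (l + 1) = ((l + 1 : ℕ) : ℝ) * (((l + 1 : ℕ) : ℝ) + 1) ^ 2 *
      (((l + 1 : ℕ) : ℝ) + 2) / 12 := rfl
    have e4 : s l = (l : ℝ) * (l + 1) ^ 2 * (l + 2) / 12 := rfl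
    rw [e3, e4]
    linarith
  have hfib : ((∑ i, n (dg i) : ℕ) : ℝ) =
      ∑ l ∈ Finset.range J, (c (l + 1) - c l) * (n l : ℝ) := by
    push_cast
    rw [← Finset.sum_fiberwise_of_maps_to (s := Finset.univ) (t := Finset.range J) (g := dg)
      (fun i _ => Finset.mem_range.2 (h1 i)) (fun i => (n (dg i) : ℝ))]
    refine Finset.sum_congr rfl (fun l _ => ?_)
    have e1 : ∑ i ∈ Finset.univ.filter (fun i => dg i = l), (n (dg i) : ℝ) =
        ((Finset.univ.filter (fun i => dg i = l)).card : ℝ) * (n l : ℝ) := by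
      rw [Finset.sum_congr rfl (g := fun _ => (n l : ℝ))
        (fun i hi => by rw [(Finset.mem_filter.1 hi).2]), Finset.sum_const, nsmul_eq_mul]
    rw [e1]
    congr 1
    have e2 : Finset.univ.filter (fun i => dg i < l + 1) =
        Finset.univ.filter (fun i => dg i < l) ∪ Finset.univ.filter (fun i => dg i = l) := by
      ext i
      simp only [Finset.mem_filter, Finset.mem_univ, true_and, Finset.mem_union]
      omega
    have e3 : Disjoint (Finset.univ.filter (fun i => dg i < l))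
        (Finset.univ.filter (fun i => dg i = l)) := by
      rw [Finset.disjoint_left]
      intro i hi hi'
      simp only [Finset.mem_filter, Finset.mem_univ, true_and] at hi hi'
      omega
    have e4 := Finset.card_union_of_disjoint e3
    rw [← e2] at e4
    have e5 : c (l + 1) = c l + ((Finset.univ.filter (fun i => dg i = l)).card : ℝ) := by
      simp only [hc]
      rw [e4]
      push_cast
      ring
    rw [e5]
    ring
  have hnR : Antitone (fun k => (n k : ℝ)) := fun a b hab => by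
    simp only
    exact_mod_cast hn hab
  have habel := nice_a_abel (fun k => s k - c k) (fun k => (n k : ℝ)) (by simp [hs, hc]) hnR J
    (fun k hk => sub_nonneg.2 (hcs k hk))
  have hnn : (0 : ℝ) ≤ (s J - c J) * (n J : ℝ) :=
    mul_nonneg (sub_nonneg.2 (hcs J le_rfl)) (Nat.cast_nonneg _)
  rw [hfib]
  have e6 : ∑ l ∈ Finset.range J, mult l * (n l : ℝ) -
      ∑ l ∈ Finset.range J, (c (l + 1) - c l) * (n l : ℝ) =
      ∑ l ∈ Finset.range J, ((s (l + 1) - c (l + 1)) - (s l - c l)) * (n l : ℝ) := by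
    rw [← Finset.sum_sub_distrib]
    refine Finset.sum_congr rfl (fun l _ => ?_)
    rw [hmul l]
    ring
  linarith

private lemma nice_b_int {s f : ℝ → ℝ} (hs : Tst s) (hf : Continuous f) :
    Integrable (fun t => deriv s t * f t) ∧ Integrable (fun t => s t * f t) := by
  obtain ⟨C, hC0, hC1, hC2, hC3⟩ := hs.bdd
  obtain ⟨M, hM⟩ := (isCompact_Icc (a := -C) (b := C)).exists_bound_of_continuousOn
    hf.continuousOn
  have hsub : ∀ g : ℝ → ℝ, (∀ t, C < |t| → g t = 0) → Function.support (fun t => g t * f t) ⊆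
      Icc (-C) C := by
    intro g hg t ht
    rw [Function.mem_support] at ht
    by_contra hcon
    apply ht
    have : C < |t| := by
      by_contra h
      push Not at h
      exact hcon (abs_le.1 h)
    rw [hg t this, zero_mul]
  have key : ∀ g : ℝ → ℝ, Measurable g → (∀ t, |g t| ≤ C) → (∀ t, C < |t| → g t = 0) →
      Integrable (fun t => g t * f t) := by
    intro g hg hb h0
    rw [← integrableOn_iff_integrable_of_support_subset (hsub g h0)]
    refine Measure.integrableOn_of_bounded (M := C * M) (by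
      rw [Real.volume_Icc]; exact ENNReal.ofReal_ne_top)
      (hg.mul hf.measurable).aestronglyMeasurable ?_
    refine (ae_restrict_iff' measurableSet_Icc).2 (Filter.Eventually.of_forall (fun t ht => ?_))
    rw [norm_mul]
    exact mul_le_mul (hb t) (hM t ht) (norm_nonneg _) hC0
  exact ⟨key _ (measurable_deriv s) hC2 (fun t ht => (hC3 t ht).2),
    key _ hs.continuous.measurable hC1 (fun t ht => (hC3 t ht).1)⟩

private lemma nice_b_intB {W : ℝ → ℝ} (hW : Continuous W) (E : ℝ) {s v : ℝ → ℝ} (hs : Tst s)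
    (hv : ContDiff ℝ 1 v) :
    Integrable (fun t => deriv s t * deriv v t + E * (s t * v t) - W t * (s t * v t)) := by
  have h1 := (nice_b_int hs (hv.continuous_deriv le_rfl)).1
  have h2 := (nice_b_int hs (f := fun t => E * v t - W t * v t)
    ((continuous_const.mul hv.continuous).sub (hW.mul hv.continuous))).2
  refine (h1.add h2).congr (Filter.Eventually.of_forall (fun t => ?_))
  simp only [Pi.add_apply]
  ring

private lemma nice_b_add {W : ℝ → ℝ} (hW : Continuous W) (E : ℝ) {s v w : ℝ → ℝ} (hs : Tst s)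
    (hv : ContDiff ℝ 1 v) (hw : ContDiff ℝ 1 w) :
    B W E s (fun t => v t + w t) = B W E s v + B W E s w := by
  unfold B
  rw [← integral_add (nice_b_intB hW E hs hv) (nice_b_intB hW E hs hw)]
  refine integral_congr_ae (Filter.Eventually.of_forall (fun t => ?_))
  have hd : deriv (fun t => v t + w t) t = deriv v t + deriv w t :=
    deriv_fun_add ((hv.differentiable one_ne_zero) t) ((hw.differentiable one_ne_zero) t)
  simp only [hd]
  ring

private lemma nice_b_smul (W : ℝ → ℝ) (E : ℝ) {s v : ℝ → ℝ} (c : ℝ) (hv : ContDiff ℝ 1 v) :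
    B W E s (fun t => c * v t) = c * B W E s v := by
  unfold B
  rw [← integral_const_mul]
  refine integral_congr_ae (Filter.Eventually.of_forall (fun t => ?_))
  have hd : deriv (fun t => c * v t) t = c * deriv v t :=
    deriv_const_mul c ((hv.differentiable one_ne_zero) t)
  simp only [hd]
  ring

/-- `exists_dims`, `Adm.high`, `angular J`, `QQ_ge`; conditions `B W E_(dg i) (s k) (coef u (p i)) = 0`
(`codim`) for all `i` and `k < n (dg i)`. -/
theorem nice_clr {W : ℝ → ℝ} (hW : Nice W) (S : Submodule ℝ (E5 → ℝ))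
    (hfin : FiniteDimensional ℝ S) (hS : IsTest S) (hneg : ∀ u ∈ S, u ≠ 0 → QQ W u < 0) :
    (Module.finrank ℝ S : ℝ) ≤ (∫ t, W t ^ ((5 : ℝ) / 2)) / e0 := by
  classical
  obtain ⟨n, hn, hN, hN', hsum⟩ := exists_dims hW
  obtain ⟨J, hJ⟩ := Adm.high hW
  obtain ⟨M, dg, p, hdg, hcnt, hp, hang⟩ := angular J
  have hu1 : ∀ u ∈ S, ContDiff ℝ 1 u := fun u hu => (hS u hu).1.of_le (by exact_mod_cast le_top)
  have hcod : ∀ i : Fin M, ∃ s : Fin (n (dg i)) → ℝ → ℝ, (∀ k, Tst (s k)) ∧
      ∀ v, Adm v → (∀ k, B W (((dg i : ℝ) + 3 / 2) ^ 2) (s k) v = 0) →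
        0 ≤ Q W (((dg i : ℝ) + 3 / 2) ^ 2) v :=
    fun i => codim hW (by positivity) (hN (dg i)) (hN' (dg i))
  choose s hsT hsQ using hcod
  have hA : ∀ u ∈ S, ∀ i, ContDiff ℝ 1 (coef u (p i)) := fun u hu i =>
    (adm_coef (hu1 u hu) (hS u hu).2 (p i)).1.cd
  let Λ : S →ₗ[ℝ] ((Σ i : Fin M, Fin (n (dg i))) → ℝ) :=
    { toFun := fun u x => B W (((dg x.1 : ℝ) + 3 / 2) ^ 2) (s x.1 x.2) (coef (u : E5 → ℝ) (p x.1))
      map_add' := by
        intro u w
        funext x
        simp only [Submodule.coe_add, Pi.add_apply]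
        rw [coef_add (hu1 u u.2) (hu1 w w.2),
          nice_b_add hW.cont _ (hsT x.1 x.2) (hA u u.2 x.1) (hA w w.2 x.1)]
      map_smul' := by
        intro c u
        funext x
        simp only [Submodule.coe_smul, Pi.smul_apply, RingHom.id_apply, smul_eq_mul]
        rw [coef_smul, nice_b_smul _ _ c (hA u u.2 x.1)] }
  have hfr : Module.finrank ℝ S ≤ ∑ i, n (dg i) := by
    by_contra hcon
    push Not at hcon
    have hker : LinearMap.ker Λ ≠ ⊥ := by
      intro hbot
      have hinj : Function.Injective Λ := LinearMap.ker_eq_bot.1 hbot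
      have h3 := LinearMap.finrank_le_finrank_of_injective hinj
      rw [Module.finrank_fintype_fun_eq_card, Fintype.card_sigma] at h3
      simp only [Fintype.card_fin] at h3
      omega
    obtain ⟨u, hu, hu0⟩ := (Submodule.ne_bot_iff _).1 hker
    have h1 : ∀ x : (Σ i : Fin M, Fin (n (dg i))),
        B W (((dg x.1 : ℝ) + 3 / 2) ^ 2) (s x.1 x.2) (coef (u : E5 → ℝ) (p x.1)) = 0 :=
      fun x => congrFun (LinearMap.mem_ker.1 hu) x
    have h2 : QQ W (u : E5 → ℝ) < 0 := hneg u u.2 (fun h => hu0 (Subtype.ext h))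
    have h3 := QQ_ge hW (hu1 u u.2) (hS u u.2).2 hp hang
    have h4 : 0 ≤ ∑ i, Q W (((dg i : ℝ) + 3 / 2) ^ 2) (coef (u : E5 → ℝ) (p i)) :=
      Finset.sum_nonneg (fun i _ => hsQ i _ (adm_coef (hu1 u u.2) (hS u u.2).2 (p i)).1
        (fun k => h1 ⟨i, k⟩))
    have h5 : 0 ≤ ∫ ω : S4, Q W (((J : ℝ) + 3 / 2) ^ 2)
        (fun t => rest (u : E5 → ℝ) p t ω) ∂σ :=
      integral_nonneg (fun ω => hJ _ (adm_rest (hu1 u u.2) (hS u u.2).2 p ω).1)
    linarith
  have hcost : cost W univ = ∫ t, W t ^ ((5 : ℝ) / 2) := by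
    unfold cost
    rw [setIntegral_univ]
  calc (Module.finrank ℝ S : ℝ) ≤ ((∑ i, n (dg i) : ℕ) : ℝ) := by exact_mod_cast hfr
    _ ≤ ∑ l ∈ Finset.range J, mult l * (n l : ℝ) := count_le hdg hcnt hn
    _ ≤ cost W univ / e0 := hsum J
    _ = _ := by rw [hcost]

end Pool.Agent.CLR5
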