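import Mathlib

set_option autoImplicit false

open Filter MeasureTheory Topology
open scoped Pointwise

namespace CLRT

/-- Riemann sums over the points of `m⁻¹ ℤ^d` in a cube with integral corners. -/
theorem riemann_box {d : ℕ} (a b : ℤ) (F : (Fin d → ℝ) → ℝ) (hF : Continuous F)
    (hs : ∀ x, F x ≠ 0 → ∀ i, (a : ℝ) ≤ x i ∧ x i < b) :
    Tendsto (fun m : ℕ => (∑ k ∈ Fintype.piFinset (fun _ : Fin d => Finset.Ico (a * m) (b * m)),
      F (fun i => (k i : ℝ) / m)) / (m : ℝ) ^ d) atTop (𝓝 (∫ x, F x)) := by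
  classical
  set s : Set (Fin d → ℝ) := Set.pi Set.univ (fun _ => Set.Ico (a : ℝ) b) with hsdef
  have hmem : ∀ x, x ∈ s ↔ ∀ i, (a : ℝ) ≤ x i ∧ x i < b := by
    intro x; simp [hsdef, Set.mem_pi]
  have hbd : Bornology.IsBounded s := by
    refine (Bornology.IsBounded.pi (fun _ => Metric.isBounded_Ico (a : ℝ) b)).subset ?_
    exact subset_rfl
  have hms : MeasurableSet s := MeasurableSet.univ_pi (fun _ => measurableSet_Ico)
  have hconv : Convex ℝ s := convex_pi (fun _ _ => convex_Ico _ _)
  have hfr : volume (frontier s) = 0 := hconv.addHaar_frontier volume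
  have T := tendsto_tsum_div_pow_atTop_integral s F hF hbd hms hfr
  have hint : ∫ x in s, F x = ∫ x, F x := by
    refine setIntegral_eq_integral_of_forall_compl_eq_zero (fun x hx => ?_)
    by_contra hne
    exact hx ((hmem x).2 (hs x hne))
  rw [hint] at T
  refine T.congr' ?_
  filter_upwards [eventually_ge_atTop 1] with m hm
  have hm0 : (m : ℝ) ≠ 0 := by positivity
  have hmpos : (0 : ℝ) < m := by positivity
  have : NeZero m := ⟨by omega⟩
  rw [Fintype.card_fin]
  congr 1
  set t := Fintype.piFinset (fun _ : Fin d => Finset.Ico (a * m) (b * m)) with ht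
  set g : (Fin d → ℤ) → (Fin d → ℝ) := fun k i => (k i : ℝ) / m with hg
  have hinj : Function.Injective g := by
    intro k k' h
    funext i
    have h1 := congrFun h i
    simp only [hg] at h1
    field_simp at h1
    exact_mod_cast h1
  have himg : s ∩ (m : ℝ)⁻¹ • (Submodule.span ℤ (Set.range (Pi.basisFun ℝ (Fin d))) : Set (Fin d → ℝ))
      = g '' (t : Set (Fin d → ℤ)) := by
    ext x
    have hiff : x ∈ (m : ℝ)⁻¹ • (Submodule.span ℤ (Set.range (Pi.basisFun ℝ (Fin d))) : Set (Fin d → ℝ)) ↔
        ∀ i, (m : ℝ) * x i ∈ Set.range (algebraMap ℤ ℝ) := by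
      have := @BoxIntegral.unitPartition.mem_smul_span_iff (Fin d) m _ _ x
      rw [← this]
      rfl
    constructor
    · rintro ⟨h1, h2⟩
      rw [hiff] at h2
      choose k hk using h2
      refine ⟨k, ?_, ?_⟩
      · rw [Finset.mem_coe, ht, Fintype.mem_piFinset]
        intro i
        have h3 := (hmem x).1 h1 i
        have h4 : (k i : ℝ) = m * x i := by
          have := hk i
          simpa using this
        rw [Finset.mem_Ico]
        constructor
        · have : ((a * m : ℤ) : ℝ) ≤ (k i : ℝ) := by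
            rw [h4]; push_cast
            nlinarith [h3.1]
          exact_mod_cast this
        · have : (k i : ℝ) < ((b * m : ℤ) : ℝ) := by
            rw [h4]; push_cast
            nlinarith [h3.2]
          exact_mod_cast this
      · funext i
        have h4 : (k i : ℝ) = m * x i := by
          have := hk i
          simpa using this
        simp only [hg]
        rw [h4]; field_simp
    · rintro ⟨k, hk, rfl⟩
      rw [Finset.mem_coe, ht, Fintype.mem_piFinset] at hk
      refine ⟨(hmem _).2 (fun i => ?_), hiff.2 (fun i => ⟨k i, ?_⟩)⟩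
      · have h3 := Finset.mem_Ico.1 (hk i)
        simp only [hg]
        constructor
        · rw [le_div_iff₀ hmpos]; exact_mod_cast h3.1
        · rw [div_lt_iff₀ hmpos]; exact_mod_cast h3.2
      · simp only [hg]
        rw [eq_intCast]; field_simp
  have h1 : (∑' x : ↑(s ∩ (m : ℝ)⁻¹ • (Submodule.span ℤ (Set.range (Pi.basisFun ℝ (Fin d))) : Set (Fin d → ℝ))), F x)
      = ∑' x : ↑(g '' (t : Set (Fin d → ℤ))), F x := by
    rw [himg]
  have h2 : (∑' x : ↑(g '' (t : Set (Fin d → ℤ))), F x) = ∑' x : ↑(t : Set (Fin d → ℤ)), F (g x) :=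
    tsum_image F (hinj.injOn)
  have h3 : (∑' x : ↑(t : Set (Fin d → ℤ)), F (g x)) = ∑ k ∈ t, F (g k) :=
    Finset.tsum_subtype t (fun k => F (g k))
  exact h1.trans (h2.trans h3)

/-- The same with the points of the torus grid. -/
theorem riemann_fin {d : ℕ} (l : ℕ) (F : (Fin d → ℝ) → ℝ) (hF : Continuous F)
    (hs : ∀ x, F x ≠ 0 → ∀ i, (0 : ℝ) ≤ x i ∧ x i < l) :
    Tendsto (fun m : ℕ => (∑ k : Fin d → Fin (l * m), F (fun i => ((k i : ℕ) : ℝ) / m)) / (m : ℝ) ^ d)
      atTop (𝓝 (∫ x, F x)) := by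
  classical
  have T := riemann_box (0 : ℤ) (l : ℤ) F hF (by simpa using hs)
  refine T.congr (fun m => ?_)
  congr 1
  symm
  refine Finset.sum_bij (fun k _ => fun i => ((k i : ℕ) : ℤ)) ?_ ?_ ?_ ?_
  · intro k _
    rw [Fintype.mem_piFinset]
    intro i
    rw [Finset.mem_Ico]
    have h1 := (k i).isLt
    constructor
    · simp
    · exact_mod_cast h1
  · intro k _ k' _ h
    funext i
    have h1 := congrFun h i
    apply Fin.ext
    exact_mod_cast h1
  · intro z hz
    rw [Fintype.mem_piFinset] at hz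
    have hz' : ∀ i, 0 ≤ z i ∧ z i < (l : ℤ) * m := by
      intro i
      have := Finset.mem_Ico.1 (hz i)
      simpa using this
    refine ⟨fun i => ⟨(z i).toNat, ?_⟩, Finset.mem_univ _, ?_⟩
    · have h1 := hz' i
      have h2 : ((z i).toNat : ℤ) = z i := Int.toNat_of_nonneg h1.1
      have h3 : ((z i).toNat : ℤ) < ((l * m : ℕ) : ℤ) := by rw [h2]; push_cast; exact h1.2
      exact_mod_cast h3
    · funext i
      have h1 := hz' i
      exact Int.toNat_of_nonneg h1.1
  · intro k _
    rfl

/-- Sums over the whole lattice `m⁻¹ ℤ^d` of a function with bounded support. -/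
theorem riemann_tsum {d : ℕ} (R : ℕ) (F : (Fin d → ℝ) → ℝ) (hF : Continuous F)
    (hs : ∀ x, F x ≠ 0 → ∀ i, |x i| < R) :
    Tendsto (fun m : ℕ => (∑' k : Fin d → ℤ, F (fun i => (k i : ℝ) / m)) / (m : ℝ) ^ d)
      atTop (𝓝 (∫ x, F x)) := by
  classical
  have T := riemann_box (-(R : ℤ)) (R : ℤ) F hF (by
    intro x hx i
    have h := abs_lt.1 (hs x hx i)
    push_cast
    exact ⟨h.1.le, h.2⟩)
  refine T.congr' ?_
  filter_upwards [eventually_ge_atTop 1] with m hm
  have hmpos : (0 : ℝ) < m := by positivity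
  congr 1
  symm
  refine tsum_eq_sum (fun k hk => ?_)
  by_contra hne
  apply hk
  rw [Fintype.mem_piFinset]
  intro i
  have h1 := abs_lt.1 (hs _ hne i)
  rw [Finset.mem_Ico]
  constructor
  · have h2 : -(R : ℝ) * m ≤ k i := by
      have := h1.1.le
      rwa [le_div_iff₀ hmpos] at this
    exact_mod_cast h2
  · have h2 : (k i : ℝ) < R * m := by
      have := h1.2
      rwa [div_lt_iff₀ hmpos] at this
    exact_mod_cast h2

end CLRT
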