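import Pool.Agent.Lib.MP_efa090_mp.TStep

namespace CLRT

open Matrix

variable {n : Type*} [Fintype n] [DecidableEq n]

/-- The defect along the truncation flow. -/
noncomputable def DD (U : Matrix n n ℂ) (x y : n → ℝ) (r : ℝ) : ℝ :=
  (∑ i, ∑ j, ‖U i j‖ ^ 2 * ff (max (x i) r / max (y j) r)) -
    trf (NN U (fun i => max (x i) r) (fun j => max (y j) r))

lemma sum_w (U : Matrix n n ℂ) (hU : Uᴴ * U = 1) :
    ∑ i, ∑ j, ‖U i j‖ ^ 2 = (Fintype.card n : ℝ) := by
  rw [Finset.sum_comm]
  have hcol : ∀ j, ∑ k, ‖U k j‖ ^ 2 = 1 := by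
    intro k
    have h1 := quad U (fun _ => 1) k
    rw [dg_one (fun _ => rfl), Matrix.mul_one, hU, Matrix.one_apply_eq] at h1
    have h2 : (1 : ℝ) = ∑ i, (1 : ℝ) * ‖U i k‖ ^ 2 := by exact_mod_cast h1
    simpa using h2.symm
  simp [hcol]

lemma flow_step (U : Matrix n n ℂ) (hU : Uᴴ * U = 1) (x y : n → ℝ) {r q : ℝ} (hr : 0 < r)
    (hq : 1 < q) :
    DD U x y (q * r) - 2 * (q - 1) ^ 2 * (Fintype.card n : ℝ) ≤ DD U x y r := by
  have hR : r ≤ q * r := by nlinarith
  have hmax : ∀ z : ℝ, max (max z r) (q * r) = max z (q * r) := by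
    intro z
    rw [max_assoc, max_eq_right hR]
  have hpx : ∀ z : ℝ, 0 < max z r := fun z => lt_of_lt_of_le hr (le_max_right _ _)
  have hpR : ∀ z : ℝ, 0 < max z (q * r) := fun z =>
    lt_of_lt_of_le hr (hR.trans (le_max_right _ _))
  have h1 := step_y U hU (fun i => max (x i) r) (fun j => max (y j) r)
    (fun j => max (y j) (q * r)) (fun i => hpx _) (fun j => hpx _)
    (fun j => max_le_max_left _ hR)
  have h2 := mono_x U (fun i => max (x i) r) (fun i => max (x i) (q * r))
    (fun j => max (y j) (q * r)) (fun i => (hpx _).le) (fun i => max_le_max_left _ hR)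
    (fun j => hpR _)
  have h3 : ∑ j, (1 / max (y j) r - 1 / max (y j) (q * r)) *
        ∑ i, ‖U i j‖ ^ 2 * ((max (x i) r - max (y j) r) ^ 2 / max (x i) r) ≤
      (∑ i, ∑ j, ‖U i j‖ ^ 2 * ff (max (x i) r / max (y j) r)) -
      (∑ i, ∑ j, ‖U i j‖ ^ 2 * ff (max (x i) (q * r) / max (y j) (q * r))) +
      2 * (q - 1) ^ 2 * (Fintype.card n : ℝ) := by
    rw [← sum_w U hU, ← Finset.sum_sub_distrib, Finset.mul_sum, ← Finset.sum_add_distrib]
    simp only [Finset.mul_sum]
    rw [Finset.sum_comm]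
    refine Finset.sum_le_sum fun i _ => ?_
    rw [← Finset.sum_sub_distrib, ← Finset.sum_add_distrib]
    refine Finset.sum_le_sum fun j _ => ?_
    have h4 := scalar_step hr hq (le_max_right (x i) r) (le_max_right (y j) r)
    rw [hmax, hmax] at h4
    have h5 := mul_le_mul_of_nonneg_left h4 (sq_nonneg ‖U i j‖)
    calc (1 / max (y j) r - 1 / max (y j) (q * r)) *
          (‖U i j‖ ^ 2 * ((max (x i) r - max (y j) r) ^ 2 / max (x i) r))
        = ‖U i j‖ ^ 2 * ((1 / max (y j) r - 1 / max (y j) (q * r)) *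
          ((max (x i) r - max (y j) r) ^ 2 / max (x i) r)) := by ring
      _ ≤ _ := h5
      _ = _ := by ring
  unfold DD
  linarith

lemma flow_iter (U : Matrix n n ℂ) (hU : Uᴴ * U = 1) (x y : n → ℝ) {r q : ℝ} (hr : 0 < r)
    (hq : 1 < q) (K : ℕ) :
    DD U x y (q ^ K * r) - K * (2 * (q - 1) ^ 2 * (Fintype.card n : ℝ)) ≤ DD U x y r := by
  induction K with
  | zero => simp
  | succ K ih =>
    have h0 : 0 < q ^ K * r := by positivity
    have h1 := flow_step U hU x y h0 hq
    have e : q ^ (K + 1) * r = q * (q ^ K * r) := by ring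
    rw [e]
    push_cast
    linarith

lemma trf_one : trf (1 : Matrix n n ℂ) = 0 := by
  have h : Dg (1 : Matrix n n ℂ) 1 (fun _ => 1) := by
    refine ⟨by simp, by simp, ?_⟩
    rw [dg_one (fun _ => rfl)]
    simp
  rw [trf_eq h]
  simp [ff_of_le (le_refl 1)]

lemma flow_end (U : Matrix n n ℂ) (hU : Uᴴ * U = 1) (x y : n → ℝ) {r : ℝ} (hr : 0 < r)
    (hx : ∀ i, x i ≤ r) (hy : ∀ j, y j ≤ r) : DD U x y r = 0 := by
  have hU' : U * Uᴴ = 1 := mul_eq_one_comm.mp hU
  unfold DD
  have e1 : (fun i => max (x i) r) = fun _ => r := by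
    funext i
    exact max_eq_right (hx i)
  have e2 : (fun j => max (y j) r) = fun _ => r := by
    funext i
    exact max_eq_right (hy i)
  rw [e1, e2]
  have e3 : NN U (fun _ => r) (fun _ => r) = 1 := by
    unfold NN
    have h1 : dg (fun _ : n => √r) = (√r : ℂ) • (1 : Matrix n n ℂ) := by
      unfold dg
      rw [← diagonal_one, ← diagonal_smul]
      congr 1
      funext i
      simp
    have h2 : dg (fun _ : n => 1 / r) = ((1 / r : ℝ) : ℂ) • (1 : Matrix n n ℂ) := by
      unfold dg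
      rw [← diagonal_one, ← diagonal_smul]
      congr 1
      funext i
      simp
    rw [h1, h2]
    simp only [Matrix.smul_mul, Matrix.mul_smul, Matrix.one_mul, Matrix.mul_one, smul_smul]
    rw [hU']
    have h3 : (√r : ℂ) * (((1 / r : ℝ) : ℂ) * (√r : ℂ)) = 1 := by
      have h4 : √r * (1 / r * √r) = 1 := by
        rw [mul_comm (1 / r), ← mul_assoc, Real.mul_self_sqrt hr.le]
        field_simp
      exact_mod_cast h4
    rw [h3, one_smul]
  rw [e3, trf_one, sub_zero]
  refine Finset.sum_eq_zero fun i _ => Finset.sum_eq_zero fun j _ => ?_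
  rw [max_eq_right (hx i), max_eq_right (hy j), div_self hr.ne', ff_of_le (le_refl 1), mul_zero]

lemma exp_bd {s : ℝ} (h0 : 0 ≤ s) (h1 : s ≤ 1 / 2) : Real.exp s - 1 ≤ 2 * s := by
  have h2 := Real.add_one_le_exp (-s)
  have h3 : Real.exp (-s) * Real.exp s = 1 := by
    rw [← Real.exp_add]
    simp
  have h4 : 0 < Real.exp s := Real.exp_pos s
  nlinarith

/-- The matrix inequality. -/
theorem matrix_ineq (U : Matrix n n ℂ) (hU : Uᴴ * U = 1) (x y : n → ℝ)
    (hx : ∀ i, 0 < x i) (hy : ∀ j, 0 < y j) :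
    trf (NN U x y) ≤ ∑ i, ∑ j, ‖U i j‖ ^ 2 * ff (x i / y j) := by
  -- lower and upper truncation levels
  obtain ⟨a, ha0, hax, hay⟩ : ∃ a : ℝ, 0 < a ∧ (∀ i, a ≤ x i) ∧ (∀ j, a ≤ y j) := by
    have hs1 : 0 ≤ ∑ i, 1 / x i := Finset.sum_nonneg fun i _ => by
      have := hx i
      positivity
    have hs2 : 0 ≤ ∑ j, 1 / y j := Finset.sum_nonneg fun j _ => by
      have := hy j
      positivity
    refine ⟨1 / (∑ i, 1 / x i + ∑ j, 1 / y j + 1), by positivity, fun i => ?_, fun j => ?_⟩
    · have h1 : 1 / x i ≤ ∑ i, 1 / x i :=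
        Finset.single_le_sum (f := fun i => 1 / x i) (fun i _ => by
          have := hx i
          positivity) (Finset.mem_univ i)
      have h2 : 0 < 1 / x i := by
        have := hx i
        positivity
      calc 1 / (∑ i, 1 / x i + ∑ j, 1 / y j + 1) ≤ 1 / (1 / x i) :=
            one_div_le_one_div_of_le h2 (by linarith)
        _ = x i := by rw [one_div_one_div]
    · have h1 : 1 / y j ≤ ∑ j, 1 / y j :=
        Finset.single_le_sum (f := fun i => 1 / y i) (fun i _ => by
          have := hy i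
          positivity) (Finset.mem_univ j)
      have h2 : 0 < 1 / y j := by
        have := hy j
        positivity
      calc 1 / (∑ i, 1 / x i + ∑ j, 1 / y j + 1) ≤ 1 / (1 / y j) :=
            one_div_le_one_div_of_le h2 (by linarith)
        _ = y j := by rw [one_div_one_div]
  obtain ⟨b, hab, hbx, hby⟩ : ∃ b : ℝ, a < b ∧ (∀ i, x i ≤ b) ∧ (∀ j, y j ≤ b) := by
    have hs1 : 0 ≤ ∑ i, x i := Finset.sum_nonneg fun i _ => (hx i).le
    have hs2 : 0 ≤ ∑ j, y j := Finset.sum_nonneg fun j _ => (hy j).le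
    refine ⟨∑ i, x i + ∑ j, y j + a + 1, by linarith, fun i => ?_, fun j => ?_⟩
    · have h1 : x i ≤ ∑ i, x i :=
        Finset.single_le_sum (f := x) (fun i _ => (hx i).le) (Finset.mem_univ i)
      linarith
    · have h1 : y j ≤ ∑ j, y j :=
        Finset.single_le_sum (f := y) (fun i _ => (hy i).le) (Finset.mem_univ j)
      linarith
  have hDa : DD U x y a = (∑ i, ∑ j, ‖U i j‖ ^ 2 * ff (x i / y j)) - trf (NN U x y) := by
    unfold DD
    have e1 : (fun i => max (x i) a) = x := funext fun i => max_eq_left (hax i)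
    have e2 : (fun j => max (y j) a) = y := funext fun j => max_eq_left (hay j)
    rw [e1, e2]
    congr 1
    refine Finset.sum_congr rfl fun i _ => Finset.sum_congr rfl fun j _ => ?_
    rw [max_eq_left (hax i), max_eq_left (hay j)]
  have hDb : DD U x y b = 0 := flow_end U hU x y (ha0.trans hab) hbx hby
  set T : ℝ := Real.log (b / a) with hT
  have hT0 : 0 < T := Real.log_pos (by rw [lt_div_iff₀ ha0]; linarith)
  have hb : Real.exp T * a = b := by
    rw [hT, Real.exp_log (div_pos (ha0.trans hab) ha0)]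
    field_simp
  have key : ∀ K : ℕ, 2 * T ≤ K → -(8 * T ^ 2 * (Fintype.card n : ℝ) / K) ≤ DD U x y a := by
    intro K hK
    have hK0 : (0 : ℝ) < K := by linarith
    set q : ℝ := Real.exp (T / K) with hq
    have hq1 : 1 < q := by
      rw [hq]
      exact Real.one_lt_exp_iff.mpr (by positivity)
    have hqK : q ^ K * a = b := by
      rw [hq, ← Real.exp_nat_mul, ← hb]
      congr 2
      field_simp
    have h1 := flow_iter U hU x y ha0 hq1 K
    rw [hqK, hDb] at h1
    have h2 : q - 1 ≤ 2 * (T / K) := by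
      apply exp_bd (by positivity)
      rw [div_le_iff₀ hK0]
      linarith
    have h3 : (q - 1) ^ 2 ≤ (2 * (T / K)) ^ 2 := by
      apply pow_le_pow_left₀ _ h2
      linarith
    have h4 : (K : ℝ) * (2 * (q - 1) ^ 2 * (Fintype.card n : ℝ)) ≤
        (K : ℝ) * (2 * (2 * (T / K)) ^ 2 * (Fintype.card n : ℝ)) := by
      gcongr
    have h5 : (K : ℝ) * (2 * (2 * (T / K)) ^ 2 * (Fintype.card n : ℝ)) =
        8 * T ^ 2 * (Fintype.card n : ℝ) / K := by
      field_simp
      ring
    linarith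
  have hlim : Filter.Tendsto (fun K : ℕ => -(8 * T ^ 2 * (Fintype.card n : ℝ) / K))
      Filter.atTop (nhds (-0)) :=
    (tendsto_const_div_atTop_nhds_zero_nat _).neg
  have hev : ∀ᶠ K : ℕ in Filter.atTop, -(8 * T ^ 2 * (Fintype.card n : ℝ) / K) ≤ DD U x y a := by
    obtain ⟨K0, hK0⟩ := exists_nat_ge (2 * T)
    filter_upwards [Filter.eventually_ge_atTop K0] with K hK
    apply key
    have : (K0 : ℝ) ≤ K := by exact_mod_cast hK
    linarith
  have hfin := le_of_tendsto hlim hev
  rw [hDa] at hfin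
  linarith

end CLRT
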