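import Pool.Agent.Lib.MP_efa090_mp.TSc

namespace CLRT

open Matrix

variable {n : Type*} [Fintype n] [DecidableEq n]

/-- The sum of `ff` over the eigenvalues (roots of the characteristic polynomial). -/
noncomputable def trf (A : Matrix n n ℂ) : ℝ :=
  (A.charpoly.roots.map (fun z => ff z.re)).sum

/-- The complex diagonal matrix with real entries `a`. -/
noncomputable def dg (a : n → ℝ) : Matrix n n ℂ := diagonal (fun k => (a k : ℂ))

lemma dg_mul (a b : n → ℝ) : dg a * dg b = dg (fun k => a k * b k) := by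
  simp [dg, diagonal_mul_diagonal]

lemma dg_conj (a : n → ℝ) : (dg a)ᴴ = dg a := by
  unfold dg
  rw [diagonal_conjTranspose]
  congr 1
  funext k
  simp

lemma dg_sub (a b : n → ℝ) : dg a - dg b = dg (fun k => a k - b k) := by
  unfold dg
  rw [diagonal_sub]
  congr 1
  funext k
  simp

lemma dg_one {a : n → ℝ} (h : ∀ k, a k = 1) : dg a = 1 := by
  unfold dg
  rw [← diagonal_one]
  congr 1
  funext k
  simp [h k]

lemma quad (P : Matrix n n ℂ) (a : n → ℝ) (k : n) :
    (Pᴴ * dg a * P) k k = ((∑ i, a i * ‖P i k‖ ^ 2 : ℝ) : ℂ) := by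
  rw [Matrix.mul_apply]
  push_cast
  refine Finset.sum_congr rfl fun i _ => ?_
  unfold dg
  rw [Matrix.mul_diagonal, conjTranspose_apply, ← Complex.conj_mul']
  simp only [Complex.star_def]
  ring

lemma quad' (P : Matrix n n ℂ) (a : n → ℝ) (k : n) :
    (P * dg a * Pᴴ) k k = ((∑ i, a i * ‖P k i‖ ^ 2 : ℝ) : ℂ) := by
  have h := quad Pᴴ a k
  rw [conjTranspose_conjTranspose] at h
  rw [h]
  congr 1
  refine Finset.sum_congr rfl fun i _ => ?_
  rw [conjTranspose_apply, norm_star]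

/-- A unitary diagonalisation with real eigenvalues. -/
structure Dg (A V : Matrix n n ℂ) (a : n → ℝ) : Prop where
  left : Vᴴ * V = 1
  right : V * Vᴴ = 1
  eq : A = V * dg a * Vᴴ

lemma exists_Dg {A : Matrix n n ℂ} (hA : A.IsHermitian) : ∃ V a, Dg A V a := by
  refine ⟨hA.eigenvectorUnitary, hA.eigenvalues, ?_, ?_, ?_⟩
  · exact Unitary.coe_star_mul_self hA.eigenvectorUnitary
  · exact Unitary.coe_mul_star_self hA.eigenvectorUnitary
  · have := hA.spectral_theorem
    rw [Unitary.conjStarAlgAut_apply] at this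
    exact this

open Polynomial in
lemma trf_eq {A V : Matrix n n ℂ} {a : n → ℝ} (h : Dg A V a) : trf A = ∑ k, ff (a k) := by
  have h1 : A.charpoly = ∏ i, (X - C (a i : ℂ)) := by
    conv_lhs => rw [h.eq, charpoly_mul_comm, ← mul_assoc, h.left, one_mul]
    simp [dg, charpoly_diagonal]
  unfold trf
  rw [h1, Polynomial.roots_prod]
  · simp
  · simp [Finset.prod_ne_zero_iff, Polynomial.X_sub_C_ne_zero]

lemma trf_comm (A B : Matrix n n ℂ) : trf (A * B) = trf (B * A) := by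
  unfold trf
  rw [charpoly_mul_comm]

lemma Dg.conj {A V : Matrix n n ℂ} {a : n → ℝ} (h : Dg A V a) : Vᴴ * A * V = dg a := by
  have e : Vᴴ * A * V = (Vᴴ * V) * dg a * (Vᴴ * V) := by
    rw [h.eq]
    simp only [Matrix.mul_assoc]
  rw [e, h.left, Matrix.one_mul, Matrix.mul_one]

/-- Klein's inequality. -/
lemma klein {A V B : Matrix n n ℂ} {a : n → ℝ} (hA : Dg A V a) (hB : B.IsHermitian)
    (c : n → ℝ) (hc : ∀ k, (Vᴴ * (B - A) * V) k k = (c k : ℂ)) :
    trf A + ∑ k, fd (a k) * c k ≤ trf B := by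
  obtain ⟨W, b, hW⟩ := exists_Dg hB
  have hP1 : (Vᴴ * W) * (Vᴴ * W)ᴴ = 1 := by
    rw [conjTranspose_mul, conjTranspose_conjTranspose]
    have e : Vᴴ * W * (Wᴴ * V) = Vᴴ * (W * Wᴴ) * V := by simp only [Matrix.mul_assoc]
    rw [e, hW.right, Matrix.mul_one, hA.left]
  have hP2 : (Vᴴ * W)ᴴ * (Vᴴ * W) = 1 := by
    rw [conjTranspose_mul, conjTranspose_conjTranspose]
    have e : Wᴴ * V * (Vᴴ * W) = Wᴴ * (V * Vᴴ) * W := by simp only [Matrix.mul_assoc]
    rw [e, hA.right, Matrix.mul_one, hW.left]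
  have hP3 : Vᴴ * B * V = (Vᴴ * W) * dg b * (Vᴴ * W)ᴴ := by
    rw [conjTranspose_mul, conjTranspose_conjTranspose]
    conv_lhs => rw [hW.eq]
    simp only [Matrix.mul_assoc]
  set P := Vᴴ * W with hP
  have hrow : ∀ k, ∑ j, ‖P k j‖ ^ 2 = 1 := by
    intro k
    have h1 := quad' P (fun _ => 1) k
    rw [dg_one (fun _ => rfl), Matrix.mul_one, hP1, Matrix.one_apply_eq] at h1
    have h2 : (1 : ℝ) = ∑ i, (1 : ℝ) * ‖P k i‖ ^ 2 := by exact_mod_cast h1
    simpa using h2.symm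
  have hcol : ∀ j, ∑ k, ‖P k j‖ ^ 2 = 1 := by
    intro k
    have h1 := quad P (fun _ => 1) k
    rw [dg_one (fun _ => rfl), Matrix.mul_one, hP2, Matrix.one_apply_eq] at h1
    have h2 : (1 : ℝ) = ∑ i, (1 : ℝ) * ‖P i k‖ ^ 2 := by exact_mod_cast h1
    simpa using h2.symm
  have hck : ∀ k, c k = ∑ j, ‖P k j‖ ^ 2 * b j - a k := by
    intro k
    have h1 := hc k
    rw [Matrix.mul_sub, Matrix.sub_mul, hP3, hA.conj, Matrix.sub_apply, quad'] at h1
    have h2 : dg a k k = (a k : ℂ) := by simp [dg]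
    rw [h2] at h1
    have h3 : (∑ i, b i * ‖P k i‖ ^ 2) - a k = c k := by exact_mod_cast h1
    rw [← h3]
    congr 1
    exact Finset.sum_congr rfl fun j _ => mul_comm _ _
  rw [trf_eq hA, trf_eq hW]
  have e1 : ∑ j, ff (b j) = ∑ k, ∑ j, ‖P k j‖ ^ 2 * ff (b j) := by
    rw [Finset.sum_comm]
    refine Finset.sum_congr rfl fun j _ => ?_
    rw [← Finset.sum_mul, hcol j, one_mul]
  rw [e1, ← Finset.sum_add_distrib]
  refine Finset.sum_le_sum fun k _ => ?_
  have e2 : ff (a k) + fd (a k) * c k =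
      ∑ j, ‖P k j‖ ^ 2 * (ff (a k) + fd (a k) * (b j - a k)) := by
    have e3 : ∀ j, ‖P k j‖ ^ 2 * (ff (a k) + fd (a k) * (b j - a k)) =
        (ff (a k) - fd (a k) * a k) * ‖P k j‖ ^ 2 + fd (a k) * (‖P k j‖ ^ 2 * b j) := by
      intro j
      ring
    rw [Finset.sum_congr rfl fun j _ => e3 j, Finset.sum_add_distrib, ← Finset.mul_sum,
      ← Finset.mul_sum, hrow k, hck k]
    ring
  rw [e2]
  refine Finset.sum_le_sum fun j _ => ?_
  exact mul_le_mul_of_nonneg_left (ff_tangent _ _) (by positivity)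

end CLRT
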