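import Mathlib

namespace CLRT

open Real

/-- The function `g - 2 log g - 1 / g` for `g ≥ 1`, and `0` below `1`. -/
noncomputable def ff (g : ℝ) : ℝ := if 1 ≤ g then g - 2 * Real.log g - 1 / g else 0

/-- Its derivative `(1 - 1 / g)^2` for `g ≥ 1`, and `0` below `1`. -/
noncomputable def fd (g : ℝ) : ℝ := if 1 ≤ g then (1 - 1 / g) ^ 2 else 0

lemma ff_of_ge {g : ℝ} (h : 1 ≤ g) : ff g = g - 2 * Real.log g - 1 / g := by
  simp [ff, h]

lemma ff_of_le {g : ℝ} (h : g ≤ 1) : ff g = 0 := by
  unfold ff
  split_ifs with h1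
  · have : g = 1 := le_antisymm h h1
    subst this
    simp
  · rfl

lemma fd_of_ge {g : ℝ} (h : 1 ≤ g) : fd g = (1 - 1 / g) ^ 2 := by
  simp [fd, h]

lemma fd_of_le {g : ℝ} (h : g ≤ 1) : fd g = 0 := by
  unfold fd
  split_ifs with h1
  · have : g = 1 := le_antisymm h h1
    subst this
    simp
  · rfl

lemma fd_nonneg (g : ℝ) : 0 ≤ fd g := by
  unfold fd
  split_ifs
  · positivity
  · exact le_rfl

lemma fd_le (g : ℝ) : fd g ≤ (1 - 1 / g) ^ 2 := by
  unfold fd
  split_ifs
  · exact le_rfl
  · positivity

lemma log_bound {t : ℝ} (ht : 1 ≤ t) : 2 * Real.log t ≤ t - 1 / t := by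
  have h0 : 0 < t := by linarith
  have h1 : 0 ≤ Real.log t := Real.log_nonneg ht
  have h2 := Real.self_le_sinh_iff.mpr h1
  rw [Real.sinh_eq, Real.exp_neg, Real.exp_log h0] at h2
  rw [one_div]
  linarith

lemma ff_nonneg (g : ℝ) : 0 ≤ ff g := by
  rcases le_total g 1 with h | h
  · rw [ff_of_le h]
  · rw [ff_of_ge h]
    have := log_bound h
    linarith

lemma ff_sub {a b : ℝ} (ha : 1 ≤ a) (hb : 1 ≤ b) :
    ff a + fd a * (b - a) ≤ ff b := by
  have hder : ∀ g : ℝ, 0 < g →
      HasDerivAt (fun g : ℝ => g - 2 * Real.log g - 1 / g) ((1 - 1 / g) ^ 2) g := by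
    intro g hg
    have h1 := (hasDerivAt_id g).sub ((Real.hasDerivAt_log hg.ne').const_mul 2)
    have h2 := h1.sub (hasDerivAt_inv hg.ne')
    have h3 : (1 - 1 / g) ^ 2 = 1 - 2 * g⁻¹ - (-(g ^ 2)⁻¹) := by
      field_simp
      ring
    rw [h3]
    refine h2.congr_of_eventuallyEq (Filter.Eventually.of_forall fun z => ?_)
    simp [one_div]
  have hmono : ∀ u v : ℝ, 1 ≤ u → u ≤ v → (1 - 1 / u) ^ 2 ≤ (1 - 1 / v) ^ 2 := by
    intro u v hu huv
    have h1 : 1 / v ≤ 1 / u := one_div_le_one_div_of_le (by linarith) huv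
    have h2 : 1 / u ≤ 1 := by
      rw [div_le_one (by linarith)]
      exact hu
    apply pow_le_pow_left₀
    · linarith
    · linarith
  rw [ff_of_ge ha, ff_of_ge hb, fd_of_ge ha]
  rcases lt_trichotomy a b with hab | hab | hab
  · obtain ⟨c, hc, hc2⟩ := exists_hasDerivAt_eq_slope
      (fun g : ℝ => g - 2 * Real.log g - 1 / g) (fun g => (1 - 1 / g) ^ 2) hab
      (fun z hz => (hder z (by linarith [hz.1])).continuousAt.continuousWithinAt)
      (fun z hz => hder z (by linarith [hz.1]))
    have h1 := hmono a c ha hc.1.le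
    have h2 : (1 - 1 / c) ^ 2 * (b - a) =
        (b - 2 * Real.log b - 1 / b) - (a - 2 * Real.log a - 1 / a) := by
      have h3 : (1 - 1 / c) ^ 2 = ((b - 2 * Real.log b - 1 / b) -
        (a - 2 * Real.log a - 1 / a)) / (b - a) := hc2
      rw [h3]
      field_simp [(sub_pos.mpr hab).ne']
    have h4 : (1 - 1 / a) ^ 2 * (b - a) ≤ (1 - 1 / c) ^ 2 * (b - a) :=
      mul_le_mul_of_nonneg_right h1 (by linarith)
    linarith
  · subst hab
    simp
  · obtain ⟨c, hc, hc2⟩ := exists_hasDerivAt_eq_slope
      (fun g : ℝ => g - 2 * Real.log g - 1 / g) (fun g => (1 - 1 / g) ^ 2) hab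
      (fun z hz => (hder z (by linarith [hz.1])).continuousAt.continuousWithinAt)
      (fun z hz => hder z (by linarith [hz.1]))
    have h1 := hmono c a (by linarith [hc.1]) hc.2.le
    have h2 : (1 - 1 / c) ^ 2 * (a - b) =
        (a - 2 * Real.log a - 1 / a) - (b - 2 * Real.log b - 1 / b) := by
      have h3 : (1 - 1 / c) ^ 2 = ((a - 2 * Real.log a - 1 / a) -
        (b - 2 * Real.log b - 1 / b)) / (a - b) := hc2
      rw [h3]
      field_simp [(sub_pos.mpr hab).ne']
    have h4 : (1 - 1 / c) ^ 2 * (a - b) ≤ (1 - 1 / a) ^ 2 * (a - b) :=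
      mul_le_mul_of_nonneg_right h1 (by linarith)
    linarith

/-- The tangent line inequality (convexity of `ff`). -/
lemma ff_tangent (a b : ℝ) : ff a + fd a * (b - a) ≤ ff b := by
  rcases le_total a 1 with ha | ha
  · rw [ff_of_le ha, fd_of_le ha]
    simpa using ff_nonneg b
  rcases le_total 1 b with hb | hb
  · exact ff_sub ha hb
  · have h1 := ff_sub ha (le_refl 1)
    rw [ff_of_le (le_refl 1)] at h1
    rw [ff_of_le hb]
    have h2 : fd a * (b - a) ≤ fd a * (1 - a) :=
      mul_le_mul_of_nonneg_left (by linarith) (fd_nonneg a)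
    linarith

lemma ff_mono {a b : ℝ} (h : a ≤ b) : ff a ≤ ff b := by
  have h1 := ff_tangent a b
  have h2 : 0 ≤ fd a * (b - a) := mul_nonneg (fd_nonneg a) (by linarith)
  linarith

lemma ff_continuous : Continuous ff := by
  have h : ff = fun g : ℝ => max g 1 - 2 * Real.log (max g 1) - 1 / (max g 1) := by
    funext g
    rcases le_total g 1 with h | h
    · rw [ff_of_le h, max_eq_right h]
      simp
    · rw [ff_of_ge h, max_eq_left h]
  rw [h]
  have h0 : ∀ g : ℝ, max g 1 ≠ 0 := fun g => by
    have : (1 : ℝ) ≤ max g 1 := le_max_right _ _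
    positivity
  have hc : Continuous fun g : ℝ => max g 1 := continuous_id.max continuous_const
  exact (hc.sub (continuous_const.mul (hc.log h0))).sub (continuous_const.div hc h0)

/-- The scalar inequality for one step of the truncation flow. -/
lemma scalar_step {r q u v : ℝ} (hr : 0 < r) (hq : 1 < q) (hu : r ≤ u)
    (hv : r ≤ v) :
    (1 / v - 1 / max v (q * r)) * ((u - v) ^ 2 / u) ≤
      ff (u / v) - ff (max u (q * r) / max v (q * r)) + 2 * (q - 1) ^ 2 := by
  have hu0 : 0 < u := by linarith
  have hv0 : 0 < v := by linarith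
  have hR : 0 < q * r := by positivity
  rcases le_total (q * r) v with h1 | h1
  · -- v ≥ R
    rw [max_eq_left h1]
    rw [sub_self, zero_mul]
    rcases le_total (q * r) u with h2 | h2
    · rw [max_eq_left h2]
      nlinarith [sq_nonneg (q - 1)]
    · rw [max_eq_right h2]
      have h3 : ff (q * r / v) = 0 := ff_of_le (by rw [div_le_one hv0]; exact h1)
      rw [h3]
      nlinarith [sq_nonneg (q - 1), ff_nonneg (u / v)]
  · rw [max_eq_right h1]
    rcases le_total (q * r) u with h2 | h2
    · rw [max_eq_left h2]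
      -- u ≥ R ≥ v
      have hp1 : 1 ≤ q * r / v := by
        rw [le_div_iff₀ hv0]
        linarith
      have hpq : q * r / v ≤ q := by
        rw [div_le_iff₀ hv0]
        nlinarith
      set p := q * r / v with hp
      have hp0 : 0 < p := by linarith
      have hRv : q * r = p * v := by
        rw [hp]
        field_simp
      set g := u / v with hg
      have hug : u = g * v := by
        rw [hg]
        field_simp
      have hgp : p ≤ g := by
        rw [hp, hg]
        exact div_le_div_of_nonneg_right h2 hv0.le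
      have hg1 : 1 ≤ g := by linarith
      have hg0 : 0 < g := by linarith
      have hq3 : u / (q * r) = g / p := by
        rw [hRv, hug]
        field_simp
      rw [hq3]
      have hgp1 : 1 ≤ g / p := by
        rw [le_div_iff₀ hp0]
        linarith
      rw [ff_of_ge hg1, ff_of_ge hgp1, Real.log_div hg0.ne' hp0.ne']
      have hl : Real.log p ≤ p - 1 := Real.log_le_sub_one_of_pos hp0
      have hlhs : (1 / v - 1 / (q * r)) * ((u - v) ^ 2 / u) =
          (1 - 1 / p) * (g - 2 + 1 / g) := by
        rw [hRv, hug]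
        field_simp
        ring
      rw [hlhs]
      have e1 : 1 / (g / p) = p / g := by
        field_simp
      rw [e1]
      have e2 : g / p = g * (1 / p) := by ring
      have e3 : p / g = p * (1 / g) := by ring
      rw [e2, e3]
      have hP : p * (1 / p) = 1 := by field_simp
      set P := 1 / p with hPdef
      set Gi := 1 / g with hGi
      have hGi0 : 0 < Gi := by positivity
      have hPle : P ≤ 1 := by
        rw [hPdef, div_le_one hp0]
        exact hp1
      have hP0 : 0 < P := by positivity
      -- log p - 1 + P ≤ (p - 1)^2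
      have h5 : Real.log p - 1 + P ≤ (p - 1) ^ 2 := by
        have h6 : p - 2 + P = (p - 1) ^ 2 * P := by
          have : (p - 1) ^ 2 * P = p * (p * P) - 2 * (p * P) + P := by ring
          rw [this, hP]
          ring
        have h7 : (p - 1) ^ 2 * P ≤ (p - 1) ^ 2 := by
          nlinarith [sq_nonneg (p - 1)]
        linarith
      have h8 : (p - 1) ^ 2 ≤ (q - 1) ^ 2 := by
        apply pow_le_pow_left₀ <;> linarith
      have h9 : 0 ≤ (p - 1) * (1 - P) * Gi := by
        apply mul_nonneg (mul_nonneg _ _) hGi0.le <;> linarith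
      nlinarith [h5, h8, h9]
    · rw [max_eq_right h2]
      have h3 : ff (q * r / (q * r)) = 0 := ff_of_le (by rw [div_self hR.ne'])
      rw [h3]
      have h4 : 1 / v ≤ 1 / r := one_div_le_one_div_of_le hr hv
      have h5 : (u - v) ^ 2 / u ≤ (q * r - r) ^ 2 / r := by
        apply div_le_div₀ (by positivity) _ hr hu
        rw [sq_le_sq, abs_of_nonneg (a := q * r - r) (by nlinarith)]
        rw [abs_le]
        constructor <;> linarith
      have h6 : 0 ≤ 1 / v - 1 / (q * r) := by
        have := one_div_le_one_div_of_le hv0 h1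
        linarith
      calc (1 / v - 1 / (q * r)) * ((u - v) ^ 2 / u)
          ≤ (1 / r - 1 / (q * r)) * ((q * r - r) ^ 2 / r) := by
            apply mul_le_mul _ h5 (by positivity)
            · linarith
            · linarith
        _ = (q - 1) ^ 3 / q := by
            field_simp
        _ ≤ 2 * (q - 1) ^ 2 := by
            rw [div_le_iff₀ (by linarith)]
            nlinarith [sq_nonneg (q - 1)]
        _ ≤ ff (u / v) - 0 + 2 * (q - 1) ^ 2 := by
            have := ff_nonneg (u / v)
            linarith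

end CLRT
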