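import Pool.Agent.Lib.MP_efa090_mp.TKlein

namespace CLRT

open Matrix

variable {n : Type*} [Fintype n] [DecidableEq n]

/-- `X^(1/2) Y^(-1) X^(1/2)` with `X = diag x`, `Y = U diag y U*`. -/
noncomputable def NN (U : Matrix n n ℂ) (x y : n → ℝ) : Matrix n n ℂ :=
  dg (fun i => √(x i)) * (U * dg (fun j => 1 / y j) * Uᴴ) * dg (fun i => √(x i))

/-- `Y^(-1/2) X Y^(-1/2)`. -/
noncomputable def MM (U : Matrix n n ℂ) (x y : n → ℝ) : Matrix n n ℂ :=
  dg (fun j => √(1 / y j)) * (Uᴴ * dg x * U) * dg (fun j => √(1 / y j))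

lemma NN_herm (U : Matrix n n ℂ) (x y : n → ℝ) : (NN U x y).IsHermitian := by
  unfold NN
  rw [Matrix.IsHermitian]
  simp only [conjTranspose_mul, dg_conj, conjTranspose_conjTranspose, Matrix.mul_assoc]

lemma MM_herm (U : Matrix n n ℂ) (x y : n → ℝ) : (MM U x y).IsHermitian := by
  unfold MM
  rw [Matrix.IsHermitian]
  simp only [conjTranspose_mul, dg_conj, conjTranspose_conjTranspose, Matrix.mul_assoc]

lemma trf_NN_MM (U : Matrix n n ℂ) (x y : n → ℝ) (hx : ∀ i, 0 ≤ x i) (hy : ∀ j, 0 < y j) :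
    trf (NN U x y) = trf (MM U x y) := by
  have e1 : NN U x y = (dg (fun i => √(x i)) * U * dg (fun j => √(1 / y j))) *
      (dg (fun j => √(1 / y j)) * Uᴴ * dg (fun i => √(x i))) := by
    have h : dg (fun j => 1 / y j) = dg (fun j => √(1 / y j)) * dg (fun j => √(1 / y j)) := by
      rw [dg_mul]
      congr 1
      funext j
      rw [Real.mul_self_sqrt]
      have := hy j
      positivity
    unfold NN
    rw [h]
    simp only [Matrix.mul_assoc]
  have e2 : MM U x y = (dg (fun j => √(1 / y j)) * Uᴴ * dg (fun i => √(x i))) *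
      (dg (fun i => √(x i)) * U * dg (fun j => √(1 / y j))) := by
    have h : dg x = dg (fun i => √(x i)) * dg (fun i => √(x i)) := by
      rw [dg_mul]
      congr 1
      funext j
      rw [Real.mul_self_sqrt (hx j)]
    unfold MM
    rw [h]
    simp only [Matrix.mul_assoc]
  rw [e1, e2, trf_comm]

/-- Monotonicity in `x`. -/
lemma mono_x (U : Matrix n n ℂ) (x x' y : n → ℝ) (hx : ∀ i, 0 ≤ x i) (hxx : ∀ i, x i ≤ x' i)
    (hy : ∀ j, 0 < y j) : trf (NN U x y) ≤ trf (NN U x' y) := by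
  rw [trf_NN_MM U x y hx hy, trf_NN_MM U x' y (fun i => (hx i).trans (hxx i)) hy]
  obtain ⟨V, a, hV⟩ := exists_Dg (MM_herm U x y)
  have key : ∀ k, (Vᴴ * (MM U x' y - MM U x y) * V) k k =
      ((∑ i, (x' i - x i) * ‖(U * dg (fun j => √(1 / y j)) * V) i k‖ ^ 2 : ℝ) : ℂ) := by
    intro k
    have e : Vᴴ * (MM U x' y - MM U x y) * V =
        (U * dg (fun j => √(1 / y j)) * V)ᴴ * dg (fun i => x' i - x i) *
          (U * dg (fun j => √(1 / y j)) * V) := by
      rw [← dg_sub]
      unfold MM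
      simp only [conjTranspose_mul, dg_conj, conjTranspose_conjTranspose, Matrix.mul_assoc,
        Matrix.mul_sub, Matrix.sub_mul]
    rw [e]
    exact quad _ _ k
  have h := klein hV (MM_herm U x' y) _ key
  have h2 : 0 ≤ ∑ k, fd (a k) *
      (∑ i, (x' i - x i) * ‖(U * dg (fun j => √(1 / y j)) * V) i k‖ ^ 2) := by
    refine Finset.sum_nonneg fun k _ => mul_nonneg (fd_nonneg _) ?_
    refine Finset.sum_nonneg fun i _ => mul_nonneg ?_ (by positivity)
    have := hxx i
    linarith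
  linarith

/-- Change of `y` (Klein plus the estimate of the boundary term). -/
lemma step_y (U : Matrix n n ℂ) (hU' : Uᴴ * U = 1)
    (x y y' : n → ℝ) (hx : ∀ i, 0 < x i)
    (hy : ∀ j, 0 < y j) (hyy : ∀ j, y j ≤ y' j) :
    trf (NN U x y) - ∑ j, (1 / y j - 1 / y' j) * ∑ i, ‖U i j‖ ^ 2 * ((x i - y j) ^ 2 / x i) ≤
      trf (NN U x y') := by
  obtain ⟨V, a, hV⟩ := exists_Dg (NN_herm U x y)
  set H : Matrix n n ℂ := Uᴴ * dg (fun i => √(x i)) * V with hH
  have key : ∀ k, (Vᴴ * (NN U x y' - NN U x y) * V) k k =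
      ((∑ j, (1 / y' j - 1 / y j) * ‖H j k‖ ^ 2 : ℝ) : ℂ) := by
    intro k
    have e : Vᴴ * (NN U x y' - NN U x y) * V =
        Hᴴ * dg (fun j => 1 / y' j - 1 / y j) * H := by
      rw [← dg_sub, hH]
      unfold NN
      simp only [conjTranspose_mul, dg_conj, conjTranspose_conjTranspose, Matrix.mul_assoc,
        Matrix.mul_sub, Matrix.sub_mul]
    rw [e]
    exact quad _ _ k
  have h := klein hV (NN_herm U x y') _ key
  -- the boundary term
  have hsq : dg (fun i => √(x i)⁻¹) * dg (fun i => √(x i)) = (1 : Matrix n n ℂ) := by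
    rw [dg_mul]
    apply dg_one
    intro k
    have : 0 < √(x k) := Real.sqrt_pos.mpr (hx k)
    rw [Real.sqrt_inv]
    field_simp
  -- diag(1/y) H = (U^H X^{-1/2} V) diag(a)
  have hrel : dg (fun j => 1 / y j) * H = (Uᴴ * dg (fun i => √(x i)⁻¹) * V) * dg a := by
    have e1 : NN U x y * V = V * dg a := by
      rw [hV.eq, Matrix.mul_assoc, hV.left, Matrix.mul_one]
    have e2 : Uᴴ * dg (fun i => √(x i)⁻¹) * (NN U x y * V) = dg (fun j => 1 / y j) * H := by
      have e3 : Uᴴ * dg (fun i => √(x i)⁻¹) * (NN U x y * V) =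
          Uᴴ * (dg (fun i => √(x i)⁻¹) * dg (fun i => √(x i))) * U * dg (fun j => 1 / y j) *
            (Uᴴ * dg (fun i => √(x i)) * V) := by
        unfold NN
        simp only [Matrix.mul_assoc]
      rw [e3, hsq, Matrix.mul_one, hU', Matrix.one_mul, ← hH]
    rw [← e2, e1]
    simp only [Matrix.mul_assoc]
  set K : Matrix n n ℂ := Uᴴ * dg (fun i => √(x i)⁻¹) * V with hK
  have hent : ∀ j k, H j k = y j * (K j k * a k) := by
    intro j k
    have e := congrFun (congrFun hrel j) k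
    unfold dg at e
    rw [Matrix.diagonal_mul, Matrix.mul_diagonal] at e
    rw [← e]
    have : (y j : ℂ) ≠ 0 := by exact_mod_cast (hy j).ne'
    push_cast
    field_simp
  -- Parseval
  have hpar : ∀ j, ∑ k, ‖H j k - y j * K j k‖ ^ 2 =
      ∑ i, ‖U i j‖ ^ 2 * ((x i - y j) ^ 2 / x i) := by
    intro j
    set D : n → ℝ := fun i => √(x i) - y j * √(x i)⁻¹ with hD
    have e1 : ∀ k, H j k - y j * K j k = (Uᴴ * dg D * V) j k := by
      intro k
      have e2 : Uᴴ * dg D * V = H - (y j : ℂ) • K := by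
        have e3 : dg D = dg (fun i => √(x i)) - (y j : ℂ) • dg (fun i => √(x i)⁻¹) := by
          unfold dg
          rw [← diagonal_smul, diagonal_sub]
          congr 1
          funext i
          simp [hD]
        rw [e3, hH, hK]
        simp only [Matrix.mul_sub, Matrix.sub_mul, Matrix.mul_smul, Matrix.smul_mul]
      rw [e2]
      simp
    have e4 : (Uᴴ * dg D * V) * dg (fun _ => 1) * (Uᴴ * dg D * V)ᴴ =
        Uᴴ * dg (fun i => D i * D i) * U := by
      rw [dg_one (fun _ => rfl), Matrix.mul_one]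
      simp only [conjTranspose_mul, dg_conj, conjTranspose_conjTranspose]
      have e5 : Uᴴ * dg D * V * (Vᴴ * (dg D * U)) = Uᴴ * (dg D * (V * Vᴴ) * dg D) * U := by
        simp only [Matrix.mul_assoc]
      rw [e5, hV.right, Matrix.mul_one, dg_mul]
    have e6 := quad' (Uᴴ * dg D * V) (fun _ => 1) j
    rw [e4, quad] at e6
    have e7 : (∑ i, D i * D i * ‖U i j‖ ^ 2) = ∑ k, (1 : ℝ) * ‖(Uᴴ * dg D * V) j k‖ ^ 2 := by
      exact_mod_cast e6
    calc ∑ k, ‖H j k - y j * K j k‖ ^ 2 = ∑ k, (1 : ℝ) * ‖(Uᴴ * dg D * V) j k‖ ^ 2 := by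
          refine Finset.sum_congr rfl fun k _ => ?_
          rw [e1 k, one_mul]
      _ = ∑ i, D i * D i * ‖U i j‖ ^ 2 := e7.symm
      _ = _ := by
          refine Finset.sum_congr rfl fun i _ => ?_
          have h1 : 0 < √(x i) := Real.sqrt_pos.mpr (hx i)
          have h2 : √(x i) ^ 2 = x i := Real.sq_sqrt (hx i).le
          have h3 : D i * D i = (x i - y j) ^ 2 / x i := by
            simp only [hD]
            rw [Real.sqrt_inv]
            have h4 : √(x i) - y j * (√(x i))⁻¹ = (√(x i) ^ 2 - y j) / √(x i) := by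
              field_simp
            rw [h4, div_mul_div_comm, ← sq, ← sq, h2]
          rw [h3]
          ring
  have hterm : ∀ j k, fd (a k) * ‖H j k‖ ^ 2 ≤ ‖H j k - y j * K j k‖ ^ 2 := by
    intro j k
    rcases le_or_gt (a k) 1 with h1 | h1
    · rw [fd_of_le h1, zero_mul]
      positivity
    · have ha0 : a k ≠ 0 := by linarith
      have e1 : H j k - y j * K j k = ((1 - 1 / a k : ℝ) : ℂ) * H j k := by
        rw [hent j k]
        have : (a k : ℂ) ≠ 0 := by exact_mod_cast ha0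
        push_cast
        field_simp
      rw [e1, norm_mul, mul_pow, Complex.norm_real, Real.norm_eq_abs, sq_abs]
      exact mul_le_mul_of_nonneg_right (fd_le _) (by positivity)
  have hsum : ∑ k, fd (a k) * ∑ j, (1 / y' j - 1 / y j) * ‖H j k‖ ^ 2 =
      - ∑ j, (1 / y j - 1 / y' j) * ∑ k, fd (a k) * ‖H j k‖ ^ 2 := by
    rw [← Finset.sum_neg_distrib]
    simp only [Finset.mul_sum]
    rw [Finset.sum_comm, ← Finset.sum_congr rfl]
    intro j _
    rw [← Finset.sum_neg_distrib]
    refine Finset.sum_congr rfl fun k _ => ?_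
    ring
  have hfin : ∑ j, (1 / y j - 1 / y' j) * ∑ k, fd (a k) * ‖H j k‖ ^ 2 ≤
      ∑ j, (1 / y j - 1 / y' j) * ∑ i, ‖U i j‖ ^ 2 * ((x i - y j) ^ 2 / x i) := by
    refine Finset.sum_le_sum fun j _ => ?_
    have h1 : 0 ≤ 1 / y j - 1 / y' j := by
      have := one_div_le_one_div_of_le (hy j) (hyy j)
      linarith
    refine mul_le_mul_of_nonneg_left ?_ h1
    rw [← hpar j]
    exact Finset.sum_le_sum fun k _ => hterm j k
  rw [hsum] at h
  linarith

end CLRT
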