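import Pool.Agent.Lib.MP_efa090_mp.Defs

/-! Row Tst1: closure properties of the test functions. -/

open MeasureTheory Set Real

namespace Pool.Agent.CLR5

private theorem Tst1_lip {v : ℝ → ℝ} {C : ℝ} (hC : 0 ≤ C)
    (h : ∀ x y, |v x - v y| ≤ C * |x - y|) : ∃ K : NNReal, LipschitzWith K v := by
  refine ⟨⟨C, hC⟩, LipschitzWith.of_dist_le_mul fun x y => ?_⟩
  rw [Real.dist_eq, Real.dist_eq]
  exact h x y

private theorem Tst1_lip' {v : ℝ → ℝ} (hv : ∃ K : NNReal, LipschitzWith K v) :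
    ∃ C : ℝ, 0 ≤ C ∧ ∀ x y, |v x - v y| ≤ C * |x - y| := by
  obtain ⟨K, hK⟩ := hv
  refine ⟨K, K.2, fun x y => ?_⟩
  have h := hK.dist_le_mul x y
  rwa [Real.dist_eq, Real.dist_eq] at h

private theorem Tst1_bdd {v : ℝ → ℝ} (hv : Tst v) : ∃ C : ℝ, 0 ≤ C ∧ ∀ t, |v t| ≤ C := by
  obtain ⟨K, hK⟩ := hv.lip
  obtain ⟨C, hC⟩ := hv.cs.exists_bound_of_continuous hK.continuous
  refine ⟨C, (norm_nonneg _).trans (hC 0), fun t => ?_⟩
  have := hC t
  rwa [Real.norm_eq_abs] at this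

theorem Tst.zero : Tst (fun _ => 0) := by
  refine ⟨⟨0, LipschitzWith.const 0⟩, ?_⟩
  exact HasCompactSupport.zero

theorem Tst.add {v w : ℝ → ℝ} (hv : Tst v) (hw : Tst w) : Tst (fun t => v t + w t) := by
  obtain ⟨K, hK⟩ := hv.lip
  obtain ⟨L, hL⟩ := hw.lip
  exact ⟨⟨K + L, hK.add hL⟩, hv.cs.add hw.cs⟩

theorem Tst.smul {v : ℝ → ℝ} (hv : Tst v) (c : ℝ) : Tst (fun t => c * v t) := by
  obtain ⟨C, hC, h⟩ := Tst1_lip' hv.lip
  refine ⟨Tst1_lip (C := |c| * C) (by positivity) fun x y => ?_, ?_⟩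
  · rw [← mul_sub, abs_mul, mul_assoc]
    exact mul_le_mul_of_nonneg_left (h x y) (abs_nonneg c)
  · exact hv.cs.mul_left

/-- product with a bounded Lipschitz function -/
theorem Tst.mul_lip {v g : ℝ → ℝ} (hv : Tst v) {K : NNReal} (hg : LipschitzWith K g) {M : ℝ}
    (hM : ∀ t, |g t| ≤ M) : Tst (fun t => v t * g t) := by
  obtain ⟨C, hC, h⟩ := Tst1_lip' hv.lip
  obtain ⟨D, hD, h'⟩ := Tst1_lip' ⟨K, hg⟩
  obtain ⟨A, hA, hvA⟩ := Tst1_bdd hv
  have hM0 : 0 ≤ M := (abs_nonneg _).trans (hM 0)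
  refine ⟨Tst1_lip (C := C * M + A * D) (by positivity) fun x y => ?_, ?_⟩
  · have e : v x * g x - v y * g y = (v x - v y) * g x + v y * (g x - g y) := by ring
    rw [e]
    calc |(v x - v y) * g x + v y * (g x - g y)|
        ≤ |(v x - v y) * g x| + |v y * (g x - g y)| := abs_add_le _ _
      _ = |v x - v y| * |g x| + |v y| * |g x - g y| := by rw [abs_mul, abs_mul]
      _ ≤ (C * |x - y|) * M + A * (D * |x - y|) := by
          gcongr
          · exact h x y
          · exact hM x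
          · exact hvA y
          · exact h' x y
      _ = (C * M + A * D) * |x - y| := by ring
  · exact hv.cs.mul_right

/-- a continuously differentiable function with compact support -/
theorem Tst.of_contDiff {v : ℝ → ℝ} (hv : ContDiff ℝ 1 v) (hc : HasCompactSupport v) : Tst v := by
  exact ⟨hv.lipschitzWith_of_hasCompactSupport hc (by norm_num), hc⟩

private theorem Tst1_cut {v : ℝ → ℝ} (hv : Tst v) {s : Set ℝ} 
    (hs : ∀ x ∈ s, ∀ y ∉ s, ∃ z, v z = 0 ∧ |x - z| ≤ |x - y|) : Tst (indicator s v) := by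
  obtain ⟨C, hC, h⟩ := Tst1_lip' hv.lip
  have key : ∀ x ∈ s, ∀ y ∉ s, |v x| ≤ C * |x - y| := by
    intro x hx y hy
    obtain ⟨z, hz, hxz⟩ := hs x hx y hy
    have := h x z
    rw [hz, sub_zero] at this
    exact this.trans (mul_le_mul_of_nonneg_left hxz hC)
  refine ⟨Tst1_lip (C := C) hC fun x y => ?_, ?_⟩
  · by_cases hx : x ∈ s
    · by_cases hy : y ∈ s
      · rw [indicator_of_mem hx, indicator_of_mem hy]
        exact h x y
      · rw [indicator_of_mem hx, indicator_of_notMem hy, sub_zero]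
        exact key x hx y hy
    · by_cases hy : y ∈ s
      · rw [indicator_of_notMem hx, indicator_of_mem hy, zero_sub, abs_neg, abs_sub_comm]
        exact key y hy x hx
      · rw [indicator_of_notMem hx, indicator_of_notMem hy, sub_zero, abs_zero]
        positivity
  · refine hv.cs.mono ?_
    intro x hx
    rw [Function.mem_support] at hx ⊢
    intro h0
    apply hx
    by_cases hxs : x ∈ s
    · rw [indicator_of_mem hxs, h0]
    · rw [indicator_of_notMem hxs]

/-- cutting at zeros -/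
theorem Tst.cut {v : ℝ → ℝ} (hv : Tst v) {a b : ℝ} (hab : a ≤ b) (ha : v a = 0) (hb : v b = 0) :
    Tst (indicator (Icc a b) v) := by
  refine Tst1_cut hv ?_
  rintro x ⟨hx1, hx2⟩ y hy
  rw [mem_Icc, not_and_or, not_le, not_le] at hy
  rcases hy with hy | hy
  · refine ⟨a, ha, ?_⟩
    rw [abs_of_nonneg (by linarith), abs_of_nonneg (by linarith)]
    linarith
  · refine ⟨b, hb, ?_⟩
    rw [abs_of_nonpos (by linarith), abs_of_nonpos (by linarith)]
    linarith

theorem Tst.cut_Iic {v : ℝ → ℝ} (hv : Tst v) {a : ℝ} (ha : v a = 0) :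
    Tst (indicator (Iic a) v) := by
  refine Tst1_cut hv ?_
  intro x hx y hy
  rw [mem_Iic] at hx
  rw [mem_Iic, not_le] at hy
  refine ⟨a, ha, ?_⟩
  rw [abs_of_nonpos (by linarith), abs_of_nonpos (by linarith)]
  linarith

theorem Tst.cut_Ici {v : ℝ → ℝ} (hv : Tst v) {a : ℝ} (ha : v a = 0) :
    Tst (indicator (Ici a) v) := by
  refine Tst1_cut hv ?_
  intro x hx y hy
  rw [mem_Ici] at hx
  rw [mem_Ici, not_le] at hy
  refine ⟨a, ha, ?_⟩
  rw [abs_of_nonneg (by linarith), abs_of_nonneg (by linarith)]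
  linarith

theorem Tst.continuous {v : ℝ → ℝ} (hv : Tst v) : Continuous v := by
  obtain ⟨K, hK⟩ := hv.lip
  exact hK.continuous

theorem Tst.ae_diff {v : ℝ → ℝ} (hv : Tst v) : ∀ᵐ t, DifferentiableAt ℝ v t := by
  obtain ⟨K, hK⟩ := hv.lip
  exact hK.ae_differentiableAt_real

/-- everywhere bounds; the derivative vanishes outside the support -/
theorem Tst.bdd {v : ℝ → ℝ} (hv : Tst v) : ∃ C : ℝ, 0 ≤ C ∧ (∀ t, |v t| ≤ C) ∧
    (∀ t, |deriv v t| ≤ C) ∧ ∀ t, C < |t| → v t = 0 ∧ deriv v t = 0 := by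
  obtain ⟨A, hA, hvA⟩ := Tst1_bdd hv
  obtain ⟨K, hK⟩ := hv.lip
  obtain ⟨R, hR⟩ := hv.cs.isCompact.isBounded.subset_closedBall (0 : ℝ)
  refine ⟨max (max A K) (max R 0), by positivity, fun t => ?_, fun t => ?_, fun t ht => ?_⟩
  · exact (hvA t).trans ((le_max_left _ _).trans (le_max_left _ _))
  · have := norm_deriv_le_of_lipschitz (x₀ := t) hK
    rw [Real.norm_eq_abs] at this
    exact this.trans ((le_max_right _ _).trans (le_max_left _ _))
  · have hRt : R < |t| := lt_of_le_of_lt ((le_max_left _ _).trans (le_max_right _ _)) ht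
    have hts : t ∉ tsupport v := by
      intro h
      have := hR h
      rw [Metric.mem_closedBall, Real.dist_eq, sub_zero] at this
      linarith
    have hev : v =ᶠ[nhds t] 0 := by
      rw [notMem_tsupport_iff_eventuallyEq] at hts
      exact hts
    refine ⟨hev.eq_of_nhds, ?_⟩
    rw [hev.deriv_eq]
    simp

/-- almost everywhere on the zero set the derivative vanishes -/
theorem Tst.deriv_ae_zero {v : ℝ → ℝ} (hv : Tst v) : ∀ᵐ t, v t = 0 → deriv v t = 0 := by
  have hc : { x ∈ {t | v t = 0} | nhdsWithin x ({t | v t = 0} ∩ Ioi x) = ⊥ }.Countable :=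
    countable_setOfPred_isolated_right_within
  have h0 := hc.ae_notMem volume
  filter_upwards [h0, hv.ae_diff] with t ht hd hvt
  have hne : (nhdsWithin t ({t | v t = 0} ∩ Ioi t)).NeBot := by
    refine ⟨fun hbot => ht ⟨hvt, hbot⟩⟩
  have hu : UniqueDiffWithinAt ℝ ({t | v t = 0} ∩ Ioi t) t := by
    rw [uniqueDiffWithinAt_iff_accPt, accPt_principal_iff_nhdsWithin]
    refine hne.mono (nhdsWithin_mono _ ?_)
    rintro y ⟨hy1, hy2⟩
    exact ⟨⟨hy1, hy2⟩, (ne_of_gt hy2 : y ≠ t)⟩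
  refine hu.eq_deriv _ hd.hasDerivAt.hasDerivWithinAt ?_
  refine (hasDerivWithinAt_const t ({t | v t = 0} ∩ Ioi t) (0 : ℝ)).congr ?_ hvt
  intro y hy
  exact hy.1

end Pool.Agent.CLR5
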