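import Pool.Agent.Lib.MP_efa090_mp.Tst1

/-! Row Tst2: integrability, expansion of the form, fundamental theorem of calculus. -/

open MeasureTheory Set Real

namespace Pool.Agent.CLR5

private theorem Tst2_intble {a b g : ℝ → ℝ} {C C' : ℝ} (ha : Measurable a) (hb : Measurable b)
    (hg : Continuous g) (h1 : ∀ t, |a t| ≤ C) (h2 : ∀ t, |b t| ≤ C')
    (h0 : ∀ t, C < |t| → a t = 0) : Integrable (fun t => g t * (a t * b t)) := by
  obtain ⟨M, hM⟩ := (isCompact_Icc (a := -C) (b := C)).exists_bound_of_continuousOn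
    hg.continuousOn
  have hm : Measurable (fun t => g t * (a t * b t)) := hg.measurable.mul (ha.mul hb)
  have hC : 0 ≤ C := (abs_nonneg _).trans (h1 0)
  have hC' : 0 ≤ C' := (abs_nonneg _).trans (h2 0)
  have hs : Function.support (fun t => g t * (a t * b t)) ⊆ Icc (-C) C := by
    intro t ht
    by_contra hn
    apply ht
    have : C < |t| := by
      by_contra hle
      exact hn (abs_le.1 (not_lt.1 hle))
    simp [h0 t this]
  rw [← integrableOn_iff_integrable_of_support_subset hs]
  refine Measure.integrableOn_of_bounded (M := M * (C * C')) (by simp) hm.aestronglyMeasurable ?_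
  filter_upwards [ae_restrict_mem measurableSet_Icc] with t ht
  rw [norm_mul, norm_mul]
  exact mul_le_mul (hM t ht) (mul_le_mul (by rw [Real.norm_eq_abs]; exact h1 t)
    (by rw [Real.norm_eq_abs]; exact h2 t) (norm_nonneg _) hC) (by positivity)
    ((norm_nonneg _).trans (hM t ht))

theorem Tst.int_mul {v w g : ℝ → ℝ} (hv : Tst v) (hw : Tst w) (hg : Continuous g) :
    Integrable (fun t => g t * (v t * w t)) ∧ Integrable (fun t => g t * (v t * deriv w t)) ∧
      Integrable (fun t => g t * (deriv v t * deriv w t)) := by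
  obtain ⟨C, -, h1, h2, h3⟩ := hv.bdd
  obtain ⟨C', -, h1', h2', -⟩ := hw.bdd
  exact ⟨Tst2_intble hv.continuous.measurable hw.continuous.measurable hg h1 h1'
      (fun t ht => (h3 t ht).1),
    Tst2_intble hv.continuous.measurable (measurable_deriv w) hg h1 h2'
      (fun t ht => (h3 t ht).1),
    Tst2_intble (measurable_deriv v) (measurable_deriv w) hg h2 h2'
      (fun t ht => (h3 t ht).2)⟩

theorem Tst.int_sq {v : ℝ → ℝ} (hv : Tst v) : Integrable (fun t => v t ^ 2) ∧
    Integrable (fun t => deriv v t ^ 2) := by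
  obtain ⟨h1, -, h3⟩ := hv.int_mul hv (g := fun _ => 1) continuous_const
  constructor
  · refine h1.congr (Filter.Eventually.of_forall fun t => ?_)
    simp only
    ring
  · refine h3.congr (Filter.Eventually.of_forall fun t => ?_)
    simp only
    ring

theorem Q_eq {W : ℝ → ℝ} (hW : Continuous W) (E : ℝ) {v : ℝ → ℝ} (hv : Tst v) :
    Q W E v = (∫ t, deriv v t ^ 2) + E * (∫ t, v t ^ 2) - ∫ t, W t * v t ^ 2 := by
  obtain ⟨h1, h2⟩ := hv.int_sq
  have h3 : Integrable (fun t => W t * v t ^ 2) := by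
    refine (hv.int_mul hv hW).1.congr (Filter.Eventually.of_forall fun t => ?_)
    simp only
    ring
  have h4 : Integrable (fun t => deriv v t ^ 2 + E * v t ^ 2) := h2.add (h1.const_mul E)
  rw [Q, integral_sub h4 h3, integral_add h2 (h1.const_mul E), integral_const_mul]

theorem Q_zero (W : ℝ → ℝ) (E : ℝ) : Q W E (fun _ => 0) = 0 := by
  simp [Q]

/-- change of the energy -/
theorem Q_energy {W : ℝ → ℝ} (hW : Continuous W) (E E' : ℝ) {v : ℝ → ℝ} (hv : Tst v) :
    Q W E' v = Q W E v + (E' - E) * ∫ t, v t ^ 2 := by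
  rw [Q_eq hW E' hv, Q_eq hW E hv]
  ring

private theorem Tst2_Bint {W : ℝ → ℝ} (hW : Continuous W) (E : ℝ) {v w : ℝ → ℝ} (hv : Tst v)
    (hw : Tst w) :
    Integrable (fun t => deriv v t * deriv w t + E * (v t * w t) - W t * (v t * w t)) := by
  have h1 := (hv.int_mul hw (g := fun _ => 1) continuous_const).2.2
  simp only [one_mul] at h1
  exact (h1.add (hv.int_mul hw (g := fun _ => E) continuous_const).1).sub (hv.int_mul hw hW).1

theorem Q_add {W : ℝ → ℝ} (hW : Continuous W) (E : ℝ) {v w : ℝ → ℝ} (hv : Tst v) (hw : Tst w) :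
    Q W E (fun t => v t + w t) = Q W E v + 2 * B W E v w + Q W E w := by
  have e : (fun t => (deriv (fun t => v t + w t) t) ^ 2 + E * (v t + w t) ^ 2 -
      W t * (v t + w t) ^ 2) =ᵐ[volume] fun t =>
      (deriv v t * deriv v t + E * (v t * v t) - W t * (v t * v t)) +
      2 * (deriv v t * deriv w t + E * (v t * w t) - W t * (v t * w t)) +
      (deriv w t * deriv w t + E * (w t * w t) - W t * (w t * w t)) := by
    filter_upwards [hv.ae_diff, hw.ae_diff] with t h1 h2
    rw [deriv_fun_add h1 h2]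
    ring
  have h4 : Integrable fun t =>
      (deriv v t * deriv v t + E * (v t * v t) - W t * (v t * v t)) +
      2 * (deriv v t * deriv w t + E * (v t * w t) - W t * (v t * w t)) :=
    (Tst2_Bint hW E hv hv).add ((Tst2_Bint hW E hv hw).const_mul 2)
  rw [Q, integral_congr_ae e, integral_add h4 (Tst2_Bint hW E hw hw),
    integral_add (Tst2_Bint hW E hv hv) ((Tst2_Bint hW E hv hw).const_mul 2),
    integral_const_mul, Q, Q, B]
  simp only [pow_two]

theorem Q_smul (W : ℝ → ℝ) (E : ℝ) (v : ℝ → ℝ) (c : ℝ) :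
    Q W E (fun t => c * v t) = c ^ 2 * Q W E v := by
  rw [Q, Q, ← integral_const_mul]
  congr 1
  funext t
  rw [deriv_const_mul_field]
  ring

/-- functions with disjoint supports -/
theorem B_disjoint (W : ℝ → ℝ) (E : ℝ) {v w : ℝ → ℝ} (hv : Tst v) (hw : Tst w)
    (h : ∀ t, v t = 0 ∨ w t = 0) : B W E v w = 0 := by
  rw [B, ← integral_zero ℝ ℝ]
  refine integral_congr_ae ?_
  filter_upwards [hv.deriv_ae_zero, hw.deriv_ae_zero] with t h1 h2
  rcases h t with h3 | h3
  · simp [h3, h1 h3]
  · simp [h3, h2 h3]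

/-- the positive part of the energy: an `L^2` bound from below -/
theorem Tst.sq_pos {v : ℝ → ℝ} (hv : Tst v) {x : ℝ} (hx : v x ≠ 0) : 0 < ∫ t, v t ^ 2 := by
  refine Continuous.integral_pos_of_hasCompactSupport_nonneg_nonzero (x := x)
    (hv.continuous.pow 2) ?_ (fun t => sq_nonneg (v t)) (pow_ne_zero 2 hx)
  exact hv.cs.comp_left (g := fun y : ℝ => y ^ 2) (by norm_num)

theorem tst2b_int {h : ℝ → ℝ} (hm : AEStronglyMeasurable h) {M C : ℝ} (hb : ∀ t, |h t| ≤ M)
    (h0 : ∀ t, C < |t| → h t = 0) : Integrable h := by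
  have h1 : IntegrableOn h (Icc (-C) C) :=
    Measure.integrableOn_of_bounded (M := M) (by simp) hm
      (Filter.Eventually.of_forall (fun t => by rw [Real.norm_eq_abs]; exact hb t))
  refine (integrableOn_iff_integrable_of_support_subset ?_).1 h1
  intro t ht
  by_contra hc
  refine ht (h0 t ?_)
  by_contra hc2
  exact hc (abs_le.1 (not_lt.1 hc2))

theorem tst2b_ac {v : ℝ → ℝ} (hv : Tst v) (a b : ℝ) : AbsolutelyContinuousOnInterval v a b := by
  obtain ⟨K, hK⟩ := hv.lip
  exact (hK.lipschitzOnWith (s := uIcc a b)).absolutelyContinuousOnInterval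

theorem tst2b_whole {h : ℝ → ℝ} {C D : ℝ} (_hC : 0 ≤ C) (hD : C < D) (h0 : ∀ t, C < |t| → h t = 0) :
    ∫ t, h t = ∫ t in (-D)..D, h t := by
  symm
  refine intervalIntegral.integral_eq_integral_of_support_subset ?_
  intro t ht
  by_contra hc
  refine ht (h0 t ?_)
  by_contra hc2
  have := abs_le.1 (not_lt.1 hc2)
  exact hc ⟨by linarith, by linarith⟩

/-- no boundary terms: `∫ (F v^2)' = 0` and `∫ (v w)' = 0` -/
theorem Tst.ftc {v F F' : ℝ → ℝ} (hv : Tst v) (hF : ∀ x, HasDerivAt F (F' x) x)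
    (hF' : Continuous F') : ∫ t, (F' t * v t ^ 2 + 2 * F t * (v t * deriv v t)) = 0 := by
  obtain ⟨C, hC, hb1, hb2, hb3⟩ := hv.bdd
  have hFd : ContDiff ℝ 1 F := by
    rw [contDiff_one_iff_deriv]
    refine ⟨fun x => (hF x).differentiableAt, ?_⟩
    have : deriv F = F' := funext fun x => (hF x).deriv
    rw [this]
    exact hF'
  have hFa : AbsolutelyContinuousOnInterval F (-(C + 1)) (C + 1) :=
    hFd.contDiffOn.absolutelyContinuousOnInterval
  have hva := tst2b_ac hv (-(C + 1)) (C + 1)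
  have hvv : AbsolutelyContinuousOnInterval (fun t => v t * v t) (-(C + 1)) (C + 1) :=
    hva.fun_mul hva
  have key := hFa.integral_deriv_mul_eq_sub hvv
  have z1 : v (C + 1) = 0 := (hb3 (C + 1) (by rw [abs_of_pos (by linarith)]; linarith)).1
  have z2 : v (-(C + 1)) = 0 :=
    (hb3 (-(C + 1)) (by rw [abs_neg, abs_of_pos (by linarith)]; linarith)).1
  rw [z1, z2] at key
  simp only [mul_zero, sub_zero] at key
  rw [tst2b_whole (C := C) (D := C + 1) hC (by linarith) (by
    intro t ht
    rw [(hb3 t ht).1]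
    ring), ← key]
  refine intervalIntegral.integral_congr_ae ?_
  filter_upwards [hv.ae_diff] with t ht _
  have h1 : deriv (fun t => v t * v t) t = deriv v t * v t + v t * deriv v t :=
    (ht.hasDerivAt.mul ht.hasDerivAt).deriv
  rw [h1, (hF t).deriv]
  ring

theorem Tst.ftc_mul {v w : ℝ → ℝ} (hv : Tst v) (hw : Tst w) :
    ∫ t, (v t * deriv w t + deriv v t * w t) = 0 := by
  obtain ⟨C, hC, hb1, hb2, hb3⟩ := hv.bdd
  have hva := tst2b_ac hv (-(C + 1)) (C + 1)
  have hwa := tst2b_ac hw (-(C + 1)) (C + 1)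
  have key := hva.integral_deriv_mul_eq_sub hwa
  have z1 : v (C + 1) = 0 := (hb3 (C + 1) (by rw [abs_of_pos (by linarith)]; linarith)).1
  have z2 : v (-(C + 1)) = 0 :=
    (hb3 (-(C + 1)) (by rw [abs_neg, abs_of_pos (by linarith)]; linarith)).1
  rw [z1, z2] at key
  simp only [zero_mul, sub_zero] at key
  rw [tst2b_whole (C := C) (D := C + 1) hC (by linarith) (by
    intro t ht
    rw [(hb3 t ht).1, (hb3 t ht).2]
    ring), ← key]
  refine intervalIntegral.integral_congr_ae ?_
  refine Filter.Eventually.of_forall (fun t _ => ?_)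
  ring

/-- `|G(v(x))| <= ∫_{-oo}^x g(v) |v'|` for a primitive `G` of `g >= 0` with `G 0 = 0`; the sum of
the two sides -/
theorem Tst.path {v g G : ℝ → ℝ} (hv : Tst v) (hg : Continuous g) (hg0 : ∀ x, 0 ≤ g x)
    (hG : ∀ x, HasDerivAt G (g x) x) (hG0 : G 0 = 0) (x : ℝ) :
    2 * |G (v x)| ≤ ∫ t, g (v t) * |deriv v t| := by
  obtain ⟨C, hC, hb1, hb2, hb3⟩ := hv.bdd
  have hGd : ContDiff ℝ 1 G := by
    rw [contDiff_one_iff_deriv]
    refine ⟨fun x => (hG x).differentiableAt, ?_⟩
    have : deriv G = g := funext fun x => (hG x).deriv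
    rw [this]
    exact hg
  obtain ⟨L, hL⟩ := (hGd.contDiffOn (s := Icc (-C) C)).exists_lipschitzOnWith (by decide)
    (convex_Icc _ _) isCompact_Icc
  obtain ⟨K, hK⟩ := hv.lip
  have hmaps : MapsTo v univ (Icc (-C) C) := fun t _ => abs_le.1 (hb1 t)
  have hcomp : LipschitzOnWith (L * K) (G ∘ v) univ := hL.comp hK.lipschitzOnWith hmaps
  have hac : ∀ a b : ℝ, AbsolutelyContinuousOnInterval (fun t => G (v t)) a b := fun a b =>
    (hcomp.mono (subset_univ _)).absolutelyContinuousOnInterval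
  obtain ⟨M, hM⟩ : ∃ M : ℝ, ∀ y ∈ Icc (-C) C, ‖g y‖ ≤ M :=
    isCompact_Icc.exists_bound_of_continuousOn hg.continuousOn
  have hM' : ∀ t, |g (v t)| ≤ M := fun t => hM _ (hmaps (mem_univ t))
  have hM0 : 0 ≤ M := (abs_nonneg _).trans (hM' 0)
  set f : ℝ → ℝ := fun t => g (v t) * |deriv v t| with hf
  have hfm : AEStronglyMeasurable f := by
    refine Measurable.aestronglyMeasurable ?_
    exact (hg.measurable.comp hv.continuous.measurable).mul (measurable_deriv v).abs
  have hfi : Integrable f := by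
    refine tst2b_int hfm (M := M * C) (C := C) ?_ ?_
    · intro t
      rw [hf, abs_mul, abs_abs]
      exact mul_le_mul (hM' t) (hb2 t) (abs_nonneg _) hM0
    · intro t ht
      rw [hf]
      simp only
      rw [(hb3 t ht).2, abs_zero, mul_zero]
  have hf0 : ∀ t, 0 ≤ f t := fun t => mul_nonneg (hg0 _) (abs_nonneg _)
  have hae : ∀ᵐ t, ‖deriv (fun t => G (v t)) t‖ ≤ f t := by
    filter_upwards [hv.ae_diff] with t ht
    have h1 : deriv (fun t => G (v t)) t = g (v t) * deriv v t :=
      ((hG (v t)).comp t ht.hasDerivAt).deriv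
    rw [h1, Real.norm_eq_abs, abs_mul, abs_of_nonneg (hg0 _)]
  have hle : ∀ a b : ℝ, a ≤ b → |G (v b) - G (v a)| ≤ ∫ t in a..b, f t := by
    intro a b hab
    rw [← (hac a b).integral_deriv_eq_sub, ← Real.norm_eq_abs]
    exact intervalIntegral.norm_integral_le_of_norm_le hab
      (hae.mono fun t ht _ => ht) hfi.intervalIntegrable
  set D : ℝ := C + 1 + |x| with hD
  have hx : |x| < D := by linarith
  have hx2 := abs_lt.1 hx
  have hDC : C < D := by linarith [abs_nonneg x]
  have hDpos : 0 < D := by linarith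
  have z1 : v D = 0 := (hb3 D (by rw [abs_of_pos hDpos]; exact hDC)).1
  have z2 : v (-D) = 0 := (hb3 (-D) (by rw [abs_neg, abs_of_pos hDpos]; exact hDC)).1
  have h1 := hle (-D) x hx2.1.le
  have h2 := hle x D hx2.2.le
  rw [z2, hG0, sub_zero] at h1
  rw [z1, hG0, zero_sub, abs_neg] at h2
  have h3 : (∫ t in (-D)..x, f t) + ∫ t in x..D, f t = ∫ t in (-D)..D, f t :=
    intervalIntegral.integral_add_adjacent_intervals hfi.intervalIntegrable hfi.intervalIntegrable
  have h4 : ∫ t, f t = ∫ t in (-D)..D, f t := by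
    refine tst2b_whole (C := C) hC hDC ?_
    intro t ht
    rw [hf]
    simp only
    rw [(hb3 t ht).2, abs_zero, mul_zero]
  rw [h4, ← h3]
  linarith

/-- sup bound on an interval of length `b - a` -/
theorem Tst.sup_le {v : ℝ → ℝ} (hv : Tst v) {a b : ℝ} (hab : a < b)
    (h0 : ∀ t, t ∉ Icc a b → v t = 0) (x : ℝ) :
    4 * v x ^ 2 ≤ (b - a) * ∫ t, deriv v t ^ 2 := by
  obtain ⟨C, hC, hb1, hb2, hb3⟩ := hv.bdd
  have hd0 : ∀ t, t ∉ Icc a b → deriv v t = 0 := by
    intro t ht
    have h1 : v =ᶠ[nhds t] fun _ => (0 : ℝ) := by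
      filter_upwards [isClosed_Icc.isOpen_compl.mem_nhds ht] with s hs
      exact h0 s hs
    rw [h1.deriv_eq, deriv_const]
  have hmd : Measurable (deriv v) := measurable_deriv v
  have i1 : Integrable (fun t => |deriv v t|) := by
    refine tst2b_int hmd.abs.aestronglyMeasurable (M := C) (C := C) ?_ ?_
    · intro t
      rw [abs_abs]
      exact hb2 t
    · intro t ht
      rw [(hb3 t ht).2, abs_zero]
  have i2 : Integrable (fun t => deriv v t ^ 2) := by
    refine tst2b_int (hmd.pow_const 2).aestronglyMeasurable (M := C ^ 2) (C := C) ?_ ?_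
    · intro t
      rw [abs_pow]
      exact pow_le_pow_left₀ (abs_nonneg _) (hb2 t) 2
    · intro t ht
      rw [(hb3 t ht).2]
      norm_num
  have hp := hv.path (g := fun _ => (1 : ℝ)) (G := fun y => y) continuous_const
    (fun _ => zero_le_one) (fun y => hasDerivAt_id y) rfl x
  simp only [one_mul] at hp
  set m : ℝ := ∫ t, |deriv v t| with hm
  set J : ℝ := ∫ t, deriv v t ^ 2 with hJ
  have e1 : m = ∫ t in Icc a b, |deriv v t| := by
    rw [hm]
    refine (setIntegral_eq_integral_of_forall_compl_eq_zero ?_).symm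
    intro t ht
    rw [hd0 t ht, abs_zero]
  have e2 : J = ∫ t in Icc a b, deriv v t ^ 2 := by
    rw [hJ]
    refine (setIntegral_eq_integral_of_forall_compl_eq_zero ?_).symm
    intro t ht
    rw [hd0 t ht]
    norm_num
  have hq : ∀ l : ℝ, 0 ≤ J - 2 * l * m + l ^ 2 * (b - a) := by
    intro l
    have h1 : 0 ≤ ∫ t in Icc a b, (|deriv v t| - l) ^ 2 :=
      integral_nonneg fun t => sq_nonneg _
    have h2 : ∫ t in Icc a b, (|deriv v t| - l) ^ 2 =
        J - 2 * l * m + l ^ 2 * (b - a) := by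
      have h3 : ∀ t, (|deriv v t| - l) ^ 2 =
          (deriv v t ^ 2 - 2 * l * |deriv v t|) + l ^ 2 := by
        intro t
        rw [sub_sq, sq_abs]
        ring
      simp_rw [h3]
      have j1 : IntegrableOn (fun t => deriv v t ^ 2) (Icc a b) := i2.integrableOn
      have j2 : IntegrableOn (fun t => 2 * l * |deriv v t|) (Icc a b) :=
        (i1.const_mul (2 * l)).integrableOn
      have j3 : IntegrableOn (fun _ : ℝ => l ^ 2) (Icc a b) :=
        integrableOn_const (by simp)
      have j4 : IntegrableOn (fun t => deriv v t ^ 2 - 2 * l * |deriv v t|) (Icc a b) := j1.sub j2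
      rw [integral_add j4 j3, integral_sub j1 j2, integral_const_mul, ← e1, ← e2,
        setIntegral_const]
      simp only [Real.volume_real_Icc, smul_eq_mul]
      rw [max_eq_left (by linarith)]
      ring
    rw [← h2]
    exact h1
  have hba : 0 < b - a := by linarith
  have h5 := hq (m / (b - a))
  have h6 : J - 2 * (m / (b - a)) * m + (m / (b - a)) ^ 2 * (b - a) = J - m ^ 2 / (b - a) := by
    field_simp
    ring
  rw [h6] at h5
  have h7 : m ^ 2 ≤ (b - a) * J := by
    have : m ^ 2 / (b - a) ≤ J := by linarith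
    rw [div_le_iff₀ hba] at this
    linarith
  have h8 : (2 * |v x|) ^ 2 ≤ m ^ 2 := pow_le_pow_left₀ (by positivity) hp 2
  have h9 : (2 * |v x|) ^ 2 = 4 * v x ^ 2 := by rw [mul_pow, sq_abs]; norm_num
  linarith

end Pool.Agent.CLR5
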